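import Pool.Agent.MP_696f7f_ag.H96.APres

/-! The companion object. -/

namespace Pool.Agent.MP_696f7f_ag.H96

variable {K : Type} [Field K] [Algebra ℝ K] {n : ℕ} {M : Model K n} {E : ℕ → Set M.P}
  {k c d e : ℕ} {S : M.Obj}

namespace AComp

/-- the residual parts of all exact flat presentations -/
def ext (L : Loc K) (n c d e k : ℕ) (Y : ℕ → Set K) (S : Set (K × ℕ)) : Set (K × ℕ) :=
  {p | p.2 = e ∧ L.Cos S ∧ ∃ (Z G : Set K) (y : ℕ → K) (μ : ℕ → ℕ) (r : K → K),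
    PresAt L n c d Y S Z G ∧ Exact L Y k Z G y μ r ∧ Flat L (L.lg Y) Z (wt (r '' G) e) ∧
      p.1 ∈ r '' G}

/-- local data at a point -/
structure Dat (L : Loc K) (n c d e k : ℕ) (Y : ℕ → Set K) (S : Set (K × ℕ)) (Z G : Set K)
    (y : ℕ → K) (μ : ℕ → ℕ) (r : K → K) : Prop where
  pres : PresAt L n c d Y S Z G
  mem : ∀ g ∈ G, r g ∈ L.O
  flat : (∀ z ∈ Z, z ∈ L.m) → Flat L (L.lg Y) Z (wt (r '' G) e)
  exact : L.Cos S → Exact L Y k Z G y μ r
  ord : L.Cos S → ∃ g ∈ G, r g ∉ L.span Z ⊔ L.m ^ (e + 1)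

section
variable {L : Loc K} {Y : ℕ → Set K} {T : Set (K × ℕ)} {Z G : Set K} {y : ℕ → K} {μ : ℕ → ℕ}
  {r : K → K}

theorem in_ext : L.In (ext L n c d e k Y T) := by
  rintro p ⟨_, _, Z, G, y, μ, r, _, hx, _, g, hg, hp⟩
  exact hp ▸ hx.mem g hg

theorem Z_m (hp : PresAt L n c d Y T Z G) (hc : L.Cos T) : ∀ z ∈ Z, z ∈ L.m :=
  cos_wt_one.mp (cos_union.mp (hp.cos.mp hc)).1

theorem Dat.in_all (h : Dat L n c d e k Y T Z G y μ r) :
    L.In (wt Z 1 ∪ wt G d ∪ wt (r '' G) e) :=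
  in_union.mpr ⟨in_union.mpr ⟨in_wt.mpr h.pres.memZ, in_wt.mpr h.pres.memG⟩,
    in_wt.mpr (by rintro _ ⟨g, hg, rfl⟩; exact h.mem g hg)⟩

theorem Dat.sub (h : Dat L n c d e k Y T Z G y μ r) (hc : L.Cos T) :
    wt (r '' G) e ⊆ ext L n c d e k Y T := fun _ hp =>
  ⟨hp.2, hc, Z, G, y, μ, r, h.pres, h.exact hc, h.flat (Z_m h.pres hc), hp.1⟩

theorem Dat.le (h : Dat L n c d e k Y T Z G y μ r) (hd : 0 < d) :
    Le L (L.lg Y) (wt Z 1 ∪ wt G d ∪ wt (r '' G) e) (ext L n c d e k Y T) := by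
  refine le_of_forall ?_
  rintro p ⟨hpe, hc, Z', G', y', μ', r', hp', hx', hf', hpr⟩
  have hZ := Z_m h.pres hc
  have hZ' := Z_m hp' hc
  refine (inv_comp (h.pres.tr hZ) (hp'.tr hZ') h.pres.memG hp'.memG hd (h.pres.flat hZ)
    (hp'.flat hZ') ((h.pres.eqv hc).symm.trans (hp'.eqv hc)) (h.exact hc) hx' hf').trans
    (le_of_subset ?_)
  rintro q rfl
  exact ⟨hpr, hpe⟩

theorem Dat.rel {κ : Chart K n} (hκ : IsCrd L κ) (h : Dat L n c d e k Y T Z G y μ r)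
    (hd : 0 < d) :
    RelAt L n c d e k Y T (T ∪ ext L n c d e k Y T) Z G 1 (mon k y μ) r := by
  refine ⟨h.pres, h.mem, h.flat, fun hc => (h.exact hc).lauAt, ⟨fun hc => ?_, fun hc => ?_⟩,
    fun hc => ?_⟩
  · obtain ⟨h1, h2⟩ := cos_union.mp hc
    exact ⟨h1, h2.subset (h.sub h1)⟩
  · exact cos_union.mpr ⟨hc.1, cos_of_le hκ Loc.log_sub_empty in_ext (h.le hd)
      (cos_union.mpr ⟨h.pres.cos.mp hc.1, hc.2⟩)⟩
  · have h1 := (cos_union.mp hc).1
    exact ⟨((le_of_subset Set.subset_union_left).trans (h.pres.eqv h1).1).union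
      (le_of_subset ((h.sub h1).trans Set.subset_union_right)),
      ((le_of_subset Set.subset_union_left).trans (h.pres.eqv h1).2).union (h.le hd)⟩

end

theorem exists_dat (hE : M.Snc k E) (h : M.RB k E c d S (e + 1)) (a : M.P) :
    ∃ (Z G : Set K) (y : ℕ → K) (μ : ℕ → ℕ) (r : K → K), Z.Finite ∧ G.Finite ∧
      ∀ᶠ b in zn a, Dat (M.loc b) n c d e k (M.Y E) (S b) Z G y μ r := by
  obtain ⟨Z, G, M1, M2, r0, hZ, hG, hb⟩ := h a
  have ha := zn_self hb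
  by_cases hc : (M.loc a).Cos (S a)
  swap
  · refine ⟨{1}, ∅, fun _ => 1, fun _ => 0, id, Set.finite_singleton _, Set.finite_empty, ?_⟩
    have h1 := Model.sp_not_cos (in_union.mpr ⟨in_wt.mpr ha.1.memZ, in_wt.mpr ha.1.memG⟩)
      (fun h2 => hc (ha.1.cos.mpr h2))
    filter_upwards [hb, h1] with b hb h1
    have h2 : ¬ (M.loc b).Cos (S b) := fun h2 => h1 (hb.1.cos.mp h2)
    exact ⟨presAt_triv h2, by simp, fun h3 => absurd (h3 1 rfl) Loc.one_notMem_m,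
      fun h3 => absurd h3 h2, fun h3 => absurd h3 h2⟩
  obtain ⟨hlau, hord⟩ := ha.2 hc
  have htr := ha.1.tr (Z_m ha.1 hc)
  obtain ⟨κ, σ, J, ht, hJ⟩ := id htr
  obtain ⟨μ, r1, hx1, g0, hg0, hr0⟩ := exists_exact htr ha.1.memG (ht.adp.gen k) hlau hord
  have hκ := ht.adp.crd
  have hsub : ∀ g ∈ G, κ.pK J e (r1 g) - r1 g ∈ (M.loc a).span Z := fun g hg =>
    ht.span ▸ pK_sub_mem hκ (hx1.mem g hg)
  have hx : Exact (M.loc a) (M.Y E) k Z G (fun i => κ.y (σ i)) μ (fun g => κ.pK J e (r1 g)) :=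
    hx1.congr (fun i _ => ht.adp.span_le_one i) (fun g hg => pK_mem hκ (hx1.mem g hg)) hsub
  have hr : κ.pK J e (r1 g0) ∉ (M.loc a).span Z ⊔ (M.loc a).m ^ (e + 1) := fun h1 => hr0 (by
    have h2 := sub_mem h1 (Submodule.mem_sup_left (hsub g0 hg0))
    rwa [sub_sub_cancel] at h2)
  refine ⟨Z, G, fun i => κ.y (σ i), μ, fun g => κ.pK J e (r1 g), hZ, hG, ?_⟩
  have e1 := (Filter.eventually_all_finite hG).mpr fun g hg => Model.sp_mem (hx1.mem g hg)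
  have e2 := (Filter.eventually_all_finite hG).mpr fun g hg => Model.sp_mem (hx.mem g hg)
  have e3 := Model.sp_tr hE.bd hZ ht
  have e4 := Model.sp_gen hx.gen
  have e5 := (Filter.eventually_all_finite hG).mpr fun g hg => Model.sp_span (hx.cong g hg)
  have e6 := Model.sp_notMem_sup hZ htr.sncAt.smAt (hx.mem g0 hg0) hr
  have e7 : ∀ᶠ b in zn a, ∀ i ∈ Finset.range k, (∀ z ∈ Z, z ∈ (M.loc b).m) → b ∈ E i →
      ∃ g ∈ G, κ.pK J e (r1 g) ∉ (M.loc b).span (Z ∪ M.Y E i) := by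
    refine (Filter.eventually_all_finset _).mpr fun i hi => ?_
    by_cases hai : a ∈ E i
    · have hne : (M.loc a).span (M.Y E i) ≠ 1 := fun h1 => (hE.span_eq_one i).mp h1 hai
      obtain ⟨g, hg, hn⟩ := hx.exact i (Finset.mem_range.mp hi) hne
      obtain ⟨j, hj⟩ := LInv_some ht.adp hne
      obtain ⟨T, hT1, hT2, hT3⟩ := Model.exists_fin_vanK (M := M) (E i)
      have hsp : ∀ b, (M.loc b).span (Z ∪ T) = (M.loc b).span (Z ∪ M.Y E i) := fun b => by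
        rw [Loc.span_union, Loc.span_union, hT3 _ (M.le_loc b)]
        rfl
      have h1 := Model.sp_notMem (hZ.union hT1)
        ⟨κ, J ∪ {j}, hκ, (hsp a).trans (LInv_span_union ht hj)⟩ (hx.mem g hg) (hsp a ▸ hn)
      filter_upwards [h1] with b h1 hZb hbi
      refine ⟨g, hg, hsp b ▸ h1 ?_⟩
      rintro z (hz | hz)
      · exact hZb z hz
      · exact Model.span_vanK_le_m hbi (Loc.subset_span (hT2 hz))
    · filter_upwards [zclosed_iff.mp (hE.closed i) a hai] with b h1 _ hbi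
      exact absurd hbi h1
  filter_upwards [hb, e1, e2, e3, e4, e5, e6, e7] with b hb e1 e2 e3 e4 e5 e6 e7
  refine ⟨hb.1, e2, fun hZb => ?_, fun hcb => ⟨e4, e2, e5, fun i hi hne => ?_⟩,
    fun hcb => ⟨g0, hg0, e6 (Z_m hb.1 hcb)⟩⟩
  · obtain ⟨⟨σ', ht'⟩, hxx⟩ := e3 hZb
    have h1 := flat_pK (N := e) (R := r1 '' G) ht'
      (by rintro _ ⟨g, hg, rfl⟩; exact e1 g hg) le_rfl
    have h2 : (κ.shift (M.loc b)).pK J e '' (r1 '' G) = (fun g => κ.pK J e (r1 g)) '' G := by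
      rw [Set.image_image]
      exact Set.image_congr fun g _ => pK_congr hxx fun _ _ => rfl
    rwa [h2] at h1
  · refine e7 i (Finset.mem_range.mpr hi) (Z_m hb.1 hcb) ?_
    by_contra hbi
    exact hne ((hE.span_eq_one i).mpr hbi)

theorem wpres (hE : M.Snc k E) (hd : 0 < d) (h : M.RB k E c d S (e + 2)) :
    M.WPres (fun _ => ∅) (c + 1) (max d (e + 1))
      (fun b => S b ∪ ext (M.loc b) n c d (e + 1) k (M.Y E) (S b)) := by
  intro a
  obtain ⟨Z, G, y, μ, r, hZ, hG, hb⟩ := exists_dat hE h a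
  have hrel : ∀ b, Dat (M.loc b) n c d (e + 1) k (M.Y E) (S b) Z G y μ r → _ := fun b hb =>
    hb.rel (M.exists_crd b).choose_spec hd
  have ha := zn_self hb
  have hY : ∀ (b : M.P) (i : ℕ), (M.loc b).span (M.Y (fun _ => ∅) i) = 1 := fun _ _ =>
    Model.span_vanK_empty
  by_cases hc : (M.loc a).Cos (S a ∪ ext (M.loc a) n c d (e + 1) k (M.Y E) (S a))
  swap
  · refine ⟨{1}, ∅, Set.finite_singleton _, Set.finite_empty, by simp, ?_⟩
    have h1 := Model.sp_not_cos ha.in_all fun h2 => hc ((hrel a ha).cos.mpr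
      ⟨ha.pres.cos.mpr (cos_union.mp h2).1, (cos_union.mp h2).2⟩)
    filter_upwards [hb, h1] with b hb h1
    have h2 : ¬ (M.loc b).Cos (S b ∪ ext (M.loc b) n c d (e + 1) k (M.Y E) (S b)) := fun h2 =>
      h1 (cos_union.mpr ⟨hb.pres.cos.mp ((hrel b hb).cos.mp h2).1, ((hrel b hb).cos.mp h2).2⟩)
    refine ⟨by simp, fun p hp => absurd hp (Set.notMem_empty p), ⟨fun h3 => absurd h3 h2,
      fun h3 => ?_⟩, fun h3 => absurd (h3 1 rfl) Loc.one_notMem_m, fun h3 => absurd h3 h2⟩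
    exact absurd (cos_wt_one.mp (cos_union.mp h3).1 1 rfl) Loc.one_notMem_m
  obtain ⟨hc1, hc2⟩ := (hrel a ha).cos.mp hc
  obtain ⟨κ, σ, J, ht, hJ⟩ := ha.pres.tr (Z_m ha.pres hc1)
  obtain ⟨g, hg, hr⟩ := ha.ord hc1
  obtain ⟨l, hl, κ2, σ2, J2, ht2, hJ2⟩ := exists_maxContact ht.adp.crd ht.span
    (cos_wt.mp hc2 _ ⟨g, hg, rfl⟩) hr (hY a)
  refine ⟨insert (ders (l.map κ.D) (r g)) Z, wt G d ∪ wt (r '' G) (e + 1), hZ.insert _,
    (wt_finite hG).union (wt_finite (hG.image r)), ?_, ?_⟩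
  · rintro p (hp | hp)
    · exact hp.2.le.trans (le_max_left _ _)
    · exact hp.2.le.trans (le_max_right _ _)
  have e1 := Model.sp_crd ht.adp.crd
  have e2 := Model.sp_tr (k := 0) (fun _ _ => rfl) (hZ.insert _) ht2
  filter_upwards [hb, e1, e2] with b hb e1 e2
  have hD : ∀ δ ∈ l.map κ.D, δ ∈ (M.loc b).log ∅ := fun δ hδ => by
    obtain ⟨j, _, rfl⟩ := List.mem_map.mp hδ
    exact e1.D_log j
  have hlen : e + 1 - (l.map κ.D).length = 1 := by rw [List.length_map, hl]; omega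
  have hset : wt (insert (ders (l.map κ.D) (r g)) Z) 1 ∪ (wt G d ∪ wt (r '' G) (e + 1)) =
      (wt Z 1 ∪ wt G d ∪ wt (r '' G) (e + 1)) ∪ {(ders (l.map κ.D) (r g), 1)} := by
    ext p
    simp only [Set.mem_union, mem_wt, Set.mem_insert_iff, Set.mem_singleton_iff, Prod.ext_iff]
    tauto
  have hin := hb.in_all
  refine ⟨?_, in_union.mpr ⟨(in_union.mp (in_union.mp hin).1).2, (in_union.mp hin).2⟩, ?_,
    fun hZb => ?_, fun hcb => ?_⟩
  · rintro z (rfl | hz)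
    · exact Loc.ders_mem hD (hb.mem g hg)
    · exact hb.pres.memZ z hz
  · rw [hset, (hrel b hb).cos, hb.pres.cos, ← cos_union,
      cos_union (T := {(ders (l.map κ.D) (r g), 1)})]
    refine ⟨fun h1 => ⟨h1, ?_⟩, fun h1 => h1.1⟩
    rintro p rfl
    have h2 := Loc.ders_pow hD Loc.m_le_one (cos_wt.mp (cos_union.mp h1).2 _ ⟨g, hg, rfl⟩)
    rwa [hlen] at h2
  · obtain ⟨⟨σ', ht'⟩, _⟩ := e2 hZb
    exact ⟨_, σ', J2, ht', by rw [hJ2, hJ]⟩
  · rw [hset, Loc.lg_trivial (hY b)]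
    refine (((hrel b hb).eqv hcb).more Loc.log_sub_empty subset_rfl).trans (eqv_union_of_le ?_)
    have h2 := le_ders (L := M.loc b) (S := wt Z 1 ∪ wt G d ∪ wt (r '' G) (e + 1)) (f := r g)
      (w := e + 1) hD (Or.inr ⟨⟨g, hg, rfl⟩, rfl⟩)
    rwa [hlen] at h2

end AComp

theorem exists_companion (hE : M.Snc k E) (hS : M.OK S) (hd : 0 < d)
    (h : M.RB k E c d S (e + 2)) :
    ∃ (S' : M.Obj) (d' : ℕ), 0 < d' ∧ M.OK S' ∧ M.Pres (fun _ => ∅) (c + 1) d' S' ∧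
      M.Rel k E c d (e + 1) S S' := by
  have hok : M.OK (fun b => S b ∪ AComp.ext (M.loc b) n c d (e + 1) k (M.Y E) (S b)) := by
    refine ⟨fun b => in_union.mpr ⟨hS.mem b, AComp.in_ext⟩, ?_⟩
    obtain ⟨W, hW⟩ := hS.bdd
    refine ⟨max W (e + 1), fun b p hp => ?_⟩
    rcases hp with hp | hp
    · exact (hW b p hp).trans (le_max_left _ _)
    · exact hp.1.le.trans (le_max_right _ _)
  refine ⟨_, _, Nat.factorial_pos _, hok, (AComp.wpres hE hd h).pres (Model.snc_empty k) hok,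
    fun _ => Set.subset_union_left, fun a => ?_⟩
  obtain ⟨Z, G, y, μ, r, hZ, hG, hb⟩ := AComp.exists_dat hE h a
  exact ⟨Z, G, 1, mon k y μ, r, hZ, hG, hb.mono fun b hb => hb.rel (M.exists_crd b).choose_spec hd⟩

end Pool.Agent.MP_696f7f_ag.H96
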