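import Pool.Agent.MP_696f7f_ag.H96.ModI

/-! The resolution algorithm: presentations and the statements of the steps. -/

namespace Pool.Agent.MP_696f7f_ag.H96

variable {K : Type} [Field K] [Algebra ℝ K] {n : ℕ}

namespace Model

/-- `S` has local presentations in codimension `c` -/
def Pres (M : Model K n) (E : ℕ → Set M.P) (c d : ℕ) (S : M.Obj) : Prop :=
  ∀ a, ∃ Z G : Set K, Z.Finite ∧ G.Finite ∧
    ∀ᶠ b in zn a, PresAt (M.loc b) n c d (M.Y E) (S b) Z G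

/-- presentations whose restriction to the subspace of maximal contact does not vanish -/
def PresNZ (M : Model K n) (E : ℕ → Set M.P) (c d : ℕ) (S : M.Obj) : Prop :=
  ∀ a, ∃ Z G : Set K, Z.Finite ∧ G.Finite ∧
    ∀ᶠ b in zn a, PresAt (M.loc b) n c d (M.Y E) (S b) Z G ∧
      ((M.loc b).Cos (S b) → ∃ g ∈ G, g ∉ (M.loc b).span Z)

/-- presentations with residual order less than `e` -/
def RB (M : Model K n) (k : ℕ) (E : ℕ → Set M.P) (c d : ℕ) (S : M.Obj) (e : ℕ) : Prop :=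
  ∀ a, ∃ (Z G : Set K) (M1 M2 : K) (r : K → K), Z.Finite ∧ G.Finite ∧
    ∀ᶠ b in zn a, PresAt (M.loc b) n c d (M.Y E) (S b) Z G ∧
      ((M.loc b).Cos (S b) → LauAt (M.loc b) (M.Y E) k Z G M1 M2 r ∧
        ∃ g ∈ G, r g ∉ (M.loc b).span Z ⊔ (M.loc b).m ^ e)

end Model

/-- weak local presentation: arbitrary weights, no flatness -/
structure WPresAt (L : Loc K) (n c : ℕ) (Y : ℕ → Set K) (S : Set (K × ℕ)) (Z : Set K)
    (H : Set (K × ℕ)) : Prop where
  memZ : ∀ z ∈ Z, z ∈ L.O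
  memH : L.In H
  cos : L.Cos S ↔ L.Cos (wt Z 1 ∪ H)
  tr : (∀ z ∈ Z, z ∈ L.m) → TrAt L n c Y Z
  eqv : L.Cos S → Eqv L (L.lg Y) S (wt Z 1 ∪ H)

/-- the relation between an object `S` and its companion `S'` -/
structure RelAt (L : Loc K) (n c d e k : ℕ) (Y : ℕ → Set K) (S S' : Set (K × ℕ)) (Z G : Set K)
    (M1 M2 : K) (r : K → K) : Prop where
  pres : PresAt L n c d Y S Z G
  mem : ∀ g ∈ G, r g ∈ L.O
  flat : (∀ z ∈ Z, z ∈ L.m) → Flat L (L.lg Y) Z (wt (r '' G) e)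
  lau : L.Cos S → LauAt L Y k Z G M1 M2 r
  cos : L.Cos S' ↔ L.Cos S ∧ L.Cos (wt (r '' G) e)
  eqv : L.Cos S' → Eqv L (L.lg Y) S' (wt Z 1 ∪ wt G d ∪ wt (r '' G) e)

namespace Model

/-- weak presentations with weights at most `W` -/
def WPres (M : Model K n) (E : ℕ → Set M.P) (c W : ℕ) (S : M.Obj) : Prop :=
  ∀ a, ∃ (Z : Set K) (H : Set (K × ℕ)), Z.Finite ∧ H.Finite ∧ (∀ p ∈ H, p.2 ≤ W) ∧
    ∀ᶠ b in zn a, WPresAt (M.loc b) n c (M.Y E) (S b) Z H

/-- `S'` is a companion of `S` -/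
structure Rel (M : Model K n) (k : ℕ) (E : ℕ → Set M.P) (c d e : ℕ) (S S' : M.Obj) : Prop where
  sub : ∀ b, S b ⊆ S' b
  loc : ∀ a, ∃ (Z G : Set K) (M1 M2 : K) (r : K → K), Z.Finite ∧ G.Finite ∧
    ∀ᶠ b in zn a, RelAt (M.loc b) n c d e k (M.Y E) (S b) (S' b) Z G M1 M2 r

end Model

/-- the boundary components of index at least `k0` -/
def fromIdx {X : Type} (k0 : ℕ) (E : ℕ → Set X) : ℕ → Set X := fun i => if k0 ≤ i then E i else ∅

/-- objects with a presentation in codimension `c` can be resolved -/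
def ResAll (K : Type) [Field K] [Algebra ℝ K] (n c : ℕ) : Prop :=
  ∀ (M : Model K n) (k : ℕ) (E : ℕ → Set M.P) (S : M.Obj) (d : ℕ), M.Snc k E → M.OK S → 0 < d →
    M.Pres E c d S → Res M k E S

/-- the same under the nonvanishing hypothesis -/
def ResNZ (K : Type) [Field K] [Algebra ℝ K] (n c : ℕ) : Prop :=
  ∀ (M : Model K n) (k : ℕ) (E : ℕ → Set M.P) (S : M.Obj) (d : ℕ), M.Snc k E → M.OK S → 0 < d →
    M.PresNZ E c d S → Res M k E S

/-- the same under a bound for the residual order -/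
def ResLt (K : Type) [Field K] [Algebra ℝ K] (n c d e : ℕ) : Prop :=
  ∀ (M : Model K n) (k : ℕ) (E : ℕ → Set M.P) (S : M.Obj), M.Snc k E → M.OK S →
    M.RB k E c d S e → Res M k E S

end Pool.Agent.MP_696f7f_ag.H96
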