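import Pool.Agent.MP_696f7f_ag.H96.APres

/-! The monomial case. -/

namespace Pool.Agent.MP_696f7f_ag.H96

open Filter

variable {K : Type} [Field K] [Algebra ℝ K] {n : ℕ}

namespace AMono

section loc

variable {L L' : Loc K} {Y Y' : ℕ → Set K} {Z Z' G G' C : Set K} {c d k : ℕ} {y y' : ℕ → K}
  {μ μ' : ℕ → ℕ} {S : Set (K × ℕ)} {s : K}

theorem pres_m (hp : PresAt L n c d Y S Z G) (hc : L.Cos S) : ∀ z ∈ Z, z ∈ L.m :=
  cos_wt_one.1 (cos_union.1 (hp.cos.1 hc)).1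

theorem exp_le (hd : 0 < d) (hc : L.Cos S) (hp : PresAt L n c d Y S Z G)
    (hp' : PresAt L n c d Y S Z' G') (hm : MonoAt L Y k Z G y μ) (hm' : MonoAt L Y k Z' G' y' μ') :
    ∀ i < k, L.span (Y i) ≠ 1 → μ i ≤ μ' i := by
  have hZ := hp.tr (pres_m hp hc)
  have hZ' := hp'.tr (pres_m hp' hc)
  obtain ⟨r, hr⟩ := hm.exact hZ
  obtain ⟨r', hr'⟩ := hm'.exact hZ'
  exact inv_exp hZ hZ' hp.memG hp'.memG hd (hp.flat (pres_m hp hc))
    ((hp.eqv hc).2.trans (hp'.eqv hc).1) hr hr'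

/-- the exceptional equation does not vanish on a transversal subspace -/
theorem cancel_pow (hZ : TrAt L n c Y Z) (hs : L.span (Y k) = L.span {s}) (w : ℕ) {f : K}
    (hf : f ∈ L.O) (h : s ^ w * f ∈ L.span Z) : f ∈ L.span Z := by
  obtain ⟨κ, σ, J, ht, -⟩ := hZ
  have hκ := ht.adp.crd
  have hsY : s ∈ L.span (Y k) := hs ▸ Loc.subset_span (Set.mem_singleton _)
  have hsO : s ∈ L.O := Loc.mem_O_of_le (ht.adp.span_le_one k) hsY
  have hsn : s ∉ κ.I L J := by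
    intro h1
    have h2 : κ.y (σ k) ∈ κ.I L J := by
      have h3 : κ.y (σ k) ∈ L.span {s} := by
        rw [← hs, ht.adp.span k]; exact Loc.subset_span (Set.mem_singleton _)
      exact (Loc.span_le.2 (by rintro _ rfl; exact h1) : L.span {s} ≤ κ.I L J) h3
    rcases h3 : σ k with _ | j
    · rw [h3] at h2
      exact Loc.one_notMem_m (hκ.I_le_m h2)
    · rw [h3] at h2
      exact ht.disj k j h3 (hκ.x_mem_I.1 h2)
  rw [ht.span] at h ⊢
  induction w with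
  | zero => simpa using h
  | succ w ih =>
    rw [pow_succ', mul_assoc] at h
    exact ih ((hκ.prime hsO (mul_mem (pow_mem hsO w) hf) h).resolve_left hsn)

/-- the new boundary equations -/
noncomputable def ny (k : ℕ) (I : Finset ℕ) (s : K) (y : ℕ → K) : ℕ → K :=
  fun i => if i = k then s else if i ∈ I then y i / s else y i

/-- the new exponents -/
def nm (k w : ℕ) (μ : ℕ → ℕ) : ℕ → ℕ := fun i => if i = k then w else μ i

omit [Algebra ℝ K] in
theorem mon_ny {I : Finset ℕ} (hI : ∀ i ∈ I, i < k) (hs : s ≠ 0) (w : ℕ) :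
    mon (k + 1) (ny k I s y) (nm k w μ) * s ^ ∑ i ∈ I, μ i = mon k y μ * s ^ w := by
  unfold mon
  rw [Finset.prod_range_succ]
  have e1 : ny k I s y k ^ nm k w μ k = s ^ w := by simp [ny, nm]
  have e2 : ∑ i ∈ I, μ i = ∑ i ∈ Finset.range k, if i ∈ I then μ i else 0 := by
    rw [← Finset.sum_filter]
    congr 1
    ext i
    simp only [Finset.mem_filter, Finset.mem_range]
    exact ⟨fun h => ⟨hI i h, h⟩, fun h => h.2⟩
  rw [e1, e2, mul_right_comm, ← Finset.prod_pow_eq_pow_sum, ← Finset.prod_mul_distrib]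
  congr 1
  refine Finset.prod_congr rfl fun i hi => ?_
  have hik : i ≠ k := (Finset.mem_range.1 hi).ne
  by_cases h : i ∈ I
  · simp only [ny, nm, if_neg hik, if_pos h]
    rw [← mul_pow, div_mul_cancel₀ _ hs]
  · simp only [ny, nm, if_neg hik, if_neg h, pow_zero, mul_one]

theorem mono_xfer (h : Xfer L L' n Y Y' k C s) (hm : MonoAt L Y k Z G y μ) {I : Finset ℕ}
    (hI : ∀ i ∈ I, i < k) (h1 : ∀ i ∈ I, ∀ f ∈ Y i, f ∈ L.span C)
    (h0 : ∀ i < k, i ∉ I → L'.span (Y' i) = L'.span (Y i)) {w : ℕ} {u : K} (hu : u ∈ L'.O)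
    (hu0 : L'.ev u ≠ 0) (hw : s ^ ∑ i ∈ I, μ i = u * s ^ (d + w))
    (hZ : TrAt L' n c Y' (dvs s Z)) (hZC : ∀ z ∈ Z, z ∈ L.span C)
    (hG : ∀ g ∈ dvs (s ^ d) G, g ∈ L'.O) :
    MonoAt L' Y' (k + 1) (dvs s Z) (dvs (s ^ d) G) (ny k I s y) (nm k w μ) := by
  have hgen : Gen L' Y' (k + 1) (ny k I s y) := by
    intro i hi
    by_cases hik : i = k
    · subst hik
      simp only [ny, if_true]
      exact h.new.symm
    · have hi' : i < k := by omega
      have h2 := Loc.span_eq_lift h.le (hm.gen i hi')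
      by_cases hiI : i ∈ I
      · simp only [ny, if_neg hik, if_pos hiI]
        rw [h.bd1 i hik (h1 i hiI), ← LBlow_dvs_singleton]
        exact LBlow_span_dvs_congr h.ne h2 rfl
      · simp only [ny, if_neg hik, if_neg hiI]
        rw [h0 i hi' hiI, h2]
  have hmon : mon (k + 1) (ny k I s y) (nm k w μ) ∈ L'.O := by
    obtain ⟨κ, σ, ha⟩ := h.adp'
    exact LInv_mon_mem hgen fun i _ => ha.span_le_one i
  have key : ∀ g ∈ G, ∀ r ∈ L.O, g - mon k y μ * r ∈ L.span Z →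
      g / s ^ d - mon (k + 1) (ny k I s y) (nm k w μ) * (u * r) ∈ L'.span (dvs s Z) := by
    intro g hg r hr hgr
    refine cancel_pow hZ h.new d
      (sub_mem (hG _ ⟨g, hg, rfl⟩) (mul_mem hmon (mul_mem hu (h.le hr)))) ?_
    have e1 := mon_ny (y := y) (μ := μ) hI h.ne w
    rw [hw] at e1
    have e2 : mon (k + 1) (ny k I s y) (nm k w μ) * u * s ^ d = mon k y μ := by
      apply mul_right_cancel₀ (pow_ne_zero w h.ne)
      rw [← e1]; ring
    have e3 : s ^ d * (g / s ^ d - mon (k + 1) (ny k I s y) (nm k w μ) * (u * r)) =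
        g - mon k y μ * r := by
      rw [mul_sub, mul_div_cancel₀ _ (pow_ne_zero d h.ne), ← e2]; ring
    rw [e3]
    exact h.span_le hZC hgr
  refine ⟨hgen, ?_, ?_⟩
  · rintro _ ⟨g, hg, rfl⟩
    obtain ⟨r, hr, hgr⟩ := hm.all g hg
    exact ⟨u * r, mul_mem hu (h.le hr), key g hg r hr hgr⟩
  · obtain ⟨g, hg, r, hr, hr0, hgr⟩ := hm.one
    refine ⟨_, ⟨g, hg, rfl⟩, u * r, mul_mem hu (h.le hr), ?_, key g hg r hr hgr⟩
    rw [L'.ev_mul u hu r (h.le hr), h.ev r hr]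
    exact mul_ne_zero hu0 hr0

end loc

variable {M M' : Model K n} {k c d p q : ℕ} {E : ℕ → Set M.P} {S : M.Obj} {m : M.P → ℕ → ℕ}
  {Z G : Set K} {y : ℕ → K} {μ : ℕ → ℕ} {a b : M.P} {I : Finset ℕ} {F : Finset (Finset ℕ)}

/-- local monomial data -/
def Dat (M : Model K n) (k : ℕ) (E : ℕ → Set M.P) (c d : ℕ) (S : M.Obj) (m : M.P → ℕ → ℕ)
    (Z G : Set K) (y : ℕ → K) (μ : ℕ → ℕ) (b : M.P) : Prop :=
  PresAt (M.loc b) n c d (M.Y E) (S b) Z G ∧
    (b ∈ M.cos S → MonoAt (M.loc b) (M.Y E) k Z G y μ ∧ ∀ i < k, b ∈ E i → m b i = μ i)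

/-- the invariant of the monomial case -/
def MP (M : Model K n) (k : ℕ) (E : ℕ → Set M.P) (c d : ℕ) (S : M.Obj) (m : M.P → ℕ → ℕ) : Prop :=
  ∀ a, ∃ (Z G : Set K) (y : ℕ → K) (μ : ℕ → ℕ), Z.Finite ∧ G.Finite ∧
    ∀ᶠ b in zn a, Dat M k E c d S m Z G y μ b

/-- the potential -/
def Pot (M : Model K n) (k : ℕ) (E : ℕ → Set M.P) (d : ℕ) (S : M.Obj) (m : M.P → ℕ → ℕ)
    (p q : ℕ) (F : Finset (Finset ℕ)) : Prop :=
  ∀ b ∈ M.cos S, ∀ I : Finset ℕ, (∀ i ∈ I, i < k) → b ∈ strat E I → d ≤ ∑ i ∈ I, m b i →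
    p < I.card ∨ (I.card = p ∧ (∑ i ∈ I, m b i < q ∨ (∑ i ∈ I, m b i = q ∧ I ∈ F)))

/-- the centre -/
def cen (M : Model K n) (E : ℕ → Set M.P) (S : M.Obj) (m : M.P → ℕ → ℕ) (I : Finset ℕ) (q : ℕ) :
    Set M.P := {b | b ∈ M.cos S ∧ b ∈ strat E I ∧ ∑ i ∈ I, m b i = q}

theorem sp_mono (hG : G.Finite) (h : MonoAt (M.loc a) (M.Y E) k Z G y μ) :
    ∀ᶠ b in zn a, MonoAt (M.loc b) (M.Y E) k Z G y μ := by
  have h1 : ∀ᶠ b in zn a, ∀ g ∈ G, ∃ r ∈ (M.loc b).O, g - mon k y μ * r ∈ (M.loc b).span Z := by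
    rw [eventually_all_finite hG]
    intro g hg
    obtain ⟨r, hr, hgr⟩ := h.all g hg
    filter_upwards [Model.sp_mem hr, Model.sp_span hgr] with b h1 h2 using ⟨r, h1, h2⟩
  obtain ⟨g, hg, r, hr, hr0, hgr⟩ := h.one
  filter_upwards [Model.sp_gen h.gen, h1, Model.sp_unit hr hr0, Model.sp_span hgr]
    with b h2 h3 h4 h5 using ⟨h2, h3, g, hg, r, h4.1, h4.2, h5⟩

theorem MP.cos_closed (h : MP M k E c d S m) : ZClosed (M.cos S) := by
  refine Model.Pres.cos_closed (E := E) (c := c) (d := d) fun a => ?_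
  obtain ⟨Z, G, y, μ, hZ, hG, h1⟩ := h a
  exact ⟨Z, G, hZ, hG, h1.mono fun b hb => hb.1⟩

theorem start (hd : 0 < d) (hE : M.Snc k E) (h : M.RB k E c d S 1) :
    ∃ m, MP M k E c d S m := by
  classical
  have hcl : ZClosed (M.cos S) := by
    refine Model.Pres.cos_closed (E := E) (c := c) (d := d) fun a => ?_
    obtain ⟨Z, G, M1, M2, r, hZ, hG, h1⟩ := h a
    exact ⟨Z, G, hZ, hG, h1.mono fun b hb => hb.1⟩
  let Q : M.P → (ℕ → ℕ) → Prop := fun b μ => ∃ (Z G : Set K) (y : ℕ → K),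
    PresAt (M.loc b) n c d (M.Y E) (S b) Z G ∧ MonoAt (M.loc b) (M.Y E) k Z G y μ
  refine ⟨fun b => if hb : ∃ μ, Q b μ then hb.choose else 0, fun a => ?_⟩
  obtain ⟨Z, G, M1, M2, r, hZ, hG, h1⟩ := h a
  have h2 : ∃ (y : ℕ → K) (μ : ℕ → ℕ), ∀ᶠ b in zn a, b ∈ M.cos S →
      MonoAt (M.loc b) (M.Y E) k Z G y μ := by
    by_cases ha : a ∈ M.cos S
    · obtain ⟨hp, h3⟩ := zn_self h1
      obtain ⟨hl, he⟩ := h3 ha
      obtain ⟨κ, σ, hκ⟩ := hE.adp a
      obtain ⟨μ, r', hx, g, hg, hn⟩ :=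
        exists_exact (hp.tr (pres_m hp ha)) hp.memG (hκ.gen k) hl he
      refine ⟨_, μ, (sp_mono hG ⟨hx.gen, fun g hg => ⟨r' g, hx.mem g hg, hx.cong g hg⟩,
        g, hg, r' g, hx.mem g hg, fun h0 => hn ?_, hx.cong g hg⟩).mono fun b hb _ => hb⟩
      rw [pow_one]
      exact Submodule.mem_sup_right (Loc.mem_m.2 ⟨hx.mem g hg, h0⟩)
    · exact ⟨fun _ => 1, 0, (zclosed_iff.1 hcl a ha).mono fun b hb hc => absurd hc hb⟩
  obtain ⟨y, μ, h2⟩ := h2
  refine ⟨Z, G, y, μ, hZ, hG, ?_⟩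
  filter_upwards [h1, h2] with b hb hm
  refine ⟨hb.1, fun hc => ⟨hm hc, fun i hi hbi => ?_⟩⟩
  have hQ : ∃ μ, Q b μ := ⟨μ, Z, G, y, hb.1, hm hc⟩
  obtain ⟨Z', G', y', hp', hm'⟩ := hQ.choose_spec
  have hne : (M.loc b).span (M.Y E i) ≠ 1 := fun h0 => (hE.span_eq_one i).1 h0 hbi
  simp only [dif_pos hQ]
  exact le_antisymm (exp_le hd hc hp' hb.1 hm' (hm hc) i hi hne)
    (exp_le hd hc hb.1 hp' (hm hc) hm' i hi hne)

theorem Dat.sum_eq (h : Dat M k E c d S m Z G y μ b) (hc : b ∈ M.cos S) (hI : ∀ i ∈ I, i < k)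
    (hb : b ∈ strat E I) : ∑ i ∈ I, m b i = ∑ i ∈ I, μ i :=
  Finset.sum_congr rfl fun i hi => (h.2 hc).2 i (hI i hi) (hb i hi)

theorem strat_closed (hE : M.Snc k E) (I : Finset ℕ) : ZClosed (strat E I) :=
  (hE.sm_strat I).closed

theorem cen_closed (hE : M.Snc k E) (h : MP M k E c d S m) (hI : ∀ i ∈ I, i < k) :
    ZClosed (cen M E S m I q) := by
  refine zclosed_iff.2 fun a ha => ?_
  by_cases h1 : a ∈ M.cos S
  · by_cases h2 : a ∈ strat E I
    · obtain ⟨Z, G, y, μ, -, -, h3⟩ := h a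
      have h4 := (zn_self h3).sum_eq h1 hI h2
      filter_upwards [h3] with b hb hc
      exact ha ⟨h1, h2, by rw [h4, ← hb.sum_eq hc.1 hI hc.2.1, hc.2.2]⟩
    · exact (zclosed_iff.1 (strat_closed hE I) a h2).mono fun b hb hc => hb hc.2.1
  · exact (zclosed_iff.1 h.cos_closed a h1).mono fun b hb hc => hb hc.1

theorem mem_iff_gen (hE : M.Snc k E) (hy : Gen (M.loc b) (M.Y E) k y) {i : ℕ} (hi : i < k) :
    b ∈ E i ↔ y i ∈ (M.loc b).m := by
  constructor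
  · intro h
    refine Model.span_vanK_le_m h ?_
    have := hy i hi
    unfold Model.Y at this
    rw [← this]
    exact Loc.subset_span (Set.mem_singleton _)
  · intro h
    by_contra hb
    have h1 := (hE.span_eq_one i).2 hb
    rw [← hy i hi, Loc.span_singleton_eq_one] at h1
    exact h1.2 h.2

theorem span_gen {L : Loc K} {Y : ℕ → Set K} (hy : Gen L Y k y) (hI : ∀ i ∈ I, i < k) :
    L.span (Z ∪ y '' I) = L.span (Z ∪ ⋃ i ∈ I, Y i) := by
  refine le_antisymm (Loc.span_le.2 ?_) (Loc.span_le.2 ?_)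
  · rintro f (hf | ⟨i, hi, rfl⟩)
    · exact Loc.subset_span (Or.inl hf)
    · refine Loc.span_mono (S := Y i) (fun f hf => Or.inr (Set.mem_biUnion hi hf)) ?_
      rw [← hy i (hI i hi)]
      exact Loc.subset_span (Set.mem_singleton _)
  · rintro f (hf | hf)
    · exact Loc.subset_span (Or.inl hf)
    · obtain ⟨i, hi, hf⟩ := Set.mem_iUnion₂.1 hf
      refine Loc.span_mono (S := {y i}) ?_ ?_
      · rintro _ rfl
        exact Or.inr ⟨i, hi, rfl⟩
      · rw [hy i (hI i hi)]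
        exact Loc.subset_span hf

/-- the properties of the centre at one of its points -/
theorem cen_at (hE : M.Snc k E) (hI : ∀ i ∈ I, i < k) (hq : d ≤ q) (hZ : Z.Finite)
    (hG : G.Finite) (h : ∀ᶠ b in zn a, Dat M k E c d S m Z G y μ b) (ha : a ∈ cen M E S m I q) :
    (M.loc a).span (M.vanK (cen M E S m I q)) = (M.loc a).span (Z ∪ ⋃ i ∈ I, M.Y E i) ∧
      SncAt (M.loc a) n (M.Y E) (Z ∪ ⋃ i ∈ I, M.Y E i) ∧
      (M.loc a).Ord (Z ∪ ⋃ i ∈ I, M.Y E i) (wt Z 1 ∪ wt G d) ∧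
      ∀ i ∉ I, ¬ ∀ f ∈ M.Y E i, f ∈ (M.loc a).span (Z ∪ ⋃ i ∈ I, M.Y E i) := by
  classical
  have hda := zn_self h
  have hμ : ∑ i ∈ I, μ i = q := (hda.sum_eq ha.1 hI ha.2.1).symm.trans ha.2.2
  have hm := (hda.2 ha.1).1
  have hZm := pres_m hda.1 ha.1
  have hcen := hm.centre (hda.1.tr hZm) hda.1.memG (hda.1.flat hZm) I
    (fun i hi => ⟨hI i hi, fun h0 => (hE.span_eq_one i).1 h0 (ha.2.1 i hi)⟩) (hμ ▸ hq)
  refine ⟨?_, hcen⟩
  rw [← span_gen hm.gen hI]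
  refine Model.span_vanK_eq (hZ.union (I.finite_toSet.image y))
    (hcen.1.congr (fun i => Or.inl rfl) (span_gen hm.gen hI)).smAt ?_
  filter_upwards [h, sp_mono hG hm] with b hb hmb
  constructor
  · rintro hc f (hf | ⟨i, hi, rfl⟩)
    · exact pres_m hb.1 hc.1 f hf
    · exact (mem_iff_gen hE hmb.gen (hI i hi)).1 (hc.2.1 i hi)
  · intro hf
    have h1 : ∀ z ∈ Z, z ∈ (M.loc b).m := fun z hz => hf z (Or.inl hz)
    have h2 : b ∈ strat E I := fun i hi =>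
      (mem_iff_gen hE hmb.gen (hI i hi)).2 (hf _ (Or.inr ⟨i, hi, rfl⟩))
    have h3 : b ∈ M.cos S := by
      refine hb.1.cos.2 (cos_union.2 ⟨cos_wt_one.2 h1,
        (hmb.cos_iff (hb.1.tr h1) hb.1.memG (hb.1.flat h1)).2 ?_⟩)
      refine hq.trans (hμ ▸ Finset.sum_le_sum_of_subset fun i hi => ?_)
      exact Finset.mem_filter.2 ⟨Finset.mem_range.2 (hI i hi),
        fun h0 => (hE.span_eq_one i).1 h0 (h2 i hi)⟩
    exact ⟨h3, h2, (hb.sum_eq h3 hI h2).trans hμ⟩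

theorem cen_adm (hE : M.Snc k E) (hS : M.OK S) (h : MP M k E c d S m) (hI : ∀ i ∈ I, i < k)
    (hne : I.Nonempty) (hq : d ≤ q) : M.Adm E S (cen M E S m I q) := by
  refine ⟨⟨cen_closed hE h hI, ?_, fun a ha => ?_⟩, fun a ha => ?_⟩
  · obtain ⟨i, hi⟩ := hne
    intro h0
    refine hE.van_ne_bot i (le_bot_iff.1 (h0 ▸ van_anti fun b hb => hb.2.1 i hi))
  · obtain ⟨Z, G, y, μ, hZ, hG, h1⟩ := h a
    obtain ⟨h2, h3, -⟩ := cen_at hE hI hq hZ hG h1 ha
    exact h3.congr (fun i => Or.inl rfl) h2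
  · obtain ⟨Z, G, y, μ, hZ, hG, h1⟩ := h a
    obtain ⟨h2, ⟨κ, σ, J, h3, h4⟩, h5, -⟩ := cen_at hE hI hq hZ hG h1 ha
    exact (ord_of_le h3.crd h4 Loc.log_sub_empty (hS.mem a)
      ((zn_self h1).1.eqv ha.1).2 h5).congr h2.symm

theorem mp_step (hE : M.Snc k E) (hS : M.OK S) (h : MP M k E c d S m) (hI : ∀ i ∈ I, i < k)
    (hne : I.Nonempty) (hq : d ≤ q) (hb : IsBl M (cen M E S m I q) M') :
    MP M' (k + 1) (hb.bd k E) c d (hb.tr S) (fun b' => nm k (q - d) (m (hb.π b'))) := by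
  have hadm := cen_adm hE hS h hI hne hq
  intro a'
  obtain ⟨Z, G, y, μ, hZ, hG, h1⟩ := h (hb.π a')
  obtain ⟨s, hs⟩ := hb.exists_gen hadm.centre.sm a'
  refine ⟨dvs s Z, dvs (s ^ d) G, ny k I s y, nm k (q - d) μ, hZ.image _, hG.image _, ?_⟩
  filter_upwards [hs, (hb.dom.tendsto_zn a').eventually (zn_zn h1)] with b' hs' h2
  have hx := hb.xfer hE hadm.centre b' hs'
  have hdb : Dat M k E c d S m Z G y μ (hb.π b') := zn_self h2
  have hord := hadm.ord_all hS (hb.π b')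
  obtain ⟨ho, hp⟩ := hx.presAt hdb.1 (hS.mem _) (hS.bdd_at _) hord
  rw [hb.Y_bd_self] at hp
  refine ⟨hp, fun hc => ?_⟩
  have hcb : hb.π b' ∈ M.cos S := hb.cos_tr hE hS hadm hc
  obtain ⟨hm, hmμ⟩ := hdb.2 hcb
  have hI1 : ∀ i ∈ I, ∀ f ∈ M.Y E i,
      f ∈ (M.loc (hb.π b')).span (M.vanK (cen M E S m I q)) := fun i hi f hf =>
    Model.span_vanK_anti (D' := E i) (fun b hb => hb.2.1 i hi) (Loc.subset_span hf)
  have hZC := ord_wt_one.1 (ord_union.1 ho).1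
  refine ⟨?_, fun i hi hbi => ?_⟩
  · by_cases hC : hb.π b' ∈ cen M E S m I q
    · obtain ⟨h3, -, -, h4⟩ := cen_at hE hI hq hZ hG h2 hC
      have hμ : ∑ i ∈ I, μ i = q := (hdb.sum_eq hC.1 hI hC.2.1).symm.trans hC.2.2
      refine mono_xfer hx hm hI hI1 (fun i hi hiI => hx.bd0 i hi.ne (h3 ▸ h4 i hiI))
        (one_mem _) (by rw [Loc.ev_one]; exact one_ne_zero) ?_ (hp.tr (pres_m hp hc)) hZC hp.memG
      rw [hμ, one_mul, Nat.add_sub_cancel' hq]
    · have h3 := (Model.span_vanK_eq_one hadm.centre.closed).2 hC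
      have h4 : (M'.loc b').span {s} = 1 := by
        rw [← hx.gen, ← Loc.span_one]
        exact Loc.span_eq_lift hx.le (h3.trans Loc.span_one.symm)
      have h5 := Loc.span_singleton_eq_one.1 h4
      have h6 : ∀ w, (M'.loc b').ev (s ^ w) ≠ 0 := fun w => by
        rw [Loc.ev_pow h5.1]; exact pow_ne_zero _ h5.2
      refine mono_xfer hx hm hI hI1 (fun i hi _ => ?_) (u := s ^ (∑ i ∈ I, μ i) / s ^ (d + (q - d)))
        (Loc.div_mem (pow_mem h5.1 _) (pow_mem h5.1 _) (h6 _)) ?_ ?_ (hp.tr (pres_m hp hc)) hZC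
        hp.memG
      · rw [hx.bd1 i hi.ne fun f hf => ?_, LBlow_span_dvs_unit h4]
        rw [h3, Loc.mem_one]
        exact M.le_loc _ (Model.vanK_mem hf)
      · rw [Loc.ev_div (pow_mem h5.1 _) (pow_mem h5.1 _) (h6 _)]
        exact div_ne_zero (h6 _) (h6 _)
      · rw [div_mul_cancel₀ _ (pow_ne_zero _ hx.ne)]
  · by_cases hik : i = k
    · simp [nm, hik]
    · simp only [nm, if_neg hik]
      exact hmμ i (by omega) (hb.bd_lt hE hik hbi)

/-- over the centre the transforms of the chosen components miss the cosupport -/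
theorem not_all (hE : M.Snc k E) (hS : M.OK S) (h : MP M k E c d S m) (hI : ∀ i ∈ I, i < k)
    (hne : I.Nonempty) (hq : d ≤ q) (hb : IsBl M (cen M E S m I q) M') {b' : M'.P}
    (hc : b' ∈ M'.cos (hb.tr S)) (hC : hb.π b' ∈ cen M E S m I q)
    (hst : b' ∈ strat (hb.bd k E) I) : False := by
  have hadm := cen_adm hE hS h hI hne hq
  obtain ⟨Z, G, y, μ, hZ, hG, h1⟩ := h (hb.π b')
  obtain ⟨s, hs⟩ := hb.exists_gen hadm.centre.sm b'
  have hx := hb.xfer hE hadm.centre b' (zn_self hs)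
  obtain ⟨ho, hp⟩ := hx.presAt (zn_self h1).1 (hS.mem _) (hS.bdd_at _) (hadm.ord_all hS _)
  rw [hb.Y_bd_self] at hp
  obtain ⟨h3, -⟩ := cen_at hE hI hq hZ hG h1 hC
  have h4 : (1 : K) ∈ (M'.loc b').span (dvs s (Z ∪ ⋃ i ∈ I, M.Y E i)) := by
    rw [LBlow_mem_span_dvs hx.ne, one_mul, ← Loc.span_eq_lift hx.le h3, hx.gen]
    exact Loc.subset_span (Set.mem_singleton _)
  refine Loc.one_notMem_m ((Loc.span_le.2 ?_ : _ ≤ (M'.loc b').m) h4)
  rintro _ ⟨f, hf | hf, rfl⟩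
  · exact pres_m hp hc _ ⟨f, hf, rfl⟩
  · obtain ⟨i, hi, hf⟩ := Set.mem_iUnion₂.1 hf
    have h5 := hx.bd1 i (hI i hi).ne fun g hg =>
      Model.span_vanK_anti (D' := E i) (fun b hb => hb.2.1 i hi) (Loc.subset_span hg)
    refine Model.span_vanK_le_m (hst i hi) ?_
    have h6 : f / s ∈ (M'.loc b').span (dvs s (M.Y E i)) := Loc.subset_span ⟨f, hf, rfl⟩
    rw [← h5] at h6
    exact h6

theorem pot_step (hE : M.Snc k E) (hS : M.OK S) (h : MP M k E c d S m) (hI : ∀ i ∈ I, i < k)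
    (hne : I.Nonempty) (hq : d ≤ q) (hb : IsBl M (cen M E S m I q) M') (hcard : I.card = p)
    (hp : Pot M k E d S m p q F) :
    Pot M' (k + 1) (hb.bd k E) d (hb.tr S) (fun b' => nm k (q - d) (m (hb.π b'))) p q
      (F.erase I) := by
  have hadm := cen_adm hE hS h hI hne hq
  intro b' hc I' hI' hst hd
  have hcb : hb.π b' ∈ M.cos S := hb.cos_tr hE hS hadm hc
  have hsum : ∀ T : Finset ℕ, k ∉ T →
      ∑ i ∈ T, nm k (q - d) (m (hb.π b')) i = ∑ i ∈ T, m (hb.π b') i := fun T hT =>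
    Finset.sum_congr rfl fun i hi => by
      have hik : i ≠ k := fun e => hT (e ▸ hi)
      simp only [nm, if_neg hik]
  by_cases hk : k ∈ I'
  · have hC : hb.π b' ∈ cen M E S m I q := by
      have := hst k hk
      simpa [IsBl.bd] using this
    have hlt : ∀ T : Finset ℕ, (∀ i ∈ T, i < k) → hb.π b' ∈ strat E T → T.card < p →
        ∑ i ∈ T, m (hb.π b') i < d := fun T h1 h2 h3 => by
      by_contra h4
      rcases hp _ hcb T h1 h2 (not_lt.1 h4) with h5 | h5 <;> omega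
    have hT : ∀ i ∈ I'.erase k, i < k := fun i hi => by
      have h1 := hI' i (Finset.mem_of_mem_erase hi)
      have h2 := Finset.ne_of_mem_erase hi
      omega
    have hTs : hb.π b' ∈ strat E (I'.erase k) := fun i hi =>
      hb.bd_lt hE (Finset.ne_of_mem_erase hi) (hst i (Finset.mem_of_mem_erase hi))
    have hcd : (I'.erase k).card + 1 = I'.card := Finset.card_erase_add_one hk
    have hs : ∑ i ∈ I', nm k (q - d) (m (hb.π b')) i =
        ∑ i ∈ I'.erase k, m (hb.π b') i + (q - d) := by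
      rw [← Finset.sum_erase_add _ _ hk, hsum _ (Finset.notMem_erase k I')]
      simp [nm]
    beta_reduce at hd ⊢
    rw [hs] at hd ⊢
    rcases lt_trichotomy p I'.card with h1 | h1 | h1
    · exact Or.inl h1
    · have := hlt _ hT hTs (by omega)
      exact Or.inr ⟨h1.symm, Or.inl (by omega)⟩
    · exfalso
      obtain ⟨i0, hi0, hi0'⟩ := Finset.exists_mem_notMem_of_card_lt_card
        (show (I'.erase k).card < I.card by omega)
      have h2 := hlt (insert i0 (I'.erase k))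
        (fun i hi => (Finset.mem_insert.1 hi).elim (fun e => e ▸ hI i0 hi0) (hT i))
        (fun i hi => (Finset.mem_insert.1 hi).elim (fun e => e ▸ hC.2.1 i0 hi0) (hTs i))
        (by rw [Finset.card_insert_of_notMem hi0']; omega)
      have h3 := hlt (I.erase i0) (fun i hi => hI i (Finset.mem_of_mem_erase hi))
        (fun i hi => hC.2.1 i (Finset.mem_of_mem_erase hi))
        (by rw [← hcard]; exact Finset.card_erase_lt_of_mem hi0)
      have h4 := hC.2.2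
      rw [← Finset.sum_erase_add _ _ hi0] at h4
      rw [Finset.sum_insert hi0'] at h2
      omega
  · have hT : ∀ i ∈ I', i < k := fun i hi => by
      have h1 := hI' i hi
      have h2 : i ≠ k := fun e => hk (e ▸ hi)
      omega
    have hTs : hb.π b' ∈ strat E I' := fun i hi => hb.bd_lt hE (hT i hi).ne (hst i hi)
    beta_reduce at hd ⊢
    rw [hsum _ hk] at hd ⊢
    rcases hp _ hcb I' hT hTs hd with h1 | ⟨h1, h2 | ⟨h2, h3⟩⟩
    · exact Or.inl h1
    · exact Or.inr ⟨h1, Or.inl h2⟩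
    · refine Or.inr ⟨h1, Or.inr ⟨h2, Finset.mem_erase.2 ⟨?_, h3⟩⟩⟩
      rintro rfl
      exact not_all hE hS h hI hne hq hb hc ⟨hcb, hTs, h2⟩ hst

/-- resolvability under a bound for the potential -/
def RP (K : Type) [Field K] [Algebra ℝ K] (n c d p q N : ℕ) : Prop :=
  ∀ (M : Model K n) (k : ℕ) (E : ℕ → Set M.P) (S : M.Obj) (m : M.P → ℕ → ℕ)
    (F : Finset (Finset ℕ)), M.Snc k E → M.OK S → MP M k E c d S m → F.card = N →
      Pot M k E d S m p q F → Res M k E S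

theorem rp_card (hd : 0 < d) (h : RP K n c d p q 0) : ∀ N, RP K n c d p q N
  | 0 => h
  | N + 1 => fun M k E S m F hE hS hm hF hp => by
    obtain ⟨I, hIF⟩ := Finset.card_pos.1 (show 0 < F.card by omega)
    have hc : (F.erase I).card = N := by rw [Finset.card_erase_of_mem hIF]; omega
    by_cases hI : (∀ i ∈ I, i < k) ∧ I.Nonempty ∧ d ≤ q ∧ I.card = p
    · obtain ⟨hI, hne, hq, hcard⟩ := hI
      have hadm := cen_adm hE hS hm hI hne hq
      obtain ⟨M', hb⟩ := exists_bl hadm.centre.sm hadm.centre.ne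
      exact Res.step _ M' hb hadm (rp_card hd h N M' _ _ _ _ _ (hb.snc hE hadm.centre)
        (hb.ok hE hS hadm) (mp_step hE hS hm hI hne hq hb) hc
        (pot_step hE hS hm hI hne hq hb hcard hp))
    · refine rp_card hd h N M k E S m _ hE hS hm hc fun b hb I' h1 h2 h3 => ?_
      rcases hp b hb I' h1 h2 h3 with h4 | ⟨h4, h5 | ⟨h5, h6⟩⟩
      · exact Or.inl h4
      · exact Or.inr ⟨h4, Or.inl h5⟩
      · refine Or.inr ⟨h4, Or.inr ⟨h5, Finset.mem_erase.2 ⟨?_, h6⟩⟩⟩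
        rintro rfl
        refine hI ⟨h1, Finset.nonempty_iff_ne_empty.2 ?_, h5 ▸ h3, h4⟩
        rintro rfl
        simp at h3
        omega

theorem rp_sum (hd : 0 < d) (h : RP K n c d p 0 0) : ∀ q, RP K n c d p q 0
  | 0 => h
  | q + 1 => fun M k E S m F hE hS hm hF hp => by
    refine rp_card hd (rp_sum hd h q) _ M k E S m (Finset.range k).powerset hE hS hm rfl
      fun b hb I h1 h2 h3 => ?_
    rcases hp b hb I h1 h2 h3 with h4 | ⟨h4, h5 | ⟨-, h6⟩⟩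
    · exact Or.inl h4
    · refine Or.inr ⟨h4, ?_⟩
      rcases Nat.lt_succ_iff_lt_or_eq.1 h5 with h6 | h6
      · exact Or.inl h6
      · exact Or.inr ⟨h6, Finset.mem_powerset.2 fun i hi => Finset.mem_range.2 (h1 i hi)⟩
    · rw [Finset.card_eq_zero.1 hF] at h6
      simp at h6

theorem MP.exists_bound (h : MP M k E c d S m) : ∃ q, ∀ b ∈ M.cos S, ∀ I : Finset ℕ,
    (∀ i ∈ I, i < k) → b ∈ strat E I → ∑ i ∈ I, m b i < q := by
  choose Z G y μ _ _ h1 using h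
  obtain ⟨t, -, ht⟩ := exists_finset_cover Set.univ _ fun a _ => h1 a
  refine ⟨∑ a ∈ t, ∑ i ∈ Finset.range k, μ a i + 1, fun b hb I hI hst => ?_⟩
  obtain ⟨a, ha, h2⟩ := ht b trivial
  rw [h2.sum_eq hb hI hst, Nat.lt_succ_iff]
  exact (Finset.sum_le_sum_of_subset fun i hi => Finset.mem_range.2 (hI i hi)).trans
    (Finset.single_le_sum (f := fun a => ∑ i ∈ Finset.range k, μ a i)
      (fun _ _ => Nat.zero_le _) ha)

theorem rp_top (hp : n ≤ p) : RP K n c d p 0 0 := by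
  classical
  intro M k E S m F hE _ hm hF hpot
  refine Res.done (Set.eq_empty_of_forall_notMem fun b hb => ?_)
  obtain ⟨Z, G, y, μ, -, -, h1⟩ := hm b
  have h2 := zn_self h1
  have hZ := pres_m h2.1 hb
  have h3 := ((h2.2 hb).1.cos_iff (h2.1.tr hZ) h2.1.memG (h2.1.flat hZ)).1
    (cos_union.1 (h2.1.cos.1 hb)).2
  set I := (Finset.range k).filter (fun i => (M.loc b).span (M.Y E i) ≠ 1) with hI
  have hI1 : ∀ i ∈ I, i < k := fun i hi => Finset.mem_range.1 (Finset.mem_filter.1 hi).1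
  have hI2 : b ∈ strat E I := fun i hi => by
    by_contra h4
    exact (Finset.mem_filter.1 hi).2 ((hE.span_eq_one i).2 h4)
  obtain ⟨κ, σ, hκ⟩ := hE.adp b
  have h4 := hκ.card_le I fun i hi => (Finset.mem_filter.1 hi).2
  rcases hpot b hb I hI1 hI2 (h2.sum_eq hb hI1 hI2 ▸ h3) with h5 | ⟨-, h5 | ⟨-, h5⟩⟩
  · omega
  · omega
  · rw [Finset.card_eq_zero.1 hF] at h5
    simp at h5

theorem rp_all (hd : 0 < d) (p : ℕ) : RP K n c d p 0 0 := by
  by_cases hp : n ≤ p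
  · exact rp_top hp
  · intro M k E S m F hE hS hm hF hpot
    obtain ⟨q, hq⟩ := hm.exists_bound
    refine rp_sum hd (rp_all hd (p + 1)) q M k E S m F hE hS hm hF fun b hb I h1 h2 h3 => ?_
    rcases hpot b hb I h1 h2 h3 with h4 | ⟨-, h5 | ⟨-, h5⟩⟩
    · rcases Nat.lt_or_eq_of_le (Nat.succ_le_of_lt h4) with h6 | h6
      · exact Or.inl h6
      · exact Or.inr ⟨h6.symm, Or.inl (hq b hb I h1 h2)⟩
    · omega
    · rw [Finset.card_eq_zero.1 hF] at h5
      simp at h5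
termination_by n - p
decreasing_by omega

end AMono

theorem resLt_one {c d : ℕ} (hd : 0 < d) : ResLt K n c d 1 := by
  intro M k E S hE hS h
  obtain ⟨m, hm⟩ := AMono.start hd hE h
  refine AMono.rp_all hd 0 M k E S m ∅ hE hS hm rfl fun b _ I _ _ h3 => Or.inl ?_
  refine Finset.card_pos.2 (Finset.nonempty_iff_ne_empty.2 ?_)
  rintro rfl
  simp at h3
  omega

end Pool.Agent.MP_696f7f_ag.H96
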