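import Pool.Agent.MP_696f7f_ag.H96.APres

/-! Resolving the companion object lowers the residual order. -/

namespace Pool.Agent.MP_696f7f_ag.H96

variable {K : Type} [Field K] [Algebra ℝ K] {n : ℕ}

omit [Algebra ℝ K] in
theorem ARide_image {s : K} (hs : s ≠ 0) (G : Set K) (r : K → K) (d e : ℕ) :
    (fun g => r (g * s ^ d) / s ^ e) '' dvs (s ^ d) G = dvs (s ^ e) (r '' G) := by
  unfold dvs
  rw [Set.image_image, Set.image_image]
  refine Set.image_congr fun g _ => ?_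
  rw [div_mul_cancel₀ _ (pow_ne_zero _ hs)]

/-- the relation between an object and its companion is preserved by blow-ups -/
theorem Xfer.relAt {L L' : Loc K} {Y Y' : ℕ → Set K} {C : Set K} {k : ℕ} {s : K}
    (h : Xfer L L' n Y Y' k C s) {c d e : ℕ} {S S' : Set (K × ℕ)} {Z G : Set K} {M1 M2 : K}
    {r : K → K} (hr : RelAt L n c d e k Y S S' Z G M1 M2 r) (hsub : S ⊆ S') (hS' : L.In S')
    (hb' : Bdd S') (ho' : L.Ord C S') :
    RelAt L' n c d e (k + 1) Y' (trS L' (Y' k) S) (trS L' (Y' k) S') (dvs s Z) (dvs (s ^ d) G)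
      (M1 * s ^ d) (M2 * s ^ e) (fun g => r (g * s ^ d) / s ^ e) := by
  have hS := hS'.subset hsub
  have hb := hb'.subset hsub
  have ho := ho'.subset hsub
  have hR : L.In (wt (r '' G) e) := in_wt.2 (by rintro _ ⟨g, hg, rfl⟩; exact hr.mem g hg)
  have hT : L.In (wt Z 1 ∪ wt G d ∪ wt (r '' G) e) :=
    in_union.2 ⟨in_union.2 ⟨in_wt.2 hr.pres.memZ, in_wt.2 hr.pres.memG⟩, hR⟩
  have hbT : Bdd (wt Z 1 ∪ wt G d ∪ wt (r '' G) e) :=
    bdd_union.2 ⟨bdd_union.2 ⟨bdd_wt, bdd_wt⟩, bdd_wt⟩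
  have hoT : L.Ord C (wt Z 1 ∪ wt G d ∪ wt (r '' G) e) :=
    h.ord S' _ hT ho' fun hc => (hr.eqv hc).1
  have hoR := (ord_union.1 hoT).2
  have hZC : ∀ z ∈ Z, z ∈ L.span C := ord_wt_one.1 (ord_union.1 (ord_union.1 hoT).1).1
  have hp := (h.presAt hr.pres hS hb ho).2
  have e1 : dv s (wt (r '' G) e) =
      wt ((fun g => r (g * s ^ d) / s ^ e) '' dvs (s ^ d) G) e := by
    rw [ARide_image h.ne, dv_wt]
  have e2 : dv s (wt Z 1 ∪ wt G d ∪ wt (r '' G) e) = wt (dvs s Z) 1 ∪ wt (dvs (s ^ d) G) d ∪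
      wt ((fun g => r (g * s ^ d) / s ^ e) '' dvs (s ^ d) G) e := by
    rw [dv_union, dv_union, dv_wt_one, e1, dv_wt]
  have hmem : ∀ g ∈ dvs (s ^ d) G, r (g * s ^ d) / s ^ e ∈ L'.O := fun g hg => by
    have h1 := h.in_dv hoR
    rw [e1] at h1
    exact in_wt.1 h1 _ ⟨g, hg, rfl⟩
  have heq : L.Cos S' → Eqv L' (L'.lg Y') (trS L' (Y' k) S') (wt (dvs s Z) 1 ∪
      wt (dvs (s ^ d) G) d ∪ wt ((fun g => r (g * s ^ d) / s ^ e) '' dvs (s ^ d) G) e) :=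
    fun hc => e2 ▸ h.eqv hS' hT hb' hbT ho' hoT (hr.eqv hc)
  have hiff : L.Cos S' → (L'.Cos (trS L' (Y' k) S') ↔ L'.Cos (wt (dvs s Z) 1 ∪
      wt (dvs (s ^ d) G) d ∪ wt ((fun g => r (g * s ^ d) / s ^ e) '' dvs (s ^ d) G) e)) := by
    intro hc
    obtain ⟨κ, σ, ha⟩ := h.adp'
    exact (heq hc).cos_iff ha.crd Loc.log_sub_empty (in_trS h.new.symm (h.in_dv ho'))
      (e2 ▸ h.in_dv hoT)
  refine ⟨hp, hmem, fun hm => ?_, fun hc => ?_, ⟨fun hc => ?_, fun hc => ?_⟩,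
    fun hc => heq (h.cos_trS ho' hc)⟩
  · rw [← e1]
    exact h.flat c Z _ hr.pres.memZ hZC (fun z hz => hm _ ⟨z, hz, rfl⟩) hr.pres.tr hR bdd_wt hoR
      hr.flat
  · have hl := hr.lau (h.cos_trS ho hc)
    refine ⟨(h.mon hl.mon1).mul (h.mon_s d), (h.mon hl.mon2).mul (h.mon_s e), hmem, ?_⟩
    rintro _ ⟨g, hg, rfl⟩
    have h1 : s ^ d ≠ 0 := pow_ne_zero _ h.ne
    have h2 : s ^ e ≠ 0 := pow_ne_zero _ h.ne
    have h3 : M1 * s ^ d * (g / s ^ d) - M2 * s ^ e * (r (g / s ^ d * s ^ d) / s ^ e) =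
        M1 * g - M2 * r g := by
      rw [div_mul_cancel₀ _ h1, mul_assoc, mul_div_cancel₀ _ h1, mul_assoc, mul_div_cancel₀ _ h2]
    have h4 := h.span_le hZC (hl.cong g hg)
    rw [← h3] at h4
    exact h4
  · exact ⟨hc.subset (trS_mono hsub), (cos_union.1 ((hiff (h.cos_trS ho' hc)).1 hc)).2⟩
  · have h1 : L.Cos S' := hr.cos.2 ⟨h.cos_trS ho hc.1, h.cosb _ hoR (e1.symm ▸ hc.2)⟩
    exact (hiff h1).2 (cos_union.2 ⟨hp.cos.1 hc.1, hc.2⟩)

theorem res_of_rel {c d e : ℕ} (h : ResLt K n c d e) {M : Model K n} {k : ℕ} {E : ℕ → Set M.P}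
    {S' : M.Obj} (hr : Res M k E S') (S : M.Obj) (hE : M.Snc k E) (hS : M.OK S) (hS' : M.OK S')
    (hrel : M.Rel k E c d e S S') : Res M k E S := by
  induction hr with
  | @done M k E S' hcos =>
    refine h M k E S hE hS fun a => ?_
    obtain ⟨Z, G, M1, M2, r, hZ, hG, hev⟩ := hrel.loc a
    refine ⟨Z, G, M1, M2, r, hZ, hG, hev.mono fun b hb => ⟨hb.pres, fun hc => ⟨hb.lau hc, ?_⟩⟩⟩
    by_contra h1
    push Not at h1
    have hm := hb.pres.mem_m hc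
    have h2 : (M.loc b).Cos (wt (r '' G) e) := by
      refine flat_cos (hb.pres.tr hm) (in_wt.2 ?_) (hb.flat hm) ?_
      · rintro _ ⟨g, hg, rfl⟩; exact hb.mem g hg
      · rintro ⟨_, _⟩ ⟨⟨g, hg, rfl⟩, rfl⟩; exact h1 g hg
    have h3 : b ∈ M.cos S' := hb.cos.2 ⟨hc, h2⟩
    rw [hcos] at h3
    exact h3
  | @step M k E S' C M' hb hA _ ih =>
    have hA0 : M.Adm E S C := ⟨hA.centre, fun b hbC => (hA.ord b hbC).subset (hrel.sub b)⟩
    refine Res.step C M' hb hA0 (ih (hb.tr S) (hb.snc hE hA.centre) (hb.ok hE hS hA0)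
      (hb.ok hE hS' hA) ⟨fun b' => trS_mono (hrel.sub _), fun a' => ?_⟩)
    obtain ⟨Z, G, M1, M2, r, hZ, hG, hev⟩ := hrel.loc (hb.π a')
    obtain ⟨s, hs⟩ := hb.APres_xfer hE hA.centre a'
    refine ⟨dvs s Z, dvs (s ^ d) G, M1 * s ^ d, M2 * s ^ e, fun g => r (g * s ^ d) / s ^ e,
      APres_dvs_finite hZ _, APres_dvs_finite hG _, ?_⟩
    filter_upwards [hb.APres_ev hev, hs] with b' hb' hx
    rw [hb.APres_tr k E, hb.APres_tr k E]
    exact hx.relAt hb' (hrel.sub _) (hS'.mem _) (hS'.bdd_at _) (hA.ord_all hS' _)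

end Pool.Agent.MP_696f7f_ag.H96
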