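import Pool.Agent.MP_696f7f_ag.H96.AStep1
import Pool.Agent.MP_696f7f_ag.H96.AComp
import Pool.Agent.MP_696f7f_ag.H96.ARide
import Pool.Agent.MP_696f7f_ag.H96.AMono

/-! Principalisation. -/

namespace Pool.Agent.MP_696f7f_ag.H96

variable {K : Type} [Field K] [Algebra ℝ K] {n : ℕ}

theorem resLt_all {c d : ℕ} (hd : 0 < d) (h : ResAll K n (c + 1)) : ∀ e, ResLt K n c d e
  | 0 => resLt_zero
  | 1 => resLt_one hd
  | e + 2 => fun M k E S hE hS hr => by
    obtain ⟨S', d', hd', hS', hp, hrel⟩ := exists_companion hE hS hd hr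
    have he : fromIdx k E = fun _ => ∅ := by
      funext i
      unfold fromIdx
      split_ifs with hi
      · exact hE.bd i hi
      · rfl
    exact res_of_rel (resLt_all hd h (e + 1))
      (res_of_fromIdx h M k k E S' d' hE hS' hd' le_rfl (he ▸ hp)) S hE hS hS' hrel

theorem resNZ_of_resAll {c : ℕ} (h : ResAll K n (c + 1)) : ResNZ K n c :=
  fun M k E S _ hE hS hd hp => by
    obtain ⟨e, he⟩ := hp.exists_rb hE
    exact resLt_all hd h e M k E S hE hS he

theorem resAll_succ (c : ℕ) : ResAll K n (c + 1) := by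
  by_cases hc : n < c + 1
  · exact resAll_top hc
  · exact resAll_of_resNZ (Nat.succ_pos c) (resNZ_of_resAll (resAll_succ (c + 1)))
termination_by n - c
decreasing_by omega

theorem princStmt : PrincStmt := by
  intro K _ _ n M k E G hE hG hGB hne
  refine resNZ_of_resAll (resAll_succ 0) M k E _ 1 hE
    ⟨fun b => in_wt.mpr fun g hg => M.le_loc b (hGB g hg), 1, fun _ p hp => hp.2.le⟩ one_pos ?_
  intro a
  refine ⟨∅, G, Set.finite_empty, hG, Filter.Eventually.of_forall fun b => ⟨?_, fun _ => ?_⟩⟩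
  · obtain ⟨κ, σ, hκ⟩ := hE.adp b
    refine ⟨by simp, fun g hg => M.le_loc b (hGB g hg), by rw [wt_empty, Set.empty_union],
      fun _ => ⟨κ, σ, ∅, ⟨hκ, by rw [Loc.span_empty, Chart.I_empty], by simp⟩, rfl⟩,
      fun _ v _ _ hs => ?_, fun _ => by rw [wt_empty, Set.empty_union]; exact Eqv.refl⟩
    refine hs.mono fun δ hδ => ⟨hδ, Loc.mem_log_of_gen (Loc.log_sub_empty hδ) (by simp) (by simp)⟩
  · obtain ⟨g, hg, h0⟩ := hne
    exact ⟨g, hg, by rw [Loc.span_empty]; simpa using h0⟩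

end Pool.Agent.MP_696f7f_ag.H96
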