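import Pool.Agent.MP_696f7f_ag.H96.LChart

/-! Exchange lemmas: charts adapted to several subspaces at once. -/

namespace Pool.Agent.MP_696f7f_ag.H96

variable {K : Type} [Field K] [Algebra ℝ K] {n : ℕ}
variable {L : Loc K} {κ κ' : Chart K n} {J J' : Finset (Fin n)}
  {Y Y' : ℕ → Set K} {σ σ' : ℕ → Option (Fin n)} {Z Z' C : Set K} {c : ℕ}

theorem lex_ev_D_sq (h : IsCrd L κ) (j : Fin n) {f : K} (hf : f ∈ L.m ^ 2) :
    L.ev (κ.D j f) = 0 := by
  have h1 := Loc.der_pow_succ (h.D_log j) Loc.m_le_one (k := 1) hf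
  rw [pow_one] at h1
  exact h1.2

theorem lex_ev_D_I (h : IsCrd L κ) {j : Fin n} (hj : j ∉ J) {f : K} (hf : f ∈ κ.I L J) :
    L.ev (κ.D j f) = 0 :=
  (h.I_le_m ((h.D_log_I hj).2 _ rfl f hf)).2

theorem lex_ev_D_sup (h : IsCrd L κ) {j : Fin n} (hj : j ∉ J) {f : K}
    (hf : f ∈ κ.I L J ⊔ L.m ^ 2) : L.ev (κ.D j f) = 0 := by
  obtain ⟨a, ha, b, hb, rfl⟩ := Submodule.mem_sup.1 hf
  rw [map_add, L.ev_add _ (h.pres j a (Loc.mem_O_of_le h.I_le_one ha)) _
    (h.pres j b (Loc.mem_O_of_le (Loc.pow_le_one Loc.m_le_one 2) hb)), lex_ev_D_I h hj ha,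
    lex_ev_D_sq h j hb, add_zero]

theorem lex_ev_D_sum (h : IsCrd L κ) (j : Fin n) {ι : Type} (T : Finset ι) (a : ι → ℝ)
    (z : ι → K) (hz : ∀ t ∈ T, z t ∈ L.O) :
    L.ev (κ.D j (∑ t ∈ T, a t • z t)) = ∑ t ∈ T, a t * L.ev (κ.D j (z t)) := by
  rw [map_sum, Loc.ev_sum _ _ fun t ht => by
    rw [Derivation.map_smul]; exact L.O.smul_mem (h.pres j _ (hz t ht)) _]
  refine Finset.sum_congr rfl fun t ht => ?_
  rw [Derivation.map_smul, Loc.ev_smul (h.pres j _ (hz t ht))]

theorem lex_ev_dual (h : IsCrd L κ) (i j : Fin n) :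
    L.ev (κ.D i (κ.x j)) = if i = j then 1 else 0 := by
  rw [h.dual]
  split_ifs
  · exact Loc.ev_one
  · exact Loc.ev_zero

/-- replacing one coordinate -/
theorem lex_update (h : IsCrd L κ) {w : K} (hw : w ∈ L.m) {j : Fin n}
    (h0 : L.ev (κ.D j w) ≠ 0) :
    ∃ κ' : Chart K n, IsCrd L κ' ∧ κ'.x j = w ∧ ∀ i, i ≠ j → κ'.x i = κ.x i := by
  have hm : ∀ i, Function.update κ.x j w i ∈ L.m := by
    intro i
    by_cases hi : i = j
    · rw [hi, Function.update_self]; exact hw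
    · rw [Function.update_of_ne hi]; exact h.x_mem_m i
  have hi : Indep L (Function.update κ.x j w) := by
    intro a ha
    have h1 := lex_ev_D_sq h j ha
    rw [lex_ev_D_sum h j _ _ _ fun i _ => (hm i).1, Finset.sum_eq_single j, Function.update_self]
      at h1
    · have haj : a j = 0 := (mul_eq_zero.1 h1).resolve_right h0
      refine h.indep a ?_
      have e : ∑ i, a i • κ.x i = ∑ i, a i • Function.update κ.x j w i := by
        refine Finset.sum_congr rfl fun i _ => ?_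
        by_cases hi : i = j
        · rw [hi, haj, zero_smul, zero_smul]
        · rw [Function.update_of_ne hi]
      rw [e]
      exact ha
    · intro i _ hi
      rw [Function.update_of_ne hi, lex_ev_dual h, if_neg (Ne.symm hi), mul_zero]
    · intro hj
      exact (hj (Finset.mem_univ j)).elim
  obtain ⟨κ', h', e⟩ := h.exists_chart _ hm hi
  exact ⟨κ', h', by rw [e, Function.update_self], fun i hi => by rw [e, Function.update_of_ne hi]⟩

theorem lex_exists_D (h : IsCrd L κ) {w : K} (hw : w ∈ L.m) {P : Finset (Fin n)}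
    (hP : w ∉ κ.I L P ⊔ L.m ^ 2) : ∃ j, j ∉ P ∧ L.ev (κ.D j w) ≠ 0 := by
  by_contra hc
  push Not at hc
  apply hP
  have h1 := h.sub_linear hw
  have h2 : ∑ i, L.ev (κ.D i w) • κ.x i ∈ κ.I L P := by
    refine sum_mem fun i _ => ?_
    by_cases hi : i ∈ P
    · exact Loc.smul_mem _ (h.x_mem_I.2 hi)
    · rw [hc i hi, zero_smul]; exact zero_mem _
  have e : w = ∑ i, L.ev (κ.D i w) • κ.x i + (w - ∑ i, L.ev (κ.D i w) • κ.x i) := by ring
  rw [e]
  exact Submodule.add_mem_sup h2 h1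

theorem lex_I_congr {P : Finset (Fin n)} (h : ∀ j ∈ P, κ'.x j = κ.x j) :
    κ'.I L P = κ.I L P := by
  unfold Chart.I
  rw [Set.image_congr fun j hj => h j hj]

/-- Steinitz exchange -/
theorem lex_exch {ι : Type} [DecidableEq ι] (z : ι → K) (T : Finset ι) (j0 : ι → Fin n) :
    ∀ (κ : Chart K n) (P : Finset (Fin n)), IsCrd L κ → (∀ t ∈ T, z t ∈ κ.I L J) →
      (∀ a : ι → ℝ, ∑ t ∈ T, a t • z t ∈ κ.I L P ⊔ L.m ^ 2 → ∀ t ∈ T, a t = 0) →
      ∃ (κ' : Chart K n) (e : ι → Fin n), IsCrd L κ' ∧ Set.InjOn e T ∧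
        (∀ t ∈ T, e t ∈ J ∧ e t ∉ P ∧ κ'.x (e t) = z t) ∧
        (∀ j, j ∉ T.image e → κ'.x j = κ.x j) ∧ κ'.I L J = κ.I L J := by
  induction T using Finset.induction_on with
  | empty =>
    intro κ P h _ _
    exact ⟨κ, j0, h, by simp, by simp, fun _ _ => rfl, rfl⟩
  | insert a T ha ih =>
    intro κ P h hz hind
    have hza : z a ∈ κ.I L J := hz a (Finset.mem_insert_self a T)
    have hzm : z a ∈ L.m := h.I_le_m hza
    have hn : z a ∉ κ.I L P ⊔ L.m ^ 2 := by
      intro hc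
      have := hind (fun t => if t = a then 1 else 0) (by simpa using hc) a
        (Finset.mem_insert_self a T)
      simp at this
    obtain ⟨j, hjP, hj0⟩ := lex_exists_D h hzm hn
    have hjJ : j ∈ J := by
      by_contra hc
      exact hj0 (lex_ev_D_I h hc hza)
    obtain ⟨κ1, h1, hx1, hx1'⟩ := lex_update h hzm hj0
    have hI : κ1.I L J = κ.I L J := by
      refine h1.I_eq_of_le h (Loc.span_le.2 ?_) le_rfl
      rintro _ ⟨i, hi, rfl⟩
      by_cases hij : i = j
      · rw [hij, hx1]; exact hza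
      · rw [hx1' i hij]; exact h.x_mem_I.2 hi
    have hP : κ1.I L P = κ.I L P := lex_I_congr fun i hi => hx1' i fun e => hjP (e ▸ hi)
    obtain ⟨κ2, e, h2, hinj, he, hx2, hI2⟩ := ih κ1 (insert j P) h1
      (fun t ht => hI ▸ hz t (Finset.mem_insert_of_mem ht)) (by
        intro b hb
        rw [Chart.I_insert, hP, hx1, sup_assoc] at hb
        obtain ⟨u, hu, v, hv, huv⟩ := Submodule.mem_sup.1 hb
        obtain ⟨r, hr, rfl⟩ := Loc.mem_span_singleton.1 hu
        have h3 : (r - algebraMap ℝ K (L.ev r)) * z a ∈ L.m ^ 2 := by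
          rw [pow_two]
          exact Submodule.mul_mem_mul (Loc.sub_ev_mem hr) hzm
        intro t ht
        have h4 := hind (fun s => if s = a then -L.ev r else b s) (by
          rw [Finset.sum_insert ha, if_pos rfl]
          have e1 : ∑ s ∈ T, (if s = a then -L.ev r else b s) • z s = ∑ s ∈ T, b s • z s :=
            Finset.sum_congr rfl fun s hs => by rw [if_neg fun e : s = a => ha (e ▸ hs)]
          have e2 : -L.ev r • z a + (r * z a + v) =
              v + (r - algebraMap ℝ K (L.ev r)) * z a := by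
            rw [Algebra.smul_def, map_neg]; ring
          rw [e1, ← huv, e2]
          exact add_mem hv (Submodule.mem_sup_right h3)) t (Finset.mem_insert_of_mem ht)
        rwa [if_neg fun e : t = a => ha (e ▸ ht)] at h4)
    have hne : ∀ t ∈ T, t ≠ a := fun t ht e => ha (e ▸ ht)
    have hej : ∀ t ∈ T, e t ≠ j := fun t ht e' =>
      (he t ht).2.1 (e' ▸ Finset.mem_insert_self j P)
    refine ⟨κ2, Function.update e a j, h2, ?_, ?_, ?_, hI2.trans hI⟩
    · intro s hs t ht hst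
      rcases Finset.mem_insert.1 hs with rfl | hs' <;> rcases Finset.mem_insert.1 ht with rfl | ht'
      · rfl
      · rw [Function.update_self, Function.update_of_ne (hne t ht')] at hst
        exact (hej t ht' hst.symm).elim
      · rw [Function.update_self, Function.update_of_ne (hne s hs')] at hst
        exact (hej s hs' hst).elim
      · rw [Function.update_of_ne (hne s hs'), Function.update_of_ne (hne t ht')] at hst
        exact hinj hs' ht' hst
    · intro t ht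
      rcases Finset.mem_insert.1 ht with rfl | ht'
      · rw [Function.update_self]
        refine ⟨hjJ, hjP, ?_⟩
        rw [hx2 j, hx1]
        intro hc
        obtain ⟨s, hs, e'⟩ := Finset.mem_image.1 hc
        exact hej s hs e'
      · rw [Function.update_of_ne (hne t ht')]
        exact ⟨(he t ht').1, fun hc => (he t ht').2.1 (Finset.mem_insert_of_mem hc),
          (he t ht').2.2⟩
    · intro i hi
      have hij : i ≠ j := fun e' => hi (Finset.mem_image.2
        ⟨a, Finset.mem_insert_self a T, by rw [Function.update_self, e']⟩)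
      rw [hx2 i, hx1' i hij]
      intro hc
      obtain ⟨s, hs, e'⟩ := Finset.mem_image.1 hc
      exact hi (Finset.mem_image.2 ⟨s, Finset.mem_insert_of_mem hs, by
        rw [Function.update_of_ne (hne s hs), e']⟩)

/-- exchange of coordinates of another chart -/
theorem lex_exch2 {κ1 : Chart K n} (h : IsCrd L κ) (h1 : IsCrd L κ1) (T P : Finset (Fin n))
    (hT : ∀ t ∈ T, κ1.x t ∈ κ.I L J) (hP : ∀ j ∈ P, κ.x j ∈ κ1.I L Tᶜ) :
    ∃ (κ' : Chart K n) (e : Fin n → Fin n), IsCrd L κ' ∧ Set.InjOn e T ∧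
      (∀ t ∈ T, e t ∈ J ∧ e t ∉ P ∧ κ'.x (e t) = κ1.x t) ∧
      (∀ j, j ∉ T.image e → κ'.x j = κ.x j) ∧ κ'.I L J = κ.I L J := by
  refine lex_exch κ1.x T id κ P h hT fun a ha t ht => ?_
  have hle : κ.I L P ≤ κ1.I L Tᶜ := by
    refine Loc.span_le.2 ?_
    rintro _ ⟨j, hj, rfl⟩
    exact hP j hj
  have h2 := lex_ev_D_sup h1 (j := t) (J := Tᶜ) (by simpa using ht) (sup_le_sup_right hle _ ha)
  rw [lex_ev_D_sum h1 t _ _ _ fun i _ => h1.x_mem i, Finset.sum_eq_single t, lex_ev_dual h1,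
    if_pos rfl, mul_one] at h2
  · exact h2
  · intro i _ hi
    rw [lex_ev_dual h1, if_neg (Ne.symm hi), mul_zero]
  · intro hc
    exact (hc ht).elim

/-- a boundary coordinate of one chart generates the ideal of a boundary coordinate of another -/
theorem lex_bd {κ1 : Chart K n} {σ1 : ℕ → Option (Fin n)} (h : Adp L κ Y σ)
    (h1 : Adp L κ1 Y' σ1) {i : ℕ} {j : Fin n} (hj : σ i = some j)
    (hY : L.span (Y i) = L.span (Y' i)) : ∃ j1, σ1 i = some j1 ∧ κ.x j ∈ κ1.I L {j1} := by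
  rcases e : σ1 i with _ | j1
  · have h2 := (h1.span_eq_one i).2 e
    rw [← hY, h.span_eq_one, hj] at h2
    exact absurd h2 (by simp)
  · refine ⟨j1, rfl, ?_⟩
    rw [← h1.span_some e, ← hY, h.span_some hj]
    exact h.crd.x_mem_I.2 (Finset.mem_singleton_self j)

theorem lex_I_image {κ1 : Chart K n} {T : Finset (Fin n)} {e : Fin n → Fin n}
    (he : ∀ t ∈ T, κ'.x (e t) = κ1.x t) : κ'.I L (T.image e) = κ1.I L T := by
  unfold Chart.I
  rw [Finset.coe_image, Set.image_image, Set.image_congr fun t ht => he t ht]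

theorem lex_adp (h : Adp L κ Y σ) (h' : IsCrd L κ')
    (hx : ∀ i j, σ i = some j → κ'.x j = κ.x j) : Adp L κ' Y σ := by
  refine ⟨h', fun i => ?_, h.inj⟩
  rw [h.span i]
  rcases e : σ i with _ | j
  · rfl
  · rw [Chart.y, Chart.y, hx i j e]

/-- a chart adapted to the boundary, the centre `C` and a transversal subspace containing it -/
theorem exists_joint (hC : SncAt L n Y C) (hZ : TrAt L n c Y Z) (h : ∀ z ∈ Z, z ∈ L.span C) :
    ∃ (κ : Chart K n) (σ : ℕ → Option (Fin n)) (J JN : Finset (Fin n)),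
      Tr L κ Y σ Z JN ∧ JN.card = c ∧ L.span C = κ.I L J ∧ JN ⊆ J := by
  classical
  obtain ⟨κ, σ, J, ha, hJ⟩ := hC
  obtain ⟨κ1, σ1, J1, ht, hc⟩ := hZ
  obtain ⟨κ', e, h', hinj, he, hx, hI⟩ := lex_exch2 (J := J) ha.crd ht.adp.crd J1
    (Finset.univ.filter fun j => ∃ i, σ i = some j) (by
      intro t htJ
      rw [← hJ]
      refine (Loc.span_le.2 h) ?_
      rw [ht.span]
      exact ht.adp.crd.x_mem_I.2 htJ) (by
      intro j hj
      obtain ⟨i, hi⟩ := (Finset.mem_filter.1 hj).2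
      obtain ⟨j1, e1, hj1⟩ := lex_bd ha ht.adp hi rfl
      refine Chart.I_mono ?_ hj1
      simpa using ht.disj i j1 e1)
  have hd : ∀ i j, σ i = some j → j ∉ J1.image e := by
    intro i j hj hc
    obtain ⟨t, htJ, rfl⟩ := Finset.mem_image.1 hc
    exact (he t htJ).2.1 (Finset.mem_filter.2 ⟨Finset.mem_univ _, i, hj⟩)
  refine ⟨κ', σ, J, J1.image e, ⟨lex_adp ha h' fun i j hj => hx j (hd i j hj), ?_, hd⟩, ?_, ?_, ?_⟩
  · rw [lex_I_image fun t htJ => (he t htJ).2.2, ht.span]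
  · rw [Finset.card_image_of_injOn hinj, hc]
  · rw [hI, hJ]
  · intro j hj
    obtain ⟨t, htJ, rfl⟩ := Finset.mem_image.1 hj
    exact (he t htJ).1

/-- a centre with normal crossings with a part `Y'` of the boundary `Y` that lies on all the other
components through the point has normal crossings with the whole boundary -/
theorem sncAt_of_sub (hY : AdpAt L n Y) (hC : SncAt L n Y' C)
    (h : ∀ i, L.span (Y' i) = L.span (Y i) ∨
      (L.span (Y' i) = 1 ∧ (L.span (Y i) = 1 ∨ ∀ y ∈ Y i, y ∈ L.span C))) : SncAt L n Y C := by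
  classical
  obtain ⟨κ1, σ1, h1⟩ := hY
  obtain ⟨κ, σ, J, ha, hJ⟩ := hC
  have hs : ∀ i j, σ i = some j → L.span (Y' i) = L.span (Y i) := by
    intro i j hj
    refine (h i).resolve_right fun hc => ?_
    have h2 := (ha.span_eq_one i).1 hc.1
    rw [hj] at h2
    exact absurd h2 (by simp)
  obtain ⟨κ', e, h', hinj, he, hx, hI⟩ := lex_exch2 (J := J) ha.crd h1.crd
    (Finset.univ.filter fun j => ∃ i, σ1 i = some j ∧ σ i = none)
    (Finset.univ.filter fun j => ∃ i, σ i = some j) (by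
      intro t ht
      obtain ⟨i, hi, hi'⟩ := (Finset.mem_filter.1 ht).2
      have h2 : L.span (Y i) ≠ 1 := by
        rw [Ne, h1.span_eq_one, hi]; simp
      have h3 : L.span (Y' i) = 1 := (ha.span_eq_one i).2 hi'
      have h4 : ∀ y ∈ Y i, y ∈ L.span C :=
        ((h i).resolve_left fun hc => h2 (hc ▸ h3)).2.resolve_left h2
      rw [← hJ]
      refine (Loc.span_le.2 h4) ?_
      rw [h1.span_some hi]
      exact h1.crd.x_mem_I.2 (Finset.mem_singleton_self t)) (by
      intro j hj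
      obtain ⟨i, hi⟩ := (Finset.mem_filter.1 hj).2
      obtain ⟨j1, e1, hj1⟩ := lex_bd ha h1 hi (hs i j hi)
      refine Chart.I_mono ?_ hj1
      rw [Finset.singleton_subset_iff, Finset.mem_compl]
      intro hc
      obtain ⟨i', hi1, hi2⟩ := (Finset.mem_filter.1 hc).2
      rw [← h1.inj i i' j1 e1 hi1, hi] at hi2
      exact absurd hi2 (by simp))
  have hT : ∀ i t, σ1 i = some t → σ i = none →
      t ∈ Finset.univ.filter fun j => ∃ i, σ1 i = some j ∧ σ i = none :=
    fun i t h2 h3 => Finset.mem_filter.2 ⟨Finset.mem_univ _, i, h2, h3⟩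
  have hd : ∀ i j, σ i = some j → ∀ i' t, σ1 i' = some t → σ i' = none → e t ≠ j := by
    intro i j hj i' t h2 h3 hc
    exact (he t (hT i' t h2 h3)).2.1 (Finset.mem_filter.2 ⟨Finset.mem_univ _, i, hc ▸ hj⟩)
  let τ : ℕ → Option (Fin n) := fun i => (σ i).or ((σ1 i).map e)
  have hτ : ∀ i j, τ i = some j → σ i = some j ∨ (σ i = none ∧ ∃ t, σ1 i = some t ∧ e t = j) := by
    intro i j hj
    rcases e1 : σ i with _ | j'
    · right
      simpa [τ, e1] using hj
    · left
      simpa [τ, e1] using hj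
  refine ⟨κ', τ, J, ⟨h', fun i => ?_, fun i i' j hj hj' => ?_⟩, by rw [hI, hJ]⟩
  · rcases e1 : σ i with _ | j
    · rcases e2 : σ1 i with _ | t
      · have e3 : τ i = none := by simp [τ, e1, e2]
        rw [e3, h1.span i, e2]
        rfl
      · have e3 : τ i = some (e t) := by simp [τ, e1, e2]
        rw [e3, h1.span i, e2, Chart.y, Chart.y, (he t (hT i t e2 e1)).2.2]
    · have e3 : τ i = some j := by simp [τ, e1]
      rw [e3, ← hs i j e1, ha.span i, e1, Chart.y, Chart.y, hx j]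
      intro hc
      obtain ⟨t, ht, hc⟩ := Finset.mem_image.1 hc
      obtain ⟨i', h2, h3⟩ := (Finset.mem_filter.1 ht).2
      exact hd i j e1 i' t h2 h3 hc
  · rcases hτ i j hj with h2 | ⟨h2, t, h3, h4⟩ <;>
      rcases hτ i' j hj' with h2' | ⟨h2', t', h3', h4'⟩
    · exact ha.inj i i' j h2 h2'
    · exact (hd i j h2 i' t' h3' h2' h4').elim
    · exact (hd i' j h2' i t h3 h2 h4).elim
    · have h5 : t = t' := hinj (hT i t h3 h2) (hT i' t' h3' h2') (h4.trans h4'.symm)
      exact h1.inj i i' t h3 (h5 ▸ h3')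

/-- permuting the coordinates -/
theorem lex_perm (h : IsCrd L κ) (τ : Equiv.Perm (Fin n)) :
    ∃ κ' : Chart K n, IsCrd L κ' ∧ ∀ j, κ'.x j = κ.x (τ j) := by
  refine ⟨⟨fun j => κ.x (τ j), fun j => κ.D (τ j)⟩, ⟨?_, fun i => h.pres (τ i), fun i j => ?_⟩,
    fun _ => rfl⟩
  · rw [← h.span]
    exact congrArg L.span (τ.surjective.range_comp κ.x)
  · simp only [h.dual, EmbeddingLike.apply_eq_iff_eq]

theorem lex_exists_perm {A A' B : Finset (Fin n)} (hc : A.card = A'.card)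
    (hA : ∀ j ∈ B, j ∉ A) (hA' : ∀ j ∈ B, j ∉ A') :
    ∃ τ : Equiv.Perm (Fin n), (∀ j ∈ B, τ j = j) ∧ A.image τ = A' := by
  obtain ⟨τ, hτ⟩ := Equiv.Perm.exists_extending_pair
    (Sum.elim (fun x : A => (x : Fin n)) (fun x : B => (x : Fin n)))
    (Sum.elim (fun x : A => ((A.equivOfCardEq hc) x : Fin n)) (fun x : B => (x : Fin n)))
    (Function.Injective.sumElim Subtype.val_injective Subtype.val_injective
      fun a b e => hA b b.2 (e ▸ a.2))
    (Function.Injective.sumElim (Subtype.val_injective.comp (A.equivOfCardEq hc).injective)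
      Subtype.val_injective fun a b e => hA' b b.2 (e ▸ (A.equivOfCardEq hc a).2))
  refine ⟨τ, fun j hj => hτ (Sum.inr ⟨j, hj⟩), Finset.eq_of_subset_of_card_le ?_ ?_⟩
  · intro j hj
    obtain ⟨a, ha, rfl⟩ := Finset.mem_image.1 hj
    have e : τ a = (A.equivOfCardEq hc ⟨a, ha⟩ : Fin n) := hτ (Sum.inl ⟨a, ha⟩)
    rw [e]
    exact (A.equivOfCardEq hc ⟨a, ha⟩).2
  · rw [Finset.card_image_of_injective _ τ.injective, hc]

/-- two charts can be made equal on any set of indices, changing nothing else -/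
theorem lex_common (R : Finset (Fin n)) (h : IsCrd L κ) (h' : IsCrd L κ') :
    ∃ κ1 κ1' : Chart K n, IsCrd L κ1 ∧ IsCrd L κ1' ∧ (∀ j, j ∉ R → κ1.x j = κ.x j) ∧
      (∀ j, j ∉ R → κ1'.x j = κ'.x j) ∧ ∀ j ∈ R, κ1'.x j = κ1.x j := by
  induction R using Finset.induction_on with
  | empty => exact ⟨κ, κ', h, h', fun _ _ => rfl, fun _ _ => rfl, by simp⟩
  | insert a R ha ih =>
    obtain ⟨κ1, κ1', h1, h1', e1, e1', e2⟩ := ih
    have hw : ∃ w ∈ L.m, L.ev (κ1.D a w) ≠ 0 ∧ L.ev (κ1'.D a w) ≠ 0 := by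
      by_cases c1 : L.ev (κ1'.D a (κ1.x a)) = 0
      · by_cases c2 : L.ev (κ1.D a (κ1'.x a)) = 0
        · refine ⟨κ1.x a + κ1'.x a, add_mem (h1.x_mem_m a) (h1'.x_mem_m a), ?_, ?_⟩
          · rw [map_add, L.ev_add _ (h1.pres a _ (h1.x_mem a)) _ (h1.pres a _ (h1'.x_mem a)), c2,
              lex_ev_dual h1]
            simp
          · rw [map_add, L.ev_add _ (h1'.pres a _ (h1.x_mem a)) _ (h1'.pres a _ (h1'.x_mem a)),
              c1, lex_ev_dual h1']
            simp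
        · exact ⟨κ1'.x a, h1'.x_mem_m a, c2, by rw [lex_ev_dual h1']; simp⟩
      · exact ⟨κ1.x a, h1.x_mem_m a, by rw [lex_ev_dual h1]; simp, c1⟩
    obtain ⟨w, hw, c1, c2⟩ := hw
    obtain ⟨κ2, h2, f1, f2⟩ := lex_update h1 hw c1
    obtain ⟨κ2', h2', f1', f2'⟩ := lex_update h1' hw c2
    refine ⟨κ2, κ2', h2, h2', fun j hj => ?_, fun j hj => ?_, fun j hj => ?_⟩
    · rw [Finset.mem_insert, not_or] at hj
      rw [f2 j hj.1, e1 j hj.2]
    · rw [Finset.mem_insert, not_or] at hj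
      rw [f2' j hj.1, e1' j hj.2]
    · by_cases hja : j = a
      · rw [hja, f1, f1']
      · rw [f2 j hja, f2' j hja, e2 j ((Finset.mem_insert.1 hj).resolve_left hja)]

/-- two transversal subspaces of the same codimension have charts with common complementary
coordinates -/
theorem exists_common (hZ : TrAt L n c Y Z) (hZ' : TrAt L n c Y Z') :
    ∃ (κ κ' : Chart K n) (σ : ℕ → Option (Fin n)) (J : Finset (Fin n)),
      Tr L κ Y σ Z J ∧ Tr L κ' Y σ Z' J ∧ J.card = c ∧ ∀ j ∉ J, κ'.x j = κ.x j := by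
  classical
  obtain ⟨κ1, σ1, J1, h1, hc1⟩ := hZ
  obtain ⟨κ2, σ2, J2, h2, hc2⟩ := hZ'
  let B : Finset (Fin n) := Finset.univ.filter fun j => ∃ i, σ1 i = some j
  have hB : ∀ i j, σ1 i = some j → j ∈ B := fun i j hj =>
    Finset.mem_filter.2 ⟨Finset.mem_univ _, i, hj⟩
  have hBJ : ∀ j ∈ B, j ∉ J1 := fun j hj => by
    obtain ⟨i, hi⟩ := (Finset.mem_filter.1 hj).2
    exact h1.disj i j hi
  obtain ⟨κ3, e, h3, hinj, he, hx, -⟩ := lex_exch2 (J := Finset.univ) h1.adp.crd h2.adp.crd J2 B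
    (by
      intro t _
      rw [h1.adp.crd.I_univ]
      exact h2.adp.crd.x_mem_m t) (by
      intro j hj
      obtain ⟨i, hi⟩ := (Finset.mem_filter.1 hj).2
      obtain ⟨j1, e1, hj1⟩ := lex_bd h1.adp h2.adp hi rfl
      refine Chart.I_mono ?_ hj1
      simpa using h2.disj i j1 e1)
  have hd : ∀ j ∈ B, j ∉ J2.image e := by
    intro j hj hc
    obtain ⟨t, ht, rfl⟩ := Finset.mem_image.1 hc
    exact (he t ht).2.1 hj
  obtain ⟨τ, hτ, hτ'⟩ := lex_exists_perm (A := J1) (A' := J2.image e) (B := B)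
    (by rw [Finset.card_image_of_injOn hinj, hc1, hc2]) hBJ hd
  obtain ⟨κ4, h4, hx4⟩ := lex_perm h3 τ
  have hI4 : κ4.I L J1 = κ2.I L J2 := by
    rw [← lex_I_image (κ' := κ3) (e := τ) fun t _ => (hx4 t).symm, hτ',
      lex_I_image fun t ht => (he t ht).2.2]
  have hB4 : ∀ j ∈ B, κ4.x j = κ1.x j := fun j hj => by rw [hx4, hτ j hj, hx j (hd j hj)]
  obtain ⟨κ5, κ6, h5, h6, e5, e6, e56⟩ := lex_common (J1 ∪ B)ᶜ h1.adp.crd h4
  have m1 : ∀ j ∈ J1, j ∉ (J1 ∪ B)ᶜ := fun j hj => by simp [hj]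
  have m2 : ∀ j ∈ B, j ∉ (J1 ∪ B)ᶜ := fun j hj => by
    rw [Finset.mem_compl, not_not]; exact Finset.mem_union_right _ hj
  refine ⟨κ5, κ6, σ1, J1, ⟨lex_adp h1.adp h5 fun i j hj => e5 j (m2 j (hB i j hj)), ?_, h1.disj⟩,
    ⟨lex_adp h1.adp h6 fun i j hj => ?_, ?_, h1.disj⟩, hc1, fun j hj => ?_⟩
  · rw [h1.span, lex_I_congr fun j hj => e5 j (m1 j hj)]
  · rw [e6 j (m2 j (hB i j hj)), hB4 j (hB i j hj)]
  · rw [h2.span, lex_I_congr fun j hj => e6 j (m1 j hj), hI4]
  · by_cases hjB : j ∈ B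
    · rw [e6 j (m2 j hjB), e5 j (m2 j hjB), hB4 j hjB]
    · refine e56 j ?_
      rw [Finset.mem_compl, Finset.mem_union, not_or]
      exact ⟨hj, hjB⟩

/-- a new hypersurface of maximal contact -/
theorem trAt_insert (h : IsCrd L κ) (hZ : L.span Z = κ.I L J) {z : K} (hz : z ∈ L.m)
    (hz2 : z ∉ κ.I L J ⊔ L.m ^ 2) (hY : ∀ i, L.span (Y i) = 1) :
    TrAt L n (J.card + 1) Y (insert z Z) := by
  obtain ⟨j, hj, h0⟩ := lex_exists_D h hz hz2
  obtain ⟨κ', h', e1, e2⟩ := lex_update h hz h0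
  refine ⟨κ', fun _ => none, insert j J, ⟨⟨h', fun i => ?_, by simp⟩, ?_, by simp⟩,
    Finset.card_insert_of_notMem hj⟩
  · rw [hY i, Chart.y, Loc.span_one]
  · rw [Chart.I_insert, e1, lex_I_congr fun i hi => e2 i fun e => hj (e ▸ hi), ← hZ,
      ← Loc.span_union, Set.insert_eq]

theorem exists_maxContact (h : IsCrd L κ) (hZ : L.span Z = κ.I L J) {r : K} {e : ℕ}
    (hr : r ∈ L.m ^ (e + 1)) (hr' : r ∉ L.span Z ⊔ L.m ^ (e + 2)) (hY : ∀ i, L.span (Y i) = 1) :
    ∃ l : List (Fin n), l.length = e ∧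
      TrAt L n (J.card + 1) Y (insert (ders (l.map κ.D) r) Z) := by
  have h1 : ∃ l : List (Fin n), (∀ j ∈ l, j ∉ J) ∧ l.length = e + 1 ∧
      L.ev (ders (l.map κ.D) r) ≠ 0 := by
    by_contra hc
    push Not at hc
    rw [hZ] at hr'
    exact hr' (h.mem_sup_of_ders (Submodule.mem_sup_right hr) hc)
  obtain ⟨l, hl, hlen, h0⟩ := h1
  rcases l with _ | ⟨j, l⟩
  · simp at hlen
  · have hlen' : l.length = e := by simpa using hlen
    refine ⟨l, hlen', trAt_insert h hZ ?_ ?_ hY⟩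
    · have h2 := Loc.ders_pow (l := l.map κ.D) (by
        intro δ hδ
        obtain ⟨i, _, rfl⟩ := List.mem_map.1 hδ
        exact h.D_log i) Loc.m_le_one hr
      rwa [List.length_map, hlen', Nat.add_sub_cancel_left, pow_one] at h2
    · intro hc
      exact h0 (lex_ev_D_sup h (hl j List.mem_cons_self) hc)

end Pool.Agent.MP_696f7f_ag.H96
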