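import Pool.Agent.MP_696f7f_ag.H96.LProj
import Pool.Agent.MP_696f7f_ag.H96.LExch

/-! Invariants of a presentation that do not depend on the presentation. -/

namespace Pool.Agent.MP_696f7f_ag.H96

open scoped ENNReal

variable {K : Type} [Field K] [Algebra ℝ K] {n : ℕ}
variable {L : Loc K} {Y : ℕ → Set K} {Z Z' G G' : Set K} {c d e k : ℕ} {y y' : ℕ → K}
  {μ μ' : ℕ → ℕ} {r r' : K → K} {M1 M2 : K}

section Aux

variable {κ κ' : Chart K n} {σ : ℕ → Option (Fin n)} {J J' : Finset (Fin n)}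
  {v u : K → ℝ≥0∞} {i : ℕ} {j : Fin n}

theorem LInv_y_mem (hy : Gen L Y k y) (hY : ∀ i < k, L.span (Y i) ≤ 1) (hi : i < k) :
    y i ∈ L.O :=
  Loc.mem_O_of_le (hY i hi) (hy i hi ▸ Loc.subset_span (Set.mem_singleton _))

theorem LInv_mon_mem (hy : Gen L Y k y) (hY : ∀ i < k, L.span (Y i) ≤ 1) : mon k y μ ∈ L.O :=
  prod_mem fun _ hi => pow_mem (LInv_y_mem hy hY (Finset.mem_range.1 hi)) _

theorem LInv_prod_mem {N : Submodule L.O K} (I : Finset ℕ) (h : ∀ i ∈ I, y i ∈ N) :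
    ∏ i ∈ I, y i ^ μ i ∈ N ^ ∑ i ∈ I, μ i := by
  induction I using Finset.induction_on with
  | empty => simp
  | insert a I ha ih =>
    rw [Finset.prod_insert ha, Finset.sum_insert ha]
    exact Loc.mul_mem_pow_add (Loc.pow_mem_pow (h a (Finset.mem_insert_self _ _)) _)
      (ih fun i hi => h i (Finset.mem_insert_of_mem hi))

theorem LInv_mon_mem_pow (hy : Gen L Y k y) (hY : ∀ i < k, L.span (Y i) ≤ 1)
    {N : Submodule L.O K} (I : Finset ℕ) (hI : ∀ i ∈ I, i < k) (h : ∀ i ∈ I, y i ∈ N) :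
    mon k y μ ∈ N ^ ∑ i ∈ I, μ i := by
  rw [mon, ← Finset.prod_sdiff (s₁ := I) fun i hi => Finset.mem_range.2 (hI i hi)]
  exact Loc.mul_mem_left (prod_mem fun i hi => pow_mem (LInv_y_mem hy hY
    (Finset.mem_range.1 (Finset.mem_sdiff.1 hi).1)) _) (LInv_prod_mem I h)

theorem LInv_v_y (ha : Adp L κ Y σ) (hy : Gen L Y k y) (hv : IsSV L v) (hi : i < k) :
    v (y i) = v (κ.y (σ i)) :=
  hv.eq_of_span_eq (LInv_y_mem hy (fun i _ => ha.span_le_one i) hi) ((hy i hi).trans (ha.span i))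

theorem LInv_v_mon (ha : Adp L κ Y σ) (hy : Gen L Y k y) (hv : IsSV L v) :
    v (mon k y μ) = ∑ i ∈ Finset.range k, μ i * v (κ.y (σ i)) := by
  have hm : ∀ i ∈ Finset.range k, y i ∈ L.O := fun i hi =>
    LInv_y_mem hy (fun i _ => ha.span_le_one i) (Finset.mem_range.1 hi)
  rw [mon, hv.prod _ _ fun i hi => pow_mem (hm i hi) _]
  exact Finset.sum_congr rfl fun i hi => by
    rw [hv.pow (hm i hi), LInv_v_y ha hy hv (Finset.mem_range.1 hi)]

theorem LInv_val_y (ht : Tr L κ Y σ Z J) (J' : Finset (Fin n)) (i : ℕ) :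
    κ.val L J J' (κ.y (σ i)) = if ∃ j ∈ J', σ i = some j then 1 else 0 := by
  rcases h : σ i with _ | j
  · simpa [Chart.y] using (val_isSV ht.adp.crd J J').one
  · simpa [Chart.y] using val_x (J := J') ht.adp.crd (ht.disj i j h)

theorem LInv_val_y_single (ht : Tr L κ Y σ Z J) (hj : σ i = some j) (i' : ℕ) :
    κ.val L J {j} (κ.y (σ i')) = if i' = i then 1 else 0 := by
  rw [LInv_val_y ht]
  refine if_congr ⟨fun ⟨j', h1, h2⟩ => ?_, fun h => ⟨j, Finset.mem_singleton_self _, h ▸ hj⟩⟩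
    rfl rfl
  rw [Finset.mem_singleton.1 h1] at h2
  exact ht.adp.inj _ _ _ h2 hj

theorem LInv_val_mon (ht : Tr L κ Y σ Z J) (hy : Gen L Y k y) (hi : i < k) (hj : σ i = some j) :
    κ.val L J {j} (mon k y μ) = μ i := by
  rw [LInv_v_mon ht.adp hy (val_isSV ht.adp.crd _ _)]
  simp [LInv_val_y_single ht hj, hi]

theorem LInv_mon_notMem (ht : Tr L κ Y σ Z J) (hy : Gen L Y k y) : mon k y μ ∉ κ.I L J := by
  rw [← val_eq_top_iff (J := ∅) ht.adp.crd (LInv_mon_mem hy fun i _ => ht.adp.span_le_one i),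
    LInv_v_mon ht.adp hy (val_isSV ht.adp.crd _ _)]
  simp [LInv_val_y ht]

theorem LInv_span_union (ht : Tr L κ Y σ Z J) (hj : σ i = some j) :
    L.span (Z ∪ Y i) = κ.I L (J ∪ {j}) := by
  rw [Loc.span_union, ht.span, ht.adp.span_some hj, Chart.I_union]

theorem LInv_some (ha : Adp L κ Y σ) (h : L.span (Y i) ≠ 1) : ∃ j, σ i = some j :=
  Option.ne_none_iff_exists'.1 fun h0 => h ((ha.span_eq_one i).2 h0)

theorem LInv_log (ht : Tr L κ Y σ Z J) : L.lg Y ∩ L.log {Z} ⊆ L.log {κ.x '' J} := fun _ h =>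
  Loc.log_congr (𝔈 := {Z}) (fun _ hY => Or.inr ⟨Z, rfl, by rw [hY]; exact ht.span⟩) h.2

theorem LInv_top (ht : Tr L κ Y σ Z J) (hv : IsSV L v) (h : ∀ j ∈ J, v (κ.x j) = ⊤) {f : K}
    (hf : f ∈ L.span Z) : v f = ⊤ := by
  rw [ht.span] at hf
  refine top_le_iff.1 (hv.span ?_ ?_ hf)
  · rintro _ ⟨j, -, rfl⟩
    exact ht.adp.crd.x_mem j
  · rintro _ ⟨j, hj, rfl⟩
    exact (h j hj).ge

theorem LInv_one_le (ht : Tr L κ Y σ Z J) (hv : IsSV L v) (h : ∀ z ∈ Z, 1 ≤ v z) :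
    ∀ j ∈ J, 1 ≤ v (κ.x j) := fun _ hj =>
  hv.span ht.mem h (ht.span ▸ ht.adp.crd.x_mem_I.2 hj)

theorem LInv_flow_y (ht : Tr L κ Y σ Z J) (hu : Flow L κ J v u) (hv : IsSV L v) (hu' : IsSV L u)
    (i : ℕ) : u (κ.y (σ i)) = v (κ.y (σ i)) := by
  rcases h : σ i with _ | j
  · exact hu'.one.trans hv.one.symm
  · exact hu.x ht.adp.crd (ht.disj i j h)

/-- the value of an element with a monomial part -/
theorem LInv_v_eq (hv : IsSV L v) (htop : ∀ f ∈ L.span Z, v f = ⊤) {g M a : K} (hg : g ∈ L.O)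
    (hM : M ∈ L.O) (ha : a ∈ L.O) (h : g - M * a ∈ L.span Z) : v g = v M + v a := by
  rw [hv.eq_of_top hg (mul_mem hM ha) (htop _ h), hv.mul _ hM _ ha]

theorem LInv_der_mon (hy : Gen L Y k y) {δ : Der K}
    (hδ : δ ∈ L.lg Y) : ∃ a ∈ L.O, δ (mon k y μ) = a * mon k y μ := by
  have hm : ∀ f g : K, (∃ a ∈ L.O, δ f = a * f) → (∃ a ∈ L.O, δ g = a * g) →
      ∃ a ∈ L.O, δ (f * g) = a * (f * g) := by
    rintro f g ⟨a, ha, h1⟩ ⟨b, hb, h2⟩
    refine ⟨a + b, add_mem ha hb, ?_⟩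
    rw [Derivation.leibniz, h1, h2, smul_eq_mul, smul_eq_mul]
    ring
  have h1 : ∃ a ∈ L.O, δ 1 = a * 1 := ⟨0, zero_mem _, by simp⟩
  refine Finset.prod_induction _ (fun f => ∃ a ∈ L.O, δ f = a * f) hm h1 fun i hi => ?_
  have hi' := Finset.mem_range.1 hi
  have h2 : ∃ a ∈ L.O, δ (y i) = a * y i := by
    rw [← Loc.mem_span_singleton, hy i hi']
    exact hδ.2 _ ⟨i, rfl⟩ _ (hy i hi' ▸ Loc.subset_span (Set.mem_singleton _))
  induction μ i with
  | zero => simp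
  | succ m ih => rw [pow_succ]; exact hm _ _ ih h2

theorem LInv_ders_mon {M f : K} {l : List (Der K)}
    (hl : ∀ δ ∈ l, δ ∈ L.log ∅ ∧ ∃ a ∈ L.O, δ M = a * M) :
    ders l (M * f) ∈ L.span {g | ∃ l', l'.Sublist l ∧ g = M * ders l' f} := by
  induction l with
  | nil => exact Loc.subset_span ⟨[], List.Sublist.refl _, rfl⟩
  | cons δ l ih =>
    obtain ⟨h1, a, ha, h2⟩ := hl δ List.mem_cons_self
    have hle : L.span {g | ∃ l', l'.Sublist l ∧ g = M * ders l' f} ≤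
        L.span {g | ∃ l', l'.Sublist (δ :: l) ∧ g = M * ders l' f} :=
      Loc.span_mono fun g ⟨l', h, e⟩ => ⟨l', h.cons δ, e⟩
    rw [ders_cons]
    refine Loc.span_induction (p := fun x => δ x ∈
      L.span {g | ∃ l', l'.Sublist (δ :: l) ∧ g = M * ders l' f})
      (ih fun δ' h => hl δ' (List.mem_cons_of_mem _ h)) ?_ (by simp) ?_ ?_
    · rintro _ ⟨l', h, rfl⟩
      have e : δ (M * ders l' f) = M * ders (δ :: l') f + a * (M * ders l' f) := by
        rw [Derivation.leibniz, h2, smul_eq_mul, smul_eq_mul, ders_cons]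
        ring
      rw [e]
      exact add_mem (Loc.subset_span ⟨δ :: l', h.cons_cons δ, rfl⟩)
        (Loc.mul_mem_left ha (Loc.subset_span ⟨l', h.cons δ, rfl⟩))
    · intro x x' _ _ hx hx'
      rw [map_add]
      exact add_mem hx hx'
    · intro b hb x hx hx'
      rw [Derivation.leibniz, smul_eq_mul, smul_eq_mul]
      exact add_mem (Loc.mul_mem_left hb hx') (Loc.mul_mem_right (h1.1 b hb) (hle hx))

end Aux

/-- vanishing of the restriction to the subspace of maximal contact -/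
theorem inv_zero (hZ : TrAt L n c Y Z) (hZ' : TrAt L n c Y Z') (hG' : ∀ g ∈ G', g ∈ L.O)
    (hd : 0 < d) (hf : Flat L (L.lg Y) Z (wt G d))
    (hle : Le L (L.lg Y) (wt Z 1 ∪ wt G d) (wt Z' 1 ∪ wt G' d))
    (h0 : ∀ g ∈ G, g ∈ L.span Z) : L.span Z' = L.span Z ∧ ∀ g ∈ G', g ∈ L.span Z' := by
  obtain ⟨κ, σ, J, ht, hc⟩ := hZ
  obtain ⟨κ', σ', J', ht', hc'⟩ := hZ'
  have hκ := ht.adp.crd
  have hv := val_isSV hκ J ∅
  have htop : ∀ z ∈ Z, κ.val L J ∅ z = ⊤ := fun z hz =>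
    (val_eq_top_iff hκ (ht.mem z hz)).2 (ht.span ▸ Loc.subset_span hz)
  have h1 := hf _ hv htop (sat_val hκ (LInv_log ht) fun p hp =>
    Submodule.mem_sup_left (ht.span ▸ h0 _ hp.1))
  obtain ⟨h2, h3⟩ := sat_union.1
    (hle _ hv (sat_union.2 ⟨sat_wt_one.2 fun z hz => htop z hz ▸ le_top, h1⟩))
  have key : ∀ f ∈ L.O, κ.val L J ∅ f ≠ 0 → f ∈ κ.I L J := fun f hf h => by
    have := mt (val_eq_zero_iff (Zs := J) (J := ∅) hκ hf).2 h
    rwa [not_not, Finset.union_empty] at this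
  have e : L.span Z' = L.span Z := by
    rw [ht.span, ht'.span]
    refine ht'.adp.crd.I_eq_of_le hκ ?_ (by rw [hc, hc'])
    rw [← ht'.span]
    exact Loc.span_le.2 fun z hz => key z (ht'.mem z hz)
      (lt_of_lt_of_le one_pos (sat_wt_one.1 h2 z hz)).ne'
  refine ⟨e, fun g hg => ?_⟩
  rw [e, ht.span]
  refine key g (hG' g hg) (lt_of_lt_of_le ?_ (h3.zero (p := (g, d)) ⟨hg, rfl⟩)).ne'
  exact_mod_cast hd

/-- the exact monomial part exists -/
theorem exists_exact (hZ : TrAt L n c Y Z) (hG : ∀ g ∈ G, g ∈ L.O) (hy : Gen L Y k y)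
    (hl : LauAt L Y k Z G M1 M2 r) (he : ∃ g ∈ G, r g ∉ L.span Z ⊔ L.m ^ e) :
    ∃ μ r', Exact L Y k Z G y μ r' ∧ ∃ g ∈ G, r' g ∉ L.span Z ⊔ L.m ^ e := by
  classical
  obtain ⟨κ, σ, J, ht, -⟩ := hZ
  obtain ⟨g₀, hg₀, he⟩ := he
  have hκ := ht.adp.crd
  have hY : ∀ i < k, L.span (Y i) ≤ 1 := fun i _ => ht.adp.span_le_one i
  obtain ⟨μ₁, u₁, hu₁, hu₁', e₁⟩ := hl.mon1.eq hy
  obtain ⟨μ₂, u₂, hu₂, hu₂', e₂⟩ := hl.mon2.eq hy
  have hM1 := hl.mon1.mem hY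
  have hM2 := hl.mon2.mem hY
  have hM2' : M2 ∉ κ.I L J := fun h =>
    LInv_mon_notMem ht hy (Loc.mem_of_unit_mul hu₂ hu₂' (e₂ ▸ h))
  have hg₀' : g₀ ∉ L.span Z := fun h => by
    have h1 : M2 * r g₀ ∈ L.span Z := by
      have := sub_mem (Loc.mul_mem_left hM1 h) (hl.cong g₀ hg₀)
      rwa [sub_sub_cancel] at this
    rw [ht.span] at h1
    exact he (Submodule.mem_sup_left
      (ht.span ▸ (hκ.prime hM2 (hl.mem g₀ hg₀) h1).resolve_left hM2'))
  obtain ⟨N, hN⟩ : ∃ N, g₀ ∉ L.span Z ⊔ L.m ^ N := by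
    by_contra h
    push Not at h
    exact hg₀' (Loc.krull (Loc.span_le_one ht.mem) h)
  let I := (Finset.range k).filter fun i => L.span (Y i) ≠ 1
  have hI : ∀ i ∈ I, i < k := fun i hi => Finset.mem_range.1 (Finset.mem_filter.1 hi).1
  have hIm : ∀ i ∈ I, y i ∈ L.m := fun i hi =>
    (Loc.le_m_or_eq_one (hY i (hI i hi))).resolve_right (Finset.mem_filter.1 hi).2
      (hy i (hI i hi) ▸ Loc.subset_span (Set.mem_singleton _))
  let P : ℕ → Prop := fun s => ∃ μ : ℕ → ℕ, ∑ i ∈ I, μ i = s ∧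
    ∀ g ∈ G, ∃ a ∈ L.O, g - mon k y μ * a ∈ L.span Z
  have hP0 : P 0 := ⟨fun _ => 0, by simp, fun g hg => ⟨g, hG g hg, by simp [mon]⟩⟩
  have hPN : ∀ s, P s → s ≤ N := by
    rintro _ ⟨μ, rfl, h⟩
    by_contra hlt
    obtain ⟨a, ha, h1⟩ := h g₀ hg₀
    refine hN ?_
    rw [← sub_add_cancel g₀ (mon k y μ * a)]
    exact Submodule.add_mem_sup h1 (Loc.mul_mem_right ha
      (Loc.pow_anti Loc.m_le_one (not_le.1 hlt).le (LInv_mon_mem_pow hy hY I hI hIm)))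
  obtain ⟨μ, hμ, h⟩ := Nat.findGreatest_spec (Nat.zero_le N) hP0
  choose! ρ hρ hρ' using h
  have hex : Exact L Y k Z G y μ ρ := by
    refine ⟨hy, hρ, hρ', fun i hi hi' => ?_⟩
    by_contra hcon
    push Not at hcon
    have hiI : i ∈ I := Finset.mem_filter.2 ⟨Finset.mem_range.2 hi, hi'⟩
    have hP : P (Nat.findGreatest P N + 1) := by
      refine ⟨μ + Pi.single i 1, ?_, fun g hg => ?_⟩
      · simp [Finset.sum_add_distrib, hμ, hiI]
      · have h1 := hcon g hg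
        rw [Loc.span_union, ← hy i hi] at h1
        obtain ⟨z, hz, w, hw, h2⟩ := Submodule.mem_sup.1 h1
        obtain ⟨a, ha, rfl⟩ := Loc.mem_span_singleton.1 hw
        refine ⟨a, ha, ?_⟩
        have e : mon k y (μ + Pi.single i 1) = mon k y μ * y i := by
          simp only [mon, Pi.add_apply, pow_add, Finset.prod_mul_distrib]
          congr 1
          rw [Finset.prod_eq_single i (fun b _ hb => by simp [hb]) fun h =>
            absurd (Finset.mem_range.2 hi) h]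
          simp
        have e2 : g - mon k y μ * y i * a = g - mon k y μ * ρ g + mon k y μ * z := by
          rw [← h2]; ring
        rw [e, e2]
        exact add_mem (hρ' g hg) (Loc.mul_mem_left (LInv_mon_mem hy hY) hz)
    have := Nat.le_findGreatest (hPN _ hP) hP
    omega
  have hμO : mon k y μ ∈ L.O := LInv_mon_mem hy hY
  have hcong : ∀ g ∈ G, M1 * mon k y μ * ρ g - M2 * r g ∈ L.span Z := fun g hg => by
    have := sub_mem (hl.cong g hg) (Loc.mul_mem_left hM1 (hρ' g hg))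
    convert this using 1
    ring
  have hq : ∀ i ∈ Finset.range k, ∃ q ∈ L.O, y i ^ μ₁ i * y i ^ μ i = y i ^ μ₂ i * q := by
    intro i hi
    have hi := Finset.mem_range.1 hi
    have hyi := LInv_y_mem hy hY hi
    by_cases h1 : L.span (Y i) = 1
    · have h2 := (Loc.span_singleton_eq_one.1 ((hy i hi).trans h1)).2
      have h3 : L.ev (y i ^ μ₂ i) ≠ 0 := by rw [Loc.ev_pow hyi]; exact pow_ne_zero _ h2
      exact ⟨_, Loc.div_mem (mul_mem (pow_mem hyi _) (pow_mem hyi _)) (pow_mem hyi _) h3,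
        (mul_div_cancel₀ _ (Loc.ne_zero_of_ev h3)).symm⟩
    · obtain ⟨j, hj⟩ := LInv_some ht.adp h1
      obtain ⟨g, hg, h2⟩ := hex.exact i hi h1
      have hv := val_isSV hκ J {j}
      rw [LInv_span_union ht hj, ← val_eq_zero_iff hκ (hρ g hg)] at h2
      have h3 := LInv_v_eq hv (fun f hf => (val_eq_top_iff hκ
        (Loc.mem_O_of_le (Loc.span_le_one ht.mem) hf)).2 (ht.span ▸ hf))
        (mul_mem (mul_mem hM1 hμO) (hρ g hg)) hM2 (hl.mem g hg) (hcong g hg)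
      rw [hv.mul _ (mul_mem hM1 hμO) _ (hρ g hg), hv.mul _ hM1 _ hμO, h2, e₁, e₂,
        hv.mul _ hu₁ _ (LInv_mon_mem hy hY), hv.mul _ hu₂ _ (LInv_mon_mem hy hY),
        hv.unit hu₁ hu₁', hv.unit hu₂ hu₂', LInv_val_mon ht hy hi hj, LInv_val_mon ht hy hi hj,
        LInv_val_mon ht hy hi hj, zero_add, zero_add, add_zero] at h3
      have h4 : μ₂ i ≤ μ₁ i + μ i := by
        have : ((μ₂ i : ℕ) : ℝ≥0∞) ≤ μ₁ i + μ i := h3 ▸ le_self_add
        exact_mod_cast this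
      refine ⟨y i ^ (μ₁ i + μ i - μ₂ i), pow_mem hyi _, ?_⟩
      rw [← pow_add, ← pow_add, Nat.add_sub_cancel' h4]
  choose! q hq hq' using hq
  have hQ : ∏ i ∈ Finset.range k, q i ∈ L.O := prod_mem hq
  have e₃ : mon k y μ₁ * mon k y μ = mon k y μ₂ * ∏ i ∈ Finset.range k, q i := by
    simp only [mon, ← Finset.prod_mul_distrib]
    exact Finset.prod_congr rfl hq'
  refine ⟨μ, ρ, hex, g₀, hg₀, fun h => he ?_⟩
  have hb : u₁ / u₂ * ∏ i ∈ Finset.range k, q i ∈ L.O := mul_mem (Loc.div_mem hu₁ hu₂ hu₂') hQ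
  have h1 : M2 * ((u₁ / u₂ * ∏ i ∈ Finset.range k, q i) * ρ g₀ - r g₀) ∈ κ.I L J := by
    rw [← ht.span]
    convert hcong g₀ hg₀ using 1
    have := Loc.ne_zero_of_ev hu₂'
    rw [mul_sub, e₁, mul_assoc u₁, e₃]
    congr 1
    rw [e₂]
    field_simp
  have h2 := (hκ.prime hM2 (sub_mem (mul_mem hb (hρ g₀ hg₀)) (hl.mem g₀ hg₀)) h1).resolve_left hM2'
  have h3 := sub_mem (Loc.mul_mem_left hb h) (Submodule.mem_sup_left (ht.span ▸ h2))
  rwa [sub_sub_cancel] at h3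

theorem Exact.congr (h : Exact L Y k Z G y μ r) (hY : ∀ i < k, L.span (Y i) ≤ 1)
    (hr : ∀ g ∈ G, r' g ∈ L.O) (hrr : ∀ g ∈ G, r' g - r g ∈ L.span Z) :
    Exact L Y k Z G y μ r' := by
  refine ⟨h.gen, hr, fun g hg => ?_, fun i hi hi' => ?_⟩
  · have := sub_mem (h.cong g hg) (Loc.mul_mem_left (LInv_mon_mem (μ := μ) h.gen hY) (hrr g hg))
    convert this using 1
    ring
  · obtain ⟨g, hg, h1⟩ := h.exact i hi hi'
    refine ⟨g, hg, fun h2 => h1 ?_⟩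
    have := sub_mem h2 (Loc.span_mono Set.subset_union_left (hrr g hg))
    rwa [sub_sub_cancel] at this

theorem Exact.lauAt (h : Exact L Y k Z G y μ r) : LauAt L Y k Z G 1 (mon k y μ) r :=
  ⟨Mon.one h.gen, ⟨y, μ, 1, h.gen, one_mem _, by rw [Loc.ev_one]; exact one_ne_zero,
    (one_mul _).symm⟩, h.mem, fun g hg => by rw [one_mul]; exact h.cong g hg⟩

/-- the exponents of the monomial part -/
theorem inv_exp (hZ : TrAt L n c Y Z) (hZ' : TrAt L n c Y Z') (hG : ∀ g ∈ G, g ∈ L.O)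
    (hG' : ∀ g ∈ G', g ∈ L.O) (hd : 0 < d) (hf : Flat L (L.lg Y) Z (wt G d))
    (hle : Le L (L.lg Y) (wt Z 1 ∪ wt G d) (wt Z' 1 ∪ wt G' d))
    (hx : Exact L Y k Z G y μ r) (hx' : Exact L Y k Z' G' y' μ' r') :
    ∀ i < k, L.span (Y i) ≠ 1 → μ i ≤ μ' i := by
  intro i hi hi'
  rcases Nat.eq_zero_or_pos (μ i) with h0 | h0
  · exact h0 ▸ Nat.zero_le _
  obtain ⟨κ, κ', σ, J, ht, ht', -, hxx⟩ := exists_common hZ hZ'
  obtain ⟨j, hj⟩ := LInv_some ht.adp hi'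
  have hκ := ht.adp.crd
  have hκ' := ht'.adp.crd
  have hY : ∀ i < k, L.span (Y i) ≤ 1 := fun i _ => ht.adp.span_le_one i
  have hμ0 : ((μ i : ℕ) : ℝ≥0∞) ≠ 0 := by exact_mod_cast h0.ne'
  have hd0 : ((d : ℕ) : ℝ≥0∞) ≠ 0 := by exact_mod_cast hd.ne'
  have ht0 : (d : ℝ≥0∞) / μ i ≠ 0 := ENNReal.div_ne_zero.2 ⟨hd0, ENNReal.natCast_ne_top _⟩
  have htt : (d : ℝ≥0∞) / μ i ≠ ⊤ := ENNReal.div_ne_top (ENNReal.natCast_ne_top _) hμ0
  have hv := (val_isSV hκ J {j}).const_mul ht0 htt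
  have htop : ∀ z ∈ Z, (d : ℝ≥0∞) / μ i * κ.val L J {j} z = ⊤ := fun z hz => by
    rw [(val_eq_top_iff hκ (ht.mem z hz)).2 (ht.span ▸ Loc.subset_span hz), ENNReal.mul_top ht0]
  have h1 := hf _ hv htop (by
    rintro ⟨g, w⟩ ⟨hg, hw⟩ l hl
    obtain rfl : d = w := hw.symm
    have h2 : ders l g ∈ L.span Z ⊔ L.span (Y i) ^ μ i := by
      rw [← sub_add_cancel g (mon k y μ * r g), ders_add]
      refine Submodule.add_mem_sup (Loc.ders_span (fun δ h => (hl δ h).2) (hx.cong g hg)) ?_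
      have h3 : mon k y μ * r g ∈ L.span (Y i) ^ μ i := by
        have := LInv_mon_mem_pow (μ := μ) (N := L.span (Y i)) hx.gen hY {i} (by simpa using hi)
          (by simpa using hx.gen i hi ▸ Loc.subset_span (Set.mem_singleton _))
        rw [Finset.sum_singleton] at this
        exact Loc.mul_mem_right (hx.mem g hg) this
      clear hj
      induction l with
      | nil => exact h3
      | cons δ l ih =>
        exact Loc.der_pow ((Loc.mem_log_iff.1 (hl δ List.mem_cons_self).1).2 _ ⟨i, rfl⟩)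
          (ih fun δ' h => hl δ' (List.mem_cons_of_mem _ h))
    rw [ht.span, ht.adp.span_some hj, ← le_val_iff hκ
      (Loc.ders_mem (fun δ h => Loc.log_sub_empty (hl δ h).2) (hG g hg))] at h2
    refine le_trans ?_ le_self_add
    calc (d : ℝ≥0∞) = d / μ i * μ i :=
          (ENNReal.div_mul_cancel hμ0 (ENNReal.natCast_ne_top _)).symm
      _ ≤ _ := mul_le_mul_right h2 _)
  obtain ⟨h2, h3⟩ := sat_union.1
    (hle _ hv (sat_union.2 ⟨sat_wt_one.2 fun z hz => htop z hz ▸ le_top, h1⟩))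
  have h4 := LInv_one_le ht' hv (sat_wt_one.1 h2)
  obtain ⟨u, hu, hfl⟩ := exists_flow hκ' hv h4
  have h5 := hfl.sat hκ' hv h4 Loc.log_sub_empty (fun _ h => ht'.D_lg h) (in_wt.2 hG') h3
  obtain ⟨g, hg, h6⟩ := hx'.exact i hi hi'
  have e : κ'.I L (J ∪ {j}) = κ.I L (J ∪ {j}) := by
    refine hκ'.I_eq_of_le hκ ?_ le_rfl
    rw [← LInv_span_union ht' hj, Loc.span_union]
    refine sup_le (Loc.span_le.2 fun z hz => ?_) ?_
    · by_contra h7
      have h8 := sat_wt_one.1 h2 z hz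
      rw [(val_eq_zero_iff hκ (ht'.mem z hz)).2 h7] at h8
      simp at h8
    · rw [ht.adp.span_some hj]
      exact Chart.I_mono Finset.subset_union_right
  rw [LInv_span_union ht' hj, e, ← val_eq_zero_iff hκ (hx'.mem g hg)] at h6
  have h7 : u (r' g) = 0 := by
    have := hfl.min_eq hκ' hv h4 (hx'.mem g hg) 0
    simpa [Chart.pK, h6] using this
  have h8 := h5.zero (p := (g, d)) ⟨hg, rfl⟩
  have h9 : ∀ i', κ'.y (σ i') = κ.y (σ i') := fun i' => by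
    rcases h : σ i' with _ | j'
    · rfl
    · exact hxx j' (ht.disj i' j' h)
  rw [LInv_v_eq hu (fun f hf => hfl.top hκ' hv h4 (ht'.span ▸ hf)) (hG' g hg)
    (LInv_mon_mem hx'.gen hY) (hx'.mem g hg) (hx'.cong g hg), h7, add_zero,
    LInv_v_mon ht'.adp hx'.gen hu] at h8
  simp only [LInv_flow_y ht' hfl hv hu] at h8
  simp only [h9, LInv_val_y_single ht hj, mul_ite, mul_one, mul_zero, Finset.sum_ite_eq',
    Finset.mem_range, hi, if_true] at h8
  rw [← mul_div_assoc, ENNReal.le_div_iff_mul_le (Or.inl hμ0) (Or.inl (ENNReal.natCast_ne_top _)),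
    mul_comm] at h8
  have h10 : μ i * d ≤ μ' i * d := by exact_mod_cast h8
  exact Nat.le_of_mul_le_mul_right h10 hd

/-- the companion object -/
theorem inv_comp (hZ : TrAt L n c Y Z) (hZ' : TrAt L n c Y Z') (hG : ∀ g ∈ G, g ∈ L.O)
    (hG' : ∀ g ∈ G', g ∈ L.O) (hd : 0 < d) (hf : Flat L (L.lg Y) Z (wt G d))
    (hf' : Flat L (L.lg Y) Z' (wt G' d))
    (he : Eqv L (L.lg Y) (wt Z 1 ∪ wt G d) (wt Z' 1 ∪ wt G' d))
    (hx : Exact L Y k Z G y μ r) (hx' : Exact L Y k Z' G' y' μ' r')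
    (hr' : Flat L (L.lg Y) Z' (wt (r' '' G') e)) :
    Le L (L.lg Y) (wt Z 1 ∪ wt G d ∪ wt (r '' G) e) (wt (r' '' G') e) := by
  have hμ : ∀ i < k, L.span (Y i) ≠ 1 → μ i = μ' i := fun i hi hi' =>
    le_antisymm (inv_exp hZ hZ' hG hG' hd hf he.1 hx hx' i hi hi')
      (inv_exp hZ' hZ hG' hG hd hf' he.2 hx' hx i hi hi')
  obtain ⟨κ, κ', σ, J, ht, ht', -, hxx⟩ := exists_common hZ hZ'
  have hκ := ht.adp.crd
  have hκ' := ht'.adp.crd
  have hY : ∀ i < k, L.span (Y i) ≤ 1 := fun i _ => ht.adp.span_le_one i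
  have hd0 : ((d : ℕ) : ℝ≥0∞) ≠ 0 := by exact_mod_cast hd.ne'
  have hM : mon k y μ ∈ L.O := LInv_mon_mem hx.gen hY
  have hM' : mon k y' μ' ∈ L.O := LInv_mon_mem hx'.gen hY
  have hA : L.In (wt Z 1 ∪ wt G d ∪ wt (r '' G) e) :=
    in_union.2 ⟨in_union.2 ⟨in_wt.2 ht.mem, in_wt.2 hG⟩, in_wt.2 (by
      rintro _ ⟨g, hg, rfl⟩
      exact hx.mem g hg)⟩
  have hyy : ∀ i', κ'.y (σ i') = κ.y (σ i') := fun i' => by
    rcases h : σ i' with _ | j'
    · rfl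
    · exact hxx j' (ht.disj i' j' h)
  have main : ∀ v, IsSV L v → (∀ j ∈ J, v (κ'.x j) = ⊤) → (∀ j ∉ J, v (κ'.x j) ≠ ⊤) →
      Sat (L.lg Y) (wt Z 1 ∪ wt G d ∪ wt (r '' G) e) v → ∀ g ∈ G', (e : ℝ≥0∞) ≤ v (r' g) := by
    intro v hv htop hfin hs g hg
    have ha : v (mon k y' μ') = v (mon k y μ) := by
      rw [LInv_v_mon ht.adp hx.gen hv, LInv_v_mon ht'.adp hx'.gen hv]
      refine Finset.sum_congr rfl fun i hi => ?_
      rw [hyy]
      by_cases h1 : L.span (Y i) = 1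
      · rw [(ht.adp.span_eq_one i).1 h1, Chart.y, hv.one, mul_zero, mul_zero]
      · rw [hμ i (Finset.mem_range.1 hi) h1]
    have hat : v (mon k y μ) ≠ ⊤ := by
      rw [← ha, LInv_v_mon ht'.adp hx'.gen hv]
      refine ENNReal.sum_ne_top.2 fun i _ => ENNReal.mul_ne_top (ENNReal.natCast_ne_top _) ?_
      rcases h : σ i with _ | j
      · rw [Chart.y, hv.one]; exact ENNReal.zero_ne_top
      · exact hfin j (ht.disj i j h)
    have hg' := LInv_v_eq hv (fun f hf => LInv_top ht' hv htop hf) (hG' g hg) hM' (hx'.mem g hg)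
      (hx'.cong g hg)
    rw [ha] at hg'
    suffices h : v (mon k y μ) + e ≤ v g from (ENNReal.add_le_add_iff_left hat).1 (hg' ▸ h)
    obtain ⟨hs1, hs2⟩ := sat_union.1 hs
    rcases le_or_gt (v (mon k y μ) + e) d with h | h
    · exact h.trans ((sat_union.1 (he.1 v hv hs1)).2.zero (p := (g, d)) ⟨hg, rfl⟩)
    obtain ⟨ρ, hρ⟩ : ∃ ρ : ℝ≥0∞, ρ = (v (mon k y μ) + e) / d := ⟨_, rfl⟩
    have hρd : d * ρ = v (mon k y μ) + e := by
      rw [hρ, ENNReal.mul_div_cancel hd0 (ENNReal.natCast_ne_top _)]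
    have hρ1 : 1 ≤ ρ := by
      rw [hρ, ENNReal.le_div_iff_mul_le (Or.inl hd0) (Or.inl (ENNReal.natCast_ne_top _)), one_mul]
      exact h.le
    have hρ0 : ρ ≠ 0 := (lt_of_lt_of_le one_pos hρ1).ne'
    have hρt : ρ ≠ ⊤ := by
      rw [hρ]
      exact ENNReal.div_ne_top (ENNReal.add_ne_top.2 ⟨hat, ENNReal.natCast_ne_top _⟩) hd0
    have hdiv : ∀ x : ℝ≥0∞, x / ρ ≤ x := fun x =>
      ENNReal.div_le_of_le_mul (le_mul_of_one_le_right' hρ1)
    have h1 := LInv_one_le ht hv (sat_wt_one.1 (sat_union.1 hs1).1)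
    obtain ⟨u, hu, hfl⟩ := exists_flow hκ hv h1
    have hut : ∀ f ∈ L.span Z, u f = ⊤ := fun f hf => hfl.top hκ hv h1 (ht.span ▸ hf)
    have hs3 := (sat_union.1 (hfl.sat hκ hv h1 Loc.log_sub_empty (fun _ h => ht.D_lg h) hA hs)).2
    have hua : u (mon k y μ) = v (mon k y μ) := by
      rw [LInv_v_mon ht.adp hx.gen hv, LInv_v_mon ht.adp hx.gen hu]
      simp only [LInv_flow_y ht hfl hv hu]
    have hu2 := hu.div_const hρ0 hρt
    have hut2 : ∀ z ∈ Z, u z / ρ = ⊤ := fun z hz => by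
      rw [hut z (Loc.subset_span hz), ENNReal.top_div_of_ne_top hρt]
    have hs4 := hf _ hu2 hut2 (by
      rintro ⟨g, _⟩ ⟨hg, rfl⟩ l hl
      have hl0 : ∀ δ ∈ l, δ ∈ L.log ∅ := fun δ h => Loc.log_sub_empty (hl δ h).2
      have h2 : u (ders l g) = u (ders l (mon k y μ * r g)) := by
        refine hu.eq_of_top (Loc.ders_mem hl0 (hG g hg))
          (Loc.ders_mem hl0 (mul_mem hM (hx.mem g hg))) (hut _ ?_)
        rw [← ders_sub]
        exact Loc.ders_span (fun δ h => (hl δ h).2) (hx.cong g hg)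
      have h3 : v (mon k y μ) + e - l.length ≤ u (ders l (mon k y μ * r g)) := by
        refine hu.span ?_ ?_ (LInv_ders_mon fun δ h => ⟨hl0 δ h, LInv_der_mon hx.gen (hl δ h).1⟩)
        · rintro _ ⟨l', h', rfl⟩
          exact mul_mem hM (Loc.ders_mem (fun δ h => hl0 δ (h'.subset h)) (hx.mem g hg))
        · rintro _ ⟨l', h', rfl⟩
          rw [hu.mul _ hM _ (Loc.ders_mem (fun δ h => hl0 δ (h'.subset h)) (hx.mem g hg)), hua,
            tsub_le_iff_right, add_assoc]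
          refine add_le_add le_rfl ((hs3 (r g, e) ⟨⟨g, hg, rfl⟩, rfl⟩ l'
            fun δ h => (hl δ (h'.subset h)).1).trans (add_le_add le_rfl ?_))
          exact_mod_cast h'.length_le
      rw [← h2, tsub_le_iff_right, ← hρd,
        ← ENNReal.le_div_iff_mul_le (Or.inl hρ0) (Or.inl hρt), ENNReal.add_div] at h3
      exact h3.trans (add_le_add le_rfl (hdiv _)))
    have hs5 := he.1 _ hu2 (sat_union.2 ⟨sat_wt_one.2 fun z hz => hut2 z hz ▸ le_top, hs4⟩)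
    have h2 := LInv_one_le ht' hu2 (sat_wt_one.1 (sat_union.1 hs5).1)
    obtain ⟨u', -, hfl'⟩ := exists_flow hκ' hu fun j hj => (h2 j hj).trans (hdiv _)
    have h3 := ((hfl'.div hρ0 hρt).sat hκ' hu2 h2 Loc.log_sub_empty (fun _ h => ht'.D_lg h)
      (in_wt.2 hG') (sat_union.1 hs5).2).zero (p := (g, d)) ⟨hg, rfl⟩
    rw [Flow.back hκ hκ' hxx hv h1 htop hfl hfl' (hG' g hg),
      ENNReal.le_div_iff_mul_le (Or.inl hρ0) (Or.inl hρt)] at h3
    exact hρd ▸ h3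
  intro v hv hs
  have h1 := LInv_one_le ht' hv (sat_wt_one.1 (sat_union.1 (he.1 v hv (sat_union.1 hs).1)).1)
  obtain ⟨v₁, hv₁, hfl⟩ := exists_flow hκ' hv h1
  have hR : L.In (wt (r' '' G') e) := in_wt.2 (by
    rintro _ ⟨g, hg, rfl⟩
    exact hx'.mem g hg)
  have htop : ∀ z ∈ Z', v₁ z = ⊤ := fun z hz => hfl.top hκ' hv h1 (ht'.span ▸ Loc.subset_span hz)
  refine hfl.ext hκ' hv h1 Loc.log_sub_empty (fun _ h => ht'.D_lg h) hR (hr' _ hv₁ htop ?_)
  refine sat_of_zero (fun w => (∀ z ∈ Z', w z = ⊤) ∧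
      Sat (L.lg Y) (wt Z 1 ∪ wt G d ∪ wt (r '' G) e) w)
    (fun _ h => Loc.log_sub_empty h.2)
    (fun w δ hw hP hδ => ⟨gauss_top hw hδ.2 ht'.mem hP.1, gauss_sat hP.2 hδ.1 le_rfl⟩) ?_ hv₁
    ⟨htop, hfl.sat hκ' hv h1 Loc.log_sub_empty (fun _ h => ht'.D_lg h) hA hs⟩
  rintro w hw ⟨hw1, hw2⟩ ⟨_, e'⟩ ⟨⟨g, hg, rfl⟩, he'⟩
  obtain rfl : e = e' := he'.symm
  obtain ⟨w', hw', h2, h3, h4, h5⟩ := exists_approx (T := ((d + e + 1 : ℕ) : ℝ≥0∞)) hκ' J hw
    (fun j hj => top_le_iff.1 (hw.span ht'.mem (fun z hz => (hw1 z hz).ge)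
      (ht'.span ▸ hκ'.x_mem_I.2 hj))) (by simp) (ENNReal.natCast_ne_top _)
  refine (main w' hw' h4 h5 (fun p hp l hl => ?_) g hg).trans (h2 _)
  refine le_trans ?_ (add_le_add (h3 _) le_rfl)
  rw [← min_add_add_right]
  refine le_min (hw2 p hp l hl) (le_trans ?_ le_self_add)
  have : p.2 ≤ d + e + 1 := by
    rcases hp with (h | h) | h <;> rw [h.2] <;> omega
  exact_mod_cast this

/-- the monomial case: a generator with unit residual part -/
structure MonoAt (L : Loc K) (Y : ℕ → Set K) (k : ℕ) (Z G : Set K) (y : ℕ → K) (μ : ℕ → ℕ) :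
    Prop where
  gen : Gen L Y k y
  all : ∀ g ∈ G, ∃ r ∈ L.O, g - mon k y μ * r ∈ L.span Z
  one : ∃ g ∈ G, ∃ r ∈ L.O, L.ev r ≠ 0 ∧ g - mon k y μ * r ∈ L.span Z

theorem MonoAt.exact (h : MonoAt L Y k Z G y μ) (hZ : TrAt L n c Y Z) :
    ∃ r, Exact L Y k Z G y μ r := by
  classical
  obtain ⟨κ, σ, J, ht, -⟩ := hZ
  obtain ⟨g₀, hg₀, r₀, h1, h2, h3⟩ := h.one
  choose! ρ hρ hρ' using h.all
  refine ⟨Function.update ρ g₀ r₀, h.gen, fun g hg => ?_, fun g hg => ?_,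
    fun i _ hi' => ⟨g₀, hg₀, fun h4 => h2 ?_⟩⟩
  · by_cases e : g = g₀
    · rw [e, Function.update_self]; exact h1
    · rw [Function.update_of_ne e]; exact hρ g hg
  · by_cases e : g = g₀
    · rw [e, Function.update_self]; exact h3
    · rw [Function.update_of_ne e]; exact hρ' g hg
  · obtain ⟨j, hj⟩ := LInv_some ht.adp hi'
    rw [Function.update_self, LInv_span_union ht hj] at h4
    exact (ht.adp.crd.I_le_m h4).2

open Classical in
theorem MonoAt.cos_iff (h : MonoAt L Y k Z G y μ) (hZ : TrAt L n c Y Z) (hG : ∀ g ∈ G, g ∈ L.O)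
    (hf : Flat L (L.lg Y) Z (wt G d)) :
    L.Cos (wt G d) ↔ d ≤ ∑ i ∈ (Finset.range k).filter (fun i => L.span (Y i) ≠ 1), μ i := by
  obtain ⟨κ, σ, J, ht, hc⟩ := id hZ
  have hκ := ht.adp.crd
  have hY : ∀ i < k, L.span (Y i) ≤ 1 := fun i _ => ht.adp.span_le_one i
  constructor
  · intro h1
    obtain ⟨g, hg, a, ha, ha', h2⟩ := h.one
    have hv := val_isSV hκ J Finset.univ
    have h3 := (le_val_iff (Zs := J) (J := Finset.univ) hκ (hG g hg) d).2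
      (Submodule.mem_sup_right (hκ.I_univ ▸ cos_wt.1 h1 g hg))
    rw [LInv_v_eq hv (fun f hf => (val_eq_top_iff hκ
      (Loc.mem_O_of_le (Loc.span_le_one ht.mem) hf)).2 (ht.span ▸ hf)) (hG g hg)
      (LInv_mon_mem h.gen hY) ha h2, hv.unit ha ha', add_zero, LInv_v_mon ht.adp h.gen hv] at h3
    have e : ∑ i ∈ Finset.range k, (μ i : ℝ≥0∞) * κ.val L J Finset.univ (κ.y (σ i)) =
        ((∑ i ∈ (Finset.range k).filter (fun i => L.span (Y i) ≠ 1), μ i : ℕ) : ℝ≥0∞) := by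
      rw [Finset.sum_filter, Nat.cast_sum]
      refine Finset.sum_congr rfl fun i _ => ?_
      rw [LInv_val_y ht]
      rcases h4 : σ i with _ | j <;> simp [ht.adp.span_eq_one, h4]
    rw [e] at h3
    exact_mod_cast h3
  · intro h1
    refine flat_cos hZ (in_wt.2 hG) hf ?_
    rintro ⟨g, _⟩ ⟨hg, rfl⟩
    obtain ⟨a, ha, h2⟩ := h.all g hg
    have hI : ∀ i ∈ (Finset.range k).filter (fun i => L.span (Y i) ≠ 1), i < k :=
      fun i hi => Finset.mem_range.1 (Finset.mem_filter.1 hi).1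
    rw [← sub_add_cancel g (mon k y μ * a)]
    exact Submodule.add_mem_sup h2 (Loc.mul_mem_right ha (Loc.pow_anti Loc.m_le_one h1
      (LInv_mon_mem_pow h.gen hY _ hI fun i hi =>
        (Loc.le_m_or_eq_one (hY i (hI i hi))).resolve_right (Finset.mem_filter.1 hi).2
          (h.gen i (hI i hi) ▸ Loc.subset_span (Set.mem_singleton _)))))

/-- the centre in the monomial case -/
theorem MonoAt.centre (h : MonoAt L Y k Z G y μ) (hZ : TrAt L n c Y Z) (hG : ∀ g ∈ G, g ∈ L.O)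
    (hf : Flat L (L.lg Y) Z (wt G d)) (I : Finset ℕ) (hI : ∀ i ∈ I, i < k ∧ L.span (Y i) ≠ 1)
    (hd : d ≤ ∑ i ∈ I, μ i) :
    SncAt L n Y (Z ∪ ⋃ i ∈ I, Y i) ∧ L.Ord (Z ∪ ⋃ i ∈ I, Y i) (wt Z 1 ∪ wt G d) ∧
      ∀ i ∉ I, ¬ ∀ f ∈ Y i, f ∈ L.span (Z ∪ ⋃ i ∈ I, Y i) := by
  obtain ⟨κ, σ, J, ht, -⟩ := hZ
  have hκ := ht.adp.crd
  have hY : ∀ i < k, L.span (Y i) ≤ 1 := fun i _ => ht.adp.span_le_one i
  have e := ht.adp.span_union ht.span I fun i hi => (hI i hi).2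
  refine ⟨⟨κ, σ, _, ht.adp, e⟩, ord_union.2 ⟨ord_wt_one.2 fun z hz =>
    Loc.subset_span (Or.inl hz), fun p hp => ?_⟩, fun i hi h1 => ?_⟩
  · rw [e]
    refine flat_ord ht Finset.subset_union_left (in_wt.2 hG) hf ?_ p hp
    rintro ⟨g, _⟩ ⟨hg, rfl⟩
    obtain ⟨a, ha, h2⟩ := h.all g hg
    rw [← sub_add_cancel g (mon k y μ * a)]
    refine Submodule.add_mem_sup h2 (Loc.mul_mem_right ha (Loc.pow_anti hκ.I_le_one hd
      (LInv_mon_mem_pow h.gen hY _ (fun i hi => (hI i hi).1) fun i hi => ?_)))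
    rw [← e]
    exact Loc.span_mono (fun f hf => Or.inr (Set.mem_biUnion hi hf))
      (h.gen i (hI i hi).1 ▸ Loc.subset_span (Set.mem_singleton _))
  · have h2 : κ.y (σ i) ∈ L.span (Z ∪ ⋃ i ∈ I, Y i) :=
      Loc.span_le.2 h1 (ht.adp.span i ▸ Loc.subset_span (Set.mem_singleton _))
    rw [e] at h2
    rcases h3 : σ i with _ | j
    · rw [h3] at h2
      exact Loc.one_notMem_m (hκ.I_le_m h2)
    · rw [h3] at h2
      rcases Finset.mem_union.1 (hκ.x_mem_I.1 h2) with h4 | h4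
      · exact ht.disj i j h3 h4
      · obtain ⟨i', hi', h5⟩ := (Finset.mem_filter.1 h4).2
        exact hi (ht.adp.inj _ _ _ h5 h3 ▸ hi')

end Pool.Agent.MP_696f7f_ag.H96
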