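import Pool.Agent.MP_696f7f_ag.H96.LChart

/-! The chart of a blow-up. -/

namespace Pool.Agent.MP_696f7f_ag.H96

variable {K : Type} [Field K] [Algebra ℝ K] {n : ℕ}
variable {L L' : Loc K} {κ : Chart K n} {J JA : Finset (Fin n)} {j0 : Fin n} {δ : Der K}
  {Y Y' : ℕ → Set K} {σ : ℕ → Option (Fin n)} {k : ℕ}

theorem lbl_eu_apply (κ : Chart K n) (J : Finset (Fin n)) (f : K) :
    κ.eu J f = ∑ j ∈ J, κ.x j * κ.D j f := by
  classical
  unfold Chart.eu
  induction J using Finset.induction_on with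
  | empty => simp
  | insert a s ha ih =>
    rw [Finset.sum_insert ha, Finset.sum_insert ha, Derivation.add_apply, ih]
    simp

theorem lbl_eu_x (h : IsCrd L κ) (J : Finset (Fin n)) (i : Fin n) :
    κ.eu J (κ.x i) = if i ∈ J then κ.x i else 0 := by
  rw [lbl_eu_apply]
  simp [h.dual]

theorem lbl_der_div (δ : Der K) (a : K) {s : K} (hs : s ≠ 0) :
    s * δ (a / s) = δ a - a / s * δ s := by
  rw [Derivation.leibniz_div]
  simp only [smul_eq_mul]
  field_simp

namespace BlLoc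

theorem lbl_ne (h : BlLoc L L' κ J j0) : κ.x j0 ≠ 0 := h.crd.x_ne_zero j0

theorem lbl_x_mem (h : BlLoc L L' κ J j0) (j : Fin n) : κ.x j ∈ L'.O := h.le (h.crd.x_mem j)

theorem lbl_x_mem_m (h : BlLoc L L' κ J j0) (j : Fin n) : κ.x j ∈ L'.m :=
  ⟨h.lbl_x_mem j, by rw [h.ev _ (h.crd.x_mem j)]; exact (h.crd.x_mem_m j).2⟩

theorem lbl_adjoin_le (h : BlLoc L L' κ J j0) :
    Algebra.adjoin ℝ ((L.O : Set K) ∪ (fun j => κ.x j / κ.x j0) '' J) ≤ L'.O := by
  refine Algebra.adjoin_le ?_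
  rintro f (hf | ⟨j, hj, rfl⟩)
  · exact h.le hf
  · exact h.div j hj

/-- a derivation preserves the new local ring as soon as it does so on the generators -/
theorem lbl_pres (h : BlLoc L L' κ J j0) (h1 : ∀ f ∈ L.O, δ f ∈ L'.O)
    (h2 : ∀ j ∈ J, δ (κ.x j / κ.x j0) ∈ L'.O) : δ ∈ L'.log ∅ := by
  have hA : ∀ p ∈ Algebra.adjoin ℝ ((L.O : Set K) ∪ (fun j => κ.x j / κ.x j0) '' J),
      δ p ∈ L'.O := by
    intro p hp
    induction hp using Algebra.adjoin_induction with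
    | mem x hx =>
      rcases hx with hx | ⟨j, hj, rfl⟩
      · exact h1 x hx
      · exact h2 j hj
    | algebraMap r => rw [Derivation.map_algebraMap]; exact zero_mem _
    | add x y _ _ hx hy => rw [map_add]; exact add_mem hx hy
    | mul x y hx' hy' hx hy =>
      rw [Derivation.leibniz, smul_eq_mul, smul_eq_mul]
      exact add_mem (mul_mem (h.lbl_adjoin_le hx') hy) (mul_mem (h.lbl_adjoin_le hy') hx)
  rw [Loc.mem_log_empty]
  intro f hf
  obtain ⟨p, hp, q, hq, hq0, hfq⟩ := h.gen f hf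
  have hqne : q ≠ 0 := Loc.ne_zero_of_ev hq0
  have e : δ f = (δ p - f * δ q) / q := by
    rw [← hfq, Derivation.leibniz, smul_eq_mul, smul_eq_mul]
    field_simp
    ring
  rw [e]
  exact Loc.div_mem (sub_mem (hA p hp) (mul_mem hf (hA q hq))) (h.lbl_adjoin_le hq) hq0

theorem smul_log (h : BlLoc L L' κ J j0) (hδ : δ ∈ L.log ∅) : κ.x j0 • δ ∈ L'.log ∅ := by
  rw [Loc.mem_log_empty] at hδ
  refine h.lbl_pres (fun f hf => ?_) (fun j hj => ?_)
  · rw [Derivation.smul_apply, smul_eq_mul]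
    exact mul_mem (h.lbl_x_mem j0) (h.le (hδ f hf))
  · rw [Derivation.smul_apply, smul_eq_mul, lbl_der_div δ _ h.lbl_ne]
    exact sub_mem (h.le (hδ _ (h.crd.x_mem j)))
      (mul_mem (h.div j hj) (h.le (hδ _ (h.crd.x_mem j0))))

theorem lbl_eu_div (h : BlLoc L L' κ J j0) {j : Fin n} (hj : j ∈ J) :
    κ.eu J (κ.x j / κ.x j0) = 0 := by
  have e := lbl_der_div (κ.eu J) (κ.x j) h.lbl_ne
  rw [lbl_eu_x h.crd, lbl_eu_x h.crd, if_pos hj, if_pos h.mem, div_mul_cancel₀ _ h.lbl_ne,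
    sub_self] at e
  exact (mul_eq_zero.1 e).resolve_left h.lbl_ne

theorem lbl_D_div (h : BlLoc L L' κ J j0) {i j : Fin n} (hi : i ∉ J) (hj : j ∈ J) :
    κ.D i (κ.x j / κ.x j0) = 0 := by
  have e := lbl_der_div (κ.D i) (κ.x j) h.lbl_ne
  have h1 : i ≠ j := fun e => hi (e ▸ hj)
  have h2 : i ≠ j0 := fun e => hi (e ▸ h.mem)
  rw [h.crd.dual, h.crd.dual, if_neg h1, if_neg h2, mul_zero, sub_self] at e
  exact (mul_eq_zero.1 e).resolve_left h.lbl_ne

theorem lbl_bl_x_mem_m (h : BlLoc L L' κ J j0) (j : Fin n) : (κ.bl L' J j0).x j ∈ L'.m := by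
  simp only [Chart.bl]
  split_ifs with hj
  · exact Loc.sub_ev_mem (h.div j hj.1)
  · exact h.lbl_x_mem_m j

theorem lbl_bl_x_j0 (L' : Loc K) : (κ.bl L' J j0).x j0 = κ.x j0 := by
  simp [Chart.bl]

theorem lbl_x_mem_span (h : BlLoc L L' κ J j0) (j : Fin n) :
    κ.x j ∈ L'.span (Set.range (κ.bl L' J j0).x) := by
  by_cases hj : j ∈ J
  · have e : κ.x j = κ.x j / κ.x j0 * (κ.bl L' J j0).x j0 := by
      rw [lbl_bl_x_j0, div_mul_cancel₀ _ h.lbl_ne]
    rw [e]
    exact Loc.mul_mem_left (h.div j hj) (Loc.subset_span ⟨j0, rfl⟩)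
  · have e : κ.x j = (κ.bl L' J j0).x j := by simp [Chart.bl, hj]
    rw [e]
    exact Loc.subset_span ⟨j, rfl⟩

theorem crd' (h : BlLoc L L' κ J j0) : IsCrd L' (κ.bl L' J j0) := by
  refine ⟨le_antisymm ?_ ?_, fun i => ?_, fun i j => ?_⟩
  · rw [Loc.span_le]
    rintro _ ⟨j, rfl⟩
    exact h.lbl_bl_x_mem_m j
  · have hA : ∀ p ∈ Algebra.adjoin ℝ ((L.O : Set K) ∪ (fun j => κ.x j / κ.x j0) '' J),
        p - algebraMap ℝ K (L'.ev p) ∈ L'.span (Set.range (κ.bl L' J j0).x) := by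
      intro p hp
      induction hp using Algebra.adjoin_induction with
      | mem x hx =>
        rcases hx with hx | ⟨j, hj, rfl⟩
        · have h1 : x - algebraMap ℝ K (L.ev x) ∈ L.span (Set.range κ.x) := by
            rw [h.crd.span]; exact Loc.sub_ev_mem hx
          rw [h.ev x hx]
          have h2 := Loc.span_lift h.le h1
          refine (Loc.span_le.2 ?_) h2
          rintro _ ⟨j, rfl⟩
          exact h.lbl_x_mem_span j
        · by_cases hj0 : j = j0
          · subst hj0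
            simp only [div_self h.lbl_ne, Loc.ev_one, map_one, sub_self]
            exact zero_mem _
          · refine Loc.subset_span ⟨j, ?_⟩
            have hj' : j ∈ J := hj
            simp [Chart.bl, hj', hj0]
      | algebraMap r => rw [L'.ev_alg, sub_self]; exact zero_mem _
      | add x y hx' hy' hx hy =>
        rw [L'.ev_add x (h.lbl_adjoin_le hx') y (h.lbl_adjoin_le hy'), map_add]
        have e : x + y - (algebraMap ℝ K (L'.ev x) + algebraMap ℝ K (L'.ev y)) =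
            (x - algebraMap ℝ K (L'.ev x)) + (y - algebraMap ℝ K (L'.ev y)) := by ring
        rw [e]
        exact add_mem hx hy
      | mul x y hx' hy' hx hy =>
        rw [L'.ev_mul x (h.lbl_adjoin_le hx') y (h.lbl_adjoin_le hy'), map_mul]
        have e : x * y - algebraMap ℝ K (L'.ev x) * algebraMap ℝ K (L'.ev y) =
            x * (y - algebraMap ℝ K (L'.ev y)) +
              algebraMap ℝ K (L'.ev y) * (x - algebraMap ℝ K (L'.ev x)) := by ring
        rw [e]
        exact add_mem (Loc.mul_mem_left (h.lbl_adjoin_le hx') hy)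
          (Loc.mul_mem_left (L'.O.algebraMap_mem _) hx)
    intro f hf
    obtain ⟨p, hp, q, hq, hq0, hfq⟩ := h.gen f hf.1
    have hp0 : L'.ev p = 0 := by
      rw [← hfq, L'.ev_mul f hf.1 q (h.lbl_adjoin_le hq), hf.2, zero_mul]
    have h1 := hA p hp
    rw [hp0, map_zero, sub_zero, ← hfq, mul_comm] at h1
    exact Loc.mem_of_unit_mul (h.lbl_adjoin_le hq) hq0 h1
  · rw [← Loc.mem_log_empty]
    simp only [Chart.bl]
    split_ifs with h1 h2
    · refine h.lbl_pres (fun f hf => ?_) (fun j hj => ?_)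
      · rw [Derivation.smul_apply, smul_eq_mul, lbl_eu_apply, Finset.mul_sum]
        refine sum_mem fun j hj => ?_
        have e : (κ.x j0)⁻¹ * (κ.x j * κ.D j f) = κ.x j / κ.x j0 * κ.D j f := by ring
        rw [e]
        exact mul_mem (h.div j hj) (h.le (h.crd.pres j f hf))
      · rw [Derivation.smul_apply, h.lbl_eu_div hj, smul_zero]
        exact zero_mem _
    · exact h.smul_log (h.crd.D_log i)
    · refine h.lbl_pres (fun f hf => h.le (h.crd.pres i f hf)) (fun j hj => ?_)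
      rw [h.lbl_D_div h2 hj]
      exact zero_mem _
  · simp only [Chart.bl]
    by_cases hj : j ∈ J ∧ j ≠ j0
    · rw [if_pos hj, map_sub, Derivation.map_algebraMap, sub_zero]
      by_cases h1 : i = j0
      · have hij : i ≠ j := fun e => hj.2 (e ▸ h1)
        rw [if_pos h1, if_neg hij, Derivation.smul_apply, h.lbl_eu_div hj.1, smul_zero]
      · rw [if_neg h1]
        by_cases h2 : i ∈ J
        · rw [if_pos h2, Derivation.smul_apply, smul_eq_mul, lbl_der_div _ _ h.lbl_ne,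
            h.crd.dual, h.crd.dual, if_neg h1, mul_zero, sub_zero]
        · have hij : i ≠ j := fun e => h2 (e ▸ hj.1)
          rw [if_neg h2, h.lbl_D_div h2 hj.1, if_neg hij]
    · rw [if_neg hj]
      by_cases h1 : i = j0
      · rw [if_pos h1, Derivation.smul_apply, lbl_eu_x h.crd, smul_eq_mul]
        by_cases h2 : j ∈ J
        · have hjj : j = j0 := by
            by_contra hne
            exact hj ⟨h2, hne⟩
          rw [if_pos h2, if_pos (h1.trans hjj.symm), hjj, inv_mul_cancel₀ h.lbl_ne]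
        · have hij : i ≠ j := fun e => h2 (e ▸ h1 ▸ h.mem)
          rw [if_neg h2, if_neg hij, mul_zero]
      · rw [if_neg h1]
        by_cases h2 : i ∈ J
        · have hij : i ≠ j := fun e => hj ⟨e ▸ h2, e ▸ h1⟩
          rw [if_pos h2, Derivation.smul_apply, h.crd.dual, if_neg hij, smul_zero]
        · rw [if_neg h2, h.crd.dual]

theorem sx_mem (h : BlLoc L L' κ J j0) (j : Fin n) : κ.sx J j0 j ∈ L'.O := by
  unfold Chart.sx
  split_ifs with hj
  · exact h.div j hj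
  · exact h.lbl_x_mem j

theorem span_I (h : BlLoc L L' κ J j0) : L'.span (κ.x '' J) = L'.span {κ.x j0} := by
  refine le_antisymm ?_ (Loc.span_mono ?_)
  · rw [Loc.span_le]
    rintro _ ⟨j, hj, rfl⟩
    exact Loc.mem_span_singleton.2 ⟨_, h.div j hj, (div_mul_cancel₀ _ h.lbl_ne).symm⟩
  · rintro _ rfl
    exact ⟨j0, h.mem, rfl⟩

theorem smul_log_exc (h : BlLoc L L' κ J j0) (hδ : δ ∈ L.log ∅) :
    κ.x j0 • δ ∈ L'.log {{κ.x j0}} := by
  refine Loc.mem_log_of_gen (h.smul_log hδ) ?_ ?_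
  · rintro _ rfl
    exact h.lbl_x_mem j0
  · rintro _ rfl
    rw [Derivation.smul_apply, smul_eq_mul]
    exact Loc.mul_mem_right (h.le (Loc.mem_log_empty.1 hδ _ (h.crd.x_mem j0)))
      (Loc.subset_span rfl)

theorem lbl_span_le_st (h : BlLoc L L' κ J j0) {f : K} (hf : f ∈ L.span (κ.x '' JA)) :
    f ∈ L'.span (κ.sx J j0 '' JA) := by
  refine (Loc.span_le.2 ?_) (Loc.span_lift h.le hf)
  rintro _ ⟨j, hj, rfl⟩
  by_cases hJ : j ∈ J
  · have e : κ.x j = κ.x j0 * κ.sx J j0 j := by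
      rw [Chart.sx, if_pos hJ, mul_div_cancel₀ _ h.lbl_ne]
    rw [e]
    exact Loc.mul_mem_left (h.lbl_x_mem j0) (Loc.subset_span ⟨j, hj, rfl⟩)
  · exact Loc.subset_span ⟨j, hj, by rw [Chart.sx, if_neg hJ]⟩

theorem smul_log_st (h : BlLoc L L' κ J j0) (hδ : δ ∈ L.log {κ.x '' JA}) :
    κ.x j0 • δ ∈ L'.log {κ.sx J j0 '' JA} := by
  have hδ0 : δ ∈ L.log ∅ := Loc.log_sub_empty hδ
  refine Loc.mem_log_of_gen (h.smul_log hδ0) ?_ ?_
  · rintro _ ⟨j, _, rfl⟩
    exact h.sx_mem j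
  · rintro _ ⟨j, hj, rfl⟩
    have h1 : δ (κ.x j) ∈ L'.span (κ.sx J j0 '' JA) :=
      h.lbl_span_le_st (hδ.2 _ rfl _ (Loc.subset_span ⟨j, hj, rfl⟩))
    rw [Derivation.smul_apply, smul_eq_mul]
    by_cases hJ : j ∈ J
    · have e : κ.sx J j0 j = κ.x j / κ.x j0 := by rw [Chart.sx, if_pos hJ]
      rw [e, lbl_der_div _ _ h.lbl_ne, ← e]
      exact sub_mem h1 (Loc.mul_mem_right
        (h.le (Loc.mem_log_empty.1 hδ0 _ (h.crd.x_mem j0))) (Loc.subset_span ⟨j, hj, rfl⟩))
    · have e : κ.sx J j0 j = κ.x j := by rw [Chart.sx, if_neg hJ]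
      rw [e]
      exact Loc.mul_mem_left (h.lbl_x_mem j0) h1

theorem lbl_st_of_ev (h : BlLoc L L' κ J j0) {j : Fin n} (h0 : L'.ev (κ.sx J j0 j) = 0) :
    j ≠ j0 ∧ (κ.bl L' J j0).x j = κ.sx J j0 j := by
  have hne : j ≠ j0 := by
    rintro rfl
    rw [Chart.sx, if_pos h.mem, div_self h.lbl_ne, Loc.ev_one] at h0
    exact one_ne_zero h0
  refine ⟨hne, ?_⟩
  by_cases hJ : j ∈ J
  · rw [Chart.sx, if_pos hJ] at h0
    simp [Chart.bl, Chart.sx, hJ, hne, h0]
  · simp [Chart.bl, Chart.sx, hJ]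

/-- the strict transform of a coordinate subspace either misses the point or is a coordinate
subspace of the new chart transversal to the exceptional divisor -/
theorem st_cases (h : BlLoc L L' κ J j0) (JA : Finset (Fin n)) :
    L'.span (κ.sx J j0 '' JA) = 1 ∨
      (j0 ∉ JA ∧ ∀ j ∈ JA, (κ.bl L' J j0).x j = κ.sx J j0 j) := by
  by_cases h0 : ∀ j ∈ JA, L'.ev (κ.sx J j0 j) = 0
  · exact Or.inr ⟨fun hj => (h.lbl_st_of_ev (h0 j0 hj)).1 rfl,
      fun j hj => (h.lbl_st_of_ev (h0 j hj)).2⟩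
  · left
    push Not at h0
    obtain ⟨j, hj, h0⟩ := h0
    refine Loc.eq_one_of_mem (Loc.span_le_one ?_) (Loc.subset_span ⟨j, hj, rfl⟩) h0
    rintro _ ⟨i, _, rfl⟩
    exact h.sx_mem i

theorem adp' (h : BlLoc L L' κ J j0) (ha : Adp L κ Y σ)
    (hk : L'.span (Y' k) = L'.span {κ.x j0})
    (hi : ∀ i, i ≠ k → L'.span (Y' i) = L'.span {κ.sy J j0 (σ i)}) :
    ∃ σ', Adp L' (κ.bl L' J j0) Y' σ' ∧ σ' k = some j0 ∧
      ∀ i, i ≠ k → ∀ j, σ' i = some j → σ i = some j ∧ j ≠ j0 := by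
  classical
  let σ' : ℕ → Option (Fin n) := fun i => if i = k then some j0 else
    (σ i).filter fun j => decide (L'.ev (κ.sx J j0 j) = 0)
  have hk' : σ' k = some j0 := by simp [σ']
  have h1 : ∀ i, i ≠ k → ∀ j, σ' i = some j → σ i = some j ∧ L'.ev (κ.sx J j0 j) = 0 := by
    intro i hik j hj
    simp only [σ', if_neg hik, Option.filter_eq_some_iff, decide_eq_true_eq] at hj
    exact hj
  have h2 : ∀ i, i ≠ k → σ' i = none → ∀ j, σ i = some j → L'.ev (κ.sx J j0 j) ≠ 0 := by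
    intro i hik hn j hj h0
    simp [σ', if_neg hik, hj, Option.filter, h0] at hn
  refine ⟨σ', ⟨h.crd', fun i => ?_, fun i i' j hj hj' => ?_⟩, hk', fun i hik j hj =>
    ⟨(h1 i hik j hj).1, (h.lbl_st_of_ev (h1 i hik j hj).2).1⟩⟩
  · by_cases hik : i = k
    · subst hik
      rw [hk, hk', Chart.y, lbl_bl_x_j0]
    · rw [hi i hik]
      rcases e : σ' i with _ | j
      · rcases e' : σ i with _ | j
        · rfl
        · rw [Chart.sy, Chart.y, Loc.span_one, Loc.span_singleton_eq_one]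
          exact ⟨h.sx_mem j, h2 i hik e j e'⟩
      · rw [(h1 i hik j e).1, Chart.sy, Chart.y, (h.lbl_st_of_ev (h1 i hik j e).2).2]
  · by_cases hik : i = k
    · by_cases hik' : i' = k
      · rw [hik, hik']
      · exfalso
        rw [hik, hk'] at hj
        exact (h.lbl_st_of_ev (h1 i' hik' j hj').2).1 (Option.some.inj hj).symm
    · by_cases hik' : i' = k
      · exfalso
        rw [hik', hk'] at hj'
        exact (h.lbl_st_of_ev (h1 i hik j hj).2).1 (Option.some.inj hj').symm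
      · exact ha.inj i i' j (h1 i hik j hj).1 (h1 i' hik' j hj').1

end BlLoc

end Pool.Agent.MP_696f7f_ag.H96
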