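import Pool.Agent.MP_696f7f_ag.H96.LProj
import Pool.Agent.MP_696f7f_ag.H96.LExch
import Pool.Agent.MP_696f7f_ag.H96.LBlChart

/-! Local structure of blow-ups. -/

namespace Pool.Agent.MP_696f7f_ag.H96

open scoped ENNReal

variable {K : Type} [Field K] [Algebra ℝ K] {n : ℕ}
variable {L L' : Loc K} {Y Y' : ℕ → Set K} {C : Set K} {k : ℕ} {s f : K}

theorem LBlow_mem_span_dvs {Z : Set K} (hs : s ≠ 0) :
    f ∈ L.span (dvs s Z) ↔ f * s ∈ L.span Z := by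
  constructor
  · intro hf
    refine Loc.span_induction (p := fun f => f * s ∈ L.span Z) hf ?_ ?_ ?_ ?_
    · rintro _ ⟨z, hz, rfl⟩
      rw [div_mul_cancel₀ _ hs]
      exact Loc.subset_span hz
    · rw [zero_mul]; exact zero_mem _
    · intro x y _ _ hx hy
      rw [add_mul]; exact add_mem hx hy
    · intro a ha x _ hx
      rw [mul_assoc]; exact Loc.mul_mem_left ha hx
  · intro hf
    have key : ∀ g ∈ L.span Z, g / s ∈ L.span (dvs s Z) := by
      intro g hg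
      refine Loc.span_induction (p := fun g => g / s ∈ L.span (dvs s Z)) hg ?_ ?_ ?_ ?_
      · intro z hz
        exact Loc.subset_span ⟨z, hz, rfl⟩
      · rw [zero_div]; exact zero_mem _
      · intro x y _ _ hx hy
        rw [add_div]; exact add_mem hx hy
      · intro a ha x _ hx
        rw [mul_div_assoc]; exact Loc.mul_mem_left ha hx
    have := key _ hf
    rwa [mul_div_cancel_right₀ _ hs] at this

theorem LBlow_span_dvs_congr {Z Z' : Set K} {t : K} (hs : s ≠ 0) (hZ : L.span Z = L.span Z')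
    (hst : L.span {s} = L.span {t}) : L.span (dvs s Z) = L.span (dvs t Z') := by
  obtain ⟨u, hu, hu0, rfl⟩ := Loc.span_singleton_eq_iff.1 hst
  have hune : u ≠ 0 := Loc.ne_zero_of_ev hu0
  ext g
  rw [LBlow_mem_span_dvs hs, LBlow_mem_span_dvs (mul_ne_zero hune hs), ← hZ]
  have e : g * (u * s) = u * (g * s) := by ring
  rw [e]
  exact ⟨fun h => Loc.mul_mem_left hu h, fun h => Loc.mem_of_unit_mul hu hu0 h⟩

theorem LBlow_dvs_singleton (z : K) : dvs s {z} = {z / s} := by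
  simp [dvs]

theorem LBlow_dvs_one (Z : Set K) : dvs (1 : K) Z = Z := by
  simp [dvs]

theorem LBlow_dv_one (S : Set (K × ℕ)) : dv (1 : K) S = S := by
  simp [dv]

theorem LBlow_span_dvs_unit {Z : Set K} (hs : L.span {s} = 1) : L.span (dvs s Z) = L.span Z := by
  have h0 : s ≠ 0 := Loc.ne_zero_of_ev (Loc.span_singleton_eq_one.1 hs).2
  have := LBlow_span_dvs_congr (L := L) (Z := Z) (t := 1) h0 rfl (hs.trans Loc.span_one.symm)
  rwa [LBlow_dvs_one] at this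

/-- changing the equation of the exceptional divisor by a unit -/
theorem LBlow_le_dv_dv {𝒟 : Set (Der K)} {S : Set (K × ℕ)} {t : K} (hd : 𝒟 ⊆ L.log ∅)
    (hs : s ≠ 0) (hst : L.span {s} = L.span {t}) (hS : L.In (dv s S)) :
    Le L 𝒟 (dv s S) (dv t S) := by
  obtain ⟨u, hu, hu0, rfl⟩ := Loc.span_singleton_eq_iff.1 hst
  have hune : u ≠ 0 := Loc.ne_zero_of_ev hu0
  refine le_of_span hd hS ?_
  rintro _ ⟨p, hp, rfl⟩
  refine Loc.mem_of_unit_mul (pow_mem hu p.2) (by rw [Loc.ev_pow hu]; exact pow_ne_zero _ hu0) ?_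
  have e : u ^ p.2 * (p.1 / (u * s) ^ p.2) = p.1 / s ^ p.2 := by
    rw [mul_pow]
    field_simp
  change u ^ p.2 * (p.1 / (u * s) ^ p.2) ∈ _
  rw [e]
  exact Loc.subset_span ⟨p.2, le_rfl, p, hp, rfl⟩

theorem LBlow_in_dv_dv {S : Set (K × ℕ)} {t : K}
    (hs : s ≠ 0) (hst : L.span {s} = L.span {t}) (hS : L.In (dv s S)) : L.In (dv t S) := by
  obtain ⟨u, hu, hu0, rfl⟩ := Loc.span_singleton_eq_iff.1 hst
  have hune : u ≠ 0 := Loc.ne_zero_of_ev hu0
  rintro _ ⟨p, hp, rfl⟩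
  have e : p.1 / (u * s) ^ p.2 = (u⁻¹) ^ p.2 * (p.1 / s ^ p.2) := by
    rw [mul_pow, inv_pow]
    field_simp
  change p.1 / (u * s) ^ p.2 ∈ _
  rw [e]
  exact mul_mem (pow_mem (L.inv_mem u hu hu0) _) (hS _ ⟨p, hp, rfl⟩)

section On

variable {κ : Chart K n} {σ : ℕ → Option (Fin n)} {J JN : Finset (Fin n)} {j0 : Fin n}
  {δ : Der K} {Z : Set K}

theorem LBlow_bl_x (h : BlLoc L L' κ J j0) : (κ.bl L' J j0).x j0 = κ.x j0 := by
  simp [Chart.bl]

theorem LBlow_bl_D_x (h : BlLoc L L' κ J j0) : (κ.bl L' J j0).D j0 (κ.x j0) = 1 := by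
  have := h.crd'.dual j0 j0
  rwa [LBlow_bl_x h, if_pos rfl] at this

/-- logarithmic derivations lift after multiplication by the exceptional equation -/
theorem LBlow_smul_lg (h : BlLoc L L' κ J j0) (ha : Adp L κ Y σ)
    (hk : L'.span (Y' k) = L'.span {κ.x j0})
    (hi : ∀ i, i ≠ k → L'.span (Y' i) = L'.span {κ.sy J j0 (σ i)}) (hδ : δ ∈ L.lg Y) :
    κ.x j0 • δ ∈ L'.lg Y' := by
  have h0 : δ ∈ L.log ∅ := Loc.log_sub_empty hδ
  refine Loc.mem_log_iff.2 ⟨h.smul_log h0, ?_⟩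
  rintro _ ⟨i, rfl⟩
  by_cases hik : i = k
  · subst hik
    refine Loc.log_congr ?_ (h.smul_log_exc h0)
    rintro _ rfl
    exact Or.inr ⟨_, rfl, hk.symm⟩
  · have h1 := hi i hik
    cases hσ : σ i with
    | none =>
      rw [hσ] at h1
      refine Loc.log_congr ?_ (h.smul_log h0)
      rintro _ rfl
      exact Or.inl (h1.trans Loc.span_one)
    | some j =>
      rw [hσ] at h1
      have h2 : δ ∈ L.log {κ.x '' ({j} : Finset (Fin n))} := by
        refine Loc.log_congr ?_ hδ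
        rintro _ rfl
        exact Or.inr ⟨_, ⟨i, rfl⟩, ha.span_some hσ⟩
      refine Loc.log_congr ?_ (h.smul_log_st h2)
      rintro _ rfl
      refine Or.inr ⟨_, rfl, ?_⟩
      rw [h1, Finset.coe_singleton, Set.image_singleton]
      rfl

theorem LBlow_span_st (h : BlLoc L L' κ J j0) (hZ : L.span Z = κ.I L JN) (hJ : JN ⊆ J) :
    L'.span (dvs (κ.x j0) Z) = L'.span (κ.sx J j0 '' JN) := by
  have h1 : L'.span Z = L'.span (κ.x '' JN) := Loc.span_eq_lift h.le hZ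
  rw [LBlow_span_dvs_congr (h.crd.x_ne_zero j0) h1 rfl]
  have e : dvs (κ.x j0) (κ.x '' JN) = κ.sx J j0 '' JN := by
    unfold dvs
    rw [Set.image_image]
    refine Set.image_congr fun j hj => ?_
    simp [Chart.sx, hJ hj]
  rw [e]

/-- the strict transform of a transversal subspace -/
theorem LBlow_tr (h : BlLoc L L' κ J j0) (ht : Tr L κ Y σ Z JN) (hJ : JN ⊆ J)
    (hk : L'.span (Y' k) = L'.span {κ.x j0})
    (hi : ∀ i, i ≠ k → L'.span (Y' i) = L'.span {κ.sy J j0 (σ i)})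
    (hm : L'.span (dvs (κ.x j0) Z) ≤ L'.m) :
    j0 ∉ JN ∧ ∃ σ', Tr L' (κ.bl L' J j0) Y' σ' (dvs (κ.x j0) Z) JN := by
  have h1 := LBlow_span_st h ht.span hJ
  rcases h.st_cases JN with h2 | ⟨h2, h3⟩
  · exfalso
    rw [h1, h2] at hm
    exact Loc.one_notMem_m (hm (Loc.mem_one.2 (one_mem _)))
  · obtain ⟨σ', ha', hσk, hσi⟩ := h.adp' ht.adp hk hi
    refine ⟨h2, σ', ha', ?_, ?_⟩
    · rw [h1]
      unfold Chart.I
      rw [Set.image_congr (f := (κ.bl L' J j0).x) (g := κ.sx J j0) fun j hj => h3 j hj]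
    · intro i j hj
      by_cases hik : i = k
      · subst hik
        rw [hσk] at hj
        cases hj
        exact h2
      · exact ht.disj i j (hσi i hik j hj).1

theorem LBlow_ders_smul (D : Fin n → Der K) (D' : Fin n → Der K) (x c : K) (l : List (Fin n))
    (hD : ∀ j ∈ l, D' j = x • D j) (hx : ∀ j ∈ l, D j x = 0) (hc : ∀ j ∈ l, D j c = 0) (f : K) :
    ders (l.map D') (c * f) = c * x ^ l.length * ders (l.map D) f := by
  induction l with
  | nil => simp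
  | cons j l ih =>
    have hj : j ∈ j :: l := List.mem_cons_self
    rw [List.map_cons, List.map_cons, ders_cons, ders_cons,
      ih (fun i hi => hD i (List.mem_cons_of_mem _ hi)) (fun i hi => hx i (List.mem_cons_of_mem _ hi))
        (fun i hi => hc i (List.mem_cons_of_mem _ hi)), hD j hj, List.length_cons]
    have h1 : D j (c * x ^ l.length) = 0 := by
      rw [Derivation.leibniz, Derivation.leibniz_pow, hx j hj, hc j hj]
      simp
    rw [Derivation.smul_apply, Derivation.leibniz, h1]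
    simp only [smul_eq_mul, mul_zero, add_zero]
    ring

theorem LBlow_arith {a b : ℝ≥0∞} {w m : ℕ} (ha : a ≠ ⊤) (hm : m ≤ w)
    (h : (w : ℝ≥0∞) ≤ (b + ((w - m : ℕ) : ℝ≥0∞) * a) / (1 + a) + m) :
    ((w - m : ℕ) : ℝ≥0∞) ≤ b := by
  obtain ⟨e, rfl⟩ := Nat.exists_eq_add_of_le' hm
  rw [Nat.add_sub_cancel] at h ⊢
  rw [Nat.cast_add] at h
  have h1 : (e : ℝ≥0∞) ≤ (b + e * a) / (1 + a) :=
    (ENNReal.add_le_add_iff_right (ENNReal.natCast_ne_top m)).1 h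
  have h2 : (1 : ℝ≥0∞) + a ≠ 0 := by simp
  have h3 : (1 : ℝ≥0∞) + a ≠ ⊤ := by simp [ha]
  rw [ENNReal.le_div_iff_mul_le (Or.inl h2) (Or.inl h3), mul_add, mul_one] at h1
  exact (ENNReal.add_le_add_iff_right (ENNReal.mul_ne_top (ENNReal.natCast_ne_top e) ha)).1 h1

/-- flatness passes to the blow-up -/
theorem LBlow_flat {σ' : ℕ → Option (Fin n)} {S : Set (K × ℕ)} (h : BlLoc L L' κ J j0)
    (ht : Tr L κ Y σ Z JN) (hJ : JN ⊆ J) (hC : L.span C = κ.I L J)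
    (hk : L'.span (Y' k) = L'.span {κ.x j0})
    (hi : ∀ i, i ≠ k → L'.span (Y' i) = L'.span {κ.sy J j0 (σ i)})
    (hj0 : j0 ∉ JN) (ht' : Tr L' (κ.bl L' J j0) Y' σ' (dvs (κ.x j0) Z) JN)
    (hS : L.In S) (hb : Bdd S) (ho : L.Ord C S) (hf : Flat L (L.lg Y) Z S) :
    Flat L' (L'.lg Y') (dvs (κ.x j0) Z) (dv (κ.x j0) S) := by
  have hx0 : κ.x j0 ≠ 0 := h.crd.x_ne_zero j0
  have hxO : κ.x j0 ∈ L.O := h.crd.x_mem j0
  have hxO' : κ.x j0 ∈ L'.O := h.le hxO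
  have hgen : L'.span C = L'.span {κ.x j0} := (Loc.span_eq_lift h.le hC).trans h.span_I
  have hS' : L'.In (dv (κ.x j0) S) := in_dv h.le hx0 hgen ho
  have hZ' : ∀ z ∈ dvs (κ.x j0) Z, z ∈ L'.O := ht'.mem
  have hd' : L'.lg Y' ∩ L'.log {dvs (κ.x j0) Z} ⊆ L'.log ∅ := fun δ hδ => Loc.log_sub_empty hδ.1
  have hd : L.lg Y ∩ L.log {Z} ⊆ L.log ∅ := fun δ hδ => Loc.log_sub_empty hδ.1
  have hlift : ∀ δ ∈ L.lg Y ∩ L.log {Z},
      κ.x j0 • δ ∈ L'.lg Y' ∩ L'.log {dvs (κ.x j0) Z} ∧ δ (κ.x j0) ∈ L'.O := by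
    intro δ hδ
    refine ⟨⟨LBlow_smul_lg h ht.adp hk hi hδ.1, ?_⟩, h.le (hδ.1.1 _ hxO)⟩
    have h2 : δ ∈ L.log {κ.x '' JN} := by
      refine Loc.log_congr ?_ hδ.2
      rintro _ rfl
      exact Or.inr ⟨_, rfl, ht.span⟩
    refine Loc.log_congr ?_ (h.smul_log_st h2)
    rintro _ rfl
    exact Or.inr ⟨_, rfl, (LBlow_span_st h ht.span hJ).symm⟩
  have hε : (κ.bl L' J j0).D j0 ∈ L'.log {dvs (κ.x j0) Z} := by
    refine Loc.log_congr ?_ (h.crd'.D_log_I hj0)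
    rintro _ rfl
    exact Or.inr ⟨_, rfl, ht'.span.symm⟩
  obtain ⟨W, hW⟩ := hb.dv (s := κ.x j0)
  intro v hv htop hsat
  refine sat_of_normal ht' hv hS' ?_
  rintro _ ⟨p, hp, rfl⟩ l hl
  change Sat _ {(ders (l.map (κ.bl L' J j0).D) (p.1 / κ.x j0 ^ p.2), p.2 - l.length)} v
  by_cases hlen : p.2 ≤ l.length
  · rintro _ rfl l' _
    simp [Nat.sub_eq_zero_of_le hlen]
  have hlen' : l.length ≤ p.2 := by omega
  have hne : ∀ j ∈ l, j ≠ j0 := fun j hj e => hj0 (e ▸ hl j hj)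
  have hDx : ∀ j ∈ l, κ.D j (κ.x j0) = 0 := fun j hj => by
    rw [h.crd.dual, if_neg (hne j hj)]
  have e1 : ders (l.map (κ.bl L' J j0).D) (p.1 / κ.x j0 ^ p.2) =
      ders (l.map κ.D) p.1 / κ.x j0 ^ (p.2 - l.length) := by
    rw [div_eq_inv_mul, LBlow_ders_smul κ.D _ (κ.x j0) _ l ?_ hDx ?_]
    · rw [pow_sub₀ _ hx0 hlen']
      field_simp
    · intro j hj
      simp [Chart.bl, hne j hj, hJ (hl j hj)]
    · intro j hj
      rw [Derivation.leibniz_inv, Derivation.leibniz_pow, hDx j hj]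
      simp
  rw [e1]
  have hDl : ∀ δ ∈ l.map κ.D, δ ∈ L.lg Y := by
    intro δ hδ
    obtain ⟨j, hj, rfl⟩ := List.mem_map.1 hδ
    exact ht.D_lg (hl j hj)
  have hCle : L.span C ≤ 1 := hC ▸ h.crd.I_le_one
  have hq : ders (l.map κ.D) p.1 / κ.x j0 ^ (p.2 - l.length) ∈ L'.O := by
    have h1 : L.Ord C {(ders (l.map κ.D) p.1, p.2 - l.length)} := by
      rintro _ rfl
      have := Loc.ders_pow (fun δ hδ => Loc.log_sub_empty (hDl δ hδ)) hCle (ho p hp)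
      rwa [List.length_map] at this
    exact in_dv h.le hx0 hgen h1 _ ⟨_, rfl, rfl⟩
  refine sat_of_zero (L := L') (fun v => (∀ z ∈ dvs (κ.x j0) Z, v z = ⊤) ∧
    Sat (L'.lg Y' ∩ L'.log {dvs (κ.x j0) Z}) (dv (κ.x j0) S) v) hd' ?_ ?_ hv ⟨htop, hsat⟩
  · intro v δ hv hP hδ
    exact ⟨gauss_top hv hδ.2 hZ' hP.1, gauss_sat hP.2 hδ le_rfl⟩
  · rintro v0 hv0 hP _ rfl
    have hT0 : ((W + 1 : ℕ) : ℝ≥0∞) ≠ 0 := by simp
    have hT1 : ((W + 1 : ℕ) : ℝ≥0∞) ≠ ⊤ := ENNReal.natCast_ne_top _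
    have hv1 : IsSV L' (gauss v0 ((κ.bl L' J j0).D j0) ((W + 1 : ℕ) : ℝ≥0∞)) :=
      gauss_isSV hv0 (h.crd'.D_log j0) hT0 hT1
    have htop1 := gauss_top (T := ((W + 1 : ℕ) : ℝ≥0∞)) hv0 hε hZ' hP.1
    have hsat1 := gauss_sat_big (δ := (κ.bl L' J j0).D j0) (T := ((W + 1 : ℕ) : ℝ≥0∞)) hP.2 hW
      (by exact_mod_cast Nat.le_succ W)
    have hfin : gauss v0 ((κ.bl L' J j0).D j0) ((W + 1 : ℕ) : ℝ≥0∞) (κ.x j0) ≠ ⊤ := by
      refine ne_top_of_le_ne_top ?_ gauss_le_der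
      rw [LBlow_bl_D_x h, hv0.one, zero_add]
      exact hT1
    refine le_trans ?_ (gauss_le (δ := (κ.bl L' J j0).D j0) (T := ((W + 1 : ℕ) : ℝ≥0∞)))
    generalize gauss v0 ((κ.bl L' J j0).D j0) ((W + 1 : ℕ) : ℝ≥0∞) = v1 at hv1 htop1 hsat1 hfin
    have h2 : (1 : ℝ≥0∞) + v1 (κ.x j0) ≠ 0 := by simp
    have h3 : (1 : ℝ≥0∞) + v1 (κ.x j0) ≠ ⊤ := by simp [hfin]
    have hu : IsSV L (fun f => v1 f / (1 + v1 (κ.x j0))) := (hv1.restrict h.le).div_const h2 h3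
    have hsu := sat_of_sat_dv h.le hx0 hxO' hd hd' hlift hS hS' hv1 hfin hsat1
    have htu : ∀ z ∈ Z, v1 z / (1 + v1 (κ.x j0)) = ⊤ := by
      intro z hz
      have h4 : v1 z = ⊤ := by
        have h5 := hv1.mul _ (hZ' _ ⟨z, hz, rfl⟩) _ hxO'
        rw [htop1 _ ⟨z, hz, rfl⟩, top_add] at h5
        rwa [div_mul_cancel₀ _ hx0] at h5
      rw [h4]
      exact ENNReal.top_div_of_ne_top h3
    have h6 := hf _ hu htu hsu p hp _ hDl
    have h7 := hv1.mul _ hq _ (pow_mem hxO' (p.2 - l.length))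
    rw [div_mul_cancel₀ _ (pow_ne_zero _ hx0), hv1.pow hxO'] at h7
    rw [List.length_map] at h6
    change (p.2 : ℝ≥0∞) ≤ v1 _ / _ + _ at h6
    rw [h7] at h6
    exact LBlow_arith hfin hlen' h6

end On

theorem xfer_on (hC : SncAt L n Y C) (hk : L.span (Y k) = 1) (hb : BlAt L L' n Y Y' k C)
    (hs : L'.span {s} = L'.span (Y' k)) : Xfer L L' n Y Y' k C s := by
  obtain ⟨κ, σ, J, ha, hJ⟩ := id hC
  obtain ⟨j0, h, hk0, hi⟩ := hb κ σ J ha hJ
  have hx0 : κ.x j0 ≠ 0 := h.crd.x_ne_zero j0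
  have hxO : κ.x j0 ∈ L.O := h.crd.x_mem j0
  have hxs : L'.span {κ.x j0} = L'.span {s} := (hs.trans hk0).symm
  obtain ⟨u, hu, hu0, hsu⟩ := Loc.span_singleton_eq_iff.1 hxs
  have hs0 : s ≠ 0 := hsu ▸ mul_ne_zero (Loc.ne_zero_of_ev hu0) hx0
  have hsO : s ∈ L'.O := hsu ▸ mul_mem hu (h.le hxO)
  have hgen : L'.span C = L'.span {s} := ((Loc.span_eq_lift h.le hJ).trans h.span_I).trans hxs
  have hCm : L.span C ≤ L.m := hJ ▸ h.crd.I_le_m
  have joint : ∀ c Z, (∀ z ∈ Z, z ∈ L.span C) → (∀ z ∈ Z, z / s ∈ L'.m) →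
      ((∀ z ∈ Z, z ∈ L.m) → TrAt L n c Y Z) →
      ∃ (κ : Chart K n) (σ σ' : ℕ → Option (Fin n)) (J JN : Finset (Fin n)) (j0 : Fin n),
        Tr L κ Y σ Z JN ∧ JN.card = c ∧ L.span C = κ.I L J ∧ JN ⊆ J ∧ BlLoc L L' κ J j0 ∧
        L'.span (Y' k) = L'.span {κ.x j0} ∧
        (∀ i, i ≠ k → L'.span (Y' i) = L'.span {κ.sy J j0 (σ i)}) ∧ j0 ∉ JN ∧
        Tr L' (κ.bl L' J j0) Y' σ' (dvs (κ.x j0) Z) JN ∧
        L'.span (dvs s Z) = L'.span (dvs (κ.x j0) Z) := by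
    intro c Z hZ hZm ht
    obtain ⟨κ, σ, J, JN, h1, h2, h3, h4⟩ := exists_joint hC (ht fun z hz => hCm (hZ z hz)) hZ
    obtain ⟨j0, h5, h6, h7⟩ := hb κ σ J h1.adp h3
    have h8 : L'.span (dvs s Z) = L'.span (dvs (κ.x j0) Z) :=
      LBlow_span_dvs_congr hs0 rfl (hs.trans h6)
    have h9 : L'.span (dvs (κ.x j0) Z) ≤ L'.m := by
      rw [← h8]
      refine Loc.span_le.2 ?_
      rintro _ ⟨z, hz, rfl⟩
      exact hZm z hz
    obtain ⟨h10, σ', h11⟩ := LBlow_tr h5 h1 h4 h6 h7 h9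
    exact ⟨κ, σ, σ', J, JN, j0, h1, h2, h3, h4, h5, h6, h7, h10, h11, h8⟩
  refine
    { le := h.le, ev := h.ev, ne := hs0, mem := hsO, gen := hgen, new := hs.symm
      bd1 := ?_, bd0 := ?_, cases := Or.inl hCm, adp := ⟨κ, σ, ha⟩, adp' := ?_
      ord := ?_, cosb := fun S ho _ => ho.cos hCm, leTr := ?_, tr := ?_, flat := ?_ }
  · intro i hik hY
    have h1 : κ.y (σ i) ∈ κ.I L J := by
      rw [← hJ]
      refine Loc.span_le.2 hY ?_
      rw [ha.span i]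
      exact Loc.subset_span rfl
    have h2 := hi i hik
    have h3 := ha.span i
    cases hσ : σ i with
    | none =>
      rw [hσ] at h1
      exact absurd (h.crd.I_le_m h1) Loc.one_notMem_m
    | some j =>
      rw [hσ] at h1 h2 h3
      have hj : j ∈ J := h.crd.x_mem_I.1 h1
      rw [h2, LBlow_span_dvs_congr hs0 (Loc.span_eq_lift h.le h3) hxs.symm, LBlow_dvs_singleton]
      simp [Chart.sy, Chart.sx, Chart.y, hj]
  · intro i hik hY
    have h2 := hi i hik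
    have h3 := ha.span i
    rw [h2, Loc.span_eq_lift h.le h3]
    cases hσ : σ i with
    | none => rfl
    | some j =>
      have hj : j ∉ J := by
        intro hj
        refine hY fun y hy => ?_
        rw [hJ]
        refine Chart.I_mono (Finset.singleton_subset_iff.2 hj) ?_
        rw [← ha.span_some hσ]
        exact Loc.subset_span hy
      simp [Chart.sy, Chart.sx, Chart.y, hj]
  · obtain ⟨σ', h1, -⟩ := h.adp' ha hk0 hi
    exact ⟨_, σ', h1⟩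
  · intro S S' hS' ho hle
    exact ord_of_le h.crd hJ Loc.log_sub_empty hS' (hle (ho.cos hCm)) ho
  · intro S S' hS hS' hbd ho ho' hle
    refine le_dv h.le hs0 hsO Loc.log_sub_empty Loc.log_sub_empty ?_ (Or.inr ?_) hS hS' hbd
      (in_dv h.le hs0 hgen ho) (in_dv h.le hs0 hgen ho') hle
    · intro δ hδ
      constructor
      · rw [hsu, mul_smul]
        exact Loc.log_smul hu (LBlow_smul_lg h ha hk0 hi hδ)
      · rw [hsu, Derivation.leibniz, smul_eq_mul, smul_eq_mul]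
        exact add_mem (mul_mem hu (h.le (hδ.1 _ hxO)))
          ((h.smul_log (Loc.log_sub_empty hδ)).1 u hu)
    · refine ⟨_, h.crd'.D_log j0, ?_⟩
      have h1 : (κ.bl L' J j0).D j0 u ∈ L'.O := h.crd'.pres j0 u hu
      rw [hsu, Derivation.leibniz, LBlow_bl_D_x h, smul_eq_mul, smul_eq_mul, mul_one,
        L'.ev_add _ hu _ (mul_mem (h.le hxO) h1), L'.ev_mul _ (h.le hxO) _ h1, h.ev _ hxO,
        (h.crd.x_mem_m j0).2, zero_mul, add_zero]
      exact hu0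
  · intro c Z _ hZ hZm ht
    obtain ⟨κ, σ, σ', J, JN, j0, -, h2, -, -, -, -, -, -, h11, h8⟩ := joint c Z hZ hZm ht
    exact ⟨_, σ', JN, ⟨h11.adp, h8.trans h11.span, h11.disj⟩, h2⟩
  · intro c Z S _ hZ hZm ht hS hbd ho hf
    obtain ⟨κ, σ, σ', J, JN, j0, h1, -, h3, h4, h5, h6, h7, h10, h11, h8⟩ :=
      joint c Z hZ hZm ht
    have h12 := LBlow_flat h5 h1 h4 h3 h6 h7 h10 h11 hS hbd ho (hf fun z hz => hCm (hZ z hz))
    have h13 : L'.span {s} = L'.span {κ.x j0} := hs.trans h6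
    have h14 : L'.In (dv s S) := in_dv h.le hs0 hgen ho
    exact h12.congr h11.mem h8.symm
      (LBlow_le_dv_dv (fun δ hδ => Loc.log_sub_empty hδ.1) hs0 h13 h14)
      (LBlow_le_dv_dv Loc.log_sub_empty (h5.crd.x_ne_zero j0) h13.symm
        (LBlow_in_dv_dv hs0 h13 h14))

theorem xfer_off (hY : AdpAt L n Y) (hC : L.span C = 1) (hk : L.span (Y k) = 1)
    (hk' : L.span (Y' k) = 1) (hi : ∀ i, i ≠ k → L.span (Y' i) = L.span (Y i))
    (hs : L.span {s} = 1) : Xfer L L n Y Y' k C s := by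
  obtain ⟨hsO, hev⟩ := Loc.span_singleton_eq_one.1 hs
  have hs0 : s ≠ 0 := Loc.ne_zero_of_ev hev
  have hall : ∀ i, L.span (Y' i) = L.span (Y i) := by
    intro i
    by_cases hik : i = k
    · subst hik; exact hk'.trans hk.symm
    · exact hi i hik
  have hlg : L.lg Y' = L.lg Y := Loc.lg_congr hall
  have h1s : L.span {1} = L.span {s} := Loc.span_one.trans hs.symm
  have hin : ∀ S, L.In S → L.In (dv s S) := fun S hS =>
    LBlow_in_dv_dv one_ne_zero h1s (by rwa [LBlow_dv_one])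
  have hle1 : ∀ {𝒟 : Set (Der K)} (S : Set (K × ℕ)), 𝒟 ⊆ L.log ∅ → L.In S → Le L 𝒟 S (dv s S) := by
    intro 𝒟 S hd hS
    have := LBlow_le_dv_dv (S := S) hd one_ne_zero h1s (by rwa [LBlow_dv_one])
    rwa [LBlow_dv_one] at this
  have hle2 : ∀ {𝒟 : Set (Der K)} (S : Set (K × ℕ)), 𝒟 ⊆ L.log ∅ → L.In S → Le L 𝒟 (dv s S) S := by
    intro 𝒟 S hd hS
    have := LBlow_le_dv_dv (S := S) hd hs0 h1s.symm (hin S hS)
    rwa [LBlow_dv_one] at this
  have hm : ∀ Z : Set K, (∀ z ∈ Z, z / s ∈ L.m) → ∀ z ∈ Z, z ∈ L.m := by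
    intro Z hZ z hz
    have := Loc.mul_mem_right hsO (hZ z hz)
    rwa [div_mul_cancel₀ _ hs0] at this
  refine
    { le := le_rfl, ev := fun _ _ => rfl, ne := hs0, mem := hsO, gen := hC.trans hs.symm
      new := hk'.trans hs.symm
      bd1 := fun i _ _ => (hall i).trans (LBlow_span_dvs_unit hs).symm
      bd0 := fun i _ _ => hall i, cases := Or.inr hC, adp := hY
      adp' := hY.congr fun i => Or.inl (hall i)
      ord := fun S S' hS' _ _ => hS'.ord hC, cosb := ?_, leTr := ?_, tr := ?_, flat := ?_ }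
  · intro S _ hc p hp
    have := Loc.mul_mem_right (pow_mem hsO p.2) (hc _ ⟨p, hp, rfl⟩)
    rwa [div_mul_cancel₀ _ (pow_ne_zero _ hs0)] at this
  · intro S S' hS hS' _ _ _ hle
    rw [hlg]
    exact ((hle2 S Loc.log_sub_empty hS).trans hle).trans (hle1 S' Loc.log_sub_empty hS')
  · intro c Z _ _ hZm ht
    exact (ht (hm Z hZm)).congr (fun i => Or.inl (hall i)) (LBlow_span_dvs_unit hs)
  · intro c Z S hZ _ hZm _ hS _ _ hf
    rw [hlg]
    exact (hf (hm Z hZm)).congr hZ (LBlow_span_dvs_unit hs).symm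
      (hle2 S (fun δ hδ => Loc.log_sub_empty hδ.1) hS) (hle1 S Loc.log_sub_empty hS)

theorem Xfer.mon (h : Xfer L L' n Y Y' k C s) (hf : Mon L Y k f) : Mon L' Y' (k + 1) f := by
  classical
  obtain ⟨y, μ, u, hy, hu, hu0, rfl⟩ := hf
  refine ⟨fun i => if i = k then s else if ∀ z ∈ Y i, z ∈ L.span C then y i / s else y i,
    fun i => if i = k then ∑ i ∈ Finset.range k, if ∀ z ∈ Y i, z ∈ L.span C then μ i else 0
      else μ i, u, ?_, h.le hu, by rwa [h.ev u hu], ?_⟩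
  · intro i hi
    by_cases hik : i = k
    · subst hik
      simp only [if_true]
      exact h.new.symm
    · have h1 := Loc.span_eq_lift h.le (hy i (by omega))
      simp only [if_neg hik]
      by_cases hY : ∀ z ∈ Y i, z ∈ L.span C
      · rw [if_pos hY, h.bd1 i hik hY, ← LBlow_dvs_singleton]
        exact LBlow_span_dvs_congr h.ne h1 rfl
      · rw [if_neg hY, h.bd0 i hik hY, h1]
  · unfold H96.mon
    rw [Finset.prod_range_succ]
    simp only [if_true]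
    rw [← Finset.prod_pow_eq_pow_sum, ← Finset.prod_mul_distrib]
    refine congrArg (fun t => u * t) (Finset.prod_congr rfl fun i hi => ?_)
    have hik : i ≠ k := (Finset.mem_range.1 hi).ne
    simp only [if_neg hik]
    by_cases hY : ∀ z ∈ Y i, z ∈ L.span C
    · rw [if_pos hY, if_pos hY, ← mul_pow, div_mul_cancel₀ _ h.ne]
    · rw [if_neg hY, if_neg hY, pow_zero, mul_one]

theorem Xfer.mon_s (h : Xfer L L' n Y Y' k C s) (w : ℕ) : Mon L' Y' (k + 1) (s ^ w) := by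
  obtain ⟨κ, σ, ha⟩ := h.adp'
  refine ⟨fun i => if i = k then s else κ.y (σ i), fun i => if i = k then w else 0, 1, ?_,
    one_mem _, by rw [Loc.ev_one]; exact one_ne_zero, ?_⟩
  · intro i _
    by_cases hik : i = k
    · subst hik
      simp only [if_true]
      exact h.new.symm
    · simp only [if_neg hik]
      exact (ha.span i).symm
  · unfold H96.mon
    rw [Finset.prod_range_succ, Finset.prod_eq_one, one_mul, one_mul]
    · simp only [if_true]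
    · intro i hi
      have hik : i ≠ k := (Finset.mem_range.1 hi).ne
      simp only [if_neg hik, pow_zero]

theorem Xfer.in_dv (h : Xfer L L' n Y Y' k C s) {S : Set (K × ℕ)} (hS : L.Ord C S) :
    L'.In (dv s S) := H96.in_dv h.le h.ne h.gen hS

theorem Xfer.span_le (h : Xfer L L' n Y Y' k C s) {Z : Set K} (hZ : ∀ z ∈ Z, z ∈ L.span C)
    (hf : f ∈ L.span Z) : f ∈ L'.span (dvs s Z) :=
  (LBlow_mem_span_dvs h.ne).2 (Loc.mul_mem_right h.mem (Loc.span_lift h.le hf))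

theorem Xfer.eqv (h : Xfer L L' n Y Y' k C s) {S S' : Set (K × ℕ)} (hS : L.In S) (hS' : L.In S')
    (hb : Bdd S) (hb' : Bdd S') (ho : L.Ord C S) (ho' : L.Ord C S') (he : Eqv L (L.lg Y) S S') :
    Eqv L' (L'.lg Y') (trS L' (Y' k) S) (dv s S') :=
  (eqv_trS Loc.log_sub_empty h.new.symm (h.in_dv ho)).trans
    ⟨h.leTr S S' hS hS' hb ho ho' he.1, h.leTr S' S hS' hS hb' ho' ho he.2⟩

/-- presentations are preserved -/
theorem Xfer.presAt (h : Xfer L L' n Y Y' k C s) {c d : ℕ} {S : Set (K × ℕ)} {Z G : Set K}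
    (hp : PresAt L n c d Y S Z G) (hS : L.In S) (hb : Bdd S) (ho : L.Ord C S) :
    L.Ord C (wt Z 1 ∪ wt G d) ∧
      PresAt L' n c d Y' (trS L' (Y' k) S) (dvs s Z) (dvs (s ^ d) G) := by
  have hT : L.In (wt Z 1 ∪ wt G d) := in_union.2 ⟨in_wt.2 hp.memZ, in_wt.2 hp.memG⟩
  have hbT : Bdd (wt Z 1 ∪ wt G d) := bdd_union.2 ⟨bdd_wt, bdd_wt⟩
  have hoT : L.Ord C (wt Z 1 ∪ wt G d) := h.ord S _ hT ho fun hc => (hp.eqv hc).1
  have e : dv s (wt Z 1 ∪ wt G d) = wt (dvs s Z) 1 ∪ wt (dvs (s ^ d) G) d := by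
    rw [dv_union, dv_wt_one, dv_wt]
  have hT' : L'.In (wt (dvs s Z) 1 ∪ wt (dvs (s ^ d) G) d) := e ▸ h.in_dv hoT
  have hZC : ∀ z ∈ Z, z ∈ L.span C := ord_wt_one.1 (ord_union.1 hoT).1
  have heq : L.Cos S → Eqv L' (L'.lg Y') (trS L' (Y' k) S)
      (wt (dvs s Z) 1 ∪ wt (dvs (s ^ d) G) d) := fun hc =>
    e ▸ h.eqv hS hT hb hbT ho hoT (hp.eqv hc)
  have hc1 : L'.Cos (trS L' (Y' k) S) → L.Cos S := fun hc =>
    h.cosb S ho ((H96.cos_trS h.new.symm).1 hc)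
  refine ⟨hoT, in_wt.1 (in_union.1 hT').1, in_wt.1 (in_union.1 hT').2, ?_, ?_, ?_,
    fun hc => heq (hc1 hc)⟩
  · by_cases hc : L.Cos S
    · obtain ⟨κ, σ, ha⟩ := h.adp'
      exact (heq hc).cos_iff ha.crd Loc.log_sub_empty (in_trS h.new.symm (h.in_dv ho)) hT'
    · exact ⟨fun h1 => absurd (hc1 h1) hc,
        fun h1 => absurd (hp.cos.2 (h.cosb _ hoT (e.symm ▸ h1))) hc⟩
  · intro hm
    exact h.tr c Z hp.memZ hZC (fun z hz => hm _ ⟨z, hz, rfl⟩) hp.tr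
  · intro hm
    rw [← dv_wt]
    exact h.flat c Z _ hp.memZ hZC (fun z hz => hm _ ⟨z, hz, rfl⟩) hp.tr (in_wt.2 hp.memG)
      bdd_wt (ord_union.1 hoT).2 hp.flat

theorem Xfer.cos_trS (h : Xfer L L' n Y Y' k C s) {S : Set (K × ℕ)} (ho : L.Ord C S)
    (hc : L'.Cos (trS L' (Y' k) S)) : L.Cos S :=
  h.cosb S ho ((H96.cos_trS h.new.symm).1 hc)

end Pool.Agent.MP_696f7f_ag.H96
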