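import Pool.Agent.MP_696f7f_ag.H96.MBlow0
import Pool.Agent.MP_696f7f_ag.H96.LBlow

/-! Strict transforms, the new boundary, transfer of local data. -/

namespace Pool.Agent.MP_696f7f_ag.H96

open Filter Topology

variable {K : Type} [Field K] [Algebra ℝ K] {n : ℕ} {M M' : Model K n} {C A F : Set M.P}
  {E : ℕ → Set M.P} {k : ℕ} {S : M.Obj}

namespace IsBl

theorem st_subset (h : IsBl M C M') (hA : ZClosed A) : h.st A ⊆ h.π ⁻¹' A :=
  zcl_subset (fun _ hb => hb.1) (h.dom.zclosed hA)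

theorem mem_st_off (h : IsBl M C M') (hC : ZClosed C) (hA : ZClosed A) {b' : M'.P}
    (hb : h.π b' ∉ C) : b' ∈ h.st A ↔ h.π b' ∈ A :=
  have _ := hC
  ⟨fun h1 => h.st_subset hA h1, fun h1 => subset_zcl ⟨h1, hb⟩⟩

theorem st_empty (h : IsBl M C M') : h.st ∅ = ∅ := by
  rw [st, Set.empty_sdiff, Set.preimage_empty, zcl_empty]

theorem MBlow_pull (h : IsBl M C M') {b' : M'.P} {Q : M.P → Prop}
    (hQ : ∀ᶠ c in zn (h.π b'), Q c) : ∀ᶠ c' in zn b', Q (h.π c') :=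
  (h.dom.tendsto_zn b').eventually hQ

theorem MBlow_push (h : IsBl M C M') (hC : ZClosed C) {b' : M'.P} (hb : h.π b' ∉ C)
    {Q : M'.P → Prop} (hQ : ∀ᶠ c' in zn b', Q c') :
    ∀ᶠ c in zn (h.π b'), c ∉ C ∧ ∀ c', h.π c' = c → Q c' := by
  obtain ⟨q, hq, hQ⟩ := eventually_zn.1 hQ
  have e := h.loc_off hC hb
  have h1 : (q : K) ∈ (M.loc (h.π b')).O := e ▸ Model.le_loc b' q.2
  have h2 : (M.loc (h.π b')).ev q ≠ 0 := by
    rw [← e, Model.loc_ev]
    exact hq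
  filter_upwards [Model.sp_unit h1 h2, zclosed_iff.1 hC _ hb] with c hc hcC
  refine ⟨hcC, ?_⟩
  rintro c' rfl
  refine hQ c' ?_
  rw [← Model.loc_ev, h.loc_off hC hcC]
  exact hc.2

theorem MBlow_mem_m (h : IsBl M C M') {b' : M'.P} {g : K} (hg : g ∈ (M.loc (h.π b')).O) :
    g ∈ (M.loc (h.π b')).m ↔ g ∈ (M'.loc b').m := by
  rw [Loc.mem_m, Loc.mem_m, h.dom.loc_ev b' g hg]
  exact ⟨fun h1 => ⟨h.dom.loc_le b' hg, h1.2⟩, fun h1 => ⟨hg, h1.2⟩⟩

theorem span_st_off (h : IsBl M C M') (hC : ZClosed C) (hA : ZClosed A) {b' : M'.P}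
    (hb : h.π b' ∉ C) :
    (M'.loc b').span (M'.vanK (h.st A)) = (M'.loc b').span (M.vanK A) := by
  have e := h.loc_off hC hb
  ext g
  have e1 : g ∈ (M'.loc b').span (M.vanK A) ↔ g ∈ (M.loc (h.π b')).span (M.vanK A) := by rw [e]
  rw [e1, Model.mem_span_vanK, Model.mem_span_vanK, e]
  refine and_congr_right fun _ => ⟨fun h1 => ?_, fun h1 => ?_⟩
  · filter_upwards [h.MBlow_push hC hb h1] with c hc hcA
    obtain ⟨c', rfl⟩ := h.exists_off hC hc.1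
    rw [← h.loc_off hC hc.1]
    exact hc.2 c' rfl ((h.mem_st_off hC hA hc.1).2 hcA)
  · filter_upwards [h.MBlow_pull h1, h.MBlow_pull (zclosed_iff.1 hC _ hb)] with c' h2 h3 h4
    rw [h.loc_off hC h3]
    exact h2 (h.st_subset hA h4)

/-- near a point of a chart, closed sets are cut out by coordinates -/
theorem MBlow_near (h : IsBl M C M') (hA : ZClosed A) {b' : M'.P} {κ : Chart K n}
    {JA : Finset (Fin n)} (hκ : IsCrd (M.loc (h.π b')) κ)
    (hJA : (M.loc (h.π b')).span (M.vanK A) = κ.I (M.loc (h.π b')) JA) :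
    ∀ᶠ c' in zn b', h.π c' ∈ A ↔ ∀ j ∈ JA, κ.x j ∈ (M'.loc c').m := by
  filter_upwards [h.MBlow_pull (Model.sp_mem_iff hA (JA.finite_toSet.image κ.x) hJA),
    h.MBlow_pull (Model.sp_mem_fin (Set.finite_range κ.x) (by
      rintro _ ⟨j, rfl⟩
      exact hκ.x_mem j))] with c' h1 h2
  rw [h1]
  constructor
  · intro h3 j hj
    exact (h.MBlow_mem_m (h2 _ ⟨j, rfl⟩)).1 (h3 _ ⟨j, hj, rfl⟩)
  · rintro h3 _ ⟨j, hj, rfl⟩
    exact (h.MBlow_mem_m (h2 _ ⟨j, rfl⟩)).2 (h3 j hj)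

theorem MBlow_sx {L L' : Loc K} {κ : Chart K n} {J : Finset (Fin n)} {j0 : Fin n}
    (hb : BlLoc L L' κ J j0) (j : Fin n) :
    κ.x j = κ.sx J j0 j * κ.x j0 ∨ κ.x j = κ.sx J j0 j := by
  unfold Chart.sx
  split_ifs
  · exact Or.inl (div_mul_cancel₀ _ hb.lbl_ne).symm
  · exact Or.inr rfl

theorem MBlow_near_exc (h : IsBl M C M') (hC : ZClosed C) {b' : M'.P} {κ : Chart K n}
    {J : Finset (Fin n)} {j0 : Fin n}
    (hJ : (M.loc (h.π b')).span (M.vanK C) = κ.I (M.loc (h.π b')) J)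
    (hb : BlLoc (M.loc (h.π b')) (M'.loc b') κ J j0) :
    ∀ᶠ c' in zn b', (h.π c' ∈ C ↔ κ.x j0 ∈ (M'.loc c').m) ∧ κ.x j0 ∈ (M'.loc c').O ∧
      ∀ j, κ.sx J j0 j ∈ (M'.loc c').O := by
  filter_upwards [h.MBlow_near hC hb.crd hJ, Model.sp_mem (hb.lbl_x_mem j0),
    Model.sp_mem_fin (Set.finite_range (κ.sx J j0)) (by
      rintro _ ⟨j, rfl⟩
      exact hb.sx_mem j)] with c' h1 h2 h3
  refine ⟨?_, h2, fun j => h3 _ ⟨j, rfl⟩⟩
  rw [h1]
  refine ⟨fun h4 => h4 j0 hb.mem, fun h4 j hj => ?_⟩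
  have e : κ.x j = κ.sx J j0 j * κ.x j0 := by
    rw [Chart.sx, if_pos hj, div_mul_cancel₀ _ hb.lbl_ne]
  rw [e]
  exact Loc.mul_mem_left (h3 _ ⟨j, rfl⟩) h4

theorem span_exc (h : IsBl M C M') (hC : ZClosed C) {b' : M'.P} {κ : Chart K n}
    {J : Finset (Fin n)} {j0 : Fin n}
    (hJ : (M.loc (h.π b')).span (M.vanK C) = κ.I (M.loc (h.π b')) J)
    (hb : BlLoc (M.loc (h.π b')) (M'.loc b') κ J j0) :
    (M'.loc b').span (M'.vanK (h.π ⁻¹' C)) = (M'.loc b').span {κ.x j0} := by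
  rw [Model.span_vanK_eq_I (J := {j0}) hb.crd', Chart.I_singleton, BlLoc.lbl_bl_x_j0]
  filter_upwards [h.MBlow_near_exc hC hJ hb] with c' h1
  simp only [Finset.mem_singleton, forall_eq, BlLoc.lbl_bl_x_j0]
  exact h1.1

theorem span_st (h : IsBl M C M') (hC : ZClosed C) (hA : ZClosed A) {b' : M'.P} {κ : Chart K n}
    {J JA : Finset (Fin n)} {j0 : Fin n}
    (hJ : (M.loc (h.π b')).span (M.vanK C) = κ.I (M.loc (h.π b')) J)
    (hb : BlLoc (M.loc (h.π b')) (M'.loc b') κ J j0)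
    (hJA : (M.loc (h.π b')).span (M.vanK A) = κ.I (M.loc (h.π b')) JA) :
    (M'.loc b').span (M'.vanK (h.st A)) = (M'.loc b').span (κ.sx J j0 '' JA) := by
  have e0 : M'.vanK (h.st A) = M'.vanK (h.π ⁻¹' (A \ C)) := by
    rw [Model.vanK, Model.vanK, st, van_zcl]
  rw [e0]
  have hA' := h.MBlow_near hA hb.crd hJA
  have hC' := h.MBlow_near_exc hC hJ hb
  refine le_antisymm ?_ (Loc.span_le.2 ?_)
  · rcases hb.st_cases JA with h1 | ⟨hj0, h1⟩
    · rw [h1]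
      exact Model.span_vanK_le_one
    · have e1 : (M'.loc b').span (κ.sx J j0 '' JA) =
          (κ.bl (M'.loc b') J j0).I (M'.loc b') JA := by
        rw [Chart.I, Set.image_congr fun j hj => h1 j hj]
      rw [e1]
      intro g hg
      obtain ⟨hg, hg0⟩ := Model.mem_span_vanK.1 hg
      have h2 : κ.x j0 * g ∈ (κ.bl (M'.loc b') J j0).I (M'.loc b') JA := by
        refine Model.mem_I_of_vanish hb.crd' (mul_mem (hb.lbl_x_mem j0) hg) (nhds_le_zn ?_)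
        filter_upwards [hA', hC', hg0, Model.sp_mem hg] with c' h3 h4 h5 h6 h7
        rw [(M'.loc c').ev_mul _ h4.2.1 _ h6]
        by_cases hc : h.π c' ∈ C
        · rw [(h4.1.1 hc).2, zero_mul]
        · rw [h5 ⟨h3.2 fun j hj => ?_, hc⟩, mul_zero]
          have h8 : κ.sx J j0 j ∈ (M'.loc c').m := ⟨h4.2.2 j, by rw [← h1 j hj]; exact h7 j hj⟩
          rcases MBlow_sx hb j with e | e
          · rw [e]
            exact Loc.mul_mem_right h4.2.1 h8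
          · rw [e]
            exact h8
      refine (hb.crd'.prime (hb.lbl_x_mem j0) hg h2).resolve_left fun h3 => hj0 ?_
      rw [← BlLoc.lbl_bl_x_j0 (κ := κ) (J := J) (j0 := j0) (M'.loc b')] at h3
      exact hb.crd'.x_mem_I.1 h3
  · rintro _ ⟨j, hj, rfl⟩
    refine Model.mem_span_vanK.2 ⟨hb.sx_mem j, ?_⟩
    filter_upwards [hA', hC'] with c' h3 h4 h5
    have h6 := (h3.1 h5.1 j hj).2
    rcases MBlow_sx hb j with e | e
    · rw [e, (M'.loc c').ev_mul _ (h4.2.2 j) _ h4.2.1] at h6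
      exact (mul_eq_zero.1 h6).resolve_right fun h7 => h5.2 (h4.1.2 ⟨h4.2.1, h7⟩)
    · rw [← e]
      exact h6

theorem Y_bd_self (h : IsBl M C M') : M'.Y (h.bd k E) k = M'.vanK (h.π ⁻¹' C) := by
  rw [Model.Y, bd, if_pos rfl]

theorem MBlow_Y_bd (h : IsBl M C M') {i : ℕ} (hi : i ≠ k) :
    M'.Y (h.bd k E) i = M'.vanK (h.st (E i)) := by
  rw [Model.Y, bd, if_neg hi]

theorem blAt (h : IsBl M C M') (hE : M.Snc k E) (hC : ZClosed C) (b' : M'.P) :
    BlAt (M.loc (h.π b')) (M'.loc b') n (M.Y E) (M'.Y (h.bd k E)) k (M.vanK C) := by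
  intro κ σ J ha hJ
  obtain ⟨j0, hb⟩ := h.blLoc ha.crd hJ
  refine ⟨j0, hb, ?_, fun i hi => ?_⟩
  · rw [h.Y_bd_self]
    exact h.span_exc hC hJ hb
  · rw [h.MBlow_Y_bd hi]
    rcases hσ : σ i with _ | j
    · have h1 : h.π b' ∉ E i := (hE.span_eq_one i).1 ((ha.span_eq_one i).2 hσ)
      rw [Chart.sy, Loc.span_one]
      exact (Model.span_vanK_eq_one zclosed_zcl).2 fun h2 => h1 (h.st_subset (hE.closed i) h2)
    · rw [h.span_st hC (hE.closed i) hJ hb (ha.span_some hσ), Finset.coe_singleton,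
        Set.image_singleton, Chart.sy]

theorem exists_gen (h : IsBl M C M') (hC : M.Sm C) (a' : M'.P) :
    ∃ s, ∀ᶠ b' in zn a', (M'.loc b').span {s} = (M'.loc b').span (M'.vanK (h.π ⁻¹' C)) := by
  have h1 : ∃ s, (M'.loc a').span (M'.vanK (h.π ⁻¹' C)) = (M'.loc a').span {s} := by
    by_cases ha : h.π a' ∈ C
    · obtain ⟨κ, J, hκ, hJ⟩ := hC.sm _ ha
      obtain ⟨j0, hb⟩ := h.blLoc hκ hJ
      exact ⟨_, h.span_exc hC.closed hJ hb⟩
    · exact ⟨1, ((Model.span_vanK_eq_one (h.dom.zclosed hC.closed)).2 ha).trans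
        Loc.span_one.symm⟩
  obtain ⟨s, hs⟩ := h1
  exact ⟨s, (Model.sp_span_vanK (Set.finite_singleton s) hs).mono fun _ hb => hb.symm⟩

theorem xfer (h : IsBl M C M') (hE : M.Snc k E) (hC : M.Centre E C) (b' : M'.P) {s : K}
    (hs : (M'.loc b').span {s} = (M'.loc b').span (M'.vanK (h.π ⁻¹' C))) :
    Xfer (M.loc (h.π b')) (M'.loc b') n (M.Y E) (M'.Y (h.bd k E)) k (M.vanK C) s := by
  have hk : (M.loc (h.π b')).span (M.Y E k) = 1 :=
    (hE.span_eq_one k).2 (by rw [hE.bd k le_rfl]; exact Set.notMem_empty _)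
  by_cases hb : h.π b' ∈ C
  · exact xfer_on (hC.snc _ hb) hk (h.blAt hE hC.closed b') (by rw [h.Y_bd_self]; exact hs)
  · have h1 : (M'.loc b').span (M'.vanK (h.π ⁻¹' C)) = 1 :=
      (Model.span_vanK_eq_one (h.dom.zclosed hC.closed)).2 hb
    have h2 : ∀ i, i ≠ k → (M'.loc b').span (M'.Y (h.bd k E) i) = (M'.loc b').span (M.Y E i) :=
      fun i hi => by
        rw [h.MBlow_Y_bd hi]
        exact h.span_st_off hC.closed (hE.closed i) hb
    have h3 : (M'.loc b').span {s} = 1 := hs.trans h1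
    rw [← h.Y_bd_self (k := k) (E := E)] at h1
    rw [h.loc_off hC.closed hb] at h1 h2 h3 ⊢
    exact xfer_off (hE.adp _) ((Model.span_vanK_eq_one hC.closed).2 hb) hk h1 h2 h3

theorem snc (h : IsBl M C M') (hE : M.Snc k E) (hC : M.Centre E C) :
    M'.Snc (k + 1) (h.bd k E) := by
  refine ⟨fun i => ?_, fun i hi => ?_, fun b' => ?_⟩
  · rw [bd]
    split_ifs
    · exact h.dom.zclosed hC.closed
    · exact zclosed_zcl
  · rw [bd, if_neg (by omega), hE.bd i (by omega), h.st_empty]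
  · obtain ⟨s, hs⟩ := h.exists_gen hC.sm b'
    exact (h.xfer hE hC b' (zn_self hs)).adp'

theorem sm_exc (h : IsBl M C M') (hC : M.Sm C) : M'.Sm (h.π ⁻¹' C) := by
  refine ⟨h.dom.zclosed hC.closed, fun b' hb' => ?_⟩
  obtain ⟨κ, J, hκ, hJ⟩ := hC.sm _ hb'
  obtain ⟨j0, hb⟩ := h.blLoc hκ hJ
  refine ⟨_, {j0}, hb.crd', ?_⟩
  rw [h.span_exc hC.closed hJ hb, Chart.I_singleton, BlLoc.lbl_bl_x_j0]

theorem ok (h : IsBl M C M') (hE : M.Snc k E) (hS : M.OK S) (hC : M.Adm E S C) :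
    M'.OK (h.tr S) := by
  refine ⟨fun b' => ?_, ?_⟩
  · obtain ⟨s, hs⟩ := h.exists_gen hC.centre.sm b'
    exact in_trS (zn_self hs) ((h.xfer hE hC.centre b' (zn_self hs)).in_dv (hC.ord_all hS _))
  · obtain ⟨W, hW⟩ := hS.bdd
    exact ⟨W, fun b' => trS_weight W (hW _)⟩

theorem cos_tr (h : IsBl M C M') (hE : M.Snc k E) (hS : M.OK S) (hC : M.Adm E S C) :
    M'.cos (h.tr S) ⊆ h.π ⁻¹' M.cos S := by
  intro b' hb'
  obtain ⟨s, hs⟩ := h.exists_gen hC.centre.sm b'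
  refine (h.xfer hE hC.centre b' (zn_self hs)).cos_trS (hC.ord_all hS _) ?_
  rw [h.Y_bd_self]
  exact hb'

theorem cos_tr_off (h : IsBl M C M') (hC : ZClosed C) {b' : M'.P} (hb : h.π b' ∉ C) :
    b' ∈ M'.cos (h.tr S) ↔ h.π b' ∈ M.cos S := by
  have h1 : (M'.loc b').span {1} = (M'.loc b').span (M'.vanK (h.π ⁻¹' C)) :=
    Loc.span_one.trans ((Model.span_vanK_eq_one (h.dom.zclosed hC)).2 hb).symm
  refine (cos_trS h1).trans ?_
  rw [LBlow_dv_one, h.loc_off hC hb]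
  rfl

theorem bd_lt (h : IsBl M C M') (hE : M.Snc k E) {i : ℕ} (hi : i ≠ k) :
    h.bd k E i ⊆ h.π ⁻¹' E i := by
  rw [bd, if_neg hi]
  exact h.st_subset (hE.closed i)

theorem iUnion_bd (h : IsBl M C M') (hE : M.Snc k E) (hC : ZClosed C) :
    ⋃ i, h.bd k E i = h.π ⁻¹' (C ∪ ⋃ i, E i) := by
  ext b'
  simp only [Set.mem_iUnion, Set.mem_preimage, Set.mem_union]
  constructor
  · rintro ⟨i, hi⟩
    by_cases hik : i = k
    · rw [bd, if_pos hik] at hi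
      exact Or.inl hi
    · exact Or.inr ⟨i, h.bd_lt hE hik hi⟩
  · intro h1
    by_cases hb : h.π b' ∈ C
    · exact ⟨k, by rw [bd, if_pos rfl]; exact hb⟩
    · obtain ⟨i, hi⟩ := h1.resolve_left hb
      have hik : i ≠ k := by
        rintro rfl
        rw [hE.bd i le_rfl] at hi
        exact hi
      exact ⟨i, by rw [bd, if_neg hik]; exact (h.mem_st_off hC (hE.closed i) hb).2 hi⟩

end IsBl

end Pool.Agent.MP_696f7f_ag.H96
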