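import Pool.Agent.MP_696f7f_ag.H96.ADefs
import Pool.Agent.MP_696f7f_ag.H96.MBlow
import Pool.Agent.MP_696f7f_ag.H96.LInv

/-! Presentations: persistence, flattening, the first step. -/

namespace Pool.Agent.MP_696f7f_ag.H96

variable {K : Type} [Field K] [Algebra ℝ K] {n : ℕ} {M M' : Model K n} {C : Set M.P}
  {E : ℕ → Set M.P} {k c d W : ℕ} {S : M.Obj}

theorem Model.Pres.cos_closed (h : M.Pres E c d S) : ZClosed (M.cos S) := by
  refine zclosed_iff.2 fun a ha => ?_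
  obtain ⟨Z, G, -, -, hev⟩ := h a
  have h0 := zn_self hev
  have h1 := Model.sp_not_cos (in_union.2 ⟨in_wt.2 h0.memZ, in_wt.2 h0.memG⟩)
    (fun hc => ha (h0.cos.2 hc))
  filter_upwards [hev, h1] with b hb hb' hc using hb' (hb.cos.1 hc)

theorem Model.WPres.cos_closed (h : M.WPres E c W S) : ZClosed (M.cos S) := by
  refine zclosed_iff.2 fun a ha => ?_
  obtain ⟨Z, H, -, -, -, hev⟩ := h a
  have h0 := zn_self hev
  have h1 := Model.sp_not_cos (in_union.2 ⟨in_wt.2 h0.memZ, h0.memH⟩)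
    (fun hc => ha (h0.cos.2 hc))
  filter_upwards [hev, h1] with b hb hb' hc using hb' (hb.cos.1 hc)

omit [Algebra ℝ K] in
theorem APres_dvs_finite {Z : Set K} (hZ : Z.Finite) (s : K) : (dvs s Z).Finite := hZ.image _

theorem PresAt.mem_m {L : Loc K} {Y : ℕ → Set K} {T : Set (K × ℕ)} {Z G : Set K}
    (h : PresAt L n c d Y T Z G) (hc : L.Cos T) : ∀ z ∈ Z, z ∈ L.m :=
  cos_wt_one.1 (cos_union.1 (h.cos.1 hc)).1

/-- the transfer data near a point of a blow-up -/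
theorem IsBl.APres_xfer (h : IsBl M C M') (hE : M.Snc k E) (hC : M.Centre E C) (a' : M'.P) :
    ∃ s, ∀ᶠ b' in zn a', Xfer (M.loc (h.π b')) (M'.loc b') n (M.Y E) (M'.Y (h.bd k E)) k
      (M.vanK C) s := by
  obtain ⟨s, hs⟩ := h.exists_gen hC.sm a'
  exact ⟨s, hs.mono fun b' hb' => h.xfer hE hC b' hb'⟩

theorem IsBl.APres_tr (h : IsBl M C M') (k : ℕ) (E : ℕ → Set M.P) (S : M.Obj) (b' : M'.P) :
    h.tr S b' = trS (M'.loc b') (M'.Y (h.bd k E) k) (S (h.π b')) := by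
  rw [h.Y_bd_self]; rfl

theorem IsBl.APres_ev (h : IsBl M C M') {a' : M'.P} {P : M.P → Prop}
    (hP : ∀ᶠ b in zn (h.π a'), P b) : ∀ᶠ b' in zn a', P (h.π b') :=
  (h.dom.tendsto_zn a').eventually hP

theorem IsBl.pres (h : IsBl M C M') (hE : M.Snc k E) (hS : M.OK S) (hC : M.Adm E S C)
    (hp : M.Pres E c d S) : M'.Pres (h.bd k E) c d (h.tr S) := by
  intro a'
  obtain ⟨Z, G, hZ, hG, hev⟩ := hp (h.π a')
  obtain ⟨s, hs⟩ := h.APres_xfer hE hC.centre a'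
  refine ⟨dvs s Z, dvs (s ^ d) G, APres_dvs_finite hZ _, APres_dvs_finite hG _, ?_⟩
  filter_upwards [h.APres_ev hev, hs] with b' hb' hx
  rw [h.APres_tr k E]
  exact (hx.presAt hb' (hS.mem _) (hS.bdd_at _) (hC.ord_all hS _)).2

theorem Model.WPres.pres (hE : M.Snc k E) (hS : M.OK S) (h : M.WPres E c W S) :
    M.Pres E c W.factorial S := by
  have _ := hS
  intro a
  obtain ⟨Z, H, hZ, hH, hW, hev⟩ := h a
  have h0 := zn_self hev
  by_cases hm : ∀ z ∈ Z, z ∈ (M.loc a).m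
  · obtain ⟨κ, σ, J, ht, -⟩ := h0.tr hm
    refine ⟨Z, flatG κ.D J H W, hZ, flatG_finite hH, ?_⟩
    filter_upwards [hev, Model.sp_tr hE.bd hZ ht, Model.sp_crd ht.adp.crd] with b hb h1 h2
    have hG : ∀ g ∈ flatG κ.D J H W, g ∈ (M.loc b).O :=
      flatG_mem (κ := κ.shift (M.loc b)) (J := J) h2 hb.memH
    have heq : (∀ z ∈ Z, z ∈ (M.loc b).m) → Eqv (M.loc b) ((M.loc b).lg (M.Y E)) (wt Z 1 ∪ H)
        (wt Z 1 ∪ wt (flatG κ.D J H W) W.factorial) := fun hz => by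
      obtain ⟨σ', ht'⟩ := (h1 hz).1
      exact flatG_eqv (κ := κ.shift (M.loc b)) ht' hb.memH hW
    refine ⟨hb.memZ, hG, ?_, hb.tr, fun hz => ?_, fun hc => ?_⟩
    · rw [hb.cos]
      by_cases hz : ∀ z ∈ Z, z ∈ (M.loc b).m
      · exact (heq hz).cos_iff h2 Loc.log_sub_empty (in_union.2 ⟨in_wt.2 hb.memZ, hb.memH⟩)
          (in_union.2 ⟨in_wt.2 hb.memZ, in_wt.2 hG⟩)
      · exact ⟨fun hc => absurd (cos_wt_one.1 (cos_union.1 hc).1) hz,
          fun hc => absurd (cos_wt_one.1 (cos_union.1 hc).1) hz⟩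
    · obtain ⟨σ', ht'⟩ := (h1 hz).1
      exact flatG_flat (κ := κ.shift (M.loc b)) ht' hb.memH hW
    · exact (hb.eqv hc).trans (heq (cos_wt_one.1 (cos_union.1 (hb.cos.1 hc)).1))
  · refine ⟨{1}, ∅, Set.finite_singleton _, Set.finite_empty, ?_⟩
    filter_upwards [hev, Model.sp_not_m h0.memZ hm] with b hb h1
    exact presAt_triv fun hc => h1 (cos_wt_one.1 (cos_union.1 (hb.cos.1 hc)).1)

theorem resAll_top (hc : n < c) : ResAll K n c := by
  intro M k E S d _ _ _ hp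
  refine Res.done (Set.eq_empty_of_forall_notMem fun b hb => ?_)
  obtain ⟨Z, G, -, -, hev⟩ := hp b
  have h0 := zn_self hev
  exact absurd (h0.tr (h0.mem_m hb)).le (not_le.2 hc)

/-- the points of the cosupport where the presentation vanishes on the subspace of contact -/
def APresT (M : Model K n) (E : ℕ → Set M.P) (c d : ℕ) (S : M.Obj) : Set M.P :=
  {b | (M.loc b).Cos (S b) ∧ ∃ Z G : Set K, PresAt (M.loc b) n c d (M.Y E) (S b) Z G ∧
    ∀ g ∈ G, g ∈ (M.loc b).span Z}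

theorem APresT_inv (hd : 0 < d) {b : M.P} (hb : b ∈ APresT M E c d S) {Z G : Set K}
    (hp : PresAt (M.loc b) n c d (M.Y E) (S b) Z G) : ∀ g ∈ G, g ∈ (M.loc b).span Z := by
  obtain ⟨hc, Z0, G0, hp0, h0⟩ := hb
  exact (inv_zero (hp0.tr (hp0.mem_m hc)) (hp.tr (hp.mem_m hc)) hp.memG hd
    (hp0.flat (hp0.mem_m hc)) ((hp0.eqv hc).symm.trans (hp.eqv hc)).1 h0).2

theorem APresT_span (hd : 0 < d) {a : M.P} (ha : a ∈ APresT M E c d S) {Z G : Set K}
    (hZ : Z.Finite) (hG : G.Finite)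
    (hev : ∀ᶠ b in zn a, PresAt (M.loc b) n c d (M.Y E) (S b) Z G) :
    (M.loc a).span (M.vanK (APresT M E c d S)) = (M.loc a).span Z := by
  have h0 := zn_self hev
  have h1 : ∀ᶠ b in zn a, ∀ g ∈ G, g ∈ (M.loc b).span Z :=
    (Filter.eventually_all_finite hG).2 fun g hg => Model.sp_span (APresT_inv hd ha h0 g hg)
  refine Model.span_vanK_eq hZ (h0.tr (h0.mem_m ha.1)).sncAt.smAt ?_
  filter_upwards [hev, h1] with b hb hb'
  refine ⟨fun h => hb.mem_m h.1, fun hz => ⟨hb.cos.2 (cos_union.2 ⟨cos_wt_one.2 hz, ?_⟩),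
    Z, G, hb, hb'⟩⟩
  exact flat_cos (hb.tr hz) (in_wt.2 hb.memG) (hb.flat hz)
    fun p hp => Submodule.mem_sup_left (hb' _ hp.1)

theorem APresT_closed (hd : 0 < d) (hp : M.Pres E c d S) : ZClosed (APresT M E c d S) := by
  refine zclosed_iff.2 fun a ha => ?_
  by_cases hc : a ∈ M.cos S
  · obtain ⟨Z, G, hZ, -, hev⟩ := hp a
    have h0 := zn_self hev
    have h1 : ∃ g ∈ G, g ∉ (M.loc a).span Z := by
      by_contra h1
      push Not at h1
      exact ha ⟨hc, Z, G, h0, h1⟩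
    obtain ⟨g, hg, hg'⟩ := h1
    filter_upwards [hev, Model.sp_notMem hZ (h0.tr (h0.mem_m hc)).sncAt.smAt (h0.memG g hg) hg']
      with b hb hb' hT using hb' (hb.mem_m hT.1) (APresT_inv hd hT hb g hg)
  · filter_upwards [zclosed_iff.1 hp.cos_closed a hc] with b hb hT using hb hT.1

theorem APresT_adm (hc : 0 < c) (hd : 0 < d) (hS : M.OK S) (hp : M.Pres E c d S) :
    M.Adm E S (APresT M E c d S) := by
  have hcl := APresT_closed hd hp
  refine ⟨⟨hcl, hcl.van_ne_bot fun hu => ?_, fun b hb => ?_⟩, fun b hb => ?_⟩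
  · obtain ⟨a⟩ := M.ne
    have ha : a ∈ APresT M E c d S := hu ▸ Set.mem_univ a
    obtain ⟨Z, G, hZ, hG, hev⟩ := hp a
    have h0 := zn_self hev
    have h1 := APresT_span hd ha hZ hG hev
    obtain ⟨κ, σ, J, ht, hJ⟩ := h0.tr (h0.mem_m ha.1)
    obtain ⟨j, hj⟩ := Finset.card_pos.1 (hJ ▸ hc)
    have h2 : κ.x j ∈ (M.loc a).span (M.vanK (APresT M E c d S)) := by
      rw [h1, ht.span]; exact ht.adp.crd.x_mem_I.2 hj
    have h3 : (M.loc a).span (M.vanK (APresT M E c d S)) ≤ ⊥ := by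
      refine Loc.span_le.2 ?_
      rintro f ⟨f', hf', rfl⟩
      rw [hu, Model.van_univ] at hf'
      have : f' = 0 := hf'
      simp [this]
    exact ht.adp.crd.x_ne_zero j (by simpa using h3 h2)
  · obtain ⟨Z, G, hZ, hG, hev⟩ := hp b
    have h0 := zn_self hev
    exact (h0.tr (h0.mem_m hb.1)).sncAt.congr (fun i => Or.inl rfl) (APresT_span hd hb hZ hG hev)
  · obtain ⟨Z, G, hZ, hG, hev⟩ := hp b
    have h0 := zn_self hev
    have h1 := APresT_span hd hb hZ hG hev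
    have hm := h0.mem_m hb.1
    obtain ⟨κ, σ, J, ht, -⟩ := h0.tr hm
    have h2 := h1.trans ht.span
    refine ord_of_le ht.adp.crd h2 Loc.log_sub_empty (hS.mem b) (h0.eqv hb.1).2
      (ord_union.2 ⟨ord_wt_one.2 fun z hz => h1 ▸ Loc.subset_span hz, fun p hp' => ?_⟩)
    rw [h2]
    exact flat_ord ht (Finset.Subset.refl J) (in_wt.2 h0.memG) (h0.flat hm)
      (fun q hq => Submodule.mem_sup_left (APresT_inv hd hb h0 _ hq.1)) p hp'

theorem resAll_of_resNZ (hc : 0 < c) (h : ResNZ K n c) : ResAll K n c := by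
  intro M k E S d hE hS hd hp
  have hA := APresT_adm hc hd hS hp
  obtain ⟨M', hb⟩ := exists_bl hA.centre.sm hA.centre.ne
  refine Res.step _ M' hb hA (h M' (k + 1) _ _ d (hb.snc hE hA.centre) (hb.ok hE hS hA) hd ?_)
  intro a'
  obtain ⟨Z, G, hZ, hG, hev⟩ := hp (hb.π a')
  obtain ⟨s, hs⟩ := hb.APres_xfer hE hA.centre a'
  refine ⟨dvs s Z, dvs (s ^ d) G, APres_dvs_finite hZ _, APres_dvs_finite hG _, ?_⟩
  filter_upwards [hb.APres_ev (zn_zn hev), hs] with b' hb' hx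
  have h0 := zn_self hb'
  have ho := hA.ord_all hS (hb.π b')
  rw [hb.APres_tr k E]
  have h1 := (hx.presAt h0 (hS.mem _) (hS.bdd_at _) ho).2
  refine ⟨h1, fun hc' => ?_⟩
  have hcos := hx.cos_trS ho hc'
  by_cases hT : hb.π b' ∈ APresT M E c d S
  · exfalso
    have h2 := (Loc.span_eq_lift hx.le (APresT_span hd hT hZ hG hb')).symm.trans hx.gen
    have h3 : (1 : K) ∈ (M'.loc b').span (dvs s Z) := by
      rw [LBlow_mem_span_dvs hx.ne, one_mul, h2]
      exact Loc.subset_span rfl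
    exact Loc.one_notMem_m (Loc.span_le.2 (h1.mem_m hc') h3)
  · have h2 : ∃ g ∈ G, g ∉ (M.loc (hb.π b')).span Z := by
      by_contra h2
      push Not at h2
      exact hT ⟨hcos, Z, G, h0, h2⟩
    obtain ⟨g, hg, hg'⟩ := h2
    have h3 := hb.loc_off hA.centre.closed hT
    have h4 : (M'.loc b').span {s} = 1 := by
      rw [← hx.gen, h3]
      exact (Model.span_vanK_eq_one hA.centre.closed).2 hT
    refine ⟨g / s ^ d, ⟨g, hg, rfl⟩, fun h5 => hg' ?_⟩
    rw [LBlow_span_dvs_unit h4] at h5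
    have h6 := Loc.mul_mem_right (pow_mem hx.mem d) h5
    rw [div_mul_cancel₀ _ (pow_ne_zero _ hx.ne), h3] at h6
    exact h6

theorem Model.PresNZ.exists_rb (hE : M.Snc k E) (h : M.PresNZ E c d S) :
    ∃ e, M.RB k E c d S e := by
  classical
  have hp : M.Pres E c d S := fun a => by
    obtain ⟨Z, G, hZ, hG, hev⟩ := h a
    exact ⟨Z, G, hZ, hG, hev.mono fun b hb => hb.1⟩
  have key : ∀ a, ∃ (e : ℕ) (Z G : Set K), Z.Finite ∧ G.Finite ∧
      ∀ᶠ b in zn a, PresAt (M.loc b) n c d (M.Y E) (S b) Z G ∧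
        ((M.loc b).Cos (S b) → ∃ g ∈ G, g ∉ (M.loc b).span Z ⊔ (M.loc b).m ^ e) := by
    intro a
    obtain ⟨Z, G, hZ, hG, hev⟩ := h a
    have h0 := zn_self hev
    by_cases hc : a ∈ M.cos S
    · obtain ⟨g, hg, hg'⟩ := h0.2 hc
      have h1 : ∃ e, g ∉ (M.loc a).span Z ⊔ (M.loc a).m ^ e := by
        by_contra h1
        push Not at h1
        exact hg' (Loc.krull (Loc.span_le_one h0.1.memZ) h1)
      obtain ⟨e, he⟩ := h1
      refine ⟨e, Z, G, hZ, hG, ?_⟩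
      filter_upwards [hev, Model.sp_notMem_sup hZ (h0.1.tr (h0.1.mem_m hc)).sncAt.smAt
        (h0.1.memG g hg) he] with b hb hb'
      exact ⟨hb.1, fun hcb => ⟨g, hg, hb' (hb.1.mem_m hcb)⟩⟩
    · refine ⟨0, Z, G, hZ, hG, ?_⟩
      filter_upwards [hev, zclosed_iff.1 hp.cos_closed a hc] with b hb hb'
      exact ⟨hb.1, fun hcb => absurd hcb hb'⟩
  choose e Z G hZ hG hev using key
  obtain ⟨t, -, ht⟩ := exists_finset_cover (Set.univ : Set M.P) _ fun a _ => zn_zn (hev a)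
  refine ⟨t.sup e, fun b => ?_⟩
  obtain ⟨a, ha, hb⟩ := ht b (Set.mem_univ b)
  refine ⟨Z a, G a, 1, 1, id, hZ a, hG a, hb.mono fun x hx => ⟨hx.1, fun hc => ?_⟩⟩
  obtain ⟨κ, σ, hκ⟩ := hE.adp x
  obtain ⟨g, hg, hg'⟩ := hx.2 hc
  refine ⟨⟨Mon.one (hκ.gen k), Mon.one (hκ.gen k), hx.1.memG, fun g _ => by simp⟩, g, hg,
    fun h1 => hg' ?_⟩
  have h2 : (M.loc x).span (Z a) ⊔ (M.loc x).m ^ t.sup e ≤
      (M.loc x).span (Z a) ⊔ (M.loc x).m ^ e a :=
    sup_le_sup_left (Loc.pow_anti Loc.m_le_one (Finset.le_sup (f := e) ha)) _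
  exact h2 h1

theorem resLt_zero : ResLt K n c d 0 := by
  intro M k E S _ _ hr
  refine Res.done (Set.eq_empty_of_forall_notMem fun b hb => ?_)
  obtain ⟨Z, G, M1, M2, r, -, -, hev⟩ := hr b
  obtain ⟨hl, g, hg, hg'⟩ := (zn_self hev).2 hb
  rw [pow_zero] at hg'
  exact hg' (Submodule.mem_sup_right (Loc.mem_one.2 (hl.mem g hg)))

end Pool.Agent.MP_696f7f_ag.H96
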