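import Pool.Agent.MP_696f7f_ag.H96.APres

/-! Separating the cosupport from the old boundary. -/

namespace Pool.Agent.MP_696f7f_ag.H96

variable {K : Type} [Field K] [Algebra ℝ K] {n : ℕ}

namespace AStep1

theorem snc_from {M : Model K n} {k : ℕ} {E : ℕ → Set M.P} (k0 : ℕ) (hE : M.Snc k E) :
    M.Snc k (fromIdx k0 E) :=
  hE.drop fun i => by
    unfold fromIdx
    split_ifs
    · exact Or.inl rfl
    · exact Or.inr rfl

theorem bd_from {M M' : Model K n} {C : Set M.P} (h : IsBl M C M') {k k0 : ℕ} (hk : k0 ≤ k)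
    (E : ℕ → Set M.P) : h.bd k (fromIdx k0 E) = fromIdx k0 (h.bd k E) := by
  funext i
  unfold IsBl.bd fromIdx
  by_cases hi : i = k
  · subst hi
    simp [hk]
  · by_cases h0 : k0 ≤ i
    · simp [hi, h0]
    · simp [hi, h0, h.st_empty]

theorem mem_U {M : Model K n} {E : ℕ → Set M.P} {Λ : Finset ℕ} (b : M.P) :
    ∀ f ∈ ⋃ i ∈ Λ, M.Y E i, f ∈ (M.loc b).O := by
  intro f hf
  simp only [Set.mem_iUnion] at hf
  obtain ⟨i, _, hf⟩ := hf
  exact M.le_loc b (Model.vanK_mem hf)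

theorem ok_union {M : Model K n} {E : ℕ → Set M.P} {Λ : Finset ℕ} {S : M.Obj} (hS : M.OK S)
    {T : M.P → Set K}
    (hT : ∀ b, (M.loc b).span (T b) = (M.loc b).span (⋃ i ∈ Λ, M.Y E i)) :
    M.OK (fun b => S b ∪ wt (T b) 1) := by
  refine ⟨fun b => in_union.mpr ⟨hS.mem b, in_wt.mpr fun z hz => ?_⟩, ?_⟩
  · have h1 : z ∈ (M.loc b).span (T b) := Loc.subset_span hz
    rw [hT b] at h1
    exact Loc.mem_O_of_le (Loc.span_le_one (mem_U b)) h1
  · obtain ⟨W, hW⟩ := hS.bdd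
    refine ⟨max W 1, fun b p hp => ?_⟩
    rcases hp with hp | hp
    · exact (hW b p hp).trans (le_max_left _ _)
    · exact hp.2.le.trans (le_max_right _ _)

theorem cos_T {M : Model K n} {k : ℕ} {E : ℕ → Set M.P} {Λ : Finset ℕ} (hE : M.Snc k E)
    {b : M.P} {T : Set K} (hT : (M.loc b).span T = (M.loc b).span (⋃ i ∈ Λ, M.Y E i)) :
    (M.loc b).Cos (wt T 1) ↔ b ∈ strat E Λ := by
  rw [cos_wt_one, ← Loc.span_le, hT, Loc.span_le]
  constructor
  · intro h i hi
    by_contra hb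
    have h1 := (hE.span_eq_one i).mpr hb
    have h2 : (M.loc b).span (M.Y E i) ≤ (M.loc b).m :=
      Loc.span_le.mpr fun f hf => h f (Set.mem_biUnion hi hf)
    rw [h1] at h2
    exact Loc.m_ne_one (le_antisymm Loc.m_le_one h2)
  · intro h f hf
    simp only [Set.mem_iUnion] at hf
    obtain ⟨i, hi, hf⟩ := hf
    exact Model.span_vanK_le_m (h i hi) (Loc.subset_span hf)

theorem inner {c d k0 : ℕ} (Λ : Finset ℕ) (hΛ : ∀ i ∈ Λ, i < k0) (FF : Finset (Finset ℕ))
    (IH : ∀ (M : Model K n) (k : ℕ) (E : ℕ → Set M.P) (S : M.Obj), M.Snc k E → M.OK S → k0 ≤ k →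
      M.Pres (fromIdx k0 E) c d S →
      (∀ Λ' : Finset ℕ, (∀ i ∈ Λ', i < k0) → (M.cos S ∩ strat E Λ').Nonempty →
        Λ' ∈ FF.erase Λ) → Res M k E S)
    {M : Model K n} {k : ℕ} {F : ℕ → Set M.P} {S1 : M.Obj} (hr : Res M k F S1) :
    ∀ (E : ℕ → Set M.P) (S : M.Obj) (T : M.P → Set K), F = fromIdx k0 E →
      S1 = (fun b => S b ∪ wt (T b) 1) →
      (∀ b, (M.loc b).span (T b) = (M.loc b).span (⋃ i ∈ Λ, M.Y E i)) →
      M.Snc k E → M.OK S → k0 ≤ k → M.Pres (fromIdx k0 E) c d S →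
      (∀ Λ' : Finset ℕ, (∀ i ∈ Λ', i < k0) → (M.cos S ∩ strat E Λ').Nonempty → Λ' ∈ FF) →
      (∀ i < k0, i ∉ Λ → ¬ (M.cos S ∩ strat E (insert i Λ)).Nonempty) → Res M k E S := by
  induction hr with
  | @done M k F S1 h0 =>
    intro E S T hF hS1 hT hE hS hk hp hFF _
    refine IH M k E S hE hS hk hp fun Λ' h1 h2 => Finset.mem_erase.mpr ⟨?_, hFF Λ' h1 h2⟩
    rintro rfl
    obtain ⟨b, hb, hb'⟩ := h2
    have : b ∈ M.cos S1 := by
      subst hS1
      exact cos_union.mpr ⟨hb, (cos_T hE (hT b)).mpr hb'⟩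
    rw [h0] at this
    exact this
  | @step M k F S1 C M' h hC _ ih =>
    intro E S T hF hS1 hT hE hS hk hp hFF hmax
    subst hF hS1
    have hok := ok_union hS hT
    have hord : ∀ b, ∀ i ∈ Λ, ∀ y ∈ M.Y E i, y ∈ (M.loc b).span (M.vanK C) := by
      intro b i hi y hy
      have h1 := ord_wt_one.mp (ord_union.mp (hC.ord_all hok b)).2
      have h2 : y ∈ (M.loc b).span (T b) := by
        rw [hT b]
        exact Loc.subset_span (Set.mem_biUnion hi hy)
      exact Loc.span_le.mpr h1 h2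
    have hcen : M.Centre E C := by
      refine ⟨hC.centre.closed, hC.centre.ne, fun b hb => ?_⟩
      refine sncAt_of_sub (hE.adp b) (hC.centre.snc b hb) fun i => ?_
      by_cases hi : k0 ≤ i
      · left
        simp [Model.Y, fromIdx, hi]
      · right
        refine ⟨by simpa [Model.Y, fromIdx, hi] using Model.span_vanK_empty, ?_⟩
        by_cases hbi : b ∈ E i
        · right
          have hcos := cos_union.mp (hC.subset_cos hb)
          by_cases hiΛ : i ∈ Λ
          · exact hord b i hiΛ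
          · refine absurd ⟨b, hcos.1, fun j hj => ?_⟩ (hmax i (not_le.mp hi) hiΛ)
            rcases Finset.mem_insert.mp hj with rfl | hj
            · exact hbi
            · exact (cos_T hE (hT b)).mp hcos.2 j hj
        · exact Or.inl ((hE.span_eq_one i).mpr hbi)
    have hadm : M.Adm E S C :=
      ⟨hcen, fun b hb => (hC.ord b hb).subset Set.subset_union_left⟩
    have hadm' : M.Adm (fromIdx k0 E) S C :=
      ⟨hC.centre, fun b hb => (hC.ord b hb).subset Set.subset_union_left⟩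
    have hex : ∀ b' : M'.P, ∃ T' : Set K,
        trS (M'.loc b') (M'.vanK (h.π ⁻¹' C)) (wt (T (h.π b')) 1) = wt T' 1 ∧
          (M'.loc b').span T' = (M'.loc b').span (⋃ i ∈ Λ, M'.Y (h.bd k E) i) := by
      intro b'
      obtain ⟨s, hs⟩ := h.exists_gen hcen.sm b'
      have hs := zn_self hs
      have hx := h.xfer hE hcen b' hs
      obtain ⟨T', h1, h2⟩ := trS_wt_one (Z := T (h.π b')) hs
      refine ⟨T', h1, ?_⟩
      have h3 : ∀ i ∈ Λ, (M'.loc b').span (M'.Y (h.bd k E) i) =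
          (M'.loc b').span (dvs s (M.Y E i)) := fun i hi =>
        hx.bd1 i (by have := hΛ i hi; omega) (hord _ i hi)
      rw [h2, LBlow_span_dvs_congr hx.ne (Loc.span_eq_lift hx.le (hT _)) rfl]
      refine le_antisymm (Loc.span_le.mpr ?_) (Loc.span_le.mpr ?_)
      · rintro _ ⟨y, hy, rfl⟩
        simp only [Set.mem_iUnion] at hy
        obtain ⟨i, hi, hy⟩ := hy
        refine Loc.span_mono (Set.subset_biUnion_of_mem (u := fun i => M'.Y (h.bd k E) i) hi) ?_
        rw [h3 i hi]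
        exact Loc.subset_span ⟨y, hy, rfl⟩
      · intro f hf
        simp only [Set.mem_iUnion] at hf
        obtain ⟨i, hi, hf⟩ := hf
        have h4 : f ∈ (M'.loc b').span (dvs s (M.Y E i)) := h3 i hi ▸ Loc.subset_span hf
        refine Loc.span_mono (Set.image_mono ?_) h4
        exact Set.subset_biUnion_of_mem (u := fun i => M.Y E i) hi
    choose T' hT1 hT2 using hex
    have hdown : ∀ Λ' : Finset ℕ, (∀ i ∈ Λ', i < k0) →
        (M'.cos (h.tr S) ∩ strat (h.bd k E) Λ').Nonempty → (M.cos S ∩ strat E Λ').Nonempty := by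
      rintro Λ' h1 ⟨b', hb, hb'⟩
      exact ⟨h.π b', h.cos_tr hE hS hadm hb, fun i hi =>
        h.bd_lt hE (by have := h1 i hi; omega) (hb' i hi)⟩
    refine Res.step C M' h hadm (ih (h.bd k E) (h.tr S) T' (bd_from h hk E) ?_ hT2
      (h.snc hE hcen) (h.ok hE hS hadm) (by omega) ?_
      (fun Λ' h1 h2 => hFF Λ' h1 (hdown Λ' h1 h2)) fun i hi hi' h2 => hmax i hi hi' ?_)
    · funext b'
      unfold IsBl.tr
      rw [trS_union, hT1]
    · rw [← bd_from h hk E]
      exact h.pres (snc_from k0 hE) hS hadm' hp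
    · refine hdown _ (fun j hj => ?_) h2
      rcases Finset.mem_insert.mp hj with rfl | hj
      · exact hi
      · exact hΛ j hj

theorem wpres {M : Model K n} {k c d : ℕ} {E F : ℕ → Set M.P} {S : M.Obj} (hE : M.Snc k E)
    (hd : 0 < d) (hp : M.Pres F c d S) (Λ : Finset ℕ) :
    M.WPres F c d (fun b => S b ∪ wt (⋃ i ∈ Λ, M.Y E i) 1) := by
  intro a
  obtain ⟨Z, G, hZ, hG, hb⟩ := hp a
  choose T hT1 hT2 hT3 using fun i => Model.exists_fin_vanK (M := M) (E i)
  have hsp : ∀ b, (M.loc b).span (⋃ i ∈ Λ, T i) = (M.loc b).span (⋃ i ∈ Λ, M.Y E i) := by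
    intro b
    refine le_antisymm (Loc.span_mono (Set.iUnion₂_mono fun i _ => hT2 i)) (Loc.span_le.mpr ?_)
    intro f hf
    simp only [Set.mem_iUnion] at hf
    obtain ⟨i, hi, hf⟩ := hf
    refine Loc.span_mono (Set.subset_biUnion_of_mem (u := T) hi) ?_
    rw [hT3 i _ (M.le_loc b)]
    exact Loc.subset_span hf
  refine ⟨Z, wt G d ∪ wt (⋃ i ∈ Λ, T i) 1, hZ,
    (wt_finite hG).union (wt_finite (Λ.finite_toSet.biUnion fun i _ => hT1 i)), ?_,
    hb.mono fun b hb => ?_⟩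
  · rintro p (hp | hp)
    · exact hp.2.le
    · exact hp.2.le.trans hd
  · refine ⟨hb.memZ, in_union.mpr ⟨in_wt.mpr hb.memG, in_wt.mpr fun z hz => ?_⟩, ?_, hb.tr,
      fun hc => ?_⟩
    · exact mem_U b z (Set.iUnion₂_mono (fun i _ => hT2 i) hz)
    · rw [← Set.union_assoc, cos_union, cos_union (T := wt (⋃ i ∈ Λ, T i) 1), hb.cos,
        cos_T hE (hsp b), cos_T hE rfl]
    · rw [← Set.union_assoc]
      exact (hb.eqv (cos_union.mp hc).1).union
        (eqv_wt_of_span_eq Loc.log_sub_empty (mem_U b) (hsp b).symm)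

theorem outer {c d k0 : ℕ} (h : ResAll K n c) (hd : 0 < d) (N : ℕ) :
    ∀ FF : Finset (Finset ℕ), FF.card ≤ N →
      ∀ (M : Model K n) (k : ℕ) (E : ℕ → Set M.P) (S : M.Obj), M.Snc k E → M.OK S → k0 ≤ k →
      M.Pres (fromIdx k0 E) c d S →
      (∀ Λ' : Finset ℕ, (∀ i ∈ Λ', i < k0) → (M.cos S ∩ strat E Λ').Nonempty → Λ' ∈ FF) →
        Res M k E S := by
  classical
  induction N with
  | zero =>
    intro FF hc M k E S _ _ _ _ hFF
    refine Res.done (Set.eq_empty_of_forall_notMem fun b hb => ?_)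
    have h1 := hFF ∅ (by simp) ⟨b, hb, fun i hi => by simp at hi⟩
    rw [Finset.card_eq_zero.mp (Nat.le_zero.mp hc)] at h1
    simp at h1
  | succ N ih =>
    intro FF hc M k E S hE hS hk hp hFF
    by_cases h0 : M.cos S = ∅
    · exact Res.done h0
    obtain ⟨b0, hb0⟩ := Set.nonempty_iff_ne_empty.mpr h0
    obtain ⟨Λ, hΛ, hmax⟩ := Finset.exists_max_image
      ((Finset.range k0).powerset.filter fun Λ' => (M.cos S ∩ strat E Λ').Nonempty)
      Finset.card ⟨∅, Finset.mem_filter.mpr ⟨by simp, b0, hb0, fun i hi => by simp at hi⟩⟩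
    obtain ⟨hΛ1, hΛ2⟩ := Finset.mem_filter.mp hΛ
    have hΛ0 : ∀ i ∈ Λ, i < k0 := fun i hi =>
      Finset.mem_range.mp (Finset.mem_powerset.mp hΛ1 hi)
    have hok : M.OK (fun b => S b ∪ wt (⋃ i ∈ Λ, M.Y E i) 1) :=
      ok_union (E := E) (Λ := Λ) hS fun _ => rfl
    have hr := h M k (fromIdx k0 E) _ d.factorial (snc_from k0 hE) hok d.factorial_pos
      ((wpres hE hd hp Λ).pres (snc_from k0 hE) hok)
    refine inner Λ hΛ0 FF (ih (FF.erase Λ) ?_) hr E S (fun _ => ⋃ i ∈ Λ, M.Y E i) rfl rfl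
      (fun _ => rfl) hE hS hk hp hFF fun i hi hi' hne => ?_
    · rw [Finset.card_erase_of_mem (hFF Λ hΛ0 hΛ2)]
      omega
    · have h1 := hmax (insert i Λ) (Finset.mem_filter.mpr ⟨Finset.mem_powerset.mpr
        (Finset.insert_subset (Finset.mem_range.mpr hi) (Finset.mem_powerset.mp hΛ1)), hne⟩)
      rw [Finset.card_insert_of_notMem hi'] at h1
      omega

end AStep1

theorem res_of_fromIdx {c : ℕ} (h : ResAll K n c) (M : Model K n) (k k0 : ℕ) (E : ℕ → Set M.P)
    (S : M.Obj) (d : ℕ) (hE : M.Snc k E) (hS : M.OK S) (hd : 0 < d) (hk : k0 ≤ k)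
    (hp : M.Pres (fromIdx k0 E) c d S) : Res M k E S :=
  AStep1.outer h hd _ (Finset.range k0).powerset le_rfl M k E S hE hS hk hp fun _ h1 _ =>
    Finset.mem_powerset.mpr fun i hi => Finset.mem_range.mpr (h1 i hi)

end Pool.Agent.MP_696f7f_ag.H96
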