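import Pool.Agent.MP_696f7f_ag.H96.MTop

/-! Consequences of principalisation: normal crossings, elimination of indeterminacy. -/

namespace Pool.Agent.MP_696f7f_ag.H96

variable {K : Type} [Field K] [Algebra ℝ K] {n : ℕ}

theorem BTower_ok (M : Model K n) {G : Set K} (hG : ∀ g ∈ G, g ∈ M.B) :
    M.OK (fun _ => wt G 1) :=
  ⟨fun b _ hp => M.le_loc b (hG _ hp.1), 1, fun _ _ hp => hp.2.le⟩

theorem BTower_snc (Inv : (M' : Model K n) → Set M'.P → Prop)
    (hstep : ∀ (M1 M2 : Model K n) (F1 C : Set M1.P) (k : ℕ) (E : ℕ → Set M1.P)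
      (h : IsBl M1 C M2), M1.Snc k E → M1.Centre E C → ZClosed F1 → van F1 ≠ ⊥ → C ⊆ F1 →
      Inv M1 F1 → Inv M2 (h.π ⁻¹' F1))
    {M : Model K n} {k : ℕ} {E : ℕ → Set M.P} {S : M.Obj} (hr : Res M k E S) :
    ∀ F : Set M.P, M.Snc k E → M.OK S → ZClosed F → van F ≠ ⊥ → (⋃ i, E i) ⊆ F →
      M.cos S ⊆ F → (∀ b ∈ F, b ∉ (⋃ i, E i) → b ∈ M.cos S) → Inv M F →
      ∃ (M' : Model K n) (k : ℕ) (E : ℕ → Set M'.P), M'.Snc k E ∧ Inv M' (⋃ i, E i) := by
  induction hr with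
  | @done M k E S h0 =>
    intro F hE _ _ _ h1 _ h3 hI
    refine ⟨M, k, E, hE, ?_⟩
    have e : (⋃ i, E i) = F := by
      refine h1.antisymm fun b hb => ?_
      by_contra hn
      have := h3 b hb hn
      rw [h0] at this
      exact this
    rw [e]
    exact hI
  | @step M k E S C M' h hC _ ih =>
    intro F hE hS hF hne h1 h2 h3 hI
    have hCF : C ⊆ F := hC.subset_cos.trans h2
    have e := h.iUnion_bd hE hC.centre.closed
    refine ih (h.π ⁻¹' F) (h.snc hE hC.centre) (h.ok hE hS hC) (h.dom.zclosed hF)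
      (h.dom.van_ne_bot hne) ?_ ?_ ?_ (hstep M M' F C k E h hE hC.centre hF hne hCF hI)
    · rw [e]
      exact Set.preimage_mono (Set.union_subset hCF h1)
    · exact (h.cos_tr hE hS hC).trans (Set.preimage_mono h2)
    · intro b' hb hn
      rw [e] at hn
      exact (h.cos_tr_off hC.centre.closed fun hc => hn (Or.inl hc)).mpr
        (h3 _ hb fun hc => hn (Or.inr hc))

/-- a proper closed set becomes a normal crossings divisor after blow-ups over it -/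
theorem sncify (hP : PrincStmt) (M : Model K n) {F : Set M.P} (hF : ZClosed F) (hne : van F ≠ ⊥)
    (Inv : (M' : Model K n) → Set M'.P → Prop) (h0 : Inv M F)
    (hstep : ∀ (M1 M2 : Model K n) (F1 C : Set M1.P) (k : ℕ) (E : ℕ → Set M1.P)
      (h : IsBl M1 C M2), M1.Snc k E → M1.Centre E C → ZClosed F1 → van F1 ≠ ⊥ → C ⊆ F1 →
      Inv M1 F1 → Inv M2 (h.π ⁻¹' F1)) :
    ∃ (M' : Model K n) (k : ℕ) (E : ℕ → Set M'.P), M'.Snc k E ∧ Inv M' (⋃ i, E i) := by
  obtain ⟨f, -, hf⟩ := hF.exists_eq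
  have hf0 : (f : K) ≠ 0 := by
    intro h0
    obtain ⟨b, hb⟩ := Model.exists_notMem hne
    have : f = 0 := Subtype.ext h0
    rw [hf, this] at hb
    exact hb (map_zero b)
  have hG : ∀ g ∈ ({(f : K)} : Set K), g ∈ M.B := by
    rintro _ rfl
    exact f.2
  have hcos : M.cos (fun _ => wt {(f : K)} 1) = F := by
    rw [hf]
    ext b
    constructor
    · intro hb
      have := hb ((f : K), 1) ⟨rfl, rfl⟩
      rw [pow_one] at this
      exact (M.loc_ev b f).symm.trans this.2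
    · rintro hb ⟨g, w⟩ ⟨hg, hw⟩
      obtain rfl : g = f := hg
      obtain rfl : w = 1 := hw
      rw [pow_one]
      exact ⟨M.le_loc b f.2, (M.loc_ev b f).trans hb⟩
  refine BTower_snc Inv hstep
    (hP K n M 0 (fun _ => ∅) {(f : K)} (Model.snc_empty 0) (Set.finite_singleton _) hG
      ⟨f, rfl, hf0⟩) F (Model.snc_empty 0) (BTower_ok M hG) hF hne (by simp) hcos.le
    (fun b hb _ => hcos.ge hb) h0

variable {T : CohF} {QI : (P' P : Pr) → (P'.X → P.X) → Prop}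

/-- the object is the set `G` divided by a common factor -/
def BTowerDiv (L : Loc K) (G : Set K) (S : Set (K × ℕ)) : Prop :=
  ∃ μ : K, μ ≠ 0 ∧ (∀ p ∈ S, p.2 = 1 ∧ ∃ g ∈ G, ∃ u ∈ L.O, p.1 * μ = u * g) ∧
    ∀ g ∈ G, (g / μ, 1) ∈ S

theorem BTower_indet (hT : T.IsCoh) (hQ : IsQI T QI) (M0 : Model K n) {k0 : ℕ}
    {E0 : ℕ → Set M0.P} (hE0 : M0.Snc k0 E0) (G : Set K)
    {M : Model K n} {k : ℕ} {E : ℕ → Set M.P} {S : M.Obj} (hr : Res M k E S) :
    ∀ (hE : M.Snc k E) (hd : Dom M M0), M.OK S → QI (M.pr hE) (M0.pr hE0) hd.map →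
      Ident M0 (⋃ i, E0 i) M (⋃ i, E i) → M.cos S ⊆ (⋃ i, E i) →
      (∀ b, BTowerDiv (M.loc b) G (S b)) →
      ∃ (M' : Model K n) (k' : ℕ) (E' : ℕ → Set M'.P) (hE' : M'.Snc k' E') (hd : Dom M' M0),
        QI (M'.pr hE') (M0.pr hE0) hd.map ∧ Ident M0 (⋃ i, E0 i) M' (⋃ i, E' i) ∧
          ∀ b, ∃ g ∈ G, g ≠ 0 ∧ ∀ g' ∈ G, g' / g ∈ (M'.loc b).O := by
  induction hr with
  | @done M k E S h0 =>
    intro hE hd hS hq hi _ hD
    refine ⟨M, k, E, hE, hd, hq, hi, fun b => ?_⟩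
    obtain ⟨μ, hμ, h1, h2⟩ := hD b
    have hb : b ∉ M.cos S := by rw [h0]; exact Set.notMem_empty b
    have hb' : ¬ ∀ p ∈ S b, p.1 ∈ (M.loc b).m ^ p.2 := hb
    push Not at hb'
    obtain ⟨p, hp, hpm⟩ := hb'
    obtain ⟨hw, g, hg, u, hu, e⟩ := h1 p hp
    rw [hw, pow_one] at hpm
    have hO : ∀ g' ∈ G, g' / μ ∈ (M.loc b).O := fun g' hg' => hS.mem b _ (h2 g' hg')
    have e' : p.1 = u * (g / μ) := by field_simp; exact e
    have hev : (M.loc b).ev (g / μ) ≠ 0 := by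
      intro h
      refine hpm ⟨hS.mem b p hp, ?_⟩
      rw [e', (M.loc b).ev_mul u hu _ (hO g hg), h, mul_zero]
    have hg0 : g ≠ 0 := by
      rintro rfl
      exact Loc.ne_zero_of_ev hev (zero_div μ)
    refine ⟨g, hg, hg0, fun g' hg' => ?_⟩
    have := Loc.div_mem (hO g' hg') (hO g hg) hev
    rwa [div_div_div_cancel_right₀ hμ] at this
  | @step M k E S C M' h hC _ ih =>
    intro hE hd hS hq hi hc hD
    have hCE : C ⊆ ⋃ i, E i := hC.subset_cos.trans hc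
    have e : ⋃ i, h.bd k E i = h.π ⁻¹' (⋃ i, E i) := by
      rw [h.iUnion_bd hE hC.centre.closed, Set.union_eq_right.mpr hCE]
    refine ih (h.snc hE hC.centre) (h.dom.trans hd) (h.ok hE hS hC) ?_ ?_ ?_ ?_
    · have := hQ.comp _ _ _ _ _ hq (hQ.blow _ _ _ _ (h.blowPr hT hE hC.centre hCE))
      rw [← Dom.map_comp h.dom hd (h.dom.trans hd)]
      exact this
    · rw [e]
      exact hi.trans (h.ident hC.centre.closed hCE)
    · rw [e]
      exact (h.cos_tr hE hS hC).trans (Set.preimage_mono hc)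
    · intro b'
      obtain ⟨μ, hμ, h1, h2⟩ := hD (h.π b')
      obtain ⟨s, hs⟩ := h.exists_gen hC.centre.sm b'
      have hs := zn_self hs
      have hx := h.xfer hE hC.centre b' hs
      refine ⟨μ * s, mul_ne_zero hμ hx.ne, ?_, fun g hg => ⟨s, hs, _, h2 g hg, ?_⟩⟩
      · rintro _ ⟨t, ht, p, hp, rfl⟩
        obtain ⟨hw, g, hg, u, hu, e⟩ := h1 p hp
        obtain ⟨v, hv, -, hvs⟩ := Loc.span_singleton_eq_iff.mp (ht.trans hs.symm)
        have ht0 : t ≠ 0 := by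
          rintro rfl
          exact hx.ne (by rw [hvs, mul_zero])
        refine ⟨hw, g, hg, v * u, mul_mem hv (hx.le hu), ?_⟩
        change p.1 / t ^ p.2 * (μ * s) = v * u * g
        rw [hw, pow_one, hvs, mul_assoc v u g, ← e]
        field_simp
      · simp only [pow_one, div_div]

/-- elimination of indeterminacy by blow-ups inside the boundary -/
theorem indet (hP : PrincStmt) (hT : T.IsCoh) (hQ : IsQI T QI) {n2 : ℕ} (M : Model K n) {k : ℕ}
    {E : ℕ → Set M.P} (hE : M.Snc k E) (M2 : Model K n2) {F2 : Set M2.P}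
    (hi : Ident M (⋃ i, E i) M2 F2) :
    ∃ (M' : Model K n) (k' : ℕ) (E' : ℕ → Set M'.P) (hE' : M'.Snc k' E') (hd : Dom M' M),
      Dom M' M2 ∧ QI (M'.pr hE') (M.pr hE) hd.map ∧ Ident M (⋃ i, E i) M' (⋃ i, E' i) := by
  classical
  obtain ⟨G2, hG2⟩ := M2.fg
  have hG2B : ∀ g ∈ G2, g ∈ M2.B := fun g hg => hG2 ▸ Algebra.subset_adjoin hg
  -- denominators
  let I : Ideal M.B :=
    { carrier := {q | ∀ g ∈ G2, (q : K) * g ∈ M.B}
      add_mem' := fun {x y} hx hy g hg => by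
        rw [Subalgebra.coe_add, add_mul]; exact add_mem (hx g hg) (hy g hg)
      zero_mem' := fun g hg => by simp
      smul_mem' := fun c x hx g hg => by
        rw [smul_eq_mul, Subalgebra.coe_mul, mul_assoc]; exact mul_mem c.2 (hx g hg) }
  have hI : ∀ b ∉ (⋃ i, E i), ∃ q ∈ I, b q ≠ 0 := by
    intro b hb
    obtain ⟨b', -, e⟩ := hi.1 b hb
    have h1 : ∀ g : G2, ∃ p q : M.B, b q ≠ 0 ∧ (g : K) * q = p := fun g => by
      have : (g : K) ∈ (M.loc b).O := e ▸ M2.le_loc b' (hG2B g g.2)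
      exact this
    choose p q hq hpq using h1
    refine ⟨∏ g, q g, fun g hg => ?_, by rw [map_prod]; exact Finset.prod_ne_zero_iff.mpr fun g _ => hq g⟩
    rw [← Finset.mul_prod_erase Finset.univ q (Finset.mem_univ ⟨g, hg⟩), Subalgebra.coe_mul,
      mul_right_comm, mul_comm (q ⟨g, hg⟩ : K) g, hpq ⟨g, hg⟩]
    exact mul_mem (p _).2 (Subtype.prop _)
  have : IsNoetherianRing M.B := Algebra.FiniteType.isNoetherianRing ℝ M.B
  obtain ⟨t, ht⟩ : I.FG := IsNoetherian.noetherian I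
  let q : M.B := ∑ x ∈ t, x * x
  have hqI : q ∈ I := Ideal.sum_mem _ fun x hx =>
    Ideal.mul_mem_left _ _ (ht ▸ Ideal.subset_span hx)
  have hq : ∀ b ∉ (⋃ i, E i), b q ≠ 0 := by
    intro b hb h0
    obtain ⟨r, hr, hr0⟩ := hI b hb
    have h1 : ∀ x ∈ t, b x = 0 := by
      simp only [q, map_sum, map_mul] at h0
      intro x hx
      exact mul_self_eq_zero.mp
        ((Finset.sum_eq_zero_iff_of_nonneg fun y _ => mul_self_nonneg (b y)).mp h0 x hx)
    have h2 : I ≤ van {b} := by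
      rw [← ht]
      exact Ideal.span_le.mpr fun x hx c hc => by rw [hc]; exact h1 x hx
    exact hr0 (h2 hr b rfl)
  have hq0 : (q : K) ≠ 0 := by
    intro h0
    obtain ⟨b, hb⟩ := Model.exists_notMem hE.van_iUnion_ne_bot
    have : q = 0 := Subtype.ext h0
    exact hq b hb (by rw [this, map_zero])
  let G : Set K := insert (q : K) ((fun g => (q : K) * g) '' G2)
  have hG : ∀ g ∈ G, g ∈ M.B := by
    rintro _ (rfl | ⟨g, hg, rfl⟩)
    · exact q.2
    · exact hqI g hg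
  obtain ⟨M', k', E', hE', hd, h1, h2, h3⟩ := BTower_indet hT hQ M hE G
    (hP K n M k E G hE ((G2.finite_toSet.image _).insert _) hG ⟨q, Or.inl rfl, hq0⟩) hE
    (Dom.refl M) (BTower_ok M hG) (by rw [Dom.map_refl]; exact hQ.id _) (Ident.refl _)
    (fun b hb => by
      by_contra hn
      have := hb ((q : K), 1) ⟨Or.inl rfl, rfl⟩
      rw [pow_one] at this
      exact hq b hn ((M.loc_ev b q).symm.trans this.2))
    (fun b => ⟨1, one_ne_zero, fun p hp => ⟨hp.2, p.1, hp.1, 1, one_mem _, by ring⟩,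
      fun g hg => ⟨by simpa using hg, rfl⟩⟩)
  refine ⟨M', k', E', hE', hd, fun b => ?_, h1, h2⟩
  rw [← hG2]
  refine Algebra.adjoin_le fun g hg => ?_
  obtain ⟨g0, hg0, hne, hdiv⟩ := h3 b
  have hg1 := hdiv _ (Or.inr ⟨g, hg, rfl⟩)
  rcases hg0 with rfl | ⟨g1, hg1', rfl⟩
  · rwa [mul_div_cancel_left₀ _ hq0] at hg1
  · have hg10 : g1 ≠ 0 := right_ne_zero_of_mul hne
    have h4 := hdiv _ (Or.inl rfl)
    have e : (q : K) / (q * g1) = g1⁻¹ := by field_simp
    rw [e] at h4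
    obtain ⟨C, hC⟩ : ∃ C : ℝ, ∀ c : M2.P, |c ⟨g1, hG2B g1 hg1'⟩| ≤ C := by
      obtain ⟨C, hC⟩ := (isCompact_range (continuous_ev (B := M2.B)
        ⟨g1, hG2B g1 hg1'⟩).abs).bddAbove
      exact ⟨C, fun c => hC ⟨c, rfl⟩⟩
    have h5 : g1⁻¹ ∉ (M'.loc b).m := by
      refine Model.not_pole (C := C) hE'.van_iUnion_ne_bot (fun c hc => ?_) hg10
      obtain ⟨c', -, e'⟩ := (h2.symm.trans hi).1 c hc
      rw [← e']
      exact ⟨M2.le_loc c' (hG2B g1 hg1'), by
        rw [show (M2.loc c').ev g1 = c' ⟨g1, hG2B g1 hg1'⟩ from M2.loc_ev c' ⟨g1, _⟩]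
        exact hC c'⟩
    have h6 : g1 ∈ (M'.loc b).O := by
      have := (M'.loc b).inv_mem _ h4 fun h0 => h5 ⟨h4, h0⟩
      rwa [inv_inv] at this
    have e' : g = (q : K) * g / (q * g1) * g1 := by field_simp
    change g ∈ (M'.loc b).O
    rw [e']
    exact mul_mem hg1 h6

/-- the Euler characteristic of the weight complexes depends only on the open part -/
theorem eul_eq (hP : PrincStmt) (hT : T.IsCoh) (hQ : IsQI T QI) {n2 : ℕ} (M : Model K n) {k : ℕ}
    {E : ℕ → Set M.P} (hE : M.Snc k E) (M2 : Model K n2) {k2 : ℕ} {E2 : ℕ → Set M2.P}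
    (hE2 : M2.Snc k2 E2) (hi : Ident M (⋃ i, E i) M2 (⋃ i, E2 i)) :
    (M.pr hE).eul T = (M2.pr hE2).eul T := by
  obtain ⟨M1, k1, E1, hE1, d1, d12, q1, i1⟩ := indet hP hT hQ M hE M2 hi
  have i21 := hi.symm.trans i1
  obtain ⟨M3, k3, E3, hE3, d3, d31, q3, i3⟩ := indet hP hT hQ M2 hE2 M1 i21
  have i13 := i21.symm.trans i3
  obtain ⟨M4, k4, E4, hE4, d4, d43, q4, i4⟩ := indet hP hT hQ M1 hE1 M3 i13
  have q : QI (M3.pr hE3) (M1.pr hE1) d31.map :=
    hQ.sandwich (M4.pr hE4) (M3.pr hE3) (M1.pr hE1) (M2.pr hE2) d12.map d31.map d43.map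
      (d12.pm hE2 hE1 i21) (d31.pm hE1 hE3 i13) (d43.pm hE3 hE4 (i13.symm.trans i4))
      (by rw [← Dom.map_comp d31 d12 d3] at q3; exact q3)
      (by rw [← Dom.map_comp d43 d31 d4] at q4; exact q4)
  rw [← hQ.eul _ _ _ q1 (Model.pr_fin hT hE1) (Model.pr_fin hT hE),
    ← hQ.eul _ _ _ q (Model.pr_fin hT hE3) (Model.pr_fin hT hE1),
    hQ.eul _ _ _ q3 (Model.pr_fin hT hE3) (Model.pr_fin hT hE2)]

end Pool.Agent.MP_696f7f_ag.H96
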