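import Pool.Agent.MP_696f7f_ag.H96.MSub

/-! The product of a model with a circle; the point; tori. -/

namespace Pool.Agent.MP_696f7f_ag.H96

open Polynomial Filter Topology IntermediateField

variable {K : Type} [Field K] [Algebra ℝ K] {n : ℕ}

namespace MCirc

set_option linter.unusedSectionVars false

variable {K' : Type} [Field K'] [Algebra ℝ K'] [Algebra K K'] [IsScalarTower ℝ K K']

/-- derivations extend to a simple transcendental extension -/
theorem exists_ext {τ : K'} (htr : Transcendental K τ) (hgen : K⟮τ⟯ = ⊤) (δ : Der K) (c : K') :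
    ∃ δ' : Der K', (∀ f : K, δ' (algebraMap K K' f) = algebraMap K K' (δ f)) ∧ δ' τ = c := by
  let : Algebra K[X] K' := (aeval τ : K[X] →ₐ[K] K').toRingHom.toAlgebra
  have ha : ∀ p : K[X], algebraMap K[X] K' p = aeval τ p := fun _ => rfl
  have : IsScalarTower ℝ K[X] K' := IsScalarTower.of_algebraMap_eq fun r => by
    rw [ha, Polynomial.algebraMap_apply, aeval_C, ← IsScalarTower.algebraMap_apply]
  have : FaithfulSMul K[X] K' :=
    (faithfulSMul_iff_algebraMap_injective _ _).2 (transcendental_iff_injective.1 htr)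
  have : IsFractionRing K[X] K' := IsFractionRing.of_field _ _ fun z =>
    (mem_adjoin_simple_iff K z).1 (hgen ▸ mem_top)
  let d1 : Derivation ℝ K[X] K[X] := PolynomialModule.equivPolynomialSelf.compDer δ.mapCoeffs
  let d2 : Derivation ℝ K[X] K[X] := (derivative' : Derivation K K[X] K[X]).restrictScalars ℝ
  obtain ⟨δ', h⟩ := exists_der_extend
    ((Algebra.linearMap K[X] K').compDer d1 + c • (Algebra.linearMap K[X] K').compDer d2)
  have e1 : ∀ f : K, d1 (C f) = C (δ f) := fun f => by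
    ext i
    change δ ((C f).coeff i) = _
    rw [coeff_C, coeff_C]
    split_ifs <;> simp
  have e2 : d1 X = 0 := by
    ext i
    change δ (X.coeff i) = _
    rw [coeff_X]
    split_ifs <;> simp
  refine ⟨δ', fun f => ?_, ?_⟩
  · have := h (C f)
    rw [ha, aeval_C] at this
    rw [this]
    change algebraMap K[X] K' (d1 (C f)) + c • algebraMap K[X] K' (derivative (C f)) = _
    rw [e1, ha, ha]
    simp
  · have := h X
    rw [ha, aeval_X] at this
    rw [this]
    change algebraMap K[X] K' (d1 X) + c • algebraMap K[X] K' (derivative X) = _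
    rw [e2, ha, ha]
    simp

/-- the point induced by a local ring -/
def ptOf (L : Loc K') (B' : Subalgebra ℝ K') (h : B' ≤ L.O) : Pt B' where
  toFun := fun f => L.ev f
  map_one' := by simpa using L.ev_alg 1
  map_mul' := fun f g => L.ev_mul _ (h f.2) _ (h g.2)
  map_zero' := by simpa using L.ev_alg 0
  map_add' := fun f g => L.ev_add _ (h f.2) _ (h g.2)
  commutes' := fun r => L.ev_alg r

/-- elements that are constant modulo `N` -/
def cong (L : Loc K') (N : Submodule L.O K') : Subalgebra ℝ K' where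
  carrier := {g | g ∈ L.O ∧ g - algebraMap ℝ K' (L.ev g) ∈ N}
  mul_mem' := fun {x y} hx hy => ⟨mul_mem hx.1 hy.1, by
    rw [L.ev_mul x hx.1 y hy.1, map_mul]
    have e : x * y - algebraMap ℝ K' (L.ev x) * algebraMap ℝ K' (L.ev y) =
        x * (y - algebraMap ℝ K' (L.ev y)) +
          algebraMap ℝ K' (L.ev y) * (x - algebraMap ℝ K' (L.ev x)) := by ring
    rw [e]
    exact add_mem (Loc.mul_mem_left hx.1 hy.2) (Loc.mul_mem_left (L.O.algebraMap_mem _) hx.2)⟩
  add_mem' := fun {x y} hx hy => ⟨add_mem hx.1 hy.1, by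
    rw [L.ev_add x hx.1 y hy.1, map_add]
    have e : x + y - (algebraMap ℝ K' (L.ev x) + algebraMap ℝ K' (L.ev y)) =
        (x - algebraMap ℝ K' (L.ev x)) + (y - algebraMap ℝ K' (L.ev y)) := by ring
    rw [e]
    exact add_mem hx.2 hy.2⟩
  algebraMap_mem' := fun r => ⟨L.O.algebraMap_mem r, by rw [L.ev_alg, sub_self]; exact zero_mem _⟩

theorem cong_div {L : Loc K'} {N : Submodule L.O K'} {p q : K'} (hp : p ∈ cong L N)
    (hq : q ∈ cong L N) (h0 : L.ev q ≠ 0) : p / q ∈ cong L N := by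
  rw [div_eq_mul_inv]
  refine mul_mem hp ⟨L.inv_mem q hq.1 h0, ?_⟩
  have hq0 : q ≠ 0 := Loc.ne_zero_of_ev h0
  have hc : algebraMap ℝ K' (L.ev q) ≠ 0 := (_root_.map_ne_zero _).2 h0
  have e : q⁻¹ - algebraMap ℝ K' (L.ev q⁻¹) =
      -(q⁻¹ * algebraMap ℝ K' (L.ev q)⁻¹) * (q - algebraMap ℝ K' (L.ev q)) := by
    rw [Loc.ev_inv hq.1 h0, map_inv₀]
    field_simp
    ring
  rw [e]
  exact Loc.mul_mem_left (neg_mem (mul_mem (L.inv_mem q hq.1 h0) (L.O.algebraMap_mem _))) hq.2

/-- the data of a rational parametrisation of the circle -/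
structure Par (B : Subalgebra ℝ K) (B' : Subalgebra ℝ K') (j : B →ₐ[ℝ] B') (τ : K')
    (u v : B') : Prop where
  tr : Transcendental K τ
  gen : K⟮τ⟯ = ⊤
  j_eq : ∀ f, (j f : K') = algebraMap K K' f
  u_eq : (u : K') * (1 + τ ^ 2) = 1 - τ ^ 2
  v_eq : (v : K') * (1 + τ ^ 2) = 2 * τ
  adj : Algebra.adjoin ℝ (Set.range j ∪ {u, v}) = ⊤

theorem sq_ne {τ : K'} (h : Transcendental K τ) : 1 + τ ^ 2 ≠ 0 := by
  intro e
  have h1 : (1 + X ^ 2 : K[X]) = 0 := transcendental_iff_injective.1 h (by simpa using e)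
  have h2 := congrArg (fun p : K[X] => p.coeff 0) h1
  simp at h2

theorem tr_ne {τ : K'} (h : Transcendental K τ) : τ ≠ 0 := by
  rintro rfl
  exact h isAlgebraic_zero

variable {B : Subalgebra ℝ K} {B' : Subalgebra ℝ K'} {j : B →ₐ[ℝ] B'} {τ : K'} {u v : B'}

namespace Par

theorem inv (h : Par B B' j τ u v) : Par B B' j τ⁻¹ (-u) v := by
  have h0 := tr_ne h.tr
  refine ⟨fun hc => h.tr (IsAlgebraic.inv_iff.1 hc), ?_, h.j_eq, ?_, ?_, ?_⟩
  · rw [eq_top_iff, ← h.gen, adjoin_simple_le_iff]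
    simpa using inv_mem (mem_adjoin_simple_self K τ⁻¹)
  · push_cast
    field_simp
    linear_combination -h.u_eq
  · field_simp
    linear_combination h.v_eq
  · rw [eq_top_iff, ← h.adj]
    refine Algebra.adjoin_le ?_
    rintro x (hx | rfl | rfl)
    · exact Algebra.subset_adjoin (Or.inl hx)
    · have : -x ∈ Algebra.adjoin ℝ (Set.range j ∪ {-x, v}) :=
        Algebra.subset_adjoin (Or.inr (Or.inl rfl))
      simpa using neg_mem this
    · exact Algebra.subset_adjoin (Or.inr (Or.inr rfl))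

theorem circ (h : Par B B' j τ u v) : u ^ 2 + v ^ 2 = 1 := by
  apply Subtype.ext
  push_cast
  refine mul_right_cancel₀ (pow_ne_zero 2 (sq_ne h.tr)) ?_
  linear_combination ((u : K') * (1 + τ ^ 2) + (1 - τ ^ 2)) * h.u_eq +
    ((v : K') * (1 + τ ^ 2) + 2 * τ) * h.v_eq

theorem circ_pt (h : Par B B' j τ u v) (y : Pt B') : y u ^ 2 + y v ^ 2 = 1 := by
  rw [← map_pow, ← map_pow, ← map_add, h.circ, map_one]

theorem tau_mul (h : Par B B' j τ u v) : τ * ((1 + u : B') : K') = v := by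
  push_cast
  refine mul_right_cancel₀ (sq_ne h.tr) ?_
  linear_combination τ * h.u_eq - h.v_eq

theorem le_of (h : Par B B' j τ u v) {A : Subalgebra ℝ K'}
    (h1 : ∀ f ∈ B, algebraMap K K' f ∈ A) (h2 : (u : K') ∈ A) (h3 : (v : K') ∈ A) : B' ≤ A := by
  have h4 : (⊤ : Subalgebra ℝ B') ≤ A.comap B'.val := by
    rw [← h.adj]
    refine Algebra.adjoin_le ?_
    rintro x (⟨f, rfl⟩ | rfl | rfl)
    · change (j f : K') ∈ A
      rw [h.j_eq]
      exact h1 f f.2
    · exact h2
    · exact h3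
  exact fun x hx => h4 (Algebra.mem_top : (⟨x, hx⟩ : B') ∈ ⊤)

theorem ext (h : Par B B' j τ u v) {y y' : Pt B'} (h1 : y.comp j = y'.comp j) (h2 : y u = y' u)
    (h3 : y v = y' v) : y = y' := by
  refine AlgHom.ext_of_adjoin_eq_top h.adj ?_
  rintro x (⟨f, rfl⟩ | rfl | rfl)
  · exact DFunLike.congr_fun h1 f
  · exact h2
  · exact h3

theorem u_div (h : Par B B' j τ u v) : (u : K') = (1 - τ ^ 2) / (1 + τ ^ 2) :=
  eq_div_of_mul_eq (sq_ne h.tr) h.u_eq

theorem v_div (h : Par B B' j τ u v) : (v : K') = 2 * τ / (1 + τ ^ 2) :=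
  eq_div_of_mul_eq (sq_ne h.tr) h.v_eq

theorem ev_sq {L : Loc K'} (hτ : τ ∈ L.O) : L.ev (1 + τ ^ 2) = 1 + L.ev τ ^ 2 := by
  rw [L.ev_add _ (one_mem _) _ (pow_mem hτ 2), Loc.ev_one, Loc.ev_pow hτ]

theorem ev_sq_ne {L : Loc K'} (hτ : τ ∈ L.O) : L.ev (1 + τ ^ 2) ≠ 0 := by
  rw [ev_sq hτ]
  positivity

theorem two_mem (A : Subalgebra ℝ K') : (2 : K') ∈ A := by
  simp

/-- points with a finite value of the parameter -/
theorem exists_pt (h : Par B B' j τ u v) (hB : B.FG) (b : Pt B) (t : ℝ) :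
    ∃ y : Pt B', y.comp j = b ∧ y u * (1 + t ^ 2) = 1 - t ^ 2 ∧ y v * (1 + t ^ 2) = 2 * t := by
  let g : B[X] →ₐ[ℝ] K' := aevalTower ((IsScalarTower.toAlgHom ℝ K K').comp B.val) τ
  have hg : ∀ p : B[X], g p = aeval τ (p.map B.val.toRingHom) := by
    intro p
    induction p using Polynomial.induction_on' with
    | add p q hp hq => rw [map_add, hp, hq, Polynomial.map_add, map_add]
    | monomial k a => simp [g, ← C_mul_X_pow_eq_monomial]
  have hinj : Function.Injective g := by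
    intro p q e
    rw [hg, hg] at e
    exact map_injective _ Subtype.val_injective (transcendental_iff_injective.1 h.tr e)
  have := finiteType_of_fg hB
  have hfg : g.range.FG := by
    rw [← Algebra.map_top]
    exact Subalgebra.FG.map g Algebra.FiniteType.out
  let b1 : Pt g.range := (aevalTower b t).comp (AlgEquiv.ofInjective g hinj).symm.toAlgHom
  let L := locAt g.range hfg b1
  have hm : ∀ p, g p ∈ L.O := fun p => locAt_le ⟨p, rfl⟩
  have hev : ∀ p, L.ev (g p) = aevalTower b t p := by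
    intro p
    have e := locAt_ev (hB := hfg) (a := b1) (AlgEquiv.ofInjective g hinj p)
    simpa [b1] using e
  have hτ : g X = τ := aevalTower_X _ _
  have hC : ∀ f : B, g (C f) = algebraMap K K' f := fun f => aevalTower_C _ _ f
  have hτm : τ ∈ L.O := hτ ▸ hm X
  have hτe : L.ev τ = t := by rw [← hτ, hev, aevalTower_X]
  have hq : 1 + τ ^ 2 ∈ L.O := add_mem (one_mem _) (pow_mem hτm 2)
  have hu : (u : K') ∈ L.O := by
    rw [h.u_div]
    exact Loc.div_mem (sub_mem (one_mem _) (pow_mem hτm 2)) hq (ev_sq_ne hτm)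
  have hv : (v : K') ∈ L.O := by
    rw [h.v_div]
    exact Loc.div_mem (mul_mem (two_mem _) hτm) hq (ev_sq_ne hτm)
  have hle : B' ≤ L.O := h.le_of (fun f hf => hC ⟨f, hf⟩ ▸ hm _) hu hv
  refine ⟨ptOf L B' hle, AlgHom.ext fun f => ?_, ?_, ?_⟩
  · change L.ev (j f) = b f
    rw [h.j_eq, ← hC, hev, aevalTower_C]
  · change L.ev u * _ = _
    rw [← hτe, ← ev_sq hτm, ← L.ev_mul _ hu _ hq, h.u_eq,
      Loc.ev_sub (one_mem _) (pow_mem hτm 2), Loc.ev_one, Loc.ev_pow hτm]
  · change L.ev v * _ = _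
    rw [← hτe, ← ev_sq hτm, ← L.ev_mul _ hv _ hq, h.v_eq, two_mul, L.ev_add _ hτm _ hτm, two_mul]

theorem exists_pt_circ (h : Par B B' j τ u v) (hB : B.FG) (b : Pt B) {a c : ℝ}
    (hac : a ^ 2 + c ^ 2 = 1) : ∃ y : Pt B', y.comp j = b ∧ y u = a ∧ y v = c := by
  by_cases ha : 1 + a = 0
  · obtain ⟨y, h1, h2, h3⟩ := h.inv.exists_pt hB b 0
    rw [map_neg] at h2
    have ha' : a = -1 := by linarith
    have hc : c = 0 := by
      rw [ha'] at hac
      nlinarith
    exact ⟨y, h1, by linarith, by linarith⟩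
  · obtain ⟨y, h1, h2, h3⟩ := h.exists_pt hB b (c / (1 + a))
    have e : 1 + (c / (1 + a)) ^ 2 = 2 / (1 + a) := by
      field_simp
      linear_combination hac
    have e' : 1 - (c / (1 + a)) ^ 2 = 2 * a / (1 + a) := by
      field_simp
      linear_combination -hac
    rw [e, e'] at h2
    rw [e] at h3
    field_simp at h2 h3
    exact ⟨y, h1, h2, h3⟩

variable {hB : B.FG} {hB' : B'.FG} {y : Pt B'}

theorem lift (h : Par B B' j τ u v) {f : K} (hf : f ∈ (locAt B hB (y.comp j)).O) :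
    algebraMap K K' f ∈ (locAt B' hB' y).O ∧
      (locAt B' hB' y).ev (algebraMap K K' f) = (locAt B hB (y.comp j)).ev f := by
  obtain ⟨p, q, hq, e⟩ := hf
  have e' : algebraMap K K' f * (j q : K') = j p := by
    rw [h.j_eq, h.j_eq, ← map_mul, e]
  exact ⟨⟨j p, j q, hq, e'⟩, (locEv_eq B' y hq e').trans (locEv_eq B (y.comp j) hq e).symm⟩

theorem lift_span (h : Par B B' j τ u v) {f : K} {S : Set K}
    (hf : f ∈ (locAt B hB (y.comp j)).span S) :
    algebraMap K K' f ∈ (locAt B' hB' y).span (algebraMap K K' '' S) := by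
  refine Loc.span_induction (p := fun f =>
    algebraMap K K' f ∈ (locAt B' hB' y).span (algebraMap K K' '' S)) hf ?_ ?_ ?_ ?_
  · exact fun x hx => Loc.subset_span ⟨x, hx, rfl⟩
  · rw [map_zero]; exact zero_mem _
  · intro x x' _ _ h1 h2
    rw [map_add]; exact add_mem h1 h2
  · intro a ha x _ h1
    rw [map_mul]; exact Loc.mul_mem_left (h.lift ha).1 h1

theorem tau_mem (h : Par B B' j τ u v) (hy : y (1 + u) ≠ 0) :
    τ ∈ (locAt B' hB' y).O ∧ (locAt B' hB' y).ev τ = y v / y (1 + u) :=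
  ⟨⟨v, 1 + u, hy, h.tau_mul⟩, locEv_eq B' y hy h.tau_mul⟩

theorem pres (h : Par B B' j τ u v) (hy : y (1 + u) ≠ 0) {δ : Der K'}
    (h1 : ∀ f ∈ B, δ (algebraMap K K' f) ∈ (locAt B' hB' y).O) (h2 : δ τ ∈ (locAt B' hB' y).O) :
    ∀ f ∈ (locAt B' hB' y).O, δ f ∈ (locAt B' hB' y).O := by
  have hτ := (h.tau_mem (hB' := hB') hy).1
  have hq : 1 + τ ^ 2 ∈ (locAt B' hB' y).O := add_mem (one_mem _) (pow_mem hτ 2)
  have hd : δ (τ ^ 2) ∈ (locAt B' hB' y).O := by
    rw [pow_two, Derivation.leibniz, smul_eq_mul]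
    exact add_mem (mul_mem hτ h2) (mul_mem hτ h2)
  have key : ∀ w z : K', w ∈ (locAt B' hB' y).O → w * (1 + τ ^ 2) = z →
      δ z ∈ (locAt B' hB' y).O → δ w ∈ (locAt B' hB' y).O := by
    intro w z hw e hz
    have e1 : δ w = (δ z - w * δ (τ ^ 2)) / (1 + τ ^ 2) := by
      rw [eq_div_iff (sq_ne h.tr), ← e, Derivation.leibniz, map_add, Derivation.map_one_eq_zero,
        smul_eq_mul, smul_eq_mul]
      ring
    rw [e1]
    exact Loc.div_mem (sub_mem hz (mul_mem hw hd)) hq (ev_sq_ne hτ)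
  rw [← Loc.mem_log_empty]
  refine locAt_mem_log (locAt_log (G := algebraMap K K' '' B ∪ {(u : K'), (v : K')}) ?_
    locAt_le ?_)
  · refine le_antisymm (h.le_of (fun f hf => Algebra.subset_adjoin (Or.inl ⟨f, hf, rfl⟩))
      (Algebra.subset_adjoin (Or.inr (Or.inl rfl)))
      (Algebra.subset_adjoin (Or.inr (Or.inr rfl)))) (Algebra.adjoin_le ?_)
    rintro x (⟨f, hf, rfl⟩ | rfl | rfl)
    · rw [← h.j_eq ⟨f, hf⟩]; exact (j _).2
    · exact u.2
    · exact v.2
  · rintro x (⟨f, hf, rfl⟩ | rfl | rfl)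
    · exact h1 f hf
    · refine key _ _ (locAt_le u.2) h.u_eq ?_
      rw [map_sub, Derivation.map_one_eq_zero, zero_sub]
      exact neg_mem hd
    · refine key _ _ (locAt_le v.2) h.v_eq ?_
      rw [two_mul, map_add]
      exact add_mem h2 h2

/-- the chart of the product -/
theorem exists_chart (h : Par B B' j τ u v) (hy : y (1 + u) ≠ 0) {κ : Chart K n}
    (hκ : IsCrd (locAt B hB (y.comp j)) κ) :
    ∃ κ' : Chart K' (n + 1), IsCrd (locAt B' hB' y) κ' ∧
      (∀ i, κ'.x i.castSucc = algebraMap K K' (κ.x i)) ∧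
      κ'.x (Fin.last n) = τ - algebraMap ℝ K' ((locAt B' hB' y).ev τ) := by
  choose D hD hD' using fun i => exists_ext h.tr h.gen (κ.D i) 0
  obtain ⟨D0, hD0, hD0'⟩ := exists_ext h.tr h.gen 0 1
  have hτ := (h.tau_mem (hB' := hB') hy).1
  let κ' : Chart K' (n + 1) :=
    ⟨Fin.snoc (α := fun _ => K') (fun i => algebraMap K K' (κ.x i))
      (τ - algebraMap ℝ K' ((locAt B' hB' y).ev τ)), Fin.snoc (α := fun _ => Der K') D D0⟩
  have x1 : ∀ i, κ'.x i.castSucc = algebraMap K K' (κ.x i) := fun i => by simp [κ']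
  have x2 : κ'.x (Fin.last n) = τ - algebraMap ℝ K' ((locAt B' hB' y).ev τ) := by simp [κ']
  have d1 : ∀ i, κ'.D i.castSucc = D i := fun i => by simp [κ']
  have d2 : κ'.D (Fin.last n) = D0 := by simp [κ']
  refine ⟨κ', ⟨le_antisymm ?_ ?_, fun i => ?_, fun i l => ?_⟩, x1, x2⟩
  · rw [Loc.span_le]
    rintro _ ⟨i, rfl⟩
    refine Fin.lastCases ?_ (fun i => ?_) i
    · rw [x2]; exact Loc.sub_ev_mem hτ
    · rw [x1]
      have h1 := h.lift (hB' := hB') (hκ.x_mem i)
      exact ⟨h1.1, h1.2.trans (hκ.x_mem_m i).2⟩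
  · set N := (locAt B' hB' y).span (Set.range κ'.x)
    have hτ' : τ ∈ cong (locAt B' hB' y) N := ⟨hτ, Loc.subset_span ⟨Fin.last n, x2⟩⟩
    have hq : 1 + τ ^ 2 ∈ cong (locAt B' hB' y) N := add_mem (one_mem _) (pow_mem hτ' 2)
    have hle : B' ≤ cong (locAt B' hB' y) N := by
      refine h.le_of (fun f hf => ?_) ?_ ?_
      · have hf' : f ∈ (locAt B hB (y.comp j)).O := locAt_le hf
        have h1 := h.lift (hB' := hB') hf'
        refine ⟨h1.1, ?_⟩
        have h2 := Loc.sub_ev_mem hf'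
        rw [← hκ.span] at h2
        have h3 := h.lift_span (hB' := hB') h2
        rw [map_sub, ← IsScalarTower.algebraMap_apply, ← h1.2] at h3
        refine Loc.span_mono ?_ h3
        rintro _ ⟨_, ⟨i, rfl⟩, rfl⟩
        exact ⟨i.castSucc, x1 i⟩
      · rw [h.u_div]
        exact cong_div (sub_mem (one_mem _) (pow_mem hτ' 2)) hq (ev_sq_ne hτ)
      · rw [h.v_div]
        exact cong_div (mul_mem (two_mem _) hτ') hq (ev_sq_ne hτ)
    intro f hf
    obtain ⟨p, q, hq0, e⟩ := hf.1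
    have hq1 : (locAt B' hB' y).ev q ≠ 0 := by rwa [locAt_ev]
    have h1 := (cong_div (hle p.2) (hle q.2) hq1).2
    rwa [← eq_div_of_mul_eq (Loc.ne_zero_of_ev hq1) e, hf.2, map_zero, sub_zero] at h1
  · refine Fin.lastCases ?_ (fun i => ?_) i
    · rw [d2]
      refine h.pres hy (fun f _ => ?_) ?_
      · rw [hD0]; simp
      · rw [hD0']; exact one_mem _
    · rw [d1]
      refine h.pres hy (fun f hf => ?_) ?_
      · rw [hD]; exact (h.lift (hκ.pres i f (locAt_le hf))).1
      · rw [hD']; exact zero_mem _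
  · refine Fin.lastCases ?_ (fun i => ?_) i <;> refine Fin.lastCases ?_ (fun l => ?_) l
    · rw [d2, x2, map_sub, hD0', Derivation.map_algebraMap]; simp
    · rw [d2, x1, hD0, if_neg (Fin.castSucc_lt_last l).ne']; simp
    · rw [d1, x2, map_sub, hD', Derivation.map_algebraMap, if_neg (Fin.castSucc_lt_last i).ne]
      simp
    · rw [d1, x1, hD, hκ.dual]
      simp only [Fin.castSucc_inj]
      split_ifs <;> simp

theorem frac (h : Par B B' j τ u v) (hf : ∀ x : K, ∃ p ∈ B, ∃ q ∈ B, q ≠ 0 ∧ x * q = p)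
    (x : K') : ∃ p ∈ B', ∃ q ∈ B', q ≠ 0 ∧ x * q = p := by
  have hx : x ∈ K⟮τ⟯ := h.gen ▸ mem_top
  induction hx using IntermediateField.adjoin_induction with
  | mem x hx =>
    rw [Set.mem_singleton_iff.1 hx]
    refine ⟨v, v.2, _, (1 + u).2, fun e => ?_, h.tau_mul⟩
    have h1 := h.tau_mul
    have h2 := h.v_eq
    rw [e, mul_zero] at h1
    rw [← h1, zero_mul] at h2
    have h3 : (2 : K') ≠ 0 := by
      have := (_root_.map_ne_zero (algebraMap ℝ K')).2 (two_ne_zero' ℝ)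
      rwa [map_ofNat] at this
    exact mul_ne_zero h3 (tr_ne h.tr) h2.symm
  | algebraMap x =>
    obtain ⟨p, hp, q, hq, h0, e⟩ := hf x
    refine ⟨_, (j ⟨p, hp⟩).2, _, (j ⟨q, hq⟩).2, ?_, ?_⟩
    · rw [h.j_eq]; exact (_root_.map_ne_zero _).2 h0
    · rw [h.j_eq, h.j_eq, ← map_mul]; exact congrArg _ e
  | add x x' _ _ hx hx' =>
    obtain ⟨p, hp, q, hq, h0, e⟩ := hx
    obtain ⟨p', hp', q', hq', h0', e'⟩ := hx'
    exact ⟨p * q' + p' * q, add_mem (mul_mem hp hq') (mul_mem hp' hq), q * q', mul_mem hq hq',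
      mul_ne_zero h0 h0', by rw [← e, ← e']; ring⟩
  | inv x _ hx =>
    obtain ⟨p, hp, q, hq, h0, e⟩ := hx
    by_cases hx0 : x = 0
    · exact ⟨0, zero_mem _, 1, one_mem _, one_ne_zero, by simp [hx0]⟩
    · refine ⟨q, hq, p, hp, ?_, ?_⟩
      · rw [← e]; exact mul_ne_zero hx0 h0
      · rw [← e, inv_mul_cancel_left₀ hx0]
  | mul x x' _ _ hx hx' =>
    obtain ⟨p, hp, q, hq, h0, e⟩ := hx
    obtain ⟨p', hp', q', hq', h0', e'⟩ := hx'
    exact ⟨p * p', mul_mem hp hp', q * q', mul_mem hq hq', mul_ne_zero h0 h0',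
      by rw [← e, ← e']; ring⟩

theorem fg (h : Par B B' j τ u v) (hB : B.FG) : B'.FG := by
  classical
  have := finiteType_of_fg hB
  obtain ⟨s, hs⟩ := (Algebra.FiniteType.out : (⊤ : Subalgebra ℝ B).FG)
  rw [← Subalgebra.fg_top]
  refine ⟨s.image j ∪ {u, v}, ?_⟩
  rw [eq_top_iff, ← h.adj]
  refine Algebra.adjoin_le ?_
  rintro x (⟨f, rfl⟩ | hx)
  · have h1 : j f ∈ (Algebra.adjoin ℝ (s : Set B)).map j := ⟨f, by simp [hs], rfl⟩
    rw [AlgHom.map_adjoin] at h1
    refine Algebra.adjoin_mono ?_ h1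
    rw [Finset.coe_union, Finset.coe_image]
    exact Set.subset_union_left
  · refine Algebra.subset_adjoin ?_
    rw [Finset.coe_union, Finset.coe_pair]
    exact Or.inr hx

theorem cpt (h : Par B B' j τ u v) [CompactSpace (Pt B)] : CompactSpace (Pt B') := by
  refine compactSpace_of_bdd _ h.adj ?_
  rintro x (⟨f, rfl⟩ | rfl | rfl)
  · obtain ⟨C, hC⟩ := isCompact_univ.exists_bound_of_continuousOn
      (continuous_ev (B := B) f).continuousOn
    exact ⟨C, fun b => hC (b.comp j) trivial⟩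
  · exact ⟨1, fun b => abs_le_one_iff_mul_self_le_one.2 (by nlinarith [h.circ_pt b])⟩
  · exact ⟨1, fun b => abs_le_one_iff_mul_self_le_one.2 (by nlinarith [h.circ_pt b])⟩

theorem cases (y : Pt B') (u : B') : y (1 + u) ≠ 0 ∨ y (1 + -u) ≠ 0 := by
  by_contra hc
  push Not at hc
  simp only [map_add, map_one, map_neg] at hc
  linarith [hc.1, hc.2]

end Par

theorem exists_par (B : Subalgebra ℝ K) :
    ∃ (B' : Subalgebra ℝ (RatFunc K)) (j : B →ₐ[ℝ] B') (u v : B'), Par B B' j RatFunc.X u v := by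
  let U : RatFunc K := (1 - RatFunc.X ^ 2) / (1 + RatFunc.X ^ 2)
  let V : RatFunc K := 2 * RatFunc.X / (1 + RatFunc.X ^ 2)
  let S : Set (RatFunc K) := algebraMap K (RatFunc K) '' B ∪ {U, V}
  have h0 := sq_ne (RatFunc.transcendental_X (K := K))
  refine ⟨Algebra.adjoin ℝ S, ((IsScalarTower.toAlgHom ℝ K (RatFunc K)).comp B.val).codRestrict _
    fun f => Algebra.subset_adjoin (Or.inl ⟨f, f.2, rfl⟩),
    ⟨U, Algebra.subset_adjoin (Or.inr (Or.inl rfl))⟩,
    ⟨V, Algebra.subset_adjoin (Or.inr (Or.inr rfl))⟩, RatFunc.transcendental_X, RatFunc.adjoin_X,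
    fun _ => rfl, div_mul_cancel₀ _ h0, div_mul_cancel₀ _ h0, ?_⟩
  rw [eq_top_iff, ← Algebra.adjoin_adjoin_coe_preimage]
  refine Algebra.adjoin_mono ?_
  rintro ⟨x, hx⟩ (⟨f, hf, rfl⟩ | rfl | rfl)
  · exact Or.inl ⟨⟨f, hf⟩, rfl⟩
  · exact Or.inr (Or.inl rfl)
  · exact Or.inr (Or.inr rfl)

theorem tendsto_comp {R R' : Type} [CommRing R] [Algebra ℝ R] [CommRing R'] [Algebra ℝ R']
    (g : R →ₐ[ℝ] R') (y : Pt R') :
    Tendsto (fun b : Pt R' => b.comp g) (zn y) (zn (y.comp g)) := by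
  rintro s ⟨q, hq, hs⟩
  exact ⟨g q, hq, fun b hb => hs _ hb⟩

theorem zclosed_comp {R R' : Type} [CommRing R] [Algebra ℝ R] [CommRing R'] [Algebra ℝ R']
    (g : R →ₐ[ℝ] R') {A : Set (Pt R)} (hA : ZClosed A) :
    ZClosed ((fun b : Pt R' => b.comp g) ⁻¹' A) :=
  zclosed_iff.2 fun y hy => (tendsto_comp g y).eventually (zclosed_iff.1 hA _ hy)

section model

variable {M : Model K n} {M' : Model K' (n + 1)} {j : M.B →ₐ[ℝ] M'.B} {τ : K'} {u v : M'.B}
  {k : ℕ} {E : ℕ → Set M.P}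

theorem span_pre (h : Par M.B M'.B j τ u v) (hE : M.Snc k E) {y : M'.P} {κ : Chart K n}
    {σ : ℕ → Option (Fin n)} (ha : Adp (M.loc (y.comp j)) κ (M.Y E) σ) {κ' : Chart K' (n + 1)}
    (hκ' : IsCrd (M'.loc y) κ') (hx : ∀ i, κ'.x i.castSucc = algebraMap K K' (κ.x i)) (i : ℕ) :
    (M'.loc y).span (M'.vanK ((fun b : M'.P => b.comp j) ⁻¹' E i)) =
      (M'.loc y).span {κ'.y ((σ i).map Fin.castSucc)} := by
  rcases e : σ i with _ | l
  · rw [Option.map_none, Chart.y, Loc.span_one,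
      Model.span_vanK_eq_one (zclosed_comp j (hE.closed i))]
    exact (hE.span_eq_one i).1 ((ha.span_eq_one i).2 e)
  · rw [Option.map_some, Chart.y, ← Chart.I_singleton]
    refine Model.span_vanK_eq_I hκ' ?_
    have h1 := Model.sp_mem_iff (hE.closed i) (Set.finite_singleton (κ.x l))
      (by simpa [e, Chart.y, Model.Y] using ha.span i)
    have h2 := Model.sp_mem (ha.crd.x_mem l)
    filter_upwards [(tendsto_comp j y).eventually (h1.and h2)] with b hb
    have h3 := h.lift (hB := M.fg) (hB' := M'.fg) hb.2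
    simp only [Set.mem_preimage, hb.1, Set.mem_singleton_iff, forall_eq, Finset.mem_singleton, hx]
    exact ⟨fun h4 => ⟨h3.1, h3.2.trans h4.2⟩, fun h4 => ⟨hb.2, h3.2.symm.trans h4.2⟩⟩

theorem snc (h : Par M.B M'.B j τ u v) (hE : M.Snc k E) :
    M'.Snc (k + 1) fun i => if i = k then {y | y (1 + u) = 0} else
      (fun b : M'.P => b.comp j) ⁻¹' E i := by
  refine ⟨fun i => ?_, fun i hi => ?_, fun y => ?_⟩
  · split_ifs
    · exact zclosed_zero _
    · exact zclosed_comp j (hE.closed i)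
  · rw [if_neg (by omega), hE.bd i (by omega), Set.preimage_empty]
  · obtain ⟨κ, σ, ha⟩ := hE.adp (y.comp j)
    have hinj : ∀ i i' l, (σ i).map Fin.castSucc = some l → (σ i').map Fin.castSucc = some l →
        i = i' := by
      intro i i' l h1 h2
      obtain ⟨a, ha1, rfl⟩ := Option.map_eq_some_iff.1 h1
      obtain ⟨a', ha2, e⟩ := Option.map_eq_some_iff.1 h2
      exact ha.inj i i' a ha1 (Fin.castSucc_injective _ e ▸ ha2)
    by_cases hy : y (1 + u) = 0
    · have hy' : y (1 + -u) ≠ 0 := (Par.cases y u).resolve_left (not_not.2 hy)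
      obtain ⟨κ', hκ', hx, hx'⟩ := h.inv.exists_chart (hB' := M'.fg) hy' ha.crd
      have hv : y v = 0 := by
        have h1 := h.circ_pt y
        rw [map_add, map_one] at hy
        have h2 : y u = -1 := by linarith
        rw [h2] at h1
        nlinarith
      rw [(h.inv.tau_mem hy').2, hv, zero_div, map_zero, sub_zero] at hx'
      refine ⟨κ', fun i => if i = k then some (Fin.last n) else (σ i).map Fin.castSucc, hκ',
        fun i => ?_, fun i i' l h1 h2 => ?_⟩
      · by_cases hi : i = k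
        · simp only [Model.Y, if_pos hi]
          rw [Chart.y, ← Chart.I_singleton]
          refine Model.span_vanK_eq_I hκ' ?_
          filter_upwards [zn_ne hy'] with b hb
          have h1 := h.inv.tau_mem (hB' := M'.fg) hb
          have h2 := h.circ_pt b
          simp only [Finset.mem_singleton, forall_eq, hx']
          simp only [map_add, map_one, map_neg] at hb h1 ⊢
          refine ⟨fun h3 => ⟨h1.1, h1.2.trans ?_⟩, fun h3 => ?_⟩
          · have h4 : b u = -1 := by linarith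
            rw [h4] at h2
            rw [show b v = 0 by nlinarith, zero_div]
          · have h4 := (div_eq_zero_iff.1 (h1.2.symm.trans h3.2)).resolve_right hb
            rw [h4] at h2
            exact (mul_eq_zero.1 (show (1 + b u) * (1 + -b u) = 0 by linarith)).resolve_right hb
        · simp only [Model.Y, if_neg hi]
          exact span_pre h hE ha hκ' hx i
      · have hl : ∀ i, (σ i).map Fin.castSucc ≠ some (Fin.last n) := by
          intro i hc
          obtain ⟨a, -, e⟩ := Option.map_eq_some_iff.1 hc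
          exact (Fin.castSucc_lt_last a).ne e
        by_cases hi : i = k <;> by_cases hi' : i' = k
        · rw [hi, hi']
        · rw [if_pos hi] at h1
          rw [if_neg hi', ← h1] at h2
          exact (hl _ h2).elim
        · rw [if_pos hi'] at h2
          rw [if_neg hi, ← h2] at h1
          exact (hl _ h1).elim
        · rw [if_neg hi] at h1
          rw [if_neg hi'] at h2
          exact hinj i i' l h1 h2
    · obtain ⟨κ', hκ', hx, -⟩ := h.exists_chart (hB' := M'.fg) hy ha.crd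
      refine ⟨κ', fun i => if i = k then none else (σ i).map Fin.castSucc, hκ',
        fun i => ?_, fun i i' l h1 h2 => ?_⟩
      · by_cases hi : i = k
        · simp only [Model.Y, if_pos hi]
          rw [Chart.y, Loc.span_one, Model.span_vanK_eq_one (zclosed_zero _)]
          exact hy
        · simp only [Model.Y, if_neg hi]
          exact span_pre h hE ha hκ' hx i
      · by_cases hi : i = k
        · simp [hi] at h1
        · by_cases hi' : i' = k
          · simp [hi'] at h2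
          · rw [if_neg hi] at h1
            rw [if_neg hi'] at h2
            exact hinj i i' l h1 h2

end model

theorem adjoin_poly (R : Type) [CommRing R] [Algebra ℝ R] :
    Algebra.adjoin ℝ (Set.range (C : R → R[X]) ∪ {X}) = ⊤ := by
  rw [eq_top_iff]
  rintro p -
  induction p using Polynomial.induction_on' with
  | add p q hp hq => exact add_mem hp hq
  | monomial k a =>
    rw [← C_mul_X_pow_eq_monomial]
    exact mul_mem (Algebra.subset_adjoin (Or.inl ⟨a, rfl⟩))
      (pow_mem (Algebra.subset_adjoin (Set.mem_union_right _ (Set.mem_singleton X))) k)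

theorem Par.bireg (h : Par B B' j τ u v) (hB : B.FG) (A : Set (Pt B)) :
    Bireg (basePt ⁻¹' A) {y : Pt B' | y.comp j ∈ A ∧ y (1 + u) ≠ 0} := by
  choose φ h1 h2 h3 using fun x : Pt B[X] => h.exists_pt hB (basePt x) (x X)
  have h4 : ∀ x, φ x (1 + u) * (1 + x X ^ 2) = 2 := fun x => by
    rw [map_add, map_one]
    linear_combination h2 x
  have h5 : ∀ x, φ x (1 + u) ≠ 0 := fun x e => by
    have := h4 x
    rw [e, zero_mul] at this
    exact two_ne_zero this.symm
  have h6 : ∀ (b : Pt B) (t : ℝ), basePt (aevalTower b t) = b := fun b t =>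
    AlgHom.ext fun f => aevalTower_C b t f
  refine ⟨φ, fun y => aevalTower (y.comp j) (y v / y (1 + u)), fun x hx => ⟨?_, h5 x⟩,
    fun y hy => ?_, fun x _ => ?_, fun y hy => ?_, ?_, ?_⟩
  · rw [h1]; exact hx
  · rw [Set.mem_preimage, h6]; exact hy.1
  · refine AlgHom.ext_of_adjoin_eq_top (adjoin_poly B) ?_
    rintro p (⟨f, rfl⟩ | rfl)
    · rw [aevalTower_C, h1]; rfl
    · rw [aevalTower_X, div_eq_iff (h5 x)]
      refine mul_right_cancel₀ (show 1 + x X ^ 2 ≠ 0 by positivity) ?_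
      rw [h3, mul_assoc, h4, mul_comm]
  · have hy2 := hy.2
    have hc := h.circ_pt y
    have e2 := h2 (aevalTower (y.comp j) (y v / y (1 + u)))
    have e3 := h3 (aevalTower (y.comp j) (y v / y (1 + u)))
    rw [aevalTower_X] at e2 e3
    have h0 : 1 + (y v / y (1 + u)) ^ 2 ≠ 0 := by positivity
    refine h.ext (by rw [h1, h6]) (mul_right_cancel₀ h0 (e2.trans ?_))
      (mul_right_cancel₀ h0 (e3.trans ?_))
    · rw [map_add, map_one] at hy2 ⊢
      field_simp
      linear_combination (-1 - y u) * hc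
    · rw [map_add, map_one] at hy2 ⊢
      field_simp
      linear_combination (-y v) * hc
  · refine reg_of_adjoin _ h.adj ?_
    have hq : ∀ x : Pt B[X], x (1 + X ^ 2) = 1 + x X ^ 2 := fun x => by simp
    rintro f (⟨f, rfl⟩ | rfl | rfl) b _
    · refine ⟨C f, 1, by simp, fun x _ _ => ?_⟩
      rw [map_one, mul_one]
      exact DFunLike.congr_fun (h1 x) f
    · refine ⟨1 - X ^ 2, 1 + X ^ 2, by rw [hq]; positivity, fun x _ _ => ?_⟩
      rw [hq, h2]; simp
    · refine ⟨2 * X, 1 + X ^ 2, by rw [hq]; positivity, fun x _ _ => ?_⟩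
      rw [hq, h3, map_mul, map_ofNat]
  · refine reg_of_adjoin _ (adjoin_poly B) ?_
    rintro p (⟨f, rfl⟩ | rfl) b hb
    · refine ⟨j f, 1, by simp, fun x _ _ => ?_⟩
      rw [aevalTower_C, map_one, mul_one]; rfl
    · refine ⟨v, 1 + u, hb.2, fun x _ hx => ?_⟩
      rw [aevalTower_X, div_mul_cancel₀ _ hx]

end MCirc

open MCirc in
theorem exists_circ (M : Model K n) {k : ℕ} {E : ℕ → Set M.P} (hE : M.Snc k E) :
    ∃ (K' : Type) (_ : Field K') (_ : Algebra ℝ K') (M' : Model K' (n + 1)) (E' : ℕ → Set M'.P)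
      (Φ : M'.P → M.P × (ℝ × ℝ)) (Ψ : M.P × (ℝ × ℝ) → M'.P), M'.Snc (k + 1) E' ∧
      Bireg (basePt ⁻¹' (⋃ i, E i)ᶜ) (⋃ i, E' i)ᶜ ∧ Continuous Φ ∧
      ContinuousOn Ψ (Set.univ ×ˢ circ) ∧ (∀ y, (Φ y).2 ∈ circ) ∧ (∀ y, Ψ (Φ y) = y) ∧
      (∀ x ∈ Set.univ ×ˢ circ, Φ (Ψ x) = x) ∧ (∀ i < k, ∀ y, y ∈ E' i ↔ (Φ y).1 ∈ E i) ∧
      ∀ y, y ∈ E' k ↔ (Φ y).2 = (-1, 0) := by
  obtain ⟨B', j, u, v, h⟩ := exists_par M.B
  let M' : Model (RatFunc K) (n + 1) :=
    { B := B'
      fg := h.fg M.fg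
      frac := h.frac M.frac
      cpt := h.cpt
      ne := by
        obtain ⟨b⟩ := M.ne
        obtain ⟨y, -⟩ := h.exists_pt M.fg b 0
        exact ⟨y⟩
      smooth := fun y => by
        obtain ⟨κ, hκ⟩ := M.smooth (y.comp j)
        rcases Par.cases y u with hy | hy
        · obtain ⟨κ', h', -⟩ := h.exists_chart hy hκ
          exact ⟨κ', h'⟩
        · obtain ⟨κ', h', -⟩ := h.inv.exists_chart hy hκ
          exact ⟨κ', h'⟩ }
  have : Nonempty M'.P := M'.ne
  have : Nonempty (Pt B') := M'.ne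
  have : CompactSpace M'.P := M'.cpt
  let Φ : M'.P → M.P × (ℝ × ℝ) := fun y => (y.comp j, (y u, y v))
  have hinj : Function.Injective Φ := fun y y' e =>
    h.ext (congrArg Prod.fst e) (congrArg (fun p => p.2.1) e) (congrArg (fun p => p.2.2) e)
  have hcont : Continuous Φ :=
    (continuous_pt fun f => continuous_ev (j f)).prodMk ((continuous_ev u).prodMk (continuous_ev v))
  have hr : ∀ x ∈ Set.univ ×ˢ circ, Φ (Function.invFun Φ x) = x := by
    intro x hx
    obtain ⟨y, h1, h2, h3⟩ := h.exists_pt_circ M.fg x.1 hx.2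
    exact Function.invFun_eq ⟨y, Prod.ext h1 (Prod.ext h2 h3)⟩
  refine ⟨RatFunc K, inferInstance, inferInstance, M', _, Φ, Function.invFun Φ,
    snc (M' := M') h hE, ?_, hcont, ?_, fun y => h.circ_pt y, Function.leftInverse_invFun hinj, hr,
    fun i hi y => ?_, fun y => ?_⟩
  · have e : (⋃ i, if i = k then {y : M'.P | y (1 + u) = 0} else
        (fun b : M'.P => b.comp j) ⁻¹' E i)ᶜ =
        {y : M'.P | y.comp j ∈ (⋃ i, E i)ᶜ ∧ y (1 + u) ≠ 0} := by
      ext y
      simp only [Set.mem_compl_iff, Set.mem_iUnion, not_exists, Set.mem_ofPred_eq]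
      refine ⟨fun h1 => ⟨fun i => ?_, by simpa using h1 k⟩, fun h1 i => ?_⟩
      · by_cases hi : i = k
        · rw [hE.bd i hi.ge]; exact id
        · simpa [hi] using h1 i
      · split_ifs
        · exact h1.2
        · exact h1.1 i
    rw [e]
    exact h.bireg M.fg _
  · rw [(hcont.isClosedEmbedding hinj).isInducing.continuousOn_iff]
    exact continuousOn_id.congr hr
  · rw [if_neg hi.ne]; rfl
  · rw [if_pos rfl]
    have h1 := h.circ_pt y
    simp only [Set.mem_ofPred_eq, Φ, Prod.mk.injEq, map_add, map_one]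
    refine ⟨fun h2 => ?_, fun h2 => by linarith [h2.1]⟩
    have h3 : y u = -1 := by linarith
    rw [h3] at h1
    exact ⟨h3, by nlinarith⟩

theorem exists_point : ∃ M : Model ℝ 0, Bireg (Set.univ : Set (Pt ℝ)) (Set.univ : Set M.P) ∧
    ∃ x : M.P, (Set.univ : Set M.P) = {x} := by
  have hs : ∀ b b' : Pt (⊤ : Subalgebra ℝ ℝ), b = b' := fun b b' => AlgHom.ext fun f => by
    have e : f = algebraMap ℝ (⊤ : Subalgebra ℝ ℝ) f.1 := rfl
    rw [e, AlgHom.commutes, AlgHom.commutes]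
  have : Subsingleton (Pt (⊤ : Subalgebra ℝ ℝ)) := ⟨hs⟩
  refine ⟨⟨⊤, Algebra.FiniteType.out, fun x => ⟨x, trivial, 1, trivial, one_ne_zero, mul_one x⟩,
    inferInstance, ⟨Subalgebra.val ⊤⟩, fun b => ⟨⟨Fin.elim0, Fin.elim0⟩, ?_, fun i => i.elim0,
      fun i => i.elim0⟩⟩, bireg_equiv Subalgebra.topEquiv.symm Set.univ,
    Subalgebra.val ⊤, Set.eq_singleton_iff_unique_mem.2 ⟨trivial, fun b _ => hs _ _⟩⟩
  rw [Set.range_eq_empty, Loc.span_empty, eq_comm, eq_bot_iff]
  intro f hf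
  have h1 := hf.2
  have h2 : f = algebraMap ℝ ℝ f := rfl
  rw [h2, Loc.ev_alg] at h1
  exact h1

theorem exists_torus (N : ℕ) :
    ∃ (K' : Type) (_ : Field K') (_ : Algebra ℝ K') (M' : Model K' N) (F : Set M'.P),
      ZClosed F ∧ van F ≠ ⊥ ∧ Bireg (Set.univ : Set (Pt (MvPolynomial (Fin N) ℝ))) Fᶜ := by
  have key : ∃ (K' : Type) (_ : Field K') (_ : Algebra ℝ K') (M' : Model K' N) (k : ℕ)
      (E : ℕ → Set M'.P), M'.Snc k E ∧
        Bireg (Set.univ : Set (Pt (MvPolynomial (Fin N) ℝ))) (⋃ i, E i)ᶜ := by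
    induction N with
    | zero =>
      obtain ⟨M, h, -⟩ := exists_point
      refine ⟨ℝ, inferInstance, inferInstance, M, 0, fun _ => ∅, Model.snc_empty 0, ?_⟩
      rw [Set.iUnion_empty, Set.compl_empty]
      exact (bireg_equiv (MvPolynomial.isEmptyAlgEquiv ℝ (Fin 0)) Set.univ).trans h
    | succ N ih =>
      obtain ⟨K', _, _, M, k, E, hE, h⟩ := ih
      obtain ⟨K'', _, _, M', E', -, -, hE', h', -⟩ := exists_circ M hE
      exact ⟨K'', inferInstance, inferInstance, M', k + 1, E', hE',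
        ((bireg_equiv (MvPolynomial.finSuccEquiv ℝ N) Set.univ).trans h.basePt).trans h'⟩
  obtain ⟨K', _, _, M, k, E, hE, h⟩ := key
  exact ⟨K', inferInstance, inferInstance, M, _, hE.closed_iUnion, hE.van_iUnion_ne_bot, h⟩

end Pool.Agent.MP_696f7f_ag.H96
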