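import Pool.Agent.MP_696f7f_ag.H96.BVal
import Pool.Agent.MP_696f7f_ag.H96.BTower
import Pool.Agent.MP_696f7f_ag.H96.MCirc

/-! Every constructible set has a value. -/

namespace Pool.Agent.MP_696f7f_ag.H96

variable {B : Type} [CommRing B] [Algebra ℝ B]

namespace BExist

theorem one_notMem {X : Set (Pt B)} (hp : (van X).IsPrime) : (1 : B) ∉ van X :=
  fun h => hp.ne_top ((Ideal.eq_top_iff_one _).2 h)

theorem subset_of_prime {X : Set (Pt B)} (hp : (van X).IsPrime) {ι : Type*} (t : Finset ι)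
    (F : ι → Set (Pt B)) (hF : ∀ i ∈ t, ZClosed (F i)) (h : X ⊆ ⋃ i ∈ t, F i) :
    ∃ i ∈ t, X ⊆ F i := by
  classical
  induction t using Finset.induction_on with
  | empty =>
    refine absurd (van_eq_top.2 (Set.eq_empty_of_subset_empty ?_)) hp.ne_top
    simpa using h
  | insert a t _ ih =>
    rw [Finset.set_biUnion_insert] at h
    rcases subset_or_of_prime hp (hF a (Finset.mem_insert_self _ _))
      (zclosed_biUnion t fun i hi => hF i (Finset.mem_insert_of_mem hi)) (one_notMem hp)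
      (fun b hb _ => h hb) with h1 | h1
    · exact ⟨a, Finset.mem_insert_self _ _, h1⟩
    · obtain ⟨i, hi, h2⟩ := ih (fun i hi => hF i (Finset.mem_insert_of_mem hi)) h1
      exact ⟨i, Finset.mem_insert_of_mem hi, h2⟩

/-- removing a closed set from both sides of a biregular map -/
theorem bireg_diff {B' : Type} [CommRing B'] [Algebra ℝ B'] {S : Set (Pt B)} {S' : Set (Pt B')}
    (h : Bireg S S') {C : Set (Pt B)} (hC : ZClosed C) :
    ∃ C', ZClosed C' ∧ Bireg (S \ C) (S' \ C') := by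
  obtain ⟨φ, ψ, h⟩ := h
  obtain ⟨C', hC', e⟩ := h.reg'.closed_preimage hC
  refine ⟨C', hC', φ, ψ, ?_⟩
  convert h.restrict (Set.sdiff_subset (t := C)) using 1
  ext y
  have := Set.ext_iff.1 e y
  have h2 := @h.maps' y
  simp only [Set.mem_inter_iff, Set.mem_preimage, Set.mem_sdiff] at this ⊢
  tauto

/-- intersecting both sides of a biregular map with a closed set -/
theorem bireg_inter {B' : Type} [CommRing B'] [Algebra ℝ B'] {S : Set (Pt B)} {S' : Set (Pt B')}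
    (h : Bireg S S') {C : Set (Pt B)} (hC : ZClosed C) :
    ∃ C', ZClosed C' ∧ Bireg (S ∩ C) (S' ∩ C') := by
  obtain ⟨φ, ψ, h⟩ := h
  obtain ⟨C', hC', e⟩ := h.reg'.closed_preimage hC
  refine ⟨C', hC', φ, ψ, ?_⟩
  convert h.restrict (Set.inter_subset_left (t := C)) using 1
  ext y
  have := Set.ext_iff.1 e y
  have h2 := @h.maps' y
  simp only [Set.mem_inter_iff, Set.mem_preimage] at this ⊢
  tauto

theorem res_model {X : Set (Pt B)} (hp : (van X).IsPrime) {K : Type} [Field K] [Algebra ℝ K]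
    {n : ℕ} {M : Model K n} {k : ℕ} {E : ℕ → Set M.P} {S : M.Obj} (hr : Res M k E S) :
    ∀ (F : Set M.P) (X0 : Set (Pt B)), ZClosed F → ZClosed X0 → (X \ X0).Nonempty →
      Bireg (X \ X0) (M.cos S \ F) →
    ∃ (K : Type) (_ : Field K) (_ : Algebra ℝ K) (n : ℕ) (M : Model K n) (F : Set M.P)
      (X0 : Set (Pt B)), ZClosed F ∧ van F ≠ ⊥ ∧ ZClosed X0 ∧ Bireg (X \ X0) Fᶜ := by
  induction hr with
  | done h0 =>
    intro F X0 _ _ hne hb
    obtain ⟨y, hy, -⟩ := hb.nonempty hne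
    rw [h0] at hy
    exact hy.elim
  | @step M k E S C M' h hC _ ih =>
    intro F X0 hF hX0 hne hb
    have hCc := hC.centre.closed
    by_cases hsub : M.cos S \ F ⊆ C
    · obtain ⟨t, ht, -, hCt⟩ := hC.centre.sm.decomp
      obtain ⟨φ, ψ, hφ⟩ := hb
      have hY : ∀ Y : Set M.P, ∃ Y0, Y ∈ t → ZClosed Y0 ∧ (X \ X0) ∩ φ ⁻¹' Y = (X \ X0) ∩ Y0 := by
        intro Y
        by_cases hY : Y ∈ t
        · obtain ⟨Y0, h1, h2⟩ := hφ.reg.closed_preimage (ht Y hY).1
          exact ⟨Y0, fun _ => ⟨h1, h2⟩⟩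
        · exact ⟨∅, fun h => absurd h hY⟩
      choose Y0 hY0 using hY
      have hcl : ZClosed (⋃ Y ∈ t, Y0 Y) := zclosed_biUnion t fun Y hY => (hY0 Y hY).1
      have hcov : ∀ b ∈ X, b (1 : B) ≠ 0 → b ∈ X0 ∪ ⋃ Y ∈ t, Y0 Y := by
        intro b hb _
        by_cases hb0 : b ∈ X0
        · exact Or.inl hb0
        · have h1 := hsub (hφ.maps ⟨hb, hb0⟩)
          rw [hCt] at h1
          obtain ⟨Y, hY, h2⟩ := Set.mem_iUnion₂.1 h1
          have h3 : b ∈ (X \ X0) ∩ φ ⁻¹' Y := ⟨⟨hb, hb0⟩, h2⟩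
          rw [(hY0 Y hY).2] at h3
          exact Or.inr (Set.mem_iUnion₂.2 ⟨Y, hY, h3.2⟩)
      rcases subset_or_of_prime hp hX0 hcl (one_notMem hp) hcov with h1 | h1
      · obtain ⟨x, hx, hx0⟩ := hne
        exact absurd (h1 hx) hx0
      obtain ⟨Y, hY, hXY⟩ := subset_of_prime hp t Y0 (fun Y hY => (hY0 Y hY).1) h1
      have he : M.cos S \ F = Y \ F := by
        refine Set.Subset.antisymm (fun y hy => ⟨?_, hy.2⟩) fun y hy => ⟨?_, hy.2⟩
        · have h2 := hφ.maps' hy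
          have h3 : ψ y ∈ (X \ X0) ∩ Y0 Y := ⟨h2, hXY h2.1⟩
          rw [← (hY0 Y hY).2] at h3
          have h4 : φ (ψ y) ∈ Y := h3.2
          rwa [hφ.right y hy] at h4
        · refine hC.subset_cos ?_
          rw [hCt]
          exact Set.mem_iUnion₂.2 ⟨Y, hY, hy.1⟩
      obtain ⟨K', _, _, n', M1, hM1⟩ := (ht Y hY).2
      obtain ⟨F1, hF1, hb1⟩ := bireg_diff hM1 hF
      have hb2 : Bireg (X \ X0) F1ᶜ := by
        rw [Set.compl_eq_univ_sdiff]
        exact Bireg.trans (he ▸ ⟨φ, ψ, hφ⟩) hb1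
      refine ⟨K', _, _, n', M1, F1, X0, hF1, hF1.van_ne_bot fun h0 => ?_, hX0, hb2⟩
      obtain ⟨y, hy⟩ := hb2.nonempty hne
      exact hy (h0 ▸ Set.mem_univ y)
    · obtain ⟨C0, hC0, hb1⟩ := bireg_diff hb.symm hCc
      rw [Set.sdiff_sdiff, Set.sdiff_sdiff] at hb1
      obtain ⟨φ, hφ⟩ := (h.ident hCc (Set.subset_union_right (s := F))).biregBy_dom h.dom
      have hb2 : Bireg (M.cos S \ (F ∪ C)) (M'.cos (h.tr S) \ h.π ⁻¹' (F ∪ C)) := by
        refine ⟨φ, h.dom.map, ?_⟩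
        convert hφ.restrict (T := M.cos S \ (F ∪ C)) (fun _ hx => hx.2) using 1
        ext y
        constructor
        · rintro ⟨h1, h2⟩
          exact ⟨h2, (h.cos_tr_off hCc fun h3 => h2 (Or.inr h3)).1 h1, h2⟩
        · rintro ⟨h2, h1, -⟩
          exact ⟨(h.cos_tr_off hCc fun h3 => h2 (Or.inr h3)).2 h1, h2⟩
      refine ih _ _ (h.dom.zclosed (hF.union hCc)) (hX0.union hC0) (hb1.nonempty ?_)
        (hb1.symm.trans hb2)
      obtain ⟨y, hy, hyC⟩ := Set.not_subset.1 hsub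
      exact ⟨y, hy.1, fun h => h.elim hy.2 hyC⟩

end BExist

open BExist

variable [Algebra.FiniteType ℝ B]

/-- resolution of singularities: an irreducible closed set is birational to a model -/
theorem exists_model (hP : PrincStmt) {X : Set (Pt B)} (hX : ZClosed X) (hp : (van X).IsPrime) :
    ∃ (K : Type) (_ : Field K) (_ : Algebra ℝ K) (n : ℕ) (M : Model K n) (F : Set M.P)
      (X0 : Set (Pt B)), ZClosed F ∧ van F ≠ ⊥ ∧ ZClosed X0 ∧ Bireg (X \ X0) Fᶜ := by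
  have hXne : X.Nonempty :=
    Set.nonempty_iff_ne_empty.2 fun h => hp.ne_top (van_eq_top.2 h)
  have : Nonempty (Pt B) := ⟨hXne.some⟩
  obtain ⟨N, A, hA, hbA⟩ := exists_bireg_affine (B := B)
  obtain ⟨K, _, _, M, F, hF, hne, hbF⟩ := exists_torus N
  obtain ⟨A1, hA1, hb1⟩ := bireg_inter hbA hX
  obtain ⟨Z, hZ, hb2⟩ := bireg_inter hbF (hA.inter hA1)
  rw [Set.univ_inter] at hb1 hb2
  have hb : Bireg (X \ ∅) (Z \ F) := by
    rw [Set.sdiff_empty, Set.sdiff_eq, Set.inter_comm]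
    exact hb1.trans hb2
  by_cases hZu : Z = Set.univ
  · refine ⟨K, _, _, N, M, F, ∅, hF, hne, zclosed_empty, ?_⟩
    rwa [hZu, ← Set.compl_eq_univ_sdiff] at hb
  obtain ⟨f, -, hf⟩ := hZ.exists_eq
  have hf0 : (f : K) ≠ 0 := by
    intro h0
    have : f = 0 := Subtype.ext h0
    exact hZu (by rw [hf, this]; simp)
  have hr := hP K N M 0 (fun _ => ∅) {(f : K)} (Model.snc_empty 0) (Set.finite_singleton _)
    (by simp) ⟨f, rfl, hf0⟩
  have hcos : M.cos (fun _ => wt {(f : K)} 1) = Z := by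
    ext b
    change (M.loc b).Cos _ ↔ _
    rw [cos_wt_one, hf]
    simp only [Set.mem_singleton_iff, forall_eq, Loc.mem_m, Model.loc_ev, Set.mem_ofPred_eq]
    exact and_iff_right (M.le_loc b f.2)
  refine res_model hp hr F ∅ hF zclosed_empty ?_ (hcos ▸ hb)
  rwa [Set.sdiff_empty]

theorem exists_val (T : CohF) (hP : PrincStmt) {S : Set (Pt B)} (hS : Constr S) :
    ∃ p, Val T S p := by
  refine zclosed_induction (Q := fun X : Set (Pt B) => ∀ S, Constr S → S ⊆ X → ∃ p, Val T S p)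
    ?_ zclosed_univ S hS (Set.subset_univ _)
  intro X hX ih S hS hSX
  by_cases hp : (van X).IsPrime
  swap
  · rcases hX.split hp with rfl | ⟨X1, X2, h1, h2, h1X, h2X, rfl⟩
    · rw [Set.eq_empty_of_subset_empty hSX]
      exact ⟨_, Val.empty⟩
    · obtain ⟨p1, hp1⟩ := ih X1 h1 h1X (S ∩ X1) (hS.inter h1.constr) Set.inter_subset_right
      obtain ⟨p2, hp2⟩ := ih X2 h2 h2X (S \ X1) (hS.diff h1.constr)
        fun b hb => (hSX hb.1).resolve_left hb.2
      rw [← Set.inter_union_sdiff S X1]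
      exact ⟨_, hp1.union hp2 Set.disjoint_sdiff_inter.symm⟩
  obtain ⟨q, hq, hd⟩ := hS.dichotomy hp
  have hqX : ¬ X ⊆ {b | b q = 0} := fun h => hq fun b hb => h hb
  rcases hd with hd | hd
  swap
  · refine ih (X ∩ {b | b q = 0}) (hX.inter (zclosed_zero q))
      ⟨Set.inter_subset_left, fun h => hqX (h.trans Set.inter_subset_right)⟩ S hS
      fun b hb => ⟨hSX hb, ?_⟩
    by_contra h0
    exact hd b (hSX hb) h0 hb
  obtain ⟨K, _, _, n, M, F, X0, hF, hne, hX0, hb⟩ := exists_model hP hX hp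
  have hX1 : ZClosed (X0 ∪ {b | b q = 0}) := hX0.union (zclosed_zero q)
  have hns : ¬ X ⊆ X0 ∪ {b | b q = 0} := by
    intro h
    rcases subset_or_of_prime hp hX0 (zclosed_zero q) (one_notMem hp) fun b hb _ => h hb
      with h1 | h1
    · obtain ⟨y, hy⟩ := Model.exists_notMem hne
      obtain ⟨x, hx⟩ := hb.symm.nonempty ⟨y, hy⟩
      exact hx.2 (h1 hx.1)
    · exact hqX h1
  obtain ⟨F1, hF1, hb1⟩ := bireg_diff hb (zclosed_zero q)
  rw [Set.sdiff_sdiff, Set.sdiff_eq Fᶜ, ← Set.compl_union] at hb1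
  have hFF := hF.union hF1
  obtain ⟨M', k, E, hE, hb2⟩ := sncify hP M hFF
    (hFF.van_ne_bot fun h0 => by
      obtain ⟨y, hy⟩ := hb1.nonempty (Set.sdiff_nonempty.2 hns)
      exact hy (h0 ▸ Set.mem_univ y))
    (fun _ F' => Bireg (X \ (X0 ∪ {b | b q = 0})) F'ᶜ) hb1
    (fun M1 M2 F1 C k E h _ hC _ _ hCF hi => by
      obtain ⟨φ, hφ⟩ := (h.ident hC.closed hCF).biregBy_dom h.dom
      exact hi.trans ⟨φ, _, hφ⟩)
  have hv := Val.piece (T := T) K n M' k E hE (hX.constr.diff hX1.constr) hb2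
  obtain ⟨p1, hp1⟩ := ih (X ∩ (X0 ∪ {b | b q = 0})) (hX.inter hX1)
    ⟨Set.inter_subset_left, fun h => hns (h.trans Set.inter_subset_right)⟩
    (S ∩ (X0 ∪ {b | b q = 0})) (hS.inter hX1.constr) (Set.inter_subset_inter_left _ hSX)
  have he : S = S ∩ (X0 ∪ {b | b q = 0}) ∪ X \ (X0 ∪ {b | b q = 0}) := by
    refine Set.Subset.antisymm (fun b hb => ?_) ?_
    · by_cases h : b ∈ X0 ∪ {b | b q = 0}
      · exact Or.inl ⟨hb, h⟩
      · exact Or.inr ⟨hSX hb, h⟩
    · rintro b (hb | hb)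
      · exact hb.1
      · exact hd b hb.1 fun h => hb.2 (Or.inr h)
  rw [he]
  exact ⟨_, hp1.union hv (Set.disjoint_left.2 fun b hb hb' => hb'.2 hb.2)⟩

end Pool.Agent.MP_696f7f_ag.H96
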