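import Pool.Agent.MP_696f7f_ag.H96.BUniq

/-! Virtual Betti numbers exist. -/

namespace Pool.Agent.MP_696f7f_ag.H96

variable {T : CohF} {B : Type} [CommRing B] [Algebra ℝ B]

theorem Val.line (hT : T.IsCoh) {S : Set (Pt B)} {p : ℕ → ℤ} (h : Val T S p) :
    ∃ p', Val T (basePt ⁻¹' S) p' ∧ p' 0 = 0 ∧ ∀ a, p' (a + 1) = p a := by
  induction h with
  | empty => exact ⟨0, Val.empty, rfl, fun _ => rfl⟩
  | union _ _ hd ih ih' =>
    obtain ⟨q, hq, h0, h1⟩ := ih
    obtain ⟨q', hq', h0', h1'⟩ := ih'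
    exact ⟨q + q', hq.union hq' (hd.preimage _), by simp [h0, h0'], fun a => by simp [h1, h1']⟩
  | piece K n M k E hE hS hb =>
    obtain ⟨K', _, _, M', E', Φ, Ψ, hE', hb', hΦ, hΨ, hc, hl, hr, hi, hk⟩ := exists_circ M hE
    have hpt : ((-1, 0) : ℝ × ℝ) ∈ circ := by simp [circ]
    have e1 : ∀ I ∈ (Finset.range k).powerset, ∀ a,
        T.bt a (strat E' I) = T.bt a (strat E I ×ˢ circ) := by
      intro I hI a
      have hI' : ∀ i ∈ I, i < k := fun i h => Finset.mem_range.1 (Finset.mem_powerset.1 hI h)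
      refine T.bt_eq_of_inv (A := strat E' I) (A' := strat E I ×ˢ circ) hΦ.continuousOn
        (hΨ.mono (Set.prod_mono_left (Set.subset_univ _)))
        (fun y hy => ⟨fun i h => (hi i (hI' i h) y).1 (hy i h), hc y⟩)
        (fun x hx i h => (hi i (hI' i h) _).2 ?_) (fun y _ => hl y)
        (fun x hx => hr x ⟨trivial, hx.2⟩) a
      rw [hr x ⟨trivial, hx.2⟩]
      exact hx.1 i h
    have e2 : ∀ I ∈ (Finset.range k).powerset, ∀ a,
        T.bt a (strat E' (insert k I)) = T.bt a (strat E I) := by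
      intro I hI a
      have hI' : ∀ i ∈ I, i < k := fun i h => Finset.mem_range.1 (Finset.mem_powerset.1 hI h)
      refine T.bt_eq_of_inv (A := strat E' (insert k I)) (A' := strat E I)
        (φ := fun y => (Φ y).1) (ψ := fun x => Ψ (x, (-1, 0))) hΦ.fst.continuousOn
        (hΨ.comp (continuous_id.prodMk continuous_const).continuousOn fun x _ => ⟨trivial, hpt⟩)
        (fun y hy i h => (hi i (hI' i h) y).1 (hy i (Finset.mem_insert_of_mem h)))
        (fun x hx i h => ?_) (fun y hy => ?_) (fun x _ => ?_) a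
      · rcases Finset.mem_insert.1 h with rfl | h
        · rw [hk, hr (x, (-1, 0)) ⟨trivial, hpt⟩]
        · rw [hi i (hI' i h), hr (x, (-1, 0)) ⟨trivial, hpt⟩]
          exact hx i h
      · rw [← (hk y).1 (hy k (Finset.mem_insert_self _ _))]
        exact hl y
      · rw [hr (x, (-1, 0)) ⟨trivial, hpt⟩]
    have e3 : ∀ a, (M'.pr hE').eul T a = ∑ I ∈ (Finset.range k).powerset,
        (-1) ^ I.card * (T.bt a (strat E I ×ˢ circ) - T.bt a (strat E I)) := by
      intro a
      change ∑ I ∈ (Finset.range (k + 1)).powerset, (-1) ^ I.card * T.bt a (strat E' I) = _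
      rw [Finset.range_add_one, Finset.sum_powerset_insert Finset.notMem_range_self,
        ← Finset.sum_add_distrib]
      refine Finset.sum_congr rfl fun I hI => ?_
      have hkI : k ∉ I := fun h => Finset.notMem_range_self (Finset.mem_powerset.1 hI h)
      rw [e1 I hI, e2 I hI, Finset.card_insert_of_notMem hkI]
      ring
    have hcpt : ∀ I, IsCompact (strat E I) := fun I => (hE.sm_strat I).closed.isClosed.isCompact
    refine ⟨_, Val.piece K' (n + 1) M' (k + 1) E' hE' hS.basePt (hb.basePt.trans hb'), ?_,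
      fun a => ?_⟩
    · rw [e3]
      refine Finset.sum_eq_zero fun I _ => ?_
      obtain ⟨e⟩ := hT.circ0 (hcpt I)
      rw [CohF.bt, e.finrank_eq, CohF.bt, sub_self, mul_zero]
    · rw [e3]
      refine Finset.sum_congr rfl fun I _ => ?_
      obtain ⟨e⟩ := hT.circS a (hcpt I)
      have := (hE.sm_strat I).finite hT a
      have := (hE.sm_strat I).finite hT (a + 1)
      rw [CohF.bt, e.finrank_eq, Module.finrank_prod, Nat.cast_add, CohF.bt, add_sub_cancel_left]
      rfl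

theorem val_point (hT : T.IsCoh) :
    ∃ p, Val T (Set.univ : Set (Pt ℝ)) p ∧ p 0 = 1 ∧ ∀ a, p (a + 1) = 0 := by
  obtain ⟨M, hb, x, hx⟩ := exists_point
  have e : ∀ a, (M.pr (Model.snc_empty 0)).eul T a = T.bt a ({x} : Set M.P) := by
    intro a
    change ∑ I ∈ (Finset.range 0).powerset,
      (-1) ^ I.card * T.bt a (strat (fun _ => (∅ : Set M.P)) I) = _
    have : strat (fun _ => (∅ : Set M.P)) ∅ = {x} := by
      rw [← hx]
      exact Set.eq_univ_of_forall fun _ _ h => absurd h (Finset.notMem_empty _)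
    simp [this]
  refine ⟨_, Val.piece ℝ 0 M 0 (fun _ => ∅) (Model.snc_empty 0) constr_univ (by simpa using hb),
    ?_, fun a => ?_⟩
  · rw [e, hT.pt0]
  · have := hT.pt a x
    rw [e, CohF.bt, Module.finrank_zero_of_subsingleton, Nat.cast_zero]

theorem betaStmt_of (hP : PrincStmt) (hC : CohStmt) (hW : WStmt) : BetaStmt := by
  classical
  obtain ⟨T, hT⟩ := hC
  obtain ⟨QI, hQ⟩ := hW T hT
  let β : BetaFun := fun B _ _ S => if h : ∃ p, Val T S p then h.choose else 0
  have hβ : ∀ (B : Type) [CommRing B] [Algebra ℝ B] [Algebra.FiniteType ℝ B] (S : Set (Pt B))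
      (p : ℕ → ℤ), Val T S p → β B S = p := by
    intro B _ _ _ S p hp
    have h : ∃ p, Val T S p := ⟨p, hp⟩
    obtain ⟨t, ht⟩ := exists_td S
    change (if h : ∃ p, Val T S p then h.choose else 0) = p
    rw [dif_pos h]
    exact uniq hP hT hQ t B S _ _ ht h.choose_spec hp
  refine ⟨β, ?_, ?_, ?_, ?_, ?_, ?_, ?_⟩
  · intro B _ _ _ S S' hS hS' hd a
    obtain ⟨p, hp⟩ := exists_val T hP hS
    obtain ⟨p', hp'⟩ := exists_val T hP hS'
    rw [hβ B _ _ (hp.union hp' hd), hβ B _ _ hp, hβ B _ _ hp']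
    rfl
  · intro B B' _ _ _ _ _ _ S S' φ ψ hS hS' h
    obtain ⟨p, hp⟩ := exists_val T hP hS
    rw [hβ B _ _ hp, hβ B' _ _ (hp.bireg hS' ⟨φ, ψ, h⟩)]
  · intro B _ _ _ S hS
    obtain ⟨p, hp⟩ := exists_val T hP hS
    obtain ⟨p', hp', h0, -⟩ := hp.line hT
    rw [hβ _ _ _ hp', h0]
  · intro B _ _ _ S hS a
    obtain ⟨p, hp⟩ := exists_val T hP hS
    obtain ⟨p', hp', -, h1⟩ := hp.line hT
    rw [hβ _ _ _ hp', hβ _ _ _ hp, h1]
  · intro B _ _ _ S hS a ha
    obtain ⟨p, hp⟩ := exists_val T hP hS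
    rw [hβ _ _ _ hp]
    exact hp.deg hT ha
  · obtain ⟨p, hp, h0, -⟩ := val_point hT
    rw [hβ _ _ _ hp, h0]
  · intro a
    obtain ⟨p, hp, -, h1⟩ := val_point hT
    rw [hβ _ _ _ hp, h1]

end Pool.Agent.MP_696f7f_ag.H96
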