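import Pool.Agent.MP_696f7f_ag.H96.BExist

/-! The value of a constructible set is unique. -/

namespace Pool.Agent.MP_696f7f_ag.H96

variable {T : CohF} {QI : (P' P : Pr) → (P'.X → P.X) → Prop}

/-- uniqueness in dimension less than `t` -/
def Uniq (T : CohF) (t : ℕ) : Prop :=
  ∀ (B : Type) [CommRing B] [Algebra ℝ B] [Algebra.FiniteType ℝ B] (S : Set (Pt B))
    (p p' : ℕ → ℤ), TD S t → Val T S p → Val T S p' → p = p'

variable {K : Type} [Field K] [Algebra ℝ K] {n t : ℕ}

namespace BUniq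

open Set

section
variable {B : Type} [CommRing B] [Algebra ℝ B]

theorem val_congr {S S' : Set (Pt B)} {p p' : ℕ → ℤ} (h : Val T S p) (hS : S = S')
    (hp : p = p') : Val T S' p' := hS ▸ hp ▸ h

open Classical in
/-- a chosen value -/
noncomputable def nu (T : CohF) (S : Set (Pt B)) : ℕ → ℤ :=
  if h : ∃ p, Val T S p then h.choose else 0

theorem val_nu [Algebra.FiniteType ℝ B] (hP : PrincStmt) {S : Set (Pt B)} (hS : Constr S) :
    Val T S (nu T S) := by
  have h : ∃ p, Val T S p := exists_val T hP hS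
  rw [nu, dif_pos h]
  exact h.choose_spec

theorem nu_eq [Algebra.FiniteType ℝ B] (hP : PrincStmt) (hU : Uniq T t) {S : Set (Pt B)}
    (hS : TD S t) {p : ℕ → ℤ} (h : Val T S p) : nu T S = p :=
  hU B S _ _ hS (val_nu hP h.constr) h

theorem constr_strat [Algebra.FiniteType ℝ B] {E : ℕ → Set (Pt B)} (hE : ∀ i, ZClosed (E i))
    (I : Finset ℕ) : Constr (strat E I) := by
  have : strat E I = ⋂ i : I, E i := by
    ext x
    simp [strat]
  rw [this]
  exact (zclosed_iInter fun i : I => hE i).constr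

theorem incl_excl [Algebra.FiniteType ℝ B] (hP : PrincStmt) (hU : Uniq T t) {F : Set (Pt B)}
    (hF : TD F t) {E : ℕ → Set (Pt B)} (hE : ∀ i, ZClosed (E i)) (a : ℕ) (j : ℕ) :
    ∀ A : Set (Pt B), Constr A → A ⊆ F →
      nu T (A \ ⋃ i ∈ Finset.range j, E i) a =
        ∑ I ∈ (Finset.range j).powerset, (-1) ^ I.card * nu T (A ∩ strat E I) a := by
  induction j with
  | zero =>
    intro A _ _
    simp [strat]
  | succ j ih =>
    intro A hA hAF
    have hc : ∀ l, Constr (⋃ i ∈ Finset.range l, E i) := fun l =>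
      constr_biUnion _ fun i _ => (hE i).constr
    have h1 := ih A hA hAF
    have h2 := ih (A ∩ E j) (hA.inter (hE j).constr) (inter_subset_left.trans hAF)
    have hv1 : Val T (A \ ⋃ i ∈ Finset.range (j + 1), E i) (nu T _) := val_nu hP (hA.diff (hc _))
    have hv2 : Val T ((A ∩ E j) \ ⋃ i ∈ Finset.range j, E i) (nu T _) :=
      val_nu hP ((hA.inter (hE j).constr).diff (hc _))
    have hd : Disjoint (A \ ⋃ i ∈ Finset.range (j + 1), E i)
        ((A ∩ E j) \ ⋃ i ∈ Finset.range j, E i) := by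
      rw [Set.disjoint_left]
      intro x hx hx'
      exact hx.2 (mem_biUnion (Finset.mem_coe.mpr (Finset.self_mem_range_succ j)) hx'.1.2)
    have he : (A \ ⋃ i ∈ Finset.range (j + 1), E i) ∪ ((A ∩ E j) \ ⋃ i ∈ Finset.range j, E i) =
        A \ ⋃ i ∈ Finset.range j, E i := by
      rw [Finset.range_add_one, Finset.set_biUnion_insert]
      ext x
      simp only [mem_union, mem_sdiff, mem_inter_iff]
      tauto
    have h3 := nu_eq hP hU (hF.mono (sdiff_subset.trans hAF))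
      (val_congr (hv1.union hv2 hd) he rfl)
    have h4 := congrFun h3 a
    rw [Pi.add_apply, h1, h2] at h4
    rw [Finset.range_add_one, Finset.sum_powerset_insert Finset.notMem_range_self,
      ← Finset.range_add_one, h4, add_assoc, ← Finset.sum_add_distrib]
    rw [Finset.sum_eq_zero, add_zero]
    intro I hI
    have hj : j ∉ I := fun h => Finset.notMem_range_self (Finset.mem_powerset.mp hI h)
    have : A ∩ strat E (insert j I) = A ∩ E j ∩ strat E I := by
      ext x
      simp [strat, and_assoc]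
    rw [Finset.card_insert_of_notMem hj, this]
    ring

end

theorem td_of_fd_all {M : Model K n} (h : FD K t) (S : Set M.P) : TD S t := by
  intro f
  obtain ⟨P, hP, h0⟩ := h fun i => (f i : K)
  refine ⟨P, hP, fun b _ => ?_⟩
  have h1 : MvPolynomial.aeval f P = 0 := by
    apply Subtype.ext
    exact (MvPolynomial.comp_aeval_apply f M.B.val P).trans h0
  rw [← MvPolynomial.comp_aeval_apply f b P, h1, map_zero]

end BUniq

open BUniq Set

/-- inclusion and exclusion -/
theorem eul_add_val (hP : PrincStmt) (hT : T.IsCoh) (hU : Uniq T t) (hK : FD K (t + 1))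
    {M : Model K n} {k : ℕ} {E : ℕ → Set M.P} (hE : M.Snc k E) {q : ℕ → ℤ}
    (hq : Val T (⋃ i, E i) q) (a : ℕ) :
    (M.pr hE).eul T a + q a = T.bt a (Set.univ : Set M.P) := by
  have hF : TD (⋃ i, E i) t := td_of_fd hE.van_iUnion_ne_bot hK
  have h1 := incl_excl hP hU hF hE.closed a k (⋃ i, E i) hq.constr subset_rfl
  have h2 : ((⋃ i, E i) \ ⋃ i ∈ Finset.range k, E i) = ∅ := by
    rw [sdiff_eq_empty]
    intro x hx
    obtain ⟨i, hi⟩ := mem_iUnion.mp hx
    have hik : i < k := by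
      by_contra h
      rw [hE.bd i (not_lt.mp h)] at hi
      exact hi
    exact mem_biUnion (Finset.mem_coe.mpr (Finset.mem_range.mpr hik)) hi
  rw [h2, nu_eq hP hU (hF.mono (empty_subset _)) Val.empty] at h1
  have h0 : (∅ : Finset ℕ) ∈ (Finset.range k).powerset := Finset.empty_mem_powerset _
  have hs : strat E ∅ = univ := by
    ext x
    simp [strat]
  have h3 : (M.pr hE).eul T a =
      ∑ I ∈ (Finset.range k).powerset, (-1) ^ I.card * T.bt a (strat E I) := rfl
  rw [← Finset.add_sum_erase _ _ h0] at h1 h3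
  rw [hs] at h1 h3
  rw [inter_univ, nu_eq hP hU hF hq] at h1
  have h4 : ∑ I ∈ ((Finset.range k).powerset).erase ∅,
      (-1) ^ I.card * nu T ((⋃ i, E i) ∩ strat E I) a =
      ∑ I ∈ ((Finset.range k).powerset).erase ∅, (-1) ^ I.card * T.bt a (strat E I) := by
    refine Finset.sum_congr rfl fun I hI => ?_
    obtain ⟨i, hi⟩ := Finset.nonempty_iff_ne_empty.mpr (Finset.ne_of_mem_erase hI)
    have hsub : strat E I ⊆ ⋃ i, E i := fun x hx => mem_iUnion.mpr ⟨i, hx i hi⟩
    rw [inter_eq_right.mpr hsub, nu_eq hP hU (hF.mono hsub) ((hE.sm_strat I).val hT)]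
  rw [h4] at h1
  rw [h3]
  simp only [Finset.card_empty, pow_zero, one_mul, Pi.zero_apply] at h1 ⊢
  linarith

namespace BUniq

theorem half (hP : PrincStmt) (hT : T.IsCoh) (hU : Uniq T t) (hK : FD K (t + 1))
    {M : Model K n} {F : Set M.P} (hF : ZClosed F) (hne : van F ≠ ⊥) {q : ℕ → ℤ}
    (hq : Val T F q) :
    ∃ (M' : Model K n) (k : ℕ) (E : ℕ → Set M'.P) (hE : M'.Snc k E), Ident M F M' (⋃ i, E i) ∧
      ∀ a, (M'.pr hE).eul T a = T.bt a (Set.univ : Set M.P) - q a := by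
  obtain ⟨M', k, E, hE, hi, hv⟩ := sncify hP M hF hne
    (fun M' F' => Ident M F M' F' ∧ ∀ q', Val T F' q' → ∀ a,
      T.bt a (Set.univ : Set M'.P) - q' a = T.bt a (Set.univ : Set M.P) - q a)
    ⟨Ident.refl F, fun q' hq' a => by rw [hU _ F q' q (td_of_fd hne hK) hq' hq]⟩
    (by
      rintro M1 M2 F1 C k E h hE hC hF1 hne1 hCF ⟨hi, hv⟩
      refine ⟨hi.trans (h.ident hC.closed hCF), fun q' hq' a => ?_⟩
      obtain ⟨r, hr⟩ := exists_val T hP (hF1.constr.diff hC.closed.constr)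
      have h1 : Val T F1 (r + fun a => T.bt a C) :=
        val_congr (hr.union (hC.sm.val hT) disjoint_sdiff_left) (sdiff_union_of_subset hCF) rfl
      obtain ⟨φ, hφ⟩ := (h.ident hC.closed subset_rfl).biregBy_dom h.dom
      have hb := hφ.restrict (T := F1 \ C) fun x hx => hx.2
      have hcl : ZClosed (h.π ⁻¹' F1) := h.dom.zclosed hF1
      have hcl' : ZClosed (h.π ⁻¹' C) := h.dom.zclosed hC.closed
      have he : (h.π ⁻¹' C)ᶜ ∩ h.dom.map ⁻¹' (F1 \ C) = h.π ⁻¹' F1 \ h.π ⁻¹' C := by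
        ext x
        simp only [mem_inter_iff, mem_compl_iff, mem_preimage, mem_sdiff, IsBl.π]
        tauto
      rw [he] at hb
      have h2 : Val T (h.π ⁻¹' F1 \ h.π ⁻¹' C) r :=
        hr.bireg (hcl.constr.diff hcl'.constr) ⟨_, _, hb⟩
      have h3 : Val T (h.π ⁻¹' F1) (r + fun a => T.bt a (h.π ⁻¹' C)) :=
        val_congr (h2.union ((h.sm_exc hC.sm).val hT) disjoint_sdiff_left)
          (sdiff_union_of_subset (preimage_mono hCF)) rfl
      have h4 := hU _ _ _ _ (td_of_fd (h.dom.van_ne_bot hne1) hK) hq' h3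
      have h5 := hv _ h1 a
      have h6 := h.bt hT hE hC a
      rw [h4, ← h5]
      simp only [Pi.add_apply]
      linarith)
  refine ⟨M', k, E, hE, hi, fun a => ?_⟩
  obtain ⟨q', hq'⟩ := exists_val T hP hE.closed_iUnion.constr
  have h1 := eul_add_val hP hT hU hK hE hq' a
  have h2 := hv q' hq' a
  linarith

end BUniq

/-- the key comparison of two models of the same field -/
theorem key (hP : PrincStmt) (hT : T.IsCoh) (hQ : IsQI T QI) (hU : Uniq T t) (hK : FD K (t + 1))
    {n2 : ℕ} {M : Model K n} {M2 : Model K n2} {F : Set M.P} {F2 : Set M2.P} (hF : ZClosed F)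
    (hne : van F ≠ ⊥) (hF2 : ZClosed F2) (hne2 : van F2 ≠ ⊥) (hi : Ident M F M2 F2)
    {q q2 : ℕ → ℤ} (hq : Val T F q) (hq2 : Val T F2 q2) (a : ℕ) :
    T.bt a (Set.univ : Set M.P) - q a = T.bt a (Set.univ : Set M2.P) - q2 a := by
  obtain ⟨M', k, E, hE, hi', h1⟩ := half hP hT hU hK hF hne hq
  obtain ⟨M2', k2, E2, hE2, hi2', h2⟩ := half hP hT hU hK hF2 hne2 hq2
  rw [← h1, ← h2, eul_eq hP hT hQ M' hE M2' hE2 ((hi'.symm.trans hi).trans hi2')]

namespace BUniq

/-- the open part of a model with boundary has only one value -/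
theorem open_uniq (hP : PrincStmt) (hT : T.IsCoh) (hQ : IsQI T QI) (hU : Uniq T t)
    (hK : FD K (t + 1)) {M : Model K n} {k : ℕ} {E : ℕ → Set M.P} (hE : M.Snc k E) {p' : ℕ → ℤ}
    (hp' : Val T (⋃ i, E i)ᶜ p') : (M.pr hE).eul T = p' := by
  obtain ⟨S0, p0, hS0V, hS0, ⟨K0, _, _, n0, M0, k0, E0, hE0, hc0, ⟨φ, ψ, hb⟩, rfl⟩, hrest⟩ :=
    hp'.exists_dense (Model.van_compl hE.van_iUnion_ne_bot)
  have hprime : (van (univ : Set M.P)).IsPrime := by
    rw [Model.van_univ]
    exact Ideal.isPrime_bot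
  obtain ⟨q, hq0, hq⟩ := hc0.dichotomy hprime
  have hqne : q ≠ 0 := fun h => hq0 (h ▸ zero_mem _)
  have hqS : ∀ b : M.P, b q ≠ 0 → b ∈ S0 := by
    rcases hq with hq | hq
    · exact fun b => hq b trivial
    · exfalso
      have : q ∈ van S0 := fun b hb' => by
        by_contra h
        exact hq b trivial h hb'
      rw [hS0] at this
      exact hqne this
  have hK0 : FD K0 (t + 1) :=
    fd_of_td hE0.closed_iUnion hE0.van_iUnion_ne_bot ⟨φ, ψ, hb⟩ (td_of_fd_all hK S0)
  obtain ⟨M1, α, ω, hαω, hloc⟩ :=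
    exists_transport hE0.closed_iUnion hE0.van_iUnion_ne_bot hS0 hb
  obtain ⟨b0, hb0⟩ := Model.exists_ne hqne
  set Z : Set M.P := {b | b q = 0} with hZ
  have hZc : ZClosed Z := zclosed_zero q
  -- the closed set in the transported model
  have hF1 : ZClosed (ω ⁻¹' Z) := by
    obtain ⟨F, hF, he⟩ := hαω.reg'.closed_preimage hZc
    rw [univ_inter, univ_inter] at he
    exact he ▸ hF
  have hne1 : van (ω ⁻¹' Z) ≠ ⊥ := by
    refine hF1.van_ne_bot fun h => ?_
    have : α b0 ∈ ω ⁻¹' Z := h ▸ mem_univ _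
    rw [mem_preimage, hαω.left b0 trivial] at this
    exact hb0 this
  -- the closed set in the model of the dense piece
  have hF0 : ZClosed ((⋃ i, E0 i) ∪ ((⋃ i, E0 i)ᶜ ∩ ψ ⁻¹' (S0 ∩ Z))) := by
    obtain ⟨F, hF, he⟩ := hb.reg'.closed_preimage hZc
    have : (⋃ i, E0 i) ∪ ((⋃ i, E0 i)ᶜ ∩ ψ ⁻¹' (S0 ∩ Z)) = (⋃ i, E0 i) ∪ F := by
      ext x
      by_cases hx : x ∈ ⋃ i, E0 i
      · simp only [mem_union, hx, true_or]
      · have h1 := Set.ext_iff.mp he x
        have h2 : ψ x ∈ S0 := hb.maps' hx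
        simp only [mem_inter_iff, mem_compl_iff, hx, not_false_eq_true, true_and, mem_preimage,
          mem_union, false_or, h2] at h1 ⊢
        exact h1
    rw [this]
    exact hE0.closed_iUnion.union hF
  have hoff : ∀ b : M.P, b q ≠ 0 →
      φ b ∉ (⋃ i, E0 i) ∪ ((⋃ i, E0 i)ᶜ ∩ ψ ⁻¹' (S0 ∩ Z)) := by
    rintro b hbq (h | h)
    · exact hb.maps (hqS b hbq) h
    · have := h.2.2
      rw [hb.left b (hqS b hbq)] at this
      exact hbq this
  have hne0 : van ((⋃ i, E0 i) ∪ ((⋃ i, E0 i)ᶜ ∩ ψ ⁻¹' (S0 ∩ Z))) ≠ ⊥ :=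
    hF0.van_ne_bot fun h => hoff b0 hb0 (h ▸ mem_univ _)
  have hi : Ident M0 ((⋃ i, E0 i) ∪ ((⋃ i, E0 i)ᶜ ∩ ψ ⁻¹' (S0 ∩ Z))) M1 (ω ⁻¹' Z) := by
    constructor
    · intro x hx
      have hx1 : x ∉ ⋃ i, E0 i := fun h => hx (Or.inl h)
      refine ⟨α (ψ x), fun h => hx (Or.inr ⟨hx1, hb.maps' hx1, ?_⟩), hloc x hx1⟩
      rwa [mem_preimage, hαω.left _ trivial] at h
    · intro y hy
      have hy1 : ω y q ≠ 0 := hy
      have hy2 := hqS _ hy1
      refine ⟨φ (ω y), hoff _ hy1, ?_⟩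
      have := hloc (φ (ω y)) (hb.maps hy2)
      rwa [hb.left _ hy2, hαω.right y trivial] at this
  obtain ⟨d, hd⟩ := exists_val T hP hE.closed_iUnion.constr
  obtain ⟨d0, hd0⟩ := exists_val T hP hE0.closed_iUnion.constr
  obtain ⟨s, hs⟩ := exists_val T hP (hc0.inter hZc.constr)
  have hvZ : Val T Z (d + (p' - (M0.pr hE0).eul T) + s) := by
    refine val_congr ((hd.union hrest ?_).union hs ?_) ?_ rfl
    · exact Set.disjoint_left.mpr fun x hx hx' => hx'.1 hx
    · refine Set.disjoint_left.mpr ?_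
      rintro x (hx | hx) hx'
      · exact hS0V hx'.1 hx
      · exact hx.2 hx'.1
    · ext x
      constructor
      · rintro ((hx | hx) | hx)
        · by_contra h
          exact hS0V (hqS x h) hx
        · by_contra h
          exact hx.2 (hqS x h)
        · exact hx.2
      · intro hx
        by_cases h1 : x ∈ S0
        · exact Or.inr ⟨h1, hx⟩
        · by_cases h2 : x ∈ ⋃ i, E i
          · exact Or.inl (Or.inl h2)
          · exact Or.inl (Or.inr ⟨h2, h1⟩)
  have hv1 : Val T (ω ⁻¹' Z) (d + (p' - (M0.pr hE0).eul T) + s) := by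
    have := hαω.restrict (subset_univ Z)
    rw [univ_inter] at this
    exact hvZ.bireg hF1.constr ⟨_, _, this⟩
  have hv0 : Val T ((⋃ i, E0 i) ∪ ((⋃ i, E0 i)ᶜ ∩ ψ ⁻¹' (S0 ∩ Z))) (d0 + s) := by
    refine hd0.union (hs.bireg ?_ ⟨_, _, hb.restrict inter_subset_left⟩) ?_
    · exact hb.reg'.constr hE0.closed_iUnion.constr.compl (hc0.inter hZc.constr)
    · exact Set.disjoint_left.mpr fun x hx hx' => hx'.1 hx
  funext a
  have h1 := key hP hT hQ hU hK0 hF0 hne0 hF1 hne1 hi hv0 hv1 a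
  have h2 := eul_add_val hP hT hU hK hE hd a
  have h3 := eul_add_val hP hT hU hK0 hE0 hd0 a
  have h4 := T.bt_eq_of_bireg ⟨_, _, hαω⟩ a
  simp only [Pi.add_apply, Pi.sub_apply] at h1
  linarith

variable {B : Type} [CommRing B] [Algebra ℝ B]

theorem piece_uniq (hP : PrincStmt) (hT : T.IsCoh) (hQ : IsQI T QI) (hU : Uniq T t)
    {S : Set (Pt B)} (hS : TD S (t + 1)) {M : Model K n} {k : ℕ} {E : ℕ → Set M.P}
    (hE : M.Snc k E) (hb : Bireg S (⋃ i, E i)ᶜ) {p' : ℕ → ℤ} (hp' : Val T S p') :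
    (M.pr hE).eul T = p' :=
  open_uniq hP hT hQ hU (fd_of_td hE.closed_iUnion hE.van_iUnion_ne_bot hb hS) hE
    (hp'.bireg hE.closed_iUnion.constr.compl hb)

theorem val_split [Algebra.FiniteType ℝ B] (hP : PrincStmt) (hT : T.IsCoh) (hQ : IsQI T QI)
    (hU : Uniq T t) {S A : Set (Pt B)} {p : ℕ → ℤ} (h : Val T S p) (hS : TD S (t + 1))
    (hA : Constr A) : ∃ p1 p2, Val T (S ∩ A) p1 ∧ Val T (S \ A) p2 ∧ p = p1 + p2 := by
  induction h with
  | empty =>
    exact ⟨0, 0, val_congr Val.empty (empty_inter A).symm rfl,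
      val_congr Val.empty (empty_sdiff A).symm rfl, (add_zero _).symm⟩
  | @piece S K _ _ n M k E hE hc hb =>
    obtain ⟨p1, h1⟩ := exists_val T hP (hc.inter hA)
    obtain ⟨p2, h2⟩ := exists_val T hP (hc.diff hA)
    refine ⟨p1, p2, h1, h2, piece_uniq hP hT hQ hU hS hE hb ?_⟩
    exact val_congr (h1.union h2 (Set.disjoint_left.mpr fun x hx hx' => hx'.2 hx.2))
      (inter_union_sdiff S A) rfl
  | @union S S' p p' _ _ hd ih ih' =>
    obtain ⟨p1, p2, h1, h2, rfl⟩ := ih (hS.mono subset_union_left)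
    obtain ⟨p1', p2', h1', h2', rfl⟩ := ih' (hS.mono subset_union_right)
    refine ⟨p1 + p1', p2 + p2', ?_, ?_, by ring⟩
    · exact val_congr (h1.union h1' (hd.mono inter_subset_left inter_subset_left))
        (union_inter_distrib_right _ _ _).symm rfl
    · exact val_congr (h2.union h2' (hd.mono sdiff_subset sdiff_subset))
        union_sdiff_distrib.symm rfl

end BUniq

theorem uniq (hP : PrincStmt) (hT : T.IsCoh) (hQ : IsQI T QI) (t : ℕ) : Uniq T t := by
  induction t with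
  | zero =>
    intro B _ _ _ S p p' hS h h'
    rw [h.eq_zero hS.zero, h'.eq_zero hS.zero]
  | succ t hU =>
    intro B _ _ _ S p p' hS h h'
    induction h generalizing p' with
    | empty => exact (h'.eq_zero rfl).symm
    | @piece S K _ _ n M k E hE hc hb => exact piece_uniq hP hT hQ hU hS hE hb h'
    | @union S S' p1 p2 h1 _ hd ih ih' =>
      obtain ⟨q1, q2, k1, k2, rfl⟩ := val_split hP hT hQ hU h' hS h1.constr
      rw [union_inter_cancel_left] at k1
      rw [union_sdiff_cancel_left hd.le_bot] at k2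
      rw [ih q1 (hS.mono subset_union_left) k1, ih' q2 (hS.mono subset_union_right) k2]

end Pool.Agent.MP_696f7f_ag.H96
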