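import Pool.Agent.MP_696f7f_ag.H96.MSubAux

/-! Biregular maps and function fields; dimension. -/

namespace Pool.Agent.MP_696f7f_ag.H96

variable {B : Type} [CommRing B] [Algebra ℝ B]

/-- any `t` functions on `S` are algebraically dependent -/
def TD (S : Set (Pt B)) (t : ℕ) : Prop :=
  ∀ f : Fin t → B, ∃ P : MvPolynomial (Fin t) ℝ, P ≠ 0 ∧
    ∀ b ∈ S, MvPolynomial.aeval (fun i => b (f i)) P = 0

/-- any `t` elements of `K` are algebraically dependent -/
def FD (K : Type) [Field K] [Algebra ℝ K] (t : ℕ) : Prop :=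
  ∀ f : Fin t → K, ∃ P : MvPolynomial (Fin t) ℝ, P ≠ 0 ∧ MvPolynomial.aeval f P = 0

theorem TD.mono {S T : Set (Pt B)} {t : ℕ} (h : TD S t) (hT : T ⊆ S) : TD T t := fun f => by
  obtain ⟨P, hP, h'⟩ := h f
  exact ⟨P, hP, fun b hb => h' b (hT hb)⟩

theorem TD.zero {S : Set (Pt B)} (h : TD S 0) : S = ∅ := by
  obtain ⟨P, hP, h'⟩ := h Fin.elim0
  refine Set.eq_empty_of_forall_notMem fun b hb => hP ?_
  have h1 := h' b hb
  rw [MvPolynomial.eq_C_of_isEmpty P] at h1 ⊢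
  rw [MvPolynomial.aeval_C] at h1
  rw [show P.coeff 0 = 0 from h1, map_zero]

theorem MField.dep_of_lt {A : Type} [CommRing A] [Algebra ℝ A] {t : ℕ}
    (h : Algebra.trdeg ℝ A < t) (f : Fin t → A) :
    ∃ P : MvPolynomial (Fin t) ℝ, P ≠ 0 ∧ MvPolynomial.aeval f P = 0 := by
  by_contra hn
  push Not at hn
  have hi : AlgebraicIndependent ℝ f :=
    algebraicIndependent_iff.2 fun P hP => by_contra fun h0 => hn P h0 hP
  have := hi.cardinalMk_le_trdeg
  rw [Cardinal.mk_fin] at this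
  exact absurd h (not_lt.2 this)

theorem MField.ev_aeval {t : ℕ} (b : Pt B) (f : Fin t → B) (P : MvPolynomial (Fin t) ℝ) :
    b (MvPolynomial.aeval f P) = MvPolynomial.aeval (fun i => b (f i)) P :=
  MvPolynomial.comp_aeval_apply f b P

theorem exists_td [Algebra.FiniteType ℝ B] (S : Set (Pt B)) : ∃ t, TD S t := by
  obtain ⟨N, π, hπ⟩ := Algebra.FiniteType.iff_quotient_mvPolynomial''.1
    (inferInstance : Algebra.FiniteType ℝ B)
  refine ⟨N + 1, fun f => ?_⟩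
  choose F hF using fun i => hπ (f i)
  obtain ⟨P, hP, h⟩ := MField.dep_of_lt (t := N + 1) (by
    rw [MvPolynomial.trdeg_of_isDomain, Cardinal.mk_fin, Cardinal.lift_natCast]
    exact_mod_cast N.lt_succ_self) F
  refine ⟨P, hP, fun b _ => ?_⟩
  have := MvPolynomial.comp_aeval_apply F (b.comp π) P
  rw [h, map_zero] at this
  simpa [hF] using this.symm

variable {K : Type} [Field K] [Algebra ℝ K] {n : ℕ} {M : Model K n} {F : Set M.P}
  {S : Set (Pt B)}

theorem exists_hom (hF : ZClosed F) (hne : van F ≠ ⊥) {ψ : M.P → Pt B} (hψ : Reg Fᶜ ψ) :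
    ∃ g : B →ₐ[ℝ] K, ∀ f, ∀ b ∉ F, g f ∈ (M.loc b).O ∧ (M.loc b).ev (g f) = ψ b f := by
  obtain ⟨b0, hb0⟩ := Model.exists_notMem hne
  have _ := hF
  have hex : ∀ f : B, ∃ x : K, ∀ b ∉ F, x ∈ (M.loc b).O ∧ (M.loc b).ev x = ψ b f := by
    intro f
    obtain ⟨p, q, hq, h⟩ := hψ f b0 hb0
    have hq0 : q ≠ 0 := fun h0 => hq (by simp [h0])
    have hq1 : (q : K) ≠ 0 := fun h0 => hq0 (Subtype.ext h0)
    refine ⟨p / q, fun b hb => ?_⟩
    obtain ⟨p', q', hq', h'⟩ := hψ f b hb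
    have hq0' : q' ≠ 0 := fun h0 => hq' (by simp [h0])
    have h1 : (p * q' - p' * q) * (q * q') ∈ van Fᶜ := fun x hx => by
      simp only [map_mul, map_sub]
      by_cases e1 : x q = 0
      · simp [e1]
      by_cases e2 : x q' = 0
      · simp [e2]
      rw [← h x hx e1, ← h' x hx e2]; ring
    rw [Model.van_compl hne, Ideal.mem_bot] at h1
    have h2 := sub_eq_zero.1 ((mul_eq_zero.1 h1).resolve_right (mul_ne_zero hq0 hq0'))
    have h3 : (p : K) / q * q' = p' := by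
      have : (p : K) * q' = p' * q := congrArg Subtype.val h2
      rw [div_mul_eq_mul_div, this, mul_div_cancel_right₀ _ hq1]
    refine ⟨⟨p', q', hq', h3⟩, (locEv_eq M.B b hq' h3).trans ?_⟩
    rw [← h' b hb hq', mul_div_cancel_right₀ _ hq']
  choose x hx using hex
  have huniq : ∀ (f : B) (y : K), (∀ b ∉ F, y ∈ (M.loc b).O ∧ (M.loc b).ev y = ψ b f) →
      x f = y := fun f y hy => sub_eq_zero.1 (Model.eq_zero_of_vanish hne
        (sub_mem (hx f b0 hb0).1 (hy b0 hb0).1) (Filter.Eventually.of_forall fun b hb => by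
          rw [Loc.ev_sub (hx f b hb).1 (hy b hb).1, (hx f b hb).2, (hy b hb).2, sub_self]))
  have halg : ∀ r : ℝ, x (algebraMap ℝ B r) = algebraMap ℝ K r := fun r =>
    huniq _ _ fun b _ => ⟨Subalgebra.algebraMap_mem _ r, by rw [Loc.ev_alg]; simp⟩
  exact ⟨{
    toFun := x
    map_one' := by simpa using halg 1
    map_mul' := fun f g => huniq _ _ fun b hb => ⟨mul_mem (hx f b hb).1 (hx g b hb).1, by
      rw [Loc.ev_mul _ _ (hx f b hb).1 _ (hx g b hb).1, (hx f b hb).2, (hx g b hb).2, map_mul]⟩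
    map_zero' := by simpa using halg 0
    map_add' := fun f g => huniq _ _ fun b hb => ⟨add_mem (hx f b hb).1 (hx g b hb).1, by
      rw [Loc.ev_add _ _ (hx f b hb).1 _ (hx g b hb).1, (hx f b hb).2, (hx g b hb).2, map_add]⟩
    commutes' := halg }, hx⟩

theorem MField.frac_B (hne : van F ≠ ⊥) {φ : Pt B → M.P} {ψ : M.P → Pt B}
    (h : BiregBy S Fᶜ φ ψ) {g : B →ₐ[ℝ] K}
    (hg : ∀ f, ∀ b ∉ F, g f ∈ (M.loc b).O ∧ (M.loc b).ev (g f) = ψ b f) {b : M.P} (hb : b ∉ F)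
    (u : M.B) : ∃ p q : B, ψ b q ≠ 0 ∧ u * g q = g p ∧ ψ b p = b u * ψ b q := by
  obtain ⟨p, q, hq, hpq⟩ := h.reg u (ψ b) (h.maps' hb)
  refine ⟨p, q, hq, sub_eq_zero.1 (Model.eq_zero_of_vanish (a := b) hne
    (sub_mem (mul_mem (Model.le_loc b u.2) (hg q b hb).1) (hg p b hb).1) ?_), ?_⟩
  · filter_upwards [Model.sp_unit (hg q b hb).1 (by rwa [(hg q b hb).2])] with y hy hyF
    have h1 := hpq (ψ y) (h.maps' hyF) (by rw [← (hg q y hyF).2]; exact hy.2)
    rw [h.right y hyF] at h1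
    rw [Loc.ev_sub (mul_mem (Model.le_loc y u.2) hy.1) (hg p y hyF).1,
      Loc.ev_mul _ _ (Model.le_loc y u.2) _ hy.1, Model.loc_ev, (hg q y hyF).2, (hg p y hyF).2,
      h1, sub_self]
  · have h1 := hpq (ψ b) (h.maps' hb) hq
    rw [h.right b hb] at h1
    exact h1.symm

theorem exists_frac (hF : ZClosed F) (hne : van F ≠ ⊥) {φ : Pt B → M.P} {ψ : M.P → Pt B}
    (h : BiregBy S Fᶜ φ ψ) {g : B →ₐ[ℝ] K}
    (hg : ∀ f, ∀ b ∉ F, g f ∈ (M.loc b).O ∧ (M.loc b).ev (g f) = ψ b f) {b : M.P} (hb : b ∉ F)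
    {x : K} (hx : x ∈ (M.loc b).O) : ∃ p q : B, ψ b q ≠ 0 ∧ x * g q = g p := by
  have _ := hF
  obtain ⟨p0, q0, hq0, h0⟩ := hx
  obtain ⟨p1, q1, hq1, h1, -⟩ := MField.frac_B hne h hg hb p0
  obtain ⟨p2, q2, hq2, h2, h2'⟩ := MField.frac_B hne h hg hb q0
  refine ⟨p1 * q2, p2 * q1, ?_, ?_⟩
  · rw [map_mul, h2']
    exact mul_ne_zero (mul_ne_zero hq0 hq2) hq1
  · rw [map_mul, map_mul, ← h1, ← h2, ← h0]; ring

theorem MField.frac (hF : ZClosed F) (hne : van F ≠ ⊥) {φ : Pt B → M.P} {ψ : M.P → Pt B}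
    (h : BiregBy S Fᶜ φ ψ) {g : B →ₐ[ℝ] K}
    (hg : ∀ f, ∀ b ∉ F, g f ∈ (M.loc b).O ∧ (M.loc b).ev (g f) = ψ b f) (y : K) :
    ∃ p q : B, g q ≠ 0 ∧ y * g q = g p := by
  obtain ⟨b, hb⟩ := Model.exists_notMem hne
  obtain ⟨p0, hp0, q0, hq0, hq0', h0⟩ := M.frac y
  obtain ⟨p1, q1, hq1, h1⟩ := exists_frac hF hne h hg hb (Model.le_loc b hp0)
  obtain ⟨p2, q2, hq2, h2⟩ := exists_frac hF hne h hg hb (Model.le_loc b hq0)
  have e1 : g q1 ≠ 0 := Loc.ne_zero_of_ev (L := M.loc b) (by rwa [(hg q1 b hb).2])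
  have e2 : g q2 ≠ 0 := Loc.ne_zero_of_ev (L := M.loc b) (by rwa [(hg q2 b hb).2])
  refine ⟨p1 * q2, p2 * q1, ?_, ?_⟩
  · rw [map_mul, ← h2]
    exact mul_ne_zero (mul_ne_zero hq0' e2) e1
  · rw [map_mul, map_mul, ← h1, ← h2, ← h0]; ring

theorem fd_of_td {t : ℕ} (hF : ZClosed F) (hne : van F ≠ ⊥) (h : Bireg S Fᶜ) (ht : TD S t) :
    FD K t := by
  obtain ⟨φ, ψ, h⟩ := h
  obtain ⟨g, hg⟩ := exists_hom hF hne h.reg'
  have := MSubAux.isFrac g (MField.frac hF hne h hg)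
  have halg : Algebra.IsAlgebraic g.range K :=
    IsLocalization.isAlgebraic K (nonZeroDivisors g.range)
  refine MField.dep_of_lt (not_le.1 fun hle => ?_)
  obtain ⟨s, hs⟩ := exists_isTranscendenceBasis ℝ g.range
  rw [← (hs.algebraMap_comp (A := K)).cardinalMk_eq_trdeg, ← Cardinal.mk_fin] at hle
  obtain ⟨e⟩ := (Cardinal.le_def _ _).1 hle
  have hi := hs.1.comp e e.injective
  choose f hf using fun i => g.rangeRestrict_surjective (e i : g.range)
  obtain ⟨P, hP, h0⟩ := ht f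
  obtain ⟨b0, hb0⟩ := Model.exists_notMem hne
  have h1 : g (MvPolynomial.aeval f P) = 0 :=
    Model.eq_zero_of_vanish hne (hg _ b0 hb0).1 (Filter.Eventually.of_forall fun b hb => by
      rw [(hg _ b hb).2, MField.ev_aeval, h0 _ (h.maps' hb)])
  refine hP (algebraicIndependent_iff.1 hi P ?_)
  have h2 := MvPolynomial.comp_aeval_apply f g.rangeRestrict P
  rw [show g.rangeRestrict (MvPolynomial.aeval f P) = 0 from Subtype.ext h1] at h2
  simp only [hf] at h2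
  exact h2.symm

theorem MField.aeval_cons {A : Type} [CommRing A] [Algebra ℝ A] {t : ℕ} (h : A) (f : Fin t → A)
    (P : MvPolynomial (Fin (t + 1)) ℝ) : MvPolynomial.aeval (Fin.cons h f : Fin (t + 1) → A) P =
      (MvPolynomial.finSuccEquiv ℝ t P).eval₂ (MvPolynomial.aeval f).toRingHom h := by
  induction P using MvPolynomial.induction_on with
  | C c =>
    have : MvPolynomial.finSuccEquiv ℝ t (MvPolynomial.C c) = Polynomial.C (MvPolynomial.C c) :=
      RingHom.congr_fun (MvPolynomial.finSuccEquiv_comp_C_eq_C (R := ℝ) t) c ▸ by simp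
    simp [this]
  | add p q hp hq => simp only [map_add, Polynomial.eval₂_add, hp, hq]
  | mul_X p i hp =>
    rw [map_mul, map_mul, Polynomial.eval₂_mul, hp]
    congr 1
    refine Fin.cases ?_ (fun j => ?_) i
    · simp [MvPolynomial.finSuccEquiv_X_zero]
    · simp [MvPolynomial.finSuccEquiv_X_succ]

theorem td_of_fd {t : ℕ} (hne : van F ≠ ⊥) (ht : FD K (t + 1)) : TD F t := by
  intro f
  obtain ⟨h, hh, h0⟩ := Submodule.exists_mem_ne_zero_of_ne_bot hne
  obtain ⟨P, hP, hPe⟩ := ht fun i => ((Fin.cons h f : Fin (t + 1) → M.B) i : K)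
  have h1 : MvPolynomial.aeval (Fin.cons h f : Fin (t + 1) → M.B) P = 0 :=
    Subtype.ext ((MvPolynomial.comp_aeval_apply _ M.B.val P).trans hPe)
  rw [MField.aeval_cons] at h1
  obtain ⟨Q, hQ, hd⟩ := Polynomial.exists_eq_pow_rootMultiplicity_mul_and_not_dvd
    (MvPolynomial.finSuccEquiv ℝ t P) (by simpa using hP) 0
  rw [hQ, Polynomial.eval₂_mul, Polynomial.eval₂_pow] at h1
  simp only [map_zero, sub_zero, Polynomial.eval₂_X] at h1 hd
  have h2 := (mul_eq_zero.1 h1).resolve_left (pow_ne_zero _ h0)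
  refine ⟨Q.coeff 0, fun e => hd (Polynomial.X_dvd_iff.2 e), fun b hb => ?_⟩
  have h3 := congrArg b.toRingHom h2
  rw [Polynomial.hom_eval₂, show b.toRingHom h = 0 from hh b hb, Polynomial.eval₂_at_zero,
    map_zero] at h3
  rw [← MField.ev_aeval]
  exact h3

theorem dim_le (hF : ZClosed F) (hne : van F ≠ ⊥) (h : Bireg S Fᶜ) :
    (n : WithBot ℕ∞) ≤ ringKrullDim B := by
  obtain ⟨φ, ψ, h⟩ := h
  obtain ⟨g, hg⟩ := exists_hom hF hne h.reg'
  obtain ⟨b, hb⟩ := Model.exists_notMem hne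
  obtain ⟨κ, hκ⟩ := M.exists_crd b
  let J : Fin (n + 1) → Finset (Fin n) := fun i => Finset.univ.filter fun j => j.val < i.val
  let I : Fin (n + 1) → Ideal B := fun i =>
    { carrier := {f | g f ∈ κ.I (M.loc b) (J i)}
      add_mem' := fun {x y} hx hy => by
        change g (x + y) ∈ κ.I (M.loc b) (J i)
        rw [map_add]; exact add_mem hx hy
      zero_mem' := by
        change g 0 ∈ κ.I (M.loc b) (J i)
        rw [map_zero]; exact zero_mem _
      smul_mem' := fun c x hx => by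
        change g (c * x) ∈ κ.I (M.loc b) (J i)
        rw [map_mul]; exact Loc.mul_mem_left (hg c b hb).1 hx }
  have hI : ∀ i f, f ∈ I i ↔ g f ∈ κ.I (M.loc b) (J i) := fun _ _ => Iff.rfl
  have hp : ∀ i, (I i).IsPrime := fun i => ⟨fun e => by
      have h1 : (1 : B) ∈ I i := e ▸ trivial
      rw [hI, map_one] at h1
      exact Loc.one_notMem_m (hκ.I_le_m h1), fun {x y} hxy => by
      rw [hI, map_mul] at hxy
      exact hκ.prime (hg x b hb).1 (hg y b hb).1 hxy⟩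
  let c : Fin (n + 1) → PrimeSpectrum B := fun i => ⟨I i, hp i⟩
  have hc : StrictMono c := Fin.strictMono_iff_lt_succ.2 fun i => by
    change I i.castSucc < I i.succ
    obtain ⟨p, q, hq, hpq⟩ := exists_frac hF hne h hg hb (hκ.x_mem i)
    refine lt_of_le_of_ne (fun f hf => Chart.I_mono (fun j hj => ?_) hf) fun e => ?_
    · simp only [J, Finset.mem_filter, Finset.mem_univ, true_and, Fin.val_castSucc,
        Fin.val_succ] at hj ⊢
      omega
    · have h1 : p ∈ I i.succ := by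
        rw [hI, ← hpq]
        exact Loc.mul_mem_right (hg q b hb).1 (hκ.x_mem_I.2 (by simp [J]))
      rw [← e, hI, ← hpq, mul_comm] at h1
      have h2 := hκ.x_mem_I.1
        (Loc.mem_of_unit_mul (hg q b hb).1 (by rwa [(hg q b hb).2]) h1)
      simp [J] at h2
  exact Order.LTSeries.length_le_krullDim (LTSeries.mk n c hc)

/-- transport of a model along a birational map -/
theorem exists_transport {K0 : Type} [Field K0] [Algebra ℝ K0] {n0 : ℕ} {M0 : Model K0 n0}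
    {F0 : Set M0.P} (hF : ZClosed F0) (hne : van F0 ≠ ⊥) {S : Set M.P} (hS : van S = ⊥)
    {φ : M.P → M0.P} {ψ : M0.P → M.P} (h : BiregBy S F0ᶜ φ ψ) :
    ∃ (M1 : Model K0 n) (α : M.P → M1.P) (ω : M1.P → M.P), BiregBy Set.univ Set.univ α ω ∧
      ∀ b0 ∉ F0, M1.loc (α (ψ b0)) = M0.loc b0 := by
  obtain ⟨g, hg⟩ := exists_hom hF hne h.reg'
  have hker : ∀ f, g f = 0 ↔ f ∈ van (Set.univ : Set M.P) := fun f => by
    rw [Model.van_univ, Ideal.mem_bot]
    refine ⟨fun h0 => ?_, fun h0 => by rw [h0, map_zero]⟩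
    rw [← Ideal.mem_bot, ← hS]
    intro x hx
    rw [← h.left x hx, ← (hg f _ (h.maps hx)).2, h0, Loc.ev_zero]
  obtain ⟨M1, ι, α, hι, hιg, hα, hb⟩ := MSubAux.exists_model (c := n) M zclosed_univ
    Set.univ_nonempty g hker (MField.frac hF hne h hg) fun b _ => by
      obtain ⟨κ, hκ⟩ := M.exists_crd b
      refine ⟨κ, ∅, hκ, ?_, by simp⟩
      rw [Chart.I_empty, eq_bot_iff, Loc.span_le]
      rintro _ ⟨f, hf, rfl⟩
      rw [SetLike.mem_coe, Model.van_univ, Ideal.mem_bot] at hf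
      simp [hf]
  refine ⟨M1, α, _, hb, fun b0 hb0 => Loc.ext' (le_antisymm ?_ fun x hx => ?_)⟩
  · refine (locAt_le_of_ev (fun x hx => ?_) fun y => ?_).1
    · obtain ⟨f, hf⟩ := hι ⟨x, hx⟩
      rw [show x = g f from by rw [← hιg, hf]]
      exact (hg f b0 hb0).1
    · obtain ⟨f, rfl⟩ := hι y
      rw [hιg, (hg f b0 hb0).2, hα _ trivial]
  · obtain ⟨p, q, hq, hpq⟩ := exists_frac hF hne h hg hb0 hx
    exact ⟨ι p, ι q, by rwa [hα _ trivial], by rwa [hιg, hιg]⟩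

end Pool.Agent.MP_696f7f_ag.H96
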