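import Pool.Agent.MP_696f7f_ag.H96.MSubAux

/-! Smooth closed subsets are disjoint unions of models. -/

namespace Pool.Agent.MP_696f7f_ag.H96

/-- `A` is biregular to the real locus of a model -/
def IsModelSet {B : Type} [CommRing B] [Algebra ℝ B] (A : Set (Pt B)) : Prop :=
  ∃ (K' : Type) (_ : Field K') (_ : Algebra ℝ K') (n' : ℕ) (M' : Model K' n'),
    Bireg A (Set.univ : Set M'.P)

/-- a derivation from a domain to its fraction field extends to the fraction field -/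
theorem exists_der_extend {R K' : Type} [CommRing R] [Algebra ℝ R] [Field K'] [Algebra ℝ K']
    [Algebra R K'] [IsScalarTower ℝ R K'] [IsFractionRing R K'] (δ : Derivation ℝ R K') :
    ∃ δ' : Der K', ∀ r : R, δ' (algebraMap R K' r) = δ r :=
  MSubAux.der_descend (IsScalarTower.toAlgHom ℝ R K')
    (fun y => by
      obtain ⟨p, q, hq, rfl⟩ := IsFractionRing.div_surjective (A := R) y
      have := (algebraMap R K').domain_nontrivial
      have hq' : algebraMap R K' q ≠ 0 := IsFractionRing.to_map_ne_zero_of_mem_nonZeroDivisors hq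
      exact ⟨p, q, hq', div_mul_cancel₀ _ hq'⟩)
    δ.toLinearMap (fun a b => by simp [Algebra.smul_def])
    (fun a ha => by
      have : a = 0 := IsFractionRing.injective R K' (ha.trans (map_zero _).symm)
      simp [this])

variable {K : Type} [Field K] [Algebra ℝ K] {n : ℕ} {M : Model K n} {A : Set M.P}

namespace MSub

/-- the functions whose germ at `b` vanishes on `A` -/
def pr (A : Set M.P) (b : M.P) : Ideal M.B where
  carrier := {f | (f : K) ∈ (M.loc b).span (M.vanK A)}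
  add_mem' := fun {f g} hf hg => (add_mem hf hg : (f : K) + g ∈ (M.loc b).span (M.vanK A))
  zero_mem' := zero_mem ((M.loc b).span (M.vanK A))
  smul_mem' := fun c f hf =>
    (Loc.mul_mem_left (Model.le_loc b c.2) hf : (c : K) * f ∈ (M.loc b).span (M.vanK A))

/-- the codimensions of `A` at `b` -/
def cd (A : Set M.P) (b : M.P) : Set ℕ :=
  {c | ∃ (κ : Chart K n) (J : Finset (Fin n)), IsCrd (M.loc b) κ ∧
    (M.loc b).span (M.vanK A) = κ.I (M.loc b) J ∧ J.card = c}

theorem mem_pr {b : M.P} {f : M.B} : f ∈ pr A b ↔ ∃ q : M.B, b q ≠ 0 ∧ f * q ∈ van A := by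
  change (f : K) ∈ (M.loc b).span (M.vanK A) ↔ _
  rw [Model.mem_span_vanK]
  constructor
  · rintro ⟨-, q, hq, h⟩
    refine ⟨q, hq, fun x hx => ?_⟩
    rw [map_mul]
    by_cases h0 : x q = 0
    · simp [h0]
    · rw [← Model.loc_ev x f, h x h0 hx, zero_mul]
  · rintro ⟨q, hq, h⟩
    refine ⟨Model.le_loc b f.2, q, hq, fun x h0 hx => ?_⟩
    have := h x hx
    rw [map_mul] at this
    rw [Model.loc_ev]
    exact (mul_eq_zero.1 this).resolve_right h0

theorem pr_prime (hA : M.Sm A) {a : M.P} (ha : a ∈ A) : (pr A a).IsPrime := by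
  obtain ⟨κ, J, hκ, hJ⟩ := hA.sm a ha
  refine ⟨fun h => ?_, fun {f g} h => ?_⟩
  · have h1 : (1 : M.B) ∈ pr A a := h ▸ trivial
    exact Loc.one_notMem_m (Model.span_vanK_le_m ha h1)
  · change ((f * g : M.B) : K) ∈ (M.loc a).span (M.vanK A) at h
    change (f : K) ∈ (M.loc a).span (M.vanK A) ∨ (g : K) ∈ (M.loc a).span (M.vanK A)
    rw [hJ] at h ⊢
    exact hκ.prime (Model.le_loc a f.2) (Model.le_loc a g.2) h

theorem pr_const (hA : M.Sm A) {a : M.P} (ha : a ∈ A) :
    ∀ᶠ b in zn a, b ∈ A → pr A b = pr A a := by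
  have : IsNoetherianRing M.B := Algebra.FiniteType.isNoetherianRing ℝ M.B
  obtain ⟨s, hs⟩ := (isNoetherian_def.1 inferInstance (pr A a) : (pr A a).FG)
  have h1 : ∀ f : s, ∃ q : M.B, a q ≠ 0 ∧ f * q ∈ van A := fun f =>
    mem_pr.1 (hs ▸ Ideal.subset_span f.2)
  choose q hq hq' using h1
  have h2 : ∀ f ∈ pr A a, f * ∏ i, q i ∈ van A := by
    intro f hf
    rw [← hs] at hf
    refine Submodule.span_induction (fun x hx => ?_) (by simp) (fun x y _ _ hx hy => ?_)
      (fun c x _ hx => ?_) hf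
    · classical
      rw [← Finset.mul_prod_erase _ _ (Finset.mem_univ (⟨x, hx⟩ : s)), ← mul_assoc]
      exact Ideal.mul_mem_right _ _ (hq' ⟨x, hx⟩)
    · rw [add_mul]; exact add_mem hx hy
    · rw [smul_eq_mul, mul_assoc]; exact Ideal.mul_mem_left _ _ hx
  refine ⟨∏ i, q i, by rw [map_prod]; exact Finset.prod_ne_zero_iff.2 fun i _ => hq i,
    fun b hb hbA => le_antisymm (fun f hf => ?_) fun f hf => mem_pr.2 ⟨_, hb, h2 f hf⟩⟩
  obtain ⟨q', hq', h⟩ := mem_pr.1 hf
  refine ((pr_prime hA ha).mem_or_mem (mem_pr.2 ⟨1, by simp, by simpa using h⟩)).resolve_right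
    fun h3 => ?_
  have := h2 q' h3 b hbA
  rw [map_mul] at this
  exact mul_ne_zero hq' hb this

theorem cd_eq {b : M.P} {κ : Chart K n} {J : Finset (Fin n)} (h : IsCrd (M.loc b) κ)
    (hJ : (M.loc b).span (M.vanK A) = κ.I (M.loc b) J) : cd A b = {J.card} := by
  ext c
  constructor
  · rintro ⟨κ', J', h', hJ', rfl⟩
    exact le_antisymm (h'.card_le_of_le h (hJ'.symm.trans hJ).le)
      (h.card_le_of_le h' (hJ.symm.trans hJ').le)
  · rintro rfl
    exact ⟨κ, J, h, hJ, rfl⟩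

theorem cd_const (hA : M.Sm A) {a : M.P} (ha : a ∈ A) :
    ∀ᶠ b in zn a, b ∈ A → cd A b = cd A a := by
  obtain ⟨κ, J, hκ, hJ⟩ := hA.sm a ha
  obtain ⟨T, hT, hTA, hs⟩ := M.exists_fin_vanK A
  filter_upwards [Model.sp_crd hκ,
    Model.sp_I hκ hT ((hs _ (Model.le_loc a)).trans hJ)] with b h1 h2 hb
  have h3 := (h2 fun z hz => Model.span_vanK_le_m hb (Loc.subset_span (hTA hz))).1
  rw [cd_eq hκ hJ, cd_eq h1 ((hs _ (Model.le_loc b)).symm.trans h3)]

theorem isModelSet {X : Set M.P} {c : ℕ} (hX : ZClosed X) (hne : X.Nonempty)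
    (hp : (van X).IsPrime) (hsm : ∀ b ∈ X, ∃ (κ : Chart K n) (J : Finset (Fin n)),
      IsCrd (M.loc b) κ ∧ (M.loc b).span (M.vanK X) = κ.I (M.loc b) J ∧ J.card + c = n) :
    IsModelSet X := by
  let g : M.B →ₐ[ℝ] FractionRing (M.B ⧸ van X) :=
    (IsScalarTower.toAlgHom ℝ (M.B ⧸ van X) _).comp (Ideal.Quotient.mkₐ ℝ (van X))
  have hg : ∀ f, g f = algebraMap (M.B ⧸ van X) _ (Ideal.Quotient.mk _ f) := fun _ => rfl
  obtain ⟨M', ι, α, -, -, -, h⟩ := MSubAux.exists_model M hX hne g (fun f => by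
    rw [hg, map_eq_zero_iff _ (IsFractionRing.injective _ _), Ideal.Quotient.eq_zero_iff_mem])
    (fun y => by
      obtain ⟨p, q, hq, rfl⟩ := IsFractionRing.div_surjective (A := M.B ⧸ van X) y
      have hq' := IsFractionRing.to_map_ne_zero_of_mem_nonZeroDivisors
        (K := FractionRing (M.B ⧸ van X)) hq
      obtain ⟨p, rfl⟩ := Ideal.Quotient.mk_surjective p
      obtain ⟨q, rfl⟩ := Ideal.Quotient.mk_surjective q
      exact ⟨p, q, hq', div_mul_cancel₀ _ hq'⟩) hsm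
  exact ⟨_, _, _, c, M', _, _, h⟩

end MSub

open MSub in
theorem Model.Sm.decomp (hA : M.Sm A) :
    ∃ t : Finset (Set M.P), (∀ X ∈ t, ZClosed X ∧ IsModelSet X) ∧
      (t : Set (Set M.P)).PairwiseDisjoint id ∧ A = ⋃ X ∈ t, X := by
  classical
  let l : M.P → Ideal M.B × Set ℕ := fun b => (pr A b, cd A b)
  have hl : ∀ a ∈ A, ∀ᶠ b in zn a, b ∈ A → l b = l a := fun a ha => by
    filter_upwards [pr_const hA ha, cd_const hA ha] with b h1 h2 hb
    exact Prod.ext (h1 hb) (h2 hb)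
  obtain ⟨hfin, hcl⟩ := locConst_pieces hA.closed l hl
  refine ⟨hfin.toFinset.image fun c => {b ∈ A | l b = c}, fun X hX => ?_, ?_, ?_⟩
  · obtain ⟨_, hc, rfl⟩ := Finset.mem_image.1 hX
    obtain ⟨a, ha, rfl⟩ := hfin.mem_toFinset.1 hc
    have hsp : ∀ b ∈ {b ∈ A | l b = l a}, (M.loc b).span (M.vanK {b ∈ A | l b = l a}) =
        (M.loc b).span (M.vanK A) := fun b hb => Model.span_vanK_congr (by
      filter_upwards [hl b hb.1] with x hx
      exact ⟨fun h => h.1, fun h => ⟨h, (hx h).trans hb.2⟩⟩)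
    have hv : van {b ∈ A | l b = l a} = pr A a := by
      refine le_antisymm (fun f hf => ?_) fun f hf b hb => ?_
      · exact (hsp a ⟨ha, rfl⟩).le (Loc.subset_span ⟨f, hf, rfl⟩)
      · have h1 : f ∈ pr A b := by
          rwa [show pr A b = pr A a from congrArg Prod.fst hb.2]
        exact (Model.loc_ev b f).symm.trans (Model.span_vanK_le_m hb.1 h1).2
    obtain ⟨κ, J, hκ, hJ⟩ := hA.sm a ha
    refine ⟨hcl _, isModelSet (c := n - J.card) (hcl _) ⟨a, ha, rfl⟩ (hv ▸ pr_prime hA ha)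
      fun b hb => ?_⟩
    have h1 : J.card ∈ cd A b := by
      rw [show cd A b = cd A a from congrArg Prod.snd hb.2]
      exact ⟨κ, J, hκ, hJ, rfl⟩
    obtain ⟨κ', J', h', hJ', hc'⟩ := h1
    refine ⟨κ', J', h', (hsp b hb).trans hJ', ?_⟩
    have := J.card_le_univ
    rw [Fintype.card_fin] at this
    omega
  · intro X hX Y hY hne
    obtain ⟨c, -, rfl⟩ := Finset.mem_image.1 hX
    obtain ⟨c', -, rfl⟩ := Finset.mem_image.1 hY
    refine Set.disjoint_left.2 fun b hb hb' => hne ?_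
    rw [← hb.2.symm.trans hb'.2]
  · ext b
    simp only [Set.mem_iUnion, Finset.mem_image, exists_prop]
    constructor
    · exact fun hb => ⟨_, ⟨l b, hfin.mem_toFinset.2 ⟨b, hb, rfl⟩, rfl⟩, hb, rfl⟩
    · rintro ⟨_, ⟨c, -, rfl⟩, hb⟩
      exact hb.1

end Pool.Agent.MP_696f7f_ag.H96
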