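import Pool.Agent.MP_696f7f_ag.H96.MTop
import Pool.Agent.MP_696f7f_ag.H96.MSub
import Pool.Agent.MP_696f7f_ag.H96.MField

/-! Values of constructible sets. -/

namespace Pool.Agent.MP_696f7f_ag.H96

/-- `p` is obtained from a decomposition of `S` into pieces that are complements of normal
crossings divisors in models, by adding the Euler characteristics of the weight complexes -/
inductive Val (T : CohF) {B : Type} [CommRing B] [Algebra ℝ B] : Set (Pt B) → (ℕ → ℤ) → Prop
  | empty : Val T ∅ 0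
  | piece {S : Set (Pt B)} (K : Type) [Field K] [Algebra ℝ K] (n : ℕ) (M : Model K n) (k : ℕ)
      (E : ℕ → Set M.P) (hE : M.Snc k E) : Constr S → Bireg S (⋃ i, E i)ᶜ →
      Val T S ((M.pr hE).eul T)
  | union {S S' : Set (Pt B)} {p p' : ℕ → ℤ} : Val T S p → Val T S' p' → Disjoint S S' →
      Val T (S ∪ S') (p + p')

variable {T : CohF} {B B' : Type} [CommRing B] [Algebra ℝ B] [CommRing B'] [Algebra ℝ B']
  {S : Set (Pt B)} {S' : Set (Pt B')} {p : ℕ → ℤ}

theorem Val.constr (h : Val T S p) : Constr S := by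
  induction h with
  | empty => exact constr_empty
  | piece K n M k E hE hS hb => exact hS
  | union _ _ _ h1 h2 => exact h1.union h2

theorem Val.eq_zero (h : Val T S p) (hS : S = ∅) : p = 0 := by
  induction h with
  | empty => rfl
  | piece K n M k E hE hc hb =>
    obtain ⟨b, hb0⟩ := Model.exists_notMem hE.van_iUnion_ne_bot
    obtain ⟨x, hx⟩ := hb.symm.nonempty ⟨b, hb0⟩
    rw [hS] at hx
    exact hx.elim
  | union _ _ _ h1 h2 =>
    rw [Set.union_empty_iff] at hS
    rw [h1 hS.1, h2 hS.2, add_zero]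

theorem Val.bireg [Algebra.FiniteType ℝ B'] (h : Val T S p) (hS' : Constr S')
    (hb : Bireg S S') : Val T S' p := by
  induction h generalizing S' with
  | empty =>
    have : S' = ∅ := Set.eq_empty_of_forall_notMem fun y hy =>
      Set.not_nonempty_empty (hb.symm.nonempty ⟨y, hy⟩)
    rw [this]
    exact Val.empty
  | piece K n M k E hE hc hb' => exact Val.piece K n M k E hE hS' (hb.symm.trans hb')
  | @union S1 S2 p1 p2 h1 h2 hd i1 i2 =>
    obtain ⟨φ, ψ, hb⟩ := hb
    have e : S' = (S' ∩ ψ ⁻¹' S1) ∪ (S' ∩ ψ ⁻¹' S2) := by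
      rw [← Set.inter_union_distrib_left, ← Set.preimage_union]
      exact (Set.inter_eq_left.mpr fun y hy => hb.maps' hy).symm
    rw [e]
    refine Val.union (i1 (hb.reg'.constr hS' h1.constr) ⟨φ, ψ, hb.restrict Set.subset_union_left⟩)
      (i2 (hb.reg'.constr hS' h2.constr) ⟨φ, ψ, hb.restrict Set.subset_union_right⟩) ?_
    exact Set.disjoint_left.mpr fun y hy hy' => Set.disjoint_left.mp hd hy.2 hy'.2

theorem val_biUnion {ι : Type*} (u : Finset ι) (F : ι → Set (Pt B)) (q : ι → ℕ → ℤ)
    (h : ∀ i ∈ u, Val T (F i) (q i)) (hd : (u : Set ι).PairwiseDisjoint F) :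
    Val T (⋃ i ∈ u, F i) (∑ i ∈ u, q i) := by
  classical
  induction u using Finset.induction_on with
  | empty => simpa using Val.empty
  | insert j u hj ih =>
    rw [Finset.set_biUnion_insert, Finset.sum_insert hj]
    refine Val.union (h j (Finset.mem_insert_self _ _))
      (ih (fun i hi => h i (Finset.mem_insert_of_mem hi))
        (hd.subset (Finset.coe_subset.mpr (Finset.subset_insert _ _)))) ?_
    refine Set.disjoint_iUnion₂_right.mpr fun i hi => hd ?_ ?_ ?_
    · exact Finset.mem_coe.mpr (Finset.mem_insert_self _ _)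
    · exact Finset.mem_coe.mpr (Finset.mem_insert_of_mem hi)
    · rintro rfl
      exact hj hi

/-- a single piece -/
def IsPiece (T : CohF) (S : Set (Pt B)) (p : ℕ → ℤ) : Prop :=
  ∃ (K : Type) (_ : Field K) (_ : Algebra ℝ K) (n : ℕ) (M : Model K n) (k : ℕ)
    (E : ℕ → Set M.P) (hE : M.Snc k E), Constr S ∧ Bireg S (⋃ i, E i)ᶜ ∧ p = (M.pr hE).eul T

theorem IsPiece.val (h : IsPiece T S p) : Val T S p := by
  obtain ⟨K, _, _, n, M, k, E, hE, hc, hb, rfl⟩ := h
  exact Val.piece K n M k E hE hc hb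

/-- a dense set has a dense piece -/
theorem Val.exists_dense [IsDomain B] (h : Val T S p) (hS : van S = ⊥) :
    ∃ S0 p0, S0 ⊆ S ∧ van S0 = ⊥ ∧ IsPiece T S0 p0 ∧ Val T (S \ S0) (p - p0) := by
  induction h with
  | empty =>
    rw [van_empty] at hS
    exact absurd hS top_ne_bot
  | piece K n M k E hE hc hb =>
    refine ⟨_, _, subset_rfl, hS, ⟨K, _, _, n, M, k, E, hE, hc, hb, rfl⟩, ?_⟩
    rw [Set.sdiff_self, sub_self]
    exact Val.empty
  | @union S1 S2 p1 p2 h1 h2 hd i1 i2 =>
    by_cases e1 : van S1 = ⊥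
    · obtain ⟨S0, p0, hs, hv, hp, hr⟩ := i1 e1
      refine ⟨S0, p0, hs.trans Set.subset_union_left, hv, hp, ?_⟩
      have e : (S1 ∪ S2) \ S0 = (S1 \ S0) ∪ S2 := by
        rw [Set.union_sdiff_distrib, (hd.symm.mono_right hs).sdiff_eq_left]
      rw [e, show p1 + p2 - p0 = (p1 - p0) + p2 by ring]
      exact Val.union hr h2 (hd.mono_left Set.sdiff_subset)
    · have e2 : van S2 = ⊥ := by
        by_contra e2
        exact van_union_ne_bot e1 e2 hS
      obtain ⟨S0, p0, hs, hv, hp, hr⟩ := i2 e2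
      refine ⟨S0, p0, hs.trans Set.subset_union_right, hv, hp, ?_⟩
      have e : (S1 ∪ S2) \ S0 = S1 ∪ (S2 \ S0) := by
        rw [Set.union_sdiff_distrib, (hd.mono_right hs).sdiff_eq_left]
      rw [e, show p1 + p2 - p0 = p1 + (p2 - p0) by ring]
      exact Val.union h1 hr (hd.mono_right Set.sdiff_subset)

variable {K : Type} [Field K] [Algebra ℝ K] {n : ℕ} {M : Model K n}

theorem BVal_model (hS : Constr S) (h : IsModelSet S) : Val T S (fun a => T.bt a S) := by
  obtain ⟨K', _, _, n', M', hb⟩ := h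
  have hE : M'.Snc 0 (fun _ => ∅) := Model.snc_empty 0
  have e : (fun a => T.bt a S) = (M'.pr hE).eul T := by
    funext a
    have : strat (M'.pr hE).D ∅ = (Set.univ : Set M'.P) :=
      Set.eq_univ_of_forall fun x i hi => absurd hi (Finset.notMem_empty i)
    unfold Pr.eul
    rw [show (M'.pr hE).k = 0 from rfl, Finset.range_zero, Finset.powerset_empty,
      Finset.sum_singleton, Finset.card_empty, pow_zero, one_mul, this]
    exact T.bt_eq_of_bireg hb a
  rw [e]
  refine Val.piece K' n' M' 0 _ hE hS ?_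
  simpa using hb

theorem BVal_bt (hT : T.IsCoh) {X : Type} [TopologicalSpace X] [T2Space X] (a : ℕ)
    (t : Finset (Set X)) (hc : ∀ A ∈ t, IsCompact A) (hd : (t : Set (Set X)).PairwiseDisjoint id)
    (hf : Module.Finite (ZMod 2) (T.H a X (⋃ A ∈ t, A))) :
    T.bt a (⋃ A ∈ t, A) = ∑ A ∈ t, T.bt a A := by
  classical
  induction t using Finset.induction_on with
  | empty => simpa using hT.bt_empty a
  | insert j u hj ih =>
    rw [Finset.set_biUnion_insert] at hf ⊢
    have hc' : ∀ A ∈ u, IsCompact A := fun A hA => hc A (Finset.mem_insert_of_mem hA)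
    have hdj : Disjoint j (⋃ A ∈ u, A) := by
      refine Set.disjoint_iUnion₂_right.mpr fun i hi => hd ?_ ?_ ?_
      · exact Finset.mem_coe.mpr (Finset.mem_insert_self _ _)
      · exact Finset.mem_coe.mpr (Finset.mem_insert_of_mem hi)
      · rintro rfl
        exact hj hi
    obtain ⟨h1, -, h3⟩ := hT.bt_union (hc j (Finset.mem_insert_self _ _))
      (u.isCompact_biUnion hc') hdj a hf
    rw [h1, Finset.sum_insert hj,
      ih hc' (hd.subset (Finset.coe_subset.mpr (Finset.subset_insert _ _))) h3]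

theorem Model.Sm.val (hT : T.IsCoh) {A : Set M.P} (hA : M.Sm A) : Val T A (fun a => T.bt a A) := by
  obtain ⟨t, ht, hd, e⟩ := hA.decomp
  have h1 := val_biUnion (T := T) t id (fun X a => T.bt a X)
    (fun X hX => BVal_model (ht X hX).1.constr (ht X hX).2) hd
  have h2 : (fun a => T.bt a A) = ∑ X ∈ t, fun a => T.bt a X := by
    funext a
    have hf := hA.finite hT a
    rw [e] at hf
    rw [Finset.sum_apply, ← BVal_bt hT a t (fun X hX => (ht X hX).1.isClosed.isCompact) hd hf, ← e]
  rw [h2, e]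
  exact h1

theorem Val.deg (hT : T.IsCoh) (h : Val T S p) {a : ℕ} (ha : ringKrullDim B + 1 < a) :
    p a = 0 := by
  induction h with
  | empty => rfl
  | piece K n M k E hE hc hb =>
    refine Model.eul_vanish hT hE ?_
    have h1 := dim_le hE.closed_iUnion hE.van_iUnion_ne_bot hb
    have h2 : ((n : WithBot ℕ∞) + 1) < a := lt_of_le_of_lt (add_le_add h1 le_rfl) ha
    exact_mod_cast h2
  | union _ _ _ h1 h2 => rw [Pi.add_apply, h1, h2, add_zero]

end Pool.Agent.MP_696f7f_ag.H96
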