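import Mathlib

/-!
Real points of finitely generated real algebras, Zariski closed and constructible sets of real
points, regular maps, and the statement that virtual Betti numbers exist.
-/

namespace Pool.Agent.MP_696f7f_ag.H96

/-- real points of a commutative real algebra -/
abbrev Pt (B : Type) [CommRing B] [Algebra ℝ B] : Type := B →ₐ[ℝ] ℝ

noncomputable section
variable {B B' : Type} [CommRing B] [Algebra ℝ B] [CommRing B'] [Algebra ℝ B']

/-- the Euclidean topology on real points: pointwise convergence -/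
instance ptTop : TopologicalSpace (Pt B) :=
  TopologicalSpace.induced (fun b : Pt B => (b : B → ℝ)) inferInstance

/-- the filter of Zariski neighbourhoods of a real point -/
def zn (a : Pt B) : Filter (Pt B) where
  sets := {s | ∃ q : B, a q ≠ 0 ∧ ∀ b : Pt B, b q ≠ 0 → b ∈ s}
  univ_sets := ⟨1, by simp, fun _ _ => trivial⟩
  sets_of_superset := fun ⟨q, hq, h⟩ hst => ⟨q, hq, fun b hb => hst (h b hb)⟩
  inter_sets := fun ⟨q, hq, h⟩ ⟨q', hq', h'⟩ =>
    ⟨q * q', by simp [hq, hq'], fun b hb => by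
      rw [map_mul] at hb
      exact ⟨h b (left_ne_zero_of_mul hb), h' b (right_ne_zero_of_mul hb)⟩⟩

/-- the vanishing ideal of a set of real points -/
def van (S : Set (Pt B)) : Ideal B where
  carrier := {f | ∀ b ∈ S, b f = 0}
  add_mem' := fun hf hg b hb => by simp [hf b hb, hg b hb]
  zero_mem' := fun b _ => by simp
  smul_mem' := fun c f hf b hb => by simp [hf b hb]

/-- Zariski closure -/
def zcl (S : Set (Pt B)) : Set (Pt B) := {a | ∀ f ∈ van S, a f = 0}

/-- Zariski closed sets of real points -/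
def ZClosed (S : Set (Pt B)) : Prop := zcl S ⊆ S

/-- Zariski constructible sets of real points -/
inductive Constr : Set (Pt B) → Prop
  | zero (f : B) : Constr {b | b f = 0}
  | compl {S : Set (Pt B)} : Constr S → Constr Sᶜ
  | union {S T : Set (Pt B)} : Constr S → Constr T → Constr (S ∪ T)

/-- `φ` is regular on `S`: locally on `S` every coordinate of `φ` is a quotient `p / q` -/
def Reg (S : Set (Pt B)) (φ : Pt B → Pt B') : Prop :=
  ∀ f' : B', ∀ b ∈ S, ∃ p q : B, b q ≠ 0 ∧ ∀ x ∈ S, x q ≠ 0 → φ x f' * x q = x p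

/-- `φ` and `ψ` are mutually inverse regular bijections between `S` and `S'` -/
structure BiregBy (S : Set (Pt B)) (S' : Set (Pt B')) (φ : Pt B → Pt B') (ψ : Pt B' → Pt B) :
    Prop where
  maps : Set.MapsTo φ S S'
  maps' : Set.MapsTo ψ S' S
  left : ∀ x ∈ S, ψ (φ x) = x
  right : ∀ y ∈ S', φ (ψ y) = y
  reg : Reg S φ
  reg' : Reg S' ψ

/-- the point of `B` under a point of `B[X]` -/
def basePt (b : Pt (Polynomial B)) : Pt B := b.comp Polynomial.CAlgHom

end

/-- the type of candidates for virtual Betti numbers -/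
abbrev BetaFun : Type 1 :=
  (B : Type) → [CommRing B] → [Algebra ℝ B] → Set (Pt B) → ℕ → ℤ

/-- the properties of virtual Betti numbers -/
structure IsBeta (β : BetaFun) : Prop where
  add : ∀ (B : Type) [CommRing B] [Algebra ℝ B] [Algebra.FiniteType ℝ B] (S T : Set (Pt B)),
    Constr S → Constr T → Disjoint S T → ∀ a, β B (S ∪ T) a = β B S a + β B T a
  inv : ∀ (B B' : Type) [CommRing B] [Algebra ℝ B] [Algebra.FiniteType ℝ B]
    [CommRing B'] [Algebra ℝ B'] [Algebra.FiniteType ℝ B'] (S : Set (Pt B)) (S' : Set (Pt B'))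
    (φ : Pt B → Pt B') (ψ : Pt B' → Pt B),
    Constr S → Constr S' → BiregBy S S' φ ψ → β B S = β B' S'
  line0 : ∀ (B : Type) [CommRing B] [Algebra ℝ B] [Algebra.FiniteType ℝ B] (S : Set (Pt B)),
    Constr S → β (Polynomial B) (basePt ⁻¹' S) 0 = 0
  line : ∀ (B : Type) [CommRing B] [Algebra ℝ B] [Algebra.FiniteType ℝ B] (S : Set (Pt B)),
    Constr S → ∀ a, β (Polynomial B) (basePt ⁻¹' S) (a + 1) = β B S a
  deg : ∀ (B : Type) [CommRing B] [Algebra ℝ B] [Algebra.FiniteType ℝ B] (S : Set (Pt B)),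
    Constr S → ∀ a : ℕ, ringKrullDim B + 1 < a → β B S a = 0
  pt0 : β ℝ Set.univ 0 = 1
  pt : ∀ a, β ℝ Set.univ (a + 1) = 0

/-- virtual Betti numbers exist -/
def BetaStmt : Prop := ∃ β : BetaFun, IsBeta β

end Pool.Agent.MP_696f7f_ag.H96
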