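import Mathlib

/-!
Interface for cohomology with coefficients in the field with two elements of compact subsets of
Hausdorff spaces, and for the weight complexes of a compact space with a finite family of
closed subsets.
-/

namespace Pool.Agent.MP_696f7f_ag.H96

open Set Filter Topology

/-- `A` is locally homeomorphic, near each of its points, to a Euclidean space of dimension
at most `n` -/
def LocEuc {X : Type} [TopologicalSpace X] (A : Set X) (n : ℕ) : Prop :=
  ∀ x ∈ A, ∃ (ι : Type) (_ : Fintype ι) (φ : X → ι → ℝ) (U : Set X), Fintype.card ι ≤ n ∧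
    U ∈ 𝓝 x ∧ ContinuousOn φ (A ∩ U) ∧ InjOn φ (A ∩ U) ∧ 𝓝 (φ x) ≤ map φ (𝓝[A] x)

/-- the rank one projection attached to a vector -/
def pj {m : ℕ} (l : Fin m → ℝ) : Fin m → Fin m → ℝ := fun i j => l i * l j

/-- unit vectors -/
def IsUnitVec {m : ℕ} (l : Fin m → ℝ) : Prop := ∑ i, l i ^ 2 = 1

/-- Topological data of a blow-up `π : A' → A` with centre `A ∩ C`. Off the centre `π` is a
bijection. The map `e` sends `A'` to rank one projections and off the centre it is the projection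
to the line through `f (π y)`, where `f` cuts out the centre. The fibre over a point of the centre
is mapped by `e` bijectively to the projective space of a subspace `Λ`, of locally constant
dimension. -/
structure BlowTop {X X' : Type} [TopologicalSpace X] [TopologicalSpace X'] (A : Set X)
    (A' : Set X') (C : Set X) (π : X' → X) {m : ℕ} (f : X → Fin m → ℝ)
    (e : X' → Fin m → Fin m → ℝ) : Prop where
  cA : IsCompact A
  cA' : IsCompact A'
  cC : IsClosed C
  cont : ContinuousOn π A'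
  maps : MapsTo π A' A
  bij : BijOn π (A' \ π ⁻¹' C) (A \ C)
  contf : ContinuousOn f A
  zero : ∀ x ∈ A, f x = 0 ↔ x ∈ C
  conte : ContinuousOn e A'
  off : ∀ y ∈ A', π y ∉ C → ∀ i j, e y i j * ∑ l, f (π y) l ^ 2 = f (π y) i * f (π y) j
  fib : ∀ x ∈ A ∩ C, ∃ r : ℕ, ∀ᶠ x' in 𝓝[A ∩ C] x, ∃ Λ : Submodule ℝ (Fin m → ℝ),
    Module.finrank ℝ Λ = r ∧
      BijOn e (A' ∩ π ⁻¹' {x'}) (pj '' {l | l ∈ Λ ∧ IsUnitVec l})

/-- the unit circle -/
def circ : Set (ℝ × ℝ) := {p | p.1 ^ 2 + p.2 ^ 2 = 1}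

/-- a contravariant functor from pairs (space, subset) to vector spaces over `ZMod 2` -/
structure CohF where
  H : ℕ → (X : Type) → [TopologicalSpace X] → Set X → ModuleCat.{0} (ZMod 2)
  res : ∀ (a : ℕ) {X Y : Type} [TopologicalSpace X] [TopologicalSpace Y] {A : Set X} {B : Set Y}
    (f : X → Y), ContinuousOn f A → MapsTo f A B → (H a Y B →ₗ[ZMod 2] H a X A)
  res_id : ∀ (a : ℕ) {X : Type} [TopologicalSpace X] {A : Set X} (f : X → X)
    (h : ContinuousOn f A) (h' : MapsTo f A A), (∀ x ∈ A, f x = x) → ∀ u, res a f h h' u = u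
  res_comp : ∀ (a : ℕ) {X Y Z : Type} [TopologicalSpace X] [TopologicalSpace Y]
    [TopologicalSpace Z] {A : Set X} {B : Set Y} {C : Set Z} (f : X → Y) (g : Y → Z) (k : X → Z)
    (hf : ContinuousOn f A) (hf' : MapsTo f A B) (hg : ContinuousOn g B) (hg' : MapsTo g B C)
    (hk : ContinuousOn k A) (hk' : MapsTo k A C), (∀ x ∈ A, g (f x) = k x) →
    ∀ u, res a f hf hf' (res a g hg hg' u) = res a k hk hk' u

namespace CohF

variable (T : CohF)

/-- restriction to a subset -/
def rs (a : ℕ) {X : Type} [TopologicalSpace X] {A B : Set X} (h : A ⊆ B) :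
    T.H a X B →ₗ[ZMod 2] T.H a X A := T.res a id continuousOn_id h

/-- pull-back from the centre to the exceptional set -/
def rc (a : ℕ) {X X' : Type} [TopologicalSpace X] [TopologicalSpace X'] {A : Set X} {A' : Set X'}
    (C : Set X) {π : X' → X} (hc : ContinuousOn π A') (hm : MapsTo π A' A) :
    T.H a X (A ∩ C) →ₗ[ZMod 2] T.H a X' (A' ∩ π ⁻¹' C) :=
  T.res a π (hc.mono inter_subset_left) (fun _ h => ⟨hm h.1, h.2⟩)

/-- the Betti numbers -/
noncomputable def bt (a : ℕ) {X : Type} [TopologicalSpace X] (A : Set X) : ℤ :=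
  Module.finrank (ZMod 2) (T.H a X A)

/-- the short exact sequences `0 → H A → H A' ⊕ H (A ∩ C) → H (A' ∩ π⁻¹ C) → 0` -/
structure SES {X X' : Type} [TopologicalSpace X] [TopologicalSpace X'] (A : Set X) (A' : Set X')
    (C : Set X) (π : X' → X) (hc : ContinuousOn π A') (hm : MapsTo π A' A) : Prop where
  inj : ∀ (a : ℕ) (u : T.H a X A), T.res a π hc hm u = 0 →
    T.rs a (inter_subset_left : A ∩ C ⊆ A) u = 0 → u = 0
  exact : ∀ (a : ℕ) (u' : T.H a X' A') (c : T.H a X (A ∩ C)),
    T.rs a (inter_subset_left : A' ∩ π ⁻¹' C ⊆ A') u' = T.rc a C hc hm c →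
    ∃ u, T.res a π hc hm u = u' ∧ T.rs a (inter_subset_left : A ∩ C ⊆ A) u = c
  surj : ∀ (a : ℕ) (w : T.H a X' (A' ∩ π ⁻¹' C)), ∃ (u' : T.H a X' A') (c : T.H a X (A ∩ C)),
    T.rs a (inter_subset_left : A' ∩ π ⁻¹' C ⊆ A') u' + T.rc a C hc hm c = w

/-- the properties of cohomology of compact sets that are used -/
structure IsCoh : Prop where
  empty : ∀ (a : ℕ) (X : Type) [TopologicalSpace X], Subsingleton (T.H a X ∅)
  split : ∀ (a : ℕ) {X : Type} [TopologicalSpace X] [T2Space X] {A B : Set X}, IsCompact A →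
    IsCompact B → Disjoint A B → ∀ (u : T.H a X A) (v : T.H a X B),
      ∃! w : T.H a X (A ∪ B), T.rs a subset_union_left w = u ∧ T.rs a subset_union_right w = v
  pt0 : ∀ {X : Type} [TopologicalSpace X] [T2Space X] (x : X), T.bt 0 ({x} : Set X) = 1
  pt : ∀ (a : ℕ) {X : Type} [TopologicalSpace X] [T2Space X] (x : X),
    Subsingleton (T.H (a + 1) X {x})
  fin : ∀ (a : ℕ) {X : Type} [TopologicalSpace X] [T2Space X] {A : Set X} {n : ℕ}, IsCompact A →
    LocEuc A n → Module.Finite (ZMod 2) (T.H a X A)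
  vanish : ∀ (a : ℕ) {X : Type} [TopologicalSpace X] [T2Space X] {A : Set X} {n : ℕ},
    IsCompact A → LocEuc A n → n + 1 < a → Subsingleton (T.H a X A)
  circ0 : ∀ {X : Type} [TopologicalSpace X] [T2Space X] {A : Set X}, IsCompact A →
    Nonempty (T.H 0 (X × (ℝ × ℝ)) (A ×ˢ circ) ≃ₗ[ZMod 2] T.H 0 X A)
  circS : ∀ (a : ℕ) {X : Type} [TopologicalSpace X] [T2Space X] {A : Set X}, IsCompact A →
    Nonempty (T.H (a + 1) (X × (ℝ × ℝ)) (A ×ˢ circ) ≃ₗ[ZMod 2] T.H (a + 1) X A × T.H a X A)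
  blow : ∀ {X X' : Type} [TopologicalSpace X] [T2Space X] [TopologicalSpace X'] [T2Space X']
    {A : Set X} {A' : Set X'} {C : Set X} {π : X' → X} {m : ℕ} {f : X → Fin m → ℝ}
    {e : X' → Fin m → Fin m → ℝ} (h : BlowTop A A' C π f e), T.SES A A' C π h.cont h.maps

end CohF

/-- a cohomology theory with the properties above exists -/
def CohStmt : Prop := ∃ T : CohF, T.IsCoh

/-- the stratum cut out by a finite set of indices -/
def strat {X : Type} (D : ℕ → Set X) (I : Finset ℕ) : Set X := {x | ∀ i ∈ I, x ∈ D i}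

/-- a compact Hausdorff space with closed subsets `D 0, ..., D (k-1)` -/
structure Pr where
  X : Type
  [top : TopologicalSpace X]
  [t2 : T2Space X]
  [cpt : CompactSpace X]
  k : ℕ
  D : ℕ → Set X
  closed : ∀ i, IsClosed (D i)
  bd : ∀ i, k ≤ i → D i = ∅

attribute [instance] Pr.top Pr.t2 Pr.cpt

/-- all strata have finite dimensional cohomology -/
def Pr.Fin (T : CohF) (P : Pr) : Prop :=
  ∀ (a : ℕ) (I : Finset ℕ), Module.Finite (ZMod 2) (T.H a P.X (strat P.D I))

/-- the Euler characteristic of the weight complexes -/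
noncomputable def Pr.eul (T : CohF) (P : Pr) (a : ℕ) : ℤ :=
  ∑ I ∈ (Finset.range P.k).powerset, (-1) ^ I.card * T.bt a (strat P.D I)

/-- `A` splits into disjoint closed pieces, the `i`-th of which is mapped into `D i` -/
def Splits {X' X : Type} [TopologicalSpace X'] (A : Set X') (f : X' → X) (D : ℕ → Set X) : Prop :=
  ∃ R : ℕ → Set X', (∀ i, IsClosed (R i)) ∧ Pairwise (fun i j => Disjoint (R i) (R j)) ∧
    A = ⋃ i, R i ∧ ∀ i, MapsTo f (R i) (D i)

/-- maps of pairs -/
def PM (P' P : Pr) (f : P'.X → P.X) : Prop := Continuous f ∧ ∀ j, Splits (P'.D j) f P.D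

/-- a blow-up step: the new last index is the exceptional set -/
structure BlowPr (T : CohF) (P' P : Pr) (π : P'.X → P.X) (C : Set P.X) : Prop where
  cont : Continuous π
  closed : IsClosed C
  k : P'.k = P.k + 1
  exc : P'.D P.k = π ⁻¹' C
  maps : ∀ i, i < P.k → MapsTo π (P'.D i) (P.D i)
  split : Splits C id P.D
  ses : ∀ (I : Finset ℕ) (hI : ∀ i ∈ I, i < P.k), T.SES (strat P.D I) (strat P'.D I) C π
    cont.continuousOn (fun _ hx i hi => maps i (hI i hi) (hx i hi))

/-- quasi-isomorphisms of weight complexes -/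
structure IsQI (T : CohF) (QI : (P' P : Pr) → (P'.X → P.X) → Prop) : Prop where
  pm : ∀ P' P f, QI P' P f → PM P' P f
  id : ∀ P, QI P P id
  comp : ∀ P'' P' P f g, QI P' P f → QI P'' P' g → QI P'' P (f ∘ g)
  blow : ∀ P' P π C, BlowPr T P' P π C → QI P' P π
  sandwich : ∀ P3 P2 P1 P0 f g h, PM P1 P0 f → PM P2 P1 g → PM P3 P2 h →
    QI P2 P0 (f ∘ g) → QI P3 P1 (g ∘ h) → QI P2 P1 g
  eul : ∀ P' P f, QI P' P f → P'.Fin T → P.Fin T → P'.eul T = P.eul T

/-- the weight complexes exist -/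
def WStmt : Prop := ∀ T : CohF, T.IsCoh → ∃ QI, IsQI T QI

end Pool.Agent.MP_696f7f_ag.H96
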