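import Pool.Agent.MP_696f7f_ag.H96.LocI

/-! Basic facts on local rings in `K`, ideals, derivations. -/

namespace Pool.Agent.MP_696f7f_ag.H96

open scoped ENNReal

variable {K : Type} [Field K] [Algebra ℝ K] {n : ℕ}

namespace Loc

variable {L L' : Loc K} {f g a s t : K} {I N : Submodule L.O K} {S T Y : Set K}

theorem mem_one : f ∈ (1 : Submodule L.O K) ↔ f ∈ L.O := by
  rw [Submodule.mem_one]
  exact ⟨fun ⟨y, hy⟩ => hy ▸ y.2, fun h => ⟨⟨f, h⟩, rfl⟩⟩

theorem span_one : L.span {1} = 1 :=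
  Submodule.one_eq_span.symm

theorem mem_m : f ∈ L.m ↔ f ∈ L.O ∧ L.ev f = 0 := Iff.rfl
theorem m_le_one : L.m ≤ 1 :=
  fun _ h => mem_one.2 h.1

theorem one_notMem_m : (1 : K) ∉ L.m :=
  fun h => by
  have := L.ev_alg 1
  rw [map_one, h.2] at this
  exact zero_ne_one this

theorem m_ne_one : L.m ≠ 1 :=
  fun h => one_notMem_m (L := L) (h ▸ mem_one.2 (one_mem _))

theorem mem_O_of_le (hI : I ≤ 1) (hf : f ∈ I) : f ∈ L.O :=
  mem_one.1 (hI hf)

theorem ev_zero : L.ev 0 = 0 := by simpa using L.ev_alg 0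

theorem ev_one : L.ev 1 = 1 := by simpa using L.ev_alg 1

theorem ev_neg (hf : f ∈ L.O) : L.ev (-f) = -L.ev f := by
  have := L.ev_add f hf (-f) (neg_mem hf)
  rw [add_neg_cancel, ev_zero] at this
  linarith

theorem ev_sub (hf : f ∈ L.O) (hg : g ∈ L.O) : L.ev (f - g) = L.ev f - L.ev g := by
  rw [sub_eq_add_neg, L.ev_add f hf _ (neg_mem hg), ev_neg hg, sub_eq_add_neg]

theorem ev_pow (hf : f ∈ L.O) (k : ℕ) : L.ev (f ^ k) = L.ev f ^ k := by
  induction k with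
  | zero => simp [ev_one]
  | succ k ih => rw [pow_succ, L.ev_mul _ (pow_mem hf k) _ hf, ih, pow_succ]

theorem ev_smul (hf : f ∈ L.O) (r : ℝ) : L.ev (r • f) = r * L.ev f := by
  rw [Algebra.smul_def, L.ev_mul _ (L.O.algebraMap_mem r) _ hf, L.ev_alg]

theorem ev_sum {ι : Type*} (u : Finset ι) (F : ι → K) (h : ∀ i ∈ u, F i ∈ L.O) :
    L.ev (∑ i ∈ u, F i) = ∑ i ∈ u, L.ev (F i) := by
  classical
  induction u using Finset.induction_on with
  | empty => simp [ev_zero]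
  | insert i u hi ih =>
    have h' : ∀ j ∈ u, F j ∈ L.O := fun j hj => h j (Finset.mem_insert_of_mem hj)
    rw [Finset.sum_insert hi, Finset.sum_insert hi,
      L.ev_add _ (h i (Finset.mem_insert_self i u)) _ (sum_mem h'), ih h']

theorem ev_prod {ι : Type*} (u : Finset ι) (F : ι → K) (h : ∀ i ∈ u, F i ∈ L.O) :
    L.ev (∏ i ∈ u, F i) = ∏ i ∈ u, L.ev (F i) := by
  classical
  induction u using Finset.induction_on with
  | empty => simp [ev_one]
  | insert i u hi ih =>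
    have h' : ∀ j ∈ u, F j ∈ L.O := fun j hj => h j (Finset.mem_insert_of_mem hj)
    rw [Finset.prod_insert hi, Finset.prod_insert hi,
      L.ev_mul _ (h i (Finset.mem_insert_self i u)) _ (prod_mem h'), ih h']

theorem ev_inv (hf : f ∈ L.O) (h : L.ev f ≠ 0) : L.ev f⁻¹ = (L.ev f)⁻¹ := by
  have h0 : f ≠ 0 := fun g => h (by rw [g, ev_zero])
  have := L.ev_mul f hf _ (L.inv_mem f hf h)
  rw [mul_inv_cancel₀ h0, ev_one] at this
  exact eq_inv_of_mul_eq_one_right this.symm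

theorem div_mem (hf : f ∈ L.O) (hg : g ∈ L.O) (h : L.ev g ≠ 0) : f / g ∈ L.O := by
  rw [div_eq_mul_inv]; exact mul_mem hf (L.inv_mem g hg h)

theorem ev_div (hf : f ∈ L.O) (hg : g ∈ L.O) (h : L.ev g ≠ 0) :
    L.ev (f / g) = L.ev f / L.ev g := by
  rw [div_eq_mul_inv, L.ev_mul f hf _ (L.inv_mem g hg h), ev_inv hg h, div_eq_mul_inv]

theorem ne_zero_of_ev (h : L.ev f ≠ 0) : f ≠ 0 :=
  fun g => h (by rw [g, ev_zero])

theorem sub_ev_mem (hf : f ∈ L.O) : f - algebraMap ℝ K (L.ev f) ∈ L.m :=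
  ⟨sub_mem hf (L.O.algebraMap_mem _), by
    rw [ev_sub hf (L.O.algebraMap_mem _), L.ev_alg, sub_self]⟩

theorem natCast_inv_mem (k : ℕ) : ((k : K) + 1)⁻¹ ∈ L.O := by
  have := L.O.algebraMap_mem (((k : ℝ) + 1)⁻¹)
  simpa using this

theorem mul_mem_left (ha : a ∈ L.O) (hf : f ∈ I) : a * f ∈ I :=
  I.smul_mem ⟨a, ha⟩ hf

theorem mul_mem_right (ha : a ∈ L.O) (hf : f ∈ I) : f * a ∈ I :=
  mul_comm a f ▸ mul_mem_left ha hf

theorem smul_mem (r : ℝ) (hf : f ∈ I) : r • f ∈ I := by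
  rw [Algebra.smul_def]; exact mul_mem_left (L.O.algebraMap_mem r) hf

theorem mem_of_unit_mul (ha : a ∈ L.O) (h0 : L.ev a ≠ 0) (hf : a * f ∈ I) : f ∈ I := by
  have := mul_mem_left (L.inv_mem a ha h0) hf
  rwa [inv_mul_cancel_left₀ (ne_zero_of_ev h0)] at this

theorem subset_span (hf : f ∈ S) : f ∈ L.span S :=
  Submodule.subset_span hf

theorem span_le : L.span S ≤ I ↔ ∀ f ∈ S, f ∈ I :=
  Submodule.span_le

theorem span_mono (h : S ⊆ T) : L.span S ≤ L.span T :=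
  Submodule.span_mono h

theorem span_union : L.span (S ∪ T) = L.span S ⊔ L.span T :=
  Submodule.span_union S T

theorem span_empty : L.span ∅ = ⊥ :=
  Submodule.span_empty

theorem span_le_one (h : ∀ y ∈ Y, y ∈ L.O) : L.span Y ≤ 1 :=
  span_le.2 fun y hy => mem_one.2 (h y hy)

theorem span_induction {p : K → Prop} (hf : f ∈ L.span S) (hS : ∀ x ∈ S, p x) (h0 : p 0)
    (hadd : ∀ x y, x ∈ L.span S → y ∈ L.span S → p x → p y → p (x + y))
    (hmul : ∀ a ∈ L.O, ∀ x ∈ L.span S, p x → p (a * x)) : p f :=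
  Submodule.span_induction (p := fun x _ => p x) hS h0 hadd
    (fun a x hx => hmul a.1 a.2 x hx) hf

theorem mem_span_singleton : f ∈ L.span {s} ↔ ∃ a ∈ L.O, f = a * s := by
  unfold span
  rw [Submodule.mem_span_singleton]
  exact ⟨fun ⟨a, h⟩ => ⟨a.1, a.2, h.symm⟩, fun ⟨a, ha, h⟩ => ⟨⟨a, ha⟩, h.symm⟩⟩

theorem mem_span_image {ι : Type*} (u : Finset ι) (x : ι → K) :
    f ∈ L.span (x '' u) ↔ ∃ a : ι → K, (∀ i ∈ u, a i ∈ L.O) ∧ f = ∑ i ∈ u, a i * x i := by
  classical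
  unfold span
  rw [Submodule.mem_span_image_finset_iff_exists_fun']
  constructor
  · rintro ⟨c, rfl⟩
    exact ⟨fun i => c i, fun i _ => (c i).2, rfl⟩
  · rintro ⟨c, hc, rfl⟩
    refine ⟨fun i => if h : i ∈ u then ⟨c i, hc i h⟩ else 0, Finset.sum_congr rfl fun i hi => ?_⟩
    simp only [dif_pos hi]; rfl

theorem span_singleton_mul : L.span {s} * L.span {t} = L.span {s * t} := by
  unfold span
  rw [Submodule.span_mul_span, Set.singleton_mul_singleton]

theorem span_singleton_pow (k : ℕ) : L.span {s} ^ k = L.span {s ^ k} := by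
  unfold span
  rw [Submodule.span_pow, Set.singleton_pow]

theorem span_singleton_eq_one : L.span {s} = 1 ↔ s ∈ L.O ∧ L.ev s ≠ 0 := by
  constructor
  · intro h
    have hs : s ∈ L.O := mem_one.1 (h ▸ subset_span rfl)
    obtain ⟨a, ha, e⟩ := mem_span_singleton.1 (h ▸ mem_one.2 (one_mem _) : (1 : K) ∈ L.span {s})
    refine ⟨hs, fun g => ?_⟩
    have := L.ev_mul a ha s hs
    rw [← e, g, mul_zero, ev_one] at this
    exact one_ne_zero this
  · rintro ⟨h1, h2⟩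
    refine le_antisymm (span_le_one fun y hy => by rwa [hy]) fun x hx => ?_
    exact mem_span_singleton.2 ⟨x / s, div_mem (mem_one.1 hx) h1 h2,
      (div_mul_cancel₀ x (ne_zero_of_ev h2)).symm⟩

theorem span_singleton_eq_iff : L.span {s} = L.span {t} ↔ ∃ u ∈ L.O, L.ev u ≠ 0 ∧ t = u * s := by
  constructor
  · intro h
    by_cases hs : s = 0
    · obtain ⟨a, _, e⟩ := mem_span_singleton.1 (h ▸ subset_span rfl : t ∈ L.span {s})
      exact ⟨1, one_mem _, by simp [ev_one], by simp [e, hs]⟩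
    obtain ⟨a, ha, e⟩ := mem_span_singleton.1 (h ▸ subset_span rfl : t ∈ L.span {s})
    obtain ⟨b, hb, e'⟩ := mem_span_singleton.1 (h ▸ subset_span rfl : s ∈ L.span {t})
    refine ⟨a, ha, fun g => ?_, e⟩
    have h1 : b * a = 1 := mul_right_cancel₀ hs (by rw [mul_assoc, ← e, ← e', one_mul])
    have := L.ev_mul b hb a ha
    rw [h1, g, mul_zero, ev_one] at this
    exact one_ne_zero this
  · rintro ⟨u, hu, h0, rfl⟩
    refine le_antisymm (span_le.2 fun y hy => ?_) (span_le.2 fun y hy => ?_)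
    · rw [hy]; exact mem_of_unit_mul hu h0 (subset_span rfl)
    · rw [hy]; exact mul_mem_left hu (subset_span rfl)

theorem eq_one_of_mem (hI : I ≤ 1) (hf : f ∈ I) (h0 : L.ev f ≠ 0) : I = 1 := by
  refine le_antisymm hI ?_
  rw [← span_singleton_eq_one.2 ⟨mem_O_of_le hI hf, h0⟩]
  exact span_le.2 fun y hy => by rwa [hy]

theorem le_m_or_eq_one (hI : I ≤ 1) : I ≤ L.m ∨ I = 1 := by
  by_cases h : ∀ f ∈ I, L.ev f = 0
  · exact Or.inl fun f hf => ⟨mem_O_of_le hI hf, h f hf⟩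
  · push Not at h
    obtain ⟨f, hf, h0⟩ := h
    exact Or.inr (eq_one_of_mem hI hf h0)

theorem pow_le_one (hI : I ≤ 1) (k : ℕ) : I ^ k ≤ 1 :=
  pow_le_one₀ bot_le hI

theorem pow_anti (hI : I ≤ 1) {k l : ℕ} (h : k ≤ l) : I ^ l ≤ I ^ k :=
  pow_le_pow_of_le_one bot_le hI h

theorem pow_mono (h : I ≤ N) (k : ℕ) : I ^ k ≤ N ^ k :=
  pow_le_pow_left' h k

theorem mul_mem_pow_add {k l : ℕ} (hf : f ∈ I ^ k) (hg : g ∈ I ^ l) : f * g ∈ I ^ (k + l) := by
  rw [pow_add]; exact Submodule.mul_mem_mul hf hg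

theorem pow_mem_pow (hf : f ∈ I) (k : ℕ) : f ^ k ∈ I ^ k :=
  Submodule.pow_mem_pow I hf k

theorem ext' (h : L.O = L'.O) : L = L' := by
  have e : L.ev = L'.ev := by
    funext f
    by_cases hf : f ∈ L.O
    · have h1 := sub_ev_mem hf
      have h2 : L'.ev (f - algebraMap ℝ K (L.ev f)) = 0 := by
        by_contra g
        have h3 : (f - algebraMap ℝ K (L.ev f))⁻¹ ∈ L.O := h ▸ L'.inv_mem _ (h ▸ h1.1) g
        have := mul_mem_left h3 h1
        rw [inv_mul_cancel₀ (ne_zero_of_ev g)] at this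
        exact one_notMem_m this
      rw [ev_sub (h ▸ hf) (L'.O.algebraMap_mem _), L'.ev_alg] at h2
      linarith
    · rw [L.ev_out f hf, L'.ev_out f (h ▸ hf)]
  cases L
  cases L'
  simp only at h e
  subst h e
  rfl

theorem span_lift (hle : L.O ≤ L'.O) (hf : f ∈ L.span S) : f ∈ L'.span S :=
  span_induction (p := fun x => x ∈ L'.span S) hf (fun _ hx => subset_span hx) (zero_mem _)
    (fun _ _ _ _ => add_mem) fun _ ha _ _ hx => mul_mem_left (hle ha) hx

theorem span_pow_lift (hle : L.O ≤ L'.O) {k : ℕ} (hf : f ∈ L.span S ^ k) : f ∈ L'.span S ^ k := by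
  unfold span at hf ⊢
  rw [Submodule.span_pow] at hf ⊢
  exact span_lift hle hf

theorem span_eq_lift (hle : L.O ≤ L'.O) (h : L.span S = L.span T) : L'.span S = L'.span T :=
  le_antisymm (span_le.2 fun _ hf => span_lift hle (h ▸ subset_span hf))
    (span_le.2 fun _ hf => span_lift hle (h ▸ subset_span hf))

theorem m_pow_lift (hle : L.O ≤ L'.O) (hev : ∀ f ∈ L.O, L'.ev f = L.ev f) {k : ℕ}
    (hf : f ∈ L.m ^ k) : f ∈ L'.m ^ k := by
  have e : L.span (L.m : Set K) = L.m := Submodule.span_eq _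
  rw [← e] at hf
  have h1 : L'.span (L.m : Set K) ≤ L'.m :=
    span_le.2 fun g hg => ⟨hle hg.1, (hev g hg.1).trans hg.2⟩
  exact pow_mono h1 k (span_pow_lift hle hf)

theorem fg_of_le_one (hI : I ≤ 1) : I.FG := by
  have := L.noeth
  have e : (I.comap (Algebra.linearMap L.O K)).map (Algebra.linearMap L.O K) = I :=
    Submodule.map_comap_eq_self (Submodule.one_eq_range (R := L.O) (A := K) ▸ hI)
  rw [← e]
  exact (IsNoetherian.noetherian _).map _

theorem LBasic_jac : (L.m.comap (Algebra.linearMap L.O K) : Ideal L.O) ≤ Ideal.jacobson ⊥ := by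
  intro x hx
  rw [Ideal.mem_jacobson_bot]
  intro y
  have h1 : L.ev ((x * y + 1 : L.O) : K) ≠ 0 := by
    have : L.ev x = 0 := hx.2
    push_cast
    rw [L.ev_add _ (mul_mem x.2 y.2) _ (one_mem _), L.ev_mul _ x.2 _ y.2, this, ev_one]
    simp
  exact IsUnit.of_mul_eq_one ⟨_, L.inv_mem _ (x * y + 1).2 h1⟩
    (Subtype.ext (mul_inv_cancel₀ (ne_zero_of_ev h1)))

theorem LBasic_pow (k : ℕ) (hf : f ∈ L.m ^ k) :
    ∃ y ∈ (L.m.comap (Algebra.linearMap L.O K) : Ideal L.O) ^ k, (y : K) = f := by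
  induction k generalizing f with
  | zero => exact ⟨⟨f, mem_O_of_le (pow_le_one m_le_one 0) hf⟩, by simp, rfl⟩
  | succ k ih =>
    rw [pow_succ] at hf ⊢
    refine Submodule.mul_induction_on hf (fun x hx y hy => ?_) ?_
    · obtain ⟨x', hx', rfl⟩ := ih hx
      exact ⟨x' * ⟨y, hy.1⟩, Ideal.mul_mem_mul hx' hy, rfl⟩
    · rintro _ _ ⟨x, hx, rfl⟩ ⟨y, hy, rfl⟩
      exact ⟨x + y, add_mem hx hy, rfl⟩

/-- Krull intersection -/
theorem krull (hI : I ≤ 1) (h : ∀ k, f ∈ I ⊔ L.m ^ k) : f ∈ I := by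
  have := L.noeth
  have hf : f ∈ L.O := mem_O_of_le (sup_le hI (pow_le_one m_le_one 0)) (h 0)
  let I' : Submodule L.O L.O := I.comap (Algebra.linearMap L.O K)
  have key := Ideal.iInf_pow_smul_eq_bot_of_le_jacobson (M := L.O ⧸ I') _
    (LBasic_jac (L := L))
  have h1 : I'.mkQ ⟨f, hf⟩ ∈ (⊥ : Submodule L.O (L.O ⧸ I')) := by
    rw [← key, Submodule.mem_iInf]
    intro k
    obtain ⟨x, hx, y, hy, e⟩ := Submodule.mem_sup.1 (h k)
    obtain ⟨y', hy', rfl⟩ := LBasic_pow k hy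
    have e' : I'.mkQ ⟨f, hf⟩ = y' • I'.mkQ 1 := by
      rw [← map_smul, smul_eq_mul, mul_one, Submodule.mkQ_apply, Submodule.mkQ_apply,
        Submodule.Quotient.eq]
      change f - y' ∈ I
      rw [← e, add_sub_cancel_right]
      exact hx
    rw [e']
    exact Submodule.smul_mem_smul hy' Submodule.mem_top
  exact (Submodule.Quotient.mk_eq_zero I').1 h1

theorem nakayama (hN : N ≤ 1) (h : N ≤ I ⊔ L.m * N) : N ≤ I := by
  refine Submodule.le_of_le_smul_of_le_jacobson_bot (fg_of_le_one hN) (LBasic_jac (L := L))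
    (h.trans (sup_le_sup_left (Submodule.mul_le.2 fun x hx y hy => ?_) _))
  exact Submodule.smul_mem_smul (I := L.m.comap (Algebra.linearMap L.O K))
    (r := (⟨x, hx.1⟩ : L.O)) hx hy

/-- a principal ideal of a local ring is generated by one of any family of generators -/
theorem exists_gen_of_span_eq (h : L.span S = L.span {s}) (hs : s ≠ 0) :
    ∃ t ∈ S, L.span {t} = L.span {s} := by
  by_contra hc
  push Not at hc
  have key : ∃ a ∈ L.m, s = a * s := by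
    refine span_induction (p := fun x => ∃ a ∈ L.m, x = a * s) (h ▸ subset_span rfl : s ∈ L.span S)
      (fun x hx => ?_) ⟨0, zero_mem _, by simp⟩ ?_ ?_
    · obtain ⟨a, ha, e⟩ := mem_span_singleton.1 (h ▸ subset_span hx : x ∈ L.span {s})
      refine ⟨a, ⟨ha, ?_⟩, e⟩
      by_contra g
      exact hc x hx (span_singleton_eq_iff.2 ⟨a, ha, g, e⟩).symm
    · rintro _ _ _ _ ⟨a, ha, rfl⟩ ⟨b, hb, rfl⟩
      exact ⟨a + b, add_mem ha hb, by ring⟩
    · rintro c hc' _ _ ⟨a, ha, rfl⟩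
      exact ⟨c * a, mul_mem_left hc' ha, by ring⟩
  obtain ⟨a, ha, e⟩ := key
  have : a = 1 := mul_right_cancel₀ hs (by rw [← e, one_mul])
  exact one_notMem_m (this ▸ ha)


variable {𝔈 𝔈' : Set (Set K)} {δ δ' : Der K} {l : List (Der K)}

theorem log_mono (h : 𝔈 ⊆ 𝔈') : L.log 𝔈' ⊆ L.log 𝔈 :=
  fun _ hδ => ⟨hδ.1, fun Y hY => hδ.2 Y (h hY)⟩

theorem log_sub_empty : L.log 𝔈 ⊆ L.log ∅ :=
  log_mono (Set.empty_subset _)

theorem mem_log_empty : δ ∈ L.log ∅ ↔ ∀ f ∈ L.O, δ f ∈ L.O :=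
  ⟨fun h => h.1, fun h => ⟨h, fun _ hY => hY.elim⟩⟩

theorem log_congr (h : ∀ Y' ∈ 𝔈', L.span Y' = 1 ∨ ∃ Y ∈ 𝔈, L.span Y = L.span Y') :
    L.log 𝔈 ⊆ L.log 𝔈' := by
  refine fun δ hδ => ⟨hδ.1, fun Y' hY' => ?_⟩
  rcases h Y' hY' with e | ⟨Y, hY, e⟩
  · rw [e]; exact fun f hf => mem_one.2 (hδ.1 f (mem_one.1 hf))
  · rw [← e]; exact hδ.2 Y hY

theorem lg_congr {Y Y' : ℕ → Set K} (h : ∀ i, L.span (Y i) = L.span (Y' i)) :
    L.lg Y = L.lg Y' :=
  Set.Subset.antisymm (log_congr (by rintro _ ⟨i, rfl⟩; exact Or.inr ⟨_, ⟨i, rfl⟩, h i⟩))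
    (log_congr (by rintro _ ⟨i, rfl⟩; exact Or.inr ⟨_, ⟨i, rfl⟩, (h i).symm⟩))

theorem lg_trivial {Y : ℕ → Set K} (h : ∀ i, L.span (Y i) = 1) : L.lg Y = L.log ∅ :=
  Set.Subset.antisymm log_sub_empty (log_congr (by rintro _ ⟨i, rfl⟩; exact Or.inl (h i)))

theorem mem_log_of_gen (hδ : δ ∈ L.log ∅) (hY : ∀ y ∈ Y, y ∈ L.O)
    (h : ∀ y ∈ Y, δ y ∈ L.span Y) : δ ∈ L.log {Y} := by
  refine ⟨hδ.1, ?_⟩
  rintro _ rfl f hf
  have _ := hY
  refine span_induction (p := fun x => δ x ∈ L.span _) hf h (by simp) (fun x y _ _ hx hy => ?_)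
    fun a ha x hx hx' => ?_
  · rw [map_add]; exact add_mem hx hy
  · rw [Derivation.leibniz, smul_eq_mul, smul_eq_mul]
    exact add_mem (mul_mem_left ha hx') (mul_mem_right (hδ.1 a ha) hx)

theorem mem_log_iff : δ ∈ L.log 𝔈 ↔ δ ∈ L.log ∅ ∧ ∀ Y ∈ 𝔈, δ ∈ L.log {Y} :=
  ⟨fun h => ⟨log_sub_empty h, fun _ hY => log_mono (Set.singleton_subset_iff.2 hY) h⟩,
    fun h => ⟨h.1.1, fun Y hY => (h.2 Y hY).2 Y rfl⟩⟩

theorem log_zero : (0 : Der K) ∈ L.log 𝔈 :=
  ⟨fun _ _ => zero_mem _, fun _ _ _ _ => zero_mem _⟩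

theorem log_add (h : δ ∈ L.log 𝔈) (h' : δ' ∈ L.log 𝔈) : δ + δ' ∈ L.log 𝔈 :=
  ⟨fun f hf => add_mem (h.1 f hf) (h'.1 f hf),
    fun Y hY f hf => add_mem (h.2 Y hY f hf) (h'.2 Y hY f hf)⟩

theorem log_sub (h : δ ∈ L.log 𝔈) (h' : δ' ∈ L.log 𝔈) : δ - δ' ∈ L.log 𝔈 :=
  ⟨fun f hf => sub_mem (h.1 f hf) (h'.1 f hf),
    fun Y hY f hf => sub_mem (h.2 Y hY f hf) (h'.2 Y hY f hf)⟩

theorem log_smul (ha : a ∈ L.O) (h : δ ∈ L.log 𝔈) : a • δ ∈ L.log 𝔈 :=
  ⟨fun f hf => mul_mem ha (h.1 f hf), fun Y hY f hf => mul_mem_left ha (h.2 Y hY f hf)⟩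

theorem log_sum {ι : Type*} (u : Finset ι) (F : ι → Der K) (h : ∀ i ∈ u, F i ∈ L.log 𝔈) :
    ∑ i ∈ u, F i ∈ L.log 𝔈 :=
  Finset.sum_induction F (· ∈ L.log 𝔈) (fun _ _ => log_add) log_zero h

theorem log_bracket (h : δ ∈ L.log 𝔈) (h' : δ' ∈ L.log 𝔈) : ⁅δ, δ'⁆ ∈ L.log 𝔈 :=
  ⟨fun f hf => sub_mem (h.1 _ (h'.1 f hf)) (h'.1 _ (h.1 f hf)),
    fun Y hY f hf => sub_mem (h.2 Y hY _ (h'.2 Y hY f hf)) (h'.2 Y hY _ (h.2 Y hY f hf))⟩

theorem der_pow_succ (hδ : δ ∈ L.log ∅) (hI : I ≤ 1) {k : ℕ} (hf : f ∈ I ^ (k + 1)) :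
    δ f ∈ I ^ k := by
  induction k generalizing f with
  | zero => rw [pow_zero]; exact mem_one.2 (hδ.1 f (mem_O_of_le (pow_le_one hI _) hf))
  | succ k ih =>
    rw [pow_succ] at hf
    refine Submodule.mul_induction_on hf (fun x hx y hy => ?_) fun x y hx hy => ?_
    · rw [Derivation.leibniz, smul_eq_mul, smul_eq_mul]
      refine add_mem (mul_mem_right (hδ.1 y (mem_O_of_le hI hy)) hx) ?_
      rw [pow_succ']
      exact Submodule.mul_mem_mul hy (ih hx)
    · rw [map_add]; exact add_mem hx hy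

theorem der_pow (hδ : δ ∈ L.log {Y}) {k : ℕ} (hf : f ∈ L.span Y ^ k) : δ f ∈ L.span Y ^ k := by
  induction k generalizing f with
  | zero => rw [pow_zero] at hf ⊢; exact mem_one.2 (hδ.1 f (mem_one.1 hf))
  | succ k ih =>
    rw [pow_succ] at hf ⊢
    refine Submodule.mul_induction_on hf (fun x hx y hy => ?_) fun x y hx hy => ?_
    · rw [Derivation.leibniz, smul_eq_mul, smul_eq_mul, mul_comm y]
      exact add_mem (Submodule.mul_mem_mul hx (hδ.2 Y rfl y hy)) (Submodule.mul_mem_mul (ih hx) hy)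
    · rw [map_add]; exact add_mem hx hy

theorem ders_mem (hl : ∀ δ ∈ l, δ ∈ L.log ∅) (hf : f ∈ L.O) : ders l f ∈ L.O := by
  induction l with
  | nil => exact hf
  | cons δ l ih =>
    exact (hl δ List.mem_cons_self).1 _ (ih fun δ' h => hl δ' (List.mem_cons_of_mem _ h))

theorem ders_pow (hl : ∀ δ ∈ l, δ ∈ L.log ∅) (hI : I ≤ 1) {w : ℕ} (hf : f ∈ I ^ w) :
    ders l f ∈ I ^ (w - l.length) := by
  induction l with
  | nil => exact hf
  | cons δ l ih =>
    have h1 := ih fun δ' h => hl δ' (List.mem_cons_of_mem _ h)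
    rcases Nat.eq_zero_or_pos (w - l.length) with g | g
    · rw [show w - (δ :: l).length = 0 by simp only [List.length_cons]; omega, pow_zero]
      exact mem_one.2 ((hl δ List.mem_cons_self).1 _ (mem_O_of_le (pow_le_one hI _) h1))
    · refine der_pow_succ (hl δ List.mem_cons_self) hI ?_
      rwa [show w - (δ :: l).length + 1 = w - l.length by simp only [List.length_cons]; omega]

theorem ders_span (hl : ∀ δ ∈ l, δ ∈ L.log {Y}) (hf : f ∈ L.span Y) : ders l f ∈ L.span Y := by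
  induction l with
  | nil => exact hf
  | cons δ l ih =>
    exact (hl δ List.mem_cons_self).2 Y rfl _ (ih fun δ' h => hl δ' (List.mem_cons_of_mem _ h))

/-- Leibniz rule for words -/
theorem ders_mul_mem (hl : ∀ δ ∈ l, δ ∈ L.log ∅) (ha : a ∈ L.O) (f : K) :
    ders l (a * f) ∈ L.span {g | ∃ l', l'.Sublist l ∧ g = ders l' f} := by
  induction l with
  | nil => exact mul_mem_left ha (subset_span ⟨[], List.Sublist.refl _, rfl⟩)
  | cons δ l ih =>
    have hδ := hl δ List.mem_cons_self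
    have hsub : L.span {g | ∃ l', l'.Sublist l ∧ g = ders l' f} ≤
        L.span {g | ∃ l', l'.Sublist (δ :: l) ∧ g = ders l' f} :=
      span_mono fun _ ⟨l', h1, h2⟩ => ⟨l', h1.cons δ, h2⟩
    refine span_induction (p := fun x => δ x ∈ L.span {g | ∃ l', l'.Sublist (δ :: l) ∧
      g = ders l' f}) (ih fun δ' h => hl δ' (List.mem_cons_of_mem _ h)) ?_ (by simp)
      (fun x y _ _ hx hy => ?_) fun b hb x hx hx' => ?_
    · rintro _ ⟨l', h1, rfl⟩
      exact subset_span ⟨δ :: l', h1.cons_cons δ, rfl⟩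
    · rw [map_add]; exact add_mem hx hy
    · rw [Derivation.leibniz, smul_eq_mul, smul_eq_mul]
      exact add_mem (mul_mem_left hb hx') (mul_mem_right (hδ.1 b hb) (hsub hx))


end Loc

section
variable {l l' : List (Der K)} {δ : Der K} {f g : K}

@[simp] theorem ders_nil : ders ([] : List (Der K)) f = f := rfl
@[simp] theorem ders_cons : ders (δ :: l) f = δ (ders l f) := rfl
theorem ders_append : ders (l ++ l') f = ders l (ders l' f) :=
  List.foldr_append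

theorem ders_add : ders l (f + g) = ders l f + ders l g := by
  induction l with
  | nil => rfl
  | cons δ l ih => rw [ders_cons, ih, map_add]; rfl

theorem ders_sub : ders l (f - g) = ders l f - ders l g := by
  induction l with
  | nil => rfl
  | cons δ l ih => rw [ders_cons, ih, map_sub]; rfl

@[simp] theorem ders_zero : ders l (0 : K) = 0 := by
  induction l with
  | nil => rfl
  | cons δ l ih => rw [ders_cons, ih, map_zero]

theorem ders_smul (r : ℝ) : ders l (r • f) = r • ders l f := by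
  induction l with
  | nil => rfl
  | cons δ l ih => rw [ders_cons, ih, Derivation.map_smul]; rfl

theorem ders_replicate (k : ℕ) : ders (List.replicate k δ) f = δ^[k] f := by
  induction k with
  | zero => rfl
  | succ k ih => rw [List.replicate_succ, ders_cons, ih, Function.iterate_succ_apply']

end

end Pool.Agent.MP_696f7f_ag.H96
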