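import Pool.Agent.MP_696f7f_ag.H96.LBasic

/-! Charts: uniqueness of derivations, commutation, Taylor approximation, changes of chart. -/

namespace Pool.Agent.MP_696f7f_ag.H96

variable {K : Type} [Field K] [Algebra ℝ K] {n : ℕ}
variable {L : Loc K} {κ κ' : Chart K n} {δ : Der K} {f : K} {J J' : Finset (Fin n)}
  {Y : ℕ → Set K} {σ : ℕ → Option (Fin n)} {Z : Set K}

theorem LChart_sum_apply {ι : Type*} (u : Finset ι) (F : ι → Der K) (g : K) :
    (∑ i ∈ u, F i) g = ∑ i ∈ u, F i g := by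
  classical
  induction u using Finset.induction_on with
  | empty => simp
  | insert a s ha ih => rw [Finset.sum_insert ha, Finset.sum_insert ha, Derivation.add_apply, ih]

namespace IsCrd

theorem x_mem_m (h : IsCrd L κ) (i : Fin n) : κ.x i ∈ L.m := by
  rw [← h.span]; exact Loc.subset_span ⟨i, rfl⟩
theorem x_mem (h : IsCrd L κ) (i : Fin n) : κ.x i ∈ L.O := (h.x_mem_m i).1
theorem x_ne_zero (h : IsCrd L κ) (i : Fin n) : κ.x i ≠ 0 := by
  intro h0
  have := h.dual i i
  rw [h0, map_zero, if_pos rfl] at this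
  exact zero_ne_one this
theorem x_injective (h : IsCrd L κ) : Function.Injective κ.x := by
  intro i j hij
  by_contra hne
  have h1 := h.dual i i
  rw [hij, h.dual i j, if_neg hne, if_pos rfl] at h1
  exact zero_ne_one h1
theorem y_mem (h : IsCrd L κ) (o : Option (Fin n)) : κ.y o ∈ L.O := by
  cases o with
  | none => exact one_mem _
  | some j => exact h.x_mem j
theorem D_log (h : IsCrd L κ) (i : Fin n) : κ.D i ∈ L.log ∅ := Loc.mem_log_empty.2 (h.pres i)
theorem I_le_m (h : IsCrd L κ) : κ.I L J ≤ L.m := by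
  refine Loc.span_le.2 ?_
  rintro _ ⟨j, -, rfl⟩
  exact h.x_mem_m j
theorem I_le_one (h : IsCrd L κ) : κ.I L J ≤ 1 := h.I_le_m.trans Loc.m_le_one
theorem I_univ (h : IsCrd L κ) : κ.I L Finset.univ = L.m := by
  rw [← h.span, Chart.I, Finset.coe_univ, Set.image_univ]
private theorem D_log_I' (h : IsCrd L κ) {j : Fin n} (hj : j ∉ J) :
    κ.D j ∈ L.log {κ.x '' J} := by
  refine Loc.mem_log_of_gen (h.D_log j) ?_ ?_
  · rintro _ ⟨i, -, rfl⟩
    exact h.x_mem i
  · rintro _ ⟨i, hi, rfl⟩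
    rw [h.dual, if_neg (by rintro rfl; exact hj hi)]
    exact zero_mem _
private theorem D_mem_I (h : IsCrd L κ) {j : Fin n} (hj : j ∉ J) (hf : f ∈ κ.I L J) :
    κ.D j f ∈ κ.I L J := (h.D_log_I' hj).2 _ rfl f hf
private theorem D_mem_m_of_sq (hδ : δ ∈ L.log ∅) (hf : f ∈ L.m ^ 2) : δ f ∈ L.m := by
  have := Loc.der_pow_succ (k := 1) hδ Loc.m_le_one hf
  rwa [pow_one] at this
private theorem x_notMem_sup' (h : IsCrd L κ) {j : Fin n} (hj : j ∉ J) :
    κ.x j ∉ κ.I L J ⊔ L.m ^ 2 := by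
  intro hx
  obtain ⟨a, ha, b, hb, hab⟩ := Submodule.mem_sup.1 hx
  have h1 : κ.D j (κ.x j) ∈ L.m := by
    rw [← hab, map_add]
    exact add_mem (h.I_le_m (h.D_mem_I hj ha)) (D_mem_m_of_sq (h.D_log j) hb)
  rw [h.dual, if_pos rfl] at h1
  exact Loc.one_notMem_m h1
theorem x_mem_I (h : IsCrd L κ) {j : Fin n} : κ.x j ∈ κ.I L J ↔ j ∈ J := by
  constructor
  · intro hx
    by_contra hj
    exact h.x_notMem_sup' hj (Submodule.mem_sup_left hx)
  · intro hj
    exact Loc.subset_span ⟨j, hj, rfl⟩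
theorem x_notMem_sup (h : IsCrd L κ) {j : Fin n} (hj : j ∉ J) : κ.x j ∉ κ.I L J ⊔ L.m ^ 2 :=
  h.x_notMem_sup' hj
theorem D_log_I (h : IsCrd L κ) {j : Fin n} (hj : j ∉ J) : κ.D j ∈ L.log {κ.x '' J} :=
  h.D_log_I' hj

/-- refined first order expansion -/
theorem LChart_sub_linear_I (h : IsCrd L κ) (hf : f ∈ κ.I L J) :
    f - ∑ i ∈ J, L.ev (κ.D i f) • κ.x i ∈ L.m * κ.I L J := by
  obtain ⟨a, ha, rfl⟩ := (Loc.mem_span_image J κ.x).1 hf
  have hev : ∀ i ∈ J, L.ev (κ.D i (∑ k ∈ J, a k * κ.x k)) = L.ev (a i) := by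
    intro i hi
    have h1 : κ.D i (∑ k ∈ J, a k * κ.x k) = a i + ∑ k ∈ J, κ.x k * κ.D i (a k) := by
      rw [map_sum]
      simp only [Derivation.leibniz, smul_eq_mul, h.dual, mul_ite, mul_one, mul_zero,
        Finset.sum_add_distrib, Finset.sum_ite_eq, if_pos hi]
    have h2 : ∑ k ∈ J, κ.x k * κ.D i (a k) ∈ L.m :=
      Submodule.sum_mem _ fun k hk => Loc.mul_mem_right (h.pres i _ (ha k hk)) (h.x_mem_m k)
    rw [h1, L.ev_add _ (ha i hi) _ h2.1, h2.2, add_zero]
  rw [← Finset.sum_sub_distrib]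
  refine Submodule.sum_mem _ fun i hi => ?_
  rw [hev i hi, Algebra.smul_def, ← sub_mul]
  exact Submodule.mul_mem_mul (Loc.sub_ev_mem (ha i hi)) (h.x_mem_I.2 hi)

private theorem sub_linear' (h : IsCrd L κ) (hf : f ∈ L.m) :
    f - ∑ i, L.ev (κ.D i f) • κ.x i ∈ L.m ^ 2 := by
  have := h.LChart_sub_linear_I (J := Finset.univ) (h.I_univ.symm ▸ hf)
  rwa [h.I_univ, ← pow_two] at this

theorem LChart_aeval_mem (h : IsCrd L κ) (P : MvPolynomial (Fin n) ℝ) :
    MvPolynomial.aeval κ.x P ∈ L.O := by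
  induction P using MvPolynomial.induction_on with
  | C r => rw [MvPolynomial.aeval_C]; exact L.O.algebraMap_mem r
  | add p q hp hq => rw [map_add]; exact add_mem hp hq
  | mul_X p i hp => rw [map_mul, MvPolynomial.aeval_X]; exact mul_mem hp (h.x_mem i)

/-- the leading form of an element of a power of the maximal ideal -/
theorem LChart_leading (h : IsCrd L κ) (k : ℕ) {g : K} (hg : g ∈ L.m ^ k) :
    ∃ Q : MvPolynomial (Fin n) ℝ, Q.IsHomogeneous k ∧
      g - MvPolynomial.aeval κ.x Q ∈ L.m ^ (k + 1) := by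
  induction k generalizing g with
  | zero =>
    rw [pow_zero, Loc.mem_one] at hg
    refine ⟨MvPolynomial.C (L.ev g), MvPolynomial.isHomogeneous_C _ _, ?_⟩
    rw [MvPolynomial.aeval_C, zero_add, pow_one]
    exact Loc.sub_ev_mem hg
  | succ k ih =>
    rw [pow_succ] at hg
    refine Submodule.mul_induction_on hg ?_ ?_
    · intro a ha b hb
      obtain ⟨Q, hQ, hQa⟩ := ih ha
      have hQm : MvPolynomial.aeval κ.x Q ∈ L.m ^ k := by
        have := sub_mem ha (Loc.pow_anti Loc.m_le_one (Nat.le_succ k) hQa)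
        rwa [sub_sub_cancel] at this
      refine ⟨Q * ∑ i, MvPolynomial.C (L.ev (κ.D i b)) * MvPolynomial.X i,
        hQ.mul (MvPolynomial.IsHomogeneous.sum _ _ _
          fun i _ => MvPolynomial.isHomogeneous_C_mul_X _ _), ?_⟩
      have e1 : MvPolynomial.aeval κ.x
          (∑ i, MvPolynomial.C (L.ev (κ.D i b)) * MvPolynomial.X i : MvPolynomial (Fin n) ℝ)
          = ∑ i, L.ev (κ.D i b) • κ.x i := by
        rw [map_sum]
        refine Finset.sum_congr rfl fun i _ => ?_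
        rw [map_mul, MvPolynomial.aeval_C, MvPolynomial.aeval_X, Algebra.smul_def]
      rw [map_mul, e1]
      have e2 : a * b - MvPolynomial.aeval κ.x Q * ∑ i, L.ev (κ.D i b) • κ.x i
          = (a - MvPolynomial.aeval κ.x Q) * b
            + MvPolynomial.aeval κ.x Q * (b - ∑ i, L.ev (κ.D i b) • κ.x i) := by ring
      rw [e2]
      refine add_mem ?_ (Loc.mul_mem_pow_add (k := k) (l := 2) hQm (h.sub_linear' hb))
      exact Loc.mul_mem_pow_add (k := k + 1) (l := 1) hQa (by rwa [pow_one])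
    · rintro a b ⟨P, hP, ha⟩ ⟨Q, hQ, hb⟩
      refine ⟨P + Q, hP.add hQ, ?_⟩
      have := add_mem ha hb
      rw [map_add]
      convert this using 1
      ring

private theorem taylor' (h : IsCrd L κ) (hf : f ∈ L.O) (k : ℕ) :
    ∃ P : MvPolynomial (Fin n) ℝ, f - MvPolynomial.aeval κ.x P ∈ L.m ^ k := by
  induction k with
  | zero =>
    refine ⟨0, ?_⟩
    rw [map_zero, sub_zero, pow_zero, Loc.mem_one]
    exact hf
  | succ k ih =>
    obtain ⟨P, hP⟩ := ih
    obtain ⟨Q, -, hQ⟩ := h.LChart_leading k hP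
    refine ⟨P + Q, ?_⟩
    rw [map_add, ← sub_sub]
    exact hQ

private theorem der_aeval_zero (h0 : ∀ i, δ (κ.x i) = 0) (P : MvPolynomial (Fin n) ℝ) :
    δ (MvPolynomial.aeval κ.x P) = 0 := by
  induction P using MvPolynomial.induction_on with
  | C r => rw [MvPolynomial.aeval_C, Derivation.map_algebraMap]
  | add p q hp hq => rw [map_add, map_add, hp, hq, add_zero]
  | mul_X p i hp =>
    rw [map_mul, MvPolynomial.aeval_X, Derivation.leibniz, hp, h0, smul_zero, smul_zero, add_zero]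

/-- a derivation that kills the coordinates kills the local ring -/
theorem der_eq_zero (h : IsCrd L κ) (hδ : δ ∈ L.log ∅) (h0 : ∀ i, δ (κ.x i) = 0)
    (hf : f ∈ L.O) : δ f = 0 := by
  have : δ f ∈ (⊥ : Submodule L.O K) := by
    refine Loc.krull bot_le fun k => Submodule.mem_sup_right ?_
    obtain ⟨P, hP⟩ := h.taylor' hf (k + 1)
    have := Loc.der_pow_succ hδ Loc.m_le_one hP
    rwa [map_sub, der_aeval_zero h0, sub_zero] at this
  exact (Submodule.mem_bot _).1 this
theorem der_eq (h : IsCrd L κ) (hδ : δ ∈ L.log ∅) (hf : f ∈ L.O) :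
    δ f = ∑ i, δ (κ.x i) * κ.D i f := by
  have key : ∀ g, (δ - ∑ i, δ (κ.x i) • κ.D i) g = δ g - ∑ i, δ (κ.x i) * κ.D i g := by
    intro g
    rw [Derivation.sub_apply, LChart_sum_apply]
    simp only [Derivation.smul_apply, smul_eq_mul]
  have hl : δ - ∑ i, δ (κ.x i) • κ.D i ∈ L.log ∅ :=
    Loc.log_sub hδ (Loc.log_sum _ _ fun i _ =>
      Loc.log_smul (Loc.mem_log_empty.1 hδ _ (h.x_mem i)) (h.D_log i))
  have := h.der_eq_zero hl (fun j => by
    rw [key]
    simp only [h.dual, mul_ite, mul_one, mul_zero, Finset.sum_ite_eq', Finset.mem_univ, if_true,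
      sub_self]) hf
  rw [key] at this
  exact sub_eq_zero.1 this
theorem comm (h : IsCrd L κ) (i j : Fin n) (hf : f ∈ L.O) :
    κ.D i (κ.D j f) = κ.D j (κ.D i f) := by
  have := h.der_eq_zero (Loc.log_bracket (h.D_log i) (h.D_log j)) (fun k => by
    rw [Derivation.commutator_apply, h.dual, h.dual]
    split_ifs <;> simp) hf
  rw [Derivation.commutator_apply] at this
  exact sub_eq_zero.1 this
/-- Taylor approximation -/
theorem taylor (h : IsCrd L κ) (hf : f ∈ L.O) (k : ℕ) :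
    ∃ P : MvPolynomial (Fin n) ℝ, f - MvPolynomial.aeval κ.x P ∈ L.m ^ k := h.taylor' hf k
theorem D_aeval (h : IsCrd L κ) (i : Fin n) (P : MvPolynomial (Fin n) ℝ) :
    κ.D i (MvPolynomial.aeval κ.x P) = MvPolynomial.aeval κ.x (MvPolynomial.pderiv i P) := by
  induction P using MvPolynomial.induction_on with
  | C r => rw [MvPolynomial.aeval_C, Derivation.map_algebraMap, MvPolynomial.pderiv_C, map_zero]
  | add p q hp hq => rw [map_add, map_add, hp, hq, map_add, map_add]
  | mul_X p j hp =>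
    rw [map_mul, MvPolynomial.aeval_X, Derivation.leibniz, hp, h.dual, MvPolynomial.pderiv_mul,
      map_add, map_mul, map_mul, MvPolynomial.aeval_X, MvPolynomial.pderiv_X, Pi.single_apply]
    by_cases hij : i = j
    · subst hij
      simp only [if_true, smul_eq_mul, map_one]
      ring
    · rw [if_neg hij, if_neg (Ne.symm hij)]
      simp only [smul_eq_mul, map_zero]
      ring
theorem ev_aeval (h : IsCrd L κ) (P : MvPolynomial (Fin n) ℝ) :
    L.ev (MvPolynomial.aeval κ.x P) = MvPolynomial.constantCoeff P := by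
  induction P using MvPolynomial.induction_on with
  | C r => rw [MvPolynomial.aeval_C, L.ev_alg, MvPolynomial.constantCoeff_C]
  | add p q hp hq =>
    rw [map_add, L.ev_add _ (h.LChart_aeval_mem p) _ (h.LChart_aeval_mem q), hp, hq, map_add]
  | mul_X p j hp =>
    rw [map_mul, MvPolynomial.aeval_X, L.ev_mul _ (h.LChart_aeval_mem p) _ (h.x_mem j),
      (h.x_mem_m j).2, map_mul, MvPolynomial.constantCoeff_X, mul_zero, mul_zero]

/-- coefficients are detected by derivatives at the point -/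
theorem LChart_coeff_of_ders (h : IsCrd L κ) (e : ℕ) (Q : MvPolynomial (Fin n) ℝ)
    (h0 : ∀ l : List (Fin n), (∀ j ∈ l, j ∉ J) → l.length = e →
      L.ev (ders (l.map κ.D) (MvPolynomial.aeval κ.x Q)) = 0)
    (α : Fin n →₀ ℕ) (hα : α.degree = e) (hJ : ∀ j ∈ J, α j = 0) : MvPolynomial.coeff α Q = 0 := by
  induction e generalizing Q α with
  | zero =>
    rw [Finsupp.degree_eq_zero_iff] at hα
    subst hα
    have := h0 [] (by simp) rfl
    rwa [List.map_nil, ders_nil, h.ev_aeval] at this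
  | succ e ih =>
    have hne : α ≠ 0 := by
      rintro rfl
      simp at hα
    obtain ⟨i, hi⟩ := Finsupp.ne_iff.1 hne
    have hi0 : α i ≠ 0 := by simpa using hi
    have hiJ : i ∉ J := fun hJ' => hi0 (hJ i hJ')
    have hsplit : α = (α - Finsupp.single i 1) + Finsupp.single i 1 := by
      rw [tsub_add_cancel_of_le]
      rw [Finsupp.single_le_iff]
      exact Nat.one_le_iff_ne_zero.2 hi0
    have hdeg : (α - Finsupp.single i 1).degree = e := by
      have := congrArg Finsupp.degree hsplit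
      rw [map_add, Finsupp.degree_single, hα] at this
      omega
    have := ih (MvPolynomial.pderiv i Q) (fun l hl hle => by
      have := h0 (l ++ [i]) (fun j hj => by
        rcases List.mem_append.1 hj with hj | hj
        · exact hl j hj
        · rw [List.mem_singleton.1 hj]; exact hiJ) (by simp [hle])
      rwa [List.map_append, ders_append, List.map_cons, List.map_nil, ders_cons, ders_nil,
        h.D_aeval] at this) (α - Finsupp.single i 1) hdeg (fun j hj => by
      rw [Finsupp.tsub_apply, hJ j hj, Nat.zero_sub])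
    rw [MvPolynomial.coeff_pderiv, ← hsplit] at this
    rcases mul_eq_zero.1 this with h1 | h1
    · exact h1
    · exact absurd h1 (by positivity)

private theorem ders_log (h : IsCrd L κ) (l : List (Fin n)) : ∀ δ ∈ l.map κ.D, δ ∈ L.log ∅ := by
  intro δ hδ
  obtain ⟨j, -, rfl⟩ := List.mem_map.1 hδ
  exact h.D_log j

private theorem ders_mem_m (h : IsCrd L κ) {e : ℕ} {l : List (Fin n)} (hl : ∀ j ∈ l, j ∉ J)
    (he : l.length < e) (hf : f ∈ κ.I L J ⊔ L.m ^ e) : ders (l.map κ.D) f ∈ L.m := by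
  obtain ⟨a, ha, b, hb, rfl⟩ := Submodule.mem_sup.1 hf
  rw [ders_add]
  refine add_mem (h.I_le_m (J := J) (Loc.ders_span (fun δ hδ => ?_) ha)) ?_
  · obtain ⟨j, hj, rfl⟩ := List.mem_map.1 hδ
    exact h.D_log_I (hl j hj)
  · have := Loc.ders_pow (h.ders_log l) Loc.m_le_one hb
    rw [List.length_map] at this
    have h2 := Loc.pow_anti Loc.m_le_one (show 1 ≤ e - l.length by omega) this
    rwa [pow_one] at h2

/-- low order coefficients are determined -/
theorem coeff_eq_zero (h : IsCrd L κ) {P : MvPolynomial (Fin n) ℝ} {k : ℕ}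
    (hP : MvPolynomial.aeval κ.x P ∈ L.m ^ k) (α : Fin n →₀ ℕ) (hα : α.degree < k) :
    MvPolynomial.coeff α P = 0 :=
  h.LChart_coeff_of_ders (J := ∅) α.degree P (fun l hl hle =>
    (h.ders_mem_m (J := ∅) hl (hle ▸ hα) (Submodule.mem_sup_right hP)).2) α rfl (by simp)
/-- first order expansion -/
theorem sub_linear (h : IsCrd L κ) (hf : f ∈ L.m) :
    f - ∑ i, L.ev (κ.D i f) • κ.x i ∈ L.m ^ 2 := h.sub_linear' hf
/-- an element of order at least `e` all of whose derivatives of order `e` in the variables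
outside `J` vanish at the point lies in `I J + m ^ (e + 1)` -/
theorem mem_sup_of_ders (h : IsCrd L κ) {e : ℕ} (hf : f ∈ κ.I L J ⊔ L.m ^ e)
    (h0 : ∀ l : List (Fin n), (∀ j ∈ l, j ∉ J) → l.length = e →
      L.ev (ders (l.map κ.D) f) = 0) : f ∈ κ.I L J ⊔ L.m ^ (e + 1) := by
  have hfO : f ∈ L.O :=
    Loc.mem_O_of_le (sup_le h.I_le_one (Loc.pow_le_one Loc.m_le_one e)) hf
  obtain ⟨a, ha, b, hb, hab⟩ := Submodule.mem_sup.1 hf
  obtain ⟨Q, hQ, hb'⟩ := h.LChart_leading e hb
  have h1 : f - MvPolynomial.aeval κ.x Q ∈ κ.I L J ⊔ L.m ^ (e + 1) := by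
    rw [← hab, add_sub_assoc]
    exact Submodule.add_mem_sup ha hb'
  have h2 : ∀ α : Fin n →₀ ℕ, α.degree = e → (∀ j ∈ J, α j = 0) → MvPolynomial.coeff α Q = 0 := by
    refine h.LChart_coeff_of_ders e Q fun l hl hle => ?_
    have h3 := (h.ders_mem_m hl (show l.length < e + 1 by omega) h1).2
    rw [ders_sub, Loc.ev_sub (Loc.ders_mem (h.ders_log l) hfO)
      (Loc.ders_mem (h.ders_log l) (h.LChart_aeval_mem Q)), h0 l hl hle] at h3
    simpa using h3
  have h3 : MvPolynomial.aeval κ.x Q ∈ κ.I L J := by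
    rw [Q.as_sum, map_sum]
    refine Submodule.sum_mem _ fun α hα => ?_
    have hc : MvPolynomial.coeff α Q ≠ 0 := MvPolynomial.mem_support_iff.1 hα
    have hd : α.degree = e := by
      by_contra hd
      exact hc (hQ.coeff_eq_zero hd)
    obtain ⟨j, hj, hj0⟩ : ∃ j ∈ J, α j ≠ 0 := by
      by_contra hcon
      push Not at hcon
      exact hc (h2 α hd hcon)
    have hsplit : α = (α - Finsupp.single j 1) + Finsupp.single j 1 := by
      rw [tsub_add_cancel_of_le]
      rw [Finsupp.single_le_iff]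
      exact Nat.one_le_iff_ne_zero.2 hj0
    have : MvPolynomial.monomial α (MvPolynomial.coeff α Q)
        = MvPolynomial.monomial (α - Finsupp.single j 1) (MvPolynomial.coeff α Q)
          * MvPolynomial.X j := by
      rw [MvPolynomial.X, MvPolynomial.monomial_mul, mul_one, ← hsplit]
    rw [this, map_mul, MvPolynomial.aeval_X]
    exact Loc.mul_mem_left (h.LChart_aeval_mem _) (h.x_mem_I.2 hj)
  have := add_mem h1 (Submodule.mem_sup_left h3)
  rwa [sub_add_cancel] at this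
/-- finite order modulo `I J` is witnessed by a unit derivative -/
theorem exists_ders_unit (h : IsCrd L κ) {e : ℕ} (hf : f ∈ L.O) (hn : f ∉ κ.I L J ⊔ L.m ^ e) :
    ∃ l : List (Fin n), (∀ j ∈ l, j ∉ J) ∧ l.length < e ∧ L.ev (ders (l.map κ.D) f) ≠ 0 := by
  by_contra hcon
  push Not at hcon
  apply hn
  have : ∀ e' ≤ e, f ∈ κ.I L J ⊔ L.m ^ e' := by
    intro e' he'
    induction e' with
    | zero =>
      refine Submodule.mem_sup_right ?_
      rw [pow_zero, Loc.mem_one]
      exact hf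
    | succ e' ih =>
      exact h.mem_sup_of_ders (ih (by omega)) fun l hl hle => hcon l hl (by omega)
  exact this e le_rfl
theorem notMem_of_ders_unit (h : IsCrd L κ) {e : ℕ} {l : List (Fin n)} (hl : ∀ j ∈ l, j ∉ J)
    (he : l.length < e) (h0 : L.ev (ders (l.map κ.D) f) ≠ 0) : f ∉ κ.I L J ⊔ L.m ^ e :=
  fun hf => h0 (h.ders_mem_m hl he hf).2

end IsCrd

theorem Chart.I_mono (h : J ⊆ J') : κ.I L J ≤ κ.I L J' :=
  Loc.span_mono (Set.image_mono (Finset.coe_subset.2 h))
theorem Chart.I_empty : κ.I L ∅ = ⊥ := by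
  rw [Chart.I, Finset.coe_empty, Set.image_empty, Loc.span_empty]
theorem Chart.I_union : κ.I L (J ∪ J') = κ.I L J ⊔ κ.I L J' := by
  rw [Chart.I, Finset.coe_union, Set.image_union, Loc.span_union]
  rfl
theorem Chart.I_singleton (j : Fin n) : κ.I L {j} = L.span {κ.x j} := by
  rw [Chart.I, Finset.coe_singleton, Set.image_singleton]
theorem Chart.I_insert (j : Fin n) : κ.I L (insert j J) = L.span {κ.x j} ⊔ κ.I L J := by
  rw [Finset.insert_eq, Chart.I_union, Chart.I_singleton]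

/-- linear independence modulo the square of the maximal ideal -/
def Indep (L : Loc K) {ι : Type} [Fintype ι] (x : ι → K) : Prop :=
  ∀ c : ι → ℝ, ∑ i, c i • x i ∈ L.m ^ 2 → c = 0

/-- elements with dual derivations are independent -/
theorem LChart_indep_of_dual {ι : Type} [Fintype ι] [DecidableEq ι] (x : ι → K) (D : ι → Der K)
    (hp : ∀ i, ∀ f ∈ L.O, D i f ∈ L.O) (hd : ∀ i j, D i (x j) = if i = j then 1 else 0) :
    Indep L x := by
  intro c hc
  funext j
  have h1 := Loc.der_pow_succ (k := 1) (Loc.mem_log_empty.2 (hp j)) Loc.m_le_one hc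
  rw [pow_one, map_sum] at h1
  simp only [Derivation.map_smul, hd, smul_ite, smul_zero, Finset.sum_ite_eq, Finset.mem_univ,
    if_true] at h1
  have h2 := h1.2
  rw [Loc.ev_smul (one_mem _), Loc.ev_one, mul_one] at h2
  exact h2

theorem IsCrd.indep (h : IsCrd L κ) : Indep L κ.x := LChart_indep_of_dual κ.x κ.D h.pres h.dual

theorem IsCrd.LChart_ev_D_sum (h : IsCrd L κ) {ι : Type} [Fintype ι] (x : ι → K)
    (hx : ∀ a, x a ∈ L.O) (c : ι → ℝ) (i : Fin n) :
    L.ev (κ.D i (∑ a, c a • x a)) = ∑ a, c a * L.ev (κ.D i (x a)) := by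
  rw [map_sum, Loc.ev_sum _ _ fun a _ => h.pres i _ (L.O.smul_mem (hx a) _)]
  refine Finset.sum_congr rfl fun a _ => ?_
  rw [Derivation.map_smul, Loc.ev_smul (h.pres i _ (hx a))]

/-- independent elements of a coordinate ideal have independent differentials -/
theorem IsCrd.LChart_linInd (h : IsCrd L κ) {ι : Type} [Fintype ι] (x : ι → K)
    (hx : ∀ a, x a ∈ κ.I L J) (hi : Indep L x) :
    LinearIndependent ℝ (fun (a : ι) (i : J) => L.ev (κ.D i (x a))) := by
  rw [Fintype.linearIndependent_iff]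
  intro c hc
  have hg : ∑ a, c a • x a ∈ κ.I L J := Submodule.sum_mem _ fun a _ => Loc.smul_mem _ (hx a)
  have h1 := h.LChart_sub_linear_I hg
  have h2 : ∑ i ∈ J, L.ev (κ.D i (∑ a, c a • x a)) • κ.x i = 0 := by
    refine Finset.sum_eq_zero fun i hi => ?_
    rw [h.LChart_ev_D_sum x (fun a => (h.I_le_m (hx a)).1)]
    have := congrFun hc ⟨i, hi⟩
    simp only [Finset.sum_apply, Pi.smul_apply, smul_eq_mul, Pi.zero_apply] at this
    rw [this, zero_smul]
  rw [h2, sub_zero] at h1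
  have h3 : ∑ a, c a • x a ∈ L.m ^ 2 := by
    rw [pow_two]
    exact mul_le_mul_right (a := L.m) h.I_le_m h1
  exact fun a => congrFun (hi c h3) a

theorem IsCrd.LChart_card_le (h : IsCrd L κ) {ι : Type} [Fintype ι] (x : ι → K)
    (hx : ∀ a, x a ∈ κ.I L J) (hi : Indep L x) : Fintype.card ι ≤ J.card := by
  have := (h.LChart_linInd x hx hi).fintype_card_le_finrank
  rwa [Module.finrank_fintype_fun_eq_card, Fintype.card_coe] at this

theorem IsCrd.LChart_span_eq (h : IsCrd L κ) {ι : Type} [Fintype ι] (x : ι → K)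
    (hx : ∀ a, x a ∈ κ.I L J) (hi : Indep L x) (hc : J.card ≤ Fintype.card ι) :
    L.span (Set.range x) = κ.I L J := by
  classical
  refine le_antisymm (Loc.span_le.2 (by rintro _ ⟨a, rfl⟩; exact hx a)) ?_
  refine Loc.nakayama h.I_le_one (Loc.span_le.2 ?_)
  rintro _ ⟨j, hj, rfl⟩
  have htop := (h.LChart_linInd x hx hi).span_eq_top_of_card_eq_finrank' (by
    rw [Module.finrank_fintype_fun_eq_card, Fintype.card_coe]
    exact le_antisymm (h.LChart_card_le x hx hi) hc)
  obtain ⟨c, hc'⟩ := (Submodule.mem_span_range_iff_exists_fun ℝ).1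
    (htop ▸ Submodule.mem_top (x := (Pi.single (⟨j, hj⟩ : J) (1 : ℝ) : J → ℝ)))
  have hg : ∑ a, c a • x a ∈ κ.I L J := Submodule.sum_mem _ fun a _ => Loc.smul_mem _ (hx a)
  have h1 := h.LChart_sub_linear_I hg
  have h2 : ∑ i ∈ J, L.ev (κ.D i (∑ a, c a • x a)) • κ.x i = κ.x j := by
    rw [Finset.sum_eq_single_of_mem j hj]
    · rw [h.LChart_ev_D_sum x (fun a => (h.I_le_m (hx a)).1)]
      have := congrFun hc' ⟨j, hj⟩
      simp only [Finset.sum_apply, Pi.smul_apply, smul_eq_mul, Pi.single_eq_same] at this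
      rw [this, one_smul]
    · intro i hi hij
      rw [h.LChart_ev_D_sum x (fun a => (h.I_le_m (hx a)).1)]
      have := congrFun hc' ⟨i, hi⟩
      rw [Pi.single_eq_of_ne (fun he => hij (congrArg Subtype.val he))] at this
      simp only [Finset.sum_apply, Pi.smul_apply, smul_eq_mul] at this
      rw [this, zero_smul]
  rw [h2] at h1
  have h3 : ∑ a, c a • x a ∈ L.span (Set.range x) :=
    Submodule.sum_mem _ fun a _ => Loc.smul_mem _ (Loc.subset_span ⟨a, rfl⟩)
  have := sub_mem (Submodule.mem_sup_left h3) (Submodule.mem_sup_right h1)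
  rwa [sub_sub_cancel] at this

private theorem IsCrd.of_dual' (h : IsCrd L κ) (hx : ∀ i, κ'.x i ∈ L.m)
    (hp : ∀ i, ∀ f ∈ L.O, κ'.D i f ∈ L.O)
    (hd : ∀ i j, κ'.D i (κ'.x j) = if i = j then 1 else 0) : IsCrd L κ' := by
  refine ⟨?_, hp, hd⟩
  rw [← h.I_univ]
  exact h.LChart_span_eq κ'.x (fun a => h.I_univ.symm ▸ hx a)
    (LChart_indep_of_dual κ'.x κ'.D hp hd) (by simp)

/-- evaluation at the closed point as a ring homomorphism -/
def LChart_evHom (L : Loc K) : L.O →+* ℝ where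
  toFun f := L.ev f
  map_one' := Loc.ev_one
  map_mul' f g := L.ev_mul f f.2 g g.2
  map_zero' := Loc.ev_zero
  map_add' f g := L.ev_add f f.2 g g.2

/-- `n` elements of the maximal ideal with independent differentials are coordinates -/
theorem IsCrd.exists_chart (h : IsCrd L κ) (x : Fin n → K) (hx : ∀ i, x i ∈ L.m)
    (hi : Indep L x) : ∃ κ' : Chart K n, IsCrd L κ' ∧ κ'.x = x := by
  let A : Matrix (Fin n) (Fin n) L.O := fun i j => ⟨κ.D i (x j), h.pres i _ (hx j).1⟩
  have hdet : (LChart_evHom L) A.det ≠ 0 := by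
    rw [RingHom.map_det]
    intro h0
    obtain ⟨c, hc0, hc⟩ := Matrix.exists_mulVec_eq_zero_iff.2 h0
    apply hc0
    have hl := h.LChart_linInd (J := Finset.univ) x (fun a => h.I_univ.symm ▸ hx a) hi
    rw [Fintype.linearIndependent_iff] at hl
    funext a
    refine hl c ?_ a
    funext i
    have := congrFun hc i
    simp only [Matrix.mulVec, dotProduct, RingHom.mapMatrix_apply, Matrix.map_apply,
      Pi.zero_apply] at this
    simp only [Finset.sum_apply, Pi.smul_apply, smul_eq_mul, Pi.zero_apply]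
    rw [← this]
    exact Finset.sum_congr rfl fun a _ => mul_comm _ _
  have hu : IsUnit A.det := by
    have hne : ((A.det : L.O) : K) ≠ 0 := Loc.ne_zero_of_ev hdet
    refine IsUnit.of_mul_eq_one ⟨((A.det : L.O) : K)⁻¹, L.inv_mem _ A.det.2 hdet⟩ ?_
    exact Subtype.ext (mul_inv_cancel₀ hne)
  have hBA : A⁻¹ * A = 1 := Matrix.nonsing_inv_mul A hu
  let κ' : Chart K n := ⟨x, fun i => ∑ k, ((A⁻¹ i k : L.O) : K) • κ.D k⟩
  refine ⟨κ', h.of_dual' hx (fun i => Loc.mem_log_empty.1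
    (Loc.log_sum _ _ fun k _ => Loc.log_smul (A⁻¹ i k).2 (h.D_log k))) ?_, rfl⟩
  intro i j
  have h1 := congrArg (fun M : Matrix (Fin n) (Fin n) L.O => ((M i j : L.O) : K)) hBA
  simp only [Matrix.mul_apply, Matrix.one_apply] at h1
  change (∑ k, ((A⁻¹ i k : L.O) : K) • κ.D k) (x j) = _
  rw [LChart_sum_apply]
  simp only [Derivation.smul_apply, smul_eq_mul]
  rw [AddSubmonoidClass.coe_finsetSum] at h1
  refine Eq.trans ?_ (h1.trans ?_)
  · rfl
  · split_ifs <;> rfl

/-- elements with dual derivations are coordinates -/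
theorem IsCrd.of_dual (h : IsCrd L κ) (hx : ∀ i, κ'.x i ∈ L.m)
    (hp : ∀ i, ∀ f ∈ L.O, κ'.D i f ∈ L.O)
    (hd : ∀ i j, κ'.D i (κ'.x j) = if i = j then 1 else 0) : IsCrd L κ' := h.of_dual' hx hp hd

theorem IsCrd.card_le (h : IsCrd L κ) {ι : Type} [Fintype ι] (x : ι → K) (hx : ∀ i, x i ∈ L.m)
    (hi : Indep L x) : Fintype.card ι ≤ n := by
  have := h.LChart_card_le (J := Finset.univ) x (fun a => h.I_univ.symm ▸ hx a) hi
  simpa using this

theorem IsCrd.LChart_indep_sub (h : IsCrd L κ) (J : Finset (Fin n)) :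
    Indep L (fun j : J => κ.x j) :=
  LChart_indep_of_dual _ (fun j : J => κ.D j) (fun j => h.pres j) fun i j => by
    rw [h.dual]
    simp only [Subtype.ext_iff]

theorem IsCrd.card_le_of_le (h : IsCrd L κ) (h' : IsCrd L κ') (hle : κ.I L J ≤ κ'.I L J') :
    J.card ≤ J'.card := by
  have := h'.LChart_card_le (J := J') (fun j : J => κ.x j) (fun j => hle (h.x_mem_I.2 j.2))
    (h.LChart_indep_sub J)
  rwa [Fintype.card_coe] at this

theorem IsCrd.I_eq_of_le (h : IsCrd L κ) (h' : IsCrd L κ') (hle : κ.I L J ≤ κ'.I L J')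
    (hc : J'.card ≤ J.card) : κ.I L J = κ'.I L J' := by
  rw [← h'.LChart_span_eq (J := J') (fun j : J => κ.x j) (fun j => hle (h.x_mem_I.2 j.2))
    (h.LChart_indep_sub J) (by rwa [Fintype.card_coe]), Chart.I]
  congr 1
  ext y
  constructor
  · rintro ⟨j, hj, rfl⟩
    exact ⟨⟨j, hj⟩, rfl⟩
  · rintro ⟨j, rfl⟩
    exact ⟨j, j.2, rfl⟩

namespace Adp

theorem span_le_one (h : Adp L κ Y σ) (i : ℕ) : L.span (Y i) ≤ 1 := by
  rw [h.span]
  exact Loc.span_le_one fun y hy => by rw [hy]; exact h.crd.y_mem _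
theorem mem (h : Adp L κ Y σ) (i : ℕ) : ∀ y ∈ Y i, y ∈ L.O :=
  fun _ hy => Loc.mem_O_of_le (h.span_le_one i) (Loc.subset_span hy)
theorem span_eq_one (h : Adp L κ Y σ) (i : ℕ) : L.span (Y i) = 1 ↔ σ i = none := by
  rw [h.span]
  cases σ i with
  | none => exact ⟨fun _ => rfl, fun _ => Loc.span_one⟩
  | some j =>
    refine ⟨fun h1 => ?_, fun h1 => absurd h1 (Option.some_ne_none j)⟩
    exact absurd (h.crd.x_mem_m j).2 (Loc.span_singleton_eq_one.1 h1).2
theorem span_some (h : Adp L κ Y σ) {i : ℕ} {j : Fin n} (hj : σ i = some j) :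
    L.span (Y i) = κ.I L {j} := by
  rw [h.span, hj, Chart.I_singleton]
  rfl
theorem mem_lg (h : Adp L κ Y σ) :
    δ ∈ L.lg Y ↔ δ ∈ L.log ∅ ∧ ∀ i j, σ i = some j → δ (κ.x j) ∈ L.span {κ.x j} := by
  constructor
  · intro hδ
    refine ⟨Loc.log_sub_empty hδ, fun i j hj => ?_⟩
    have := hδ.2 (Y i) ⟨i, rfl⟩
    rw [h.span_some hj, Chart.I_singleton] at this
    exact this _ (Loc.subset_span rfl)
  · rintro ⟨h1, h2⟩
    refine ⟨h1.1, ?_⟩
    rintro _ ⟨i, rfl⟩
    rw [h.span]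
    refine (Loc.mem_log_of_gen (Y := {κ.y (σ i)}) h1 ?_ ?_).2 _ rfl
    · intro y hy
      rw [hy]
      exact h.crd.y_mem _
    · intro y hy
      rw [hy]
      cases hσ : σ i with
      | none =>
        change δ 1 ∈ _
        rw [Derivation.map_one_eq_zero]
        exact zero_mem _
      | some j => exact h2 i j hσ
theorem D_lg (h : Adp L κ Y σ) {j : Fin n} (hj : ∀ i, σ i ≠ some j) : κ.D j ∈ L.lg Y := by
  refine h.mem_lg.2 ⟨h.crd.D_log j, fun i j' hj' => ?_⟩
  rw [h.crd.dual, if_neg (by rintro rfl; exact hj i hj')]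
  exact zero_mem _
theorem congr {Y' : ℕ → Set K} (h : Adp L κ Y σ) (hY : ∀ i, L.span (Y' i) = L.span (Y i)) :
    Adp L κ Y' σ := ⟨h.crd, fun i => (hY i).trans (h.span i), h.inj⟩
theorem gen (h : Adp L κ Y σ) (k : ℕ) : Gen L Y k (fun i => κ.y (σ i)) :=
  fun i _ => (h.span i).symm
/-- at most `n` boundary components pass through the point -/
theorem card_le (h : Adp L κ Y σ) (I : Finset ℕ) (hI : ∀ i ∈ I, L.span (Y i) ≠ 1) :
    I.card ≤ n := by
  have h1 : I.card ≤ ((Finset.univ : Finset (Fin n)).map ⟨some, Option.some_injective _⟩).card := by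
    refine Finset.card_le_card_of_injOn σ ?_ ?_
    · intro i hi
      cases hσ : σ i with
      | none => exact absurd ((h.span_eq_one i).2 hσ) (hI i hi)
      | some j => simp
    · intro i hi i' _ hii'
      cases hσ : σ i with
      | none => exact absurd ((h.span_eq_one i).2 hσ) (hI i hi)
      | some j => exact h.inj i i' j hσ (hii' ▸ hσ)
  simpa using h1
/-- intersections of boundary components with a coordinate subspace are coordinate subspaces -/
theorem span_union (h : Adp L κ Y σ) (hZ : L.span Z = κ.I L J) (I : Finset ℕ)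
    (hI : ∀ i ∈ I, L.span (Y i) ≠ 1) :
    L.span (Z ∪ ⋃ i ∈ I, Y i) = κ.I L (J ∪ Finset.univ.filter fun j => ∃ i ∈ I, σ i = some j) := by
  rw [Loc.span_union, hZ, Chart.I_union]
  congr 1
  refine le_antisymm (Loc.span_le.2 fun y hy => ?_) (Loc.span_le.2 ?_)
  · obtain ⟨i, hi, hy⟩ := Set.mem_iUnion₂.1 hy
    cases hσ : σ i with
    | none => exact absurd ((h.span_eq_one i).2 hσ) (hI i hi)
    | some j =>
      have := Loc.subset_span (L := L) hy
      rw [h.span_some hσ] at this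
      refine Chart.I_mono ?_ this
      intro j' hj'
      rw [Finset.mem_singleton.1 hj']
      exact Finset.mem_filter.2 ⟨Finset.mem_univ _, i, hi, hσ⟩
  · rintro _ ⟨j, hj, rfl⟩
    obtain ⟨i, hi, hσ⟩ := (Finset.mem_filter.1 hj).2
    have h1 : κ.x j ∈ L.span (Y i) := by
      rw [h.span_some hσ]
      exact h.crd.x_mem_I.2 (Finset.mem_singleton_self j)
    exact Loc.span_mono (Set.subset_biUnion_of_mem (u := Y) (show i ∈ (I : Set ℕ) from hi)) h1
/-- dropping boundary components -/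
theorem drop {Y' : ℕ → Set K} (h : Adp L κ Y σ)
    (hY : ∀ i, L.span (Y' i) = L.span (Y i) ∨ L.span (Y' i) = 1) :
    ∃ σ', Adp L κ Y' σ' ∧ ∀ i j, σ' i = some j → σ i = some j := by
  classical
  have key : ∀ i j, (if L.span (Y' i) = 1 then none else σ i) = some j → σ i = some j := by
    intro i j hj
    split_ifs at hj
    exact hj
  refine ⟨fun i => if L.span (Y' i) = 1 then none else σ i, ⟨h.crd, fun i => ?_, ?_⟩, key⟩
  · split_ifs with h1
    · rw [h1]
      exact Loc.span_one.symm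
    · rw [(hY i).resolve_right h1, h.span]
  · intro i i' j hi hi'
    exact h.inj i i' j (key i j hi) (key i' j hi')

end Adp

theorem Tr.mem_m (h : Tr L κ Y σ Z J) : ∀ z ∈ Z, z ∈ L.m :=
  fun _ hz => h.adp.crd.I_le_m (h.span ▸ Loc.subset_span hz)
theorem Tr.mem (h : Tr L κ Y σ Z J) : ∀ z ∈ Z, z ∈ L.O := fun z hz => (h.mem_m z hz).1
theorem Tr.D_lg (h : Tr L κ Y σ Z J) {j : Fin n} (hj : j ∈ J) : κ.D j ∈ L.lg Y :=
  h.adp.D_lg fun i hi => h.disj i j hi hj
theorem TrAt.le {c : ℕ} (h : TrAt L n c Y Z) : c ≤ n := by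
  obtain ⟨κ, σ, J, -, rfl⟩ := h
  simpa using Finset.card_le_univ J
theorem TrAt.sncAt {c : ℕ} (h : TrAt L n c Y Z) : SncAt L n Y Z := by
  obtain ⟨κ, σ, J, h, -⟩ := h
  exact ⟨κ, σ, J, h.adp, h.span⟩
theorem TrAt.congr {c : ℕ} {Y' : ℕ → Set K} {Z' : Set K} (h : TrAt L n c Y Z)
    (hY : ∀ i, L.span (Y' i) = L.span (Y i) ∨ L.span (Y' i) = 1) (hZ : L.span Z' = L.span Z) :
    TrAt L n c Y' Z' := by
  obtain ⟨κ, σ, J, h, hc⟩ := h
  obtain ⟨σ', h1, h2⟩ := h.adp.drop hY
  exact ⟨κ, σ', J, ⟨h1, hZ.trans h.span, fun i j hj => h.disj i j (h2 i j hj)⟩, hc⟩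
theorem SncAt.congr {Y' : ℕ → Set K} {Z' : Set K} (h : SncAt L n Y Z)
    (hY : ∀ i, L.span (Y' i) = L.span (Y i) ∨ L.span (Y' i) = 1) (hZ : L.span Z' = L.span Z) :
    SncAt L n Y' Z' := by
  obtain ⟨κ, σ, J, h, hs⟩ := h
  obtain ⟨σ', h1, -⟩ := h.drop hY
  exact ⟨κ, σ', J, h1, hZ.trans hs⟩
theorem SncAt.smAt (h : SncAt L n Y Z) : SmAt L n Z := by
  obtain ⟨κ, σ, J, h, hs⟩ := h
  exact ⟨κ, J, h.crd, hs⟩
theorem SncAt.adpAt (h : SncAt L n Y Z) : AdpAt L n Y := by
  obtain ⟨κ, σ, J, h, -⟩ := h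
  exact ⟨κ, σ, h⟩
theorem AdpAt.congr {Y' : ℕ → Set K} (h : AdpAt L n Y)
    (hY : ∀ i, L.span (Y' i) = L.span (Y i) ∨ L.span (Y' i) = 1) : AdpAt L n Y' := by
  obtain ⟨κ, σ, h⟩ := h
  obtain ⟨σ', h1, -⟩ := h.drop hY
  exact ⟨κ, σ', h1⟩

end Pool.Agent.MP_696f7f_ag.H96
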