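import Pool.Agent.MP_696f7f_ag.H96.LSV

/-! Gauss extensions of semivaluations and their consequences. -/

namespace Pool.Agent.MP_696f7f_ag.H96

open scoped ENNReal

variable {K : Type} [Field K] [Algebra ℝ K] {n : ℕ}
variable {L L' : Loc K} {v : K → ℝ≥0∞} {𝒟 𝒟' : Set (Der K)} {S S' : Set (K × ℕ)}
  {Z : Set K} {s f : K} {δ : Der K} {T : ℝ≥0∞}

theorem LGauss_iter_add (δ : Der K) (k : ℕ) (f g : K) :
    δ^[k] (f + g) = δ^[k] f + δ^[k] g := by
  induction k with
  | zero => rfl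
  | succ k ih => simp only [Function.iterate_succ_apply', ih, map_add]

theorem LGauss_iter_zero (δ : Der K) (k : ℕ) : δ^[k] (0 : K) = 0 :=
  Function.iterate_fixed (map_zero δ) k

theorem LGauss_iter_mem (hδ : δ ∈ L.log ∅) (k : ℕ) (hf : f ∈ L.O) : δ^[k] f ∈ L.O := by
  induction k with
  | zero => exact hf
  | succ k ih =>
    rw [Function.iterate_succ_apply']
    exact hδ.1 _ ih

theorem LGauss_iter_mul (δ : Der K) (k : ℕ) (f g : K) :
    δ^[k] (f * g) = ∑ ij ∈ Finset.HasAntidiagonal.antidiagonal k,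
      (k.choose ij.1 : K) * (δ^[ij.1] f * δ^[ij.2] g) := by
  induction k with
  | zero => simp
  | succ k ih =>
    rw [Finset.sum_antidiagonal_choose_succ_mul (fun i j => δ^[i] f * δ^[j] g),
      Function.iterate_succ_apply', ih, map_sum, ← Finset.sum_add_distrib]
    refine Finset.sum_congr rfl fun ij hij => ?_
    rw [Nat.choose_symm_of_eq_add (Finset.HasAntidiagonal.mem_antidiagonal.mp hij).symm]
    simp only [Function.iterate_succ_apply', Derivation.leibniz, Derivation.map_natCast,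
      smul_eq_mul]
    ring

theorem LGauss_exists_min (a : ℕ → ℝ≥0∞) (hT : T ≠ 0) (h : ∀ k : ℕ, k * T ≤ a k)
    (hA : ⨅ k, a k ≠ ⊤) : ∃ i, a i = ⨅ k, a k ∧ ∀ k < i, ⨅ k, a k < a k := by
  classical
  have h1 : ∃ i, a i = ⨅ k, a k := by
    by_contra hn
    push Not at hn
    have h2 : ∀ i, ⨅ k, a k < a i := fun i => lt_of_le_of_ne (iInf_le _ i) (hn i).symm
    obtain ⟨N, hN⟩ := ENNReal.exists_nat_mul_gt hT hA
    have h3 : ⨅ k, a k < min (N * T) ((Finset.range N).inf a) :=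
      lt_min hN ((Finset.lt_inf_iff (lt_top_iff_ne_top.mpr hA)).mpr fun i _ => h2 i)
    refine h3.not_ge (le_iInf fun k => ?_)
    rcases lt_or_ge k N with hk | hk
    · exact (min_le_right _ _).trans (Finset.inf_le (Finset.mem_range.mpr hk))
    · refine (min_le_left _ _).trans (le_trans ?_ (h k))
      gcongr
  exact ⟨Nat.find h1, Nat.find_spec h1,
    fun k hk => lt_of_le_of_ne (iInf_le _ k) (Ne.symm (Nat.find_min h1 hk))⟩

theorem gauss_isSV (hv : IsSV L v) (hδ : δ ∈ L.log ∅) (hT : T ≠ 0) (hT' : T ≠ ⊤) :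
    IsSV L (gauss v δ T) := by
  have _ := hT'
  have hterm : ∀ f ∈ L.O, ∀ g ∈ L.O, ∀ k, ∀ ij ∈ Finset.HasAntidiagonal.antidiagonal k,
      (k.choose ij.1 : K) * (δ^[ij.1] f * δ^[ij.2] g) ∈ L.O ∧
      v ((k.choose ij.1 : K) * (δ^[ij.1] f * δ^[ij.2] g)) + k * T =
        (v (δ^[ij.1] f) + ij.1 * T) + (v (δ^[ij.2] g) + ij.2 * T) := by
    intro f hf g hg k ij hij
    have h1 := LGauss_iter_mem hδ ij.1 hf
    have h2 := LGauss_iter_mem hδ ij.2 hg
    have h3 := Finset.HasAntidiagonal.mem_antidiagonal.mp hij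
    refine ⟨mul_mem (natCast_mem _ _) (mul_mem h1 h2), ?_⟩
    rw [hv.natCast_mul (mul_mem h1 h2) (Nat.choose_pos (by omega)).ne', hv.mul _ h1 _ h2, ← h3]
    push_cast
    ring
  refine ⟨fun f hf g hg => le_antisymm ?_ (le_iInf fun k => ?_), fun f hf g hg =>
    le_iInf fun k => ?_, ?_, ?_⟩
  · by_cases hA : gauss v δ T f = ⊤
    · simp [hA]
    by_cases hB : gauss v δ T g = ⊤
    · simp [hB]
    obtain ⟨i, hi, hi'⟩ := LGauss_exists_min (fun k => v (δ^[k] f) + k * T) hT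
      (fun _ => le_add_self) hA
    obtain ⟨j, hj, hj'⟩ := LGauss_exists_min (fun k => v (δ^[k] g) + k * T) hT
      (fun _ => le_add_self) hB
    have hm : (i, j) ∈ Finset.HasAntidiagonal.antidiagonal (i + j) := Finset.HasAntidiagonal.mem_antidiagonal.mpr rfl
    obtain ⟨h1, h2⟩ := hterm f hf g hg _ _ hm
    simp only at h1 h2 hi hj hi' hj'
    rw [hi, hj] at h2
    refine (iInf_le _ (i + j)).trans (le_of_eq ?_)
    rw [LGauss_iter_mul, ← Finset.add_sum_erase _ _ hm, hv.add_eq_of_lt h1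
      (sum_mem fun ij hij => (hterm f hf g hg _ _ (Finset.mem_of_mem_erase hij)).1), h2]
    · rfl
    have h3 : v (((i + j).choose i : K) * (δ^[i] f * δ^[j] g)) < ⊤ := by
      refine lt_of_le_of_lt le_self_add (h2.trans_lt ?_)
      exact ENNReal.add_lt_top.mpr ⟨lt_top_iff_ne_top.mpr hA, lt_top_iff_ne_top.mpr hB⟩
    refine lt_of_lt_of_le ((Finset.lt_inf_iff h3).mpr fun ij hij => ?_) (hv.sum _ _
      (fun ij hij => (hterm f hf g hg _ _ (Finset.mem_of_mem_erase hij)).1)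
      fun ij hij => Finset.inf_le (f := fun ij : ℕ × ℕ =>
        v (((i + j).choose ij.1 : K) * (δ^[ij.1] f * δ^[ij.2] g))) hij)
    obtain ⟨h4, h5⟩ := Finset.mem_erase.mp hij
    apply lt_of_add_lt_add_right (a := ((i + j : ℕ) : ℝ≥0∞) * T)
    rw [h2, (hterm f hf g hg _ _ h5).2]
    have h6 := Finset.HasAntidiagonal.mem_antidiagonal.mp h5
    rcases lt_or_ge ij.1 i with h7 | h7
    · exact ENNReal.add_lt_add_of_lt_of_le hB (hi' _ h7) (iInf_le _ ij.2)
    · have h8 : ij.2 < j := by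
        by_contra h9
        exact h4 (Prod.ext (by simp only; omega) (by simp only; omega))
      exact ENNReal.add_lt_add_of_le_of_lt hA (iInf_le _ ij.1) (hj' _ h8)
  · rw [← tsub_le_iff_right, LGauss_iter_mul]
    refine hv.sum _ _ (fun ij hij => (hterm f hf g hg k ij hij).1) fun ij hij => ?_
    rw [tsub_le_iff_right, (hterm f hf g hg k ij hij).2]
    exact add_le_add (iInf_le _ ij.1) (iInf_le _ ij.2)
  · rw [LGauss_iter_add]
    refine le_trans ?_ (add_le_add_left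
      (hv.add _ (LGauss_iter_mem hδ k hf) _ (LGauss_iter_mem hδ k hg)) _)
    rw [← min_add_add_right]
    exact min_le_min (iInf_le _ k) (iInf_le _ k)
  · simp [gauss, hv.zero]
  · refine le_antisymm ((iInf_le _ 0).trans ?_) zero_le
    simp [hv.one]

theorem gauss_le : gauss v δ T f ≤ v f := by
  refine (iInf_le _ 0).trans ?_
  simp

theorem gauss_le_der : gauss v δ T f ≤ v (δ f) + T := by
  refine (iInf_le _ 1).trans ?_
  simp

theorem min_le_gauss : min (v f) T ≤ gauss v δ T f := by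
  refine le_iInf fun k => ?_
  rcases k with _ | k
  · simp
  · refine (min_le_right _ _).trans (le_add_left ?_)
    rw [Nat.cast_succ, add_mul, one_mul]
    exact le_add_self

theorem gauss_of_eq_zero (hv : IsSV L v) (h : δ f = 0) : gauss v δ T f = v f := by
  refine le_antisymm gauss_le (le_iInf fun k => ?_)
  rcases k with _ | k
  · simp
  · rw [Function.iterate_succ_apply, h, LGauss_iter_zero, hv.zero]
    simp

theorem gauss_top (hv : IsSV L v) (hδ : δ ∈ L.log {Z}) (hZ : ∀ z ∈ Z, z ∈ L.O)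
    (h : ∀ z ∈ Z, v z = ⊤) : ∀ z ∈ Z, gauss v δ T z = ⊤ := by
  intro z hz
  refine top_unique (le_iInf fun k => le_add_right ?_)
  refine hv.span hZ (fun y hy => (h y hy).ge) ?_
  induction k with
  | zero => exact Loc.subset_span hz
  | succ k ih =>
    rw [Function.iterate_succ_apply']
    exact hδ.2 Z rfl _ ih

theorem gauss_sat (h : Sat 𝒟 S v) (hδ : δ ∈ 𝒟) (hT : 1 ≤ T) : Sat 𝒟 S (gauss v δ T) := by
  intro p hp l hl
  rw [gauss, ENNReal.iInf_add]
  refine le_iInf fun k => ?_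
  have := h p hp (List.replicate k δ ++ l) fun ε hε => by
    rcases List.mem_append.mp hε with h1 | h1
    · rwa [List.eq_of_mem_replicate h1]
    · exact hl ε h1
  rw [ders_append, ders_replicate, List.length_append, List.length_replicate, Nat.cast_add,
    ← add_assoc] at this
  refine this.trans ?_
  gcongr
  exact le_mul_of_one_le_right' hT

theorem gauss_sat_big {W : ℕ} (h : Sat 𝒟 S v) (hW : ∀ p ∈ S, p.2 ≤ W) (hT : (W : ℝ≥0∞) ≤ T) :
    Sat 𝒟 S (gauss v δ T) := by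
  intro p hp l hl
  rw [gauss, ENNReal.iInf_add]
  refine le_iInf fun k => ?_
  rcases k with _ | k
  · simpa using h p hp l hl
  · refine le_add_right (le_add_left (le_trans (Nat.cast_le.mpr (hW p hp)) (hT.trans ?_)))
    rw [Nat.cast_succ, add_mul, one_mul]
    exact le_add_self


/-- to prove `Sat` on a class of semivaluations closed under Gauss extensions it is enough to
bound the values of the elements themselves -/
theorem sat_of_zero (P : (K → ℝ≥0∞) → Prop) (hd : 𝒟 ⊆ L.log ∅)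
    (hP : ∀ v δ, IsSV L v → P v → δ ∈ 𝒟 → P (gauss v δ 1))
    (h0 : ∀ v, IsSV L v → P v → ∀ p ∈ S', (p.2 : ℝ≥0∞) ≤ v p.1) (hv : IsSV L v) (hp : P v) :
    Sat 𝒟 S' v := by
  intro p hpS l hl
  induction l generalizing v with
  | nil => simpa using h0 v hv hp p hpS
  | cons δ l ih =>
    have hδ : δ ∈ 𝒟 := hl δ (by simp)
    refine (ih (gauss_isSV hv (hd hδ) one_ne_zero ENNReal.one_ne_top) (hP v δ hv hp hδ)
      fun ε hε => hl ε (by simp [hε])).trans ?_
    rw [ders_cons, List.length_cons, Nat.cast_succ, add_comm (l.length : ℝ≥0∞), ← add_assoc]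
    gcongr
    exact gauss_le_der


theorem le_of_zero (hd : 𝒟 ⊆ L.log ∅)
    (h0 : ∀ v, IsSV L v → Sat 𝒟 S v → ∀ p ∈ S', (p.2 : ℝ≥0∞) ≤ v p.1) : Le L 𝒟 S S' := by
  intro v hv hS
  exact sat_of_zero (Sat 𝒟 S) hd (fun v δ _ h hδ => gauss_sat h hδ le_rfl) h0 hv hS


/-- forgetting derivations' constraints: equivalence for fewer derivations is stronger -/
theorem Le.more (h : Le L 𝒟 S S') (hd : 𝒟 ⊆ 𝒟') (hd' : 𝒟' ⊆ L.log ∅) : Le L 𝒟' S S' := by
  exact le_of_zero hd' fun v hv hS p hp => (h v hv (hS.mono hd)).zero hp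


theorem Eqv.more (h : Eqv L 𝒟 S S') (hd : 𝒟 ⊆ 𝒟') (hd' : 𝒟' ⊆ L.log ∅) : Eqv L 𝒟' S S' := by
  exact ⟨h.1.more hd hd', h.2.more hd hd'⟩


theorem eqv_pow (hd : 𝒟 ⊆ L.log ∅) (hf : f ∈ L.O) {w p : ℕ} (hp : p ≠ 0) :
    Eqv L 𝒟 {(f, w)} {(f ^ p, w * p)} := by
  refine ⟨le_of_zero hd fun v hv hS q hq => ?_, le_of_zero hd fun v hv hS q hq => ?_⟩
  · have h1 := hS.zero (Set.mem_singleton _)
    rw [Set.mem_singleton_iff.mp hq]
    simp only at h1 ⊢
    rw [hv.pow hf, Nat.cast_mul, mul_comm]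
    gcongr
  · have h1 := hS.zero (Set.mem_singleton _)
    rw [Set.mem_singleton_iff.mp hq]
    simp only at h1 ⊢
    rw [hv.pow hf, Nat.cast_mul, mul_comm] at h1
    exact (ENNReal.mul_le_mul_iff_right (Nat.cast_ne_zero.mpr hp) (ENNReal.natCast_ne_top p)).mp h1


theorem LGauss_der_pow (δ : Der K) (s : K) (m : ℕ) : s * δ (s ^ m) = m * s ^ m * δ s := by
  induction m with
  | zero => simp
  | succ m ih =>
    rw [pow_succ, Derivation.leibniz, smul_eq_mul, smul_eq_mul]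
    push_cast
    linear_combination s * ih

theorem LGauss_span (hs0 : s ≠ 0) (hd' : 𝒟' ⊆ L'.log ∅)
    (hlift : ∀ δ ∈ 𝒟, s • δ ∈ 𝒟' ∧ δ s ∈ L'.O) (w : ℕ) (l : List (Der K))
    (hl : ∀ δ ∈ l, δ ∈ 𝒟) : s ^ l.length * ders l f / s ^ w ∈ L'.span
      {g | ∃ l' : List (Der K), (∀ δ ∈ l', δ ∈ 𝒟') ∧ l'.length ≤ l.length ∧
        g = ders l' (f / s ^ w)} := by
  induction l with
  | nil => exact Loc.subset_span ⟨[], by simp, le_rfl, by simp⟩
  | cons δ l ih =>
    have ih := ih fun ε hε => hl ε (by simp [hε])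
    obtain ⟨h1, h2⟩ := hlift δ (hl δ (by simp))
    have hmono : L'.span {g | ∃ l' : List (Der K), (∀ δ ∈ l', δ ∈ 𝒟') ∧ l'.length ≤ l.length ∧
        g = ders l' (f / s ^ w)} ≤ L'.span {g | ∃ l' : List (Der K), (∀ δ ∈ l', δ ∈ 𝒟') ∧
          l'.length ≤ (δ :: l).length ∧ g = ders l' (f / s ^ w)} :=
      Loc.span_mono fun g ⟨l', a, b, c⟩ => ⟨l', a, b.trans (by simp), c⟩
    have h3 : (s • δ) (s ^ l.length * ders l f / s ^ w) ∈ L'.span {g | ∃ l' : List (Der K),
        (∀ δ ∈ l', δ ∈ 𝒟') ∧ l'.length ≤ (δ :: l).length ∧ g = ders l' (f / s ^ w)} := by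
      refine Loc.span_induction (p := fun x => (s • δ) x ∈ _) ih ?_ ?_ ?_ ?_
      · rintro _ ⟨l', a, b, rfl⟩
        refine Loc.subset_span ⟨(s • δ) :: l', ?_, by simpa using b, rfl⟩
        intro ε hε
        rcases List.mem_cons.mp hε with rfl | hε
        · exact h1
        · exact a ε hε
      · simp
      · intro x y _ _ hx hy
        rw [map_add]
        exact add_mem hx hy
      · intro a ha x hx hx'
        rw [Derivation.leibniz, smul_eq_mul, smul_eq_mul]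
        exact add_mem (Loc.mul_mem_left ha hx') (Loc.mul_mem_right ((hd' h1).1 a ha) (hmono hx))
    have h4 : s ^ (δ :: l).length * ders (δ :: l) f / s ^ w =
        (s • δ) (s ^ l.length * ders l f / s ^ w) +
          (((w : K) - l.length) * δ s) * (s ^ l.length * ders l f / s ^ w) := by
      have hw : s ^ w ≠ 0 := pow_ne_zero _ hs0
      have e1 : s ^ l.length * ders l f / s ^ w * s ^ w = s ^ l.length * ders l f :=
        div_mul_cancel₀ _ hw
      generalize s ^ l.length * ders l f / s ^ w = X at e1 ⊢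
      have e2 := congrArg δ e1
      rw [Derivation.leibniz, Derivation.leibniz] at e2
      simp only [smul_eq_mul] at e2
      rw [div_eq_iff hw, List.length_cons, ders_cons, Derivation.smul_apply, smul_eq_mul, pow_succ]
      linear_combination -s * e2 + X * LGauss_der_pow δ s w -
        ders l f * LGauss_der_pow δ s l.length + l.length * δ s * e1
    rw [h4]
    exact add_mem h3 (Loc.mul_mem_left
      (mul_mem (sub_mem (natCast_mem _ _) (natCast_mem _ _)) h2) (hmono ih))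

/-- Giraud's lemma in valuative form -/
theorem sat_of_sat_dv (hle : L.O ≤ L'.O) (hs0 : s ≠ 0) (hs : s ∈ L'.O) (hd : 𝒟 ⊆ L.log ∅)
    (hd' : 𝒟' ⊆ L'.log ∅) (hlift : ∀ δ ∈ 𝒟, s • δ ∈ 𝒟' ∧ δ s ∈ L'.O) (hS : L.In S)
    (hS' : L'.In (dv s S)) (hv : IsSV L' v) (hfin : v s ≠ ⊤) (h : Sat 𝒟' (dv s S) v) :
    Sat 𝒟 S (fun f => v f / (1 + v s)) := by
  have _ := hle
  have _ := hd
  have _ := hS
  intro p hp l hl
  rcases le_or_gt p.2 l.length with hk | hk
  · exact le_add_left (Nat.cast_le.mpr hk)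
  obtain ⟨m, hm⟩ := Nat.exists_eq_add_of_le hk.le
  have hp' : (p.1 / s ^ p.2, p.2) ∈ dv s S := ⟨p, hp, rfl⟩
  have h1 := LGauss_span (f := p.1) hs0 hd' hlift p.2 l hl
  have h2 : ∀ y ∈ {g | ∃ l' : List (Der K), (∀ δ ∈ l', δ ∈ 𝒟') ∧ l'.length ≤ l.length ∧
      g = ders l' (p.1 / s ^ p.2)}, y ∈ L'.O := by
    rintro _ ⟨l', a, -, rfl⟩
    exact Loc.ders_mem (fun δ hδ => hd' (a δ hδ)) (hS' _ hp')
  have h3 : (m : ℝ≥0∞) ≤ v (s ^ l.length * ders l p.1 / s ^ p.2) := by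
    refine hv.span h2 ?_ h1
    rintro _ ⟨l', a, b, rfl⟩
    have h4 := h _ hp' l' a
    simp only at h4
    rw [← ENNReal.add_le_add_iff_right (ENNReal.natCast_ne_top l.length), ← Nat.cast_add,
      add_comm m, ← hm]
    refine h4.trans ?_
    gcongr
  have h4 : ders l p.1 = s ^ m * (s ^ l.length * ders l p.1 / s ^ p.2) := by
    rw [hm, pow_add]
    field_simp
  have h5 : (m : ℝ≥0∞) ≤ v (ders l p.1) / (1 + v s) := by
    rw [ENNReal.le_div_iff_mul_le (Or.inl (by simp)) (Or.inl (by simp [hfin])), h4,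
      hv.mul _ (pow_mem hs m) _ (Loc.mem_O_of_le (Loc.span_le_one h2) h1), hv.pow hs, mul_add,
      mul_one, add_comm]
    gcongr
  rw [hm, Nat.cast_add, add_comm]
  gcongr


/-- closure is preserved by transforms -/
theorem le_dv (hle : L.O ≤ L'.O) (hs0 : s ≠ 0) (hs : s ∈ L'.O) (hd : 𝒟 ⊆ L.log ∅)
    (hd' : 𝒟' ⊆ L'.log ∅) (hlift : ∀ δ ∈ 𝒟, s • δ ∈ 𝒟' ∧ δ s ∈ L'.O)
    (hap : L'.ev s ≠ 0 ∨ ∃ ε ∈ L'.log ∅, L'.ev (ε s) ≠ 0)
    (hS : L.In S) (hS2 : L.In S') (hb : Bdd S) (hS' : L'.In (dv s S)) (hS2' : L'.In (dv s S'))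
    (h : Le L 𝒟 S S') : Le L' 𝒟' (dv s S) (dv s S') := by
  have _ := hS2
  have key : ∀ v, IsSV L' v → Sat 𝒟' (dv s S) v → v s ≠ ⊤ →
      ∀ p ∈ dv s S', (p.2 : ℝ≥0∞) ≤ v p.1 := by
    rintro v hv hsat hfin _ ⟨p, hp, rfl⟩
    have h1 := (h _ ((hv.restrict hle).div_const (t := 1 + v s) (by simp) (by simp [hfin]))
      (sat_of_sat_dv hle hs0 hs hd hd' hlift hS hS' hv hfin hsat)).zero hp
    have h2 : p.1 = s ^ p.2 * (p.1 / s ^ p.2) := by field_simp
    rw [ENNReal.le_div_iff_mul_le (Or.inl (by simp)) (Or.inl (by simp [hfin])), h2,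
      hv.mul _ (pow_mem hs _) _ (hS2' _ ⟨p, hp, rfl⟩), hv.pow hs, mul_add, mul_one, add_comm,
      ENNReal.add_le_add_iff_left (ENNReal.mul_ne_top (ENNReal.natCast_ne_top _) hfin)] at h1
    exact h1
  refine le_of_zero hd' fun v hv hsat p hp => ?_
  rcases hap with h0 | ⟨ε, hε, h0⟩
  · exact key v hv hsat (by simp [hv.unit hs h0]) p hp
  · obtain ⟨W, hW⟩ := hb.dv (s := s)
    refine (key (gauss v ε (W + 1)) (gauss_isSV hv hε (by simp) (by simp))
      (gauss_sat_big hsat hW le_self_add) (ne_top_of_le_ne_top ?_ gauss_le_der) p hp).trans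
      gauss_le
    simp [hv.unit (hε.1 s hs) h0]


/-- approximation by semivaluations that are finite on the coordinates outside `J` -/
theorem exists_approx {κ : Chart K n} (hκ : IsCrd L κ) (J : Finset (Fin n))
    (hv : IsSV L v) (hJ : ∀ j ∈ J, v (κ.x j) = ⊤)
    (hT : T ≠ 0) (hT' : T ≠ ⊤) :
    ∃ v', IsSV L v' ∧ (∀ f, v' f ≤ v f) ∧ (∀ f, min (v f) T ≤ v' f) ∧
      (∀ j ∈ J, v' (κ.x j) = ⊤) ∧ ∀ j ∉ J, v' (κ.x j) ≠ ⊤ := by
  classical
  have key : ∀ U : Finset (Fin n), ∃ v', IsSV L v' ∧ (∀ f, v' f ≤ v f) ∧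
      (∀ f, min (v f) T ≤ v' f) ∧ (∀ j ∈ J, v' (κ.x j) = ⊤) ∧
      ∀ j ∈ U, j ∉ J → v' (κ.x j) ≠ ⊤ := by
    intro U
    induction U using Finset.induction_on with
    | empty => exact ⟨v, hv, fun _ => le_rfl, fun _ => min_le_left _ _, hJ, by simp⟩
    | insert i U _ ih =>
      obtain ⟨v', h1, h2, h3, h4, h5⟩ := ih
      by_cases hi : i ∈ J
      · refine ⟨v', h1, h2, h3, h4, fun j hj hj' => h5 j ?_ hj'⟩
        exact (Finset.mem_insert.mp hj).resolve_left fun e => hj' (e ▸ hi)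
      refine ⟨gauss v' (κ.D i) T, gauss_isSV h1 (Loc.mem_log_empty.mpr (hκ.pres i)) hT hT',
        fun f => gauss_le.trans (h2 f),
        fun f => (le_min (h3 f) (min_le_right _ _)).trans min_le_gauss, fun j hj => ?_,
        fun j hj hj' => ?_⟩
      · rw [gauss_of_eq_zero h1, h4 j hj]
        rw [hκ.dual, if_neg fun e : i = j => hi (e ▸ hj)]
      · rcases Finset.mem_insert.mp hj with rfl | hj
        · refine ne_top_of_le_ne_top ?_ gauss_le_der
          simp [hκ.dual, h1.one, hT']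
        · exact ne_top_of_le_ne_top (h5 j hj hj') gauss_le
  obtain ⟨v', h1, h2, h3, h4, h5⟩ := key Finset.univ
  exact ⟨v', h1, h2, h3, h4, fun j => h5 j (Finset.mem_univ j)⟩


end Pool.Agent.MP_696f7f_ag.H96
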