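import Pool.Agent.MP_696f7f_ag.H96.LVal
import Pool.Agent.MP_696f7f_ag.H96.LGauss

/-! Projection along coordinates, flows of semivaluations, flatness. -/

namespace Pool.Agent.MP_696f7f_ag.H96

open scoped ENNReal
open Filter Topology

variable {K : Type} [Field K] [Algebra ℝ K] {n : ℕ}
variable {L : Loc K} {κ κ' : Chart K n} {f g h : K} {J J' : Finset (Fin n)} {N : ℕ}
  {𝒟 : Set (Der K)} {S S' H : Set (K × ℕ)} {Y : ℕ → Set K} {σ : ℕ → Option (Fin n)} {Z R : Set K}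
  {v u : K → ℝ≥0∞}

theorem lp_eu_apply (κ : Chart K n) (J : Finset (Fin n)) (f : K) :
    κ.eu J f = ∑ j ∈ J, κ.x j * κ.D j f := by
  unfold Chart.eu
  induction J using Finset.induction_on with
  | empty => simp
  | insert j J hj ih => rw [Finset.sum_insert hj, Finset.sum_insert hj, Derivation.add_apply, ih]; rfl

theorem lp_der_c (δ : Der K) (N : ℕ) (y : K) :
    δ (((N : K) + 1)⁻¹ * y) = ((N : K) + 1)⁻¹ * δ y := by
  have e : ∀ z : K, ((N : K) + 1)⁻¹ * z = ((N : ℝ) + 1)⁻¹ • z := fun z => by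
    rw [Algebra.smul_def]; simp
  rw [e, e, Derivation.map_smul]

theorem lp_succ_ne (N : ℕ) : (N : K) + 1 ≠ 0 := by
  have : CharZero K := charZero_of_injective_algebraMap (algebraMap ℝ K).injective
  exact Nat.cast_add_one_ne_zero N

theorem lp_pK_succ : κ.pK J (N + 1) f = κ.pK J N f - ((N : K) + 1)⁻¹ * κ.eu J (κ.pK J N f) := rfl

theorem lp_der_span {δ : Der K} {T : Set K} {I : Submodule L.O K} (hδ : δ ∈ L.log ∅)
    (h1 : ∀ t ∈ T, t ∈ I) (h2 : ∀ t ∈ T, δ t ∈ I) (hf : f ∈ L.span T) : δ f ∈ I := by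
  refine Loc.span_induction (p := fun f => δ f ∈ I) hf h2 (by simp) ?_ ?_
  · intro x y _ _ hx hy
    rw [map_add]; exact add_mem hx hy
  · intro a ha x hx hx'
    rw [Derivation.leibniz, smul_eq_mul, smul_eq_mul]
    exact add_mem (Loc.mul_mem_left ha hx')
      (Loc.mul_mem_right (hδ.1 a ha) (Loc.span_le.2 h1 hx))

theorem lp_eu_log (hκ : IsCrd L κ) : κ.eu J ∈ L.log ∅ :=
  Loc.log_sum _ _ fun j _ => Loc.log_smul (hκ.x_mem j) (hκ.D_log j)

theorem lp_eu_mem_succ (hκ : IsCrd L κ) (hJ : J ⊆ J') (hD : ∀ j ∈ J, κ.D j h ∈ κ.I L J' ^ N) :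
    κ.eu J h ∈ κ.I L J' ^ (N + 1) := by
  rw [lp_eu_apply]
  refine Submodule.sum_mem _ fun j hj => ?_
  rw [pow_succ']
  exact Submodule.mul_mem_mul (hκ.x_mem_I.2 (hJ hj)) (hD j hj)

theorem lp_eu_mem (hκ : IsCrd L κ) (hf : f ∈ L.O) : κ.eu J f ∈ κ.I L J := by
  have := lp_eu_mem_succ (N := 0) hκ (subset_refl J) fun j _ => by
    rw [pow_zero]; exact Loc.mem_one.2 (hκ.pres j f hf)
  simpa using this

theorem lp_eu_pow (hκ : IsCrd L κ) (hJ : J ⊆ J') {k : ℕ} (hf : f ∈ κ.I L J' ^ k) :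
    κ.eu J f ∈ κ.I L J' ^ k := by
  cases k with
  | zero =>
    rw [pow_zero] at hf ⊢
    exact Loc.mem_one.2 ((lp_eu_log hκ).1 f (Loc.mem_one.1 hf))
  | succ k =>
    exact lp_eu_mem_succ hκ hJ fun j _ => Loc.der_pow_succ (hκ.D_log j) hκ.I_le_one hf

theorem lp_eu_x (hκ : IsCrd L κ) {j : Fin n} (hj : j ∈ J) : κ.eu J (κ.x j) = κ.x j := by
  rw [lp_eu_apply]
  simp [hκ.dual, hj]

theorem lp_eu_sub_one (hκ : IsCrd L κ) (hf : f ∈ κ.I L J) :
    κ.eu J f - f ∈ κ.I L J * κ.I L J := by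
  refine Loc.span_induction (p := fun f => κ.eu J f - f ∈ κ.I L J * κ.I L J) hf ?_ (by simp) ?_ ?_
  · rintro _ ⟨j, hj, rfl⟩
    rw [lp_eu_x hκ hj, sub_self]; exact zero_mem _
  · intro x y _ _ hx hy
    have : κ.eu J (x + y) - (x + y) = (κ.eu J x - x) + (κ.eu J y - y) := by rw [map_add]; ring
    rw [this]; exact add_mem hx hy
  · intro a ha x hx hx'
    have : κ.eu J (a * x) - a * x = a * (κ.eu J x - x) + x * κ.eu J a := by
      rw [Derivation.leibniz, smul_eq_mul, smul_eq_mul]; ring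
    rw [this]
    exact add_mem (Loc.mul_mem_left ha hx') (Submodule.mul_mem_mul hx (lp_eu_mem hκ ha))

theorem lp_eu_sub (hκ : IsCrd L κ) (k : ℕ) :
    ∀ f ∈ κ.I L J ^ k, κ.eu J f - k * f ∈ κ.I L J ^ (k + 1) := by
  induction k with
  | zero =>
    intro f hf
    rw [pow_zero] at hf
    simpa using lp_eu_mem hκ (Loc.mem_one.1 hf)
  | succ k ih =>
    intro f hf
    rw [pow_succ] at hf
    refine Submodule.mul_induction_on hf ?_ ?_
    · intro a ha b hb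
      have : κ.eu J (a * b) - ((k + 1 : ℕ) : K) * (a * b) =
          (κ.eu J a - k * a) * b + a * (κ.eu J b - b) := by
        rw [Derivation.leibniz, smul_eq_mul, smul_eq_mul]; push_cast; ring
      rw [this]
      refine add_mem ?_ ?_
      · rw [pow_succ]; exact Submodule.mul_mem_mul (ih a ha) hb
      · rw [pow_succ, pow_succ, mul_assoc]
        exact Submodule.mul_mem_mul ha (lp_eu_sub_one hκ hb)
    · intro x y hx hy
      have : κ.eu J (x + y) - ((k + 1 : ℕ) : K) * (x + y) =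
          (κ.eu J x - ((k + 1 : ℕ) : K) * x) + (κ.eu J y - ((k + 1 : ℕ) : K) * y) := by
        rw [map_add]; ring
      rw [this]; exact add_mem hx hy

theorem lp_D_eu (hκ : IsCrd L κ) (hf : f ∈ L.O) {j : Fin n} (hj : j ∈ J) :
    κ.D j (κ.eu J f) = κ.eu J (κ.D j f) + κ.D j f := by
  rw [lp_eu_apply, lp_eu_apply, map_sum]
  simp only [Derivation.leibniz, smul_eq_mul, hκ.dual, Finset.sum_add_distrib,
    fun i => hκ.comm j i hf]
  simp [hj]

theorem pK_congr (hx : ∀ j ∈ J, κ'.x j = κ.x j) (hD : ∀ j ∈ J, κ'.D j = κ.D j) :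
    κ'.pK J N f = κ.pK J N f := by
  induction N with
  | zero => rfl
  | succ N ih =>
    rw [lp_pK_succ, lp_pK_succ, ih, lp_eu_apply, lp_eu_apply]
    congr 2
    exact Finset.sum_congr rfl fun j hj => by rw [hx j hj, hD j hj]

theorem pK_add : κ.pK J N (f + g) = κ.pK J N f + κ.pK J N g := by
  induction N with
  | zero => rfl
  | succ N ih => rw [lp_pK_succ, lp_pK_succ, lp_pK_succ, ih, map_add]; ring

theorem pK_sub : κ.pK J N (f - g) = κ.pK J N f - κ.pK J N g := by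
  induction N with
  | zero => rfl
  | succ N ih => rw [lp_pK_succ, lp_pK_succ, lp_pK_succ, ih, map_sub]; ring

theorem pK_mem (hκ : IsCrd L κ) (hf : f ∈ L.O) : κ.pK J N f ∈ L.O := by
  induction N with
  | zero => exact hf
  | succ N ih =>
    rw [lp_pK_succ]
    exact sub_mem ih (mul_mem (Loc.natCast_inv_mem N) ((lp_eu_log hκ).1 _ ih))

theorem pK_sub_mem (hκ : IsCrd L κ) (hf : f ∈ L.O) : κ.pK J N f - f ∈ κ.I L J := by
  induction N with
  | zero => exact (sub_self f).symm ▸ zero_mem _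
  | succ N ih =>
    rw [lp_pK_succ, sub_right_comm]
    exact sub_mem ih (Loc.mul_mem_left (Loc.natCast_inv_mem N) (lp_eu_mem hκ (pK_mem hκ hf)))

theorem D_pK (hκ : IsCrd L κ) (hf : f ∈ L.O) {j : Fin n} (hj : j ∈ J) :
    κ.D j (κ.pK J N f) ∈ κ.I L J ^ N := by
  induction N with
  | zero => rw [pow_zero]; exact Loc.mem_one.2 (hκ.pres j f hf)
  | succ N ih =>
    rw [lp_pK_succ, map_sub, lp_der_c, lp_D_eu hκ (pK_mem hκ hf) hj]
    set q := κ.D j (κ.pK J N f)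
    have : q - ((N : K) + 1)⁻¹ * (κ.eu J q + q) = -(((N : K) + 1)⁻¹ * (κ.eu J q - N * q)) := by
      have := lp_succ_ne (K := K) N
      field_simp
      ring
    rw [this]
    exact neg_mem (Loc.mul_mem_left (Loc.natCast_inv_mem N) (lp_eu_sub hκ N q ih))

/-- Euler's lemma -/
theorem mem_pow_succ_of_D (hκ : IsCrd L κ) (hh : h ∈ κ.I L J)
    (hD : ∀ j ∈ J, κ.D j h ∈ κ.I L J ^ N) : h ∈ κ.I L J ^ (N + 1) := by
  have h1 := lp_eu_mem_succ hκ (subset_refl J) hD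
  have key : ∀ k, k ≤ N → h ∈ κ.I L J ^ (k + 1) := by
    intro k
    induction k with
    | zero => intro _; simpa using hh
    | succ k ih =>
      intro hk
      have h2 := sub_mem (Loc.pow_anti hκ.I_le_one (by omega : k + 1 + 1 ≤ N + 1) h1)
        (lp_eu_sub hκ (k + 1) h (ih (by omega)))
      have h3 := Loc.mul_mem_left (Loc.natCast_inv_mem k) h2
      have : ((k : K) + 1)⁻¹ * (κ.eu J h - (κ.eu J h - ((k + 1 : ℕ) : K) * h)) = h := by
        have := lp_succ_ne (K := K) k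
        push_cast
        field_simp
        ring
      rwa [this] at h3
  exact key N le_rfl

theorem pK_of_mem (hκ : IsCrd L κ) (hf : f ∈ κ.I L J) : κ.pK J N f ∈ κ.I L J ^ (N + 1) := by
  have hO := Loc.mem_O_of_le hκ.I_le_one hf
  refine mem_pow_succ_of_D hκ ?_ fun j hj => D_pK hκ hO hj
  simpa using add_mem (pK_sub_mem (N := N) hκ hO) hf

theorem pK_mul (hκ : IsCrd L κ) (hf : f ∈ L.O) (hg : g ∈ L.O) :
    κ.pK J N (f * g) - κ.pK J N f * κ.pK J N g ∈ κ.I L J ^ (N + 1) := by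
  refine mem_pow_succ_of_D hκ ?_ fun j hj => ?_
  · have : κ.pK J N (f * g) - κ.pK J N f * κ.pK J N g = (κ.pK J N (f * g) - f * g) -
        ((κ.pK J N f - f) * κ.pK J N g + f * (κ.pK J N g - g)) := by ring
    rw [this]
    exact sub_mem (pK_sub_mem hκ (mul_mem hf hg))
      (add_mem (Loc.mul_mem_right (pK_mem hκ hg) (pK_sub_mem hκ hf))
        (Loc.mul_mem_left hf (pK_sub_mem hκ hg)))
  · rw [map_sub, Derivation.leibniz, smul_eq_mul, smul_eq_mul]
    exact sub_mem (D_pK hκ (mul_mem hf hg) hj)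
      (add_mem (Loc.mul_mem_left (pK_mem hκ hf) (D_pK hκ hg hj))
        (Loc.mul_mem_left (pK_mem hκ hg) (D_pK hκ hf hj)))

theorem pK_succ_sub (hκ : IsCrd L κ) (hf : f ∈ L.O) :
    κ.pK J (N + 1) f - κ.pK J N f ∈ κ.I L J ^ (N + 1) := by
  rw [lp_pK_succ, sub_sub_cancel_left]
  exact neg_mem (Loc.mul_mem_left (Loc.natCast_inv_mem N)
    (lp_eu_mem_succ hκ (subset_refl J) fun j hj => D_pK hκ hf hj))

theorem pK_of_D_eq_zero (hD : ∀ j ∈ J, κ.D j f = 0) : κ.pK J N f = f := by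
  induction N with
  | zero => rfl
  | succ N ih =>
    rw [lp_pK_succ, ih, lp_eu_apply, Finset.sum_eq_zero fun j hj => by rw [hD j hj, mul_zero]]
    simp

theorem pK_pow_mem (hκ : IsCrd L κ) (hJ : J ⊆ J') {k : ℕ} (hf : f ∈ κ.I L J' ^ k) :
    κ.pK J N f ∈ κ.I L J' ^ k := by
  induction N with
  | zero => exact hf
  | succ N ih =>
    rw [lp_pK_succ]
    exact sub_mem ih (Loc.mul_mem_left (Loc.natCast_inv_mem N) (lp_eu_pow hκ hJ ih))

/-- the difference `f - pK f` is a combination of `a * (word of length k ≥ 1 in D j) f` with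
`a ∈ I J ^ k` -/
theorem sub_pK_mem_tail (hκ : IsCrd L κ) (hf : f ∈ L.O) :
    f - κ.pK J N f ∈ L.span {g | ∃ (l : List (Fin n)) (a : K), l ≠ [] ∧ l.length ≤ N ∧
      (∀ j ∈ l, j ∈ J) ∧ a ∈ κ.I L J ^ l.length ∧ g = a * ders (l.map κ.D) f} := by
  have _ := hf
  induction N with
  | zero => exact (sub_self f).symm ▸ zero_mem _
  | succ N ih =>
    set T := L.span {g | ∃ (l : List (Fin n)) (a : K), l ≠ [] ∧ l.length ≤ N + 1 ∧
      (∀ j ∈ l, j ∈ J) ∧ a ∈ κ.I L J ^ l.length ∧ g = a * ders (l.map κ.D) f} with hT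
    have h0 : ∀ t ∈ {g | ∃ (l : List (Fin n)) (a : K), l ≠ [] ∧ l.length ≤ N ∧
        (∀ j ∈ l, j ∈ J) ∧ a ∈ κ.I L J ^ l.length ∧ g = a * ders (l.map κ.D) f}, t ∈ T := by
      rintro _ ⟨l, a, h1, h2, h3, h4, rfl⟩
      exact Loc.subset_span ⟨l, a, h1, by omega, h3, h4, rfl⟩
    have hw : ∀ (l : List (Fin n)) (a : K), l.length ≤ N → (∀ j ∈ l, j ∈ J) →
        a ∈ κ.I L J ^ l.length → a * κ.eu J (ders (l.map κ.D) f) ∈ T := by
      intro l a h2 h3 h4
      rw [lp_eu_apply, Finset.mul_sum]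
      refine Submodule.sum_mem _ fun j hj => Loc.subset_span ⟨j :: l, a * κ.x j, by simp,
        by simpa using h2, by simpa using ⟨hj, h3⟩, ?_, by simp [mul_assoc]⟩
      rw [List.length_cons, pow_succ]
      exact Submodule.mul_mem_mul h4 (hκ.x_mem_I.2 hj)
    have h1 : κ.eu J (f - κ.pK J N f) ∈ T := by
      refine lp_der_span (lp_eu_log hκ) h0 ?_ ih
      rintro _ ⟨l, a, h1, h2, h3, h4, rfl⟩
      rw [Derivation.leibniz, smul_eq_mul, smul_eq_mul, mul_comm (ders _ _)]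
      exact add_mem (hw l a h2 h3 h4) (Loc.subset_span
        ⟨l, _, h1, by omega, h3, lp_eu_pow hκ (subset_refl J) h4, rfl⟩)
    have h2 : κ.eu J f ∈ T := by
      simpa using hw [] 1 (by simp) (by simp) (by simp)
    have : f - κ.pK J (N + 1) f = (f - κ.pK J N f) +
        ((N : K) + 1)⁻¹ * (κ.eu J f - κ.eu J (f - κ.pK J N f)) := by
      rw [lp_pK_succ, map_sub]; ring
    rw [this]
    exact add_mem (Loc.span_le.2 h0 ih)
      (Loc.mul_mem_left (Loc.natCast_inv_mem N) (sub_mem h2 h1))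


/-- `u` is the limit of `v` composed with the projections -/
def Flow (L : Loc K) (κ : Chart K n) (J : Finset (Fin n)) (v u : K → ℝ≥0∞) : Prop :=
  ∀ f ∈ L.O, Tendsto (fun N => v (κ.pK J N f)) atTop (𝓝 (u f))

theorem lp_tendsto_succ : Tendsto (fun N : ℕ => ((N : ℝ≥0∞) + 1)) atTop (𝓝 ⊤) := by
  simpa using ENNReal.tendsto_nat_nhds_top.add (tendsto_const_nhds (x := (1 : ℝ≥0∞)))

theorem lp_eq_of_min {x y : ℕ → ℝ≥0∞} {a b : ℝ≥0∞} (hx : Tendsto x atTop (𝓝 a))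
    (hy : Tendsto y atTop (𝓝 b)) (h : ∀ N : ℕ, min (x N) (N + 1) = min (y N) (N + 1)) : a = b := by
  have h1 := hx.min lp_tendsto_succ
  have h2 := hy.min lp_tendsto_succ
  simp only [h] at h1
  simpa using tendsto_nhds_unique h1 h2

theorem lp_tendsto (a : ℕ → ℝ≥0∞)
    (h : ∀ N N' : ℕ, N ≤ N' → min (a N') (N + 1) = min (a N) (N + 1)) :
    Tendsto a atTop (𝓝 (⨆ N : ℕ, min (a N) (N + 1))) := by
  have hm : Monotone fun N : ℕ => min (a N) (N + 1) := fun N N' hN => by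
    change min (a N) _ ≤ min (a N') _
    rw [← h N N' hN]
    exact min_le_min_left _ (by gcongr)
  have h1 := tendsto_atTop_iSup hm
  by_cases ht : ⨆ N : ℕ, min (a N) (N + 1) = ⊤
  · rw [ht] at h1 ⊢
    exact tendsto_nhds_top_mono' h1 fun N => min_le_left _ _
  · refine h1.congr' ?_
    filter_upwards [lp_tendsto_succ.eventually (lt_mem_nhds (lt_top_iff_ne_top.2 ht))] with N hN
    have := (le_iSup (fun N : ℕ => min (a N) (N + 1)) N).trans_lt hN
    exact min_eq_left (le_of_lt (by simpa using this))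

theorem lp_le_of_pow (hκ : IsCrd L κ) (hv : IsSV L v) (h1 : ∀ j ∈ J, 1 ≤ v (κ.x j)) {k : ℕ}
    (hf : f ∈ κ.I L J ^ k) : (k : ℝ≥0∞) ≤ v f := by
  have := hv.pow_sub hκ.I_le_one (t := 1) (fun y hy => hv.span
    (by rintro _ ⟨j, _, rfl⟩; exact hκ.x_mem j) (by rintro _ ⟨j, hj, rfl⟩; exact h1 j hj) hy) hf
  simpa using this

theorem lp_pK_sub_pK (hκ : IsCrd L κ) (hf : f ∈ L.O) {N' : ℕ} (h : N ≤ N') :
    κ.pK J N' f - κ.pK J N f ∈ κ.I L J ^ (N + 1) := by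
  induction N', h using Nat.le_induction with
  | base => rw [sub_self]; exact zero_mem _
  | succ M hM ih =>
    simpa using add_mem (Loc.pow_anti hκ.I_le_one (by omega : N + 1 ≤ M + 1)
      (pK_succ_sub hκ hf)) ih

theorem lp_min_pK (hκ : IsCrd L κ) (hv : IsSV L v) (h1 : ∀ j ∈ J, 1 ≤ v (κ.x j)) (hf : f ∈ L.O)
    {N' : ℕ} (h : N ≤ N') :
    min (v (κ.pK J N' f)) (N + 1) = min (v (κ.pK J N f)) (N + 1) :=
  hv.min_eq (pK_mem hκ hf) (pK_mem hκ hf)
    (by simpa using lp_le_of_pow hκ hv h1 (lp_pK_sub_pK hκ hf h))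

theorem lp_ders_mem {I : Submodule L.O K} (hκ : IsCrd L κ) (hI : I ≤ 1) {M : ℕ}
    (hD : ∀ j ∈ J, κ.D j h ∈ I ^ M) {l : List (Fin n)} (h0 : l ≠ []) (hl : l.length ≤ M)
    (hJ : ∀ j ∈ l, j ∈ J) : ders (l.map κ.D) h ∈ I := by
  obtain ⟨l0, j, rfl⟩ := List.eq_nil_or_concat' l |>.resolve_left h0
  rw [List.map_append, ders_append]
  have h1 : ders (l0.map κ.D) (κ.D j h) ∈ I ^ (M - (l0.map κ.D).length) :=
    Loc.ders_pow (by simpa using fun a _ => hκ.D_log a) hI (hD j (hJ j (by simp)))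
  simp only [List.length_append, List.length_singleton, List.length_map] at hl h1
  simpa using Loc.pow_anti hI (by omega : 1 ≤ M - l0.length) h1

/-- values on the tail -/
theorem lp_tail (hκ : IsCrd L κ) (hv : IsSV L v) (h1 : ∀ j ∈ J, 1 ≤ v (κ.x j)) (hf : f ∈ L.O)
    {t : ℝ≥0∞} (ht : ∀ l : List (Fin n), l ≠ [] → (∀ j ∈ l, j ∈ J) →
      t ≤ v (ders (l.map κ.D) f) + l.length) : t ≤ v (f - κ.pK J N f) := by
  have hO : ∀ l : List (Fin n), ders (l.map κ.D) f ∈ L.O := fun l =>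
    Loc.ders_mem (by simpa using fun a _ => hκ.D_log a) hf
  refine hv.span ?_ ?_ (sub_pK_mem_tail hκ hf)
  · rintro _ ⟨l, a, -, -, -, h4, rfl⟩
    exact mul_mem (Loc.mem_O_of_le (Loc.pow_le_one hκ.I_le_one _) h4) (hO l)
  · rintro _ ⟨l, a, h0, -, h3, h4, rfl⟩
    rw [hv.mul _ (Loc.mem_O_of_le (Loc.pow_le_one hκ.I_le_one _) h4) _ (hO l), add_comm]
    exact (ht l h0 h3).trans (by gcongr; exact lp_le_of_pow hκ hv h1 h4)

theorem exists_flow (hκ : IsCrd L κ) (hv : IsSV L v) (h1 : ∀ j ∈ J, 1 ≤ v (κ.x j)) :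
    ∃ u, IsSV L u ∧ Flow L κ J v u := by
  have hfl : Flow L κ J v fun f => ⨆ N : ℕ, min (v (κ.pK J N f)) (N + 1) := fun f hf =>
    lp_tendsto _ fun N N' h => lp_min_pK hκ hv h1 hf h
  generalize (fun f => ⨆ N : ℕ, min (v (κ.pK J N f)) (N + 1)) = u at hfl
  refine ⟨u, ⟨fun f hf g hg => ?_, fun f hf g hg => ?_, ?_, ?_⟩, hfl⟩
  · refine lp_eq_of_min (hfl _ (mul_mem hf hg)) ((hfl f hf).add (hfl g hg)) fun N => ?_
    rw [← hv.mul _ (pK_mem hκ hf) _ (pK_mem hκ hg)]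
    exact hv.min_eq (pK_mem hκ (mul_mem hf hg)) (mul_mem (pK_mem hκ hf) (pK_mem hκ hg))
      (by simpa using lp_le_of_pow hκ hv h1 (pK_mul hκ hf hg))
  · refine le_of_tendsto_of_tendsto' ((hfl f hf).min (hfl g hg)) (hfl _ (add_mem hf hg))
      fun N => ?_
    rw [pK_add]
    exact hv.add _ (pK_mem hκ hf) _ (pK_mem hκ hg)
  · have := hfl 0 (zero_mem _)
    simp only [pK_of_D_eq_zero (κ := κ) (J := J) (f := 0) (by simp), hv.zero] at this
    exact tendsto_nhds_unique this tendsto_const_nhds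
  · have := hfl 1 (one_mem _)
    simp only [pK_of_D_eq_zero (κ := κ) (J := J) (f := 1) (by simp), hv.one] at this
    exact tendsto_nhds_unique this tendsto_const_nhds

theorem Flow.top (hu : Flow L κ J v u) (hκ : IsCrd L κ) (hv : IsSV L v)
    (h1 : ∀ j ∈ J, 1 ≤ v (κ.x j)) (hf : f ∈ κ.I L J) : u f = ⊤ := by
  refine top_le_iff.1 (le_of_tendsto_of_tendsto' lp_tendsto_succ
    (hu f (Loc.mem_O_of_le hκ.I_le_one hf)) fun N => ?_)
  simpa using lp_le_of_pow hκ hv h1 (pK_of_mem hκ hf)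

theorem Flow.min_eq (hu : Flow L κ J v u) (hκ : IsCrd L κ) (hv : IsSV L v)
    (h1 : ∀ j ∈ J, 1 ≤ v (κ.x j)) (hf : f ∈ L.O) (N : ℕ) :
    min (u f) (N + 1) = min (v (κ.pK J N f)) (N + 1) := by
  refine tendsto_nhds_unique ((hu f hf).min tendsto_const_nhds) (tendsto_const_nhds.congr' ?_)
  filter_upwards [eventually_ge_atTop N] with N' h
  exact (lp_min_pK hκ hv h1 hf h).symm

theorem Flow.x (hu : Flow L κ J v u) (hκ : IsCrd L κ) {j : Fin n} (hj : j ∉ J) :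
    u (κ.x j) = v (κ.x j) := by
  have := hu _ (hκ.x_mem j)
  have e : ∀ i ∈ J, κ.D i (κ.x j) = 0 := fun i hi => by
    rw [hκ.dual, if_neg fun h : i = j => hj (h ▸ hi)]
  simp only [pK_of_D_eq_zero e] at this
  exact tendsto_nhds_unique this tendsto_const_nhds

theorem Flow.div (hu : Flow L κ J v u) {t : ℝ≥0∞} (h0 : t ≠ 0) (ht : t ≠ ⊤) :
    Flow L κ J (fun f => v f / t) (fun f => u f / t) := by
  have _ := ht
  exact fun f hf => ENNReal.Tendsto.div_const (hu f hf) (Or.inr h0)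

/-- the flow preserves `Sat` -/
theorem Flow.sat (hu : Flow L κ J v u) (hκ : IsCrd L κ) (hv : IsSV L v)
    (h1 : ∀ j ∈ J, 1 ≤ v (κ.x j)) (hd : 𝒟 ⊆ L.log ∅) (hD : ∀ j ∈ J, κ.D j ∈ 𝒟) (hS : L.In S)
    (h : Sat 𝒟 S v) : Sat 𝒟 S u := by
  intro p hp l hl
  have hg : ders l p.1 ∈ L.O := Loc.ders_mem (fun δ h => hd (hl δ h)) (hS p hp)
  rw [← tsub_le_iff_right]
  refine ge_of_tendsto' (hu _ hg) fun N => ?_
  have h2 : (p.2 : ℝ≥0∞) - l.length ≤ v (ders l p.1 - κ.pK J N (ders l p.1)) := by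
    refine lp_tail hκ hv h1 hg fun l' _ hl' => ?_
    have := h p hp (l'.map κ.D ++ l) (by
      intro δ hδ
      rcases List.mem_append.1 hδ with h | h
      · obtain ⟨j, hj, rfl⟩ := List.mem_map.1 h
        exact hD j (hl' j hj)
      · exact hl δ h)
    rw [ders_append] at this
    rw [tsub_le_iff_right]
    simpa [add_assoc] using this
  have h3 := hv.sub hg (sub_mem hg (pK_mem (J := J) (N := N) hκ hg))
  rw [sub_sub_cancel] at h3
  exact (le_min (tsub_le_iff_right.2 (h p hp l hl)) h2).trans h3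

/-- the flow reflects `Sat` -/
theorem Flow.ext (hu : Flow L κ J v u) (hκ : IsCrd L κ) (hv : IsSV L v)
    (h1 : ∀ j ∈ J, 1 ≤ v (κ.x j)) (hd : 𝒟 ⊆ L.log ∅) (hD : ∀ j ∈ J, κ.D j ∈ 𝒟) (hS : L.In S)
    (h : Sat 𝒟 S u) : Sat 𝒟 S v := by
  intro p hp
  have key : ∀ m : ℕ, ∀ l : List (Der K), (∀ δ ∈ l, δ ∈ 𝒟) → p.2 ≤ l.length + m →
      (p.2 : ℝ≥0∞) ≤ v (ders l p.1) + l.length := by
    intro m
    induction m with
    | zero => exact fun l _ hm => le_add_left (by exact_mod_cast hm)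
    | succ m ih =>
      intro l hl hm
      have hg : ders l p.1 ∈ L.O := Loc.ders_mem (fun δ h => hd (hl δ h)) (hS p hp)
      rw [← tsub_le_iff_right]
      have h2 : (p.2 : ℝ≥0∞) - l.length ≤ v (ders l p.1 - κ.pK J p.2 (ders l p.1)) := by
        refine lp_tail hκ hv h1 hg fun l' h0 hl' => ?_
        have := ih (l'.map κ.D ++ l) (by
          intro δ hδ
          rcases List.mem_append.1 hδ with h | h
          · obtain ⟨j, hj, rfl⟩ := List.mem_map.1 h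
            exact hD j (hl' j hj)
          · exact hl δ h) (by
          have := List.length_pos_iff.2 h0
          simp only [List.length_append, List.length_map]; omega)
        rw [ders_append] at this
        rw [tsub_le_iff_right]
        simpa [add_assoc] using this
      have h3 : (p.2 : ℝ≥0∞) - l.length ≤ v (κ.pK J p.2 (ders l p.1)) := by
        refine le_trans ?_ (min_le_left _ ((p.2 : ℝ≥0∞) + 1))
        rw [← hu.min_eq hκ hv h1 hg]
        exact le_min (tsub_le_iff_right.2 (h p hp l hl)) (tsub_le_self.trans le_self_add)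
      have h4 := hv.add _ (sub_mem hg (pK_mem (J := J) (N := p.2) hκ hg)) _
        (pK_mem (J := J) (N := p.2) hκ hg)
      rw [sub_add_cancel] at h4
      exact (le_min h2 h3).trans h4
  exact fun l hl => key p.2 l hl (by omega)

/-- flowing along `J` in `κ` and back along `J` in `κ'` -/
theorem Flow.back {u' : K → ℝ≥0∞} (hκ : IsCrd L κ) (hκ' : IsCrd L κ')
    (hx : ∀ j ∉ J, κ'.x j = κ.x j) (hv : IsSV L v) (h1 : ∀ j ∈ J, 1 ≤ v (κ.x j))
    (htop : ∀ j ∈ J, v (κ'.x j) = ⊤) (hu : Flow L κ J v u) (hu' : Flow L κ' J u u') (hf : f ∈ L.O) : u' f = v f := by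
  have hT : ∀ g ∈ κ'.I L J, v g = ⊤ := fun g hg => top_le_iff.1 (hv.span
    (by rintro _ ⟨j, _, rfl⟩; exact hκ'.x_mem j)
    (by rintro _ ⟨j, hj, rfl⟩; exact (htop j hj).ge) hg)
  refine lp_eq_of_min tendsto_const_nhds tendsto_const_nhds fun N => ?_
  refine tendsto_nhds_unique ((hu' f hf).min tendsto_const_nhds) (tendsto_const_nhds.congr' ?_)
  filter_upwards [eventually_ge_atTop N] with M hM
  have hh : κ'.pK J M f ∈ L.O := pK_mem hκ' hf
  rw [hu.min_eq hκ hv h1 hh]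
  congr 1
  have hD : ∀ j ∈ J, κ.D j (κ'.pK J M f) ∈ κ'.I L J ^ M := by
    intro j hj
    rw [hκ'.der_eq (hκ.D_log j) hh]
    refine Submodule.sum_mem _ fun i _ => ?_
    by_cases hi : i ∈ J
    · exact Loc.mul_mem_left (hκ.pres j _ (hκ'.x_mem i)) (D_pK hκ' hf hi)
    · rw [hx i hi, hκ.dual, if_neg fun h : j = i => hi (h ▸ hj), zero_mul]; exact zero_mem _
  have h2 : κ'.pK J M f - κ.pK J N (κ'.pK J M f) ∈ κ'.I L J := by
    refine Loc.span_le.2 ?_ (sub_pK_mem_tail hκ hh)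
    rintro _ ⟨l, a, h0, h2, h3, h4, rfl⟩
    exact Loc.mul_mem_left (Loc.mem_O_of_le (Loc.pow_le_one hκ.I_le_one _) h4)
      (lp_ders_mem hκ hκ'.I_le_one hD h0 (h2.trans hM) h3)
  refine hv.eq_of_top hf (pK_mem hκ hh) (hT _ ?_)
  simpa using sub_mem h2 (pK_sub_mem (N := M) hκ' hf)


/-- logarithmic derivations that kill the normal coordinates -/
def lpT (L : Loc K) (κ : Chart K n) (Y : ℕ → Set K) (J : Finset (Fin n)) : Set (Der K) :=
  {τ | τ ∈ L.lg Y ∧ ∀ j ∈ J, τ (κ.x j) = 0}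

theorem lpT_sub (ht : Tr L κ Y σ Z J) : lpT L κ Y J ⊆ L.lg Y ∩ L.log {Z} := by
  intro τ hτ
  refine ⟨hτ.1, Loc.log_congr (𝔈 := {κ.x '' J}) ?_ (Loc.mem_log_of_gen
    (Loc.log_sub_empty hτ.1) ?_ ?_)⟩
  · rintro _ rfl
    exact Or.inr ⟨_, rfl, ht.span.symm⟩
  · rintro _ ⟨j, _, rfl⟩; exact ht.adp.crd.x_mem j
  · rintro _ ⟨j, hj, rfl⟩; rw [hτ.2 j hj]; exact zero_mem _

theorem lpT_bracket (ht : Tr L κ Y σ Z J) {j : Fin n} (hj : j ∈ J) {τ : Der K}
    (hτ : τ ∈ lpT L κ Y J) : ⁅κ.D j, τ⁆ ∈ lpT L κ Y J := by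
  refine ⟨Loc.log_bracket (ht.D_lg hj) hτ.1, fun i hi => ?_⟩
  rw [Derivation.commutator_apply, hτ.2 i hi, ht.adp.crd.dual]
  split_ifs <;> simp

theorem lpT_comm (ht : Tr L κ Y σ Z J) {j : Fin n} (hj : j ∈ J) (g : K) (lt : List (Der K))
    (hl : ∀ τ ∈ lt, τ ∈ lpT L κ Y J) : κ.D j (ders lt g) - ders lt (κ.D j g) ∈
      L.span {x | ∃ l' : List (Der K), (∀ τ ∈ l', τ ∈ lpT L κ Y J) ∧ l'.length ≤ lt.length ∧
        x = ders l' g} := by
  induction lt with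
  | nil => simp
  | cons τ lt ih =>
    have hτ := hl τ (by simp)
    have hl' : ∀ τ ∈ lt, τ ∈ lpT L κ Y J := fun τ h => hl τ (by simp [h])
    have : κ.D j (ders (τ :: lt) g) - ders (τ :: lt) (κ.D j g) =
        ders (⁅κ.D j, τ⁆ :: lt) g + τ (κ.D j (ders lt g) - ders lt (κ.D j g)) := by
      simp only [ders_cons, Derivation.commutator_apply, map_sub]; ring
    rw [this]
    refine add_mem (Loc.subset_span ⟨⁅κ.D j, τ⁆ :: lt, ?_, le_rfl, rfl⟩) ?_
    · simpa using ⟨lpT_bracket ht hj hτ, hl'⟩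
    · refine lp_der_span (Loc.log_sub_empty hτ.1) ?_ ?_ (ih hl')
      · rintro _ ⟨l', h1, h2, rfl⟩
        exact Loc.subset_span ⟨l', h1, by simp; omega, rfl⟩
      · rintro _ ⟨l', h1, h2, rfl⟩
        exact Loc.subset_span ⟨τ :: l', by simpa using ⟨hτ, h1⟩, by simpa using h2, rfl⟩

theorem lp_normal (ht : Tr L κ Y σ Z J) (f : K) (l : List (Der K)) (hl : ∀ δ ∈ l, δ ∈ L.lg Y) :
    ders l f ∈ L.span {x | ∃ (lt : List (Der K)) (ld : List (Fin n)),
      (∀ τ ∈ lt, τ ∈ lpT L κ Y J) ∧ (∀ j ∈ ld, j ∈ J) ∧ lt.length + ld.length ≤ l.length ∧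
        x = ders lt (ders (ld.map κ.D) f)} := by
  have hκ := ht.adp.crd
  induction l with
  | nil => exact Loc.subset_span ⟨[], [], by simp, by simp, by simp, rfl⟩
  | cons δ l ih =>
    have hδ := hl δ (by simp)
    have hx : ∀ j, δ (κ.x j) ∈ L.O := fun j => hδ.1 _ (hκ.x_mem j)
    have happ : ∀ (J : Finset (Fin n)) (y : K), (∑ j ∈ J, δ (κ.x j) • κ.D j) y =
        ∑ j ∈ J, δ (κ.x j) * κ.D j y := fun J y =>
      lp_eu_apply ⟨fun j => δ (κ.x j), κ.D⟩ J y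
    have hτ : δ - ∑ j ∈ J, δ (κ.x j) • κ.D j ∈ lpT L κ Y J := by
      refine ⟨Loc.log_sub hδ (Loc.log_sum _ _ fun j hj => Loc.log_smul (hx j) (ht.D_lg hj)),
        fun i hi => ?_⟩
      rw [Derivation.sub_apply, happ]
      simp [hκ.dual, hi]
    rw [ders_cons]
    refine lp_der_span (Loc.log_sub_empty hδ) ?_ ?_ (ih fun δ h => hl δ (by simp [h]))
    · rintro _ ⟨lt, ld, h1, h2, h3, rfl⟩
      exact Loc.subset_span ⟨lt, ld, h1, h2, by simp; omega, rfl⟩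
    · rintro _ ⟨lt, ld, h1, h2, h3, rfl⟩
      set g := ders (ld.map κ.D) f with hg
      have : δ (ders lt g) = (δ - ∑ j ∈ J, δ (κ.x j) • κ.D j) (ders lt g) +
          ∑ j ∈ J, δ (κ.x j) * κ.D j (ders lt g) := by
        rw [Derivation.sub_apply, happ]; ring
      rw [this]
      refine add_mem (Loc.subset_span ⟨_ :: lt, ld, by simpa using ⟨hτ, h1⟩, h2,
        by simp; omega, rfl⟩) (Submodule.sum_mem _ fun j hj => Loc.mul_mem_left (hx j) ?_)
      rw [← sub_add_cancel (κ.D j (ders lt g)) (ders lt (κ.D j g))]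
      refine add_mem (Loc.span_le.2 ?_ (lpT_comm ht hj g lt h1))
        (Loc.subset_span ⟨lt, j :: ld, h1, by simpa using ⟨hj, h2⟩, by simp; omega, rfl⟩)
      rintro _ ⟨l', h4, h5, rfl⟩
      exact Loc.subset_span ⟨l', ld, h4, h2, by simp; omega, rfl⟩

/-- normal derivatives first -/
theorem sat_of_normal (ht : Tr L κ Y σ Z J) (hv : IsSV L v) (hS : L.In S)
    (h : ∀ p ∈ S, ∀ l : List (Fin n), (∀ j ∈ l, j ∈ J) →
      Sat (L.lg Y ∩ L.log {Z}) {(ders (l.map κ.D) p.1, p.2 - l.length)} v) :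
    Sat (L.lg Y) S v := by
  intro p hp l hl
  have hκ := ht.adp.crd
  rw [← tsub_le_iff_right]
  refine hv.span ?_ ?_ (lp_normal ht p.1 l hl)
  · rintro _ ⟨lt, ld, h1, -, -, rfl⟩
    exact Loc.ders_mem (fun τ hτ => Loc.log_sub_empty (h1 τ hτ).1)
      (Loc.ders_mem (by simpa using fun a _ => hκ.D_log a) (hS p hp))
  · rintro _ ⟨lt, ld, h1, h2, h3, rfl⟩
    have h4 := h p hp ld h2 _ rfl lt fun τ hτ => lpT_sub ht (h1 τ hτ)
    rw [tsub_le_iff_right]
    have h5 : (p.2 : ℝ≥0∞) ≤ ((p.2 - ld.length : ℕ) : ℝ≥0∞) + ld.length := by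
      exact_mod_cast (by omega : p.2 ≤ p.2 - ld.length + ld.length)
    have h6 : (lt.length : ℝ≥0∞) + ld.length ≤ l.length := by exact_mod_cast h3
    calc (p.2 : ℝ≥0∞) ≤ _ := h5
      _ ≤ v (ders lt (ders (ld.map κ.D) p.1)) + lt.length + ld.length := by gcongr
      _ ≤ _ := by rw [add_assoc]; gcongr


theorem flat_ord (ht : Tr L κ Y σ Z J) (hJ : J ⊆ J') (hS : L.In S) (hf : Flat L (L.lg Y) Z S)
    (h : ∀ p ∈ S, p.1 ∈ L.span Z ⊔ κ.I L J' ^ p.2) : ∀ p ∈ S, p.1 ∈ κ.I L J' ^ p.2 := by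
  have hκ := ht.adp.crd
  have hd : L.lg Y ⊆ L.log ∅ := Loc.log_sub_empty
  have h1 : Sat (L.lg Y) S (κ.val L J J') := by
    refine hf _ (val_isSV hκ J J') (fun z hz => (val_eq_top_iff hκ (ht.mem z hz)).2 ?_)
      (sat_val hκ (fun δ hδ => Loc.log_congr (𝔈 := {Z}) ?_ hδ.2) fun p hp => ?_)
    · rw [← ht.span]; exact Loc.subset_span hz
    · rintro _ rfl
      exact Or.inr ⟨_, rfl, ht.span⟩
    · rw [← ht.span]; exact h p hp
  have hv := val_isSV hκ ∅ J'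
  have h2 : ∀ j ∈ J, 1 ≤ κ.val L ∅ J' (κ.x j) := fun j hj => by
    rw [val_x hκ (by simp), if_pos (hJ hj)]
  obtain ⟨u, -, hu⟩ := exists_flow hκ hv h2
  have h3 : ∀ f ∈ L.O, κ.val L J J' f ≤ u f := by
    intro f hf
    refine iSup₂_le fun k hk => ge_of_tendsto (hu f hf) ?_
    filter_upwards [eventually_ge_atTop k] with N hN
    obtain ⟨a, ha, b, hb, rfl⟩ := Submodule.mem_sup.1 hk
    refine (le_val_iff hκ (pK_mem hκ hf) k).2 (Submodule.mem_sup_right ?_)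
    rw [pK_add]
    exact add_mem (Loc.pow_anti hκ.I_le_one (by omega : k ≤ N + 1)
      (Loc.pow_mono (Chart.I_mono hJ) _ (pK_of_mem hκ ha))) (pK_pow_mem hκ hJ hb)
  have h4 := hu.ext hκ hv h2 hd (fun j hj => ht.D_lg hj) hS (h1.of_le hd hS h3)
  intro p hp
  simpa [Chart.I_empty] using (le_val_iff hκ (hS p hp) p.2).1 (h4.zero hp)


theorem flat_cos {c : ℕ} (ht : TrAt L n c Y Z) (hS : L.In S) (hf : Flat L (L.lg Y) Z S)
    (h : ∀ p ∈ S, p.1 ∈ L.span Z ⊔ L.m ^ p.2) : L.Cos S := by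
  obtain ⟨κ, σ, J, ht, -⟩ := ht
  have := flat_ord ht (Finset.subset_univ J) hS hf (by rwa [ht.adp.crd.I_univ])
  rwa [ht.adp.crd.I_univ] at this


theorem lp_sat_zero : Sat 𝒟 {(f, 0)} v := by
  rintro _ rfl l _
  simp

theorem flat_pK (ht : Tr L κ Y σ Z J) (hR : ∀ r ∈ R, r ∈ L.O) {e : ℕ} (he : e ≤ N) :
    Flat L (L.lg Y) Z (wt (κ.pK J N '' R) e) := by
  have hκ := ht.adp.crd
  intro v hv htop hs
  refine sat_of_normal ht hv ?_ ?_
  · rintro p ⟨⟨r, hr, h1⟩, -⟩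
    rw [← h1]; exact pK_mem hκ (hR r hr)
  rintro ⟨_, _⟩ hp l hl
  by_cases h0 : l = []
  · subst h0
    exact hs.subset (by simpa using hp)
  obtain ⟨⟨r, hr, rfl⟩, rfl⟩ := hp
  by_cases h1 : l.length ≤ N
  · have h2 := lp_ders_mem hκ hκ.I_le_one (fun j hj => D_pK (N := N) hκ (hR r hr) hj) h0 h1 hl
    rw [← ht.span] at h2
    rintro _ rfl l' hl'
    have h3 := hv.span ht.mem (fun z hz => (htop z hz).ge)
      (Loc.ders_span (fun δ hδ => (hl' δ hδ).2) h2)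
    exact le_top.trans (h3.trans le_self_add)
  · rw [Nat.sub_eq_zero_of_le (by simp only at he ⊢; omega)]
    exact lp_sat_zero


theorem flatG_finite {D : Fin n → Der K} {W : ℕ} (hH : H.Finite) : (flatG D J H W).Finite := by
  refine (hH.biUnion fun p _ => (List.finite_length_lt (Fin n) p.2).image
    fun l => ders (l.map D) p.1 ^ (W.factorial / (p.2 - l.length))).subset ?_
  rintro _ ⟨p, hp, l, -, h2, rfl⟩
  exact Set.mem_biUnion hp ⟨l, h2, rfl⟩

theorem flatG_mem {W : ℕ} (hκ : IsCrd L κ) (hH : L.In H) : ∀ g ∈ flatG κ.D J H W, g ∈ L.O := by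
  rintro _ ⟨p, hp, l, -, -, rfl⟩
  exact pow_mem (Loc.ders_mem (by simpa using fun a _ => hκ.D_log a) (hH p hp)) _

theorem lp_eqv_fact {W w : ℕ} (hd : 𝒟 ⊆ L.log ∅) (hf : f ∈ L.O) (h0 : 0 < w) (hW : w ≤ W) :
    Eqv L 𝒟 {(f, w)} {(f ^ (W.factorial / w), W.factorial)} := by
  have h1 := Nat.dvd_factorial h0 hW
  have := eqv_pow (w := w) hd hf
    (Nat.div_pos (Nat.le_of_dvd W.factorial_pos h1) h0).ne'
  rwa [Nat.mul_div_cancel' h1] at this

theorem lp_le_flatG {W : ℕ} (ht : Tr L κ Y σ Z J) (hH : L.In H) (hW : ∀ p ∈ H, p.2 ≤ W) :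
    Le L (L.lg Y) H (wt (flatG κ.D J H W) W.factorial) := by
  refine le_of_forall ?_
  rintro ⟨_, _⟩ ⟨⟨p, hp, l, h1, h2, rfl⟩, rfl⟩
  have h3 := le_ders (L := L) (𝒟 := L.lg Y) (l := l.map κ.D) (f := p.1) (w := p.2)
    (by simpa using fun j hj => ht.D_lg (h1 j hj)) hp
  rw [List.length_map] at h3
  have := hW p hp
  exact h3.trans (lp_eqv_fact Loc.log_sub_empty (Loc.ders_mem
    (by simpa using fun a _ => ht.adp.crd.D_log a) (hH p hp)) (by omega) (by omega)).1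

theorem flatG_eqv {W : ℕ} (ht : Tr L κ Y σ Z J) (hH : L.In H) (hW : ∀ p ∈ H, p.2 ≤ W) :
    Eqv L (L.lg Y) (wt Z 1 ∪ H) (wt Z 1 ∪ wt (flatG κ.D J H W) W.factorial) := by
  refine ⟨Le.refl.union_union (lp_le_flatG ht hH hW), Le.refl.union_union (le_of_forall ?_)⟩
  rintro ⟨f, w⟩ hp
  rcases Nat.eq_zero_or_pos w with rfl | h0
  · exact fun v _ _ => lp_sat_zero
  · refine Le.trans (le_of_subset ?_) (lp_eqv_fact Loc.log_sub_empty (hH _ hp) h0 (hW _ hp)).2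
    rintro _ rfl
    exact ⟨⟨_, hp, [], by simp, h0, rfl⟩, rfl⟩

theorem flatG_flat {W : ℕ} (ht : Tr L κ Y σ Z J) (hH : L.In H) (hW : ∀ p ∈ H, p.2 ≤ W) :
    Flat L (L.lg Y) Z (wt (flatG κ.D J H W) W.factorial) := by
  intro v hv _ hs
  refine lp_le_flatG ht hH hW v hv (sat_of_normal ht hv hH fun p hp l hl => ?_)
  rcases Nat.eq_zero_or_pos (p.2 - l.length) with h0 | h0
  · rw [h0]; exact lp_sat_zero
  · have := hW p hp
    refine (lp_eqv_fact (W := W) (fun δ hδ => Loc.log_sub_empty hδ.1) (Loc.ders_mem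
      (by simpa using fun a _ => ht.adp.crd.D_log a) (hH p hp)) h0 (by omega)).2 v hv
      (hs.subset ?_)
    rintro _ rfl
    exact ⟨⟨p, hp, l, hl, by omega, rfl⟩, rfl⟩


end Pool.Agent.MP_696f7f_ag.H96
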