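import Pool.Agent.MP_696f7f_ag.H96.LBasic

/-! Semivaluations and marked sets: elementary facts. -/

namespace Pool.Agent.MP_696f7f_ag.H96

open scoped ENNReal

set_option linter.unusedSectionVars false

variable {K : Type} [Field K] [Algebra ℝ K] {n : ℕ}

namespace IsSV

variable {L L' : Loc K} {v : K → ℝ≥0∞} {f g a : K} {Y : Set K} {t : ℝ≥0∞}

theorem unit (hv : IsSV L v) (ha : a ∈ L.O) (h0 : L.ev a ≠ 0) : v a = 0 := by
  have h1 := hv.mul a ha a⁻¹ (L.inv_mem a ha h0)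
  rw [mul_inv_cancel₀ (Loc.ne_zero_of_ev h0), hv.one] at h1
  exact (add_eq_zero.1 h1.symm).1
theorem neg (hv : IsSV L v) (hf : f ∈ L.O) : v (-f) = v f := by
  have hm : (-1 : K) ∈ L.O := neg_mem (one_mem _)
  have h0 : L.ev (-1) ≠ 0 := by
    rw [Loc.ev_neg (one_mem _), Loc.ev_one]; norm_num
  have h1 := hv.mul (-1) hm f hf
  rw [hv.unit hm h0, zero_add, neg_one_mul] at h1
  exact h1
theorem le_mul (hv : IsSV L v) (ha : a ∈ L.O) (hf : f ∈ L.O) : v f ≤ v (a * f) := by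
  rw [hv.mul a ha f hf]
  exact le_add_self
theorem sub (hv : IsSV L v) (hf : f ∈ L.O) (hg : g ∈ L.O) : min (v f) (v g) ≤ v (f - g) := by
  have h1 := hv.add f hf (-g) (neg_mem hg)
  rwa [hv.neg hg, ← sub_eq_add_neg] at h1
theorem smul (hv : IsSV L v) (hf : f ∈ L.O) {r : ℝ} (hr : r ≠ 0) : v (r • f) = v f := by
  have hm : algebraMap ℝ K r ∈ L.O := L.O.algebraMap_mem r
  rw [Algebra.smul_def, hv.mul _ hm f hf, hv.unit hm (by rw [L.ev_alg]; exact hr), zero_add]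
theorem natCast_mul (hv : IsSV L v) (hf : f ∈ L.O) {k : ℕ} (hk : k ≠ 0) :
    v ((k : K) * f) = v f := by
  have h1 : (k : K) * f = (k : ℝ) • f := by
    rw [Algebra.smul_def, map_natCast]
  rw [h1, hv.smul hf (Nat.cast_ne_zero.2 hk)]
theorem sum (hv : IsSV L v) {ι : Type*} (u : Finset ι) (F : ι → K) (h : ∀ i ∈ u, F i ∈ L.O)
    (ht : ∀ i ∈ u, t ≤ v (F i)) : t ≤ v (∑ i ∈ u, F i) := by
  classical
  induction u using Finset.induction_on with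
  | empty => rw [Finset.sum_empty, hv.zero]; exact le_top
  | insert i u hi ih =>
    rw [Finset.sum_insert hi]
    have hu : ∀ j ∈ u, F j ∈ L.O := fun j hj => h j (Finset.mem_insert_of_mem hj)
    refine le_trans (le_min (ht i (Finset.mem_insert_self _ _))
      (ih hu fun j hj => ht j (Finset.mem_insert_of_mem hj))) ?_
    exact hv.add _ (h i (Finset.mem_insert_self _ _)) _ (sum_mem hu)
theorem pow (hv : IsSV L v) (hf : f ∈ L.O) (k : ℕ) : v (f ^ k) = k * v f := by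
  induction k with
  | zero => rw [pow_zero, hv.one, Nat.cast_zero, zero_mul]
  | succ k ih =>
    rw [pow_succ, hv.mul _ (pow_mem hf k) f hf, ih, Nat.cast_succ, add_mul, one_mul]
theorem prod (hv : IsSV L v) {ι : Type*} (u : Finset ι) (F : ι → K) (h : ∀ i ∈ u, F i ∈ L.O) :
    v (∏ i ∈ u, F i) = ∑ i ∈ u, v (F i) := by
  classical
  induction u using Finset.induction_on with
  | empty => rw [Finset.prod_empty, Finset.sum_empty, hv.one]
  | insert i u hi ih =>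
    have hu : ∀ j ∈ u, F j ∈ L.O := fun j hj => h j (Finset.mem_insert_of_mem hj)
    rw [Finset.prod_insert hi, Finset.sum_insert hi,
      hv.mul _ (h i (Finset.mem_insert_self _ _)) _ (prod_mem hu), ih hu]
theorem span (hv : IsSV L v) (hY : ∀ y ∈ Y, y ∈ L.O) (ht : ∀ y ∈ Y, t ≤ v y)
    (hf : f ∈ L.span Y) : t ≤ v f := by
  have hO : ∀ x ∈ L.span Y, x ∈ L.O := fun x hx => Loc.mem_O_of_le (Loc.span_le_one hY) hx
  refine Loc.span_induction (p := fun x => t ≤ v x) hf ht ?_ ?_ ?_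
  · rw [hv.zero]; exact le_top
  · intro x y hx hy h1 h2
    exact le_trans (le_min h1 h2) (hv.add x (hO x hx) y (hO y hy))
  · intro b hb x hx h1
    exact le_trans h1 (hv.le_mul hb (hO x hx))
theorem pow_sub (hv : IsSV L v) {I : Submodule L.O K} (hI : I ≤ 1) (ht : ∀ y ∈ I, t ≤ v y)
    {k : ℕ} (hf : f ∈ I ^ k) : k * t ≤ v f := by
  induction k generalizing f with
  | zero => rw [Nat.cast_zero, zero_mul]; exact zero_le
  | succ k ih =>
    rw [pow_succ] at hf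
    have key : f ∈ L.O ∧ ((k + 1 : ℕ) : ℝ≥0∞) * t ≤ v f := by
      refine Submodule.mul_induction_on (C := fun x => x ∈ L.O ∧ ((k + 1 : ℕ) : ℝ≥0∞) * t ≤ v x)
        hf ?_ ?_
      · intro x hx y hy
        have hxO := Loc.mem_O_of_le (Loc.pow_le_one hI k) hx
        have hyO := Loc.mem_O_of_le hI hy
        refine ⟨mul_mem hxO hyO, ?_⟩
        rw [hv.mul x hxO y hyO, Nat.cast_succ, add_mul, one_mul]
        exact add_le_add (ih hx) (ht y hy)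
      · intro x y hx hy
        exact ⟨add_mem hx.1 hy.1, le_trans (le_min hx.2 hy.2) (hv.add x hx.1 y hy.1)⟩
    exact key.2
theorem sup (hv : IsSV L v) {I N : Submodule L.O K} (hI : I ≤ 1) (hN : N ≤ 1)
    (ht : ∀ y ∈ I, t ≤ v y) (ht' : ∀ y ∈ N, t ≤ v y) (hf : f ∈ I ⊔ N) : t ≤ v f := by
  obtain ⟨x, hx, y, hy, rfl⟩ := Submodule.mem_sup.1 hf
  exact le_trans (le_min (ht x hx) (ht' y hy))
    (hv.add x (Loc.mem_O_of_le hI hx) y (Loc.mem_O_of_le hN hy))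
private theorem min_le_aux (hv : IsSV L v) (hf : f ∈ L.O) (hg : g ∈ L.O) (h : t ≤ v (f - g)) :
    min (v g) t ≤ v f := by
  have h1 := hv.add g hg (f - g) (sub_mem hf hg)
  rw [add_sub_cancel] at h1
  exact le_trans (min_le_min le_rfl h) h1
private theorem sub_comm' (hv : IsSV L v) (hf : f ∈ L.O) (hg : g ∈ L.O) :
    v (g - f) = v (f - g) := by
  rw [← neg_sub f g, hv.neg (sub_mem hf hg)]
theorem eq_of_top (hv : IsSV L v) (hf : f ∈ L.O) (hg : g ∈ L.O) (h : v (f - g) = ⊤) :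
    v f = v g := by
  have h1 := min_le_aux (t := ⊤) hv hf hg h.ge
  have h2 := min_le_aux (t := ⊤) hv hg hf (by rw [sub_comm' hv hf hg]; exact h.ge)
  rw [min_eq_left le_top] at h1 h2
  exact le_antisymm h2 h1
theorem add_eq_of_lt (hv : IsSV L v) (hf : f ∈ L.O) (hg : g ∈ L.O) (h : v f < v g) :
    v (f + g) = v f := by
  have h1 := hv.add f hf g hg
  rw [min_eq_left h.le] at h1
  refine le_antisymm ?_ h1
  have h2 := hv.sub (add_mem hf hg) hg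
  rw [add_sub_cancel_right] at h2
  by_contra hc
  exact absurd h2 (not_le.2 (lt_min (not_le.1 hc) h))
theorem min_eq (hv : IsSV L v) (hf : f ∈ L.O) (hg : g ∈ L.O) (h : t ≤ v (f - g)) :
    min (v f) t = min (v g) t := by
  have h1 := min_le_aux hv hf hg h
  have h2 := min_le_aux (t := t) hv hg hf (by rw [sub_comm' hv hf hg]; exact h)
  exact le_antisymm (le_min h2 (min_le_right _ _)) (le_min h1 (min_le_right _ _))
theorem eq_of_span_eq (hv : IsSV L v) (hf : f ∈ L.O) (h : L.span {f} = L.span {g}) :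
    v f = v g := by
  obtain ⟨u, hu, h0, rfl⟩ := Loc.span_singleton_eq_iff.1 h
  rw [hv.mul u hu f hf, hv.unit hu h0, zero_add]
theorem restrict (hv : IsSV L' v) (hle : L.O ≤ L'.O) : IsSV L v :=
  ⟨fun f hf g hg => hv.mul f (hle hf) g (hle hg), fun f hf g hg => hv.add f (hle hf) g (hle hg),
    hv.zero, hv.one⟩
theorem const_mul (hv : IsSV L v) (h0 : t ≠ 0) (ht : t ≠ ⊤) : IsSV L (fun f => t * v f) := by
  have _ := ht
  refine ⟨fun f hf g hg => ?_, fun f hf g hg => ?_, ?_, ?_⟩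
  · show t * v (f * g) = t * v f + t * v g
    rw [hv.mul f hf g hg, mul_add]
  · show min (t * v f) (t * v g) ≤ t * v (f + g)
    have h1 := hv.add f hf g hg
    rcases le_total (v f) (v g) with h | h
    · rw [min_eq_left h] at h1
      exact le_trans (min_le_left _ _) (mul_le_mul_right h1 t)
    · rw [min_eq_right h] at h1
      exact le_trans (min_le_right _ _) (mul_le_mul_right h1 t)
  · show t * v 0 = ⊤
    rw [hv.zero, ENNReal.mul_top h0]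
  · show t * v 1 = 0
    rw [hv.one, mul_zero]
theorem div_const (hv : IsSV L v) (h0 : t ≠ 0) (ht : t ≠ ⊤) : IsSV L (fun f => v f / t) := by
  have h1 := hv.const_mul (t := t⁻¹) (ENNReal.inv_ne_zero.2 ht) (ENNReal.inv_ne_top.2 h0)
  have h2 : (fun f => v f / t) = fun f => t⁻¹ * v f := by
    funext f
    rw [div_eq_mul_inv, mul_comm]
  rw [h2]
  exact h1

end IsSV

variable {L L' : Loc K} {v : K → ℝ≥0∞} {𝒟 𝒟' : Set (Der K)} {S S' T T' U : Set (K × ℕ)}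
  {Z Z' G C E : Set K} {s f : K} {w d : ℕ}

theorem sat_union : Sat 𝒟 (S ∪ T) v ↔ Sat 𝒟 S v ∧ Sat 𝒟 T v :=
  ⟨fun h => ⟨fun p hp => h p (Or.inl hp), fun p hp => h p (Or.inr hp)⟩,
    fun h p hp => hp.elim (h.1 p) (h.2 p)⟩
theorem Sat.mono (h : Sat 𝒟 S v) (hd : 𝒟' ⊆ 𝒟) : Sat 𝒟' S v :=
  fun p hp l hl => h p hp l fun δ hδ => hd (hl δ hδ)
theorem Sat.subset (h : Sat 𝒟 S v) (hs : T ⊆ S) : Sat 𝒟 T v := fun p hp => h p (hs hp)
theorem Sat.zero (h : Sat 𝒟 S v) {p : K × ℕ} (hp : p ∈ S) : (p.2 : ℝ≥0∞) ≤ v p.1 := by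
  have h1 := h p hp [] (fun δ hδ => absurd hδ List.not_mem_nil)
  simpa using h1
theorem Sat.of_le {v' : K → ℝ≥0∞} (h : Sat 𝒟 S v) (hd : 𝒟 ⊆ L.log ∅) (hS : L.In S)
    (hle : ∀ f ∈ L.O, v f ≤ v' f) : Sat 𝒟 S v' := fun p hp l hl =>
  le_trans (h p hp l hl)
    (add_le_add (hle _ (Loc.ders_mem (fun δ hδ => hd (hl δ hδ)) (hS p hp))) le_rfl)
theorem sat_wt_one : Sat 𝒟 (wt Z 1) v ↔ ∀ z ∈ Z, 1 ≤ v z := by
  refine ⟨fun h z hz => ?_, fun h p hp l _ => ?_⟩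
  · have h1 := h.zero (p := (z, 1)) ⟨hz, rfl⟩
    simpa using h1
  · rw [hp.2, Nat.cast_one]
    cases l with
    | nil => simpa using h p.1 hp.1
    | cons δ l =>
      refine le_trans ?_ le_add_self
      rw [List.length_cons, Nat.cast_succ]
      exact le_add_self
theorem sat_iff_singleton : Sat 𝒟 S v ↔ ∀ p ∈ S, Sat 𝒟 {p} v :=
  ⟨fun h _ hp => h.subset (Set.singleton_subset_iff.2 hp), fun h p hp => h p hp p rfl⟩
theorem Le.refl : Le L 𝒟 S S := fun _ _ h => h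
theorem Le.trans (h : Le L 𝒟 S T) (h' : Le L 𝒟 T U) : Le L 𝒟 S U :=
  fun v hv hs => h' v hv (h v hv hs)
theorem Le.union (h : Le L 𝒟 S T) (h' : Le L 𝒟 S T') : Le L 𝒟 S (T ∪ T') :=
  fun v hv hs => sat_union.2 ⟨h v hv hs, h' v hv hs⟩
theorem le_of_subset (h : T ⊆ S) : Le L 𝒟 S T := fun _ _ hs => hs.subset h
theorem le_of_forall (h : ∀ p ∈ T, Le L 𝒟 S {p}) : Le L 𝒟 S T :=
  fun v hv hs => sat_iff_singleton.2 fun p hp => h p hp v hv hs
theorem Le.union_union (h : Le L 𝒟 S T) (h' : Le L 𝒟 S' T') : Le L 𝒟 (S ∪ S') (T ∪ T') :=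
  fun v hv hs => sat_union.2 ⟨h v hv (sat_union.1 hs).1, h' v hv (sat_union.1 hs).2⟩
theorem Eqv.refl : Eqv L 𝒟 S S := ⟨Le.refl, Le.refl⟩
theorem Eqv.symm (h : Eqv L 𝒟 S T) : Eqv L 𝒟 T S := ⟨h.2, h.1⟩
theorem Eqv.trans (h : Eqv L 𝒟 S T) (h' : Eqv L 𝒟 T U) : Eqv L 𝒟 S U :=
  ⟨h.1.trans h'.1, h'.2.trans h.2⟩
theorem Eqv.union (h : Eqv L 𝒟 S T) (h' : Eqv L 𝒟 S' T') : Eqv L 𝒟 (S ∪ S') (T ∪ T') :=
  ⟨h.1.union_union h'.1, h.2.union_union h'.2⟩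
theorem eqv_union_of_le (h : Le L 𝒟 S T) : Eqv L 𝒟 S (S ∪ T) :=
  ⟨Le.refl.union h, le_of_subset Set.subset_union_left⟩
theorem le_of_span (hd : 𝒟 ⊆ L.log ∅) (hS : L.In S)
    (h : ∀ p ∈ S', p.1 ∈ L.span {f | ∃ w, p.2 ≤ w ∧ (f, w) ∈ S}) : Le L 𝒟 S S' := by
  intro v hv hs p hp
  have hY : ∀ y ∈ {f | ∃ w, p.2 ≤ w ∧ (f, w) ∈ S}, y ∈ L.O := by
    rintro y ⟨w, _, hw⟩
    exact hS _ hw
  have hO : ∀ x ∈ L.span {f | ∃ w, p.2 ≤ w ∧ (f, w) ∈ S}, x ∈ L.O :=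
    fun x hx => Loc.mem_O_of_le (Loc.span_le_one hY) hx
  refine Loc.span_induction (p := fun x => ∀ l : List (Der K), (∀ δ ∈ l, δ ∈ 𝒟) →
    (p.2 : ℝ≥0∞) ≤ v (ders l x) + l.length) (h p hp) ?_ ?_ ?_ ?_
  · rintro x ⟨w, hw, hx⟩ l hl
    exact le_trans (Nat.cast_le.2 hw) (hs _ hx l hl)
  · intro l _
    rw [ders_zero, hv.zero, top_add]
    exact le_top
  · intro x y hx hy h1 h2 l hl
    have hl' : ∀ δ ∈ l, δ ∈ L.log ∅ := fun δ hδ => hd (hl δ hδ)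
    rw [ders_add, ← tsub_le_iff_right]
    exact le_trans (le_min (tsub_le_iff_right.2 (h1 l hl)) (tsub_le_iff_right.2 (h2 l hl)))
      (hv.add _ (Loc.ders_mem hl' (hO x hx)) _ (Loc.ders_mem hl' (hO y hy)))
  · intro a ha x hx h1 l hl
    have hl' : ∀ δ ∈ l, δ ∈ L.log ∅ := fun δ hδ => hd (hl δ hδ)
    rw [← tsub_le_iff_right]
    refine hv.span ?_ ?_ (Loc.ders_mul_mem hl' ha x)
    · rintro y ⟨l', hs', rfl⟩
      exact Loc.ders_mem (fun δ hδ => hl' δ (hs'.subset hδ)) (hO x hx)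
    · rintro y ⟨l', hs', rfl⟩
      rw [tsub_le_iff_right]
      exact le_trans (h1 l' fun δ hδ => hl δ (hs'.subset hδ))
        (add_le_add le_rfl (Nat.cast_le.2 hs'.length_le))
private theorem le_wt_aux (hd : 𝒟 ⊆ L.log ∅) (hZ : ∀ z ∈ Z, z ∈ L.O)
    (h : L.span Z' ≤ L.span Z) : Le L 𝒟 (wt Z w) (wt Z' w) := by
  refine le_of_span hd (fun p hp => hZ _ hp.1) fun p hp => ?_
  refine Loc.span_mono ?_ (h (Loc.subset_span hp.1))
  intro z hz
  exact ⟨w, hp.2.le, hz, rfl⟩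
theorem eqv_wt_of_span_eq (hd : 𝒟 ⊆ L.log ∅) (hZ : ∀ z ∈ Z, z ∈ L.O)
    (h : L.span Z = L.span Z') : Eqv L 𝒟 (wt Z w) (wt Z' w) := by
  have hZ' : ∀ z ∈ Z', z ∈ L.O := fun z hz =>
    Loc.mem_O_of_le (Loc.span_le_one hZ) (h ▸ Loc.subset_span hz)
  exact ⟨le_wt_aux hd hZ h.ge, le_wt_aux hd hZ' h.le⟩
theorem le_ders {l : List (Der K)} (hl : ∀ δ ∈ l, δ ∈ 𝒟) (hf : (f, w) ∈ S) :
    Le L 𝒟 S {(ders l f, w - l.length)} := by
  intro v _ hs p hp l' hl'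
  rw [Set.mem_singleton_iff] at hp
  subst hp
  have h1 := hs _ hf (l' ++ l) fun δ hδ => (List.mem_append.1 hδ).elim (hl' δ) (hl δ)
  rw [ders_append, List.length_append, Nat.cast_add, ← add_assoc] at h1
  show ((w - l.length : ℕ) : ℝ≥0∞) ≤ v (ders l' (ders l f)) + l'.length
  rw [ENNReal.natCast_sub, tsub_le_iff_right]
  exact h1
theorem Flat.congr (h : Flat L 𝒟 Z S) (hZ : ∀ z ∈ Z, z ∈ L.O) (hZZ : L.span Z = L.span Z')
    (h1 : Le L (𝒟 ∩ L.log {Z}) S' S) (h2 : Le L 𝒟 S S') : Flat L 𝒟 Z' S' := by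
  intro v hv ht hs
  have hZ' : ∀ z ∈ Z', z ∈ L.O := fun z hz =>
    Loc.mem_O_of_le (Loc.span_le_one hZ) (hZZ ▸ Loc.subset_span hz)
  have hlog : L.log {Z} ⊆ L.log {Z'} := by
    refine Loc.log_congr fun Y' hY' => Or.inr ⟨Z, rfl, ?_⟩
    rw [Set.mem_singleton_iff.1 hY']
    exact hZZ
  refine h2 v hv (h v hv (fun z hz => ?_)
    (h1 v hv (hs.mono (Set.inter_subset_inter_right _ hlog))))
  exact top_le_iff.1 (hv.span hZ' (fun y hy => (ht y hy).ge) (hZZ ▸ Loc.subset_span hz))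
theorem Flat.union (h : Flat L 𝒟 Z S) (h' : Flat L 𝒟 Z T) : Flat L 𝒟 Z (S ∪ T) :=
  fun v hv ht hs => sat_union.2 ⟨h v hv ht (sat_union.1 hs).1, h' v hv ht (sat_union.1 hs).2⟩

theorem mem_wt {p : K × ℕ} : p ∈ wt Z w ↔ p.1 ∈ Z ∧ p.2 = w := Iff.rfl
theorem wt_union : wt (Z ∪ Z') w = wt Z w ∪ wt Z' w := by
  ext p
  simp only [mem_wt, Set.mem_union, or_and_right]
theorem wt_empty : wt (∅ : Set K) w = ∅ := by
  ext p
  simp only [mem_wt, Set.mem_empty_iff_false, false_and]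
theorem wt_finite (h : Z.Finite) : (wt Z w).Finite := by
  refine (h.image fun z => (z, w)).subset ?_
  rintro ⟨z, w'⟩ ⟨hz, hw⟩
  exact ⟨z, hz, Prod.ext rfl hw.symm⟩
theorem in_union : L.In (S ∪ T) ↔ L.In S ∧ L.In T :=
  ⟨fun h => ⟨fun p hp => h p (Or.inl hp), fun p hp => h p (Or.inr hp)⟩,
    fun h p hp => hp.elim (h.1 p) (h.2 p)⟩
theorem in_wt : L.In (wt Z w) ↔ ∀ z ∈ Z, z ∈ L.O :=
  ⟨fun h z hz => h (z, w) ⟨hz, rfl⟩, fun h _ hp => h _ hp.1⟩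
theorem cos_union : L.Cos (S ∪ T) ↔ L.Cos S ∧ L.Cos T :=
  ⟨fun h => ⟨fun p hp => h p (Or.inl hp), fun p hp => h p (Or.inr hp)⟩,
    fun h p hp => hp.elim (h.1 p) (h.2 p)⟩
theorem cos_wt : L.Cos (wt Z w) ↔ ∀ z ∈ Z, z ∈ L.m ^ w :=
  ⟨fun h z hz => h (z, w) ⟨hz, rfl⟩, fun h p hp => by rw [hp.2]; exact h _ hp.1⟩
theorem cos_wt_one : L.Cos (wt Z 1) ↔ ∀ z ∈ Z, z ∈ L.m := by
  rw [cos_wt, pow_one]
theorem ord_union : L.Ord C (S ∪ T) ↔ L.Ord C S ∧ L.Ord C T :=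
  ⟨fun h => ⟨fun p hp => h p (Or.inl hp), fun p hp => h p (Or.inr hp)⟩,
    fun h p hp => hp.elim (h.1 p) (h.2 p)⟩
theorem ord_wt : L.Ord C (wt Z w) ↔ ∀ z ∈ Z, z ∈ L.span C ^ w :=
  ⟨fun h z hz => h (z, w) ⟨hz, rfl⟩, fun h p hp => by rw [hp.2]; exact h _ hp.1⟩
theorem ord_wt_one : L.Ord C (wt Z 1) ↔ ∀ z ∈ Z, z ∈ L.span C := by
  rw [ord_wt, pow_one]
theorem Loc.Ord.subset (h : L.Ord C S) (hs : T ⊆ S) : L.Ord C T := fun p hp => h p (hs hp)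
theorem Loc.Cos.subset (h : L.Cos S) (hs : T ⊆ S) : L.Cos T := fun p hp => h p (hs hp)
theorem Loc.In.subset (h : L.In S) (hs : T ⊆ S) : L.In T := fun p hp => h p (hs hp)
theorem Loc.Cos.mem (h : L.Cos S) : L.In S :=
  fun p hp => Loc.mem_O_of_le (Loc.pow_le_one Loc.m_le_one _) (h p hp)
theorem Loc.Ord.cos (h : L.Ord C S) (hC : L.span C ≤ L.m) : L.Cos S :=
  fun p hp => Loc.pow_mono hC _ (h p hp)
theorem Loc.In.ord (h : L.In S) (hC : L.span C = 1) : L.Ord C S := by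
  intro p hp
  rw [hC, one_pow]
  exact Loc.mem_one.2 (h p hp)
theorem Loc.Ord.congr {C' : Set K} (h : L.Ord C S) (hC : L.span C = L.span C') : L.Ord C' S := by
  intro p hp
  rw [← hC]
  exact h p hp
theorem Bdd.subset (h : Bdd S) (hs : T ⊆ S) : Bdd T := by
  obtain ⟨W, hW⟩ := h
  exact ⟨W, fun p hp => hW p (hs hp)⟩
theorem bdd_union : Bdd (S ∪ T) ↔ Bdd S ∧ Bdd T := by
  refine ⟨fun h => ⟨h.subset Set.subset_union_left, h.subset Set.subset_union_right⟩, ?_⟩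
  rintro ⟨⟨W, hW⟩, ⟨W', hW'⟩⟩
  exact ⟨max W W', fun p hp => hp.elim (fun h => le_trans (hW p h) (le_max_left _ _))
    fun h => le_trans (hW' p h) (le_max_right _ _)⟩
theorem bdd_wt : Bdd (wt Z w) := ⟨w, fun _ hp => hp.2.le⟩
theorem bdd_of_finite (h : S.Finite) : Bdd S := by
  obtain ⟨W, hW⟩ := (h.image Prod.snd).bddAbove
  exact ⟨W, fun p hp => hW ⟨p, hp, rfl⟩⟩
theorem Bdd.dv (h : Bdd S) : Bdd (dv s S) := by
  obtain ⟨W, hW⟩ := h
  refine ⟨W, ?_⟩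
  rintro _ ⟨p, hp, rfl⟩
  exact hW p hp
theorem dv_wt : dv s (wt G d) = wt (dvs (s ^ d) G) d := by
  ext q
  constructor
  · rintro ⟨p, hp, rfl⟩
    refine ⟨⟨p.1, hp.1, ?_⟩, hp.2⟩
    show p.1 / s ^ d = p.1 / s ^ p.2
    rw [hp.2]
  · rintro ⟨⟨g, hg, h1⟩, h2⟩
    exact ⟨(g, d), ⟨hg, rfl⟩, Prod.ext h1 h2.symm⟩
theorem dv_wt_one : dv s (wt Z 1) = wt (dvs s Z) 1 := by
  rw [dv_wt, pow_one]
theorem dv_union : dv s (S ∪ T) = dv s S ∪ dv s T := Set.image_union _ _ _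
theorem dv_mono (h : S ⊆ T) : dv s S ⊆ dv s T := Set.image_mono h
theorem trS_union : trS L E (S ∪ T) = trS L E S ∪ trS L E T := by
  ext p
  constructor
  · rintro ⟨s, hs, hp⟩
    rw [dv_union] at hp
    exact hp.elim (fun h => Or.inl ⟨s, hs, h⟩) fun h => Or.inr ⟨s, hs, h⟩
  · rintro (⟨s, hs, hp⟩ | ⟨s, hs, hp⟩)
    · exact ⟨s, hs, dv_mono Set.subset_union_left hp⟩
    · exact ⟨s, hs, dv_mono Set.subset_union_right hp⟩
theorem trS_mono (h : S ⊆ T) : trS L E S ⊆ trS L E T := by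
  rintro p ⟨s, hs, hp⟩
  exact ⟨s, hs, dv_mono h hp⟩
theorem dv_subset_trS (hs : L.span {s} = L.span E) : dv s S ⊆ trS L E S :=
  fun _ hp => ⟨s, hs, hp⟩
theorem trS_weight (W : ℕ) (h : ∀ p ∈ S, p.2 ≤ W) : ∀ p ∈ trS L E S, p.2 ≤ W := by
  rintro _ ⟨s, _, q, hq, rfl⟩
  exact h q hq
theorem in_dv (hle : L.O ≤ L'.O) (hs : s ≠ 0) (hgen : L'.span C = L'.span {s}) (h : L.Ord C S) :
    L'.In (dv s S) := by
  rintro _ ⟨p, hp, rfl⟩
  have h1 := Loc.span_pow_lift hle (h p hp)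
  rw [hgen, Loc.span_singleton_pow] at h1
  obtain ⟨a, ha, h2⟩ := Loc.mem_span_singleton.1 h1
  show p.1 / s ^ p.2 ∈ L'.O
  rw [h2, mul_div_cancel_right₀ _ (pow_ne_zero _ hs)]
  exact ha
/-- every member of the transform is a multiple of a member of the quotient by `s` -/
private theorem trS_aux (hs : L.span {s} = L.span E) {p : K × ℕ} (hp : p ∈ trS L E S) :
    ∃ a ∈ L.O, ∃ g, (g, p.2) ∈ dv s S ∧ p.1 = a * g := by
  obtain ⟨s', hs', q, hq, rfl⟩ := hp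
  obtain ⟨u, hu, h0, rfl⟩ := Loc.span_singleton_eq_iff.1 (hs.trans hs'.symm)
  refine ⟨u⁻¹ ^ q.2, pow_mem (L.inv_mem u hu h0) _, q.1 / s ^ q.2, ⟨q, hq, rfl⟩, ?_⟩
  show q.1 / (u * s) ^ q.2 = u⁻¹ ^ q.2 * (q.1 / s ^ q.2)
  rw [mul_pow, inv_pow, div_eq_mul_inv, div_eq_mul_inv, mul_inv]
  ring
theorem in_trS (hs : L.span {s} = L.span E) (h : L.In (dv s S)) : L.In (trS L E S) := by
  intro p hp
  obtain ⟨a, ha, g, hg, h1⟩ := trS_aux hs hp
  rw [h1]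
  exact mul_mem ha (h _ hg)
theorem cos_trS (hs : L.span {s} = L.span E) : L.Cos (trS L E S) ↔ L.Cos (dv s S) := by
  refine ⟨fun h => h.subset (dv_subset_trS hs), fun h p hp => ?_⟩
  obtain ⟨a, ha, g, hg, h1⟩ := trS_aux hs hp
  rw [h1]
  exact Loc.mul_mem_left ha (h _ hg)
theorem eqv_trS (hd : 𝒟 ⊆ L.log ∅) (hs : L.span {s} = L.span E) (h : L.In (dv s S)) :
    Eqv L 𝒟 (trS L E S) (dv s S) := by
  refine ⟨le_of_subset (dv_subset_trS hs), le_of_span hd h fun p hp => ?_⟩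
  obtain ⟨a, ha, g, hg, h1⟩ := trS_aux hs hp
  rw [h1]
  exact Loc.mul_mem_left ha (Loc.subset_span ⟨p.2, le_rfl, hg⟩)
/-- the transform of a set of weight one -/
theorem trS_wt_one (hs : L.span {s} = L.span E) :
    ∃ Z', trS L E (wt Z 1) = wt Z' 1 ∧ L.span Z' = L.span (dvs s Z) := by
  refine ⟨{z | (z, 1) ∈ trS L E (wt Z 1)}, ?_, le_antisymm ?_ ?_⟩
  · ext p
    constructor
    · intro hp
      have h1 : p.2 = 1 := by
        obtain ⟨s', _, q, hq, rfl⟩ := hp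
        exact hq.2
      refine ⟨?_, h1⟩
      have h3 : (p.1, 1) = p := Prod.ext rfl h1.symm
      show (p.1, 1) ∈ trS L E (wt Z 1)
      rw [h3]
      exact hp
    · rintro ⟨h1, h2⟩
      have h3 : p = (p.1, 1) := Prod.ext rfl h2
      rw [h3]
      exact h1
  · refine Loc.span_le.2 fun z hz => ?_
    obtain ⟨a, ha, g, hg, h1⟩ := trS_aux hs hz
    rw [dv_wt_one] at hg
    have h2 : z = a * g := h1
    rw [h2]
    exact Loc.mul_mem_left ha (Loc.subset_span hg.1)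
  · refine Loc.span_mono fun z hz => ?_
    refine dv_subset_trS hs ?_
    rw [dv_wt_one]
    exact ⟨hz, rfl⟩
theorem Mon.mem {Y : ℕ → Set K} {k : ℕ} (h : Mon L Y k f) (hY : ∀ i < k, L.span (Y i) ≤ 1) :
    f ∈ L.O := by
  obtain ⟨y, μ, u, hy, hu, _, rfl⟩ := h
  refine mul_mem hu (prod_mem fun i hi => pow_mem ?_ _)
  have hi' := Finset.mem_range.1 hi
  refine Loc.mem_O_of_le (hY i hi') ?_
  rw [← hy i hi']
  exact Loc.subset_span rfl
theorem Mon.one {Y : ℕ → Set K} {k : ℕ} {y : ℕ → K} (h : Gen L Y k y) : Mon L Y k 1 := by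
  refine ⟨y, fun _ => 0, 1, h, one_mem _, by rw [Loc.ev_one]; exact one_ne_zero, ?_⟩
  simp [mon]
/-- a monomial can be written in any system of generators -/
theorem Mon.eq {Y : ℕ → Set K} {k : ℕ} {y : ℕ → K} (h : Mon L Y k f) (hy : Gen L Y k y) :
    ∃ (μ : ℕ → ℕ) (u : K), u ∈ L.O ∧ L.ev u ≠ 0 ∧ f = u * mon k y μ := by
  obtain ⟨y', μ, u, hy', hu, h0, rfl⟩ := h
  have h1 : ∀ i, ∃ c : K, i < k → c ∈ L.O ∧ L.ev c ≠ 0 ∧ y' i = c * y i := by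
    intro i
    by_cases hi : i < k
    · obtain ⟨c, hc, hc0, hc1⟩ := Loc.span_singleton_eq_iff.1 ((hy i hi).trans (hy' i hi).symm)
      exact ⟨c, fun _ => ⟨hc, hc0, hc1⟩⟩
    · exact ⟨0, fun h => absurd h hi⟩
  choose c hc using h1
  have hm : ∀ i ∈ Finset.range k, c i ^ μ i ∈ L.O :=
    fun i hi => pow_mem (hc i (Finset.mem_range.1 hi)).1 _
  refine ⟨μ, u * ∏ i ∈ Finset.range k, c i ^ μ i, mul_mem hu (prod_mem hm), ?_, ?_⟩
  · rw [L.ev_mul u hu _ (prod_mem hm), Loc.ev_prod _ _ hm]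
    refine mul_ne_zero h0 (Finset.prod_ne_zero_iff.2 fun i hi => ?_)
    rw [Loc.ev_pow (hc i (Finset.mem_range.1 hi)).1]
    exact pow_ne_zero _ (hc i (Finset.mem_range.1 hi)).2.1
  · rw [mul_assoc, mon, mon, ← Finset.prod_mul_distrib]
    refine congrArg (u * ·) (Finset.prod_congr rfl fun i hi => ?_)
    rw [(hc i (Finset.mem_range.1 hi)).2.2, mul_pow]
theorem Mon.mul {Y : ℕ → Set K} {k : ℕ} {g : K} (h : Mon L Y k f) (h' : Mon L Y k g) :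
    Mon L Y k (f * g) := by
  obtain ⟨y, μ, u, hy, hu, h0, rfl⟩ := h
  obtain ⟨μ', u', hu', h0', rfl⟩ := h'.eq hy
  refine ⟨y, fun i => μ i + μ' i, u * u', hy, mul_mem hu hu', ?_, ?_⟩
  · rw [L.ev_mul u hu u' hu']
    exact mul_ne_zero h0 h0'
  · have h1 : mon k y (fun i => μ i + μ' i) = mon k y μ * mon k y μ' := by
      rw [mon, mon, mon, ← Finset.prod_mul_distrib]
      exact Finset.prod_congr rfl fun i _ => pow_add _ _ _
    rw [h1]
    ring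
/-- the trivial presentation away from the cosupport -/
theorem presAt_triv {c : ℕ} {Y : ℕ → Set K} (h : ¬ L.Cos S) : PresAt L n c d Y S {1} ∅ := by
  have h1 : ¬ ∀ z ∈ ({1} : Set K), z ∈ L.m := fun h' => Loc.one_notMem_m (h' 1 rfl)
  refine ⟨fun z hz => ?_, fun g hg => absurd hg (Set.notMem_empty g),
    ⟨fun h' => absurd h' h, fun h' => absurd (cos_wt_one.1 (cos_union.1 h').1) h1⟩,
    fun h' => absurd h' h1, fun h' => absurd h' h1, fun h' => absurd h' h⟩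
  rw [Set.mem_singleton_iff.1 hz]
  exact one_mem _

end Pool.Agent.MP_696f7f_ag.H96
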