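import Pool.Agent.MP_696f7f_ag.H96.LChart
import Pool.Agent.MP_696f7f_ag.H96.LSV

/-! The order valuations of a chart. -/

namespace Pool.Agent.MP_696f7f_ag.H96

open scoped ENNReal

variable {K : Type} [Field K] [Algebra ℝ K] {n : ℕ}
variable {L : Loc K} {κ : Chart K n} {f g : K} {J J' Zs : Finset (Fin n)}
  {𝒟 : Set (Der K)} {S S' : Set (K × ℕ)} {C : Set K}

/-- the order along the coordinates `J` after restriction to the subspace `x j = 0, j ∈ Zs` -/
noncomputable def Chart.val (κ : Chart K n) (L : Loc K) (Zs J : Finset (Fin n)) (f : K) : ℝ≥0∞ :=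
  ⨆ (k : ℕ) (_ : f ∈ κ.I L Zs ⊔ κ.I L J ^ k), (k : ℝ≥0∞)

namespace LVal

open MvPolynomial

open Classical in
/-- the Taylor series of an element of the local ring -/
noncomputable def tau (h : IsCrd L κ) (f : K) : MvPowerSeries (Fin n) ℝ := fun α =>
  if hf : f ∈ L.O then coeff α (h.taylor hf (α.degree + 1)).choose else 0

theorem aeval_mem (h : IsCrd L κ) (P : MvPolynomial (Fin n) ℝ) : aeval κ.x P ∈ L.O := by
  induction P using MvPolynomial.induction_on with
  | C a => rw [aeval_C]; exact L.O.algebraMap_mem a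
  | add p q hp hq => rw [map_add]; exact add_mem hp hq
  | mul_X p i hp => rw [map_mul, aeval_X]; exact mul_mem hp (h.x_mem i)

theorem tau_spec (h : IsCrd L κ) (hf : f ∈ L.O) {P : MvPolynomial (Fin n) ℝ} {N : ℕ}
    (hP : f - aeval κ.x P ∈ L.m ^ N) {α : Fin n →₀ ℕ} (hα : α.degree < N) :
    MvPowerSeries.coeff α (tau h f) = coeff α P := by
  have h1 := (h.taylor hf (α.degree + 1)).choose_spec
  have h2 : f - aeval κ.x P ∈ L.m ^ (α.degree + 1) := Loc.pow_anti Loc.m_le_one hα hP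
  have h3 : aeval κ.x ((h.taylor hf (α.degree + 1)).choose - P) ∈ L.m ^ (α.degree + 1) := by
    have := sub_mem h2 h1
    rw [map_sub]
    convert this using 1
    ring
  have h4 := h.coeff_eq_zero h3 α (Nat.lt_succ_self _)
  rw [coeff_sub, sub_eq_zero] at h4
  rw [MvPowerSeries.coeff_apply, tau, dif_pos hf, h4]

theorem tau_aeval (h : IsCrd L κ) (P : MvPolynomial (Fin n) ℝ) :
    tau h (aeval κ.x P) = (P : MvPowerSeries (Fin n) ℝ) := by
  ext α
  rw [tau_spec h (aeval_mem h P) (P := P) (N := α.degree + 1) (by simp) (Nat.lt_succ_self _),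
    coeff_coe]

theorem tau_add (h : IsCrd L κ) (hf : f ∈ L.O) (hg : g ∈ L.O) :
    tau h (f + g) = tau h f + tau h g := by
  ext α
  obtain ⟨P, hP⟩ := h.taylor hf (α.degree + 1)
  obtain ⟨Q, hQ⟩ := h.taylor hg (α.degree + 1)
  have hPQ : f + g - aeval κ.x (P + Q) ∈ L.m ^ (α.degree + 1) := by
    have := add_mem hP hQ
    rw [map_add]
    convert this using 1
    ring
  rw [map_add, tau_spec h (add_mem hf hg) hPQ (Nat.lt_succ_self _),
    tau_spec h hf hP (Nat.lt_succ_self _), tau_spec h hg hQ (Nat.lt_succ_self _), coeff_add]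

theorem tau_mul (h : IsCrd L κ) (hf : f ∈ L.O) (hg : g ∈ L.O) :
    tau h (f * g) = tau h f * tau h g := by
  classical
  ext α
  obtain ⟨P, hP⟩ := h.taylor hf (α.degree + 1)
  obtain ⟨Q, hQ⟩ := h.taylor hg (α.degree + 1)
  have hPQ : f * g - aeval κ.x (P * Q) ∈ L.m ^ (α.degree + 1) := by
    have := add_mem (Loc.mul_mem_right hg hP) (Loc.mul_mem_left (aeval_mem h P) hQ)
    rw [map_mul]
    convert this using 1
    ring
  rw [tau_spec h (mul_mem hf hg) hPQ (Nat.lt_succ_self _), coeff_mul, MvPowerSeries.coeff_mul]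
  refine Finset.sum_congr rfl fun p hp => ?_
  rw [Finset.HasAntidiagonal.mem_antidiagonal] at hp
  have hd : α.degree = p.1.degree + p.2.degree := by rw [← hp, map_add]
  rw [tau_spec h hf hP (by omega), tau_spec h hg hQ (by omega)]

/-- the scaling that kills the variables `Zs` -/
noncomputable def kil (Zs : Finset (Fin n)) : Fin n → ℝ := fun j => if j ∈ Zs then 0 else 1

/-- the weight that counts the variables `J` -/
def wgt (J : Finset (Fin n)) : Fin n → ℕ := fun j => if j ∈ J then 1 else 0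

/-- the order of the restricted Taylor series -/
noncomputable def ord (h : IsCrd L κ) (Zs J : Finset (Fin n)) (f : K) : ℕ∞ :=
  (MvPowerSeries.rescale (kil Zs) (tau h f)).weightedOrder (wgt J)

theorem ord_mul (h : IsCrd L κ) (hf : f ∈ L.O) (hg : g ∈ L.O) :
    ord h Zs J (f * g) = ord h Zs J f + ord h Zs J g := by
  unfold ord
  rw [tau_mul h hf hg, map_mul, MvPowerSeries.weightedOrder_mul]

theorem ord_add (h : IsCrd L κ) (hf : f ∈ L.O) (hg : g ∈ L.O) :
    min (ord h Zs J f) (ord h Zs J g) ≤ ord h Zs J (f + g) := by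
  unfold ord
  rw [tau_add h hf hg, map_add]
  exact MvPowerSeries.min_weightedOrder_le_add _

theorem ord_zero (h : IsCrd L κ) : ord h Zs J 0 = ⊤ := by
  have := tau_aeval h 0
  rw [map_zero] at this
  unfold ord
  rw [this]
  simp

theorem ord_one (h : IsCrd L κ) : ord h Zs J 1 = 0 := by
  have := tau_aeval h 1
  rw [map_one] at this
  unfold ord
  rw [this]
  simp

theorem rescale_X (j : Fin n) :
    MvPowerSeries.rescale (kil Zs) (MvPowerSeries.X j : MvPowerSeries (Fin n) ℝ) =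
      MvPowerSeries.monomial (Finsupp.single j 1) (kil Zs j) := by
  classical
  ext α
  rw [MvPowerSeries.coeff_rescale, MvPowerSeries.coeff_X, MvPowerSeries.coeff_monomial]
  split_ifs with hα
  · rw [hα, Finsupp.prod_single_index (by simp)]
    simp
  · simp

theorem ord_x (h : IsCrd L κ) (j : Fin n) :
    ord h Zs J (κ.x j) = if j ∈ Zs then ⊤ else if j ∈ J then 1 else 0 := by
  have := tau_aeval h (X j)
  rw [aeval_X, coe_X] at this
  unfold ord
  rw [this, rescale_X]
  by_cases hj : j ∈ Zs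
  · simp [kil, hj]
  · rw [MvPowerSeries.weightedOrder_monomial_of_ne_zero _ (by simp [kil, hj]), if_neg hj,
      Finsupp.weight_single]
    unfold wgt
    split_ifs <;> simp

theorem le_ord_span (h : IsCrd L κ) {A : Finset (Fin n)} {t : ℕ∞}
    (ht : ∀ j ∈ A, t ≤ ord h Zs J (κ.x j)) (hf : f ∈ κ.I L A) : t ≤ ord h Zs J f := by
  have hle : κ.I L A ≤ 1 := h.I_le_one
  refine Loc.span_induction (p := fun f => t ≤ ord h Zs J f) hf ?_ ?_ ?_ ?_
  · rintro _ ⟨j, hj, rfl⟩
    exact ht j hj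
  · rw [ord_zero]; exact le_top
  · intro x y hx hy h1 h2
    exact (le_min h1 h2).trans (ord_add h (Loc.mem_O_of_le hle hx) (Loc.mem_O_of_le hle hy))
  · intro a ha x hx h1
    rw [ord_mul h ha (Loc.mem_O_of_le hle hx)]
    exact h1.trans le_add_self

theorem le_ord_pow (h : IsCrd L κ) (k : ℕ) : ∀ f ∈ κ.I L J ^ k, (k : ℕ∞) ≤ ord h Zs J f := by
  have hle : κ.I L J ≤ 1 := h.I_le_one
  induction k with
  | zero => intro f _; simp
  | succ k ih =>
    intro f hf
    rw [pow_succ] at hf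
    have key : f ∈ L.O ∧ ((k + 1 : ℕ) : ℕ∞) ≤ ord h Zs J f := by
      refine Submodule.mul_induction_on hf ?_ ?_
      · intro a ha b hb
        have ha' := Loc.mem_O_of_le (Loc.pow_le_one hle k) ha
        have hb' := Loc.mem_O_of_le hle hb
        refine ⟨mul_mem ha' hb', ?_⟩
        rw [ord_mul h ha' hb', Nat.cast_add, Nat.cast_one]
        refine add_le_add (ih a ha) (le_ord_span h ?_ hb)
        intro j hj
        rw [ord_x, if_pos hj]
        split_ifs
        · exact le_top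
        · exact le_rfl
      · intro x y hx hy
        exact ⟨add_mem hx.1 hy.1, (le_min hx.2 hy.2).trans (ord_add h hx.1 hy.1)⟩
    exact key.2

theorem prod_mem_pow (h : IsCrd L κ) (α : Fin n →₀ ℕ) :
    (α.prod fun i m => κ.x i ^ m) ∈ κ.I L J ^ (Finsupp.weight (wgt J) α) := by
  induction α using Finsupp.induction_linear with
  | zero =>
    rw [Finsupp.prod_zero_index, map_zero, pow_zero]
    exact Loc.mem_one.mpr (one_mem _)
  | add a b ha hb =>
    rw [Finsupp.prod_add_index' (by simp) (by intros; rw [pow_add]), map_add]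
    exact Loc.mul_mem_pow_add ha hb
  | single i m =>
    rw [Finsupp.prod_single_index (by simp), Finsupp.weight_single]
    unfold wgt
    split_ifs with hi
    · rw [smul_eq_mul, mul_one]
      exact Loc.pow_mem_pow (h.x_mem_I.mpr hi) m
    · rw [smul_zero, pow_zero]
      exact Loc.mem_one.mpr (pow_mem (h.x_mem i) m)

theorem wgt_univ (α : Fin n →₀ ℕ) : Finsupp.weight (wgt Finset.univ) α = α.degree := by
  have : wgt (Finset.univ : Finset (Fin n)) = fun _ => 1 := by
    ext j; simp [wgt]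
  rw [this, Finsupp.degree_eq_weight_one]

theorem mem_of_le_ord (h : IsCrd L κ) (hf : f ∈ L.O) {k : ℕ} (hk : (k : ℕ∞) ≤ ord h Zs J f) :
    f ∈ κ.I L Zs ⊔ κ.I L J ^ k := by
  have hle : κ.I L Zs ⊔ κ.I L J ^ k ≤ 1 := sup_le h.I_le_one (Loc.pow_le_one h.I_le_one k)
  refine Loc.krull hle fun N => ?_
  obtain ⟨P, hP⟩ := h.taylor hf N
  have e : f = aeval κ.x P + (f - aeval κ.x P) := by ring
  rw [e]
  refine add_mem ?_ (Submodule.mem_sup_right hP)
  rw [P.as_sum, map_sum]
  refine Submodule.sum_mem _ fun α hα => ?_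
  rw [aeval_monomial]
  refine Loc.mul_mem_left (L.O.algebraMap_mem _) ?_
  by_cases hN : α.degree < N
  · refine Submodule.mem_sup_left ?_
    by_cases hZ : Finsupp.weight (wgt Zs) α = 0
    · refine Submodule.mem_sup_right (Loc.pow_anti h.I_le_one ?_ (prod_mem_pow h α))
      by_contra hlt
      have h1 : ((Finsupp.weight (wgt J) α : ℕ) : ℕ∞) < ord h Zs J f :=
        lt_of_lt_of_le (by exact_mod_cast not_le.mp hlt) hk
      have h2 := MvPowerSeries.coeff_eq_zero_of_lt_weightedOrder _ h1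
      rw [MvPowerSeries.coeff_rescale, tau_spec h hf hP hN, mul_eq_zero] at h2
      rcases h2 with h2 | h2
      · rw [Finsupp.prod, Finset.prod_eq_zero_iff] at h2
        obtain ⟨j, hj, h3⟩ := h2
        have hjZ : j ∈ Zs := by
          by_contra hn
          simp [kil, hn] at h3
        rw [Finsupp.weight_apply, Finsupp.sum, Finset.sum_eq_zero_iff] at hZ
        have := hZ j hj
        simp only [wgt, hjZ, if_true, smul_eq_mul, mul_one] at this
        exact Finsupp.mem_support_iff.mp hj this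
      · exact mem_support_iff.mp hα h2
    · refine Submodule.mem_sup_left ?_
      have := Loc.pow_anti h.I_le_one (Nat.one_le_iff_ne_zero.mpr hZ) (prod_mem_pow (J := Zs) h α)
      rwa [pow_one] at this
  · refine Submodule.mem_sup_right ?_
    have := prod_mem_pow (J := Finset.univ) h α
    rw [wgt_univ, h.I_univ] at this
    exact Loc.pow_anti Loc.m_le_one (not_lt.mp hN) this

theorem le_ord_iff (h : IsCrd L κ) (hf : f ∈ L.O) (k : ℕ) :
    (k : ℕ∞) ≤ ord h Zs J f ↔ f ∈ κ.I L Zs ⊔ κ.I L J ^ k := by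
  refine ⟨mem_of_le_ord h hf, fun hm => ?_⟩
  obtain ⟨a, ha, b, hb, rfl⟩ := Submodule.mem_sup.mp hm
  refine le_trans (le_min ?_ (le_ord_pow h k b hb)) (ord_add h (Loc.mem_O_of_le h.I_le_one ha)
    (Loc.mem_O_of_le (Loc.pow_le_one h.I_le_one k) hb))
  refine le_ord_span h (fun j hj => ?_) ha
  rw [ord_x, if_pos hj]
  exact le_top

theorem val_eq_ord (h : IsCrd L κ) (hf : f ∈ L.O) :
    κ.val L Zs J f = (ord h Zs J f : ℝ≥0∞) := by
  unfold Chart.val
  simp only [← le_ord_iff h hf]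
  generalize ord h Zs J f = a
  induction a using ENat.recTopCoe with
  | top =>
    simp only [le_top, iSup_pos, ENat.toENNReal_top]
    exact ENNReal.iSup_natCast
  | coe m =>
    rw [ENat.toENNReal_coe]
    apply le_antisymm
    · refine iSup₂_le fun k hk => ?_
      exact_mod_cast hk
    · exact le_iSup₂_of_le m le_rfl le_rfl

end LVal

open LVal

theorem le_val_iff (h : IsCrd L κ) (hf : f ∈ L.O) (k : ℕ) :
    (k : ℝ≥0∞) ≤ κ.val L Zs J f ↔ f ∈ κ.I L Zs ⊔ κ.I L J ^ k := by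
  rw [val_eq_ord h hf, ← le_ord_iff h hf, ← ENat.toENNReal_coe, ENat.toENNReal_le]

theorem val_eq_top_iff (h : IsCrd L κ) (hf : f ∈ L.O) :
    κ.val L Zs J f = ⊤ ↔ f ∈ κ.I L Zs := by
  constructor
  · intro ht
    refine Loc.krull h.I_le_one fun k => ?_
    have h1 := (le_val_iff (Zs := Zs) (J := J) h hf k).mp (by rw [ht]; exact le_top)
    exact sup_le_sup_left (Loc.pow_mono h.I_le_m k) _ h1
  · intro hm
    rw [val_eq_ord h hf, ENat.toENNReal_eq_top, ← top_le_iff]
    refine le_ord_span h (fun j hj => ?_) hm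
    rw [ord_x, if_pos hj]

theorem val_eq_zero_iff (h : IsCrd L κ) (hf : f ∈ L.O) :
    κ.val L Zs J f = 0 ↔ f ∉ κ.I L (Zs ∪ J) := by
  rw [Chart.I_union, ← pow_one (κ.I L J), ← le_ord_iff h hf, val_eq_ord h hf,
    ENat.toENNReal_eq_zero, Nat.cast_one, not_le, Order.lt_one_iff]

theorem exists_val_eq (h : IsCrd L κ) (hf : f ∈ L.O) (hn : f ∉ κ.I L Zs) :
    ∃ k : ℕ, κ.val L Zs J f = k := by
  have h1 : ord h Zs J f ≠ ⊤ := by
    intro ht
    apply hn
    rw [← val_eq_top_iff (J := J) h hf, val_eq_ord h hf, ht, ENat.toENNReal_top]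
  obtain ⟨k, hk⟩ := ENat.ne_top_iff_exists.mp h1
  exact ⟨k, by rw [val_eq_ord h hf, ← hk, ENat.toENNReal_coe]⟩

/-- the order function is a semivaluation -/
theorem val_isSV (h : IsCrd L κ) (Zs J : Finset (Fin n)) : IsSV L (κ.val L Zs J) := by
  refine ⟨fun f hf g hg => ?_, fun f hf g hg => ?_, ?_, ?_⟩
  · rw [val_eq_ord h hf, val_eq_ord h hg, val_eq_ord h (mul_mem hf hg), ord_mul h hf hg,
      ENat.toENNReal_add]
  · rw [val_eq_ord h hf, val_eq_ord h hg, val_eq_ord h (add_mem hf hg), ← ENat.toENNReal_min,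
      ENat.toENNReal_le]
    exact ord_add h hf hg
  · rw [val_eq_ord h (zero_mem _), ord_zero, ENat.toENNReal_top]
  · rw [val_eq_ord h (one_mem _), ord_one, ENat.toENNReal_zero]

theorem val_x (h : IsCrd L κ) {j : Fin n} (hj : j ∉ Zs) :
    κ.val L Zs J (κ.x j) = if j ∈ J then 1 else 0 := by
  rw [val_eq_ord h (h.x_mem j), ord_x, if_neg hj]
  split_ifs <;> simp

/-- coordinate ideals are prime -/
theorem IsCrd.prime (h : IsCrd L κ) (hf : f ∈ L.O) (hg : g ∈ L.O) (hfg : f * g ∈ κ.I L J) :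
    f ∈ κ.I L J ∨ g ∈ κ.I L J := by
  rw [← val_eq_top_iff (J := J) h (mul_mem hf hg), (val_isSV h J J).mul f hf g hg,
    ENNReal.add_eq_top, val_eq_top_iff h hf, val_eq_top_iff h hg] at hfg
  exact hfg

theorem IsCrd.prime_prod (h : IsCrd L κ) {ι : Type*} (u : Finset ι) (F : ι → K)
    (hF : ∀ i ∈ u, F i ∈ L.O) (hp : ∏ i ∈ u, F i ∈ κ.I L J) : ∃ i ∈ u, F i ∈ κ.I L J := by
  classical
  induction u using Finset.induction_on with
  | empty =>
    rw [Finset.prod_empty] at hp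
    exact absurd (h.I_le_m hp) Loc.one_notMem_m
  | insert a u ha ih =>
    rw [Finset.prod_insert ha] at hp
    have hu : ∀ i ∈ u, F i ∈ L.O := fun i hi => hF i (Finset.mem_insert_of_mem hi)
    rcases h.prime (hF a (Finset.mem_insert_self a u)) (prod_mem hu) hp with h1 | h1
    · exact ⟨a, Finset.mem_insert_self a u, h1⟩
    · obtain ⟨i, hi, h2⟩ := ih hu h1
      exact ⟨i, Finset.mem_insert_of_mem hi, h2⟩

theorem sat_val (h : IsCrd L κ) (hd : 𝒟 ⊆ L.log {κ.x '' Zs})
    (hS : ∀ p ∈ S, p.1 ∈ κ.I L Zs ⊔ κ.I L J ^ p.2) : Sat 𝒟 S (κ.val L Zs J) := by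
  intro p hp l hl
  obtain ⟨a, ha, b, hb, hab⟩ := Submodule.mem_sup.mp (hS p hp)
  have h1 : ders l a ∈ κ.I L Zs := Loc.ders_span (fun δ hδ => hd (hl δ hδ)) ha
  have h2 : ders l b ∈ κ.I L J ^ (p.2 - l.length) :=
    Loc.ders_pow (fun δ hδ => Loc.log_sub_empty (hd (hl δ hδ))) h.I_le_one hb
  have h3 : ders l p.1 ∈ κ.I L Zs ⊔ κ.I L J ^ (p.2 - l.length) := by
    rw [← hab, ders_add]
    exact add_mem (Submodule.mem_sup_left h1) (Submodule.mem_sup_right h2)
  have h4 : ((p.2 - l.length : ℕ) : ℝ≥0∞) ≤ κ.val L Zs J (ders l p.1) :=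
    le_iSup₂_of_le (f := fun (k : ℕ) (_ : ders l p.1 ∈ κ.I L Zs ⊔ κ.I L J ^ k) => (k : ℝ≥0∞))
      (p.2 - l.length) h3 le_rfl
  calc (p.2 : ℝ≥0∞) ≤ ((p.2 - l.length + l.length : ℕ) : ℝ≥0∞) := by
        exact_mod_cast le_tsub_add
    _ = ((p.2 - l.length : ℕ) : ℝ≥0∞) + l.length := by rw [Nat.cast_add]
    _ ≤ _ := add_le_add h4 le_rfl

theorem ord_of_le (h : IsCrd L κ) (hC : L.span C = κ.I L J) (hd : 𝒟 ⊆ L.log ∅) (hS' : L.In S')
    (hle : Le L 𝒟 S S') (hS : L.Ord C S) : L.Ord C S' := by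
  intro p hp
  have hd' : 𝒟 ⊆ L.log {κ.x '' (∅ : Finset (Fin n))} := fun δ hδ =>
    Loc.mem_log_of_gen (hd hδ) (by simp) (by simp)
  have h1 : Sat 𝒟 S (κ.val L ∅ J) := sat_val h hd' fun q hq => by
    rw [← hC]
    exact Submodule.mem_sup_right (hS q hq)
  have h2 := (hle _ (val_isSV h ∅ J) h1).zero hp
  rw [le_val_iff h (hS' p hp), Chart.I_empty, bot_sup_eq, ← hC] at h2
  exact h2

theorem cos_of_le (h : IsCrd L κ) (hd : 𝒟 ⊆ L.log ∅) (hS' : L.In S') (hle : Le L 𝒟 S S')
    (hS : L.Cos S) : L.Cos S' := by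
  have h1 := ord_of_le (C := Set.range κ.x) (J := Finset.univ) h (by rw [h.span, h.I_univ]) hd
    hS' hle (fun p hp => by rw [h.span]; exact hS p hp)
  intro p hp
  have := h1 p hp
  rwa [h.span] at this

theorem Eqv.cos_iff (he : Eqv L 𝒟 S S') (h : IsCrd L κ) (hd : 𝒟 ⊆ L.log ∅) (hS : L.In S)
    (hS' : L.In S') : L.Cos S ↔ L.Cos S' := by
  exact ⟨cos_of_le h hd hS' he.1, cos_of_le h hd hS he.2⟩

end Pool.Agent.MP_696f7f_ag.H96
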