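import Mathlib

/-!
Local algebra inside a fixed field `K` over the reals: local rings with residue field the reals,
charts, logarithmic derivations, semivaluations, marked sets and their equivalence.
-/

namespace Pool.Agent.MP_696f7f_ag.H96

open scoped ENNReal

noncomputable section

/-- real derivations of `K` -/
abbrev Der (K : Type) [Field K] [Algebra ℝ K] : Type := Derivation ℝ K K

/-- a noetherian local subring of `K` with residue field the reals -/
structure Loc (K : Type) [Field K] [Algebra ℝ K] where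
  O : Subalgebra ℝ K
  ev : K → ℝ
  ev_add : ∀ f ∈ O, ∀ g ∈ O, ev (f + g) = ev f + ev g
  ev_mul : ∀ f ∈ O, ∀ g ∈ O, ev (f * g) = ev f * ev g
  ev_alg : ∀ r : ℝ, ev (algebraMap ℝ K r) = r
  ev_out : ∀ f, f ∉ O → ev f = 0
  inv_mem : ∀ f ∈ O, ev f ≠ 0 → f⁻¹ ∈ O
  noeth : IsNoetherianRing O

/-- coordinates and dual derivations -/
structure Chart (K : Type) [Field K] [Algebra ℝ K] (n : ℕ) where
  x : Fin n → K
  D : Fin n → Der K

variable {K : Type} [Field K] [Algebra ℝ K] {n : ℕ}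

/-- the submodule of `K` generated by `S` over the local ring -/
def Loc.span (L : Loc K) (S : Set K) : Submodule L.O K := Submodule.span L.O S

/-- the maximal ideal -/
def Loc.m (L : Loc K) : Submodule L.O K where
  carrier := {f | f ∈ L.O ∧ L.ev f = 0}
  add_mem' := fun {a b} ha hb =>
    ⟨add_mem ha.1 hb.1, by rw [L.ev_add a ha.1 b hb.1, ha.2, hb.2, add_zero]⟩
  zero_mem' := ⟨zero_mem _, by simpa using L.ev_alg 0⟩
  smul_mem' := fun c f hf =>
    ⟨mul_mem c.2 hf.1, by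
      change L.ev (c * f) = 0
      rw [L.ev_mul c c.2 f hf.1, hf.2, mul_zero]⟩

/-- derivations that preserve the local ring and the ideals generated by the members of `𝔈` -/
def Loc.log (L : Loc K) (𝔈 : Set (Set K)) : Set (Der K) :=
  {δ | (∀ f ∈ L.O, δ f ∈ L.O) ∧ ∀ Y ∈ 𝔈, ∀ f ∈ L.span Y, δ f ∈ L.span Y}

/-- logarithmic derivations for a boundary -/
abbrev Loc.lg (L : Loc K) (Y : ℕ → Set K) : Set (Der K) := L.log (Set.range Y)

/-- `κ` is a coordinate system of `L` -/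
structure IsCrd (L : Loc K) (κ : Chart K n) : Prop where
  span : L.span (Set.range κ.x) = L.m
  pres : ∀ i, ∀ f ∈ L.O, κ.D i f ∈ L.O
  dual : ∀ i j, κ.D i (κ.x j) = if i = j then 1 else 0

/-- the coordinate ideal -/
def Chart.I (κ : Chart K n) (L : Loc K) (J : Finset (Fin n)) : Submodule L.O K :=
  L.span (κ.x '' J)

/-- a coordinate or `1` -/
def Chart.y (κ : Chart K n) : Option (Fin n) → K
  | none => 1
  | some j => κ.x j

/-- the chart recentred at another point -/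
def Chart.shift (κ : Chart K n) (L : Loc K) : Chart K n where
  x := fun i => κ.x i - algebraMap ℝ K (L.ev (κ.x i))
  D := κ.D

/-- iterated derivations -/
def ders (l : List (Der K)) (f : K) : K := l.foldr (fun δ g => δ g) f

/-- semivaluations on the local ring -/
structure IsSV (L : Loc K) (v : K → ℝ≥0∞) : Prop where
  mul : ∀ f ∈ L.O, ∀ g ∈ L.O, v (f * g) = v f + v g
  add : ∀ f ∈ L.O, ∀ g ∈ L.O, min (v f) (v g) ≤ v (f + g)
  zero : v 0 = ⊤
  one : v 1 = 0

/-- `v` is at least the weight on the marked set, also after derivations from `𝒟` -/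
def Sat (𝒟 : Set (Der K)) (S : Set (K × ℕ)) (v : K → ℝ≥0∞) : Prop :=
  ∀ p ∈ S, ∀ l : List (Der K), (∀ δ ∈ l, δ ∈ 𝒟) → (p.2 : ℝ≥0∞) ≤ v (ders l p.1) + l.length

/-- `S'` lies in the closure of `S` -/
def Le (L : Loc K) (𝒟 : Set (Der K)) (S S' : Set (K × ℕ)) : Prop :=
  ∀ v, IsSV L v → Sat 𝒟 S v → Sat 𝒟 S' v

/-- equivalence of marked sets -/
def Eqv (L : Loc K) (𝒟 : Set (Der K)) (S S' : Set (K × ℕ)) : Prop := Le L 𝒟 S S' ∧ Le L 𝒟 S' S

/-- the set `Z` with constant weight `w` -/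
def wt (Z : Set K) (w : ℕ) : Set (K × ℕ) := {p | p.1 ∈ Z ∧ p.2 = w}

/-- the marked set lies in the local ring -/
def Loc.In (L : Loc K) (S : Set (K × ℕ)) : Prop := ∀ p ∈ S, p.1 ∈ L.O

/-- bounded weights -/
def Bdd (S : Set (K × ℕ)) : Prop := ∃ W : ℕ, ∀ p ∈ S, p.2 ≤ W

/-- the order along `C` is at least the weight -/
def Loc.Ord (L : Loc K) (C : Set K) (S : Set (K × ℕ)) : Prop := ∀ p ∈ S, p.1 ∈ L.span C ^ p.2

/-- the closed point is in the cosupport -/
def Loc.Cos (L : Loc K) (S : Set (K × ℕ)) : Prop := ∀ p ∈ S, p.1 ∈ L.m ^ p.2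

/-- flatness along the subspace cut out by `Z` -/
def Flat (L : Loc K) (𝒟 : Set (Der K)) (Z : Set K) (S : Set (K × ℕ)) : Prop :=
  ∀ v, IsSV L v → (∀ z ∈ Z, v z = ⊤) → Sat (𝒟 ∩ L.log {Z}) S v → Sat 𝒟 S v

/-- the chart is adapted to the boundary `Y` -/
structure Adp (L : Loc K) (κ : Chart K n) (Y : ℕ → Set K) (σ : ℕ → Option (Fin n)) : Prop where
  crd : IsCrd L κ
  span : ∀ i, L.span (Y i) = L.span {κ.y (σ i)}
  inj : ∀ i i' j, σ i = some j → σ i' = some j → i = i'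

/-- the chart is adapted to the boundary and `Z` is a transversal coordinate subspace -/
structure Tr (L : Loc K) (κ : Chart K n) (Y : ℕ → Set K) (σ : ℕ → Option (Fin n)) (Z : Set K)
    (J : Finset (Fin n)) : Prop where
  adp : Adp L κ Y σ
  span : L.span Z = κ.I L J
  disj : ∀ i j, σ i = some j → j ∉ J

/-- `Z` cuts out a smooth subspace of codimension `c` transversal to the boundary -/
def TrAt (L : Loc K) (n c : ℕ) (Y : ℕ → Set K) (Z : Set K) : Prop :=
  ∃ (κ : Chart K n) (σ : ℕ → Option (Fin n)) (J : Finset (Fin n)), Tr L κ Y σ Z J ∧ J.card = c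

/-- `C` cuts out a smooth subspace with normal crossings with the boundary -/
def SncAt (L : Loc K) (n : ℕ) (Y : ℕ → Set K) (C : Set K) : Prop :=
  ∃ (κ : Chart K n) (σ : ℕ → Option (Fin n)) (J : Finset (Fin n)),
    Adp L κ Y σ ∧ L.span C = κ.I L J

/-- the boundary has normal crossings -/
def AdpAt (L : Loc K) (n : ℕ) (Y : ℕ → Set K) : Prop :=
  ∃ (κ : Chart K n) (σ : ℕ → Option (Fin n)), Adp L κ Y σ

/-- `C` cuts out a smooth subspace -/
def SmAt (L : Loc K) (n : ℕ) (C : Set K) : Prop :=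
  ∃ (κ : Chart K n) (J : Finset (Fin n)), IsCrd L κ ∧ L.span C = κ.I L J

/-- division of a set by `s` -/
def dvs (s : K) (Z : Set K) : Set K := (fun z => z / s) '' Z

/-- division of a marked set by `s` to the power of the weight -/
def dv (s : K) (S : Set (K × ℕ)) : Set (K × ℕ) := (fun p => (p.1 / s ^ p.2, p.2)) '' S

/-- the transform of a marked set, using all generators of the exceptional ideal -/
def trS (L' : Loc K) (E : Set K) (S : Set (K × ℕ)) : Set (K × ℕ) :=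
  {p | ∃ s, L'.span {s} = L'.span E ∧ p ∈ dv s S}

/-- the monomial in the boundary equations -/
def mon (k : ℕ) (y : ℕ → K) (μ : ℕ → ℕ) : K := ∏ i ∈ Finset.range k, y i ^ μ i

/-- the `y i` generate the boundary ideals -/
def Gen (L : Loc K) (Y : ℕ → Set K) (k : ℕ) (y : ℕ → K) : Prop :=
  ∀ i < k, L.span {y i} = L.span (Y i)

/-- `f` is a unit times a monomial in the boundary equations -/
def Mon (L : Loc K) (Y : ℕ → Set K) (k : ℕ) (f : K) : Prop :=
  ∃ (y : ℕ → K) (μ : ℕ → ℕ) (u : K), Gen L Y k y ∧ u ∈ L.O ∧ L.ev u ≠ 0 ∧ f = u * mon k y μ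

/-- Laurent monomial relation between `G` and the residual parts `r g`, modulo `Z` -/
structure LauAt (L : Loc K) (Y : ℕ → Set K) (k : ℕ) (Z G : Set K) (M1 M2 : K) (r : K → K) :
    Prop where
  mon1 : Mon L Y k M1
  mon2 : Mon L Y k M2
  mem : ∀ g ∈ G, r g ∈ L.O
  cong : ∀ g ∈ G, M1 * g - M2 * r g ∈ L.span Z

/-- exact monomial part of `G` modulo `Z` -/
structure Exact (L : Loc K) (Y : ℕ → Set K) (k : ℕ) (Z G : Set K) (y : ℕ → K) (μ : ℕ → ℕ)
    (r : K → K) : Prop where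
  gen : Gen L Y k y
  mem : ∀ g ∈ G, r g ∈ L.O
  cong : ∀ g ∈ G, g - mon k y μ * r g ∈ L.span Z
  exact : ∀ i < k, L.span (Y i) ≠ 1 → ∃ g ∈ G, r g ∉ L.span (Z ∪ Y i)

/-- local presentation of the marked set `S` in codimension `c` -/
structure PresAt (L : Loc K) (n c d : ℕ) (Y : ℕ → Set K) (S : Set (K × ℕ)) (Z G : Set K) :
    Prop where
  memZ : ∀ z ∈ Z, z ∈ L.O
  memG : ∀ g ∈ G, g ∈ L.O
  cos : L.Cos S ↔ L.Cos (wt Z 1 ∪ wt G d)
  tr : (∀ z ∈ Z, z ∈ L.m) → TrAt L n c Y Z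
  flat : (∀ z ∈ Z, z ∈ L.m) → Flat L (L.lg Y) Z (wt G d)
  eqv : L.Cos S → Eqv L (L.lg Y) S (wt Z 1 ∪ wt G d)

/-- Gauss extension of a semivaluation along a derivation -/
def gauss (v : K → ℝ≥0∞) (δ : Der K) (T : ℝ≥0∞) : K → ℝ≥0∞ :=
  fun f => ⨅ k : ℕ, (v (δ^[k] f) + k * T)

/-- the Euler derivation in the variables `J` -/
def Chart.eu (κ : Chart K n) (J : Finset (Fin n)) : Der K := ∑ j ∈ J, κ.x j • κ.D j

/-- approximate projection to functions independent of the variables `J` -/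
def Chart.pK (κ : Chart K n) (J : Finset (Fin n)) : ℕ → K → K
  | 0, f => f
  | N + 1, f => κ.pK J N f - ((N : K) + 1)⁻¹ * κ.eu J (κ.pK J N f)

/-- the coefficient set: powers of normal derivatives, all of weight `W !` -/
def flatG (D : Fin n → Der K) (J : Finset (Fin n)) (H : Set (K × ℕ)) (W : ℕ) : Set K :=
  {g | ∃ p ∈ H, ∃ l : List (Fin n), (∀ j ∈ l, j ∈ J) ∧ l.length < p.2 ∧
    g = ders (l.map D) p.1 ^ (W.factorial / (p.2 - l.length))}

/-- the chart on the blow-up -/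
def Chart.bl (κ : Chart K n) (L' : Loc K) (J : Finset (Fin n)) (j0 : Fin n) : Chart K n where
  x := fun j => if j ∈ J ∧ j ≠ j0 then
    κ.x j / κ.x j0 - algebraMap ℝ K (L'.ev (κ.x j / κ.x j0)) else κ.x j
  D := fun j => if j = j0 then (κ.x j0)⁻¹ • κ.eu J else if j ∈ J then κ.x j0 • κ.D j else κ.D j

/-- the equation of the strict transform of a coordinate hyperplane -/
def Chart.sx (κ : Chart K n) (J : Finset (Fin n)) (j0 : Fin n) (j : Fin n) : K :=
  if j ∈ J then κ.x j / κ.x j0 else κ.x j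

/-- the equation of the strict transform of a boundary component -/
def Chart.sy (κ : Chart K n) (J : Finset (Fin n)) (j0 : Fin n) : Option (Fin n) → K
  | none => 1
  | some j => κ.sx J j0 j

/-- `L'` is the local ring of a point of the blow-up of `L` along the coordinates `J`, in the
chart `j0` -/
structure BlLoc (L L' : Loc K) (κ : Chart K n) (J : Finset (Fin n)) (j0 : Fin n) : Prop where
  crd : IsCrd L κ
  le : L.O ≤ L'.O
  ev : ∀ f ∈ L.O, L'.ev f = L.ev f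
  mem : j0 ∈ J
  div : ∀ j ∈ J, κ.x j / κ.x j0 ∈ L'.O
  gen : ∀ f ∈ L'.O, ∃ p ∈ Algebra.adjoin ℝ ((L.O : Set K) ∪ (fun j => κ.x j / κ.x j0) '' J),
    ∃ q ∈ Algebra.adjoin ℝ ((L.O : Set K) ∪ (fun j => κ.x j / κ.x j0) '' J),
      L'.ev q ≠ 0 ∧ f * q = p

/-- `L'` with boundary `Y'` lies over the centre `C` of a blow-up of `L` with boundary `Y` -/
def BlAt (L L' : Loc K) (n : ℕ) (Y Y' : ℕ → Set K) (k : ℕ) (C : Set K) : Prop :=
  ∀ (κ : Chart K n) (σ : ℕ → Option (Fin n)) (J : Finset (Fin n)), Adp L κ Y σ →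
    L.span C = κ.I L J → ∃ j0, BlLoc L L' κ J j0 ∧ L'.span (Y' k) = L'.span {κ.x j0} ∧
      ∀ i, i ≠ k → L'.span (Y' i) = L'.span {κ.sy J j0 (σ i)}

/-- everything the resolution algorithm uses about a point `L'` of a blow-up with centre `C`
over the point `L` (on or off the centre); `s` is an equation of the exceptional divisor -/
structure Xfer (L L' : Loc K) (n : ℕ) (Y Y' : ℕ → Set K) (k : ℕ) (C : Set K) (s : K) : Prop where
  le : L.O ≤ L'.O
  ev : ∀ f ∈ L.O, L'.ev f = L.ev f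
  ne : s ≠ 0
  mem : s ∈ L'.O
  gen : L'.span C = L'.span {s}
  new : L'.span (Y' k) = L'.span {s}
  bd1 : ∀ i, i ≠ k → (∀ y ∈ Y i, y ∈ L.span C) → L'.span (Y' i) = L'.span (dvs s (Y i))
  bd0 : ∀ i, i ≠ k → (¬ ∀ y ∈ Y i, y ∈ L.span C) → L'.span (Y' i) = L'.span (Y i)
  cases : L.span C ≤ L.m ∨ L.span C = 1
  adp : AdpAt L n Y
  adp' : AdpAt L' n Y'
  ord : ∀ S S', L.In S' → L.Ord C S → (L.Cos S → Le L (L.lg Y) S S') → L.Ord C S'
  cosb : ∀ S, L.Ord C S → L'.Cos (dv s S) → L.Cos S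
  leTr : ∀ S S', L.In S → L.In S' → Bdd S → L.Ord C S → L.Ord C S' → Le L (L.lg Y) S S' →
    Le L' (L'.lg Y') (dv s S) (dv s S')
  tr : ∀ c Z, (∀ z ∈ Z, z ∈ L.O) → (∀ z ∈ Z, z ∈ L.span C) → (∀ z ∈ Z, z / s ∈ L'.m) →
    ((∀ z ∈ Z, z ∈ L.m) → TrAt L n c Y Z) → TrAt L' n c Y' (dvs s Z)
  flat : ∀ c Z S, (∀ z ∈ Z, z ∈ L.O) → (∀ z ∈ Z, z ∈ L.span C) → (∀ z ∈ Z, z / s ∈ L'.m) →
    ((∀ z ∈ Z, z ∈ L.m) → TrAt L n c Y Z) → L.In S → Bdd S → L.Ord C S →
    ((∀ z ∈ Z, z ∈ L.m) → Flat L (L.lg Y) Z S) →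
    Flat L' (L'.lg Y') (dvs s Z) (dv s S)

end

end Pool.Agent.MP_696f7f_ag.H96
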