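import Pool.Agent.MP_696f7f_ag.H96.MDens
import Pool.Agent.MP_696f7f_ag.H96.LBlChart

/-! Blow-ups exist; local rings of a blow-up. -/

namespace Pool.Agent.MP_696f7f_ag.H96

open Filter Topology

variable {K : Type} [Field K] [Algebra ℝ K] {n : ℕ} {M M' : Model K n} {C A F : Set M.P}

namespace MBlow0

/-- the generators of the blown-up algebra -/
def gens (B : Subalgebra ℝ K) {m : ℕ} (f : Fin m → B) : Set K :=
  (B : Set K) ∪ Set.range fun ij : Fin m × Fin m => prj (fun l => (f l : K)) ij.1 ij.2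

variable {B B' : Subalgebra ℝ K} {m : ℕ} {f : Fin m → B}

theorem le_gens (he : B' = Algebra.adjoin ℝ (gens B f)) : B ≤ B' := by
  rw [he]
  exact fun x hx => Algebra.subset_adjoin (Or.inl hx)

theorem prj_mem (he : B' = Algebra.adjoin ℝ (gens B f)) (i j : Fin m) :
    prj (fun l => (f l : K)) i j ∈ B' := by
  rw [he]
  exact Algebra.subset_adjoin (Or.inr ⟨(i, j), rfl⟩)

theorem sum_prj (hne : ∑ l, (f l : K) ^ 2 ≠ 0) : ∑ i, prj (fun l => (f l : K)) i i = 1 := by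
  simp only [prj]
  rw [← Finset.sum_div, div_eq_one_iff_eq hne]
  exact Finset.sum_congr rfl fun i _ => (sq _).symm

theorem sum_prj_sq (hne : ∑ l, (f l : K) ^ 2 ≠ 0) (i : Fin m) :
    ∑ j, prj (fun l => (f l : K)) i j ^ 2 = prj (fun l => (f l : K)) i i := by
  simp only [prj, div_pow, mul_pow]
  rw [← Finset.sum_div, ← Finset.mul_sum]
  field_simp

/-- the point under a point of the larger algebra -/
noncomputable def base (hle : B ≤ B') (b' : Pt B') : Pt B := b'.comp (Subalgebra.inclusion hle)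

theorem base_loc (hle : B ≤ B') (hB : B.FG) (hB' : B'.FG) (b' : Pt B') {b : Pt B}
    (hb : ∀ g : B, b g = b' ⟨g, hle g.2⟩) :
    (locAt B hB b).O ≤ (locAt B' hB' b').O ∧
      ∀ g ∈ (locAt B hB b).O, (locAt B' hB' b').ev g = (locAt B hB b).ev g :=
  locAt_le_of_ev (hle.trans locAt_le) fun g => by
    rw [hb g]
    exact locAt_ev (hB := hB') (a := b') ⟨g, hle g.2⟩

theorem le_off (he : B' = Algebra.adjoin ℝ (gens B f)) (hB : B.FG) {b : Pt B}
    (hb : ∃ l, b (f l) ≠ 0) : B' ≤ (locAt B hB b).O := by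
  rw [he]
  refine Algebra.adjoin_le ?_
  rintro x (hx | ⟨⟨i, j⟩, rfl⟩)
  · exact locAt_le hx
  · have hf : ∀ l, (f l : K) ∈ (locAt B hB b).O := fun l => locAt_le (f l).2
    refine Loc.div_mem (mul_mem (hf i) (hf j)) (sum_mem fun l _ => pow_mem (hf l) 2) ?_
    rw [Loc.ev_sum _ _ fun l _ => pow_mem (hf l) 2]
    obtain ⟨l, hl⟩ := hb
    refine ne_of_gt (Finset.sum_pos' (fun r _ => ?_) ⟨l, Finset.mem_univ _, ?_⟩)
    · rw [Loc.ev_pow (hf r)]
      exact sq_nonneg _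
    · rw [Loc.ev_pow (hf l), locAt_ev]
      exact sq_pos_of_ne_zero hl

theorem loc_eq_off (he : B' = Algebra.adjoin ℝ (gens B f)) (hB : B.FG) (hB' : B'.FG)
    (b' : Pt B') {b : Pt B} (hb : ∀ g : B, b g = b' ⟨g, le_gens he g.2⟩)
    (h0 : ∃ l, b (f l) ≠ 0) : locAt B' hB' b' = locAt B hB b := by
  obtain ⟨h1, h2⟩ := base_loc (le_gens he) hB hB' b' hb
  have h3 := le_off he hB h0
  refine Loc.ext' (le_antisymm (locAt_le_of_ev h3 fun g => ?_).1 h1)
  rw [← h2 g (h3 g.2)]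
  exact locAt_ev g

/-- the point of a subalgebra of a local ring -/
def ptOf (L : Loc K) (hL : B' ≤ L.O) : Pt B' where
  toFun := fun g => L.ev g
  map_one' := by simpa using L.ev_alg 1
  map_mul' := fun g g' => L.ev_mul _ (hL g.2) _ (hL g'.2)
  map_zero' := by simpa using L.ev_alg 0
  map_add' := fun g g' => L.ev_add _ (hL g.2) _ (hL g'.2)
  commutes' := fun r => L.ev_alg r

theorem exists_over (he : B' = Algebra.adjoin ℝ (gens B f)) (hB : B.FG) {b : Pt B}
    (h0 : ∃ l, b (f l) ≠ 0) : ∃ b' : Pt B', ∀ g : B, b g = b' ⟨g, le_gens he g.2⟩ :=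
  ⟨ptOf (locAt B hB b) (le_off he hB h0), fun g => (locAt_ev (hB := hB) (a := b) g).symm⟩

theorem exists_ne_of_notMem {C : Set (Pt B)} (hs : Ideal.span (Set.range f) = van C)
    (hC : ZClosed C) {b : Pt B} (hb : b ∉ C) : ∃ l, b (f l) ≠ 0 := by
  obtain ⟨g, hg, h0⟩ := hC.exists_ne hb
  by_contra hn
  push Not at hn
  rw [← hs] at hg
  obtain ⟨c, rfl⟩ := Ideal.mem_span_range_iff_exists_fun.1 hg
  exact h0 (by simp [hn])

theorem span_van {C : Set (Pt B)} (hs : Ideal.span (Set.range f) = van C) {L : Loc K}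
    (hL : B ≤ L.O) : L.span (Subtype.val '' (van C : Set B)) =
      L.span ((fun l => (f l : K)) '' (Finset.univ : Finset (Fin m))) := by
  refine le_antisymm (Loc.span_le.2 ?_) (Loc.span_le.2 ?_)
  · rintro _ ⟨g, hg, rfl⟩
    rw [← hs] at hg
    obtain ⟨c, rfl⟩ := Ideal.mem_span_range_iff_exists_fun.1 hg
    exact (Loc.mem_span_image _ _).2 ⟨fun l => c l, fun l _ => hL (c l).2, by push_cast; rfl⟩
  · rintro _ ⟨l, -, rfl⟩
    refine Loc.subset_span ⟨f l, ?_, rfl⟩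
    rw [← hs]
    exact Ideal.subset_span ⟨l, rfl⟩

/-- fractions of `A` whose denominator is a unit of `L` -/
def fracs (L : Loc K) (A : Subalgebra ℝ K) (hA : A ≤ L.O) : Subalgebra ℝ K where
  carrier := {z | ∃ p ∈ A, ∃ q ∈ A, L.ev q ≠ 0 ∧ z * q = p}
  mul_mem' := fun ⟨p, hp, q, hq, h0, h⟩ ⟨p', hp', q', hq', h0', h'⟩ =>
    ⟨p * p', mul_mem hp hp', q * q', mul_mem hq hq',
      by rw [L.ev_mul _ (hA hq) _ (hA hq')]; exact mul_ne_zero h0 h0', by rw [← h, ← h']; ring⟩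
  add_mem' := fun ⟨p, hp, q, hq, h0, h⟩ ⟨p', hp', q', hq', h0', h'⟩ =>
    ⟨p * q' + p' * q, add_mem (mul_mem hp hq') (mul_mem hp' hq), q * q', mul_mem hq hq',
      by rw [L.ev_mul _ (hA hq) _ (hA hq')]; exact mul_ne_zero h0 h0', by rw [← h, ← h']; ring⟩
  algebraMap_mem' := fun r =>
    ⟨algebraMap ℝ K r, A.algebraMap_mem r, 1, one_mem _, by rw [Loc.ev_one]; exact one_ne_zero,
      mul_one _⟩

theorem blLoc_pre (he : B' = Algebra.adjoin ℝ (gens B f)) (hne : ∑ l, (f l : K) ^ 2 ≠ 0)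
    (hB : B.FG) (hB' : B'.FG) (b' : Pt B') {b : Pt B}
    (hb : ∀ g : B, b g = b' ⟨g, le_gens he g.2⟩) {κ : Chart K n} {J : Finset (Fin n)}
    (hκ : IsCrd (locAt B hB b) κ)
    (hJ : (locAt B hB b).span ((fun l => (f l : K)) '' (Finset.univ : Finset (Fin m))) =
      κ.I (locAt B hB b) J) :
    ∃ j0, BlLoc (locAt B hB b) (locAt B' hB' b') κ J j0 := by
  obtain ⟨hle, hev⟩ := base_loc (le_gens he) hB hB' b' hb
  have hBL : B ≤ (locAt B hB b).O := locAt_le
  have hBL' : B' ≤ (locAt B' hB' b').O := locAt_le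
  have hev' : ∀ g : B', (locAt B' hB' b').ev g = b' g := fun g => locAt_ev g
  generalize locAt B hB b = L at *
  have hgen : ∀ g ∈ (locAt B' hB' b').O, ∃ p q : B', b' q ≠ 0 ∧ g * q = p := fun g hg => hg
  generalize locAt B' hB' b' = L' at *
  have he' : ∀ i j, prj (fun l => (f l : K)) i j ∈ L'.O := fun i j => hBL' (prj_mem he i j)
  obtain ⟨i, hi⟩ : ∃ i, L'.ev (prj (fun l => (f l : K)) i i) ≠ 0 := by
    by_contra hn
    push Not at hn
    have h1 := congrArg L'.ev (sum_prj hne)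
    rw [Loc.ev_sum _ _ fun l _ => he' l l, Loc.ev_one] at h1
    simp [hn] at h1
  have hfi : (f i : K) ≠ 0 := fun h0 => hi (by simp [prj, h0, Loc.ev_zero])
  have hfl : ∀ l, (f l : K) / f i ∈ L'.O := fun l => by
    have e : (f l : K) / f i =
        prj (fun l => (f l : K)) l i / prj (fun l => (f l : K)) i i := by
      simp only [prj]
      field_simp
    rw [e]
    exact Loc.div_mem (he' l i) (he' i i) hi
  have hxj : ∀ j ∈ J, κ.x j / f i ∈ L'.O := fun j hj => by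
    have h1 : κ.x j ∈ κ.I L J := hκ.x_mem_I.2 hj
    rw [← hJ] at h1
    obtain ⟨a, ha, h2⟩ := (Loc.mem_span_image _ _).1 h1
    rw [h2, Finset.sum_div]
    refine sum_mem fun l hl => ?_
    rw [mul_div_assoc]
    exact mul_mem (hle (ha l hl)) (hfl l)
  have hfx : ∀ l, ∃ a : Fin n → K, (∀ j ∈ J, a j ∈ L.O) ∧ (f l : K) = ∑ j ∈ J, a j * κ.x j :=
    fun l => by
      have h1 : (f l : K) ∈ κ.I L J := by
        rw [← hJ]
        exact Loc.subset_span ⟨l, Finset.mem_coe.2 (Finset.mem_univ _), rfl⟩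
      exact (Loc.mem_span_image _ _).1 h1
  obtain ⟨j0, hj0, hu⟩ : ∃ j0 ∈ J, L'.ev (κ.x j0 / f i) ≠ 0 := by
    by_contra hn
    push Not at hn
    obtain ⟨a, ha, h2⟩ := hfx i
    have h3 : (1 : K) = ∑ j ∈ J, a j * (κ.x j / f i) := by
      simp only [← mul_div_assoc]
      rw [← Finset.sum_div, ← h2, div_self hfi]
    have h4 := congrArg L'.ev h3
    rw [Loc.ev_one, Loc.ev_sum _ _ fun j hj => mul_mem (hle (ha j hj)) (hxj j hj),
      Finset.sum_eq_zero fun j hj => by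
        rw [L'.ev_mul _ (hle (ha j hj)) _ (hxj j hj), hn j hj, mul_zero]] at h4
    exact one_ne_zero h4
  have hs : κ.x j0 ≠ 0 := hκ.x_ne_zero j0
  have hdiv : ∀ j ∈ J, κ.x j / κ.x j0 ∈ L'.O := fun j hj => by
    have e : κ.x j / κ.x j0 = κ.x j / f i / (κ.x j0 / f i) := by field_simp
    rw [e]
    exact Loc.div_mem (hxj j hj) (hxj j0 hj0) hu
  refine ⟨j0, hκ, hle, hev, hj0, hdiv, ?_⟩
  set A := Algebra.adjoin ℝ ((L.O : Set K) ∪ (fun j => κ.x j / κ.x j0) '' J) with hA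
  have hAL : A ≤ L'.O := Algebra.adjoin_le (by
    rintro x (hx | ⟨j, hj, rfl⟩)
    · exact hle hx
    · exact hdiv j hj)
  have hOA : L.O ≤ A := fun x hx => Algebra.subset_adjoin (Or.inl hx)
  have hfA : ∀ l, (f l : K) / κ.x j0 ∈ A := fun l => by
    obtain ⟨a, ha, h2⟩ := hfx l
    rw [h2, Finset.sum_div]
    refine sum_mem fun j hj => ?_
    rw [mul_div_assoc]
    exact mul_mem (hOA (ha j hj)) (Algebra.subset_adjoin (Or.inr ⟨j, hj, rfl⟩))
  have hBA : B' ≤ fracs L' A hAL := by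
    rw [he]
    refine Algebra.adjoin_le ?_
    rintro x (hx | ⟨⟨l, r⟩, rfl⟩)
    · exact ⟨x, hOA (hBL hx), 1, one_mem _, by rw [Loc.ev_one]; exact one_ne_zero, mul_one _⟩
    · refine ⟨f l / κ.x j0 * (f r / κ.x j0), mul_mem (hfA l) (hfA r),
        ∑ t, ((f t : K) / κ.x j0) ^ 2, sum_mem fun t _ => pow_mem (hfA t) 2, ?_, ?_⟩
      · rw [Loc.ev_sum _ _ fun t _ => pow_mem (hAL (hfA t)) 2]
        refine ne_of_gt (Finset.sum_pos' (fun t _ => ?_) ⟨i, Finset.mem_univ _, ?_⟩)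
        · rw [Loc.ev_pow (hAL (hfA t))]
          exact sq_nonneg _
        · rw [Loc.ev_pow (hAL (hfA i)), ← inv_div, Loc.ev_inv (hxj j0 hj0) hu]
          exact sq_pos_of_ne_zero (inv_ne_zero hu)
      · simp only [prj, div_pow]
        rw [← Finset.sum_div]
        field_simp
  intro g hg
  obtain ⟨p, q, hq, hpq⟩ := hgen g hg
  obtain ⟨p1, hp1, u, hu1, hu0, hpu⟩ := hBA p.2
  obtain ⟨q1, hq1, w, hw1, hw0, hqw⟩ := hBA q.2
  refine ⟨p1 * w, mul_mem hp1 hw1, q1 * u, mul_mem hq1 hu1, ?_, ?_⟩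
  · rw [L'.ev_mul _ (hAL hq1) _ (hAL hu1), ← hqw, L'.ev_mul _ (hBL' q.2) _ (hAL hw1), hev']
    exact mul_ne_zero (mul_ne_zero hq hw0) hu0
  · rw [← hqw, ← hpu, ← hpq]
    ring

theorem fg_gens (hB : B.FG) (f : Fin m → B) : (Algebra.adjoin ℝ (gens B f)).FG := by
  obtain ⟨t, ht, hB⟩ := Subalgebra.fg_def.1 hB
  refine Subalgebra.fg_def.2 ⟨t ∪ Set.range fun ij : Fin m × Fin m =>
    prj (fun l => (f l : K)) ij.1 ij.2, ht.union (Set.finite_range _), le_antisymm ?_ ?_⟩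
  · refine Algebra.adjoin_mono (Set.union_subset_union_left _ ?_)
    rw [← hB]
    exact Algebra.subset_adjoin
  · refine Algebra.adjoin_le (Set.union_subset ?_ fun x hx => Algebra.subset_adjoin (Or.inr hx))
    exact hB.ge.trans (Algebra.adjoin_mono Set.subset_union_left)

theorem compact_gens [CompactSpace (Pt B)] (hne : ∑ l, (f l : K) ^ 2 ≠ 0) :
    CompactSpace (Pt (Algebra.adjoin ℝ (gens B f))) := by
  have he : Algebra.adjoin ℝ (gens B f) = Algebra.adjoin ℝ (gens B f) := rfl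
  refine compactSpace_of_bdd _ Algebra.adjoin_adjoin_coe_preimage ?_
  rintro ⟨g, hg'⟩ (hg | ⟨⟨i, j⟩, hg⟩)
  · obtain ⟨c, hc⟩ := isCompact_univ.exists_bound_of_continuousOn
      (continuous_ev (B := B) ⟨g, hg⟩).continuousOn
    exact ⟨c, fun b' => hc (base (le_gens he) b') trivial⟩
  · refine ⟨1, fun b' => ?_⟩
    let e : Fin m → Fin m → Algebra.adjoin ℝ (gens B f) := fun i j => ⟨_, prj_mem he i j⟩
    have h1 : ∑ i, e i i = 1 := Subtype.ext (by push_cast; exact sum_prj hne)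
    have h2 : ∀ i, ∑ j, e i j ^ 2 = e i i := fun i =>
      Subtype.ext (by push_cast; exact sum_prj_sq hne i)
    have h3 : ∑ i, ∑ j, b' (e i j) ^ 2 = 1 := by
      have := congrArg b' h1
      rw [map_one, map_sum] at this
      rw [← this]
      refine Finset.sum_congr rfl fun i _ => ?_
      rw [← h2 i]
      simp
    have h4 : b' (e i j) ^ 2 ≤ 1 := by
      rw [← h3]
      refine le_trans (Finset.single_le_sum (f := fun j => b' (e i j) ^ 2)
        (fun _ _ => sq_nonneg _) (Finset.mem_univ j)) ?_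
      exact Finset.single_le_sum (f := fun i => ∑ j, b' (e i j) ^ 2)
        (fun _ _ => Finset.sum_nonneg fun _ _ => sq_nonneg _) (Finset.mem_univ i)
    have h5 : (⟨g, hg'⟩ : Algebra.adjoin ℝ (gens B f)) = e i j := Subtype.ext hg.symm
    rw [h5]
    exact (sq_le_one_iff_abs_le_one _).1 h4

end MBlow0

open MBlow0

theorem exists_bl (hC : M.Sm C) (hne : van C ≠ ⊥) : ∃ M' : Model K n, IsBl M C M' := by
  have : IsNoetherianRing M.B := Algebra.FiniteType.isNoetherianRing ℝ M.B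
  obtain ⟨m, f, hf⟩ := Submodule.fg_iff_exists_fin_generating_family.1
    (IsNoetherian.noetherian (van C))
  have hs : Ideal.span (Set.range f) = van C := hf
  have h0 : ∑ l, (f l : K) ^ 2 ≠ 0 := Model.sum_sq_ne_zero f (by
    by_contra hn
    push Not at hn
    refine hne ?_
    rw [← hs, Ideal.span_eq_bot]
    rintro _ ⟨i, rfl⟩
    exact hn i)
  have he : Algebra.adjoin ℝ (gens M.B f) = Algebra.adjoin ℝ (gens M.B f) := rfl
  refine ⟨⟨Algebra.adjoin ℝ (gens M.B f), fg_gens M.fg f, fun x => ?_, compact_gens h0, ?_,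
    fun b' => ?_⟩, m, f, hs, h0, rfl⟩
  · obtain ⟨p, hp, q, hq, h⟩ := M.frac x
    exact ⟨p, le_gens he hp, q, le_gens he hq, h⟩
  · obtain ⟨b, hb⟩ := Model.exists_notMem hne
    obtain ⟨b', -⟩ := exists_over he M.fg (exists_ne_of_notMem hs hC.closed hb)
    exact ⟨b'⟩
  · by_cases hb : base (le_gens he) b' ∈ C
    · obtain ⟨κ, J, hκ, hJ⟩ := hC.sm _ hb
      obtain ⟨j0, h⟩ := blLoc_pre he h0 M.fg (fg_gens M.fg f) b' (b := base (le_gens he) b')
        (fun _ => rfl) hκ ((span_van hs locAt_le).symm.trans hJ)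
      exact ⟨_, h.crd'⟩
    · rw [loc_eq_off he M.fg (fg_gens M.fg f) b' (b := base (le_gens he) b') (fun _ => rfl)
        (exists_ne_of_notMem hs hC.closed hb)]
      exact M.smooth _

namespace IsBl

theorem π_apply (h : IsBl M C M') (b' : M'.P) (f : M.B) : h.π b' f = b' ⟨f, h.le f.2⟩ :=
  Model.loc_ev b' ⟨f, h.le f.2⟩

theorem loc_off (h : IsBl M C M') (hC : ZClosed C) {b' : M'.P} (hb : h.π b' ∉ C) :
    M'.loc b' = M.loc (h.π b') := by
  obtain ⟨m, f, h'⟩ := id h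
  exact loc_eq_off h'.eq M.fg M'.fg b' (h.π_apply b') (exists_ne_of_notMem h'.span hC hb)

theorem exists_off (h : IsBl M C M') (hC : ZClosed C) {b : M.P} (hb : b ∉ C) :
    ∃ b', h.π b' = b := by
  obtain ⟨m, f, h'⟩ := id h
  obtain ⟨b', hb'⟩ := exists_over h'.eq M.fg (exists_ne_of_notMem h'.span hC hb)
  exact ⟨b', AlgHom.ext fun g => (h.π_apply b' g).trans (hb' g).symm⟩

theorem ident (h : IsBl M C M') (hC : ZClosed C) (hF : C ⊆ F) : Ident M F M' (h.π ⁻¹' F) := by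
  refine ⟨fun b hb => ?_, fun b' hb' => ⟨h.π b', hb', h.loc_off hC fun hc => hb' (hF hc)⟩⟩
  obtain ⟨b', rfl⟩ := h.exists_off hC fun hc => hb (hF hc)
  exact ⟨b', hb, h.loc_off hC fun hc => hb (hF hc)⟩

/-- a point over the centre lies in one of the standard charts -/
theorem blLoc (h : IsBl M C M') {b' : M'.P} {κ : Chart K n} {J : Finset (Fin n)}
    (hκ : IsCrd (M.loc (h.π b')) κ)
    (hJ : (M.loc (h.π b')).span (M.vanK C) = κ.I (M.loc (h.π b')) J) :
    ∃ j0, BlLoc (M.loc (h.π b')) (M'.loc b') κ J j0 := by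
  obtain ⟨m, f, h'⟩ := id h
  exact blLoc_pre h'.eq h'.ne M.fg M'.fg b' (h.π_apply b') hκ
    ((span_van h'.span locAt_le).symm.trans hJ)

end IsBl

end Pool.Agent.MP_696f7f_ag.H96
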