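import Pool.Agent.MP_696f7f_ag.H96.MIft
import Pool.Agent.MP_696f7f_ag.H96.CohI

/-! Density of real points in coordinate subspaces and consequences. -/

namespace Pool.Agent.MP_696f7f_ag.H96

open Filter Topology

variable {K : Type} [Field K] [Algebra ℝ K] {n : ℕ}

namespace MDens

open Asymptotics

/-- evaluation of a polynomial in elements of the local ring -/
theorem ev_aeval (L : Loc K) (x : Fin n → K) (hx : ∀ j, x j ∈ L.O) (Q : MvPolynomial (Fin n) ℝ) :
    MvPolynomial.aeval x Q ∈ L.O ∧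
      L.ev (MvPolynomial.aeval x Q) = MvPolynomial.eval (fun j => L.ev (x j)) Q := by
  induction Q using MvPolynomial.induction_on with
  | C r =>
    rw [MvPolynomial.aeval_C, MvPolynomial.eval_C]
    exact ⟨Subalgebra.algebraMap_mem _ r, L.ev_alg r⟩
  | add p q hp hq =>
    rw [map_add, map_add]
    exact ⟨add_mem hp.1 hq.1, by rw [L.ev_add _ hp.1 _ hq.1, hp.2, hq.2]⟩
  | mul_X p j hp =>
    rw [map_mul, map_mul, MvPolynomial.aeval_X, MvPolynomial.eval_X]
    exact ⟨mul_mem hp.1 (hx j), by rw [L.ev_mul _ hp.1 _ (hx j), hp.2]⟩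

theorem eval_smul {Q : MvPolynomial (Fin n) ℝ} {e : ℕ} (hQ : Q.IsHomogeneous e) (s : ℝ)
    (c : Fin n → ℝ) : MvPolynomial.eval (s • c) Q = s ^ e * MvPolynomial.eval c Q := by
  rw [MvPolynomial.eval_eq', MvPolynomial.eval_eq', Finset.mul_sum]
  refine Finset.sum_congr rfl fun d hd => ?_
  have h1 : ∑ i, d i = e := by
    have h2 := hQ (MvPolynomial.mem_support_iff.1 hd)
    rw [← Finsupp.degree_eq_sum, Finsupp.degree_eq_weight_one]
    exact h2
  simp only [Pi.smul_apply, smul_eq_mul, mul_pow, Finset.prod_mul_distrib,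
    Finset.prod_pow_eq_pow_sum, h1]
  ring

/-- killing the variables in `J` changes a polynomial by an element of the coordinate ideal -/
theorem aeval_sub_kill {L : Loc K} {κ : Chart K n} (h : IsCrd L κ) (J : Finset (Fin n))
    (Q : MvPolynomial (Fin n) ℝ) :
    MvPolynomial.aeval κ.x Q - MvPolynomial.aeval (fun j => if j ∈ J then 0 else κ.x j) Q ∈
      κ.I L J := by
  have hx : ∀ j, (if j ∈ J then 0 else κ.x j) ∈ L.O := fun j => by
    split_ifs
    · exact zero_mem _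
    · exact h.x_mem j
  induction Q using MvPolynomial.induction_on with
  | C r => simp
  | add p q hp hq =>
    rw [map_add, map_add, add_sub_add_comm]
    exact add_mem hp hq
  | mul_X p j hp =>
    rw [map_mul, map_mul, MvPolynomial.aeval_X, MvPolynomial.aeval_X]
    by_cases hj : j ∈ J
    · rw [if_pos hj, mul_zero, sub_zero]
      exact Loc.mul_mem_left (ev_aeval L κ.x h.x_mem p).1 (h.x_mem_I.2 hj)
    · rw [if_neg hj, ← sub_mul]
      exact Loc.mul_mem_right (h.x_mem j) hp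

/-- a polynomial that vanishes at all vectors supported off `J` lies in the coordinate ideal -/
theorem aeval_mem_I {L : Loc K} {κ : Chart K n} (h : IsCrd L κ) (J : Finset (Fin n))
    (Q : MvPolynomial (Fin n) ℝ)
    (h0 : ∀ c : Fin n → ℝ, (∀ j ∈ J, c j = 0) → MvPolynomial.eval c Q = 0) :
    MvPolynomial.aeval κ.x Q ∈ κ.I L J := by
  classical
  set g : Fin n → MvPolynomial (Fin n) ℝ := fun j => if j ∈ J then 0 else MvPolynomial.X j with hg
  have h1 : MvPolynomial.aeval g Q = 0 := by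
    apply MvPolynomial.funext
    intro c
    have h2 : MvPolynomial.eval c (MvPolynomial.aeval g Q) =
        MvPolynomial.eval (fun j => MvPolynomial.eval c (g j)) Q := by
      rw [MvPolynomial.aeval_eq_bind₁, ← MvPolynomial.coe_aeval_eq_eval,
        ← MvPolynomial.coe_aeval_eq_eval]
      exact MvPolynomial.aeval_bind₁ c g Q
    rw [h2, map_zero]
    refine h0 _ fun j hj => ?_
    simp [hg, hj]
  have h3 : MvPolynomial.aeval (fun j => if j ∈ J then 0 else κ.x j) Q =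
      MvPolynomial.aeval κ.x (MvPolynomial.aeval g Q) := by
    rw [MvPolynomial.aeval_eq_bind₁, MvPolynomial.aeval_bind₁]
    congr 2
    funext j
    by_cases hj : j ∈ J <;> simp [hg, hj]
  have h4 := aeval_sub_kill h J Q
  rwa [h3, h1, map_zero, sub_zero] at h4

variable {M : Model K n} {a : M.P} {κ : Chart K n} {t : ℕ → ℝ} {p : ℕ → M.P}

/-- regular at `a` and of order `k` along the sequence `p` -/
def Big (M : Model K n) (a : M.P) (t : ℕ → ℝ) (p : ℕ → M.P) (k : ℕ) (r : K) : Prop :=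
  r ∈ (M.loc a).O ∧ (fun i => (M.loc (p i)).ev r) =O[atTop] fun i => t i ^ k

theorem ev_mem (hp : Tendsto p atTop (𝓝 a)) {r : K} (hr : r ∈ (M.loc a).O) :
    ∀ᶠ i in atTop, r ∈ (M.loc (p i)).O :=
  hp.eventually ((Model.sp_mem hr).filter_mono nhds_le_zn)

theorem big_zero (hp : Tendsto p atTop (𝓝 a)) {r : K} (hr : r ∈ (M.loc a).O) :
    Big M a t p 0 r := by
  refine ⟨hr, ?_⟩
  simp only [pow_zero]
  exact ((Model.continuousAt_ev hr).tendsto.comp hp).isBigO_one ℝ

theorem big_add (hp : Tendsto p atTop (𝓝 a)) {k : ℕ} {r s : K} (hr : Big M a t p k r)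
    (hs : Big M a t p k s) : Big M a t p k (r + s) := by
  refine ⟨add_mem hr.1 hs.1, (hr.2.add hs.2).congr' ?_ EventuallyEq.rfl⟩
  filter_upwards [ev_mem hp hr.1, ev_mem hp hs.1] with i h1 h2
  exact ((M.loc (p i)).ev_add _ h1 _ h2).symm

theorem big_mul (hp : Tendsto p atTop (𝓝 a)) {k l : ℕ} {r s : K} (hr : Big M a t p k r)
    (hs : Big M a t p l s) : Big M a t p (k + l) (r * s) := by
  refine ⟨mul_mem hr.1 hs.1, (hr.2.mul hs.2).congr' ?_ ?_⟩
  · filter_upwards [ev_mem hp hr.1, ev_mem hp hs.1] with i h1 h2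
    exact ((M.loc (p i)).ev_mul _ h1 _ h2).symm
  · exact Eventually.of_forall fun i => (pow_add _ _ _).symm

theorem big_one (h : IsCrd (M.loc a) κ) {c : Fin n → ℝ} (hp : Tendsto p atTop (𝓝 a))
    (hc : ∀ i, M.cm κ (p i) = t i • c) {r : K} (hr : r ∈ (M.loc a).m) : Big M a t p 1 r := by
  rw [← h.span] at hr
  refine Loc.span_induction (p := Big M a t p 1) hr ?_ ?_ ?_ ?_
  · rintro _ ⟨j, rfl⟩
    refine ⟨h.x_mem j, ?_⟩
    have h1 : (fun i => (M.loc (p i)).ev (κ.x j)) = fun i => c j * t i ^ 1 := by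
      funext i
      have h2 := congrFun (hc i) j
      simp only [Model.cm, Pi.smul_apply, smul_eq_mul] at h2
      rw [h2]; ring
    rw [h1]
    exact isBigO_const_mul_self _ _ _
  · refine ⟨zero_mem _, ?_⟩
    simp only [Loc.ev_zero]
    exact isBigO_zero _ _
  · intro x y _ _ hx hy
    exact big_add hp hx hy
  · intro u hu x _ hx
    simpa using big_mul hp (big_zero hp hu) hx

theorem big_pow (h : IsCrd (M.loc a) κ) {c : Fin n → ℝ} (hp : Tendsto p atTop (𝓝 a))
    (hc : ∀ i, M.cm κ (p i) = t i • c) (k : ℕ) :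
    ∀ r ∈ (M.loc a).m ^ k, Big M a t p k r := by
  induction k with
  | zero =>
    intro r hr
    rw [pow_zero] at hr
    exact big_zero hp (Loc.mem_one.1 hr)
  | succ k ih =>
    intro r hr
    rw [pow_succ] at hr
    refine Submodule.mul_induction_on hr ?_ ?_
    · intro x hx y hy
      exact big_mul hp (ih x hx) (big_one h hp hc hy)
    · intro x y hx hy
      exact big_add hp hx hy

/-- elements of a span vanish where the generators vanish -/
theorem ev_eq_zero_of_span {L : Loc K} {S : Set K} {u : K} (hS : ∀ s ∈ S, s ∈ L.m)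
    (hu : u ∈ L.span S) : u ∈ L.O ∧ L.ev u = 0 :=
  Loc.mem_m.1 (Loc.span_le.2 hS hu)

theorem forall_mem_congr {L : Loc K} {S T : Set K} (h : L.span S = L.span T) :
    (∀ s ∈ S, s ∈ L.m) ↔ ∀ s ∈ T, s ∈ L.m := by
  rw [← Loc.span_le, ← Loc.span_le, h]

end MDens

namespace Model

variable {M : Model K n} {a b : M.P} {f : K} {Z : Set K} {A D F : Set M.P}
  {κ : Chart K n} {J : Finset (Fin n)} {E : ℕ → Set M.P} {k : ℕ}

/-- a sequence of points with prescribed small coordinates -/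
theorem exists_curve (h : IsCrd (M.loc a) κ) (c : Fin n → ℝ) :
    ∃ (t : ℕ → ℝ) (p : ℕ → M.P), (∀ i, 0 < t i) ∧ Tendsto t atTop (𝓝 0) ∧
      Tendsto p atTop (𝓝 a) ∧ ∀ i, M.cm κ (p i) = t i • c := by
  obtain ⟨U, hU, hinj⟩ := Model.cm_injOn h
  have himg : ∀ V ∈ 𝓝 a, M.cm κ '' V ∈ 𝓝 (0 : Fin n → ℝ) := fun V hV =>
    Model.cm_nhds h (image_mem_map hV)
  have ht0 : Tendsto (fun i : ℕ => 1 / ((i : ℝ) + 1)) atTop (𝓝 0) :=
    tendsto_one_div_add_atTop_nhds_zero_nat
  have hlin : ∀ s : ℕ → ℝ, Tendsto s atTop (𝓝 0) →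
      Tendsto (fun i => s i • c) atTop (𝓝 (0 : Fin n → ℝ)) := fun s hs => by
    simpa using hs.smul_const c
  obtain ⟨N, hN⟩ := eventually_atTop.1 ((hlin _ ht0).eventually (himg U hU))
  have ht : Tendsto (fun i : ℕ => 1 / (((i + N : ℕ) : ℝ) + 1)) atTop (𝓝 0) :=
    ht0.comp (tendsto_add_atTop_nat N)
  choose p hpU hp using fun i : ℕ => hN (i + N) (Nat.le_add_left N i)
  refine ⟨fun i => 1 / (((i + N : ℕ) : ℝ) + 1), p, fun i => by positivity, ht, ?_, hp⟩
  intro V hV
  have h1 := (hlin _ ht).eventually (himg (V ∩ U) (inter_mem hV hU))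
  rw [mem_map]
  filter_upwards [h1] with i hi
  obtain ⟨q, hq, hq'⟩ := hi
  have h2 : q = p i := hinj hq.2 (hpU i) (hq'.trans (hp i).symm)
  show p i ∈ V
  rw [← h2]
  exact hq.1

theorem mem_I_of_vanish (h : IsCrd (M.loc a) κ) (hf : f ∈ (M.loc a).O)
    (h0 : ∀ᶠ b in 𝓝 a, (∀ j ∈ J, (M.loc b).ev (κ.x j) = 0) → (M.loc b).ev f = 0) :
    f ∈ κ.I (M.loc a) J := by
  refine Loc.krull h.I_le_one fun e => ?_
  induction e with
  | zero =>
    rw [pow_zero]
    exact Submodule.mem_sup_right (Loc.mem_one.2 hf)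
  | succ e ih =>
    obtain ⟨u, hu, g, hg, rfl⟩ := Submodule.mem_sup.1 ih
    obtain ⟨Q, hQ, hr⟩ := h.LChart_leading e hg
    have key : MvPolynomial.aeval κ.x Q ∈ κ.I (M.loc a) J := by
      refine MDens.aeval_mem_I h J Q fun c hc => ?_
      obtain ⟨t, p, ht, ht0, hp, hcm⟩ := exists_curve h c
      have hb := (MDens.big_pow h hp hcm (e + 1) _ hr).2
      have hgO : g ∈ (M.loc a).O := Loc.mem_O_of_le (Loc.pow_le_one Loc.m_le_one e) hg
      have hx : ∀ᶠ i in atTop, ∀ j, κ.x j ∈ (M.loc (p i)).O :=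
        eventually_all.2 fun j => MDens.ev_mem hp (h.x_mem j)
      have hu' : ∀ᶠ i in atTop, u ∈ (M.loc (p i)).span (κ.x '' J) :=
        hp.eventually ((sp_span hu).filter_mono nhds_le_zn)
      have heq : (fun i => (M.loc (p i)).ev (g - MvPolynomial.aeval κ.x Q)) =ᶠ[atTop]
          fun i => -(MvPolynomial.eval c Q) * t i ^ e := by
        filter_upwards [hx, hu', hp.eventually h0, MDens.ev_mem hp hgO] with i h1 h2 h3 h4
        have h5 : ∀ j, (M.loc (p i)).ev (κ.x j) = t i * c j := fun j => by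
          simpa [Model.cm] using congrFun (hcm i) j
        have h6 : ∀ j ∈ J, (M.loc (p i)).ev (κ.x j) = 0 := fun j hj => by
          rw [h5, hc j hj, mul_zero]
        have h7 := MDens.ev_eq_zero_of_span (L := M.loc (p i)) (S := κ.x '' J) (by
          rintro _ ⟨j, hj, rfl⟩
          exact Loc.mem_m.2 ⟨h1 j, h6 j hj⟩) h2
        have h8 := h3 h6
        rw [(M.loc (p i)).ev_add _ h7.1 _ h4, h7.2, zero_add] at h8
        have h9 := MDens.ev_aeval (M.loc (p i)) κ.x h1 Q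
        rw [Loc.ev_sub h4 h9.1, h8, h9.2, zero_sub]
        have h10 : (fun j => (M.loc (p i)).ev (κ.x j)) = t i • c := funext fun j => h5 j
        rw [h10, MDens.eval_smul hQ]
        ring
      have hb2 := hb.congr' heq EventuallyEq.rfl
      by_contra hne
      have hb3 : (fun _ : ℕ => -(MvPolynomial.eval c Q)) =O[atTop] t := by
        have h1 := hb2.mul (Asymptotics.isBigO_refl (fun i => (t i ^ e)⁻¹) atTop)
        refine h1.congr (fun i => ?_) (fun i => ?_)
        · have := (ht i).ne'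
          field_simp
        · have := (ht i).ne'
          rw [pow_succ]
          field_simp
      have h2 := hb3.trans_tendsto ht0
      exact hne (neg_eq_zero.1 (tendsto_nhds_unique tendsto_const_nhds h2))
    have h1 : u + g = (u + MvPolynomial.aeval κ.x Q) + (g - MvPolynomial.aeval κ.x Q) := by ring
    rw [h1]
    exact Submodule.add_mem_sup (add_mem hu key) hr

theorem span_vanK_eq_I (h : IsCrd (M.loc a) κ)
    (hD : ∀ᶠ b in zn a, b ∈ D ↔ ∀ j ∈ J, κ.x j ∈ (M.loc b).m) :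
    (M.loc a).span (M.vanK D) = κ.I (M.loc a) J := by
  refine le_antisymm (fun g hg => ?_) (Loc.span_le.2 ?_)
  · obtain ⟨hO, hv⟩ := mem_span_vanK.1 hg
    refine mem_I_of_vanish h hO (Eventually.filter_mono nhds_le_zn ?_)
    have hx : ∀ᶠ b in zn a, ∀ j, κ.x j ∈ (M.loc b).O :=
      eventually_all.2 fun j => sp_mem (h.x_mem j)
    filter_upwards [hD, hv, hx] with b h1 h2 h3 h4
    exact h2 (h1.2 fun j hj => Loc.mem_m.2 ⟨h3 j, h4 j hj⟩)
  · rintro _ ⟨j, hj, rfl⟩
    refine mem_span_vanK.2 ⟨h.x_mem j, ?_⟩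
    filter_upwards [hD] with b h1 h2
    exact (Loc.mem_m.1 (h1.1 h2 j hj)).2

/-- a set that is locally the zero set of equations of a smooth germ has that germ as ideal -/
theorem span_vanK_eq (hZ : Z.Finite) (hs : SmAt (M.loc a) n Z)
    (hD : ∀ᶠ b in zn a, b ∈ D ↔ ∀ z ∈ Z, z ∈ (M.loc b).m) :
    (M.loc a).span (M.vanK D) = (M.loc a).span Z := by
  obtain ⟨κ, J, h, hJ⟩ := hs
  rw [hJ]
  refine span_vanK_eq_I h ?_
  filter_upwards [hD, sp_span_eq hZ (J.finite_toSet.image κ.x) hJ] with b h1 h2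
  rw [h1, MDens.forall_mem_congr h2, Set.forall_mem_image]
  rfl

/-- a function that vanishes near a point is zero -/
theorem MDens_eq_zero (hf : f ∈ (M.loc a).O) (h0 : ∀ᶠ b in 𝓝 a, (M.loc b).ev f = 0) : f = 0 := by
  obtain ⟨κ, h⟩ := exists_crd a
  have h1 := mem_I_of_vanish (J := ∅) h hf (h0.mono fun b hb _ => hb)
  rwa [Chart.I_empty, Submodule.mem_bot] at h1

theorem van_univ : van (Set.univ : Set M.P) = ⊥ := by
  refine (Submodule.eq_bot_iff _).2 fun q hq => Subtype.ext ?_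
  obtain ⟨a⟩ := M.ne
  refine MDens_eq_zero (M := M) (a := a) (le_loc a q.2) (Eventually.of_forall fun b => ?_)
  rw [loc_ev]
  exact hq b trivial
theorem exists_ne {q : M.B} (hq : q ≠ 0) : ∃ b : M.P, b q ≠ 0 := by
  by_contra h
  push Not at h
  have h1 : q ∈ van (Set.univ : Set M.P) := fun b _ => h b
  rw [van_univ] at h1
  exact hq h1
theorem exists_notMem (hF : van F ≠ ⊥) : ∃ b, b ∉ F := by
  by_contra h
  push Not at h
  rw [Set.eq_univ_of_forall h] at hF
  exact hF van_univ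
theorem van_compl (hF : van F ≠ ⊥) : van Fᶜ = ⊥ := by
  obtain ⟨q, hq, hq0⟩ := (Submodule.ne_bot_iff _).1 hF
  refine (Submodule.eq_bot_iff _).2 fun g hg => ?_
  have h1 : g * q ∈ van (Set.univ : Set M.P) := fun b _ => by
    rw [map_mul]
    by_cases hb : b ∈ F
    · rw [hq b hb, mul_zero]
    · rw [hg b hb, zero_mul]
  rw [van_univ] at h1
  exact (mul_eq_zero.1 h1).resolve_right hq0
theorem dense_ne {q : M.B} (hq : q ≠ 0) : Dense {b : M.P | b q ≠ 0} := by
  intro a
  rw [mem_closure_iff_frequently]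
  intro h
  refine hq (Subtype.ext (MDens_eq_zero (M := M) (a := a) (le_loc a q.2) (h.mono fun b hb => ?_)))
  rw [loc_ev]
  exact not_not.1 hb
theorem dense_compl (hF : van F ≠ ⊥) : Dense Fᶜ := by
  obtain ⟨q, hq, hq0⟩ := (Submodule.ne_bot_iff _).1 hF
  exact (dense_ne hq0).mono fun b (hb : b q ≠ 0) hb' => hb (hq b hb')
theorem eq_zero_of_vanish (hF : van F ≠ ⊥) (hf : f ∈ (M.loc a).O)
    (h0 : ∀ᶠ b in zn a, b ∉ F → (M.loc b).ev f = 0) : f = 0 := by
  obtain ⟨q, hq, hq0⟩ := (Submodule.ne_bot_iff _).1 hF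
  have h1 : f * q = 0 := by
    refine MDens_eq_zero (mul_mem hf (le_loc a q.2)) (Eventually.filter_mono nhds_le_zn ?_)
    filter_upwards [h0, sp_mem hf] with b h1 h2
    rw [(M.loc b).ev_mul _ h2 _ (le_loc b q.2), loc_ev]
    by_cases hb : b ∈ F
    · rw [hq b hb, mul_zero]
    · rw [h1 hb, zero_mul]
  exact (mul_eq_zero.1 h1).resolve_right fun h => hq0 (Subtype.ext h)
theorem sum_sq_ne_zero {m : ℕ} (g : Fin m → M.B) (h : ∃ i, g i ≠ 0) :
    ∑ l, (g l : K) ^ 2 ≠ 0 := by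
  obtain ⟨i, hi⟩ := h
  obtain ⟨b, hb⟩ := exists_ne hi
  intro h0
  have h1 : (∑ l, g l ^ 2 : M.B) = 0 := Subtype.ext (by push_cast; exact h0)
  have h2 := congrArg b h1
  rw [map_sum, map_zero] at h2
  simp only [map_pow] at h2
  have h3 := (Finset.sum_eq_zero_iff_of_nonneg fun l _ => sq_nonneg (b (g l))).1 h2 i
    (Finset.mem_univ i)
  exact hb (pow_eq_zero_iff two_ne_zero |>.1 h3)
/-- a function that is regular and bounded off a proper closed set has no pole -/
theorem not_pole (hF : van F ≠ ⊥) {g : K} {C : ℝ}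
    (hg : ∀ b ∉ F, g ∈ (M.loc b).O ∧ |(M.loc b).ev g| ≤ C) (hg0 : g ≠ 0) : g⁻¹ ∉ (M.loc a).m := by
  intro hm
  obtain ⟨hO, h0⟩ := Loc.mem_m.1 hm
  have h1 : Tendsto (fun b => C * |(M.loc b).ev g⁻¹|) (𝓝 a) (𝓝 0) := by
    have h2 := ((continuousAt_ev hO).tendsto.abs).const_mul C
    rwa [h0, abs_zero, mul_zero] at h2
  have h2 : ∀ᶠ b in 𝓝 a, C * |(M.loc b).ev g⁻¹| < 1 := h1.eventually (gt_mem_nhds one_pos)
  have h3 : ∃ᶠ b in 𝓝 a, b ∈ Fᶜ := mem_closure_iff_frequently.1 (dense_compl hF a)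
  obtain ⟨b, hb, h4, h5⟩ := (h3.and_eventually (h2.and ((sp_mem hO).filter_mono nhds_le_zn))).exists
  obtain ⟨h6, h7⟩ := hg b hb
  have h8 := (M.loc b).ev_mul _ h6 _ h5
  rw [mul_inv_cancel₀ hg0, Loc.ev_one] at h8
  have h9 := congrArg abs h8
  rw [abs_one, abs_mul] at h9
  have h10 := mul_le_mul_of_nonneg_right h7 (abs_nonneg ((M.loc b).ev g⁻¹))
  linarith

theorem sm_univ : M.Sm Set.univ := by
  refine ⟨zclosed_univ, fun b _ => ?_⟩
  obtain ⟨κ, h⟩ := exists_crd b
  exact ⟨κ, ∅, h, span_vanK_eq_I h (Eventually.of_forall fun b => by simp)⟩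
theorem sm_empty : M.Sm ∅ := ⟨zclosed_empty, fun _ hb => hb.elim⟩
theorem Sm.locEuc (hA : M.Sm A) : LocEuc A n := by
  classical
  intro x hx
  obtain ⟨κ, J, h, hJ⟩ := hA.sm x hx
  obtain ⟨U1, hU1, hc⟩ := Model.cm_continuousOn h
  obtain ⟨U2, hU2, hi⟩ := Model.cm_injOn h
  have h3 : ∀ᶠ b in 𝓝 x, b ∈ A ↔ ∀ j ∈ J, M.cm κ b j = 0 := by
    refine Eventually.filter_mono nhds_le_zn ?_
    have hx' : ∀ᶠ b in zn x, ∀ j, κ.x j ∈ (M.loc b).O :=
      eventually_all.2 fun j => sp_mem (h.x_mem j)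
    filter_upwards [sp_mem_iff hA.closed (J.finite_toSet.image κ.x) hJ, hx'] with b h1 h2
    rw [h1, Set.forall_mem_image]
    exact ⟨fun h3 j hj => (Loc.mem_m.1 (h3 hj)).2, fun h3 j hj => Loc.mem_m.2 ⟨h2 j, h3 j hj⟩⟩
  refine ⟨{j // j ∉ J}, inferInstance, fun b j => M.cm κ b j,
    U1 ∩ U2 ∩ {b | b ∈ A ↔ ∀ j ∈ J, M.cm κ b j = 0}, ?_, inter_mem (inter_mem hU1 hU2) h3,
    ?_, ?_, ?_⟩
  · exact (Fintype.card_subtype_le _).trans (Fintype.card_fin n).le
  · refine continuousOn_pi.2 fun j => ?_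
    exact (continuousOn_pi.1 hc j).mono fun b hb => hb.2.1.1
  · intro b hb b' hb' he
    refine hi hb.2.1.2 hb'.2.1.2 (funext fun j => ?_)
    by_cases hj : j ∈ J
    · rw [hb.2.2.1 hb.1 j hj, hb'.2.2.1 hb'.1 j hj]
    · exact congrFun he ⟨j, hj⟩
  · intro V hV
    rw [mem_map, mem_nhdsWithin_iff_eventually] at hV
    have h4 : M.cm κ '' {b | (b ∈ A → b ∈ (fun b (j : {j // j ∉ J}) => M.cm κ b j) ⁻¹' V) ∧
        (b ∈ A ↔ ∀ j ∈ J, M.cm κ b j = 0)} ∈ 𝓝 (0 : Fin n → ℝ) :=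
      Model.cm_nhds h (image_mem_map (hV.and h3))
    let ex : ({j // j ∉ J} → ℝ) → Fin n → ℝ := fun y j => if hj : j ∈ J then 0 else y ⟨j, hj⟩
    have hex : Continuous ex := by
      refine continuous_pi fun j => ?_
      by_cases hj : j ∈ J
      · simp only [ex, dif_pos hj]; exact continuous_const
      · simp only [ex, dif_neg hj]; exact continuous_apply _
    have h5 : ex (fun j => M.cm κ x j) = 0 := by
      funext j
      by_cases hj : j ∈ J
      · simp only [ex, dif_pos hj, Pi.zero_apply]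
      · simp only [ex, dif_neg hj, Model.cm_self h]
    have h6 := hex.tendsto (fun j => M.cm κ x j)
    rw [h5] at h6
    filter_upwards [h6 h4] with y hy
    obtain ⟨b, ⟨hb1, hb2⟩, hb3⟩ := hy
    have h7 : b ∈ A := hb2.2 fun j hj => by rw [hb3]; simp only [ex, dif_pos hj]
    have h8 : (fun j : {j // j ∉ J} => M.cm κ b j) = y := by
      funext j
      rw [hb3]
      simp only [ex, dif_neg j.2]
    rw [← h8]
    exact hb1 h7
theorem Snc.van_ne_bot (hE : M.Snc k E) (i : ℕ) : van (E i) ≠ ⊥ := by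
  intro h0
  obtain ⟨b⟩ := M.ne
  obtain ⟨κ, σ, h⟩ := hE.adp b
  have h1 : (M.loc b).span (M.Y E i) ≤ ⊥ := by
    refine Loc.span_le.2 ?_
    rintro _ ⟨q, hq, rfl⟩
    rw [h0] at hq
    have h2 : q = 0 := hq
    rw [h2]
    exact zero_mem _
  rw [h.span i] at h1
  have h2 : κ.y (σ i) = 0 := h1 (Loc.subset_span rfl)
  cases hσ : σ i with
  | none => rw [hσ] at h2; exact one_ne_zero h2
  | some j => rw [hσ] at h2; exact h.crd.x_ne_zero j h2
theorem Snc.closed_iUnion (hE : M.Snc k E) : ZClosed (⋃ i, E i) :=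
  zclosed_iUnion_of_bd hE.closed hE.bd
theorem Snc.van_iUnion_ne_bot (hE : M.Snc k E) : van (⋃ i, E i) ≠ ⊥ := by
  have h1 : ∀ m : ℕ, van (⋃ i ∈ Finset.range m, E i) ≠ ⊥ := by
    intro m
    induction m with
    | zero =>
      simp only [Finset.range_zero, Finset.notMem_empty, Set.iUnion_of_empty, Set.iUnion_empty]
      rw [van_empty]
      exact top_ne_bot
    | succ m ih =>
      rw [Finset.range_add_one, Finset.set_biUnion_insert]
      exact van_union_ne_bot (hE.van_ne_bot m) ih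
  intro h0
  refine h1 k (le_bot_iff.1 (h0 ▸ van_anti ?_))
  intro b hb
  obtain ⟨i, hi⟩ := Set.mem_iUnion.1 hb
  have h2 : i < k := by
    by_contra h2
    rw [hE.bd i (not_lt.1 h2)] at hi
    exact hi
  exact Set.mem_biUnion (Finset.mem_coe.2 (Finset.mem_range.2 h2)) hi
/-- local equations of a stratum -/
theorem Snc.MDens_strat (hE : M.Snc k E) {σ : ℕ → Option (Fin n)}
    (h : Adp (M.loc a) κ (M.Y E) σ) (I : Finset ℕ) (ha : a ∈ strat E I) :
    ∀ᶠ b in zn a, b ∈ strat E I ↔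
      ∀ j ∈ (Finset.univ.filter fun j => ∃ i ∈ I, σ i = some j), κ.x j ∈ (M.loc b).m := by
  have h1 : ∀ i, ∀ᶠ b in zn a, b ∈ E i ↔ ∀ t ∈ ({κ.y (σ i)} : Set K), t ∈ (M.loc b).m :=
    fun i => sp_mem_iff (hE.closed i) (Set.finite_singleton _) (h.span i)
  filter_upwards [(eventually_all_finset I).2 fun i _ => h1 i] with b hb
  constructor
  · intro h2 j hj
    obtain ⟨i, hi, hij⟩ := (Finset.mem_filter.1 hj).2
    have h3 := (hb i hi).1 (h2 i hi) _ rfl
    rwa [hij] at h3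
  · intro h2 i hi
    refine (hb i hi).2 ?_
    rintro _ rfl
    have h3 := (zn_self (h1 i)).1 (ha i hi) _ rfl
    cases hσ : σ i with
    | none => rw [hσ] at h3; exact absurd h3 Loc.one_notMem_m
    | some j => exact h2 j (Finset.mem_filter.2 ⟨Finset.mem_univ j, i, hi, hσ⟩)
theorem Snc.span_strat (hE : M.Snc k E) {σ : ℕ → Option (Fin n)} (h : Adp (M.loc a) κ (M.Y E) σ)
    (I : Finset ℕ) (ha : a ∈ strat E I) : (M.loc a).span (M.vanK (strat E I)) =
      κ.I (M.loc a) (Finset.univ.filter fun j => ∃ i ∈ I, σ i = some j) :=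
  span_vanK_eq_I h.crd (hE.MDens_strat h I ha)
theorem Snc.MDens_closed (hE : M.Snc k E) (I : Finset ℕ) : ZClosed (strat E I) := by
  have h1 : strat E I = ⋂ i, ⋂ _ : i ∈ I, E i := by
    ext x
    simp [strat]
  rw [h1]
  exact zclosed_iInter fun i => zclosed_iInter fun _ => hE.closed i
theorem Snc.sm_strat (hE : M.Snc k E) (I : Finset ℕ) : M.Sm (strat E I) := by
  refine ⟨hE.MDens_closed I, fun b hb => ?_⟩
  obtain ⟨κ, σ, h⟩ := hE.adp b
  exact ⟨κ, _, h.crd, hE.span_strat h I hb⟩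
theorem Snc.sm (hE : M.Snc k E) (i : ℕ) : M.Sm (E i) := by
  have h1 : strat E {i} = E i := by
    ext x
    simp [strat]
  rw [← h1]
  exact hE.sm_strat {i}
theorem Centre.sm_inter (hE : M.Snc k E) (hC : M.Centre E D) (I : Finset ℕ) :
    M.Sm (strat E I ∩ D) := by
  refine ⟨(hE.MDens_closed I).inter hC.closed, fun b hb => ?_⟩
  obtain ⟨κ, σ, J, h, hJ⟩ := hC.snc b hb.2
  refine ⟨κ, (Finset.univ.filter fun j => ∃ i ∈ I, σ i = some j) ∪ J, h.crd,
    span_vanK_eq_I h.crd ?_⟩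
  filter_upwards [hE.MDens_strat h I hb.1,
    sp_mem_iff hC.closed (J.finite_toSet.image κ.x) hJ] with c h1 h2
  rw [Set.mem_inter_iff, h1, h2, Set.forall_mem_image, Finset.forall_mem_union]
  rfl

/-- a smooth closed set that is mapped into a finite union of closed sets splits accordingly -/
theorem Sm.splits {n' : ℕ} {M' : Model K n'} (hd : Dom M' M) {A' : Set M'.P} (hA : M'.Sm A')
    (hE : ∀ i, ZClosed (E i)) (hk : ∀ i, k ≤ i → E i = ∅) (h : Set.MapsTo hd.map A' (⋃ i, E i)) :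
    Splits A' hd.map E := by
  choose q _ hq using fun i => (hE i).exists_eq
  obtain ⟨T, hT, hTs, hTe⟩ := exists_fin_vanK A'
  have hqO : ∀ i b, (q i : K) ∈ (M'.loc b).O := fun i b => hd b (q i).2
  let S : M'.P → Set ℕ := fun b => {i | i < k ∧ (q i : K) ∈ (M'.loc b).span (M'.vanK A')}
  have hne : ∀ b ∈ A', (S b).Nonempty := by
    intro b hb
    obtain ⟨κ, J, hκ, hJ⟩ := hA.sm b hb
    have h1 : ∏ i ∈ Finset.range k, (q i : K) ∈ (M'.loc b).span (M'.vanK A') := by
      refine mem_span_vanK.2 ⟨prod_mem fun i _ => hqO i b, Eventually.of_forall fun c hc => ?_⟩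
      rw [Loc.ev_prod _ _ fun i _ => hqO i c]
      obtain ⟨i, hi⟩ := Set.mem_iUnion.1 (h hc)
      have h2 : i < k := by
        by_contra h2
        rw [hk i (not_lt.1 h2)] at hi
        exact hi
      rw [hq i] at hi
      exact Finset.prod_eq_zero (Finset.mem_range.2 h2) hi
    rw [hJ] at h1
    obtain ⟨i, hi, h2⟩ := hκ.prime_prod _ _ (fun i _ => hqO i b) h1
    exact ⟨i, Finset.mem_range.1 hi, by rw [hJ]; exact h2⟩
  have hloc : ∀ a ∈ A', ∀ᶠ b in zn a, b ∈ A' → sInf (S b) = sInf (S a) := by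
    intro a ha
    have h1 : ∀ i, ∀ᶠ b in zn a, b ∈ A' → ((q i : K) ∈ (M'.loc b).span (M'.vanK A') ↔
        (q i : K) ∈ (M'.loc a).span (M'.vanK A')) := by
      intro i
      by_cases hi : (q i : K) ∈ (M'.loc a).span (M'.vanK A')
      · filter_upwards [sp_span hi] with b hb _
        exact iff_of_true hb hi
      · have h2 : SmAt (M'.loc a) n' T := by
          obtain ⟨κ, J, hκ, hJ⟩ := hA.sm a ha
          exact ⟨κ, J, hκ, (hTe _ (le_loc a)).trans hJ⟩
        have h3 := sp_notMem hT h2 (hqO i a) (by rw [hTe _ (le_loc a)]; exact hi)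
        filter_upwards [h3] with b hb hb'
        refine iff_of_false ?_ hi
        rw [← hTe _ (le_loc b)]
        exact hb fun z hz => span_vanK_le_m hb' (Loc.subset_span (hTs hz))
    filter_upwards [(eventually_all_finset (Finset.range k)).2 fun i _ => h1 i] with b hb hb'
    congr 1
    ext i
    exact and_congr_right fun hi => hb i (Finset.mem_range.2 hi) hb'
  refine ⟨fun c => {b ∈ A' | sInf (S b) = c}, fun c =>
    ((locConst_pieces hA.closed (fun b => sInf (S b)) hloc).2 c).isClosed, ?_, ?_, ?_⟩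
  · intro i j hij
    exact Set.disjoint_left.2 fun b h1 h2 => hij (h1.2.symm.trans h2.2)
  · ext b
    exact ⟨fun hb => Set.mem_iUnion.2 ⟨_, hb, rfl⟩, fun hb => (Set.mem_iUnion.1 hb).elim
      fun _ h1 => h1.1⟩
  · rintro c b ⟨hb, rfl⟩
    rw [hq]
    exact (Loc.mem_m.1 (span_vanK_le_m hb (Nat.sInf_mem (hne b hb)).2)).2

end Model

end Pool.Agent.MP_696f7f_ag.H96
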