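import Pool.Agent.MP_696f7f_ag.H96.MSpread

/-! Coordinates give local homeomorphisms to Euclidean space. -/

namespace Pool.Agent.MP_696f7f_ag.H96

open Filter Topology

variable {K : Type} [Field K] [Algebra ℝ K] {n : ℕ}

/-- the coordinate map -/
noncomputable def Model.cm (M : Model K n) (κ : Chart K n) (b : M.P) : Fin n → ℝ :=
  fun i => (M.loc b).ev (κ.x i)

namespace MIft

open MvPolynomial

section vars
variable {ι : Type}

theorem mem_vars {p : MvPolynomial ι ℝ} : p ∈ idealOfVars ι ℝ ↔ constantCoeff p = 0 := by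
  have h := mem_pow_idealOfVars_iff' (σ := ι) (R := ℝ) 1 p
  rw [pow_one] at h
  rw [h, constantCoeff_eq]
  constructor
  · intro h
    exact h 0 (by simp)
  · intro h x hx
    have : x = 0 := (Finsupp.degree_eq_zero_iff x).1 (by omega)
    rw [this]
    exact h

theorem sub_C_mem (p : MvPolynomial ι ℝ) : p - C (constantCoeff p) ∈ idealOfVars ι ℝ := by
  rw [mem_vars, map_sub, constantCoeff_C, sub_self]

theorem X_mem (i : ι) : (X i : MvPolynomial ι ℝ) ∈ idealOfVars ι ℝ :=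
  Ideal.subset_span ⟨i, rfl⟩

theorem rename_pow {ι' : Type} (e : ι → ι') {k : ℕ} {p : MvPolynomial ι ℝ}
    (hp : p ∈ idealOfVars ι ℝ ^ k) : rename e p ∈ idealOfVars ι' ℝ ^ k := by
  have h1 : (idealOfVars ι ℝ).map (rename e : MvPolynomial ι ℝ →ₐ[ℝ] MvPolynomial ι' ℝ) ≤
      idealOfVars ι' ℝ := by
    rw [Ideal.map_le_iff_le_comap]
    intro q hq
    rw [Ideal.mem_comap, mem_vars, constantCoeff_rename]
    exact mem_vars.1 hq
  have h2 := Ideal.mem_map_of_mem (rename e : MvPolynomial ι ℝ →ₐ[ℝ] MvPolynomial ι' ℝ) hp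
  rw [Ideal.map_pow] at h2
  exact Ideal.pow_right_mono h1 k h2

end vars

section ring
variable {A T : Type} [CommRing A] [CommRing T] {F J : Ideal T} {φ : A →+* T}

theorem lead (h0 : ∀ t, ∃ P, t - φ P ∈ J)
    (h1 : ∀ t ∈ J, ∃ P, φ P ∈ J ∧ t - φ P ∈ F ⊔ J ^ 2) (k : ℕ) :
    ∀ t ∈ J ^ k, ∃ P, φ P ∈ J ^ k ∧ t - φ P ∈ F ⊔ J ^ (k + 1) := by
  induction k with
  | zero =>
    intro t _
    obtain ⟨P, hP⟩ := h0 t
    refine ⟨P, by simp, Ideal.mem_sup_right ?_⟩
    rwa [zero_add, pow_one]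
  | succ k ih =>
    intro t ht
    rw [pow_succ] at ht
    refine Submodule.mul_induction_on ht ?_ ?_
    · intro u hu v hv
      obtain ⟨P, hP, hP'⟩ := ih u hu
      obtain ⟨Q, hQ, hQ'⟩ := h1 v hv
      refine ⟨P * Q, ?_, ?_⟩
      · rw [map_mul, pow_succ]
        exact Ideal.mul_mem_mul hP hQ
      · obtain ⟨f, hf, r, hr, e⟩ := Submodule.mem_sup.1 hP'
        obtain ⟨f', hf', r', hr', e'⟩ := Submodule.mem_sup.1 hQ'
        have e2 : u * v - φ (P * Q) = (f * v + φ P * f') + (r * v + φ P * r') := by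
          rw [map_mul]
          linear_combination -v * e - φ P * e'
        rw [e2]
        refine Submodule.add_mem_sup (add_mem (F.mul_mem_right _ hf) (F.mul_mem_left _ hf'))
          (add_mem ?_ ?_)
        · rw [pow_succ]
          exact Ideal.mul_mem_mul hr hv
        · rw [show k + 1 + 1 = k + 2 from rfl, pow_add]
          exact Ideal.mul_mem_mul hP hr'
    · rintro u v ⟨P, hP, hP'⟩ ⟨Q, hQ, hQ'⟩
      refine ⟨P + Q, by rw [map_add]; exact add_mem hP hQ, ?_⟩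
      have e2 : u + v - φ (P + Q) = (u - φ P) + (v - φ Q) := by rw [map_add]; ring
      rw [e2]
      exact add_mem hP' hQ'

theorem approx (h0 : ∀ t, ∃ P, t - φ P ∈ J)
    (h1 : ∀ t ∈ J, ∃ P, φ P ∈ J ∧ t - φ P ∈ F ⊔ J ^ 2) (k : ℕ) (t : T) :
    ∃ P, t - φ P ∈ F ⊔ J ^ k := by
  induction k with
  | zero => exact ⟨0, Ideal.mem_sup_right (by simp)⟩
  | succ k ih =>
    obtain ⟨P, hP⟩ := ih
    obtain ⟨f, hf, r, hr, e⟩ := Submodule.mem_sup.1 hP
    obtain ⟨Q, -, hQ⟩ := lead h0 h1 k r hr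
    refine ⟨P + Q, ?_⟩
    have e2 : t - φ (P + Q) = f + (r - φ Q) := by
      rw [map_add]
      linear_combination -e
    rw [e2]
    exact add_mem (Ideal.mem_sup_left hf) hQ

theorem krull [IsNoetherianRing T] {t : T} (h : ∀ k, t ∈ F ⊔ J ^ k) :
    ∃ r ∈ J, (1 - r) * t ∈ F := by
  have h1 : Ideal.Quotient.mk F t ∈ (⨅ k : ℕ, J ^ k • ⊤ : Submodule T (T ⧸ F)) := by
    rw [Submodule.mem_iInf]
    intro k
    obtain ⟨f, hf, r, hr, e⟩ := Submodule.mem_sup.1 (h k)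
    have e2 : Ideal.Quotient.mk F t = r • (1 : T ⧸ F) := by
      rw [← e, map_add, Ideal.Quotient.eq_zero_iff_mem.2 hf, zero_add, Algebra.smul_def, mul_one]
      rfl
    rw [e2]
    exact Submodule.smul_mem_smul hr Submodule.mem_top
  obtain ⟨r, hr⟩ := (Ideal.mem_iInf_smul_pow_eq_bot_iff J _).1 h1
  refine ⟨r, r.2, Ideal.Quotient.eq_zero_iff_mem.1 ?_⟩
  rw [Algebra.smul_def] at hr
  rw [map_mul, map_sub, map_one, sub_mul, one_mul, sub_eq_zero]
  exact hr.symm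

end ring

section analysis
variable {ι : Type} [Fintype ι]

theorem analytic (p : MvPolynomial ι ℝ) (z : ι → ℝ) :
    AnalyticAt ℝ (fun w : ι → ℝ => eval w p) z :=
  AnalyticOnNhd.eval_mvPolynomial p z trivial

theorem cont (p : MvPolynomial ι ℝ) :
    Tendsto (fun w : ι → ℝ => eval w p) (𝓝 0) (𝓝 (constantCoeff p)) := by
  have h := (analytic p 0).continuousAt
  rw [ContinuousAt, eval_zero] at h
  exact h

theorem strict_sq {p : MvPolynomial ι ℝ} (hp : p ∈ idealOfVars ι ℝ ^ 2) :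
    HasStrictFDerivAt (fun w : ι → ℝ => eval w p) (0 : (ι → ℝ) →L[ℝ] ℝ) 0 := by
  rw [pow_two] at hp
  refine Submodule.mul_induction_on hp ?_ ?_
  · intro u hu v hv
    have h := (analytic u 0).hasStrictFDerivAt.fun_mul (analytic v 0).hasStrictFDerivAt
    simp only [eval_zero, mem_vars.1 hu, mem_vars.1 hv, zero_smul, add_zero] at h
    simp only [map_mul]
    exact h
  · intro u v hu hv
    have h := hu.fun_add hv
    rw [add_zero] at h
    simp only [map_add]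
    exact h

theorem strict_map {H : ι → MvPolynomial ι ℝ} (hH : ∀ v, H v ∈ idealOfVars ι ℝ ^ 2) :
    HasStrictFDerivAt (fun z : ι → ℝ => z + fun v => eval z (H v))
      ((ContinuousLinearEquiv.refl ℝ (ι → ℝ) : (ι → ℝ) ≃L[ℝ] (ι → ℝ)) : (ι → ℝ) →L[ℝ] (ι → ℝ))
      0 := by
  have h1 : HasStrictFDerivAt (fun (z : ι → ℝ) v => eval z (H v))
      (0 : (ι → ℝ) →L[ℝ] (ι → ℝ)) 0 := by
    rw [hasStrictFDerivAt_pi']
    intro v
    rw [ContinuousLinearMap.comp_zero]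
    exact strict_sq (hH v)
  have h := (hasStrictFDerivAt_id (𝕜 := ℝ) (0 : ι → ℝ)).fun_add h1
  rw [add_zero] at h
  exact h

end analysis

section loc
variable {ι : Type} {L : Loc K} {y : ι → K}

theorem ev_aeval (hy : ∀ v, y v ∈ L.O) (s : MvPolynomial ι ℝ) :
    aeval y s ∈ L.O ∧ L.ev (aeval y s) = eval (fun v => L.ev (y v)) s := by
  induction s using MvPolynomial.induction_on with
  | C r =>
    rw [aeval_C, eval_C]
    exact ⟨L.O.algebraMap_mem r, L.ev_alg r⟩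
  | add p q hp hq =>
    rw [map_add, map_add]
    exact ⟨add_mem hp.1 hq.1, by rw [L.ev_add _ hp.1 _ hq.1, hp.2, hq.2]⟩
  | mul_X p v hp =>
    rw [map_mul, map_mul, aeval_X, eval_X]
    exact ⟨mul_mem hp.1 (hy v), by rw [L.ev_mul _ hp.1 _ (hy v), hp.2]⟩

theorem ev_aeval0 (hy : ∀ v, y v ∈ L.m) (s : MvPolynomial ι ℝ) :
    L.ev (aeval y s) = constantCoeff s := by
  rw [(ev_aeval (fun v => (hy v).1) s).2]
  have : (fun v => L.ev (y v)) = 0 := funext fun v => (hy v).2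
  rw [this, eval_zero]

theorem aeval_pow (hy : ∀ v, y v ∈ L.m) (k : ℕ) :
    ∀ s ∈ idealOfVars ι ℝ ^ k, aeval y s ∈ L.m ^ k := by
  induction k with
  | zero =>
    intro s _
    rw [pow_zero]
    exact Loc.mem_one.2 (ev_aeval (fun v => (hy v).1) s).1
  | succ k ih =>
    intro s hs
    rw [pow_succ] at hs
    refine Submodule.mul_induction_on hs ?_ ?_
    · intro u hu v hv
      rw [map_mul]
      refine Loc.mul_mem_pow_add (ih u hu) ?_
      rw [pow_one]
      exact ⟨(ev_aeval (fun v => (hy v).1) v).1, by rw [ev_aeval0 hy, mem_vars.1 hv]⟩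
    · intro u v hu hv
      rw [map_add]
      exact add_mem hu hv

end loc

section pres

/-- the linear part of the equations -/
noncomputable def lin {N : ℕ} (α : Fin N → Fin n → ℝ) (j : Fin N) :
    MvPolynomial (Fin n ⊕ Fin N) ℝ :=
  X (Sum.inr j) - ∑ i, C (α j i) * X (Sum.inl i)

theorem lin_mem {N : ℕ} (α : Fin N → Fin n → ℝ) (j : Fin N) :
    lin α j ∈ idealOfVars (Fin n ⊕ Fin N) ℝ :=
  sub_mem (X_mem _) (sum_mem fun _ _ => Ideal.mul_mem_left _ _ (X_mem _))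

theorem aeval_inr {B : Subalgebra ℝ K} {N : ℕ} (x : Fin n → K) (g : Fin N → B)
    (P : MvPolynomial (Fin N) ℝ) :
    aeval (Sum.elim x fun j => (g j : K)) (rename Sum.inr P) = ((aeval g P : B) : K) := by
  rw [aeval_rename]
  induction P using MvPolynomial.induction_on with
  | C r => rw [aeval_C, aeval_C]; rfl
  | add p q hp hq => rw [map_add, map_add, hp, hq]; rfl
  | mul_X p j hp => rw [map_mul, map_mul, hp, aeval_X, aeval_X]; rfl

theorem pt_aeval {B : Type} [CommRing B] [Algebra ℝ B] {N : ℕ} (b : Pt B) (g : Fin N → B)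
    (P : MvPolynomial (Fin N) ℝ) : b (aeval g P) = eval (fun j => b (g j)) P := by
  induction P using MvPolynomial.induction_on with
  | C r => rw [aeval_C, eval_C, AlgHom.commutes]; rfl
  | add p q hp hq => rw [map_add, map_add, map_add, hp, hq]
  | mul_X p j hp => rw [map_mul, map_mul, map_mul, hp, aeval_X, eval_X]

theorem exists_gens {B : Type} [CommRing B] [Algebra ℝ B] [Algebra.FiniteType ℝ B] (a : Pt B) :
    ∃ (N : ℕ) (g : Fin N → B), Function.Surjective (aeval g : MvPolynomial (Fin N) ℝ →ₐ[ℝ] B) ∧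
      ∀ j, a (g j) = 0 := by
  obtain ⟨N, f, hf⟩ := Algebra.FiniteType.iff_quotient_mvPolynomial''.1
    (inferInstance : Algebra.FiniteType ℝ B)
  refine ⟨N, fun j => f (X j) - algebraMap ℝ B (a (f (X j))), fun t => ?_, fun j => ?_⟩
  · obtain ⟨P, rfl⟩ := hf t
    refine ⟨aeval (fun j => X j + C (a (f (X j)))) P, ?_⟩
    induction P using MvPolynomial.induction_on with
    | C r => rw [aeval_C, AlgHom.commutes, ← algebraMap_eq, AlgHom.commutes]
    | add p q hp hq => rw [map_add, map_add, map_add, hp, hq]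
    | mul_X p j hp =>
      rw [map_mul, map_mul, map_mul, hp, aeval_X, map_add, aeval_X, aeval_C, sub_add_cancel]
  · rw [map_sub, AlgHom.commutes]
    exact sub_self _

/-- a presentation of a model near a point by equations that can be solved -/
structure Pres (M : Model K n) (κ : Chart K n) (a : M.P) where
  N : ℕ
  g : Fin N → M.B
  α : Fin N → Fin n → ℝ
  H : Fin N → MvPolynomial (Fin n ⊕ Fin N) ℝ
  surj : Function.Surjective (aeval g : MvPolynomial (Fin N) ℝ →ₐ[ℝ] M.B)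
  zero : ∀ j, a (g j) = 0
  sq : ∀ j, H j ∈ idealOfVars (Fin n ⊕ Fin N) ℝ ^ 2
  rel : ∀ j, aeval (Sum.elim κ.x fun j => (g j : K)) (lin α j + H j) = 0

variable {M : Model K n} {κ : Chart K n} {a : M.P}

theorem clear1 {N : ℕ} {g : Fin N → M.B}
    (hs : Function.Surjective (aeval g : MvPolynomial (Fin N) ℝ →ₐ[ℝ] M.B))
    (h0 : ∀ j, a (g j) = 0) {f : K} (hf : f ∈ (M.loc a).O) :
    ∃ P Q : MvPolynomial (Fin N) ℝ, constantCoeff Q ≠ 0 ∧
      (M.loc a).ev f = constantCoeff P / constantCoeff Q ∧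
      f * ((aeval g Q : M.B) : K) = ((aeval g P : M.B) : K) := by
  obtain ⟨p, q, hq, e⟩ := hf
  obtain ⟨P, rfl⟩ := hs p
  obtain ⟨Q, rfl⟩ := hs q
  have hz : (fun j => a (g j)) = 0 := funext h0
  have hev : (M.loc a).ev f = a (aeval g P) / a (aeval g Q) := locEv_eq M.B a hq e
  rw [pt_aeval, pt_aeval, hz, eval_zero] at hev
  rw [pt_aeval, hz, eval_zero] at hq
  exact ⟨P, Q, hq, hev, e⟩

theorem clear2 {N : ℕ} {g : Fin N → M.B}
    (hs : Function.Surjective (aeval g : MvPolynomial (Fin N) ℝ →ₐ[ℝ] M.B))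
    (h0 : ∀ j, a (g j) = 0) {f : K} (hf : f ∈ (M.loc a).m ^ 2) :
    ∃ P Q : MvPolynomial (Fin N) ℝ, constantCoeff Q ≠ 0 ∧ P ∈ idealOfVars (Fin N) ℝ ^ 2 ∧
      f * ((aeval g Q : M.B) : K) = ((aeval g P : M.B) : K) := by
  rw [pow_two] at hf
  refine Submodule.mul_induction_on hf ?_ ?_
  · intro u hu v hv
    obtain ⟨P, Q, hQ, hP, e⟩ := clear1 hs h0 hu.1
    obtain ⟨P', Q', hQ', hP', e'⟩ := clear1 hs h0 hv.1
    rw [hu.2, eq_comm, div_eq_zero_iff, or_iff_left hQ] at hP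
    rw [hv.2, eq_comm, div_eq_zero_iff, or_iff_left hQ'] at hP'
    refine ⟨P * P', Q * Q', by rw [map_mul]; exact mul_ne_zero hQ hQ', ?_, ?_⟩
    · rw [pow_two]
      exact Ideal.mul_mem_mul (mem_vars.2 hP) (mem_vars.2 hP')
    · rw [map_mul, map_mul, Subalgebra.coe_mul, Subalgebra.coe_mul, ← e, ← e']
      ring
  · rintro u v ⟨P, Q, hQ, hP, e⟩ ⟨P', Q', hQ', hP', e'⟩
    refine ⟨P * Q' + P' * Q, Q * Q', by rw [map_mul]; exact mul_ne_zero hQ hQ',
      add_mem (Ideal.mul_mem_right _ _ hP) (Ideal.mul_mem_right _ _ hP'), ?_⟩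
    rw [map_add, map_mul, map_mul, map_mul, Subalgebra.coe_add, Subalgebra.coe_mul,
      Subalgebra.coe_mul, Subalgebra.coe_mul, ← e, ← e']
    ring

theorem exists_pres (h : IsCrd (M.loc a) κ) : Nonempty (Pres M κ a) := by
  obtain ⟨N, g, hs, h0⟩ := exists_gens a
  let α : Fin N → Fin n → ℝ := fun j i => (M.loc a).ev (κ.D i (g j))
  have key : ∀ j, ∃ H ∈ idealOfVars (Fin n ⊕ Fin N) ℝ ^ 2,
      aeval (Sum.elim κ.x fun j => (g j : K)) (lin α j + H) = 0 := by
    intro j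
    have hg : (g j : K) ∈ (M.loc a).m := ⟨M.le_loc a (g j).2, by rw [Model.loc_ev, h0]⟩
    have hl : aeval (Sum.elim κ.x fun j => (g j : K)) (lin α j) =
        (g j : K) - ∑ i, (M.loc a).ev (κ.D i (g j)) • κ.x i := by
      rw [lin, map_sub, map_sum, aeval_X]
      refine congrArg₂ _ rfl (Finset.sum_congr rfl fun i _ => ?_)
      rw [map_mul, aeval_C, aeval_X, Algebra.smul_def]
      rfl
    obtain ⟨P, Q, hQ, hP, e⟩ := clear2 hs h0 (h.sub_linear hg)
    rw [← hl, ← aeval_inr κ.x, ← aeval_inr κ.x] at e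
    refine ⟨C (constantCoeff Q)⁻¹ * ((rename Sum.inr Q - C (constantCoeff Q)) * lin α j -
      rename Sum.inr P), Ideal.mul_mem_left _ _ (sub_mem ?_ (rename_pow _ hP)), ?_⟩
    · rw [pow_two]
      refine Ideal.mul_mem_mul ?_ (lin_mem α j)
      rw [mem_vars, map_sub, constantCoeff_rename, constantCoeff_C, sub_self]
    · have hc : algebraMap ℝ K (constantCoeff Q) ≠ 0 := (map_ne_zero _).2 hQ
      rw [map_add, map_mul, map_sub, map_mul, map_sub, aeval_C, aeval_C, ← e, map_inv₀]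
      field_simp
      ring
  choose H hH hrel using key
  exact ⟨⟨N, g, α, H, hs, h0, hH, hrel⟩⟩

namespace Pres

variable (p : Pres M κ a)

/-- coordinates and generators -/
def y : Fin n ⊕ Fin p.N → K := Sum.elim κ.x fun j => (p.g j : K)

theorem y_mem (h : IsCrd (M.loc a) κ) : ∀ v, p.y v ∈ (M.loc a).m
  | Sum.inl i => h.x_mem_m i
  | Sum.inr j => ⟨M.le_loc a (p.g j).2, (Model.loc_ev a (p.g j)).trans (p.zero j)⟩

/-- the ideal of the equations -/
noncomputable def F : Ideal (MvPolynomial (Fin n ⊕ Fin p.N) ℝ) :=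
  Ideal.span (Set.range fun j => lin p.α j + p.H j)

theorem aeval_F {f : MvPolynomial (Fin n ⊕ Fin p.N) ℝ} (hf : f ∈ p.F) : aeval p.y f = 0 := by
  have : p.F ≤ RingHom.ker (aeval p.y : MvPolynomial (Fin n ⊕ Fin p.N) ℝ →ₐ[ℝ] K) := by
    refine Ideal.span_le.2 ?_
    rintro _ ⟨j, rfl⟩
    exact p.rel j
  exact this hf

theorem first (t : MvPolynomial (Fin n ⊕ Fin p.N) ℝ) (ht : t ∈ idealOfVars (Fin n ⊕ Fin p.N) ℝ) :
    ∃ P : MvPolynomial (Fin n) ℝ, rename Sum.inl P ∈ idealOfVars (Fin n ⊕ Fin p.N) ℝ ∧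
      t - rename Sum.inl P ∈ p.F ⊔ idealOfVars (Fin n ⊕ Fin p.N) ℝ ^ 2 := by
  refine Submodule.span_induction (p := fun t _ => t ∈ idealOfVars (Fin n ⊕ Fin p.N) ℝ ∧
    ∃ P : MvPolynomial (Fin n) ℝ, rename Sum.inl P ∈ idealOfVars (Fin n ⊕ Fin p.N) ℝ ∧
      t - rename Sum.inl P ∈ p.F ⊔ idealOfVars (Fin n ⊕ Fin p.N) ℝ ^ 2) ?_ ?_ ?_ ?_ ht |>.2
  · rintro _ ⟨v, rfl⟩
    refine ⟨X_mem v, ?_⟩
    cases v with
    | inl i => exact ⟨X i, by rw [rename_X]; exact X_mem _, by rw [rename_X, sub_self]; exact zero_mem _⟩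
    | inr j =>
      have e : rename Sum.inl (∑ i, C (p.α j i) * X i : MvPolynomial (Fin n) ℝ) =
          (∑ i, C (p.α j i) * X (Sum.inl i) : MvPolynomial (Fin n ⊕ Fin p.N) ℝ) := by
        rw [map_sum]
        exact Finset.sum_congr rfl fun i _ => by rw [map_mul, rename_C, rename_X]
      refine ⟨∑ i, C (p.α j i) * X i, ?_, ?_⟩
      · rw [e]
        exact sum_mem fun i _ => Ideal.mul_mem_left _ _ (X_mem _)
      · have e2 : X (Sum.inr j) - (∑ i, C (p.α j i) * X (Sum.inl i) :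
            MvPolynomial (Fin n ⊕ Fin p.N) ℝ) = (lin p.α j + p.H j) + -p.H j := by
          rw [lin]; ring
        rw [e, e2]
        exact Submodule.add_mem_sup (Ideal.subset_span ⟨j, rfl⟩) (neg_mem (p.sq j))
  · exact ⟨zero_mem _, 0, by rw [map_zero]; exact zero_mem _, by
      rw [map_zero, sub_zero]; exact zero_mem _⟩
  · rintro u v - - ⟨hu, P, hP, hP'⟩ ⟨hv, Q, hQ, hQ'⟩
    refine ⟨add_mem hu hv, P + Q, by rw [map_add]; exact add_mem hP hQ, ?_⟩
    have e2 : u + v - rename Sum.inl (P + Q) = (u - rename Sum.inl P) + (v - rename Sum.inl Q) := by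
      rw [map_add]; ring
    rw [e2]
    exact add_mem hP' hQ'
  · rintro r u - ⟨hu, P, hP, hP'⟩
    refine ⟨Ideal.mul_mem_left _ _ hu, C (constantCoeff r) * P, ?_, ?_⟩
    · rw [map_mul]
      exact Ideal.mul_mem_left _ _ hP
    · have e2 : r • u - rename Sum.inl (C (constantCoeff r) * P) =
          C (constantCoeff r) * (u - rename Sum.inl P) + (r - C (constantCoeff r)) * u := by
        rw [map_mul, rename_C, smul_eq_mul]; ring
      rw [e2]
      refine add_mem (Ideal.mul_mem_left _ _ hP') (Ideal.mem_sup_right ?_)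
      rw [pow_two]
      exact Ideal.mul_mem_mul (sub_C_mem r) hu

theorem ker (h : IsCrd (M.loc a) κ) {R : MvPolynomial (Fin n ⊕ Fin p.N) ℝ}
    (hR : aeval p.y R = 0) : ∃ Q, constantCoeff Q ≠ 0 ∧ Q * R ∈ p.F := by
  have key : ∀ k, R ∈ p.F ⊔ idealOfVars (Fin n ⊕ Fin p.N) ℝ ^ k := by
    intro k
    obtain ⟨P, hP⟩ := approx (F := p.F) (J := idealOfVars (Fin n ⊕ Fin p.N) ℝ)
      (φ := (rename Sum.inl : MvPolynomial (Fin n) ℝ →ₐ[ℝ] _).toRingHom)
      (fun t => ⟨C (constantCoeff t), by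
        have := sub_C_mem t
        rwa [← rename_C (Sum.inl : Fin n → Fin n ⊕ Fin p.N)] at this⟩) p.first k R
    have hP2 : R - rename Sum.inl P ∈ p.F ⊔ idealOfVars (Fin n ⊕ Fin p.N) ℝ ^ k := hP
    obtain ⟨f, hf, u, hu, e⟩ := Submodule.mem_sup.1 hP2
    have h1 : aeval κ.x P = -aeval p.y u := by
      have h2 := congrArg (aeval p.y) e
      rw [map_add, map_sub, p.aeval_F hf, hR, aeval_rename] at h2
      have h3 : p.y ∘ Sum.inl = κ.x := rfl
      rw [h3] at h2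
      linear_combination h2
    have h4 : aeval κ.x P ∈ (M.loc a).m ^ k := by
      rw [h1]
      exact neg_mem (aeval_pow (p.y_mem h) k u hu)
    have h5 : P ∈ idealOfVars (Fin n) ℝ ^ k :=
      (mem_pow_idealOfVars_iff' k P).2 fun x hx => h.coeff_eq_zero h4 x hx
    have e2 : R = (R - rename Sum.inl P) + rename Sum.inl P := by ring
    rw [e2]
    exact add_mem hP2 (Ideal.mem_sup_right (rename_pow _ h5))
  obtain ⟨r, hr, hr'⟩ := krull key
  refine ⟨1 - r, ?_, hr'⟩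
  rw [map_sub, map_one, mem_vars.1 hr, sub_zero]
  exact one_ne_zero

/-- the higher order terms -/
noncomputable def Hs : Fin n ⊕ Fin p.N → MvPolynomial (Fin n ⊕ Fin p.N) ℝ := Sum.elim 0 p.H

/-- the map that straightens the equations -/
noncomputable def Ψ (z : Fin n ⊕ Fin p.N → ℝ) : Fin n ⊕ Fin p.N → ℝ :=
  z + fun v => eval z (p.Hs v)

/-- the graph of the linear part -/
noncomputable def gr (w : Fin n → ℝ) : Fin n ⊕ Fin p.N → ℝ :=
  Sum.elim w fun j => ∑ i, p.α j i * w i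

theorem Hs_mem : ∀ v, p.Hs v ∈ idealOfVars (Fin n ⊕ Fin p.N) ℝ ^ 2
  | Sum.inl _ => zero_mem _
  | Sum.inr j => p.sq j

theorem strict : HasStrictFDerivAt p.Ψ
    ((ContinuousLinearEquiv.refl ℝ (Fin n ⊕ Fin p.N → ℝ) :
      (Fin n ⊕ Fin p.N → ℝ) ≃L[ℝ] (Fin n ⊕ Fin p.N → ℝ)) :
      (Fin n ⊕ Fin p.N → ℝ) →L[ℝ] (Fin n ⊕ Fin p.N → ℝ)) 0 :=
  strict_map p.Hs_mem

theorem Ψ_zero : p.Ψ 0 = 0 := by
  funext v
  have h := Ideal.pow_le_self two_ne_zero (p.Hs_mem v)
  change (0 : ℝ) + eval 0 (p.Hs v) = 0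
  rw [eval_zero, mem_vars.1 h, add_zero]

theorem Ψ_inl (z : Fin n ⊕ Fin p.N → ℝ) (i : Fin n) : p.Ψ z (Sum.inl i) = z (Sum.inl i) := by
  change z (Sum.inl i) + eval z 0 = _
  rw [map_zero, add_zero]

theorem eval_eq (z : Fin n ⊕ Fin p.N → ℝ) (j : Fin p.N) : eval z (lin p.α j + p.H j) =
    p.Ψ z (Sum.inr j) - ∑ i, p.α j i * z (Sum.inl i) := by
  have e : eval z (∑ i, C (p.α j i) * X (Sum.inl i)) = ∑ i, p.α j i * z (Sum.inl i) := by
    rw [map_sum]
    exact Finset.sum_congr rfl fun i _ => by rw [map_mul, eval_C, eval_X]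
  rw [lin, map_add, map_sub, eval_X, e]
  change _ = z (Sum.inr j) + eval z (p.H j) - _
  ring

theorem Ψ_eq_iff {z : Fin n ⊕ Fin p.N → ℝ} {w : Fin n → ℝ} : p.Ψ z = p.gr w ↔
    (∀ i, z (Sum.inl i) = w i) ∧ ∀ j, eval z (lin p.α j + p.H j) = 0 := by
  constructor
  · intro h
    have h1 : ∀ i, z (Sum.inl i) = w i := fun i => (p.Ψ_inl z i).symm.trans (congrFun h _)
    refine ⟨h1, fun j => ?_⟩
    rw [eval_eq, h, sub_eq_zero]
    change ∑ i, p.α j i * w i = _
    exact Finset.sum_congr rfl fun i _ => by rw [h1]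
  · rintro ⟨h1, h2⟩
    funext v
    cases v with
    | inl i => exact (p.Ψ_inl z i).trans (h1 i)
    | inr j =>
      have h3 := h2 j
      rw [eval_eq, sub_eq_zero] at h3
      rw [h3]
      exact Finset.sum_congr rfl fun i _ => by rw [h1]

theorem gr_tendsto : Tendsto p.gr (𝓝 0) (𝓝 (p.Ψ 0)) := by
  rw [Ψ_zero, tendsto_pi_nhds]
  intro v
  cases v with
  | inl i => exact (continuous_apply i).tendsto (0 : Fin n → ℝ)
  | inr j =>
    have h : Continuous fun w : Fin n → ℝ => ∑ i, p.α j i * w i :=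
      continuous_finsetSum _ fun i _ => continuous_const.mul (continuous_apply i)
    have h2 := h.tendsto 0
    simp only [Pi.zero_apply, mul_zero, Finset.sum_const_zero] at h2
    exact h2

/-- the embedding of a neighbourhood of the point -/
noncomputable def emb (b : M.P) : Fin n ⊕ Fin p.N → ℝ := fun v => (M.loc b).ev (p.y v)

theorem emb_tendsto (h : IsCrd (M.loc a) κ) : Tendsto p.emb (𝓝 a) (𝓝 0) := by
  rw [tendsto_pi_nhds]
  intro v
  have h1 := Model.continuousAt_ev (p.y_mem h v).1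
  rw [ContinuousAt, (p.y_mem h v).2] at h1
  exact h1

theorem Ψ_emb (h : IsCrd (M.loc a) κ) : ∀ᶠ b in 𝓝 a, p.Ψ (p.emb b) = p.gr (M.cm κ b) := by
  have h1 : ∀ᶠ b in 𝓝 a, ∀ v, p.y v ∈ (M.loc b).O :=
    eventually_all.2 fun v => nhds_le_zn (Model.sp_mem (p.y_mem h v).1)
  filter_upwards [h1] with b hb
  refine p.Ψ_eq_iff.2 ⟨fun _ => rfl, fun j => ?_⟩
  have h2 := (ev_aeval hb (lin p.α j + p.H j)).2
  have h3 : aeval p.y (lin p.α j + p.H j) = 0 := p.rel j
  rw [h3, Loc.ev_zero] at h2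
  exact h2.symm

theorem emb_inj {b b' : M.P} (h : p.emb b = p.emb b') : b = b' := by
  have h1 : (fun j => b (p.g j)) = fun j => b' (p.g j) := by
    funext j
    rw [← Model.loc_ev, ← Model.loc_ev]
    exact congrFun h (Sum.inr j)
  refine AlgHom.ext fun f => ?_
  obtain ⟨P, rfl⟩ := p.surj f
  rw [pt_aeval, pt_aeval, h1]

theorem eventually_ker (h : IsCrd (M.loc a) κ) : ∀ᶠ z in 𝓝 (0 : Fin n ⊕ Fin p.N → ℝ),
    (∀ j, eval z (lin p.α j + p.H j) = 0) → ∀ R, aeval p.y R = 0 → eval z R = 0 := by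
  obtain ⟨T, hT⟩ := (isNoetherianRing_iff_ideal_fg _).1 inferInstance
    (RingHom.ker (aeval p.y : MvPolynomial (Fin n ⊕ Fin p.N) ℝ →ₐ[ℝ] K))
  have h1 : ∀ᶠ z in 𝓝 (0 : Fin n ⊕ Fin p.N → ℝ), ∀ R ∈ T,
      (∀ j, eval z (lin p.α j + p.H j) = 0) → eval z R = 0 := by
    rw [eventually_all_finset]
    intro R hR
    have hR' : R ∈ RingHom.ker (aeval p.y : MvPolynomial (Fin n ⊕ Fin p.N) ℝ →ₐ[ℝ] K) :=
      hT ▸ Ideal.subset_span hR
    obtain ⟨Q, hQ, hQR⟩ := p.ker h hR'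
    filter_upwards [(cont Q).eventually_ne hQ] with z hz hz0
    have h2 : p.F ≤ RingHom.ker (eval z) := by
      refine Ideal.span_le.2 ?_
      rintro _ ⟨j, rfl⟩
      exact hz0 j
    have h3 : eval z (Q * R) = 0 := h2 hQR
    rw [map_mul] at h3
    exact (mul_eq_zero.1 h3).resolve_left hz
  filter_upwards [h1] with z hz hz0 R hR
  have h2 : RingHom.ker (aeval p.y : MvPolynomial (Fin n ⊕ Fin p.N) ℝ →ₐ[ℝ] K) ≤
      RingHom.ker (eval z) := by
    rw [← hT]
    exact Ideal.span_le.2 fun R hR => hz R hR hz0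
  exact h2 hR

theorem exists_pt {z : Fin n ⊕ Fin p.N → ℝ} (hz : ∀ R, aeval p.y R = 0 → eval z R = 0) :
    ∃ b : M.P, ∀ P, b (aeval p.g P) = eval z (rename Sum.inr P) := by
  refine ⟨AlgHom.liftOfSurjective (aeval p.g) p.surj ((aeval z).comp (rename Sum.inr)) ?_,
    fun P => AlgHom.liftOfSurjective_apply _ _ _ _ _⟩
  intro P hP
  have h1 : aeval p.g P = 0 := hP
  refine hz (rename Sum.inr P) ?_
  have h2 := aeval_inr κ.x p.g P
  rw [h1] at h2
  exact h2

include p in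
theorem exists_section (h : IsCrd (M.loc a) κ) : ∃ s : (Fin n → ℝ) → M.P,
    Tendsto s (𝓝 0) (𝓝 a) ∧ ∀ᶠ w in 𝓝 0, M.cm κ (s w) = w := by
  classical
  let ζ : (Fin n → ℝ) → Fin n ⊕ Fin p.N → ℝ := fun w => p.strict.localInverse _ _ _ (p.gr w)
  have hζ : Tendsto ζ (𝓝 0) (𝓝 0) := p.strict.localInverse_tendsto.comp p.gr_tendsto
  have h1 : ∀ᶠ w in 𝓝 0, p.Ψ (ζ w) = p.gr w :=
    p.gr_tendsto.eventually p.strict.eventually_right_inverse
  have h2 : ∀ᶠ w in 𝓝 0, (∀ i, ζ w (Sum.inl i) = w i) ∧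
      ∀ R, aeval p.y R = 0 → eval (ζ w) R = 0 := by
    filter_upwards [h1, hζ.eventually (p.eventually_ker h)] with w hw hw'
    exact ⟨(p.Ψ_eq_iff.1 hw).1, hw' (p.Ψ_eq_iff.1 hw).2⟩
  let s : (Fin n → ℝ) → M.P := fun w =>
    if hw : ∃ b : M.P, ∀ P, b (aeval p.g P) = eval (ζ w) (rename Sum.inr P) then hw.choose else a
  have h3 : ∀ᶠ w in 𝓝 0, ∀ P, s w (aeval p.g P) = eval (ζ w) (rename Sum.inr P) := by
    filter_upwards [h2] with w hw
    have hw' := p.exists_pt hw.2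
    have e : s w = hw'.choose := dif_pos hw'
    rw [e]
    exact hw'.choose_spec
  have h4 : Tendsto s (𝓝 0) (𝓝 a) := by
    rw [tendsto_pt]
    intro f
    obtain ⟨P, rfl⟩ := p.surj f
    have hz : (fun j => a (p.g j)) = 0 := funext p.zero
    rw [pt_aeval, hz, eval_zero, ← constantCoeff_rename (Sum.inr : Fin p.N → Fin n ⊕ Fin p.N)]
    exact ((cont _).comp hζ).congr' (h3.mono fun w hw => (hw P).symm)
  refine ⟨s, h4, ?_⟩
  have h5 : ∀ i, ∀ᶠ w in 𝓝 0, M.cm κ (s w) i = w i := by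
    intro i
    obtain ⟨u, q, hq, e⟩ := h.x_mem i
    obtain ⟨P, rfl⟩ := p.surj u
    obtain ⟨Q, rfl⟩ := p.surj q
    have hR : aeval p.y (X (Sum.inl i) * rename Sum.inr Q - rename Sum.inr P) = 0 := by
      rw [map_sub, map_mul, aeval_X, y, aeval_inr, aeval_inr, sub_eq_zero]
      exact e
    filter_upwards [h2, h3, h4.eventually (nhds_le_zn (zn_ne hq))] with w hw hw' hw''
    have h6 := hw.2 _ hR
    rw [map_sub, map_mul, eval_X, hw.1, ← hw', ← hw', sub_eq_zero] at h6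
    have h7 : M.cm κ (s w) i = s w (aeval p.g P) / s w (aeval p.g Q) := locEv_eq M.B (s w) hw'' e
    rw [h7, ← h6, mul_div_cancel_right₀ _ hw'']
  filter_upwards [eventually_all.2 h5] with w hw
  exact funext hw

end Pres

end pres

end MIft

theorem Model.cm_self {M : Model K n} {κ : Chart K n} {a : M.P} (h : IsCrd (M.loc a) κ) :
    M.cm κ a = 0 := funext fun i => (h.x_mem_m i).2

theorem Model.cm_continuousOn {M : Model K n} {κ : Chart K n} {a : M.P}
    (h : IsCrd (M.loc a) κ) : ∃ U ∈ 𝓝 a, ContinuousOn (M.cm κ) U := by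
  refine ⟨{b | ∀ i, κ.x i ∈ (M.loc b).O},
    eventually_all.2 fun i => nhds_le_zn (Model.sp_mem (h.x_mem i)), fun b hb => ?_⟩
  exact (continuousAt_pi.2 fun i => Model.continuousAt_ev (hb i)).continuousWithinAt

theorem Model.cm_injOn {M : Model K n} {κ : Chart K n} {a : M.P} (h : IsCrd (M.loc a) κ) :
    ∃ U ∈ 𝓝 a, Set.InjOn (M.cm κ) U := by
  obtain ⟨p⟩ := MIft.exists_pres h
  refine ⟨{b | p.strict.localInverse _ _ _ (p.gr (M.cm κ b)) = p.emb b}, ?_, ?_⟩
  · filter_upwards [p.Ψ_emb h, (p.emb_tendsto h).eventually p.strict.eventually_left_inverse]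
      with b hb hb'
    rwa [hb] at hb'
  · intro b hb b' hb' e
    refine p.emb_inj ?_
    rw [← hb, e]
    exact hb'

theorem Model.cm_nhds {M : Model K n} {κ : Chart K n} {a : M.P} (h : IsCrd (M.loc a) κ) :
    𝓝 0 ≤ map (M.cm κ) (𝓝 a) := by
  obtain ⟨p⟩ := MIft.exists_pres h
  obtain ⟨s, hs, hs'⟩ := p.exists_section h
  exact le_map_of_right_inverse hs' hs

end Pool.Agent.MP_696f7f_ag.H96
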