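import Pool.Agent.MP_696f7f_ag.H96.Beta

/-! The Zariski topology on real points, constructible sets, regular maps. -/

namespace Pool.Agent.MP_696f7f_ag.H96

open Filter Topology Set

variable {B B' B'' : Type} [CommRing B] [Algebra ℝ B] [CommRing B'] [Algebra ℝ B']
  [CommRing B''] [Algebra ℝ B'']
variable {a : Pt B} {P : Pt B → Prop} {S T A X : Set (Pt B)} {S' T' : Set (Pt B')} {f : B}

theorem eventually_zn : (∀ᶠ b in zn a, P b) ↔ ∃ q : B, a q ≠ 0 ∧ ∀ b : Pt B, b q ≠ 0 → P b :=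
  Iff.rfl
theorem zn_self (h : ∀ᶠ b in zn a, P b) : P a := by
  obtain ⟨q, hq, h⟩ := eventually_zn.1 h
  exact h a hq
theorem zn_ne (h : a f ≠ 0) : ∀ᶠ b in zn a, b f ≠ 0 :=
  eventually_zn.2 ⟨f, h, fun _ hb => hb⟩
theorem zn_zn (h : ∀ᶠ b in zn a, P b) : ∀ᶠ b in zn a, ∀ᶠ c in zn b, P c := by
  obtain ⟨q, hq, h⟩ := eventually_zn.1 h
  exact eventually_zn.2 ⟨q, hq, fun b hb => eventually_zn.2 ⟨q, hb, h⟩⟩
theorem continuous_ev (f : B) : Continuous fun b : Pt B => b f :=
  (continuous_apply f).comp (continuous_induced_dom (f := fun b : Pt B => (b : B → ℝ)))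
theorem continuous_pt {X : Type*} [TopologicalSpace X] {φ : X → Pt B}
    (h : ∀ f, Continuous fun x => φ x f) : Continuous φ :=
  continuous_induced_rng.2 (continuous_pi h)
theorem tendsto_pt {X : Type*} {l : Filter X} {φ : X → Pt B} :
    Tendsto φ l (𝓝 a) ↔ ∀ f, Tendsto (fun x => φ x f) l (𝓝 (a f)) := by
  rw [nhds_induced, tendsto_comap_iff, tendsto_pi_nhds]
  rfl
instance : T2Space (Pt B) :=
  (Topology.IsEmbedding.mk ⟨rfl⟩ (fun _ _ h => DFunLike.coe_injective h) :
    Topology.IsEmbedding (fun b : Pt B => (b : B → ℝ))).t2Space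
theorem nhds_le_zn : 𝓝 a ≤ zn a := by
  intro s hs
  obtain ⟨q, hq, h⟩ := hs
  have : ∀ᶠ b in 𝓝 a, b q ≠ 0 := (continuous_ev q).continuousAt.eventually_ne hq
  exact this.mono h
/-- bounded generators give a compact real locus -/
theorem compactSpace_of_bdd (G : Set B) (hG : Algebra.adjoin ℝ G = ⊤)
    (h : ∀ g ∈ G, ∃ C : ℝ, ∀ b : Pt B, |b g| ≤ C) : CompactSpace (Pt B) := by
  have hb : ∀ f : B, ∃ C : ℝ, ∀ b : Pt B, |b f| ≤ C := by
    intro f
    have hf : f ∈ Algebra.adjoin ℝ G := hG ▸ Algebra.mem_top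
    induction hf using Algebra.adjoin_induction with
    | mem x hx => exact h x hx
    | algebraMap r => exact ⟨|r|, fun b => by simp⟩
    | add x y _ _ hx hy =>
      obtain ⟨C, hC⟩ := hx
      obtain ⟨D, hD⟩ := hy
      exact ⟨C + D, fun b => by
        rw [map_add]; exact (abs_add_le _ _).trans (add_le_add (hC b) (hD b))⟩
    | mul x y _ _ hx hy =>
      obtain ⟨C, hC⟩ := hx
      obtain ⟨D, hD⟩ := hy
      exact ⟨C * D, fun b => by
        rw [map_mul, abs_mul]
        exact mul_le_mul (hC b) (hD b) (abs_nonneg _) ((abs_nonneg _).trans (hC b))⟩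
  choose C hC using hb
  have hemb : Topology.IsEmbedding (fun b : Pt B => (b : B → ℝ)) :=
    Topology.IsEmbedding.mk ⟨rfl⟩ (fun _ _ h => DFunLike.coe_injective h)
  have hcl : IsClosed (range fun b : Pt B => (b : B → ℝ)) := by
    have : (range fun b : Pt B => (b : B → ℝ)) =
        ((⋂ x : B, ⋂ y : B, {u : B → ℝ | u (x + y) = u x + u y}) ∩
        (⋂ x : B, ⋂ y : B, {u : B → ℝ | u (x * y) = u x * u y})) ∩
        (⋂ r : ℝ, {u : B → ℝ | u (algebraMap ℝ B r) = r}) := by
      ext u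
      simp only [mem_range, mem_inter_iff, mem_iInter, mem_ofPred_eq]
      constructor
      · rintro ⟨b, rfl⟩
        exact ⟨⟨fun x y => map_add b x y, fun x y => map_mul b x y⟩, fun r => by simp⟩
      · rintro ⟨⟨h1, h2⟩, h3⟩
        refine ⟨⟨⟨⟨⟨u, ?_⟩, h2⟩, ?_, h1⟩, h3⟩, rfl⟩
        · simpa using h3 1
        · simpa using h3 0
    rw [this]
    refine IsClosed.inter (IsClosed.inter ?_ ?_) ?_
    · exact isClosed_iInter fun x => isClosed_iInter fun y =>
        isClosed_eq (continuous_apply _) (by fun_prop)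
    · exact isClosed_iInter fun x => isClosed_iInter fun y =>
        isClosed_eq (continuous_apply _) (by fun_prop)
    · exact isClosed_iInter fun r => isClosed_eq (continuous_apply _) continuous_const
  have hK : IsCompact (Set.pi univ fun f : B => Icc (-C f) (C f)) :=
    isCompact_univ_pi fun f => isCompact_Icc
  have hr : IsCompact (range fun b : Pt B => (b : B → ℝ)) := by
    refine hK.of_isClosed_subset hcl ?_
    rintro _ ⟨b, rfl⟩ f _
    exact abs_le.1 (hC f b)
  rw [← isCompact_univ_iff, hemb.isCompact_iff, image_univ]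
  exact hr

theorem mem_van : f ∈ van S ↔ ∀ b ∈ S, b f = 0 := Iff.rfl
theorem van_anti (h : S ⊆ T) : van T ≤ van S := fun _ hf b hb => hf b (h hb)
theorem van_union : van (S ∪ T) = van S ⊓ van T := by
  ext f
  simp only [Ideal.mem_inf, mem_van, mem_union]
  exact ⟨fun h => ⟨fun b hb => h b (Or.inl hb), fun b hb => h b (Or.inr hb)⟩,
    fun h b hb => hb.elim (h.1 b) (h.2 b)⟩
theorem van_empty : van (∅ : Set (Pt B)) = ⊤ := by
  ext f
  simp [mem_van]
theorem van_eq_top : van S = ⊤ ↔ S = ∅ := by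
  refine ⟨fun h => ?_, fun h => h ▸ van_empty⟩
  rw [eq_empty_iff_forall_notMem]
  intro b hb
  have : (1 : B) ∈ van S := h ▸ Submodule.mem_top
  simpa using this b hb
theorem subset_zcl : S ⊆ zcl S := fun b hb _ hf => hf b hb
theorem zcl_mono (h : S ⊆ T) : zcl S ⊆ zcl T := fun _ ha f hf => ha f (van_anti h hf)
theorem van_zcl : van (zcl S) = van S :=
  le_antisymm (van_anti subset_zcl) fun f hf _ hb => hb f hf
theorem zclosed_zcl : ZClosed (zcl S) := fun _ ha f hf => ha f fun _ hb => hb f hf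
theorem zcl_empty : zcl (∅ : Set (Pt B)) = ∅ := by
  rw [eq_empty_iff_forall_notMem]
  intro b hb
  simpa using hb 1 (fun _ h => absurd h (notMem_empty _))
theorem ZClosed.zcl_eq (h : ZClosed S) : zcl S = S := Subset.antisymm h subset_zcl
theorem zcl_subset (h : S ⊆ T) (hT : ZClosed T) : zcl S ⊆ T := (zcl_mono h).trans hT
theorem zclosed_iff : ZClosed S ↔ ∀ a ∉ S, ∀ᶠ b in zn a, b ∉ S := by
  constructor
  · intro h a ha
    have : a ∉ zcl S := fun h' => ha (h h')
    simp only [zcl, mem_ofPred_eq, not_forall] at this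
    obtain ⟨f, hf, hne⟩ := this
    exact eventually_zn.2 ⟨f, hne, fun b hb hS => hb (hf b hS)⟩
  · intro h a ha
    by_contra hn
    obtain ⟨q, hq, h'⟩ := eventually_zn.1 (h a hn)
    refine hq (ha q fun b hb => ?_)
    by_contra hbq
    exact h' b hbq hb
theorem ZClosed.exists_ne (h : ZClosed S) (ha : a ∉ S) : ∃ f ∈ van S, a f ≠ 0 := by
  by_contra hn
  refine ha (h fun f hf => ?_)
  by_contra hne
  exact hn ⟨f, hf, hne⟩
theorem zclosed_empty : ZClosed (∅ : Set (Pt B)) := zcl_empty.subset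
theorem zclosed_univ : ZClosed (univ : Set (Pt B)) := subset_univ _
theorem zclosed_zero (f : B) : ZClosed {b : Pt B | b f = 0} := fun _ ha => ha f fun _ hb => hb
theorem ZClosed.inter (h : ZClosed S) (h' : ZClosed T) : ZClosed (S ∩ T) := fun _ ha =>
  ⟨h (zcl_mono inter_subset_left ha), h' (zcl_mono inter_subset_right ha)⟩
theorem ZClosed.union (h : ZClosed S) (h' : ZClosed T) : ZClosed (S ∪ T) := by
  rw [zclosed_iff] at *
  intro a ha
  rw [mem_union, not_or] at ha
  filter_upwards [h a ha.1, h' a ha.2] with b h1 h2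
  rw [mem_union, not_or]
  exact ⟨h1, h2⟩
theorem zclosed_iInter {ι : Sort*} {F : ι → Set (Pt B)} (h : ∀ i, ZClosed (F i)) :
    ZClosed (⋂ i, F i) := fun _ ha =>
  mem_iInter.2 fun i => h i (zcl_mono (iInter_subset F i) ha)
theorem zclosed_biUnion {ι : Type*} (u : Finset ι) {F : ι → Set (Pt B)}
    (h : ∀ i ∈ u, ZClosed (F i)) : ZClosed (⋃ i ∈ u, F i) := by
  classical
  induction u using Finset.induction_on with
  | empty => simpa using zclosed_empty
  | insert i u _ ih =>
    rw [Finset.set_biUnion_insert]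
    exact (h i (Finset.mem_insert_self _ _)).union
      (ih fun j hj => h j (Finset.mem_insert_of_mem hj))
theorem zclosed_iUnion_of_bd {F : ℕ → Set (Pt B)} {k : ℕ} (h : ∀ i, ZClosed (F i))
    (hk : ∀ i, k ≤ i → F i = ∅) : ZClosed (⋃ i, F i) := by
  have : (⋃ i, F i) = ⋃ i ∈ Finset.range k, F i := by
    ext b
    simp only [mem_iUnion, Finset.mem_range]
    constructor
    · rintro ⟨i, hi⟩
      refine ⟨i, ?_, hi⟩
      by_contra hn
      rw [hk i (not_lt.1 hn)] at hi
      exact hi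
    · rintro ⟨i, _, hi⟩
      exact ⟨i, hi⟩
  rw [this]
  exact zclosed_biUnion _ fun i _ => h i
theorem ZClosed.isClosed (h : ZClosed S) : IsClosed S := by
  rw [← isOpen_compl_iff, isOpen_iff_eventually]
  intro a ha
  exact (zclosed_iff.1 h a ha).filter_mono nhds_le_zn
theorem ZClosed.van_ne_bot (h : ZClosed S) (hu : S ≠ univ) : van S ≠ ⊥ := by
  intro hb
  refine hu (eq_univ_of_forall fun a => h fun f hf => ?_)
  rw [hb, Ideal.mem_bot] at hf
  simp [hf]
theorem van_union_ne_bot [IsDomain B] (h : van S ≠ ⊥) (h' : van T ≠ ⊥) : van (S ∪ T) ≠ ⊥ := by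
  obtain ⟨f, hf, hf0⟩ := Submodule.exists_mem_ne_zero_of_ne_bot h
  obtain ⟨g, hg, hg0⟩ := Submodule.exists_mem_ne_zero_of_ne_bot h'
  rw [van_union]
  intro hb
  have : f * g ∈ van S ⊓ van T := ⟨Ideal.mul_mem_right _ _ hf, Ideal.mul_mem_left _ _ hg⟩
  rw [hb, Ideal.mem_bot] at this
  exact mul_ne_zero hf0 hg0 this
theorem ZClosed.exists_eq [Algebra.FiniteType ℝ B] (h : ZClosed S) :
    ∃ f ∈ van S, S = {b | b f = 0} := by
  have : IsNoetherianRing B := Algebra.FiniteType.isNoetherianRing ℝ B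
  obtain ⟨t, ht⟩ := IsNoetherian.noetherian (van S)
  have hm : ∀ g ∈ t, g ∈ van S := fun g hg => ht ▸ Submodule.subset_span hg
  refine ⟨∑ g ∈ t, g ^ 2, Ideal.sum_mem _ fun g hg => Ideal.pow_mem_of_mem _ (hm g hg) 2 two_pos,
    Subset.antisymm (fun b hb => ?_) fun b hb => h fun f hf => ?_⟩
  · simp only [mem_ofPred_eq, map_sum, map_pow]
    exact Finset.sum_eq_zero fun g hg => by rw [hm g hg b hb]; norm_num
  · simp only [mem_ofPred_eq, map_sum, map_pow] at hb
    rw [Finset.sum_eq_zero_iff_of_nonneg fun g _ => sq_nonneg _] at hb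
    have : van S ≤ RingHom.ker b := by
      rw [← ht]
      exact Submodule.span_le.2 fun g hg => (pow_eq_zero_iff two_ne_zero).1 (hb g hg)
    exact this hf
/-- every set of real points is quasi-compact for the Zariski topology -/
theorem exists_finset_cover [Algebra.FiniteType ℝ B] (A : Set (Pt B)) (Q : Pt B → Pt B → Prop)
    (h : ∀ a ∈ A, ∀ᶠ b in zn a, Q a b) :
    ∃ t : Finset (Pt B), (∀ a ∈ t, a ∈ A) ∧ ∀ b ∈ A, ∃ a ∈ t, Q a b := by
  classical
  have : IsNoetherianRing B := Algebra.FiniteType.isNoetherianRing ℝ B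
  have h' : ∀ a : A, ∃ q : B, a.1 q ≠ 0 ∧ ∀ b : Pt B, b q ≠ 0 → Q a b :=
    fun a => eventually_zn.1 (h a a.2)
  choose q hq hQ using h'
  have hfg : (Submodule.span B (range q)).FG := IsNoetherian.noetherian _
  obtain ⟨t, ht, hs⟩ := (Submodule.fg_span_iff_fg_span_finset_subset _).1 hfg
  have : ∀ g : t, ∃ a : A, q a = g := fun g => ht g.2
  choose c hc using this
  refine ⟨Finset.univ.image fun g => (c g : Pt B), fun a ha => ?_, fun b hb => ?_⟩
  · obtain ⟨g, _, rfl⟩ := Finset.mem_image.1 ha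
    exact (c g).2
  · by_contra hn
    have hk : Submodule.span B (range q) ≤ RingHom.ker b := by
      rw [hs]
      refine Submodule.span_le.2 fun g hg => ?_
      by_contra hne
      refine hn ⟨c ⟨g, hg⟩, Finset.mem_image.2 ⟨_, Finset.mem_univ _, rfl⟩, hQ _ b ?_⟩
      rw [hc]
      exact hne
    exact hq ⟨b, hb⟩ (hk (Submodule.subset_span ⟨⟨b, hb⟩, rfl⟩))
theorem zclosed_induction [Algebra.FiniteType ℝ B] {Q : Set (Pt B) → Prop}
    (h : ∀ X, ZClosed X → (∀ X', ZClosed X' → X' ⊂ X → Q X') → Q X) (hX : ZClosed X) : Q X := by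
  have : IsNoetherianRing B := Algebra.FiniteType.isNoetherianRing ℝ B
  have key : ∀ I : Ideal B, ∀ X, ZClosed X → van X = I → Q X := by
    intro I
    induction I using WellFoundedGT.induction with
    | ind I ih =>
      intro X hX hI
      refine h X hX fun X' hX' hlt => ih (van X') ?_ X' hX' rfl
      rw [← hI]
      refine lt_of_le_of_ne (van_anti hlt.subset) fun he => hlt.not_superset ?_
      intro a ha
      exact hX' fun f hf => (he ▸ hf : f ∈ van X) a ha
  exact key _ X hX rfl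
/-- a locally constant label cuts a closed set into finitely many closed pieces -/
theorem locConst_pieces [Algebra.FiniteType ℝ B] {Λ : Type*} (hA : ZClosed A) (l : Pt B → Λ)
    (h : ∀ a ∈ A, ∀ᶠ b in zn a, b ∈ A → l b = l a) :
    (l '' A).Finite ∧ ∀ c, ZClosed {b ∈ A | l b = c} := by
  constructor
  · obtain ⟨t, _, ht⟩ := exists_finset_cover A (fun a b => b ∈ A → l b = l a) h
    refine ((t.finite_toSet).image l).subset ?_
    rintro _ ⟨b, hb, rfl⟩
    obtain ⟨a, ha, hab⟩ := ht b hb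
    exact ⟨a, ha, (hab hb).symm⟩
  · intro c
    rw [zclosed_iff]
    intro a ha
    by_cases haA : a ∈ A
    · filter_upwards [h a haA] with b hb hn
      exact ha ⟨haA, (hb hn.1).symm.trans hn.2⟩
    · filter_upwards [zclosed_iff.1 hA a haA] with b hb hn
      exact hb hn.1
/-- a closed set with non-prime ideal is empty or a union of two smaller closed sets -/
theorem ZClosed.split (hX : ZClosed X) (hp : ¬ (van X).IsPrime) :
    X = ∅ ∨ ∃ X1 X2, ZClosed X1 ∧ ZClosed X2 ∧ X1 ⊂ X ∧ X2 ⊂ X ∧ X = X1 ∪ X2 := by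
  by_cases hT : van X = ⊤
  · exact Or.inl (van_eq_top.1 hT)
  right
  obtain ⟨f, hf, g, hg, hfg⟩ := (Ideal.not_isPrime_iff.1 hp).resolve_left hT
  have hss : ∀ u : B, u ∉ van X → X ∩ {b | b u = 0} ⊂ X := fun u hu =>
    ⟨inter_subset_left, fun hs => hu fun b hb => (hs hb).2⟩
  refine ⟨X ∩ {b | b f = 0}, X ∩ {b | b g = 0}, hX.inter (zclosed_zero f),
    hX.inter (zclosed_zero g), hss f hf, hss g hg,
    Subset.antisymm (fun b hb => ?_) (union_subset inter_subset_left inter_subset_left)⟩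
  have := hfg b hb
  rw [map_mul, mul_eq_zero] at this
  exact this.imp (fun h => ⟨hb, h⟩) fun h => ⟨hb, h⟩
theorem subset_or_of_prime (hp : (van X).IsPrime) (hS : ZClosed S) (hT : ZClosed T) {q : B}
    (hq : q ∉ van X) (h : ∀ b ∈ X, b q ≠ 0 → b ∈ S ∪ T) : X ⊆ S ∨ X ⊆ T := by
  by_contra hn
  rw [not_or, not_subset, not_subset] at hn
  obtain ⟨⟨a, ha, haS⟩, ⟨c, hc, hcT⟩⟩ := hn
  obtain ⟨f, hf, hfa⟩ := hS.exists_ne haS
  obtain ⟨g, hg, hgc⟩ := hT.exists_ne hcT
  have : q * (f * g) ∈ van X := by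
    intro b hb
    rw [map_mul, map_mul]
    by_cases hbq : b q = 0
    · rw [hbq, zero_mul]
    · rcases h b hb hbq with h1 | h1
      · rw [hf b h1, zero_mul, mul_zero]
      · rw [hg b h1, mul_zero, mul_zero]
  rcases hp.mem_or_mem this with h1 | h1
  · exact hq h1
  rcases hp.mem_or_mem h1 with h1 | h1
  · exact hfa (h1 a ha)
  · exact hgc (h1 c hc)

theorem constr_empty : Constr (∅ : Set (Pt B)) := by
  have := Constr.zero (1 : B)
  simpa using this
theorem constr_univ : Constr (univ : Set (Pt B)) := by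
  have := Constr.zero (0 : B)
  simpa using this
theorem constr_ne (f : B) : Constr {b : Pt B | b f ≠ 0} := (Constr.zero f).compl
theorem Constr.inter (h : Constr S) (h' : Constr T) : Constr (S ∩ T) := by
  have := (h.compl.union h'.compl).compl
  rwa [compl_union, compl_compl, compl_compl] at this
theorem Constr.diff (h : Constr S) (h' : Constr T) : Constr (S \ T) := h.inter h'.compl
theorem constr_biUnion {ι : Type*} (u : Finset ι) {F : ι → Set (Pt B)}
    (h : ∀ i ∈ u, Constr (F i)) : Constr (⋃ i ∈ u, F i) := by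
  classical
  induction u using Finset.induction_on with
  | empty => simpa using constr_empty
  | insert i u _ ih =>
    rw [Finset.set_biUnion_insert]
    exact (h i (Finset.mem_insert_self _ _)).union
      (ih fun j hj => h j (Finset.mem_insert_of_mem hj))
theorem ZClosed.constr [Algebra.FiniteType ℝ B] (h : ZClosed S) : Constr S := by
  obtain ⟨f, _, hf⟩ := h.exists_eq
  rw [hf]
  exact Constr.zero f
theorem Constr.comap (h : Constr S') (g : B' →ₐ[ℝ] B) :
    Constr ((fun b : Pt B => b.comp g) ⁻¹' S') := by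
  induction h with
  | zero f => exact Constr.zero (g f)
  | compl _ ih => exact ih.compl
  | union _ _ ih ih' => exact ih.union ih'
theorem Constr.basePt (h : Constr S) : Constr (basePt ⁻¹' S) := h.comap Polynomial.CAlgHom
/-- on an irreducible set a constructible set or its complement contains a dense open subset -/
theorem Constr.dichotomy (h : Constr S) (hp : (van X).IsPrime) :
    ∃ q ∉ van X, (∀ b ∈ X, b q ≠ 0 → b ∈ S) ∨ (∀ b ∈ X, b q ≠ 0 → b ∉ S) := by
  induction h with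
  | zero f =>
    by_cases hf : f ∈ van X
    · exact ⟨1, (Ideal.ne_top_iff_one _).1 hp.ne_top, Or.inl fun b hb _ => hf b hb⟩
    · exact ⟨f, hf, Or.inr fun b _ hb => hb⟩
  | compl _ ih =>
    obtain ⟨q, hq, h⟩ := ih
    exact ⟨q, hq, h.symm.imp id fun h b hb hbq => not_not.2 (h b hb hbq)⟩
  | union _ _ ih ih' =>
    obtain ⟨q, hq, h | h⟩ := ih
    · exact ⟨q, hq, Or.inl fun b hb hbq => Or.inl (h b hb hbq)⟩
    obtain ⟨q', hq', h' | h'⟩ := ih'
    · exact ⟨q', hq', Or.inl fun b hb hbq => Or.inr (h' b hb hbq)⟩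
    refine ⟨q * q', fun hm => (hp.mem_or_mem hm).elim hq hq', Or.inr fun b hb hbq hm => ?_⟩
    rw [map_mul] at hbq
    exact hm.elim (h b hb (left_ne_zero_of_mul hbq)) (h' b hb (right_ne_zero_of_mul hbq))

variable {φ φ' : Pt B → Pt B'} {ψ : Pt B' → Pt B}

theorem Reg.mono (h : Reg S φ) (hT : T ⊆ S) : Reg T φ := by
  intro f' b hb
  obtain ⟨p, q, hq, h⟩ := h f' b (hT hb)
  exact ⟨p, q, hq, fun x hx => h x (hT hx)⟩
theorem Reg.congr (h : Reg S φ) (he : ∀ x ∈ S, φ' x = φ x) : Reg S φ' := by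
  intro f' b hb
  obtain ⟨p, q, hq, h⟩ := h f' b hb
  exact ⟨p, q, hq, fun x hx hxq => by rw [he x hx]; exact h x hx hxq⟩
theorem reg_id : Reg S (id : Pt B → Pt B) :=
  fun f' _ _ => ⟨f', 1, by simp, fun x _ _ => by simp⟩
theorem reg_comap (g : B' →ₐ[ℝ] B) : Reg S (fun b : Pt B => b.comp g) := fun f' _ _ =>
  ⟨g f', 1, by simp, fun x _ _ => by simp⟩
theorem Reg.comp {χ : Pt B' → Pt B''} (h' : Reg S' χ) (h : Reg S φ) (hm : MapsTo φ S S') :
    Reg S (χ ∘ φ) := by
  intro f'' b hb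
  obtain ⟨p', q', hq', h1⟩ := h' f'' (φ b) (hm hb)
  obtain ⟨p1, q1, hq1, h2⟩ := h p' b hb
  obtain ⟨p2, q2, hq2, h3⟩ := h q' b hb
  have hp2 : b p2 ≠ 0 := by
    rw [← h3 b hb hq2]
    exact mul_ne_zero hq' hq2
  refine ⟨p1 * q2 * q2, p2 * q1 * q2, by simp [hp2, hq1, hq2], fun x hx hxq => ?_⟩
  simp only [map_mul, ne_eq, mul_eq_zero, not_or] at hxq
  obtain ⟨⟨a1, a2⟩, a3⟩ := hxq
  have e3 := h3 x hx a3
  have e2 := h2 x hx a2
  have a4 : φ x q' ≠ 0 := by
    intro h0
    rw [h0, zero_mul] at e3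
    exact a1 e3.symm
  have e1 := h1 (φ x) (hm hx) a4
  simp only [Function.comp, map_mul]
  rw [← e3, ← e2, ← e1]
  ring
/-- it is enough to check regularity on generators -/
theorem reg_of_adjoin (G : Set B') (hG : Algebra.adjoin ℝ G = ⊤)
    (h : ∀ f' ∈ G, ∀ b ∈ S, ∃ p q : B, b q ≠ 0 ∧ ∀ x ∈ S, x q ≠ 0 → φ x f' * x q = x p) :
    Reg S φ := by
  intro f'
  have hf : f' ∈ Algebra.adjoin ℝ G := hG ▸ Algebra.mem_top
  induction hf using Algebra.adjoin_induction with
  | mem x hx => exact h x hx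
  | algebraMap r => exact fun b _ => ⟨algebraMap ℝ B r, 1, by simp, fun x _ _ => by simp⟩
  | add u v _ _ hu hv =>
    intro b hb
    obtain ⟨p, q, hq, h1⟩ := hu b hb
    obtain ⟨p', q', hq', h2⟩ := hv b hb
    refine ⟨p * q' + p' * q, q * q', by simp [hq, hq'], fun x hx hxq => ?_⟩
    rw [map_mul] at hxq
    simp only [map_add, map_mul]
    rw [← h1 x hx (left_ne_zero_of_mul hxq), ← h2 x hx (right_ne_zero_of_mul hxq)]
    ring
  | mul u v _ _ hu hv =>
    intro b hb
    obtain ⟨p, q, hq, h1⟩ := hu b hb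
    obtain ⟨p', q', hq', h2⟩ := hv b hb
    refine ⟨p * p', q * q', by simp [hq, hq'], fun x hx hxq => ?_⟩
    rw [map_mul] at hxq
    simp only [map_mul]
    rw [← h1 x hx (left_ne_zero_of_mul hxq), ← h2 x hx (right_ne_zero_of_mul hxq)]
    ring
theorem Reg.continuousOn (h : Reg S φ) : ContinuousOn φ S := by
  intro b hb
  rw [ContinuousWithinAt, tendsto_pt]
  intro f'
  obtain ⟨p, q, hq, h1⟩ := h f' b hb
  have hc : ContinuousWithinAt (fun x : Pt B => x p / x q) S b :=
    ((continuous_ev p).continuousAt.div (continuous_ev q).continuousAt hq).continuousWithinAt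
  have he : (fun x => φ x f') =ᶠ[𝓝[S] b] fun x : Pt B => x p / x q := by
    have h2 : ∀ᶠ x in 𝓝[S] b, x q ≠ 0 :=
      ((continuous_ev q).continuousAt.eventually_ne hq).filter_mono nhdsWithin_le_nhds
    filter_upwards [h2, self_mem_nhdsWithin] with x hx hxS
    rw [eq_div_iff hx]
    exact h1 x hxS hx
  exact hc.congr_of_eventuallyEq he (by rw [eq_div_iff hq]; exact h1 b hb hq)
theorem Reg.closed_preimage (h : Reg S φ) (hF : ZClosed T') :
    ∃ F, ZClosed F ∧ S ∩ φ ⁻¹' T' = S ∩ F := by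
  refine ⟨zcl (S ∩ φ ⁻¹' T'), zclosed_zcl,
    Subset.antisymm (fun b hb => ⟨hb.1, subset_zcl hb⟩) fun b hb => ⟨hb.1, hF fun f' hf' => ?_⟩⟩
  obtain ⟨p, q, hq, h1⟩ := h f' b hb.1
  have : p * q ∈ van (S ∩ φ ⁻¹' T') := by
    intro x hx
    rw [map_mul]
    by_cases hxq : x q = 0
    · rw [hxq, mul_zero]
    · rw [← h1 x hx.1 hxq, hf' _ hx.2, zero_mul, zero_mul]
  have h2 := hb.2 _ this
  rw [map_mul, ← h1 b hb.1 hq] at h2
  simpa [hq] using h2
theorem Reg.constr [Algebra.FiniteType ℝ B] (h : Reg S φ) (hS : Constr S) (hT : Constr T') :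
    Constr (S ∩ φ ⁻¹' T') := by
  induction hT with
  | zero f =>
    obtain ⟨F, hF, he⟩ := h.closed_preimage (zclosed_zero f)
    rw [he]
    exact hS.inter hF.constr
  | @compl U _ ih =>
    have : S ∩ φ ⁻¹' Uᶜ = S \ (S ∩ φ ⁻¹' U) := by
      ext x
      simp only [mem_inter_iff, mem_preimage, mem_compl_iff, Set.mem_sdiff]
      tauto
    rw [this]
    exact hS.diff ih
  | union _ _ ih ih' =>
    rw [preimage_union, inter_union_distrib_left]
    exact ih.union ih'

/-- existence of a biregular bijection -/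
def Bireg (S : Set (Pt B)) (S' : Set (Pt B')) : Prop := ∃ φ ψ, BiregBy S S' φ ψ

theorem BiregBy.symm (h : BiregBy S S' φ ψ) : BiregBy S' S ψ φ :=
  ⟨h.maps', h.maps, h.right, h.left, h.reg', h.reg⟩
theorem BiregBy.trans {S'' : Set (Pt B'')} {χ : Pt B' → Pt B''} {ω : Pt B'' → Pt B'}
    (h : BiregBy S S' φ ψ) (h' : BiregBy S' S'' χ ω) : BiregBy S S'' (χ ∘ φ) (ψ ∘ ω) :=
  ⟨h'.maps.comp h.maps, h.maps'.comp h'.maps',
    fun x hx => by simp only [Function.comp]; rw [h'.left _ (h.maps hx), h.left x hx],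
    fun y hy => by simp only [Function.comp]; rw [h.right _ (h'.maps' hy), h'.right y hy],
    h'.reg.comp h.reg h.maps, h.reg'.comp h'.reg' h'.maps'⟩
theorem BiregBy.restrict (h : BiregBy S S' φ ψ) (hT : T ⊆ S) :
    BiregBy T (S' ∩ ψ ⁻¹' T) φ ψ :=
  ⟨fun x hx => ⟨h.maps (hT hx), by rw [mem_preimage, h.left x (hT hx)]; exact hx⟩,
    fun _ hy => hy.2, fun x hx => h.left x (hT hx), fun y hy => h.right y hy.1,
    h.reg.mono hT, h.reg'.mono inter_subset_left⟩
theorem BiregBy.image_eq (h : BiregBy S S' φ ψ) (hT : T ⊆ S) : φ '' T = S' ∩ ψ ⁻¹' T := by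
  refine Subset.antisymm ?_ fun y hy => ⟨ψ y, hy.2, h.right y hy.1⟩
  rintro _ ⟨x, hx, rfl⟩
  exact (h.restrict hT).maps hx
theorem Bireg.refl : Bireg S S :=
  ⟨id, id, mapsTo_id _, mapsTo_id _, fun _ _ => rfl, fun _ _ => rfl, reg_id, reg_id⟩
theorem Bireg.symm (h : Bireg S S') : Bireg S' S := by
  obtain ⟨φ, ψ, h⟩ := h
  exact ⟨ψ, φ, h.symm⟩
theorem Bireg.trans {S'' : Set (Pt B'')} (h : Bireg S S') (h' : Bireg S' S'') : Bireg S S'' := by
  obtain ⟨φ, ψ, h⟩ := h
  obtain ⟨χ, ω, h'⟩ := h'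
  exact ⟨_, _, h.trans h'⟩
theorem Bireg.nonempty (h : Bireg S S') (hS : S.Nonempty) : S'.Nonempty := by
  obtain ⟨φ, ψ, h⟩ := h
  obtain ⟨x, hx⟩ := hS
  exact ⟨φ x, h.maps hx⟩
theorem bireg_equiv (e : B ≃ₐ[ℝ] B') (S : Set (Pt B)) :
    Bireg S ((fun b : Pt B' => b.comp (e : B →ₐ[ℝ] B')) ⁻¹' S) := by
  have h1 : ∀ x : Pt B, (x.comp (e.symm : B' →ₐ[ℝ] B)).comp (e : B →ₐ[ℝ] B') = x :=
    fun x => AlgHom.ext fun f => by simp
  refine ⟨fun b => b.comp (e.symm : B' →ₐ[ℝ] B), fun b => b.comp (e : B →ₐ[ℝ] B'),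
    fun x hx => ?_, fun _ hy => hy, fun x _ => h1 x, fun y _ => AlgHom.ext fun f => by simp,
    reg_comap _, reg_comap _⟩
  rw [mem_preimage, h1]
  exact hx

namespace MZar

/-- the map of lines over a map of bases -/
noncomputable def lift (φ : Pt B → Pt B') (x : Pt (Polynomial B)) : Pt (Polynomial B') :=
  Polynomial.aevalTower (φ (basePt x)) (x Polynomial.X)

theorem basePt_lift (x : Pt (Polynomial B)) : basePt (lift φ x) = φ (basePt x) :=
  AlgHom.ext fun f => by simp [basePt, lift]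

theorem pt_ext {x y : Pt (Polynomial B)} (h : basePt x = basePt y)
    (h' : x Polynomial.X = y Polynomial.X) : x = y :=
  Polynomial.algHom_ext' h h'

theorem reg_lift (h : Reg S φ) : Reg (basePt ⁻¹' S) (lift φ) := by
  refine reg_of_adjoin (range Polynomial.C ∪ {Polynomial.X}) ?_ ?_
  · rw [eq_top_iff]
    rintro f -
    induction f using Polynomial.induction_on with
    | C c => exact Algebra.subset_adjoin (Or.inl ⟨c, rfl⟩)
    | add p q hp hq => exact add_mem hp hq
    | monomial n c ih =>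
      rw [pow_succ, ← mul_assoc]
      exact mul_mem ih (Algebra.subset_adjoin (Or.inr rfl))
  · rintro _ (⟨c, rfl⟩ | rfl) b hb
    · obtain ⟨p, q, hq, h1⟩ := h c (basePt b) hb
      refine ⟨Polynomial.C p, Polynomial.C q, hq, fun x hx hxq => ?_⟩
      have := h1 (basePt x) hx hxq
      simpa [lift, basePt] using this
    · exact ⟨Polynomial.X, 1, by simp, fun x _ _ => by simp [lift]⟩

end MZar

/-- products with the line -/
theorem Bireg.basePt (h : Bireg S S') : Bireg (basePt ⁻¹' S) (basePt ⁻¹' S') := by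
  obtain ⟨φ, ψ, h⟩ := h
  refine ⟨MZar.lift φ, MZar.lift ψ, fun x hx => ?_, fun x hx => ?_, fun x hx => ?_,
    fun x hx => ?_, MZar.reg_lift h.reg, MZar.reg_lift h.reg'⟩
  · rw [mem_preimage, MZar.basePt_lift]
    exact h.maps hx
  · rw [mem_preimage, MZar.basePt_lift]
    exact h.maps' hx
  · refine MZar.pt_ext ?_ (by simp [MZar.lift])
    rw [MZar.basePt_lift, MZar.basePt_lift, h.left _ hx]
  · refine MZar.pt_ext ?_ (by simp [MZar.lift])
    rw [MZar.basePt_lift, MZar.basePt_lift, h.right _ hx]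
/-- the real points of a finitely generated algebra form a closed subset of an affine space -/
theorem exists_bireg_affine [Algebra.FiniteType ℝ B] [Nonempty (Pt B)] :
    ∃ (N : ℕ) (A : Set (Pt (MvPolynomial (Fin N) ℝ))), ZClosed A ∧ Bireg (univ : Set (Pt B)) A := by
  classical
  obtain ⟨N, g, hg⟩ := Algebra.FiniteType.iff_quotient_mvPolynomial''.1
    (inferInstance : Algebra.FiniteType ℝ B)
  have hinj : Function.Injective fun b : Pt B => b.comp g := fun b c hbc =>
    AlgHom.ext fun f => by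
      obtain ⟨u, rfl⟩ := hg f
      exact DFunLike.congr_fun hbc u
  have hr : (range fun b : Pt B => b.comp g) = ⋂ u ∈ RingHom.ker g, {x | x u = 0} := by
    ext x
    simp only [mem_range, mem_iInter, mem_ofPred_eq]
    constructor
    · rintro ⟨b, rfl⟩ u hu
      rw [AlgHom.comp_apply, (RingHom.mem_ker).1 hu, map_zero]
    · intro hx
      refine ⟨(Ideal.Quotient.liftₐ (RingHom.ker g) x hx).comp
        (Ideal.quotientKerAlgEquivOfSurjective hg).symm, AlgHom.ext fun u => ?_⟩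
      have : (Ideal.quotientKerAlgEquivOfSurjective hg).symm (g u) =
          Ideal.Quotient.mk (RingHom.ker g) u := by
        rw [AlgEquiv.symm_apply_eq]
        rfl
      simp [this]
  refine ⟨N, range fun b : Pt B => b.comp g, ?_, fun b => b.comp g,
    Function.invFun fun b : Pt B => b.comp g, fun b _ => ⟨b, rfl⟩, fun _ _ => mem_univ _,
    fun b _ => Function.leftInverse_invFun hinj b, fun y hy => Function.invFun_eq hy,
    reg_comap g, ?_⟩
  · rw [hr]
    exact zclosed_iInter fun u => zclosed_iInter fun _ => zclosed_zero u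
  · intro f y _
    obtain ⟨u, rfl⟩ := hg f
    refine ⟨u, 1, by simp, ?_⟩
    rintro _ ⟨b, rfl⟩ _
    rw [Function.leftInverse_invFun hinj b]
    simp

end Pool.Agent.MP_696f7f_ag.H96
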