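import Pool.Agent.MP_696f7f_ag.H96.ModI
import Pool.Agent.MP_696f7f_ag.H96.MZar
import Pool.Agent.MP_696f7f_ag.H96.LVal

/-! Spreading out local statements to Zariski neighbourhoods; dominations. -/

namespace Pool.Agent.MP_696f7f_ag.H96

open Filter Topology

variable {K : Type} [Field K] [Algebra ℝ K] {n : ℕ}

theorem MSpread.ev_eq_of_le {L L' : Loc K} (h : L.O ≤ L'.O) {f : K} (hf : f ∈ L.O) :
    L'.ev f = L.ev f := by
  have h1 : f - algebraMap ℝ K (L'.ev f) ∈ L.O := sub_mem hf (L.O.algebraMap_mem _)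
  by_contra hne
  have h2 : L.ev (f - algebraMap ℝ K (L'.ev f)) ≠ 0 := by
    rw [Loc.ev_sub hf (L.O.algebraMap_mem _), L.ev_alg]
    exact sub_ne_zero.2 (Ne.symm hne)
  have h3 := L'.ev_mul _ (h h1) _ (h (L.inv_mem _ h1 h2))
  rw [mul_inv_cancel₀ (Loc.ne_zero_of_ev h2), (Loc.sub_ev_mem (h hf)).2, zero_mul,
    Loc.ev_one] at h3
  exact one_ne_zero h3

section pre
variable {B : Subalgebra ℝ K} {hB : B.FG} {a : Pt B} {f : K}

theorem finiteType_of_fg (hB : B.FG) : Algebra.FiniteType ℝ B := ⟨(Subalgebra.fg_top B).mpr hB⟩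
theorem locAt_mem : f ∈ (locAt B hB a).O ↔ ∃ p q : B, a q ≠ 0 ∧ f * q = p := Iff.rfl
theorem locAt_le : B ≤ (locAt B hB a).O := le_locO B a
theorem locAt_ev (f : B) : (locAt B hB a).ev f = a f := by
  show locEv B a f = a f
  rw [locEv_eq B a (p := f) (q := 1) (by simp) (by simp)]
  simp
theorem locAt_sp_mem (hf : f ∈ (locAt B hB a).O) : ∀ᶠ b in zn a, f ∈ (locAt B hB b).O := by
  obtain ⟨p, q, hq, h⟩ := hf
  filter_upwards [zn_ne hq] with b hb using ⟨p, q, hb, h⟩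
theorem locAt_continuousAt (hf : f ∈ (locAt B hB a).O) :
    ContinuousAt (fun b => (locAt B hB b).ev f) a := by
  obtain ⟨p, q, hq, h⟩ := hf
  refine ((continuous_ev p).continuousAt.div (continuous_ev q).continuousAt hq).congr ?_
  filter_upwards [nhds_le_zn (zn_ne hq)] with b hb using (locEv_eq B b hb h).symm
/-- a local ring that contains `B` contains the local ring of the point it induces -/
theorem locAt_le_of_ev {L : Loc K} (hL : B ≤ L.O) (hev : ∀ g : B, L.ev g = a g) :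
    (locAt B hB a).O ≤ L.O ∧ ∀ f ∈ (locAt B hB a).O, L.ev f = (locAt B hB a).ev f := by
  have key : ∀ f ∈ (locAt B hB a).O, f ∈ L.O ∧ L.ev f = (locAt B hB a).ev f := by
    rintro f ⟨p, q, hq, h⟩
    have h1 : L.ev q ≠ 0 := hev q ▸ hq
    have h2 : f = p / q := eq_div_of_mul_eq (Loc.ne_zero_of_ev h1) h
    refine ⟨h2 ▸ Loc.div_mem (hL p.2) (hL q.2) h1, ?_⟩
    rw [show (locAt B hB a).ev f = a p / a q from locEv_eq B a hq h, h2,
      Loc.ev_div (hL p.2) (hL q.2) h1, hev, hev]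
  exact ⟨fun f hf => (key f hf).1, fun f hf => (key f hf).2⟩
theorem locAt_log {δ : Der K} {G : Set K} (hG : B = Algebra.adjoin ℝ G) {L : Loc K} (hL : B ≤ L.O)
    (h : ∀ g ∈ G, δ g ∈ L.O) : ∀ f ∈ B, δ f ∈ L.O := by
  subst hG
  intro f hf
  induction hf using Algebra.adjoin_induction with
  | mem x hx => exact h x hx
  | algebraMap r => rw [Derivation.map_algebraMap]; exact zero_mem _
  | add x y _ _ hx hy => rw [map_add]; exact add_mem hx hy
  | mul x y hx' hy' hx hy =>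
    rw [Derivation.leibniz]
    exact add_mem (mul_mem (hL hx') hy) (mul_mem (hL hy') hx)
theorem locAt_mem_log {δ : Der K} (h : ∀ f ∈ B, δ f ∈ (locAt B hB a).O) :
    δ ∈ (locAt B hB a).log ∅ := by
  refine Loc.mem_log_empty.2 fun f hf => ?_
  obtain ⟨p, q, hq, e⟩ := id hf
  have h1 : (locAt B hB a).ev q ≠ 0 := (locAt_ev (hB := hB) q).symm ▸ hq
  have h2 := congrArg δ e
  rw [Derivation.leibniz, smul_eq_mul, smul_eq_mul] at h2
  have h3 : δ f = (δ p - f * δ q) / q :=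
    eq_div_of_mul_eq (Loc.ne_zero_of_ev h1) (by rw [← h2]; ring)
  exact h3 ▸ Loc.div_mem (sub_mem (h _ p.2) (mul_mem hf (h _ q.2))) (locAt_le q.2) h1
end pre

namespace Model

variable {M : Model K n} {a b b' : M.P} {f g : K} {S T Z : Set K} {D D' : Set M.P}
  {κ : Chart K n} {J : Finset (Fin n)} {E : ℕ → Set M.P} {k : ℕ} {σ : ℕ → Option (Fin n)}

instance : Algebra.FiniteType ℝ M.B := finiteType_of_fg M.fg
instance : CompactSpace M.P := M.cpt
instance : Nonempty M.P := M.ne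

theorem le_loc (b : M.P) : M.B ≤ (M.loc b).O := le_locO _ _
theorem loc_ev (b : M.P) (f : M.B) : (M.loc b).ev f = b f :=
  locAt_ev f
theorem exists_crd (b : M.P) : ∃ κ : Chart K n, IsCrd (M.loc b) κ := M.smooth b
theorem eq_of_loc_le (h : (M.loc b).O ≤ (M.loc b').O) : b = b' :=
  AlgHom.ext fun f => by
  rw [← loc_ev, ← loc_ev, MSpread.ev_eq_of_le h (le_loc b f.2)]
theorem continuousAt_ev (hf : f ∈ (M.loc a).O) : ContinuousAt (fun b => (M.loc b).ev f) a :=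
  locAt_continuousAt hf
theorem sp_mem (hf : f ∈ (M.loc a).O) : ∀ᶠ b in zn a, f ∈ (M.loc b).O :=
  locAt_sp_mem hf
theorem sp_mem_fin (hS : S.Finite) (h : ∀ f ∈ S, f ∈ (M.loc a).O) :
    ∀ᶠ b in zn a, ∀ f ∈ S, f ∈ (M.loc b).O :=
  (eventually_all_finite hS).2 fun f hf => sp_mem (h f hf)
theorem sp_unit (hf : f ∈ (M.loc a).O) (h0 : (M.loc a).ev f ≠ 0) :
    ∀ᶠ b in zn a, f ∈ (M.loc b).O ∧ (M.loc b).ev f ≠ 0 := by
  obtain ⟨p, q, hq, h⟩ := hf
  have hp : a p ≠ 0 := fun hp => h0 ((locEv_eq M.B a hq h).trans (by simp [hp]))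
  filter_upwards [zn_ne hq, zn_ne hp] with b h1 h2
  exact ⟨⟨p, q, h1, h⟩, (locEv_eq M.B b h1 h).trans_ne (div_ne_zero h2 h1)⟩
theorem sp_span (hf : f ∈ (M.loc a).span S) : ∀ᶠ b in zn a, f ∈ (M.loc b).span S := by
  refine Loc.span_induction (p := fun f => ∀ᶠ b in zn a, f ∈ (M.loc b).span S) hf
    (fun x hx => Eventually.of_forall fun b => Loc.subset_span hx)
    (Eventually.of_forall fun b => zero_mem _) (fun x y _ _ hx hy => ?_) fun c hc x _ hx => ?_
  · filter_upwards [hx, hy] with b h1 h2 using add_mem h1 h2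
  · filter_upwards [sp_mem hc, hx] with b h1 h2 using Loc.mul_mem_left h1 h2
theorem sp_span_pow {w : ℕ} (hf : f ∈ (M.loc a).span S ^ w) :
    ∀ᶠ b in zn a, f ∈ (M.loc b).span S ^ w := by
  induction w generalizing f with
  | zero =>
    simp only [pow_zero, Loc.mem_one] at hf ⊢
    exact sp_mem hf
  | succ w ih =>
    simp only [pow_succ] at hf ⊢
    refine Submodule.mul_induction_on hf (fun x hx y hy => ?_) fun x y hx hy => ?_
    · filter_upwards [ih hx, sp_span hy] with b h1 h2 using Submodule.mul_mem_mul h1 h2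
    · filter_upwards [hx, hy] with b h1 h2 using add_mem h1 h2
theorem sp_span_eq (hS : S.Finite) (hT : T.Finite) (h : (M.loc a).span S = (M.loc a).span T) :
    ∀ᶠ b in zn a, (M.loc b).span S = (M.loc b).span T := by
  filter_upwards [(eventually_all_finite hS).2 fun f hf => sp_span (h ▸ Loc.subset_span hf),
    (eventually_all_finite hT).2 fun f hf => sp_span (h ▸ Loc.subset_span hf :
      f ∈ (M.loc a).span S)] with b h1 h2
  exact le_antisymm (Loc.span_le.2 h1) (Loc.span_le.2 h2)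
theorem sp_log {δ : Der K} (h : δ ∈ (M.loc a).log ∅) : ∀ᶠ b in zn a, δ ∈ (M.loc b).log ∅ := by
  obtain ⟨t, ht⟩ := M.fg
  filter_upwards [sp_mem_fin (t.finite_toSet.image δ) (by
    rintro _ ⟨g, hg, rfl⟩
    exact h.1 g (le_loc a (ht ▸ Algebra.subset_adjoin hg)))] with b hb
  exact locAt_mem_log (locAt_log ht.symm (le_loc b) fun g hg => hb _ ⟨g, hg, rfl⟩)
theorem sp_crd (h : IsCrd (M.loc a) κ) : ∀ᶠ b in zn a, IsCrd (M.loc b) (κ.shift (M.loc b)) := by
  filter_upwards [eventually_all.2 fun i => sp_mem (h.x_mem i),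
    eventually_all.2 fun i => sp_log (h.D_log i)] with b h1 h2
  obtain ⟨κ0, h0⟩ := exists_crd b
  refine h0.of_dual (fun i => Loc.sub_ev_mem (h1 i)) (fun i => (h2 i).1) fun i j => ?_
  show κ.D i (κ.x j - _) = _
  rw [map_sub, Derivation.map_algebraMap, sub_zero, h.dual]
/-- points where a finite set of functions does not vanish -/
theorem sp_not_m (hZ : ∀ z ∈ Z, z ∈ (M.loc a).O) (h : ¬ ∀ z ∈ Z, z ∈ (M.loc a).m) :
    ∀ᶠ b in zn a, ¬ ∀ z ∈ Z, z ∈ (M.loc b).m := by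
  simp only [not_forall] at h
  obtain ⟨z, hz, h⟩ := h
  filter_upwards [sp_unit (hZ z hz) fun h0 => h ⟨hZ z hz, h0⟩] with b hb h1 using hb.2 (h1 z hz).2
theorem sp_I (h : IsCrd (M.loc a) κ) (hZ : Z.Finite) (hs : (M.loc a).span Z = κ.I (M.loc a) J) :
    ∀ᶠ b in zn a, (∀ z ∈ Z, z ∈ (M.loc b).m) →
      (M.loc b).span Z = (κ.shift (M.loc b)).I (M.loc b) J ∧
        ∀ j ∈ J, (κ.shift (M.loc b)).x j = κ.x j := by
  filter_upwards [sp_span_eq hZ (J.finite_toSet.image κ.x) hs] with b hb h1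
  have h2 : ∀ j ∈ J, (κ.shift (M.loc b)).x j = κ.x j := fun j hj => by
    have : κ.x j ∈ (M.loc b).m := Loc.span_le.2 h1 (hb ▸ Loc.subset_span ⟨j, hj, rfl⟩)
    show κ.x j - _ = _
    rw [this.2, map_zero, sub_zero]
  exact ⟨hb.trans (congrArg _ (Set.image_congr h2).symm), h2⟩
/-- semicontinuity of the order modulo a smooth subspace -/
theorem sp_notMem_sup {e : ℕ} (hZ : Z.Finite) (hs : SmAt (M.loc a) n Z) (hf : f ∈ (M.loc a).O)
    (hn : f ∉ (M.loc a).span Z ⊔ (M.loc a).m ^ e) :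
    ∀ᶠ b in zn a, (∀ z ∈ Z, z ∈ (M.loc b).m) → f ∉ (M.loc b).span Z ⊔ (M.loc b).m ^ e := by
  obtain ⟨κ, J, hκ, hs⟩ := hs
  obtain ⟨l, h1, h2, h3⟩ := hκ.exists_ders_unit hf (hs ▸ hn)
  filter_upwards [sp_crd hκ, sp_I hκ hZ hs,
    sp_unit (by_contra fun h => h3 ((M.loc a).ev_out _ h)) h3] with b b1 b2 b3 b4
  rw [(b2 b4).1]
  exact b1.notMem_of_ders_unit h1 h2 b3.2
theorem sp_not_cos {H : Set (K × ℕ)} (hH : (M.loc a).In H) (h : ¬ (M.loc a).Cos H) :
    ∀ᶠ b in zn a, ¬ (M.loc b).Cos H := by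
  simp only [Loc.Cos, not_forall] at h
  obtain ⟨p, hp, h⟩ := h
  obtain ⟨κ, hκ⟩ := exists_crd a
  filter_upwards [sp_notMem_sup (e := p.2) Set.finite_empty
    ⟨κ, ∅, hκ, Loc.span_empty.trans Chart.I_empty.symm⟩ (hH p hp)
    (by rwa [Loc.span_empty, bot_sup_eq])] with b hb h1
  exact hb (fun z hz => hz.elim) (Submodule.mem_sup_right (h1 p hp))
/-- a function that does not vanish on a smooth germ does not vanish on the nearby germs -/
theorem sp_notMem (hZ : Z.Finite) (hs : SmAt (M.loc a) n Z) (hf : f ∈ (M.loc a).O)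
    (hn : f ∉ (M.loc a).span Z) :
    ∀ᶠ b in zn a, (∀ z ∈ Z, z ∈ (M.loc b).m) → f ∉ (M.loc b).span Z := by
  obtain ⟨κ, J, hκ, hs'⟩ := id hs
  obtain ⟨e, he⟩ := not_forall.1 fun h => hn (Loc.krull (hs' ▸ hκ.I_le_one) h)
  filter_upwards [sp_notMem_sup hZ hs hf he] with b hb h1 h2
  exact hb h1 (Submodule.mem_sup_left h2)

theorem vanK_mem (hf : f ∈ M.vanK D) : f ∈ M.B := by
  obtain ⟨p, -, rfl⟩ := hf
  exact p.2
theorem span_vanK_le_one : (M.loc b).span (M.vanK D) ≤ 1 :=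
  Loc.span_le_one fun _ hy => le_loc b (vanK_mem hy)
theorem exists_fin_vanK (D : Set M.P) : ∃ T : Set K, T.Finite ∧ T ⊆ M.vanK D ∧
    ∀ L : Loc K, M.B ≤ L.O → L.span T = L.span (M.vanK D) := by
  have := Algebra.FiniteType.isNoetherianRing ℝ M.B
  obtain ⟨s, hs⟩ := IsNoetherian.noetherian (van D)
  have h1 : Subtype.val '' (s : Set M.B) ⊆ M.vanK D :=
    Set.image_mono fun x hx => hs ▸ Submodule.subset_span hx
  refine ⟨_, s.finite_toSet.image _, h1, fun L hL =>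
    le_antisymm (Loc.span_mono h1) (Loc.span_le.2 ?_)⟩
  rintro _ ⟨p, hp, rfl⟩
  rw [← hs] at hp
  induction hp using Submodule.span_induction with
  | mem x hx => exact Loc.subset_span ⟨x, hx, rfl⟩
  | zero => exact zero_mem _
  | add x y _ _ hx hy => exact add_mem hx hy
  | smul c x _ hx => exact Loc.mul_mem_left (hL c.2) hx
theorem span_vanK_le_m (hb : b ∈ D) : (M.loc b).span (M.vanK D) ≤ (M.loc b).m :=
  Loc.span_le.2 (by
  rintro _ ⟨p, hp, rfl⟩
  exact ⟨le_loc b p.2, (loc_ev b p).trans (hp b hb)⟩)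
theorem span_vanK_eq_one (hD : ZClosed D) : (M.loc b).span (M.vanK D) = 1 ↔ b ∉ D := by
  refine ⟨fun h hb => Loc.m_ne_one (le_antisymm Loc.m_le_one (h ▸ span_vanK_le_m hb)),
    fun hb => ?_⟩
  obtain ⟨p, hp, h0⟩ := hD.exists_ne hb
  exact Loc.eq_one_of_mem span_vanK_le_one (Loc.subset_span ⟨p, hp, rfl⟩)
    ((loc_ev b p).trans_ne h0)
theorem span_vanK_empty : (M.loc b).span (M.vanK ∅) = 1 :=
  (span_vanK_eq_one zclosed_empty).2 id
theorem span_vanK_anti (h : D ⊆ D') :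
    (M.loc b).span (M.vanK D') ≤ (M.loc b).span (M.vanK D) :=
  Loc.span_mono (Set.image_mono (van_anti h))
theorem mem_span_vanK : f ∈ (M.loc a).span (M.vanK D) ↔
    f ∈ (M.loc a).O ∧ ∀ᶠ b in zn a, b ∈ D → (M.loc b).ev f = 0 := by
  refine ⟨fun h => ⟨Loc.mem_O_of_le span_vanK_le_one h, ?_⟩, ?_⟩
  · filter_upwards [sp_span h] with b hb h1 using (span_vanK_le_m h1 hb).2
  rintro ⟨⟨p, q, hq, e⟩, q', hq', h⟩
  have h1 : p * q * q' ∈ van D := fun b hb => by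
    by_cases h1 : b q = 0
    · simp [h1]
    by_cases h2 : b q' = 0
    · simp [h2]
    have := (locEv_eq M.B b h1 e).symm.trans (h b h2 hb)
    simp [(div_eq_zero_iff.1 this).resolve_right h1]
  refine Loc.mem_of_unit_mul (le_loc a (q * q * q').2)
    ((loc_ev a (q * q * q')).trans_ne (by simp [hq, hq'])) (Loc.subset_span ⟨_, h1, ?_⟩)
  push_cast
  rw [← e]
  ring
theorem span_vanK_congr (h : ∀ᶠ b in zn a, b ∈ D ↔ b ∈ D') :
    (M.loc a).span (M.vanK D) = (M.loc a).span (M.vanK D') := by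
  ext f
  rw [mem_span_vanK, mem_span_vanK]
  refine and_congr_right fun _ => eventually_congr ?_
  filter_upwards [h] with b hb using by rw [hb]
theorem sp_span_vanK (hT : T.Finite) (h : (M.loc a).span (M.vanK D) = (M.loc a).span T) :
    ∀ᶠ b in zn a, (M.loc b).span (M.vanK D) = (M.loc b).span T := by
  obtain ⟨T0, h1, -, h2⟩ := M.exists_fin_vanK D
  filter_upwards [sp_span_eq h1 hT ((h2 _ (le_loc a)).trans h)] with b hb
  exact (h2 _ (le_loc b)).symm.trans hb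
theorem sp_mem_iff (hD : ZClosed D) (hT : T.Finite)
    (h : (M.loc a).span (M.vanK D) = (M.loc a).span T) :
    ∀ᶠ b in zn a, b ∈ D ↔ ∀ t ∈ T, t ∈ (M.loc b).m := by
  filter_upwards [sp_span_vanK hT h] with b hb
  refine ⟨fun h1 t ht => span_vanK_le_m h1 (hb ▸ Loc.subset_span ht), fun h1 => by_contra fun h2 =>
    Loc.m_ne_one (L := M.loc b) (le_antisymm Loc.m_le_one ?_)⟩
  rw [← (span_vanK_eq_one hD).2 h2, hb]
  exact Loc.span_le.2 h1
theorem sp_gen {y : ℕ → K} (h : Gen (M.loc a) (M.Y E) k y) :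
    ∀ᶠ b in zn a, Gen (M.loc b) (M.Y E) k y := by
  filter_upwards [(eventually_all_finite (Set.finite_Iio k)).2 fun i hi =>
    sp_span_vanK (Set.finite_singleton _) (h i hi).symm] with b hb i hi using (hb i hi).symm
theorem sp_adp (hk : ∀ i, k ≤ i → E i = ∅) (h : Adp (M.loc a) κ (M.Y E) σ) :
    ∀ᶠ b in zn a, ∃ σ', Adp (M.loc b) (κ.shift (M.loc b)) (M.Y E) σ' ∧
      ∀ i j, σ' i = some j → σ i = some j := by
  classical
  filter_upwards [sp_crd h.crd, sp_gen (h.gen k), eventually_all.2 fun i => sp_mem (h.crd.x_mem i)]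
    with b h1 h2 h3
  have h4 : ∀ i, (M.loc b).span (M.Y E i) = (M.loc b).span {κ.y (σ i)} := fun i => by
    rcases lt_or_ge i k with hi | hi
    · exact (h2 i hi).symm
    · have e : ∀ c : M.P, (M.loc c).span (M.Y E i) = 1 := fun c => by
        rw [Y, hk i hi, span_vanK_empty]
      rw [(h.span_eq_one i).1 (e a), e]
      exact Loc.span_one.symm
  have h5 : ∀ i j, ((σ i).filter fun j => (M.loc b).ev (κ.x j) = 0) = some j → σ i = some j :=
    fun i j e => (Option.filter_eq_some_iff.1 e).1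
  refine ⟨fun i => (σ i).filter fun j => (M.loc b).ev (κ.x j) = 0,
    ⟨h1, fun i => (h4 i).trans ?_, fun i i' j e e' => h.inj i i' j (h5 _ _ e) (h5 _ _ e')⟩, h5⟩
  cases σ i with
  | none => rfl
  | some j =>
    by_cases h0 : (M.loc b).ev (κ.x j) = 0
    · simp [Option.filter, Chart.y, Chart.shift, h0]
    · simp only [Option.filter, h0, Chart.y, decide_false, Bool.false_eq_true, if_false]
      exact (Loc.span_singleton_eq_one.2 ⟨h3 j, h0⟩).trans Loc.span_one.symm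
theorem sp_tr (hk : ∀ i, k ≤ i → E i = ∅) (hZ : Z.Finite) (h : Tr (M.loc a) κ (M.Y E) σ Z J) :
    ∀ᶠ b in zn a, (∀ z ∈ Z, z ∈ (M.loc b).m) →
      (∃ σ', Tr (M.loc b) (κ.shift (M.loc b)) (M.Y E) σ' Z J) ∧
        ∀ j ∈ J, (κ.shift (M.loc b)).x j = κ.x j := by
  filter_upwards [sp_adp hk h.adp, sp_I h.adp.crd hZ h.span] with b ⟨σ', h1, h2⟩ h3 h4
  exact ⟨⟨σ', h1, (h3 h4).1, fun i j e => h.disj i j (h2 i j e)⟩, (h3 h4).2⟩
theorem Snc.span_eq_one (hE : M.Snc k E) (i : ℕ) : (M.loc b).span (M.Y E i) = 1 ↔ b ∉ E i :=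
  span_vanK_eq_one (hE.closed i)
theorem snc_empty (k : ℕ) : M.Snc k (fun _ => ∅) :=
  ⟨fun _ => zclosed_empty, fun _ _ => rfl, fun b => by
  obtain ⟨κ, hκ⟩ := exists_crd b
  exact ⟨κ, fun _ => none, hκ, fun _ => span_vanK_empty.trans Loc.span_one.symm,
    fun _ _ _ e => nomatch e⟩⟩
theorem Snc.drop (hE : M.Snc k E) {E' : ℕ → Set M.P} (h : ∀ i, E' i = E i ∨ E' i = ∅) :
    M.Snc k E' := by
  refine ⟨fun i => ?_, fun i hi => (h i).elim (fun e => e.trans (hE.bd i hi)) id,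
    fun b => (hE.adp b).congr fun i => (h i).imp (fun e => ?_) fun e => ?_⟩
  · rcases h i with e | e
    · exact e ▸ hE.closed i
    · exact e ▸ zclosed_empty
  · rw [Y, Y, e]
  · rw [Y, e, span_vanK_empty]
theorem Centre.sm (h : M.Centre E D) : M.Sm D :=
  ⟨h.closed, fun b hb => (h.snc b hb).smAt⟩
theorem Adm.subset_cos {S : M.Obj} (h : M.Adm E S D) : D ⊆ M.cos S :=
  fun b hb => (h.ord b hb).cos (span_vanK_le_m hb)
theorem Adm.ord_all {S : M.Obj} (h : M.Adm E S D) (hS : M.OK S) (b : M.P) :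
    (M.loc b).Ord (M.vanK D) (S b) := by
  by_cases hb : b ∈ D
  · exact h.ord b hb
  · exact (hS.mem b).ord ((span_vanK_eq_one h.centre.closed).2 hb)
theorem OK.bdd_at {S : M.Obj} (hS : M.OK S) (b : M.P) : Bdd (S b) :=
  hS.bdd.imp fun _ h => h b

end Model

section dom
variable {n' n'' : ℕ} {M : Model K n} {M' : Model K n'} {M'' : Model K n''}

theorem MSpread.reg_of_le {φ : M'.P → M.P} {S : Set M'.P}
    (h : ∀ b ∈ S, (M.loc (φ b)).O ≤ (M'.loc b).O) : Reg S φ := fun f b hb => by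
  obtain ⟨p, q, hq, e⟩ := h b hb (M.le_loc _ f.2)
  refine ⟨p, q, hq, fun x hx h0 => ?_⟩
  rw [← M.loc_ev, ← MSpread.ev_eq_of_le (h x hx) (M.le_loc _ f.2)]
  exact (eq_div_iff h0).1 (locEv_eq M'.B x h0 e)

theorem Dom.map_apply (h : Dom M' M) (b' : M'.P) (f : M.B) :
    h.map b' f = (M'.loc b').ev f := rfl
theorem Dom.loc_le (h : Dom M' M) (b' : M'.P) : (M.loc (h.map b')).O ≤ (M'.loc b').O :=
  (locAt_le_of_ev (h b') fun _ => rfl).1
theorem Dom.loc_ev (h : Dom M' M) (b' : M'.P) :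
    ∀ f ∈ (M.loc (h.map b')).O, (M'.loc b').ev f = (M.loc (h.map b')).ev f :=
  (locAt_le_of_ev (h b') fun _ => rfl).2
theorem Dom.refl (M : Model K n) : Dom M M :=
  M.le_loc
theorem Dom.map_refl (h : Dom M M) : h.map = id :=
  funext fun b => AlgHom.ext fun f => M.loc_ev b f
theorem Dom.trans (h' : Dom M'' M') (h : Dom M' M) : Dom M'' M :=
  fun b => (h _).trans (h'.loc_le b)
theorem Dom.map_comp (h' : Dom M'' M') (h : Dom M' M) (h'' : Dom M'' M) :
    h.map ∘ h'.map = h''.map :=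
  funext fun b => AlgHom.ext fun f => (h'.loc_ev b f (h _ f.2)).symm
theorem Dom.map_eq (h : Dom M' M) {b' : M'.P} {b : M.P} (hb : (M.loc b).O ≤ (M'.loc b').O) :
    h.map b' = b :=
  AlgHom.ext fun f => (MSpread.ev_eq_of_le hb (M.le_loc b f.2)).trans (M.loc_ev b f)
theorem Dom.continuous (h : Dom M' M) : Continuous h.map :=
  continuous_pt fun f =>
    continuous_iff_continuousAt.2 fun b => Model.continuousAt_ev (h b f.2)
theorem Dom.tendsto_zn (h : Dom M' M) (a' : M'.P) : Tendsto h.map (zn a') (zn (h.map a')) := by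
  rintro s ⟨q, hq, hs⟩
  exact (Model.sp_unit (h a' q.2) hq).mono fun b hb => hs _ hb.2
theorem Dom.zclosed (h : Dom M' M) {A : Set M.P} (hA : ZClosed A) : ZClosed (h.map ⁻¹' A) :=
  zclosed_iff.2 fun a ha => h.tendsto_zn a (zclosed_iff.1 hA _ ha)
theorem Dom.van_ne_bot (h : Dom M' M) {A : Set M.P} (hA : van A ≠ ⊥) :
    van (h.map ⁻¹' A) ≠ ⊥ := by
  obtain ⟨f, hf, h0⟩ := (Submodule.ne_bot_iff _).1 hA
  obtain ⟨b⟩ := M'.ne
  obtain ⟨p, q, hq, e⟩ := h b f.2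
  refine (Submodule.ne_bot_iff _).2 ⟨p * q, fun c hc => ?_, fun h1 => ?_⟩
  · by_cases h1 : c q = 0
    · simp [h1]
    have := (locEv_eq M'.B c h1 e).symm.trans (hf _ hc)
    simp [(div_eq_zero_iff.1 this).resolve_right h1]
  · have hq0 : q ≠ 0 := fun h2 => hq (by simp [h2])
    rw [(mul_eq_zero.1 h1).resolve_right hq0] at e
    exact h0 (Subtype.ext ((mul_eq_zero.1 e).resolve_right fun h2 => hq0 (Subtype.ext h2)))
theorem Dom.reg (h : Dom M' M) (S : Set M'.P) : Reg S h.map :=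
  MSpread.reg_of_le fun b _ => h.loc_le b

/-- the complements of `F` and `F'` have the same local rings -/
def Ident (M : Model K n) (F : Set M.P) (M' : Model K n') (F' : Set M'.P) : Prop :=
  (∀ b ∉ F, ∃ b' ∉ F', M'.loc b' = M.loc b) ∧ ∀ b' ∉ F', ∃ b ∉ F, M'.loc b' = M.loc b

theorem Ident.refl (F : Set M.P) : Ident M F M F :=
  ⟨fun b hb => ⟨b, hb, rfl⟩, fun b hb => ⟨b, hb, rfl⟩⟩
theorem Ident.symm {F : Set M.P} {F' : Set M'.P} (h : Ident M F M' F') : Ident M' F' M F :=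
  ⟨fun b hb => (h.2 b hb).imp fun _ e => ⟨e.1, e.2.symm⟩,
    fun b hb => (h.1 b hb).imp fun _ e => ⟨e.1, e.2.symm⟩⟩
theorem Ident.trans {F : Set M.P} {F' : Set M'.P} {F'' : Set M''.P} (h : Ident M F M' F')
    (h' : Ident M' F' M'' F'') : Ident M F M'' F'' := by
  refine ⟨fun b hb => ?_, fun b hb => ?_⟩
  · obtain ⟨c, hc, e⟩ := h.1 b hb
    obtain ⟨d, hd, e'⟩ := h'.1 c hc
    exact ⟨d, hd, e'.trans e⟩
  · obtain ⟨c, hc, e⟩ := h'.2 b hb
    obtain ⟨d, hd, e'⟩ := h.2 c hc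
    exact ⟨d, hd, e.trans e'⟩
theorem Ident.biregBy {F : Set M.P} {F' : Set M'.P} (h : Ident M F M' F') :
    ∃ φ ψ, BiregBy Fᶜ F'ᶜ φ ψ ∧ (∀ b ∉ F, M'.loc (φ b) = M.loc b) ∧
      ∀ b' ∉ F', M'.loc b' = M.loc (ψ b') := by
  choose! φ h1 h2 using h.1
  choose! ψ h3 h4 using h.2
  refine ⟨φ, ψ, ⟨h1, h3, fun x hx => Model.eq_of_loc_le ?_, fun y hy => Model.eq_of_loc_le ?_,
    MSpread.reg_of_le fun b hb => (h2 b hb) ▸ le_rfl,
    MSpread.reg_of_le fun b hb => (h4 b hb) ▸ le_rfl⟩, h2, h4⟩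
  · rw [← h4 _ (h1 x hx), h2 x hx]
  · rw [h2 _ (h3 y hy), h4 y hy]
theorem Ident.preimage {F : Set M.P} {F' : Set M'.P} (h : Ident M F M' F') (hd : Dom M' M) :
    hd.map ⁻¹' F = F' := by
  ext b'
  refine not_iff_not.1 ⟨fun hb => ?_, fun hb => ?_⟩
  · obtain ⟨c, hc, e⟩ := h.1 _ hb
    exact Model.eq_of_loc_le (e ▸ hd.loc_le b' : (M'.loc c).O ≤ (M'.loc b').O) ▸ hc
  · obtain ⟨c, hc, e⟩ := h.2 _ hb
    rwa [Set.mem_preimage, hd.map_eq (b := c) (e ▸ le_rfl)]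
theorem Ident.biregBy_dom {F : Set M.P} {F' : Set M'.P} (h : Ident M F M' F') (hd : Dom M' M) :
    ∃ φ, BiregBy Fᶜ F'ᶜ φ hd.map := by
  obtain ⟨φ, ψ, h1, h2, h3⟩ := h.biregBy
  have e : ∀ y ∈ F'ᶜ, hd.map y = ψ y := fun y hy => hd.map_eq ((h3 y hy) ▸ le_rfl)
  exact ⟨φ, h1.maps, fun y hy => (e y hy) ▸ h1.maps' hy,
    fun x hx => (e _ (h1.maps hx)).trans (h1.left x hx), fun y hy => (e y hy) ▸ h1.right y hy,
    h1.reg, hd.reg _⟩

end dom

end Pool.Agent.MP_696f7f_ag.H96
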