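import Pool.Agent.MP_696f7f_ag.H96.MDens

/-! Descent of derivations and charts along homomorphisms of local rings. -/

namespace Pool.Agent.MP_696f7f_ag.H96.MSubAux

open TrivSqZeroExt

variable {K K' : Type} [Field K] [Algebra ℝ K] [Field K'] [Algebra ℝ K']

theorem isFrac {R : Type} [CommRing R] [Algebra ℝ R] (g : R →ₐ[ℝ] K')
    (hfrac : ∀ y : K', ∃ p q, g q ≠ 0 ∧ y * g q = g p) : IsFractionRing g.range K' :=
  IsFractionRing.of_field _ _ fun y => by
    obtain ⟨p, q, hq, h⟩ := hfrac y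
    exact ⟨⟨g p, p, rfl⟩, ⟨g q, q, rfl⟩, (eq_div_iff hq).2 h⟩

/-- a derivation along `g` that kills the kernel descends to the fraction field of the image -/
theorem der_descend {R : Type} [CommRing R] [Algebra ℝ R] (g : R →ₐ[ℝ] K')
    (hfrac : ∀ y : K', ∃ p q, g q ≠ 0 ∧ y * g q = g p) (d : R →ₗ[ℝ] K')
    (hd : ∀ a b, d (a * b) = g a * d b + g b * d a) (h0 : ∀ a, g a = 0 → d a = 0) :
    ∃ δ : Der K', ∀ a, δ (g a) = d a := by
  have h1 : d 1 = 0 := by
    have := hd 1 1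
    simp only [mul_one, map_one, one_mul] at this
    exact left_eq_add.1 this
  let τ : R →ₐ[ℝ] TrivSqZeroExt K' K' :=
    { toFun := fun a => inl (g a) + inr (d a)
      map_one' := by ext <;> simp [h1]
      map_mul' := fun a b => by ext <;> simp [hd, mul_comm]
      map_zero' := by ext <;> simp
      map_add' := fun a b => by ext <;> simp
      commutes' := fun r => by
        ext
        · simp [Algebra.algebraMap_eq_smul_one]
        · simp [Algebra.algebraMap_eq_smul_one, h1] }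
  have hτ : ∀ a, τ a = inl (g a) + inr (d a) := fun _ => rfl
  have hker : RingHom.ker g.rangeRestrict.toRingHom ≤ RingHom.ker τ.toRingHom := fun a ha => by
    have ha' : g a = 0 := congrArg Subtype.val (show g.rangeRestrict a = 0 from ha)
    change τ a = 0
    rw [hτ, ha', h0 a ha']; simp
  let τ' := AlgHom.liftOfSurjective g.rangeRestrict g.rangeRestrict_surjective τ hker
  have hτ' : ∀ a, τ' (g.rangeRestrict a) = τ a := fun a => AlgHom.liftOfSurjective_apply _ _ _ _ a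
  have hfst : ∀ y : g.range, (τ' y).fst = y := fun y => by
    obtain ⟨a, rfl⟩ := g.rangeRestrict_surjective y
    rw [hτ', hτ]; simp
  have := isFrac g hfrac
  have hu : ∀ y : nonZeroDivisors g.range, IsUnit (τ' y) := fun y => by
    rw [isUnit_iff_isUnit_fst, hfst, isUnit_iff_ne_zero]
    exact fun h => nonZeroDivisors.ne_zero y.2 (Subtype.ext h)
  let σ : K' →ₐ[ℝ] TrivSqZeroExt K' K' := IsLocalization.liftAlgHom hu
  have hσ : ∀ y : g.range, σ (y : K') = τ' y := fun y => IsLocalization.lift_eq hu y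
  have hσ1 : ∀ y, (σ y).fst = y := fun y => by
    obtain ⟨p, q, hq, h⟩ := hfrac y
    have e1 := congrArg (fun z => (σ z).fst) h
    simp only [map_mul, fst_mul] at e1
    have e2 : ∀ a, (σ (g a)).fst = g a := fun a => by
      have := hσ (g.rangeRestrict a)
      rw [show ((g.rangeRestrict a : g.range) : K') = g a from rfl] at this
      rw [this, hfst]; rfl
    rw [e2, e2, ← h] at e1
    exact mul_right_cancel₀ hq e1
  let l : K' →ₗ[ℝ] K' :=
    { toFun := fun y => (σ y).snd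
      map_add' := fun x y => by simp
      map_smul' := fun r x => by simp }
  refine ⟨Derivation.mk' l fun x y => ?_, fun a => ?_⟩
  · change (σ (x * y)).snd = x • (σ y).snd + y • (σ x).snd
    rw [map_mul, snd_mul, hσ1, hσ1]; simp [mul_comm]
  · change (σ (g a)).snd = d a
    have := hσ (g.rangeRestrict a)
    rw [show ((g.rangeRestrict a : g.range) : K') = g a from rfl] at this
    rw [this, hτ', hτ]; simp

/-- a homomorphism on `B` that does not kill the functions nonzero at `b` extends to the local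
ring -/
theorem exists_rho {B : Subalgebra ℝ K} (hB : B.FG) (b : Pt B) (g : B →ₐ[ℝ] K')
    (hg : ∀ q : B, b q ≠ 0 → g q ≠ 0) :
    ∃ ρ : (locAt B hB b).O →ₐ[ℝ] K', ∀ f : B, ρ ⟨f, locAt_le f.2⟩ = g f := by
  let _ : Algebra B (locO B b) := (Subalgebra.inclusion (le_locO B b)).toRingHom.toAlgebra
  have : IsScalarTower ℝ B (locO B b) := IsScalarTower.of_algebraMap_eq fun _ => rfl
  let N : Submonoid B :=
    { carrier := {q | b q ≠ 0}
      mul_mem' := fun {x y} hx hy => by simpa using ⟨hx, hy⟩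
      one_mem' := by simp }
  have hne : ∀ q : B, b q ≠ 0 → (q : K) ≠ 0 := fun q hq h0 => hq (by
    have : q = 0 := Subtype.ext h0
    simp [this])
  have : IsLocalization N (locO B b) :=
    { map_units := fun ⟨q, hq⟩ => by
        refine IsUnit.of_mul_eq_one ⟨(q : K)⁻¹, 1, q, hq, by simp [hne q hq]⟩ (Subtype.ext ?_)
        exact mul_inv_cancel₀ (hne q hq)
      surj := fun ⟨x, p, q, hq, h⟩ => ⟨(p, ⟨q, hq⟩), Subtype.ext h⟩
      exists_of_eq := fun {x y} h => ⟨1, by
        have : (x : K) = y := congrArg (fun z : locO B b => (z : K)) h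
        rw [Subtype.ext this]⟩ }
  have hu : ∀ y : N, IsUnit (g y) := fun y => (hg y y.2).isUnit
  exact ⟨(IsLocalization.liftAlgHom hu : locO B b →ₐ[ℝ] K'),
    fun f => IsLocalization.lift_eq (S := locO B b) hu f⟩

/-- a chart descends to a quotient by some of the coordinates -/
theorem exists_crd {n c : ℕ} {L : Loc K} {L' : Loc K'} {κ : Chart K n} (h : IsCrd L κ)
    (ρ : L.O →ₐ[ℝ] K') (hmem : ∀ f, ρ f ∈ L'.O) (hsurj : ∀ y ∈ L'.O, ∃ f, ρ f = y)
    (hev : ∀ f, L'.ev (ρ f) = L.ev f) (hfrac : ∀ y : K', ∃ p q, ρ q ≠ 0 ∧ y * ρ q = ρ p)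
    (J : Finset (Fin n)) (hker : ∀ f : L.O, ρ f = 0 ↔ (f : K) ∈ κ.I L J)
    (hc : J.card + c = n) : ∃ κ' : Chart K' c, IsCrd L' κ' := by
  classical
  have hcard : Jᶜ.card = c := by rw [Finset.card_compl, Fintype.card_fin]; omega
  let e : Fin c ≃ (Jᶜ : Finset (Fin n)) := (Jᶜ.equivFinOfCardEq hcard).symm
  have he : ∀ i, (e i : Fin n) ∉ J := fun i => Finset.mem_compl.1 (e i).2
  have hD : ∀ i : Fin c, ∃ δ : Der K', ∀ f : L.O, δ (ρ f) = ρ ⟨κ.D (e i) f, h.pres _ _ f.2⟩ := by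
    intro i
    let d0 : L.O →ₗ[ℝ] L.O :=
      { toFun := fun f => ⟨κ.D (e i) f, h.pres _ _ f.2⟩
        map_add' := fun x y => Subtype.ext (by simp)
        map_smul' := fun r x => Subtype.ext (by simp) }
    refine der_descend ρ hfrac (ρ.toLinearMap ∘ₗ d0) (fun a b => ?_) fun a ha => ?_
    · change ρ (d0 (a * b)) = ρ a * ρ (d0 b) + ρ b * ρ (d0 a)
      rw [← map_mul, ← map_mul, ← map_add]
      congr 1
      exact Subtype.ext (by simp [d0])
    · change ρ (d0 a) = 0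
      rw [hker] at ha ⊢
      exact (h.D_log_I (he i)).2 _ rfl _ ha
  choose D hD using hD
  let x : Fin n → K' := fun j => ρ ⟨κ.x j, h.x_mem j⟩
  refine ⟨⟨fun i => x (e i), D⟩, le_antisymm ?_ ?_, fun i y hy => ?_, fun i j => ?_⟩
  · rw [Loc.span_le]
    rintro _ ⟨i, rfl⟩
    exact ⟨hmem _, (hev _).trans (h.x_mem_m _).2⟩
  · intro y hy
    obtain ⟨f, rfl⟩ := hsurj y hy.1
    have hf : (f : K) ∈ κ.I L Finset.univ := by
      rw [h.I_univ]; exact ⟨f.2, (hev f).symm.trans hy.2⟩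
    obtain ⟨a, ha, hfa⟩ := (Loc.mem_span_image _ _).1 hf
    have : f = ∑ j, ⟨a j, ha j (Finset.mem_univ j)⟩ * ⟨κ.x j, h.x_mem j⟩ :=
      Subtype.ext (by rw [hfa]; simp)
    rw [this, map_sum]
    refine Submodule.sum_mem _ fun j _ => ?_
    rw [map_mul]
    refine Loc.mul_mem_left (hmem _) ?_
    by_cases hj : j ∈ J
    · rw [(hker _).2 (h.x_mem_I.2 hj)]; exact zero_mem _
    · refine Loc.subset_span ⟨e.symm ⟨j, Finset.mem_compl.2 hj⟩, ?_⟩
      simp [x]
  · obtain ⟨f, rfl⟩ := hsurj y hy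
    change D i (ρ f) ∈ L'.O
    rw [hD]; exact hmem _
  · change D i (ρ _) = _
    rw [hD]
    by_cases hij : i = j
    · subst hij
      rw [if_pos rfl, ← map_one ρ]
      congr 1
      exact Subtype.ext (by simp [h.dual])
    · rw [if_neg hij, ← map_zero ρ]
      congr 1
      have : (e i : Fin n) ≠ e j := fun h' => hij (e.injective (Subtype.ext h'))
      exact Subtype.ext (by simp [h.dual, this])

/-- the local ring of the image of `B` is the image of the local ring -/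
theorem exists_crd_range {n c : ℕ} {B : Subalgebra ℝ K} (hB : B.FG) (b : Pt B) {κ : Chart K n}
    (h : IsCrd (locAt B hB b) κ) (g : B →ₐ[ℝ] K') (hB' : g.range.FG) (b' : Pt g.range)
    (hb : ∀ f, b' (g.rangeRestrict f) = b f)
    (hfrac : ∀ y : K', ∃ p q, g q ≠ 0 ∧ y * g q = g p) (J : Finset (Fin n))
    (hker : ∀ f : B, g f = 0 → (f : K) ∈ κ.I (locAt B hB b) J)
    (hker' : ∀ j ∈ J, ∃ T : Set K, κ.x j ∈ (locAt B hB b).span T ∧
      ∀ t ∈ T, ∃ f : B, (f : K) = t ∧ g f = 0)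
    (hc : J.card + c = n) : ∃ κ' : Chart K' c, IsCrd (locAt g.range hB' b') κ' := by
  have hg : ∀ q : B, b q ≠ 0 → g q ≠ 0 := fun q hq h0 => hq (by
    rw [← hb, show g.rangeRestrict q = 0 from Subtype.ext h0, map_zero])
  obtain ⟨ρ, hρ⟩ := exists_rho hB b g hg
  have key : ∀ (f : (locAt B hB b).O) (p q : B), (f : K) * q = p → ρ f * g q = g p := by
    intro f p q hpq
    rw [← hρ, ← hρ, ← map_mul]
    congr 1
    exact Subtype.ext hpq
  have hspan : ∀ T : Set K, (∀ t ∈ T, ∀ ht, ρ ⟨t, ht⟩ = 0) → (∀ t ∈ T, t ∈ (locAt B hB b).O) →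
      ∀ f ∈ (locAt B hB b).span T, ∀ hf, ρ ⟨f, hf⟩ = 0 := by
    intro T hT hTO f hf
    have hO : ∀ x ∈ (locAt B hB b).span T, x ∈ (locAt B hB b).O := fun x hx =>
      Loc.mem_O_of_le (Loc.span_le_one hTO) hx
    refine Loc.span_induction (p := fun f => ∀ hf, ρ ⟨f, hf⟩ = 0) hf hT (fun _ => map_zero ρ)
      (fun x y hx hy px py _ => ?_) fun a ha x hx px _ => ?_
    · have := map_add ρ ⟨x, hO x hx⟩ ⟨y, hO y hy⟩
      rw [px, py, add_zero] at this
      exact this
    · have := map_mul ρ ⟨a, ha⟩ ⟨x, hO x hx⟩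
      rw [px, mul_zero] at this
      exact this
  refine exists_crd h ρ (fun f => ?_) (fun y hy => ?_) (fun f => ?_) (fun y => ?_) J
    (fun f => ⟨fun h0 => ?_, fun hf => ?_⟩) hc
  · obtain ⟨p, q, hq, hpq⟩ := f.2
    exact ⟨g.rangeRestrict p, g.rangeRestrict q, by rwa [hb], key f p q hpq⟩
  · obtain ⟨p', q', hq, hpq⟩ := hy
    obtain ⟨p, rfl⟩ := g.rangeRestrict_surjective p'
    obtain ⟨q, rfl⟩ := g.rangeRestrict_surjective q'
    rw [hb] at hq
    have hq0 : (q : K) ≠ 0 := fun h0 => hq (by rw [show q = 0 from Subtype.ext h0, map_zero])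
    have h1 : (p : K) / q * q = p := div_mul_cancel₀ _ hq0
    refine ⟨⟨p / q, p, q, hq, h1⟩, mul_right_cancel₀ (hg q hq) ?_⟩
    rw [key _ p q h1]
    exact hpq.symm
  · obtain ⟨p, q, hq, hpq⟩ := f.2
    change locEv _ _ _ = locEv _ _ _
    rw [locEv_eq B b hq hpq, locEv_eq g.range b' (p := g.rangeRestrict p)
      (q := g.rangeRestrict q) (by rwa [hb]) (key f p q hpq), hb, hb]
  · obtain ⟨p, q, hq, hpq⟩ := hfrac y
    exact ⟨⟨p, locAt_le p.2⟩, ⟨q, locAt_le q.2⟩, by rwa [hρ], by rwa [hρ, hρ]⟩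
  · obtain ⟨p, q, hq, hpq⟩ := f.2
    have h1 := key f p q hpq
    rw [h0, zero_mul] at h1
    refine Loc.mem_of_unit_mul (locAt_le q.2) (by rwa [locAt_ev]) ?_
    rw [mul_comm, hpq]
    exact hker p h1.symm
  · refine hspan _ ?_ ?_ _ hf f.2
    · rintro _ ⟨j, hj, rfl⟩ hx
      obtain ⟨T, hT, hT'⟩ := hker' j hj
      refine hspan T (fun t ht _ => ?_) (fun t ht => ?_) _ hT hx
      · obtain ⟨f, rfl, hf⟩ := hT' t ht
        exact (hρ f).trans hf
      · obtain ⟨f, rfl, -⟩ := hT' t ht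
        exact locAt_le f.2
    · rintro _ ⟨j, -, rfl⟩
      exact h.x_mem j

theorem fg_range {B : Subalgebra ℝ K} (hB : B.FG) (g : B →ₐ[ℝ] K') : g.range.FG := by
  rw [← Algebra.map_top]
  exact ((Subalgebra.fg_top B).mpr hB).map g

/-- the image of a closed set `X` of constant codimension under a map with kernel `van X` -/
theorem exists_model {n c : ℕ} (M : Model K n) {X : Set M.P} (hX : ZClosed X) (hne : X.Nonempty)
    (g : M.B →ₐ[ℝ] K') (hker : ∀ f, g f = 0 ↔ f ∈ van X)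
    (hfrac : ∀ y : K', ∃ p q, g q ≠ 0 ∧ y * g q = g p)
    (hsm : ∀ b ∈ X, ∃ (κ : Chart K n) (J : Finset (Fin n)), IsCrd (M.loc b) κ ∧
      (M.loc b).span (M.vanK X) = κ.I (M.loc b) J ∧ J.card + c = n) :
    ∃ (M' : Model K' c) (ι : M.B →ₐ[ℝ] M'.B) (α : M.P → M'.P), Function.Surjective ι ∧
      (∀ f, (ι f : K') = g f) ∧ (∀ b ∈ X, ∀ f, α b (ι f) = b f) ∧
      BiregBy X Set.univ α (fun b' => b'.comp ι) := by
  classical
  have hlift : ∀ b ∈ X, ∃ b' : Pt g.range, ∀ f, b' (g.rangeRestrict f) = b f := fun b hb =>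
    ⟨AlgHom.liftOfSurjective g.rangeRestrict g.rangeRestrict_surjective b fun f hf =>
      (hker f).1 (congrArg Subtype.val (show g.rangeRestrict f = 0 from hf)) b hb,
      fun f => AlgHom.liftOfSurjective_apply _ _ _ _ f⟩
  obtain ⟨a, ha⟩ := hne
  have hlift' : ∀ b : M.P, ∃ b' : Pt g.range, b ∈ X → ∀ f, b' (g.rangeRestrict f) = b f := by
    intro b
    by_cases hb : b ∈ X
    · obtain ⟨b', h⟩ := hlift b hb
      exact ⟨b', fun _ => h⟩
    · obtain ⟨b', -⟩ := hlift a ha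
      exact ⟨b', fun h => absurd h hb⟩
  choose α hα using hlift'
  have hmem : ∀ b' : Pt g.range, b'.comp g.rangeRestrict ∈ X := fun b' => hX fun f hf => by
    change b' (g.rangeRestrict f) = 0
    rw [show g.rangeRestrict f = 0 from Subtype.ext ((hker f).2 hf), map_zero]
  have hright : ∀ b' : Pt g.range, α (b'.comp g.rangeRestrict) = b' := fun b' => by
    ext y
    obtain ⟨f, rfl⟩ := g.rangeRestrict_surjective y
    exact hα _ (hmem b') f
  have hreg : Reg X α := fun y b hb => by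
    obtain ⟨f, rfl⟩ := g.rangeRestrict_surjective y
    exact ⟨f, 1, by simp, fun x hx _ => by simp [hα x hx]⟩
  have hcpt : CompactSpace (Pt g.range) := by
    refine ⟨?_⟩
    have h1 := hX.isClosed.isCompact.image_of_continuousOn hreg.continuousOn
    rwa [show α '' X = Set.univ from Set.eq_univ_of_forall fun b' =>
      ⟨_, hmem b', hright b'⟩] at h1
  refine ⟨⟨g.range, fg_range M.fg g, fun y => ?_, hcpt, ⟨α a⟩, fun b' => ?_⟩, g.rangeRestrict, α,
    g.rangeRestrict_surjective, fun _ => rfl, hα, fun _ _ => trivial, fun b' _ => hmem b',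
    fun b hb => AlgHom.ext (hα b hb), fun b' _ => hright b', hreg, reg_comap _⟩
  · obtain ⟨p, q, hq, h⟩ := hfrac y
    exact ⟨g p, ⟨p, rfl⟩, g q, ⟨q, rfl⟩, hq, h⟩
  · obtain ⟨κ, J, hκ, hJ, hc⟩ := hsm _ (hmem b')
    refine exists_crd_range M.fg _ hκ g _ b' (fun _ => rfl) hfrac J (fun f hf => ?_)
      (fun j hj => ⟨M.vanK X, ?_, ?_⟩) hc
    · exact hJ.le (Loc.subset_span ⟨f, (hker f).1 hf, rfl⟩)
    · exact hJ.ge (hκ.x_mem_I.2 hj)
    · rintro _ ⟨f, hf, rfl⟩
      exact ⟨f, rfl, (hker f).2 hf⟩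

end Pool.Agent.MP_696f7f_ag.H96.MSubAux
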