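import Pool.Agent.MP_696f7f_ag.H96.MBlow

/-! The topology of blow-ups. -/

namespace Pool.Agent.MP_696f7f_ag.H96

open Filter Topology

variable {K : Type} [Field K] [Algebra ℝ K] {n : ℕ} {M M' : Model K n} {C : Set M.P}
  {E : ℕ → Set M.P} {k : ℕ}

namespace MTop

variable {m : ℕ} {f : Fin m → M.B}

theorem prj_mem (h : IsBlBy M C M' f) (i j : Fin m) : prj (fun l => (f l : K)) i j ∈ M'.B := by
  rw [h.eq]
  exact Algebra.subset_adjoin (Or.inr ⟨(i, j), rfl⟩)

/-- the projection matrix at a point of the blow-up -/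
def em (h : IsBlBy M C M' f) (b' : M'.P) (i j : Fin m) : ℝ := b' ⟨_, prj_mem h i j⟩

theorem em_cont (h : IsBlBy M C M' f) : Continuous (em h) :=
  continuous_pi fun _ => continuous_pi fun _ => continuous_ev _

theorem f_mem (h : IsBlBy M C M' f) (l : Fin m) : f l ∈ van C := by
  rw [← h.span]
  exact Ideal.subset_span ⟨l, rfl⟩

theorem span_eq (h : IsBlBy M C M' f) {L : Loc K} (hL : M.B ≤ L.O) :
    L.span (M.vanK C) = L.span ((fun l => (f l : K)) '' (Finset.univ : Finset (Fin m))) := by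
  refine le_antisymm (Loc.span_le.2 ?_) (Loc.span_le.2 ?_)
  · rintro _ ⟨g, hg, rfl⟩
    have hg' : g ∈ Ideal.span (Set.range f) := by rw [h.span]; exact hg
    obtain ⟨c, rfl⟩ := Ideal.mem_span_range_iff_exists_fun.1 hg'
    refine (Loc.mem_span_image _ _).2 ⟨fun l => (c l : K), fun l _ => hL (c l).2, ?_⟩
    simp
  · rintro _ ⟨l, -, rfl⟩
    exact Loc.subset_span ⟨f l, f_mem h l, rfl⟩

theorem em_mul (h : IsBlBy M C M' f) (hb : IsBl M C M') (b' : M'.P) (i j : Fin m) :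
    em h b' i j * ∑ l, hb.π b' (f l) ^ 2 = hb.π b' (f i) * hb.π b' (f j) := by
  simp only [hb.π_apply, em, ← map_pow, ← map_sum, ← map_mul]
  congr 1
  apply Subtype.ext
  push_cast
  exact div_mul_cancel₀ _ h.ne

theorem zero_iff (h : IsBlBy M C M' f) (hC : ZClosed C) (x : M.P) :
    (fun l => x (f l)) = 0 ↔ x ∈ C := by
  constructor
  · intro h0
    refine hC fun g hg => ?_
    have hg' : g ∈ Ideal.span (Set.range f) := by rw [h.span]; exact hg
    obtain ⟨c, rfl⟩ := Ideal.mem_span_range_iff_exists_fun.1 hg'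
    rw [map_sum]
    refine Finset.sum_eq_zero fun l _ => ?_
    rw [map_mul, show x (f l) = 0 from congrFun h0 l, mul_zero]
  · intro hx
    funext l
    exact f_mem h l x hx

theorem inj (h : IsBlBy M C M' f) (hb : IsBl M C M') {b1 b2 : M'.P} (h1 : hb.π b1 = hb.π b2)
    (h2 : em h b1 = em h b2) : b1 = b2 := by
  have key : ∀ g ∈ Algebra.adjoin ℝ ((M.B : Set K) ∪
      Set.range fun ij : Fin m × Fin m => prj (fun l => (f l : K)) ij.1 ij.2),
      ∀ hg : g ∈ M'.B, b1 ⟨g, hg⟩ = b2 ⟨g, hg⟩ := by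
    intro g hg
    induction hg using Algebra.adjoin_induction with
    | mem x hx =>
      intro hx'
      rcases hx with hx | ⟨⟨i, j⟩, rfl⟩
      · have := DFunLike.congr_fun h1 ⟨x, hx⟩
        rwa [hb.π_apply, hb.π_apply] at this
      · exact congrFun (congrFun h2 i) j
    | algebraMap r =>
      intro hr
      exact (b1.commutes r).trans (b2.commutes r).symm
    | add x y hx hy ihx ihy =>
      intro _
      rw [← h.eq] at hx hy
      exact (map_add b1 ⟨x, hx⟩ ⟨y, hy⟩).trans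
        ((congrArg₂ (· + ·) (ihx hx) (ihy hy)).trans (map_add b2 ⟨x, hx⟩ ⟨y, hy⟩).symm)
    | mul x y hx hy ihx ihy =>
      intro _
      rw [← h.eq] at hx hy
      exact (map_mul b1 ⟨x, hx⟩ ⟨y, hy⟩).trans
        ((congrArg₂ (· * ·) (ihx hx) (ihy hy)).trans (map_mul b2 ⟨x, hx⟩ ⟨y, hy⟩).symm)
  ext g
  exact key g (h.eq ▸ g.2) g.2

theorem ev_D {L : Loc K} {κ : Chart K n} {J : Finset (Fin n)} (h : IsCrd L κ) {a : Fin n → K}
    (ha : ∀ i ∈ J, a i ∈ L.O) {i : Fin n} (hi : i ∈ J) :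
    L.ev (κ.D i (∑ k ∈ J, a k * κ.x k)) = L.ev (a i) := by
  have h1 : κ.D i (∑ k ∈ J, a k * κ.x k) = a i + ∑ k ∈ J, κ.x k * κ.D i (a k) := by
    rw [map_sum]
    simp only [Derivation.leibniz, smul_eq_mul, h.dual, mul_ite, mul_one, mul_zero,
      Finset.sum_add_distrib, Finset.sum_ite_eq, if_pos hi]
  have h2 : ∑ k ∈ J, κ.x k * κ.D i (a k) ∈ L.m :=
    Submodule.sum_mem _ fun k hk => Loc.mul_mem_right (h.pres i _ (ha k hk)) (h.x_mem_m k)
  rw [h1, L.ev_add _ (ha i hi) _ h2.1, h2.2, add_zero]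

/-- the coefficient matrix of a generating family of a coordinate ideal is injective -/
theorem coeff_inj {L : Loc K} {κ : Chart K n} {J : Finset (Fin n)} (h : IsCrd L κ)
    {F : Fin m → K} {a : Fin m → Fin n → K} (ha : ∀ l, ∀ j ∈ J, a l j ∈ L.O)
    (hF : ∀ l, F l = ∑ j ∈ J, a l j * κ.x j)
    (hs : κ.I L J ≤ L.span (F '' (Finset.univ : Finset (Fin m)))) (c : Fin n → ℝ)
    (hc : ∀ l, ∑ j ∈ J, L.ev (a l j) * c j = 0) : ∀ j ∈ J, c j = 0 := by
  intro j hj
  obtain ⟨β, hβ, hx⟩ := (Loc.mem_span_image _ _).1 (hs (h.x_mem_I.2 hj))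
  have hx' : κ.x j = ∑ i ∈ J, (∑ l, β l * a l i) * κ.x i := by
    rw [hx]
    simp only [hF, Finset.mul_sum, Finset.sum_mul, mul_assoc]
    exact Finset.sum_comm
  have hmem : ∀ i ∈ J, ∑ l, β l * a l i ∈ L.O := fun i hi =>
    Subalgebra.sum_mem _ fun l _ => mul_mem (hβ l (Finset.mem_univ l)) (ha l i hi)
  have hδ : ∀ i ∈ J, ∑ l, L.ev (β l) * L.ev (a l i) = if i = j then 1 else 0 := by
    intro i hi
    have := ev_D h hmem hi
    rw [← hx', h.dual, Loc.ev_sum _ _ fun l _ => mul_mem (hβ l (Finset.mem_univ l)) (ha l i hi)]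
      at this
    rw [Finset.sum_congr rfl fun l _ => (L.ev_mul _ (hβ l (Finset.mem_univ l)) _ (ha l i hi)).symm,
      ← this]
    split_ifs
    · exact Loc.ev_one
    · exact Loc.ev_zero
  have h0 : ∑ l, L.ev (β l) * ∑ i ∈ J, L.ev (a l i) * c i = 0 := by simp [hc]
  simp only [Finset.mul_sum, ← mul_assoc] at h0
  rw [Finset.sum_comm] at h0
  simp only [← Finset.sum_mul] at h0
  rw [Finset.sum_congr rfl fun i hi => by rw [hδ i hi]] at h0
  simpa [hj] using h0

theorem pj_of_mul {u : Fin m → ℝ} {w : Fin m → Fin m → ℝ} (hu : u ≠ 0)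
    (hw : ∀ i j, w i j * ∑ l, u l ^ 2 = u i * u j) :
    IsUnitVec ((√(∑ l, u l ^ 2))⁻¹ • u) ∧ pj ((√(∑ l, u l ^ 2))⁻¹ • u) = w := by
  have h0 : 0 < ∑ l, u l ^ 2 := by
    obtain ⟨l, hl⟩ := Function.ne_iff.1 hu
    have hl' : u l ≠ 0 := hl
    exact Finset.sum_pos' (fun i _ => sq_nonneg _) ⟨l, Finset.mem_univ l, by positivity⟩
  have h1 : (√(∑ l, u l ^ 2))⁻¹ ^ 2 = (∑ l, u l ^ 2)⁻¹ := by
    rw [inv_pow, Real.sq_sqrt h0.le]
  constructor
  · simp only [IsUnitVec, Pi.smul_apply, smul_eq_mul, mul_pow, ← Finset.mul_sum, h1]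
    exact inv_mul_cancel₀ h0.ne'
  · funext i j
    simp only [pj, Pi.smul_apply, smul_eq_mul]
    rw [mul_mul_mul_comm, ← pow_two, h1, ← hw, inv_mul_eq_div, mul_div_cancel_right₀ _ h0.ne']

/-- the linear map given by the coefficient matrix -/
noncomputable def lin (L : Loc K) (J : Finset (Fin n)) (a : Fin m → Fin n → K) :
    (Fin n → ℝ) →ₗ[ℝ] (Fin m → ℝ) where
  toFun := fun c l => ∑ j ∈ J, L.ev (a l j) * c j
  map_add' := fun c d => by
    funext l
    simp [mul_add, Finset.sum_add_distrib]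
  map_smul' := fun r c => by
    funext l
    simp [Finset.mul_sum, mul_left_comm]

/-- vectors supported on `T` -/
def supp (T : Finset (Fin n)) : Submodule ℝ (Fin n → ℝ) where
  carrier := {c | ∀ j ∉ T, c j = 0}
  add_mem' := fun {a b} ha hb j hj => by simp [ha j hj, hb j hj]
  zero_mem' := fun _ _ => rfl
  smul_mem' := fun r c hc j hj => by simp [hc j hj]

theorem finrank_supp (T : Finset (Fin n)) : Module.finrank ℝ (supp T) = T.card := by
  classical
  let e : supp T ≃ₗ[ℝ] (T → ℝ) :=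
    { toFun := fun c j => c.1 j
      map_add' := fun _ _ => rfl
      map_smul' := fun _ _ => rfl
      invFun := fun d => ⟨fun j => if h : j ∈ T then d ⟨j, h⟩ else 0, fun j hj => dif_neg hj⟩
      left_inv := fun c => by
        ext j
        by_cases h : j ∈ T
        · simp [h]
        · simp [h, c.2 j h]
      right_inv := fun d => by
        ext j
        simp }
  rw [e.finrank_eq, Module.finrank_fintype_fun_eq_card, Fintype.card_coe]

theorem into (h : IsBlBy M C M' f) (hb : IsBl M C M') (hE : M.Snc k E) (hC : ZClosed C)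
    {I : Finset ℕ} (hI : ∀ i ∈ I, i < k) {b' : M'.P} {κ : Chart K n} {σ : ℕ → Option (Fin n)}
    {J : Finset (Fin n)} (ha : Adp (M.loc (hb.π b')) κ (M.Y E) σ)
    (hJ : (M.loc (hb.π b')).span (M.vanK C) = κ.I (M.loc (hb.π b')) J)
    {a : Fin m → Fin n → K} (ham : ∀ l, ∀ j ∈ J, a l j ∈ (M.loc (hb.π b')).O)
    (hF : ∀ l, (f l : K) = ∑ j ∈ J, a l j * κ.x j) (hb' : b' ∈ strat (hb.bd k E) I) :
    em h b' ∈ pj '' {l | l ∈ (supp (J \ Finset.univ.filter fun j => ∃ i ∈ I, σ i = some j)).map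
      (lin (M.loc (hb.π b')) J a) ∧ IsUnitVec l} := by
  classical
  obtain ⟨j0, hl⟩ := hb.blLoc ha.crd hJ
  set L := M.loc (hb.π b') with hL
  set L' := M'.loc b' with hL'
  have hs : κ.x j0 ≠ 0 := hl.lbl_ne
  let c : Fin n → ℝ := fun j => if j ∈ J then L'.ev (κ.x j / κ.x j0) else 0
  have hc : c ∈ supp (J \ Finset.univ.filter fun j => ∃ i ∈ I, σ i = some j) := by
    intro j hj
    by_cases hjJ : j ∈ J
    · have : ∃ i ∈ I, σ i = some j := by
        by_contra hcon
        exact hj (Finset.mem_sdiff.2 ⟨hjJ, by simpa using hcon⟩)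
      obtain ⟨i, hi, hσ⟩ := this
      have h1 := hb.span_st hC (hE.closed i) hJ hl (ha.span_some hσ)
      have h2 : b' ∈ hb.st (E i) := by
        have := hb' i hi
        rwa [IsBl.bd, if_neg (hI i hi).ne] at this
      have h3 : κ.sx J j0 j ∈ L'.m := by
        refine Model.span_vanK_le_m h2 ?_
        rw [h1]
        exact Loc.subset_span ⟨j, by simp, rfl⟩
      have h4 := h3.2
      rw [Chart.sx, if_pos hjJ] at h4
      simp only [c, if_pos hjJ, h4]
    · simp only [c, if_neg hjJ]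
  have hdiv : ∀ l, (f l : K) / κ.x j0 = ∑ j ∈ J, a l j * (κ.x j / κ.x j0) := by
    intro l
    rw [hF l, Finset.sum_div]
    exact Finset.sum_congr rfl fun j _ => mul_div_assoc _ _ _
  have hmem : ∀ l, (f l : K) / κ.x j0 ∈ L'.O := fun l => by
    rw [hdiv]
    exact Subalgebra.sum_mem _ fun j hj => mul_mem (hl.le (ham l j hj)) (hl.div j hj)
  have hev : ∀ l, L'.ev ((f l : K) / κ.x j0) = lin L J a c l := fun l => by
    rw [hdiv, Loc.ev_sum _ _ fun j hj => mul_mem (hl.le (ham l j hj)) (hl.div j hj)]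
    refine Finset.sum_congr rfl fun j hj => ?_
    rw [L'.ev_mul _ (hl.le (ham l j hj)) _ (hl.div j hj), hl.ev _ (ham l j hj)]
    simp only [c, if_pos hj]
  have hu : lin L J a c ≠ 0 := by
    intro h0
    have := coeff_inj ha.crd ham hF (hJ ▸ (span_eq h (M.le_loc _)).le) c
      (fun l => congrFun h0 l) j0 hl.mem
    simp only [c, if_pos hl.mem, div_self hs, Loc.ev_one] at this
    exact one_ne_zero this
  have hw : ∀ i j, em h b' i j * ∑ l, lin L J a c l ^ 2 = lin L J a c i * lin L J a c j := by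
    intro i j
    have h1 : em h b' i j = L'.ev (prj (fun l => (f l : K)) i j) :=
      (Model.loc_ev b' ⟨_, prj_mem h i j⟩).symm
    have h2 : prj (fun l => (f l : K)) i j * ∑ l, ((f l : K) / κ.x j0) ^ 2 =
        (f i : K) / κ.x j0 * ((f j : K) / κ.x j0) := by
      simp only [div_pow, ← Finset.sum_div, prj]
      have := h.ne
      field_simp
    have h3 := congrArg L'.ev h2
    rw [L'.ev_mul _ (M'.le_loc b' (prj_mem h i j)) _
      (Subalgebra.sum_mem _ fun l _ => pow_mem (hmem l) 2), L'.ev_mul _ (hmem i) _ (hmem j),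
      Loc.ev_sum _ _ fun l _ => pow_mem (hmem l) 2] at h3
    simp only [Loc.ev_pow (hmem _), hev] at h3
    rw [h1, h3]
  obtain ⟨h1, h2⟩ := pj_of_mul hu hw
  exact ⟨_, ⟨Submodule.smul_mem _ _ (Submodule.mem_map_of_mem hc), h1⟩, h2⟩

theorem onto (h : IsBlBy M C M' f) (hb : IsBl M C M') (hE : M.Snc k E) (hC : ZClosed C)
    {I : Finset ℕ} (hI : ∀ i ∈ I, i < k) {x : M.P} (hx : x ∈ strat E I) {κ : Chart K n}
    {σ : ℕ → Option (Fin n)} {J : Finset (Fin n)} (ha : Adp (M.loc x) κ (M.Y E) σ)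
    (hJ : (M.loc x).span (M.vanK C) = κ.I (M.loc x) J)
    {a : Fin m → Fin n → K} (ham : ∀ l, ∀ j ∈ J, a l j ∈ (M.loc x).O)
    (hF : ∀ l, (f l : K) = ∑ j ∈ J, a l j * κ.x j) {c : Fin n → ℝ}
    (hc : c ∈ supp (J \ Finset.univ.filter fun j => ∃ i ∈ I, σ i = some j))
    (hu : IsUnitVec (lin (M.loc x) J a c)) :
    ∃ b' ∈ strat (hb.bd k E) I, hb.π b' = x ∧ em h b' = pj (lin (M.loc x) J a c) := by
  classical
  obtain ⟨t, p, ht, -, hp, hcm⟩ := Model.exists_curve ha.crd c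
  have hcm' : ∀ i j, (M.loc (p i)).ev (κ.x j) = t i * c j := fun i j => congrFun (hcm i) j
  have hpz : Tendsto p atTop (zn x) := hp.mono_right nhds_le_zn
  have hxm : ∀ᶠ b in zn x, ∀ j, κ.x j ∈ (M.loc b).O :=
    eventually_all.2 fun j => Model.sp_mem (ha.crd.x_mem j)
  have ham' : ∀ᶠ b in zn x, ∀ l, ∀ j ∈ J, a l j ∈ (M.loc b).O :=
    eventually_all.2 fun l => (eventually_all_finset J).2 fun j hj => Model.sp_mem (ham l j hj)
  have hA : ∀ᶠ i in atTop, p i ∈ strat E I := by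
    refine (eventually_all_finset I).2 fun i hi => ?_
    obtain ⟨j, hσ⟩ : ∃ j, σ i = some j := by
      refine Option.ne_none_iff_exists'.1 fun h0 => ?_
      exact (hE.span_eq_one i).1 ((ha.span_eq_one i).2 h0) (hx i hi)
    have h1 := Model.sp_mem_iff (hE.closed i) (Set.finite_singleton (κ.x j))
      ((ha.span_some hσ).trans (Chart.I_singleton j))
    filter_upwards [hpz.eventually h1, hpz.eventually hxm] with r h2 h3
    refine h2.2 ?_
    rintro _ rfl
    refine ⟨h3 j, ?_⟩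
    rw [hcm', hc j (fun hj => (Finset.mem_sdiff.1 hj).2 (by simpa using ⟨i, hi, hσ⟩)), mul_zero]
  have hnC : ∀ᶠ i in atTop, p i ∉ C := by
    have h1 := Model.sp_mem_iff hC ((J.finite_toSet).image κ.x) hJ
    filter_upwards [hpz.eventually h1] with r h2 h3
    have h4 : lin (M.loc x) J a c = 0 := by
      funext l
      refine Finset.sum_eq_zero fun j hj => ?_
      have h5 := (h2.1 h3 _ ⟨j, hj, rfl⟩).2
      rw [hcm'] at h5
      rw [(mul_eq_zero.1 h5).resolve_left (ht r).ne', mul_zero]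
    rw [h4] at hu
    simp [IsUnitVec] at hu
  have hlim : ∀ l, Tendsto (fun i => p i (f l) / t i) atTop (𝓝 (lin (M.loc x) J a c l)) := by
    intro l
    have h1 : Tendsto (fun i => ∑ j ∈ J, (M.loc (p i)).ev (a l j) * c j) atTop
        (𝓝 (lin (M.loc x) J a c l)) :=
      tendsto_finsetSum _ fun j hj =>
        ((Model.continuousAt_ev (ham l j hj)).tendsto.comp hp).mul_const _
    refine h1.congr' ?_
    filter_upwards [hpz.eventually hxm, hpz.eventually ham'] with r h2 h3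
    rw [← Model.loc_ev, hF, Loc.ev_sum _ _ fun j hj => mul_mem (h3 l j hj) (h2 j),
      Finset.sum_div]
    refine Finset.sum_congr rfl fun j hj => ?_
    rw [(M.loc (p r)).ev_mul _ (h3 l j hj) _ (h2 j), hcm']
    have := (ht r).ne'
    field_simp
  have hq : ∀ i, ∃ q : M'.P, p i ∉ C → hb.π q = p i := fun i => by
    by_cases h0 : p i ∈ C
    · exact ⟨Classical.arbitrary _, fun h1 => absurd h0 h1⟩
    · obtain ⟨q, hq⟩ := hb.exists_off hC h0
      exact ⟨q, fun _ => hq⟩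
  choose q hq using hq
  let U : Ultrafilter ℕ := Ultrafilter.of atTop
  have hU : (U : Filter ℕ) ≤ atTop := Ultrafilter.of_le _
  obtain ⟨b', -, hb'⟩ := isCompact_univ.ultrafilter_le_nhds (U.map q) (by simp)
  have hqb : Tendsto q U (𝓝 b') := hb'
  refine ⟨b', fun i hi => ?_, ?_, ?_⟩
  · rw [IsBl.bd, if_neg (hI i hi).ne]
    refine zclosed_zcl.isClosed.mem_of_tendsto hqb (hU ?_)
    filter_upwards [hA, hnC] with r h1 h2
    refine (hb.mem_st_off hC (hE.closed i) (by rw [hq r h2]; exact h2)).2 ?_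
    rw [hq r h2]
    exact h1 i hi
  · refine tendsto_nhds_unique ((hb.dom.continuous.tendsto b').comp hqb) ?_
    refine (hp.mono_left hU).congr' (hU ?_)
    filter_upwards [hnC] with r h2
    exact (hq r h2).symm
  · refine tendsto_nhds_unique (((em_cont h).tendsto b').comp hqb) ?_
    refine Tendsto.mono_left ?_ hU
    refine tendsto_pi_nhds.2 fun i => tendsto_pi_nhds.2 fun j => ?_
    have h1 : Tendsto (fun r => ∑ l, (p r (f l) / t r) ^ 2) atTop (𝓝 1) := by
      rw [← show ∑ l, lin (M.loc x) J a c l ^ 2 = 1 from hu]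
      exact tendsto_finsetSum _ fun l _ => (hlim l).pow 2
    have h2 := ((hlim i).mul (hlim j)).div h1 one_ne_zero
    rw [div_one] at h2
    refine h2.congr' ?_
    filter_upwards [hnC, h1.eventually_ne one_ne_zero] with r h3 h4
    have h5 := em_mul h hb (q r) i j
    rw [hq r h3] at h5
    have h6 := (ht r).ne'
    simp only [Pi.div_apply, Function.comp_apply]
    rw [div_eq_iff h4]
    simp only [div_pow, ← Finset.sum_div]
    rw [← mul_div_assoc (em h (q r) i j), h5]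
    field_simp

theorem fibre (h : IsBlBy M C M' f) (hb : IsBl M C M') (hE : M.Snc k E) (hC : ZClosed C)
    {I : Finset ℕ} (hI : ∀ i ∈ I, i < k) {x : M.P} (hx : x ∈ strat E I) {κ : Chart K n}
    {σ : ℕ → Option (Fin n)} {J : Finset (Fin n)} (ha : Adp (M.loc x) κ (M.Y E) σ)
    (hJ : (M.loc x).span (M.vanK C) = κ.I (M.loc x) J) :
    ∃ Λ : Submodule ℝ (Fin m → ℝ),
      Module.finrank ℝ Λ = (J \ Finset.univ.filter fun j => ∃ i ∈ I, σ i = some j).card ∧
      Set.BijOn (em h) (strat (hb.bd k E) I ∩ hb.π ⁻¹' {x})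
        (pj '' {l | l ∈ Λ ∧ IsUnitVec l}) := by
  classical
  have h1 : ∀ l, ∃ a : Fin n → K, (∀ j ∈ J, a j ∈ (M.loc x).O) ∧
      (f l : K) = ∑ j ∈ J, a j * κ.x j := fun l =>
    (Loc.mem_span_image J κ.x).1 (hJ.le (Loc.subset_span ⟨f l, f_mem h l, rfl⟩))
  choose a ham hF using h1
  refine ⟨(supp (J \ Finset.univ.filter fun j => ∃ i ∈ I, σ i = some j)).map (lin (M.loc x) J a),
    ?_, ?_, ?_, ?_⟩
  · rw [← finrank_supp, ← LinearMap.range_domRestrict]
    refine LinearMap.finrank_range_of_inj ((injective_iff_map_eq_zero _).2 fun c hc => ?_)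
    have h2 := coeff_inj ha.crd ham hF (hJ ▸ (span_eq h (M.le_loc _)).le) c
      (fun l => congrFun hc l)
    ext j
    by_cases hj : j ∈ J
    · exact h2 j hj
    · exact c.2 j fun h3 => hj (Finset.mem_sdiff.1 h3).1
  · rintro b' ⟨hb', rfl⟩
    exact into h hb hE hC hI ha hJ ham hF hb'
  · intro b1 h1 b2 h2 h3
    exact inj h hb (h1.2.trans h2.2.symm) h3
  · rintro _ ⟨_, ⟨⟨c, hc, rfl⟩, hu⟩, rfl⟩
    obtain ⟨b', h1, h2, h3⟩ := onto h hb hE hC hI hx ha hJ ham hF hc hu
    exact ⟨b', ⟨h1, h2⟩, h3⟩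

theorem res_comp_id (T : CohF) (a : ℕ) {X X' : Type} [TopologicalSpace X] [TopologicalSpace X']
    {A : Set X} {A' : Set X'} {φ : X → X'} {ψ : X' → X} (hφ : ContinuousOn φ A)
    (hψ : ContinuousOn ψ A') (hm : Set.MapsTo φ A A') (hm' : Set.MapsTo ψ A' A)
    (hl : ∀ x ∈ A, ψ (φ x) = x) (u : T.H a X A) : T.res a φ hφ hm (T.res a ψ hψ hm' u) = u := by
  rw [T.res_comp a φ ψ id hφ hm hψ hm' continuousOn_id (Set.mapsTo_id A) hl]
  exact T.res_id a id _ _ (fun _ _ => rfl) u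

theorem ses_bt {T : CohF} {X X' : Type} [TopologicalSpace X] [TopologicalSpace X'] {A : Set X}
    {A' : Set X'} {C : Set X} {π : X' → X} {hc : ContinuousOn π A'} {hm : Set.MapsTo π A' A}
    (h : T.SES A A' C π hc hm) (a : ℕ) [Module.Finite (ZMod 2) (T.H a X' A')]
    [Module.Finite (ZMod 2) (T.H a X (A ∩ C))] :
    T.bt a A' + T.bt a (A ∩ C) = T.bt a A + T.bt a (A' ∩ π ⁻¹' C) := by
  let α := (T.res a π hc hm).prod (T.rs a (Set.inter_subset_left : A ∩ C ⊆ A))
  let β := (T.rs a (Set.inter_subset_left : A' ∩ π ⁻¹' C ⊆ A')).coprod (T.rc a C hc hm)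
  have h2 : ∀ w : T.H a X' (A' ∩ π ⁻¹' C), w + w = 0 := fun w => by
    rw [← two_smul (ZMod 2) w, show (2 : ZMod 2) = 0 from rfl, zero_smul]
  have hα : Function.Injective α := (injective_iff_map_eq_zero _).2 fun u hu =>
    h.inj a u (congrArg Prod.fst hu) (congrArg Prod.snd hu)
  have hβ : LinearMap.range β = ⊤ := LinearMap.range_eq_top.2 fun w => by
    obtain ⟨u', c, hw⟩ := h.surj a w
    exact ⟨(u', c), hw⟩
  have hk : LinearMap.ker β = LinearMap.range α := by
    ext ⟨u', c⟩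
    constructor
    · intro h0
      have h1 : T.rs a (Set.inter_subset_left : A' ∩ π ⁻¹' C ⊆ A') u' + T.rc a C hc hm c = 0 := h0
      obtain ⟨u, h3, h4⟩ := h.exact a u' c
        ((eq_neg_of_add_eq_zero_left h1).trans (neg_eq_of_add_eq_zero_left (h2 _)))
      exact ⟨u, Prod.ext h3 h4⟩
    · rintro ⟨u, hu⟩
      rw [← hu]
      have h3 : T.rs a (Set.inter_subset_left : A' ∩ π ⁻¹' C ⊆ A') (T.res a π hc hm u) =
          T.rc a C hc hm (T.rs a (Set.inter_subset_left : A ∩ C ⊆ A) u) :=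
        (T.res_comp a id π π _ _ _ _ (hc.mono Set.inter_subset_left) (fun _ h => hm h.1)
          (fun _ _ => rfl) u).trans
          (T.res_comp a π id π _ _ _ _ _ _ (fun _ _ => rfl) u).symm
      change T.rs a (Set.inter_subset_left : A' ∩ π ⁻¹' C ⊆ A') (T.res a π hc hm u) +
        T.rc a C hc hm (T.rs a (Set.inter_subset_left : A ∩ C ⊆ A) u) = 0
      rw [h3, h2]
  have h5 := β.finrank_range_add_finrank_ker
  rw [hβ, hk, finrank_top, LinearMap.finrank_range_of_inj hα, Module.finrank_prod] at h5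
  simp only [CohF.bt]
  omega

theorem strat_empty {X : Type} (D : ℕ → Set X) : strat D ∅ = Set.univ :=
  Set.eq_univ_of_forall fun _ _ hi => absurd hi (Finset.notMem_empty _)

end MTop

theorem IsBl.blowTop (h : IsBl M C M') (hE : M.Snc k E) (hC : M.Centre E C) (I : Finset ℕ)
    (hI : ∀ i ∈ I, i < k) : ∃ (m : ℕ) (f : M.P → Fin m → ℝ) (e : M'.P → Fin m → Fin m → ℝ),
      BlowTop (strat E I) (strat (h.bd k E) I) C h.π f e := by
  obtain ⟨m, f, hf⟩ := id h
  have hmaps : Set.MapsTo h.π (strat (h.bd k E) I) (strat E I) :=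
    fun b' hb' i hi => h.bd_lt hE (hI i hi).ne (hb' i hi)
  refine ⟨m, fun b l => b (f l), MTop.em hf, (hE.sm_strat I).closed.isClosed.isCompact,
    ((h.snc hE hC).sm_strat I).closed.isClosed.isCompact, hC.closed.isClosed,
    h.dom.continuous.continuousOn, hmaps, ⟨fun b' hb' => ⟨hmaps hb'.1, hb'.2⟩, ?_, ?_⟩,
    (continuous_pi fun _ => continuous_ev _).continuousOn,
    fun x _ => MTop.zero_iff hf hC.closed x, (MTop.em_cont hf).continuousOn,
    fun y _ _ i j => MTop.em_mul hf h y i j, ?_⟩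
  · intro b1 h1 b2 h2 h3
    refine Model.eq_of_loc_le (le_of_eq ?_)
    rw [h.loc_off hC.closed h1.2, h.loc_off hC.closed h2.2, h3]
  · intro b hb
    obtain ⟨b', rfl⟩ := h.exists_off hC.closed hb.2
    refine ⟨b', ⟨fun i hi => ?_, hb.2⟩, rfl⟩
    rw [IsBl.bd, if_neg (hI i hi).ne]
    exact (h.mem_st_off hC.closed (hE.closed i) hb.2).2 (hb.1 i hi)
  · intro x hx
    obtain ⟨κ, σ, J, ha, hJ⟩ := hC.snc x hx.2
    obtain ⟨T, hT, hTC, hTs⟩ := M.exists_fin_vanK C
    refine ⟨(J \ Finset.univ.filter fun j => ∃ i ∈ I, σ i = some j).card, ?_⟩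
    have h1 := Model.sp_adp hE.bd ha
    have h2 := Model.sp_I ha.crd hT ((hTs _ (M.le_loc x)).trans hJ)
    filter_upwards [nhdsWithin_le_nhds (nhds_le_zn h1), nhdsWithin_le_nhds (nhds_le_zn h2),
      self_mem_nhdsWithin] with x' h3 h4 hx'
    obtain ⟨σ', ha', hσ⟩ := h3
    have hJ' := (hTs _ (M.le_loc x')).symm.trans
      (h4 fun z hz => Model.span_vanK_le_m hx'.2 (Loc.subset_span (hTC hz))).1
    have h5 : (Finset.univ.filter fun j => ∃ i ∈ I, σ i = some j) =
        Finset.univ.filter fun j => ∃ i ∈ I, σ' i = some j := by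
      refine Finset.filter_congr fun j _ => ⟨?_, fun ⟨i, hi, h6⟩ => ⟨i, hi, hσ i j h6⟩⟩
      rintro ⟨i, hi, h6⟩
      obtain ⟨j', h7⟩ : ∃ j', σ' i = some j' := by
        refine Option.ne_none_iff_exists'.1 fun h0 => ?_
        exact (hE.span_eq_one i).1 ((ha'.span_eq_one i).2 h0) (hx'.1 i hi)
      refine ⟨i, hi, ?_⟩
      rw [h7, ← h6, hσ i j' h7]
    rw [h5]
    exact MTop.fibre hf h hE hC.closed hI hx'.1 ha' hJ'

/-- the pair attached to a model with boundary -/
def Model.pr (M : Model K n) {k : ℕ} {E : ℕ → Set M.P} (hE : M.Snc k E) : Pr where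
  X := M.P
  k := k
  D := E
  closed := fun i => (hE.closed i).isClosed
  bd := hE.bd

theorem Model.Sm.finite {T : CohF} (hT : T.IsCoh) {A : Set M.P} (hA : M.Sm A) (a : ℕ) :
    Module.Finite (ZMod 2) (T.H a M.P A) :=
  hT.fin a hA.closed.isClosed.isCompact hA.locEuc

theorem Model.pr_fin {T : CohF} (hT : T.IsCoh) (hE : M.Snc k E) : (M.pr hE).Fin T :=
  fun a I => (hE.sm_strat I).finite hT a

theorem Model.eul_vanish {T : CohF} (hT : T.IsCoh) (hE : M.Snc k E) {a : ℕ} (ha : n + 1 < a) :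
    (M.pr hE).eul T a = 0 := by
  refine Finset.sum_eq_zero fun I _ => ?_
  have := hT.vanish a (hE.sm_strat I).closed.isClosed.isCompact (hE.sm_strat I).locEuc ha
  have h0 : T.bt a (strat E I) = 0 := by
    rw [CohF.bt, Module.finrank_zero_of_subsingleton, Nat.cast_zero]
  exact mul_eq_zero_of_right _ h0

theorem IsBl.blowPr {T : CohF} (hT : T.IsCoh) (h : IsBl M C M') (hE : M.Snc k E)
    (hC : M.Centre E C) (hCE : C ⊆ ⋃ i, E i) :
    BlowPr T (M'.pr (h.snc hE hC)) (M.pr hE) h.π C where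
  cont := h.dom.continuous
  closed := hC.closed.isClosed
  k := rfl
  exc := if_pos rfl
  maps := fun _ hi => h.bd_lt hE hi.ne
  split := by
    have h1 := (Dom.refl M).map_refl
    have h2 := Model.Sm.splits (Dom.refl M) hC.sm hE.closed hE.bd (by rw [h1]; exact hCE)
    rwa [h1] at h2
  ses := fun I hI => by
    obtain ⟨m, f, e, hb⟩ := h.blowTop hE hC I hI
    exact hT.blow hb

/-- Betti numbers of a blow-up -/
theorem IsBl.bt {T : CohF} (hT : T.IsCoh) (h : IsBl M C M') (hE : M.Snc k E)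
    (hC : M.Centre E C) (a : ℕ) :
    T.bt a (Set.univ : Set M'.P) + T.bt a C =
      T.bt a (Set.univ : Set M.P) + T.bt a (h.π ⁻¹' C) := by
  obtain ⟨m, f, e, hb⟩ := h.blowTop hE hC ∅ (fun _ hi => absurd hi (Finset.notMem_empty _))
  have := ((h.snc hE hC).sm_strat ∅).finite hT a
  have := (Model.Centre.sm_inter hE hC ∅).finite hT a
  have h1 := MTop.ses_bt (hT.blow hb) a
  rwa [MTop.strat_empty, MTop.strat_empty, Set.univ_inter, Set.univ_inter] at h1

theorem Dom.pm {n' k' : ℕ} {M' : Model K n'} {E' : ℕ → Set M'.P} (hd : Dom M' M)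
    (hE : M.Snc k E) (hE' : M'.Snc k' E') (hi : Ident M (⋃ i, E i) M' (⋃ i, E' i)) :
    PM (M'.pr hE') (M.pr hE) hd.map :=
  ⟨hd.continuous, fun j => Model.Sm.splits hd (hE'.sm j) hE.closed hE.bd fun b' hb' => by
    have h1 : b' ∈ hd.map ⁻¹' (⋃ i, E i) := by
      rw [hi.preimage hd]
      exact Set.mem_iUnion.2 ⟨j, hb'⟩
    exact h1⟩

theorem CohF.bt_eq_of_inv (T : CohF) {X X' : Type} [TopologicalSpace X] [TopologicalSpace X']
    {A : Set X} {A' : Set X'} {φ : X → X'} {ψ : X' → X} (hφ : ContinuousOn φ A)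
    (hψ : ContinuousOn ψ A') (hm : Set.MapsTo φ A A') (hm' : Set.MapsTo ψ A' A)
    (hl : ∀ x ∈ A, ψ (φ x) = x) (hr : ∀ y ∈ A', φ (ψ y) = y) (a : ℕ) :
    T.bt a A = T.bt a A' :=
  congrArg Nat.cast (LinearEquiv.ofLinearMap (T.res a ψ hψ hm') (T.res a φ hφ hm)
    (LinearMap.ext (MTop.res_comp_id T a hψ hφ hm' hm hr))
    (LinearMap.ext (MTop.res_comp_id T a hφ hψ hm hm' hl))).finrank_eq

theorem CohF.bt_eq_of_bireg (T : CohF) {B B' : Type} [CommRing B] [Algebra ℝ B] [CommRing B']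
    [Algebra ℝ B'] {A : Set (Pt B)} {A' : Set (Pt B')} (h : Bireg A A') (a : ℕ) :
    T.bt a A = T.bt a A' := by
  obtain ⟨φ, ψ, h⟩ := h
  exact T.bt_eq_of_inv h.reg.continuousOn h.reg'.continuousOn h.maps h.maps' h.left h.right a

theorem CohF.IsCoh.bt_empty {T : CohF} (hT : T.IsCoh) {X : Type} [TopologicalSpace X] (a : ℕ) :
    T.bt a (∅ : Set X) = 0 := by
  have := hT.empty a X
  rw [CohF.bt, Module.finrank_zero_of_subsingleton, Nat.cast_zero]

theorem CohF.IsCoh.bt_union {T : CohF} (hT : T.IsCoh) {X : Type} [TopologicalSpace X] [T2Space X]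
    {A B : Set X} (hA : IsCompact A) (hB : IsCompact B) (hd : Disjoint A B) (a : ℕ)
    (hf : Module.Finite (ZMod 2) (T.H a X (A ∪ B))) :
    T.bt a (A ∪ B) = T.bt a A + T.bt a B ∧ Module.Finite (ZMod 2) (T.H a X A) ∧
      Module.Finite (ZMod 2) (T.H a X B) := by
  let α := (T.rs a (Set.subset_union_left : A ⊆ A ∪ B)).prod
    (T.rs a (Set.subset_union_right : B ⊆ A ∪ B))
  have hα : Function.Bijective α := (Function.bijective_iff_existsUnique α).2 fun w => by
    simp only [Prod.ext_iff]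
    exact hT.split a hA hB hd w.1 w.2
  have h1 : Module.Finite (ZMod 2) (T.H a X A) :=
    Module.Finite.of_surjective ((LinearMap.fst _ _ _).comp α) (Prod.fst_surjective.comp hα.2)
  have h2 : Module.Finite (ZMod 2) (T.H a X B) :=
    Module.Finite.of_surjective ((LinearMap.snd _ _ _).comp α) (Prod.snd_surjective.comp hα.2)
  refine ⟨?_, h1, h2⟩
  simp only [CohF.bt]
  rw [(LinearEquiv.ofBijective α hα).finrank_eq, Module.finrank_prod, Nat.cast_add]

end Pool.Agent.MP_696f7f_ag.H96
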