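import Pool.Agent.MP_696f7f_ag.H96.LocI
import Pool.Agent.MP_696f7f_ag.H96.Beta

/-!
Models of a field `K`: finitely generated subalgebras with compact smooth real locus.
Blow-ups, boundaries, marked objects, resolvability.
-/

namespace Pool.Agent.MP_696f7f_ag.H96

noncomputable section

variable {K : Type} [Field K] [Algebra ℝ K] {n : ℕ}

/-- the localisation of `B` at a real point, inside `K` -/
def locO (B : Subalgebra ℝ K) (b : Pt B) : Subalgebra ℝ K where
  carrier := {x | ∃ p q : B, b q ≠ 0 ∧ x * q = p}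
  mul_mem' := fun ⟨p, q, hq, h⟩ ⟨p', q', hq', h'⟩ =>
    ⟨p * p', q * q', by simp [hq, hq'], by push_cast; rw [← h, ← h']; ring⟩
  add_mem' := fun ⟨p, q, hq, h⟩ ⟨p', q', hq', h'⟩ =>
    ⟨p * q' + p' * q, q * q', by simp [hq, hq'], by push_cast; rw [← h, ← h']; ring⟩
  algebraMap_mem' := fun r => ⟨algebraMap ℝ B r, 1, by simp, by simp⟩

open Classical in
/-- the value at a real point -/
def locEv (B : Subalgebra ℝ K) (b : Pt B) (x : K) : ℝ :=
  if h : ∃ pq : B × B, b pq.2 ≠ 0 ∧ x * pq.2 = pq.1 then b h.choose.1 / b h.choose.2 else 0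

theorem locEv_eq (B : Subalgebra ℝ K) (b : Pt B) {x : K} {p q : B} (hq : b q ≠ 0)
    (h : x * q = p) : locEv B b x = b p / b q := by
  have h0 : ∃ pq : B × B, b pq.2 ≠ 0 ∧ x * pq.2 = pq.1 := ⟨(p, q), hq, h⟩
  rw [locEv, dif_pos h0]
  obtain ⟨h1, h2⟩ := h0.choose_spec
  have h3 : h0.choose.1 * q = p * h0.choose.2 := by
    apply Subtype.ext
    push_cast
    rw [← h, ← h2]; ring
  have h4 := congrArg b h3
  rw [map_mul, map_mul] at h4
  rw [div_eq_div_iff h1 hq, h4]

theorem le_locO (B : Subalgebra ℝ K) (b : Pt B) : B ≤ locO B b :=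
  fun x hx => ⟨⟨x, hx⟩, 1, by simp, by simp⟩

theorem locO_noeth (B : Subalgebra ℝ K) (hB : B.FG) (b : Pt B) : IsNoetherianRing (locO B b) := by
  have : Algebra.FiniteType ℝ B := ⟨(Subalgebra.fg_top B).mpr hB⟩
  have : IsNoetherianRing B := Algebra.FiniteType.isNoetherianRing ℝ B
  let _ : Algebra B (locO B b) := (Subalgebra.inclusion (le_locO B b)).toRingHom.toAlgebra
  let N : Submonoid B :=
    { carrier := {q | b q ≠ 0}
      mul_mem' := fun {x y} hx hy => by simpa using ⟨hx, hy⟩
      one_mem' := by simp }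
  have hne : ∀ q : B, b q ≠ 0 → (q : K) ≠ 0 := fun q hq h0 => hq (by
    have : q = 0 := Subtype.ext h0
    simp [this])
  have : IsLocalization N (locO B b) :=
    { map_units := fun ⟨q, hq⟩ => by
        refine IsUnit.of_mul_eq_one ⟨(q : K)⁻¹, 1, q, hq, by simp [hne q hq]⟩ (Subtype.ext ?_)
        exact mul_inv_cancel₀ (hne q hq)
      surj := fun ⟨x, p, q, hq, h⟩ => ⟨(p, ⟨q, hq⟩), Subtype.ext h⟩
      exists_of_eq := fun {x y} h => ⟨1, by
        have : (x : K) = y := congrArg (fun z : locO B b => (z : K)) h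
        rw [Subtype.ext this]⟩ }
  exact IsLocalization.isNoetherianRing N _ inferInstance

/-- the local ring of a real point -/
def locAt (B : Subalgebra ℝ K) (hB : B.FG) (b : Pt B) : Loc K where
  O := locO B b
  ev := locEv B b
  ev_add := fun f ⟨p, q, hq, h⟩ g ⟨p', q', hq', h'⟩ => by
    rw [locEv_eq B b hq h, locEv_eq B b hq' h', locEv_eq B b (p := p * q' + p' * q) (q := q * q')
      (by simp [hq, hq']) (by push_cast; rw [← h, ← h']; ring)]
    simp only [map_add, map_mul]
    field_simp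
  ev_mul := fun f ⟨p, q, hq, h⟩ g ⟨p', q', hq', h'⟩ => by
    rw [locEv_eq B b hq h, locEv_eq B b hq' h', locEv_eq B b (p := p * p') (q := q * q')
      (by simp [hq, hq']) (by push_cast; rw [← h, ← h']; ring)]
    simp only [map_mul]
    field_simp
  ev_alg := fun r => by
    rw [locEv_eq B b (p := algebraMap ℝ B r) (q := 1) (by simp) (by simp)]
    simp
  ev_out := fun f hf => dif_neg fun ⟨pq, h1, h2⟩ => hf ⟨pq.1, pq.2, h1, h2⟩
  inv_mem := fun f ⟨p, q, hq, h⟩ hf => by
    rw [locEv_eq B b hq h] at hf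
    have hp : b p ≠ 0 := fun h0 => hf (by simp [h0])
    have hf0 : f ≠ 0 := by
      rintro rfl
      have : p = 0 := Subtype.ext (by simpa using h.symm)
      simp [this] at hp
    exact ⟨q, p, hp, by rw [← h]; field_simp⟩
  noeth := locO_noeth B hB b

/-- a model of `K`: a finitely generated subalgebra with fraction field `K` whose real locus is
compact, nonempty and smooth of dimension `n` -/
structure Model (K : Type) [Field K] [Algebra ℝ K] (n : ℕ) where
  B : Subalgebra ℝ K
  fg : B.FG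
  frac : ∀ x : K, ∃ p ∈ B, ∃ q ∈ B, q ≠ 0 ∧ x * q = p
  cpt : CompactSpace (Pt B)
  ne : Nonempty (Pt B)
  smooth : ∀ b : Pt B, ∃ κ : Chart K n, IsCrd (locAt B fg b) κ

namespace Model

/-- the real points -/
abbrev P (M : Model K n) : Type := Pt M.B

/-- the local rings -/
def loc (M : Model K n) (b : M.P) : Loc K := locAt M.B M.fg b

/-- the vanishing ideal as a subset of `K` -/
def vanK (M : Model K n) (D : Set M.P) : Set K := Subtype.val '' (van D : Set M.B)

/-- the boundary ideals -/
def Y (M : Model K n) (E : ℕ → Set M.P) : ℕ → Set K := fun i => M.vanK (E i)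

/-- marked objects -/
abbrev Obj (M : Model K n) : Type := M.P → Set (K × ℕ)

/-- the cosupport -/
def cos (M : Model K n) (S : M.Obj) : Set M.P := {b | (M.loc b).Cos (S b)}

/-- a closed smooth subset -/
structure Sm (M : Model K n) (A : Set M.P) : Prop where
  closed : ZClosed A
  sm : ∀ b ∈ A, SmAt (M.loc b) n (M.vanK A)

/-- a normal crossings boundary with components `E 0, ..., E (k-1)` -/
structure Snc (M : Model K n) (k : ℕ) (E : ℕ → Set M.P) : Prop where
  closed : ∀ i, ZClosed (E i)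
  bd : ∀ i, k ≤ i → E i = ∅
  adp : ∀ b, AdpAt (M.loc b) n (M.Y E)

/-- a centre with normal crossings with the boundary -/
structure Centre (M : Model K n) (E : ℕ → Set M.P) (C : Set M.P) : Prop where
  closed : ZClosed C
  ne : van C ≠ ⊥
  snc : ∀ b ∈ C, SncAt (M.loc b) n (M.Y E) (M.vanK C)

/-- an admissible centre -/
structure Adm (M : Model K n) (E : ℕ → Set M.P) (S : M.Obj) (C : Set M.P) : Prop where
  centre : M.Centre E C
  ord : ∀ b ∈ C, (M.loc b).Ord (M.vanK C) (S b)

/-- the object is regular and has bounded weights -/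
structure OK (M : Model K n) (S : M.Obj) : Prop where
  mem : ∀ b, (M.loc b).In (S b)
  bdd : ∃ W : ℕ, ∀ b, ∀ p ∈ S b, p.2 ≤ W

end Model

/-- `M'` dominates `M` -/
def Dom {n' : ℕ} (M' : Model K n') (M : Model K n) : Prop := ∀ b', M.B ≤ (M'.loc b').O

/-- the map of real points of a domination -/
def Dom.map {n' : ℕ} {M' : Model K n'} {M : Model K n} (h : Dom M' M) (b' : M'.P) : M.P where
  toFun := fun f => (M'.loc b').ev f
  map_one' := by simpa using (M'.loc b').ev_alg 1
  map_mul' := fun f g => (M'.loc b').ev_mul _ (h b' f.2) _ (h b' g.2)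
  map_zero' := by simpa using (M'.loc b').ev_alg 0
  map_add' := fun f g => (M'.loc b').ev_add _ (h b' f.2) _ (h b' g.2)
  commutes' := fun r => (M'.loc b').ev_alg r

/-- the entries of the projection to the line through `f` -/
def prj {m : ℕ} (f : Fin m → K) (i j : Fin m) : K := f i * f j / ∑ l, f l ^ 2

/-- `M'` is the blow-up of `M` along `C`, with generators `f` of the ideal of `C` -/
structure IsBlBy (M : Model K n) (C : Set M.P) (M' : Model K n) {m : ℕ} (f : Fin m → M.B) :
    Prop where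
  span : Ideal.span (Set.range f) = van C
  ne : ∑ l, (f l : K) ^ 2 ≠ 0
  eq : M'.B = Algebra.adjoin ℝ
    ((M.B : Set K) ∪ Set.range fun ij : Fin m × Fin m => prj (fun l => (f l : K)) ij.1 ij.2)

/-- `M'` is a blow-up of `M` along `C` -/
def IsBl (M : Model K n) (C : Set M.P) (M' : Model K n) : Prop :=
  ∃ (m : ℕ) (f : Fin m → M.B), IsBlBy M C M' f

namespace IsBl

variable {M M' : Model K n} {C : Set M.P}

theorem le (h : IsBl M C M') : M.B ≤ M'.B := by
  obtain ⟨m, f, h⟩ := h
  rw [h.eq]
  exact fun x hx => Algebra.subset_adjoin (Or.inl hx)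

theorem dom (h : IsBl M C M') : Dom M' M := fun b' => h.le.trans (le_locO _ b')

/-- the blow-up map -/
def π (h : IsBl M C M') : M'.P → M.P := h.dom.map

/-- the strict transform -/
def st (h : IsBl M C M') (A : Set M.P) : Set M'.P := zcl (h.π ⁻¹' (A \ C))

/-- the new boundary -/
def bd (h : IsBl M C M') (k : ℕ) (E : ℕ → Set M.P) : ℕ → Set M'.P :=
  fun i => if i = k then h.π ⁻¹' C else h.st (E i)

/-- the transform of an object -/
def tr (h : IsBl M C M') (S : M.Obj) : M'.Obj :=
  fun b' => trS (M'.loc b') (M'.vanK (h.π ⁻¹' C)) (S (h.π b'))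

end IsBl

/-- the object can be resolved by admissible blow-ups -/
inductive Res : (M : Model K n) → ℕ → (ℕ → Set M.P) → M.Obj → Prop
  | done {M : Model K n} {k : ℕ} {E : ℕ → Set M.P} {S : M.Obj} : M.cos S = ∅ → Res M k E S
  | step {M : Model K n} {k : ℕ} {E : ℕ → Set M.P} {S : M.Obj} (C : Set M.P) (M' : Model K n)
      (h : IsBl M C M') : M.Adm E S C → Res M' (k + 1) (h.bd k E) (h.tr S) → Res M k E S

/-- principalisation of ideals -/
def PrincStmt : Prop :=
  ∀ (K : Type) [Field K] [Algebra ℝ K] (n : ℕ) (M : Model K n) (k : ℕ) (E : ℕ → Set M.P)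
    (G : Set K), M.Snc k E → G.Finite → (∀ g ∈ G, g ∈ M.B) → (∃ g ∈ G, g ≠ 0) →
      Res M k E (fun _ => wt G 1)

end

end Pool.Agent.MP_696f7f_ag.H96
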