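import Pool.Agent.MP_696f7f_ag.H96.CohI
import Pool.Agent.MP_696f7f_ag.H96.Beta

/-! Real loci of projective hypersurfaces. -/

namespace Pool.Agent.MP_696f7f_ag.H96

open MvPolynomial

/-- the real locus of a form, as a set of rank one projections -/
def RL {m : ℕ} (F : MvPolynomial (Fin m) ℝ) : Set (Fin m → Fin m → ℝ) :=
  pj '' {l | IsUnitVec l ∧ eval l F = 0}

/-- the same as a set of real points of the affine space of matrices -/
def RLP {m : ℕ} (F : MvPolynomial (Fin m) ℝ) : Set (Pt (MvPolynomial (Fin m × Fin m) ℝ)) :=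
  {b | (fun i j => b (X (i, j))) ∈ RL F}

/-- the unit sphere -/
def sph (m : ℕ) : Set (Fin m → ℝ) := {l | IsUnitVec l}

/-- no real singular point -/
def RealSmooth {m : ℕ} (F : MvPolynomial (Fin m) ℝ) : Prop :=
  ∀ l : Fin m → ℝ, eval l F = 0 → (∀ j, eval l (pderiv j F) = 0) → l = 0

/-- no singular point over any field of characteristic zero -/
def Nonsing {m : ℕ} (F : MvPolynomial (Fin m) ℚ) : Prop :=
  ∀ (L : Type) [Field L] [Algebra ℚ L] (x : Fin m → L), aeval x F = 0 →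
    (∀ j, aeval x (pderiv j F) = 0) → x = 0

/-- homeomorphic subsets -/
def Homeo {X X' : Type} [TopologicalSpace X] [TopologicalSpace X'] (A : Set X) (A' : Set X') :
    Prop :=
  ∃ (φ : X → X') (ψ : X' → X), ContinuousOn φ A ∧ ContinuousOn ψ A' ∧ Set.MapsTo φ A A' ∧
    Set.MapsTo ψ A' A ∧ (∀ x ∈ A, ψ (φ x) = x) ∧ ∀ y ∈ A', φ (ψ y) = y

/-- a closed subset of affine space that is locally cut out by functions with independent
differentials -/
def AlgSm {σ : Type} (A : Set (Pt (MvPolynomial σ ℝ))) : Prop :=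
  ∀ a ∈ A, ∃ (ι : Type) (_ : Fintype ι) (f : ι → MvPolynomial σ ℝ),
    LinearIndependent ℝ (fun i : ι => fun j : σ => a (pderiv j (f i))) ∧
      ∀ᶠ b in zn a, b ∈ A ↔ ∀ i, b (f i) = 0

/-- forms of degree `d` whose real loci differ by a sphere -/
def FormsStmt : Prop :=
  ∀ (d n : ℕ), 2 ≤ d → ∃ F G : MvPolynomial (Fin (n + 2)) ℚ, F.IsHomogeneous d ∧
    G.IsHomogeneous d ∧ Nonsing F ∧ Nonsing G ∧ ∃ A B, RL (map (algebraMap ℚ ℝ) G) = A ∪ B ∧
      Disjoint A B ∧ IsCompact A ∧ IsCompact B ∧ Homeo A (RL (map (algebraMap ℚ ℝ) F)) ∧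
        Homeo B (sph (n + 1))

/-- virtual Betti numbers of real loci of such forms differ by one in the top degree -/
def BetaHypStmt : Prop :=
  ∃ β : BetaFun, IsBeta β ∧ ∀ (d n : ℕ) (F G : MvPolynomial (Fin (n + 2)) ℝ)
    (A B : Set (Fin (n + 2) → Fin (n + 2) → ℝ)), 1 ≤ n → F.IsHomogeneous d → G.IsHomogeneous d →
      RealSmooth F → RealSmooth G → RL G = A ∪ B → Disjoint A B → IsCompact A → IsCompact B →
      Homeo A (RL F) → Homeo B (sph (n + 1)) → β _ (RLP G) n = β _ (RLP F) n + 1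

end Pool.Agent.MP_696f7f_ag.H96
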