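import Pool.Agent.MP_696f7f_ag.H96.PDefs

/-! Nonsingular forms with prescribed real loci. -/

namespace Pool.Agent.MP_696f7f_ag.H96

namespace PForms

open MvPolynomial Set

section Top

variable {X Y Y' Y'' : Type} [TopologicalSpace X] [TopologicalSpace Y] [TopologicalSpace Y']
  [TopologicalSpace Y'']

theorem homeo_symm {A : Set Y} {A' : Set Y'} (h : Homeo A A') : Homeo A' A := by
  obtain ⟨φ, ψ, h1, h2, h3, h4, h5, h6⟩ := h
  exact ⟨ψ, φ, h2, h1, h4, h3, h6, h5⟩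

theorem homeo_trans {A : Set Y} {A' : Set Y'} {A'' : Set Y''} (h : Homeo A A')
    (h' : Homeo A' A'') : Homeo A A'' := by
  obtain ⟨φ, ψ, h1, h2, h3, h4, h5, h6⟩ := h
  obtain ⟨φ', ψ', k1, k2, k3, k4, k5, k6⟩ := h'
  refine ⟨φ' ∘ φ, ψ ∘ ψ', k1.comp h1 h3, h2.comp k2 k4, k3.comp h3, h4.comp k4, fun x hx => ?_,
    fun y hy => ?_⟩
  · simp only [Function.comp, k5 _ (h3 hx), h5 x hx]
  · simp only [Function.comp, h6 _ (k4 hy), k6 y hy]

theorem exists_desc [Nonempty X] [T2Space Y] {K : Set X} (hK : IsCompact K) {p : X → Y}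
    {q : X → Y'} (hp : Continuous p) (hq : Continuous q)
    (h : ∀ x ∈ K, ∀ x' ∈ K, p x = p x' → q x = q x') :
    ∃ φ : Y → Y', ContinuousOn φ (p '' K) ∧ ∀ x ∈ K, φ (p x) = q x := by
  have e : ∀ x ∈ K, q (Function.invFunOn p K (p x)) = q x := fun x hx =>
    h _ (Function.invFunOn_mem ⟨x, hx, rfl⟩) _ hx (Function.invFunOn_eq ⟨x, hx, rfl⟩)
  refine ⟨fun y => q (Function.invFunOn p K y), continuousOn_iff_isClosed.2 fun t ht => ?_, e⟩
  refine ⟨p '' (K ∩ q ⁻¹' t), ((hK.inter_right (ht.preimage hq)).image hp).isClosed, ?_⟩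
  ext y
  constructor
  · rintro ⟨h1, x, hx, rfl⟩
    exact ⟨⟨x, ⟨hx, by simpa [e x hx] using h1⟩, rfl⟩, x, hx, rfl⟩
  · rintro ⟨⟨x, ⟨hx, h1⟩, rfl⟩, h2⟩
    exact ⟨by simpa [e x hx] using h1, h2⟩

theorem homeo_of_cover [Nonempty X] [T2Space Y] [T2Space Y'] {K : Set X} (hK : IsCompact K)
    {p : X → Y} {q : X → Y'} (hp : Continuous p) (hq : Continuous q)
    (h : ∀ x ∈ K, ∀ x' ∈ K, p x = p x' ↔ q x = q x') : Homeo (p '' K) (q '' K) := by
  obtain ⟨φ, h1, h2⟩ := exists_desc hK hp hq fun x hx x' hx' => (h x hx x' hx').1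
  obtain ⟨ψ, k1, k2⟩ := exists_desc hK hq hp fun x hx x' hx' => (h x hx x' hx').2
  refine ⟨φ, ψ, h1, k1, ?_, ?_, ?_, ?_⟩
  · rintro _ ⟨x, hx, rfl⟩; exact ⟨x, hx, (h2 x hx).symm⟩
  · rintro _ ⟨x, hx, rfl⟩; exact ⟨x, hx, (k2 x hx).symm⟩
  · rintro _ ⟨x, hx, rfl⟩; rw [h2 x hx, k2 x hx]
  · rintro _ ⟨x, hx, rfl⟩; rw [k2 x hx, h2 x hx]

end Top

variable {n : ℕ}

/-- the family of forms -/
noncomputable def form (n e : ℕ) (α β : ℚ) : MvPolynomial (Fin (n + 2)) ℚ :=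
  C α * (X 0 ^ e * ∑ j : Fin (n + 1), X j.succ ^ 2) + C β * X 0 ^ (e + 2) +
    ∑ j : Fin (n + 1), X j.succ ^ (e + 2)

theorem form_hom (n e : ℕ) (α β : ℚ) : (form n e α β).IsHomogeneous (e + 2) :=
  ((((isHomogeneous_X_pow _ _).mul
    (IsHomogeneous.sum _ _ _ fun _ _ => isHomogeneous_X_pow _ _)).C_mul _).add
    (isHomogeneous_C_mul_X_pow _ _ _)).add
    (IsHomogeneous.sum _ _ _ fun _ _ => isHomogeneous_X_pow _ _)

theorem eval_form (e : ℕ) (α β : ℚ) (x : Fin (n + 2) → ℝ) :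
    eval x (map (algebraMap ℚ ℝ) (form n e α β)) =
      α * (x 0 ^ e * ∑ j : Fin (n + 1), x j.succ ^ 2) + β * x 0 ^ (e + 2) +
        ∑ j : Fin (n + 1), x j.succ ^ (e + 2) := by
  simp [form]

theorem d0_form {L : Type} [Field L] [Algebra ℚ L] (e : ℕ) (α β : ℚ) (x : Fin (n + 2) → L) :
    aeval x (pderiv 0 (form n e α β)) =
      algebraMap ℚ L α * (e * x 0 ^ (e - 1) * ∑ j : Fin (n + 1), x j.succ ^ 2) +
        algebraMap ℚ L β * ((e + 2) * x 0 ^ (e + 1)) := by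
  simp [form, pderiv_X, Fin.succ_ne_zero]
  exact Or.inl (by ring)

theorem ds_form {L : Type} [Field L] [Algebra ℚ L] (e : ℕ) (α β : ℚ) (x : Fin (n + 2) → L)
    (i : Fin (n + 1)) : aeval x (pderiv i.succ (form n e α β)) =
      algebraMap ℚ L α * (x 0 ^ e * (2 * x i.succ)) + (e + 2) * x i.succ ^ (e + 1) := by
  simp [form, pderiv_X, Pi.single_apply, (Fin.succ_ne_zero i).symm]

theorem nonsing_fermat (n e : ℕ) {β : ℚ} (hβ : β ≠ 0) : Nonsing (form n e 0 β) := by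
  intro L _ _ x _ h
  have := algebraRat.charZero L
  have he : ((e : L) + 2) ≠ 0 := by exact_mod_cast (by omega : e + 2 ≠ 0)
  funext i
  refine Fin.cases ?_ (fun i => ?_) i
  · have h0 := h 0
    rw [d0_form] at h0
    simpa [hβ, he] using h0
  · have h0 := h i.succ
    rw [ds_form] at h0
    simpa [he] using h0

theorem nonsing_odd (n e : ℕ) : Nonsing (form n (e + 1) (4 * (e + 3)) (-(e + 1))) := by
  intro L _ _ x _ h
  have := algebraRat.charZero L
  have he : ((e : L) + 3) ≠ 0 := by exact_mod_cast (by omega : e + 3 ≠ 0)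
  have he' : ((e : L) + 1) ≠ 0 := by exact_mod_cast (by omega : e + 1 ≠ 0)
  have hs : ∀ i : Fin (n + 1), x i.succ * (8 * x 0 ^ (e + 1) + x i.succ ^ (e + 1)) = 0 := by
    intro i
    have h0 := h i.succ
    rw [ds_form] at h0
    simp only [map_mul, map_add, map_natCast, map_ofNat, Nat.cast_add, Nat.cast_one] at h0
    apply mul_left_cancel₀ he
    linear_combination h0
  by_cases hx : x 0 = 0
  · funext i
    refine Fin.cases hx (fun i => ?_) i
    simpa [hx] using hs i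
  exfalso
  have h0 := h 0
  rw [d0_form] at h0
  simp only [map_mul, map_add, map_natCast, map_ofNat, Nat.cast_add, Nat.cast_one, map_neg,
    map_one, Nat.add_sub_cancel] at h0
  have h1 : 4 * ∑ j : Fin (n + 1), x j.succ ^ 2 = x 0 ^ 2 := by
    apply mul_left_cancel₀ (mul_ne_zero (mul_ne_zero he he') (pow_ne_zero e hx))
    linear_combination h0
  have h2 : IsIntegral ℤ (∑ j : Fin (n + 1), (x j.succ / x 0) ^ 2) := by
    refine IsIntegral.sum _ fun j _ => IsIntegral.pow ?_ 2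
    rcases mul_eq_zero.1 (hs j) with t | t
    · rw [t, zero_div]; exact isIntegral_zero
    · refine IsIntegral.of_pow (Nat.succ_pos e) ?_
      have : (x j.succ / x 0) ^ (e + 1) = ((-8 : ℤ) : L) := by
        rw [div_pow, div_eq_iff (pow_ne_zero _ hx)]
        push_cast
        linear_combination t
      rw [this]
      exact isIntegral_intCast _
  have h3 : ∑ j : Fin (n + 1), (x j.succ / x 0) ^ 2 = algebraMap ℚ L (1 / 4) := by
    simp only [div_pow, ← Finset.sum_div, map_div₀, map_one, map_ofNat]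
    rw [div_eq_div_iff (pow_ne_zero _ hx) (by norm_num)]
    linear_combination h1
  rw [h3, isIntegral_algebraMap_iff (algebraMap ℚ L).injective,
    IsIntegrallyClosed.isIntegral_iff] at h2
  obtain ⟨y, hy⟩ := h2
  have h4 : ((4 * y : ℤ) : ℚ) = ((1 : ℤ) : ℚ) := by
    simp only [eq_intCast] at hy
    push_cast
    rw [hy]; norm_num
  have := Int.cast_injective h4
  omega

/-- the projection to the line through `(τ, ω)` for a unit vector `ω` -/
noncomputable def pp (x : ℝ × (Fin (n + 1) → ℝ)) : Fin (n + 2) → Fin (n + 2) → ℝ :=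
  fun i j => (Fin.cons x.1 x.2 : Fin (n + 2) → ℝ) i * (Fin.cons x.1 x.2 : Fin (n + 2) → ℝ) j /
    (1 + x.1 ^ 2)

theorem continuous_pp : Continuous (pp (n := n)) := by
  have h : Continuous fun x : ℝ × (Fin (n + 1) → ℝ) => (Fin.cons x.1 x.2 : Fin (n + 2) → ℝ) :=
    Continuous.finCons continuous_fst continuous_snd
  refine continuous_pi fun i => continuous_pi fun j => ?_
  exact (((continuous_apply i).comp h).mul ((continuous_apply j).comp h)).div (by fun_prop)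
    fun x => by positivity

theorem pp_neg (x : ℝ × (Fin (n + 1) → ℝ)) : pp (-x) = pp x := by
  funext i j
  refine Fin.cases ?_ (fun i => ?_) i <;> refine Fin.cases ?_ (fun j => ?_) j <;> simp [pp]

theorem sq_eq_of_pp {x x' : ℝ × (Fin (n + 1) → ℝ)} (h : pp x = pp x') : x.1 ^ 2 = x'.1 ^ 2 := by
  have := congrFun (congrFun h 0) 0
  simp only [pp, Fin.cons_zero] at this
  rw [div_eq_div_iff (by positivity) (by positivity)] at this
  linear_combination this

/-- solutions of `P τ + ∑ ω_j ^ d = 0` with `τ ∈ I` -/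
def KK (n d : ℕ) (P : ℝ → ℝ) (I : Set ℝ) : Set (ℝ × (Fin (n + 1) → ℝ)) :=
  {x | x.1 ∈ I ∧ IsUnitVec x.2 ∧ P x.1 + ∑ j, x.2 j ^ d = 0}

theorem abs_le_of_unit {m : ℕ} {ω : Fin m → ℝ} (h : IsUnitVec ω) (j : Fin m) : |ω j| ≤ 1 := by
  have := Finset.single_le_sum (f := fun i => ω i ^ 2) (fun i _ => sq_nonneg _) (Finset.mem_univ j)
  rw [h] at this
  exact abs_le_one_iff_mul_self_le_one.2 (by nlinarith)

theorem abs_sum_le {m : ℕ} {ω : Fin m → ℝ} (h : IsUnitVec ω) (e : ℕ) :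
    |∑ j, ω j ^ (e + 2)| ≤ 1 := by
  refine (Finset.abs_sum_le_sum_abs _ _).trans (le_of_le_of_eq (Finset.sum_le_sum fun j _ => ?_) h)
  rw [pow_add, abs_mul, abs_pow, abs_of_nonneg (sq_nonneg (ω j))]
  exact mul_le_of_le_one_left (sq_nonneg _) (pow_le_one₀ (abs_nonneg _) (abs_le_of_unit h j))

theorem isCompact_KK (d : ℕ) {P : ℝ → ℝ} (hP : Continuous P) (a b : ℝ) :
    IsCompact (KK n d P (Icc a b)) := by
  refine IsCompact.of_isClosed_subset ((isCompact_Icc (a := a) (b := b)).prod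
    (isCompact_univ_pi fun _ : Fin (n + 1) => isCompact_Icc (a := (-1 : ℝ)) (b := 1))) ?_ ?_
  · refine (isClosed_Icc.preimage continuous_fst).inter (IsClosed.inter ?_ ?_)
    · exact isClosed_eq (by fun_prop) continuous_const
    · exact isClosed_eq (by fun_prop) continuous_const
  · exact fun x hx => ⟨hx.1, fun j _ => abs_le.1 (abs_le_of_unit hx.2.1 j)⟩

theorem RL_form (e : ℕ) (α : ℚ) {β : ℚ} (hβ : β ≠ 0) :
    RL (map (algebraMap ℚ ℝ) (form n e α β)) =
      pp '' KK n (e + 2) (fun τ => α * τ ^ e + β * τ ^ (e + 2)) univ := by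
  ext y
  constructor
  · rintro ⟨l, ⟨h1, h2⟩, rfl⟩
    rw [eval_form] at h2
    rw [IsUnitVec, Fin.sum_univ_succ] at h1
    set S := ∑ j : Fin (n + 1), l j.succ ^ 2 with hS
    have hS0 : 0 < S := by
      refine lt_of_le_of_ne (Finset.sum_nonneg fun _ _ => sq_nonneg _) fun t => ?_
      have h3 : ∀ j : Fin (n + 1), l j.succ = 0 := fun j => pow_eq_zero_iff two_ne_zero |>.1
        ((Finset.sum_eq_zero_iff_of_nonneg fun _ _ => sq_nonneg _).1 t.symm j (Finset.mem_univ j))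
      have h4 : l 0 = 0 := by simpa [← t, h3, hβ] using h2
      rw [h4, ← t] at h1
      simp at h1
    obtain ⟨s, hs, hs2⟩ : ∃ s : ℝ, 0 < s ∧ s ^ 2 = S :=
      ⟨√S, Real.sqrt_pos.2 hS0, Real.sq_sqrt hS0.le⟩
    refine ⟨(l 0 / s, fun j => l j.succ / s), ⟨mem_univ _, ?_, ?_⟩, ?_⟩
    · simp only [IsUnitVec, div_pow, ← Finset.sum_div, ← hS, hs2, div_self hS0.ne']
    · simp only [div_pow, ← Finset.sum_div]
      rw [← hs2] at h2
      refine Eq.trans ?_ ((congrArg (· / s ^ (e + 2)) h2).trans (zero_div _))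
      field_simp
      ring
    · have e1 : 1 + (l 0 / s) ^ 2 = 1 / s ^ 2 := by
        field_simp
        linear_combination h1 + hs2
      funext i j
      simp only [pp, pj, e1]
      refine Fin.cases ?_ (fun i => ?_) i <;> refine Fin.cases ?_ (fun j => ?_) j <;>
        simp only [Fin.cons_zero, Fin.cons_succ] <;> field_simp
  · rintro ⟨x, ⟨-, h1, h2⟩, rfl⟩
    obtain ⟨s, hs, hs2⟩ : ∃ s : ℝ, 0 < s ∧ s ^ 2 = 1 + x.1 ^ 2 :=
      ⟨√(1 + x.1 ^ 2), Real.sqrt_pos.2 (by positivity), Real.sq_sqrt (by positivity)⟩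
    rw [IsUnitVec] at h1
    refine ⟨fun i => (Fin.cons x.1 x.2 : Fin (n + 2) → ℝ) i / s, ⟨?_, ?_⟩, ?_⟩
    · rw [IsUnitVec, Fin.sum_univ_succ]
      simp only [Fin.cons_zero, Fin.cons_succ, div_pow, ← Finset.sum_div, h1, hs2]
      field_simp
      ring
    · rw [eval_form]
      simp only [Fin.cons_zero, Fin.cons_succ, div_pow, ← Finset.sum_div, h1]
      refine Eq.trans ?_ ((congrArg (· / s ^ (e + 2)) h2).trans (zero_div _))
      simp only
      field_simp
      ring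
    · funext i j
      simp only [pp, pj, ← hs2]
      field_simp

theorem homeo_sph {d : ℕ} {P : ℝ → ℝ} (hP : Continuous P) {a b : ℝ}
    (hpos : ∀ x ∈ KK n d P (Icc a b), 0 < x.1) (hinj : InjOn P (Icc a b))
    (hex : ∀ ω : Fin (n + 1) → ℝ, IsUnitVec ω → -∑ j, ω j ^ d ∈ P '' Icc a b) :
    Homeo (pp '' KK n d P (Icc a b)) (sph (n + 1)) := by
  have e : sph (n + 1) = Prod.snd '' KK n d P (Icc a b) := by
    ext ω
    constructor
    · intro h
      obtain ⟨τ, h1, h2⟩ := hex ω h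
      exact ⟨(τ, ω), ⟨h1, h, by simp [h2]⟩, rfl⟩
    · rintro ⟨x, hx, rfl⟩
      exact hx.2.1
  rw [e]
  refine homeo_of_cover (isCompact_KK d hP a b) continuous_pp continuous_snd
    fun x hx x' hx' => ⟨fun h => ?_, fun h => ?_⟩
  · have h1 : x.1 = x'.1 := (pow_left_inj₀ (hpos x hx).le (hpos x' hx').le two_ne_zero).1
      (sq_eq_of_pp h)
    funext j
    have h2 := congrFun (congrFun h 0) j.succ
    simp only [pp, Fin.cons_zero, Fin.cons_succ, h1] at h2
    rw [div_left_inj' (by positivity)] at h2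
    exact mul_left_cancel₀ (hpos x' hx').ne' h2
  · have h1 : x.1 = x'.1 := hinj hx.1 hx'.1 (by
      have h2 := hx.2.2
      have h3 := hx'.2.2
      rw [h] at h2
      linarith)
    rw [Prod.ext h1 h]

theorem eq_or_neg {m : ℕ} {ω ω' : Fin m → ℝ} (h : IsUnitVec ω) (e : pj ω = pj ω') :
    ω = ω' ∨ ω = -ω' := by
  have h1 : ∀ i j, ω i * ω j = ω' i * ω' j := fun i j => congrFun (congrFun e i) j
  rw [IsUnitVec] at h
  obtain ⟨t, ht⟩ : ∃ t, t = ∑ i, ω i * ω' i := ⟨_, rfl⟩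
  have h2 : ∀ j, ω j = t * ω' j := fun j => by
    rw [ht, Finset.sum_mul, ← one_mul (ω j), ← h, Finset.sum_mul]
    refine Finset.sum_congr rfl fun i _ => ?_
    rw [mul_assoc, ← h1]; ring
  have h3 : t * t = 1 := by
    have h4 : ∑ i, ω' i ^ 2 = 1 := by
      rw [← h]
      exact Finset.sum_congr rfl fun i _ => by rw [sq, sq, h1]
    calc t * t = ∑ i, t * t * ω' i ^ 2 := by rw [← Finset.mul_sum, h4, mul_one]
      _ = ∑ i, ω i ^ 2 := Finset.sum_congr rfl fun i _ => by rw [h2 i]; ring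
      _ = 1 := h
  rcases mul_self_eq_one_iff.1 h3 with h5 | h5
  · exact Or.inl (funext fun j => by rw [h2 j, h5, one_mul])
  · exact Or.inr (funext fun j => by rw [h2 j, h5, neg_one_mul]; rfl)

theorem neg_mem_KK {d : ℕ} {P : ℝ → ℝ} {ε : ℝ} (hP : ∀ τ, P (-τ) = ε * P τ)
    (hd : ∀ t : ℝ, (-t) ^ d = ε * t ^ d) {I J : Set ℝ} {x : ℝ × (Fin (n + 1) → ℝ)}
    (hx : x ∈ KK n d P I) (hJ : -x.1 ∈ J) : -x ∈ KK n d P J := by
  refine ⟨hJ, ?_, ?_⟩
  · simpa [IsUnitVec] using hx.2.1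
  · simp only [Prod.fst_neg, Prod.snd_neg, Pi.neg_apply, hP, hd, ← Finset.mul_sum, ← mul_add,
      hx.2.2, mul_zero]

theorem homeo_proj {d : ℕ} {P : ℝ → ℝ} (hP : Continuous P) {b : ℝ} (hodd : ∀ τ, P (-τ) = -1 * P τ)
    (hd : ∀ t : ℝ, (-t) ^ d = -1 * t ^ d) (hinj : InjOn P (Icc (-b) b))
    (hex : ∀ ω : Fin (n + 1) → ℝ, IsUnitVec ω → -∑ j, ω j ^ d ∈ P '' Icc (-b) b) :
    Homeo (pp '' KK n d P (Icc (-b) b)) (pj '' sph (n + 1)) := by
  have e : pj '' sph (n + 1) = (fun x => pj x.2) '' KK n d P (Icc (-b) b) := by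
    ext y
    constructor
    · rintro ⟨ω, h, rfl⟩
      obtain ⟨τ, h1, h2⟩ := hex ω h
      exact ⟨(τ, ω), ⟨h1, h, by simp [h2]⟩, rfl⟩
    · rintro ⟨x, hx, rfl⟩
      exact ⟨x.2, hx.2.1, rfl⟩
  have huniq : ∀ x ∈ KK n d P (Icc (-b) b), ∀ x' ∈ KK n d P (Icc (-b) b), x.2 = x'.2 → x = x' :=
    fun x hx x' hx' h => Prod.ext (hinj hx.1 hx'.1 (by
      have h2 := hx.2.2
      have h3 := hx'.2.2
      rw [h] at h2
      linarith)) h
  rw [e]
  refine homeo_of_cover (isCompact_KK d hP _ _) continuous_pp (by unfold pj; fun_prop)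
    fun x hx x' hx' => ⟨fun h => ?_, fun h => ?_⟩
  · funext i j
    have h2 := congrFun (congrFun h i.succ) j.succ
    simp only [pp, Fin.cons_succ, sq_eq_of_pp h] at h2
    rwa [div_left_inj' (by positivity)] at h2
  · rcases eq_or_neg hx.2.1 h with h1 | h1
    · rw [huniq x hx x' hx' h1]
    · rw [huniq x hx (-x') (neg_mem_KK hodd hd hx' ⟨neg_le_neg hx'.1.2, neg_le.1 hx'.1.1⟩) h1,
        pp_neg]

theorem even_case (n e : ℕ) (he : Even e) :
    RL (map (algebraMap ℚ ℝ) (form n e 0 1)) = ∅ ∧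
      IsCompact (RL (map (algebraMap ℚ ℝ) (form n e 0 (-1)))) ∧
      Homeo (RL (map (algebraMap ℚ ℝ) (form n e 0 (-1)))) (sph (n + 1)) := by
  have he2 : Even (e + 2) := he.add even_two
  have hc : ∀ ω : Fin (n + 1) → ℝ, IsUnitVec ω → 0 < ∑ j, ω j ^ (e + 2) := fun ω h => by
    refine lt_of_le_of_ne (Finset.sum_nonneg fun _ _ => he2.pow_nonneg _) fun t => ?_
    have h3 : ∀ j, ω j = 0 := fun j => pow_eq_zero_iff (by omega) |>.1
      ((Finset.sum_eq_zero_iff_of_nonneg fun _ _ => he2.pow_nonneg _).1 t.symm j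
        (Finset.mem_univ j))
    simp [IsUnitVec, h3] at h
  have e2 : RL (map (algebraMap ℚ ℝ) (form n e 0 (-1))) =
      pp '' KK n (e + 2) (fun τ => -τ ^ (e + 2)) (Icc 0 1) := by
    rw [RL_form e 0 (by norm_num)]
    have e3 : (fun τ : ℝ => ((0 : ℚ) : ℝ) * τ ^ e + ((-1 : ℚ) : ℝ) * τ ^ (e + 2)) =
        fun τ => -τ ^ (e + 2) := by funext τ; simp
    rw [e3]
    refine subset_antisymm ?_ (image_mono fun x hx => ⟨mem_univ _, hx.2⟩)
    rintro _ ⟨x, hx, rfl⟩
    have h1 : |x.1| ≤ 1 := by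
      have h2 := hx.2.2
      have h3 := abs_le.1 (abs_sum_le hx.2.1 e)
      rw [← pow_le_one_iff_of_nonneg (abs_nonneg _) (by omega : e + 2 ≠ 0), he2.pow_abs]
      linarith
    rcases le_total 0 x.1 with h | h
    · exact ⟨x, ⟨⟨h, (abs_le.1 h1).2⟩, hx.2⟩, rfl⟩
    · exact ⟨-x, neg_mem_KK (ε := 1) (fun τ => by simp [he2.neg_pow])
        (fun τ => by simp [he2.neg_pow]) hx ⟨neg_nonneg.2 h, neg_le.1 (abs_le.1 h1).1⟩, pp_neg x⟩
  refine ⟨?_, ?_, ?_⟩
  · rw [RL_form e 0 one_ne_zero, image_eq_empty, eq_empty_iff_forall_notMem]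
    intro x hx
    have h1 := hx.2.2
    have h2 := hc _ hx.2.1
    have h3 := he2.pow_nonneg x.1
    simp only [Rat.cast_zero, zero_mul, Rat.cast_one, one_mul, zero_add] at h1
    linarith
  · rw [e2]
    exact (isCompact_KK _ (by fun_prop) _ _).image continuous_pp
  · rw [e2]
    refine homeo_sph (by fun_prop) (fun x hx => lt_of_le_of_ne hx.1.1 fun t => ?_)
      (fun a ha b hb h => (pow_left_inj₀ ha.1 hb.1 (by omega)).1 (neg_injective h)) fun ω h => ?_
    · have h1 := hx.2.2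
      have h2 := hc _ hx.2.1
      rw [← t] at h1
      simp at h1
      linarith
    · refine intermediate_value_Icc' zero_le_one (by fun_prop) ⟨?_, ?_⟩
      · simpa using (abs_le.1 (abs_sum_le h e)).2
      · simpa using (hc ω h).le

theorem odd_fermat (n e : ℕ) (he : Even e) :
    Homeo (RL (map (algebraMap ℚ ℝ) (form n (e + 1) 0 1))) (pj '' sph (n + 1)) := by
  have he2 : Odd (e + 1 + 2) := (he.add_one).add_even even_two
  have e2 : RL (map (algebraMap ℚ ℝ) (form n (e + 1) 0 1)) =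
      pp '' KK n (e + 1 + 2) (fun τ => τ ^ (e + 1 + 2)) (Icc (-1) 1) := by
    rw [RL_form (e + 1) 0 one_ne_zero]
    have e3 : (fun τ : ℝ => ((0 : ℚ) : ℝ) * τ ^ (e + 1) + ((1 : ℚ) : ℝ) * τ ^ (e + 1 + 2)) =
        fun τ => τ ^ (e + 1 + 2) := by funext τ; simp
    rw [e3]
    refine subset_antisymm (image_mono fun x hx => ⟨abs_le.1 ?_, hx.2⟩)
      (image_mono fun x hx => ⟨mem_univ _, hx.2⟩)
    have h2 : x.1 ^ (e + 1 + 2) + _ = 0 := hx.2.2
    rw [← pow_le_one_iff_of_nonneg (abs_nonneg _) (by omega : e + 1 + 2 ≠ 0), ← abs_pow,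
      eq_neg_of_add_eq_zero_left h2, abs_neg]
    exact abs_sum_le hx.2.1 _
  rw [e2]
  refine homeo_proj (by fun_prop) (fun τ => by simp [he2.neg_pow]) (fun τ => by simp [he2.neg_pow])
    he2.strictMono_pow.injective.injOn fun ω h => ?_
  have h3 := abs_le.1 (abs_sum_le h (e + 1))
  refine intermediate_value_Icc (by norm_num) (by fun_prop) ⟨?_, ?_⟩
  · simpa [he2.neg_pow] using h3.2
  · simp only [one_pow]
    linarith [h3.1]

/-- the one variable polynomial of the odd case -/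
noncomputable def PP (e : ℕ) (τ : ℝ) : ℝ := 4 * (e + 3) * τ ^ (e + 1) - (e + 1) * τ ^ (e + 3)

theorem continuous_PP (e : ℕ) : Continuous (PP e) := by
  unfold PP
  fun_prop

theorem deriv_PP (e : ℕ) (τ : ℝ) : deriv (PP e) τ = (e + 3) * (e + 1) * τ ^ e * (4 - τ ^ 2) := by
  have h := ((hasDerivAt_pow (e + 1) τ).const_mul (4 * ((e : ℝ) + 3))).sub
    ((hasDerivAt_pow (e + 3) τ).const_mul ((e : ℝ) + 1))
  rw [show deriv (PP e) τ = _ from h.deriv]
  simp only [Nat.add_sub_cancel, show e + 3 - 1 = e + 2 from rfl]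
  push_cast
  ring

theorem PP_two (e : ℕ) : 1 < PP e 2 := by
  have h : PP e 2 = 16 * 2 ^ e := by unfold PP; ring
  have : (1 : ℝ) ≤ 2 ^ e := one_le_pow₀ one_le_two
  linarith

theorem PP_large (e : ℕ) {τ : ℝ} (h : 4 ≤ τ) : PP e τ < -1 := by
  have e1 : PP e τ = τ ^ (e + 1) * (4 * (e + 3) - (e + 1) * τ ^ 2) := by unfold PP; ring
  have h1 : (1 : ℝ) ≤ τ ^ (e + 1) := one_le_pow₀ (by linarith)
  have h2 : (0 : ℝ) ≤ e := Nat.cast_nonneg e
  have h3 : 16 ≤ τ ^ 2 := by nlinarith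
  have h4 : 4 * ((e : ℝ) + 3) - (e + 1) * τ ^ 2 ≤ -4 := by nlinarith
  rw [e1]
  nlinarith

theorem PP_neg {e : ℕ} (he : Even e) (τ : ℝ) : PP e (-τ) = -1 * PP e τ := by
  have h1 : Odd (e + 1) := he.add_one
  have h3 : Odd (e + 3) := he.add_odd (by decide)
  simp only [PP, h1.neg_pow, h3.neg_pow]
  ring

theorem PP_mono {e : ℕ} (he : Even e) : StrictMonoOn (PP e) (Icc (-2) 2) := by
  have key : ∀ τ : ℝ, τ ≠ 0 → -2 < τ → τ < 2 → 0 < deriv (PP e) τ := fun τ h0 h1 h2 => by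
    rw [deriv_PP]
    have h3 := he.pow_pos h0
    have h4 : 0 < 4 - τ ^ 2 := by nlinarith
    positivity
  have h1 : StrictMonoOn (PP e) (Icc (-2) 0) :=
    strictMonoOn_of_deriv_pos (convex_Icc _ _) (continuous_PP e).continuousOn fun τ hτ => by
      rw [interior_Icc] at hτ
      exact key τ hτ.2.ne hτ.1 (by linarith [hτ.2])
  have h2 : StrictMonoOn (PP e) (Icc 0 2) :=
    strictMonoOn_of_deriv_pos (convex_Icc _ _) (continuous_PP e).continuousOn fun τ hτ => by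
      rw [interior_Icc] at hτ
      exact key τ hτ.1.ne' (by linarith [hτ.1]) hτ.2
  have := h1.union h2 (isGreatest_Icc (by norm_num)) (isLeast_Icc (by norm_num))
  rwa [Icc_union_Icc_eq_Icc (by norm_num) (by norm_num)] at this

theorem PP_anti (e : ℕ) : StrictAntiOn (PP e) (Icc 2 4) :=
  strictAntiOn_of_deriv_neg (convex_Icc _ _) (continuous_PP e).continuousOn fun τ hτ => by
    rw [interior_Icc] at hτ
    rw [deriv_PP]
    have h0 : 0 < τ := by linarith [hτ.1]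
    exact mul_neg_of_pos_of_neg (by positivity) (by nlinarith [hτ.1])

theorem odd_case (n e : ℕ) (he : Even e) :
    ∃ A B, RL (map (algebraMap ℚ ℝ) (form n (e + 1) (4 * (e + 3)) (-(e + 1)))) = A ∪ B ∧
      Disjoint A B ∧ IsCompact A ∧ IsCompact B ∧ Homeo A (pj '' sph (n + 1)) ∧
      Homeo B (sph (n + 1)) := by
  have he2 : Odd (e + 1 + 2) := (he.add_one).add_even even_two
  have hd : ∀ t : ℝ, (-t) ^ (e + 1 + 2) = -1 * t ^ (e + 1 + 2) := fun t => by simp [he2.neg_pow]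
  have h2 := PP_two e
  refine ⟨pp '' KK n (e + 1 + 2) (PP e) (Icc (-2) 2), pp '' KK n (e + 1 + 2) (PP e) (Icc 2 4),
    ?_, ?_, (isCompact_KK _ (continuous_PP e) _ _).image continuous_pp,
    (isCompact_KK _ (continuous_PP e) _ _).image continuous_pp, ?_, ?_⟩
  · rw [RL_form (e + 1) _ (neg_ne_zero.2 (by positivity))]
    have e3 : (fun τ : ℝ => ((4 * (e + 3) : ℚ) : ℝ) * τ ^ (e + 1) +
        ((-(e + 1) : ℚ) : ℝ) * τ ^ (e + 1 + 2)) = PP e := by
      funext τ
      simp only [PP]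
      push_cast
      ring
    rw [e3]
    have key : ∀ x ∈ KK n (e + 1 + 2) (PP e) univ, x.1 ≤ 4 := fun x hx => by
      by_contra hc
      have h3 := PP_large e (not_le.1 hc).le
      have h4 := abs_le.1 (abs_sum_le hx.2.1 (e + 1))
      linarith [hx.2.2]
    refine subset_antisymm ?_ (union_subset (image_mono fun x hx => ⟨mem_univ _, hx.2⟩)
      (image_mono fun x hx => ⟨mem_univ _, hx.2⟩))
    rintro _ ⟨x, hx, rfl⟩
    rcases le_total 2 x.1 with h3 | h3
    · exact Or.inr ⟨x, ⟨⟨h3, key x hx⟩, hx.2⟩, rfl⟩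
    rcases le_total (-2) x.1 with h4 | h4
    · exact Or.inl ⟨x, ⟨⟨h4, h3⟩, hx.2⟩, rfl⟩
    · have h5 := neg_mem_KK (PP_neg he) hd hx (mem_univ _)
      exact Or.inr ⟨-x, ⟨⟨le_neg.1 h4, key _ h5⟩, h5.2⟩, pp_neg x⟩
  · rw [Set.disjoint_left]
    rintro _ ⟨x, hx, rfl⟩ ⟨x', hx', h⟩
    have h3 := sq_eq_of_pp h
    have h4 : x'.1 = 2 := by nlinarith [hx.1.1, hx.1.2, hx'.1.1]
    have h5 := hx'.2.2
    have h6 := abs_le.1 (abs_sum_le hx'.2.1 (e + 1))
    rw [h4] at h5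
    linarith
  · refine homeo_proj (continuous_PP e) (PP_neg he) hd (PP_mono he).injOn fun ω h => ?_
    have h3 := abs_le.1 (abs_sum_le h (e + 1))
    refine intermediate_value_Icc (by norm_num) (continuous_PP e).continuousOn ⟨?_, ?_⟩
    · rw [PP_neg he]; linarith
    · linarith
  · refine homeo_sph (continuous_PP e) (fun x hx => by linarith [hx.1.1]) (PP_anti e).injOn
      fun ω h => ?_
    have h3 := abs_le.1 (abs_sum_le h (e + 1))
    refine intermediate_value_Icc' (by norm_num) (continuous_PP e).continuousOn ⟨?_, ?_⟩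
    · linarith [PP_large e le_rfl]
    · linarith

end PForms

open PForms in
theorem formsStmt : FormsStmt := by
  intro d n hd
  obtain ⟨e, rfl⟩ : ∃ e, d = e + 2 := ⟨d - 2, by omega⟩
  rcases Nat.even_or_odd e with he | ⟨k, rfl⟩
  · obtain ⟨h1, h2, h3⟩ := even_case n e he
    refine ⟨form n e 0 1, form n e 0 (-1), form_hom _ _ _ _, form_hom _ _ _ _,
      nonsing_fermat _ _ one_ne_zero, nonsing_fermat _ _ (by norm_num), ∅, _,
      (Set.empty_union _).symm, Set.empty_disjoint _, isCompact_empty, h2, ?_, h3⟩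
    rw [h1]
    exact ⟨id, id, continuousOn_id, continuousOn_id, Set.mapsTo_id _, Set.mapsTo_id _,
      fun _ _ => rfl, fun _ _ => rfl⟩
  · obtain ⟨A, B, h1, h2, h3, h4, h5, h6⟩ := odd_case n (2 * k) (even_two_mul k)
    exact ⟨form n (2 * k + 1) 0 1, _, form_hom _ _ _ _, form_hom _ _ _ _,
      nonsing_fermat _ _ one_ne_zero, nonsing_odd n (2 * k), A, B, h1, h2, h3, h4,
      homeo_trans h5 (homeo_symm (odd_fermat n (2 * k) (even_two_mul k))), h6⟩

end Pool.Agent.MP_696f7f_ag.H96
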