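import Pool.Agent.MP_696f7f_ag.H96.SQuadA

/-! The anisotropic quadric and the sphere quadric. -/

namespace Pool.Agent.MP_696f7f_ag.H96

open AlgebraicGeometry CategoryTheory Limits MvPolynomial HomogeneousLocalization

noncomputable section

attribute [local instance] MvPolynomial.gradedAlgebra

section beta

variable {β : BetaFun} {B B' : Type} [CommRing B] [Algebra ℝ B] [CommRing B'] [Algebra ℝ B']

theorem constr_univ : Constr (Set.univ : Set (Pt B)) := by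
  simpa using Constr.zero (0 : B)

theorem reg_comp (h : B' →ₐ[ℝ] B) : Reg Set.univ (fun x : Pt B => (x.comp h : Pt B')) :=
  fun f' _ _ => ⟨h f', 1, by simp, fun x _ _ => by simp⟩

theorem beta_congr (hβ : IsBeta β) [Algebra.FiniteType ℝ B] [Algebra.FiniteType ℝ B']
    (h : B' →ₐ[ℝ] B) (h' : B →ₐ[ℝ] B') (e : ∀ x : Pt B, (x.comp h).comp h' = x)
    (e' : ∀ y : Pt B', (y.comp h').comp h = y) : β B Set.univ = β B' Set.univ :=
  hβ.inv B B' _ _ (fun x => x.comp h) (fun y => y.comp h') constr_univ constr_univ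
    ⟨Set.mapsTo_univ _ _, Set.mapsTo_univ _ _, fun x _ => e x, fun y _ => e' y, reg_comp h,
      reg_comp h'⟩

theorem beta_equiv (hβ : IsBeta β) [Algebra.FiniteType ℝ B] [Algebra.FiniteType ℝ B']
    (e : B ≃ₐ[ℝ] B') : β B Set.univ = β B' Set.univ :=
  beta_congr hβ e.symm.toAlgHom e.toAlgHom (fun x => AlgHom.ext fun b => by simp)
    (fun x => AlgHom.ext fun b => by simp)

theorem beta_affine (hβ : IsBeta β) (n : ℕ) : β (MvPolynomial (Fin n) ℝ) Set.univ n = 1 := by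
  induction n with
  | zero => rw [beta_equiv hβ (isEmptyAlgEquiv ℝ (Fin 0)), hβ.pt0]
  | succ n ih =>
    rw [beta_equiv hβ (finSuccEquiv ℝ n), ← ih, ← hβ.line _ _ constr_univ n, Set.preimage_univ]

end beta

variable {m : ℕ}

theorem up_C (i : Fin (m + 1)) : (up i).comp (algebraMap ℝ (PR m)) = cst i := by
  ext1 r
  simp [up]

/-- the affine part of a hypersurface -/
theorem exists_affine (S : Var ℝ) (κ : S.X ⟶ Proj (GR m)) [IsClosedImmersion κ]
    (hκ : κ ≫ projStr ℝ m = S.s) {f : PR m} {d : ℕ} (hf : f ∈ GR m d) (hd : 0 < d)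
    (hr : ∀ p : Proj (GR m), (∃ y, κ y = p) ↔ f ∈ p.asHomogeneousIdeal) (i : Fin (m + 1)) :
    ∃ (U : Var ℝ) (j : U.X ⟶ S.X) (J : Ideal (PR m)) (e : U.X ≅ Spec (.of (PR m ⧸ J))),
      IsOpenImmersion j ∧ j ≫ S.s = U.s ∧
      Set.range j = {y | (X i : PR m) ∉ (κ y).asHomogeneousIdeal} ∧
      e.hom ≫ Spec.map (CommRingCat.ofHom (algebraMap ℝ (PR m ⧸ J))) = U.s ∧
      ∀ q : PrimeSpectrum (PR m), J ≤ q.asIdeal ↔
        ∃ q' : PrimeSpectrum (Away (GR m) (X i)), q'.asIdeal.comap (up i) = q.asIdeal ∧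
          up i f ∈ q'.asIdeal := by
  have h0 := IsClosedImmersion.spec_of_surjective (CommRingCat.ofHom (up i)) (up_surj i)
  let t := pullback.snd κ (chart i) ≫ Spec.map (CommRingCat.ofHom (up i))
  have ht : IsClosedImmersion t := inferInstance
  have hs : pullback.fst κ (chart i) ≫ S.s =
      t ≫ Spec.map (CommRingCat.ofHom (algebraMap ℝ (PR m))) := by
    rw [← hκ, pullback.condition_assoc, chart_str, Category.assoc, ← Spec.map_comp,
      ← CommRingCat.ofHom_comp, up_C]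
  obtain ⟨J, e, he⟩ := IsClosedImmersion.Spec_iff.1 ht
  let U : Var ℝ :=
    { X := pullback κ (chart i)
      s := pullback.fst κ (chart i) ≫ S.s
      sep := inferInstance
      lft := inferInstance
      qc := by rw [hs]; infer_instance
      red := isReduced_of_isOpenImmersion (pullback.fst κ (chart i)) }
  refine ⟨U, pullback.fst κ (chart i), J, e,
    inferInstanceAs (IsOpenImmersion (pullback.fst κ (chart i))), rfl, ?_, ?_, fun q => ?_⟩
  · exact (Scheme.Pullback.range_fst κ (chart i)).trans (by rw [range_chart]; rfl)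
  · refine Eq.trans ?_ hs.symm
    rw [he, Category.assoc, ← Spec.map_comp]
    rfl
  · have h1 : q ∈ Set.range t ↔ J ≤ q.asIdeal := by
      rw [he, Scheme.Hom.comp_base, TopCat.coe_comp, Set.range_comp,
        Set.range_eq_univ.2 e.hom.surjective, Set.image_univ]
      have := range_comap_of_surjective (PR m ⧸ J) (Ideal.Quotient.mk J)
        Ideal.Quotient.mk_surjective
      rw [Ideal.mk_ker] at this
      exact Iff.of_eq (congrArg (fun s => q ∈ s) this)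
    rw [← h1]
    simp only [t, Scheme.Hom.comp_base, TopCat.coe_comp, Set.range_comp]
    rw [Scheme.Pullback.range_snd]
    constructor
    · rintro ⟨q', hq', rfl⟩
      exact ⟨q', rfl, (mem_chart i hf hd q').1 ((hr _).1 hq')⟩
    · rintro ⟨q', hq, hq'⟩
      exact ⟨q', (hr _).2 ((mem_chart i hf hd q').2 hq'), PrimeSpectrum.ext hq⟩

theorem exists_hyp (f : PR m) : ∃ (S : Var ℝ) (κ : S.X ⟶ Proj (GR m)), IsClosedImmersion κ ∧
    κ ≫ projStr ℝ m = S.s ∧ ∀ p : Proj (GR m), (∃ y, κ y = p) ↔ f ∈ p.asHomogeneousIdeal := by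
  obtain ⟨S, κ, h1, h2, h3⟩ := exists_closed (Var.proj ℝ m) (Proj.basicOpen (GR m) f).compl
  exact ⟨S, κ, h1, h2, fun p => (Set.ext_iff.1 h3 p).trans not_not⟩

/-- the anisotropic form -/
def fQ (m : ℕ) : PR m := ∑ j, X j ^ 2

/-- the form of the sphere -/
def fS (n : ℕ) : PR (n + 1) := X 0 * X 1 - ∑ j : Fin n, X j.succ.succ ^ 2

theorem fQ_mem : fQ m ∈ GR m 2 := IsHomogeneous.sum _ _ _ fun j _ => isHomogeneous_X_pow j 2

theorem fS_mem (n : ℕ) : fS n ∈ GR (n + 1) 2 :=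
  ((isHomogeneous_X ℝ 0).mul (isHomogeneous_X ℝ 1)).sub
    (IsHomogeneous.sum _ _ _ fun _ _ => isHomogeneous_X_pow _ 2)

theorem algebra_charZero (K : Type) [Field K] [Algebra ℝ K] : CharZero K :=
  charZero_of_injective_algebraMap (algebraMap ℝ K).injective

theorem ss_ne_one {n : ℕ} (j : Fin n) : j.succ.succ ≠ 1 := by
  simp [Fin.ext_iff]

theorem jac_Q {K : Type} [Field K] [Algebra ℝ K] (x : Fin (m + 1) → K)
    (h : ∀ j, aeval x (pderiv j (fQ m)) = 0) : x = 0 := by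
  have : CharZero K := algebra_charZero K
  funext j
  have := h j
  simpa [fQ, Pi.single_apply, apply_ite] using this

theorem jac_S {K : Type} [Field K] [Algebra ℝ K] (n : ℕ) (x : Fin (n + 1 + 1) → K)
    (h : ∀ j, aeval x (pderiv j (fS n)) = 0) : x = 0 := by
  have : CharZero K := algebra_charZero K
  have h0 := h 0
  have h1 := h 1
  funext j
  refine Fin.cases ?_ (fun j => Fin.cases ?_ (fun j => ?_) j) j
  · simpa [fS, Pi.single_apply, apply_ite, ss_ne_one] using h1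
  · simpa [fS, Pi.single_apply, apply_ite] using h0
  · simpa [fS, Pi.single_apply, apply_ite, (ss_ne_one j).symm] using h j.succ.succ

theorem aeval_fS {T : Type} [CommRing T] [Algebra ℝ T] (n : ℕ) (v : Fin (n + 1 + 1) → T) :
    aeval v (fS n) = v 0 * v 1 - ∑ j : Fin n, v j.succ.succ ^ 2 := by
  simp [fS]

variable {β : BetaFun} {b : Var ℝ → ℕ → ℤ}

theorem b_Q (hb : IsBetaV β b) (Q : Var ℝ) (κ : Q.X ⟶ Proj (GR m))
    (hr : ∀ p : Proj (GR m), (∃ y, κ y = p) ↔ fQ m ∈ p.asHomogeneousIdeal) : b Q = 0 := by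
  refine hb.nopt Q fun p _ => ?_
  obtain ⟨i, v, hv, h⟩ := exists_rpt (p ≫ κ)
  have h1 : fQ m ∈ (rpt i v hv default).asHomogeneousIdeal :=
    (hr _).1 ⟨p default, by rw [← h, Scheme.Hom.comp_apply]⟩
  rw [mem_rpt i v hv fQ_mem two_pos] at h1
  simp only [fQ, map_sum, map_pow, aeval_X] at h1
  have := (Finset.sum_eq_zero_iff_of_nonneg fun j _ => sq_nonneg (v j)).1 h1 i (Finset.mem_univ i)
  simp [hv] at this

theorem b_inf (hb : IsBetaV β b) {n : ℕ} (Z : Var ℝ) (κ : Z.X ⟶ Proj (GR (n + 1)))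
    [IsClosedImmersion κ] (hκ : κ ≫ projStr ℝ (n + 1) = Z.s)
    (hr : ∀ p : Proj (GR (n + 1)), (∃ y, κ y = p) ↔
      fS n ∈ p.asHomogeneousIdeal ∧ (X 0 : PR (n + 1)) ∈ p.asHomogeneousIdeal) (a : ℕ) :
    b Z (a + 1) = 0 := by
  refine hb.onept Z ?_ a
  have h1 : (Pi.single 1 1 : Fin (n + 1 + 1) → ℝ) 1 = 1 := by simp
  obtain ⟨l, hl⟩ := exists_lift κ (rpt 1 _ h1) (by
    rintro _ ⟨x, rfl⟩
    refine (hr _).2 ⟨?_, ?_⟩
    · rw [mem_rpt _ _ _ (fS_mem n) two_pos, aeval_fS]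
      simp [ss_ne_one]
    · rw [mem_rpt _ _ _ (X_mem 0) one_pos]
      simp)
  refine ⟨l, show l ≫ Z.s = 𝟙 _ by rw [← hκ, ← Category.assoc, hl, rpt_str], fun p _ => ?_⟩
  obtain ⟨i, v, hv, h⟩ := exists_rpt (p ≫ κ)
  obtain ⟨h2, h3⟩ := (hr (rpt i v hv default)).1 ⟨p default, by rw [← h, Scheme.Hom.comp_apply]⟩
  rw [mem_rpt _ _ _ (fS_mem n) two_pos, aeval_fS] at h2
  rw [mem_rpt _ _ _ (X_mem 0) one_pos, aeval_X] at h3
  rw [h3, zero_mul, zero_sub, neg_eq_zero] at h2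
  have h4 : ∀ j : Fin n, v j.succ.succ = 0 := fun j => by
    simpa using (Finset.sum_eq_zero_iff_of_nonneg fun j _ => sq_nonneg (v j.succ.succ)).1 h2 j
      (Finset.mem_univ j)
  have h5 : ∀ j, j ≠ 1 → v j = 0 := fun j =>
    Fin.cases (fun _ => h3) (fun j => Fin.cases (fun h => absurd rfl h) (fun j _ => h4 j) j) j
  obtain rfl : i = 1 := by
    by_contra hi
    rw [h5 i hi] at hv
    exact zero_ne_one hv
  obtain rfl : v = Pi.single 1 1 := by
    funext j
    by_cases hj : j = 1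
    · rw [hj, hv, h1]
    · rw [h5 j hj, Pi.single_eq_of_ne hj]
  rw [← cancel_mono κ, h, hl]

theorem beta_chart (hβ : IsBeta β) {n : ℕ} (J : Ideal (PR (n + 1)))
    (hJ : ∀ q : PrimeSpectrum (PR (n + 1)), J ≤ q.asIdeal ↔
      ∃ q' : PrimeSpectrum (Away (GR (n + 1)) (X 0)), q'.asIdeal.comap (up 0) = q.asIdeal ∧
        up 0 (fS n) ∈ q'.asIdeal) :
    β (PR (n + 1) ⧸ J) Set.univ n = 1 := by
  let v : Fin (n + 1 + 1) → MvPolynomial (Fin n) ℝ := Fin.cons 1 (Fin.cons (∑ j, X j ^ 2) X)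
  have hv : v 0 = 1 := rfl
  have hv1 : v 1 = ∑ j, X j ^ 2 := rfl
  have hv2 : ∀ j : Fin n, v j.succ.succ = X j := fun _ => rfl
  have hd : ∀ g, down 0 v hv (up 0 g) = aeval v g := fun g =>
    congrArg (fun φ => φ g) (down_up 0 v hv)
  have h1 : ∀ g ∈ J, aeval v g = 0 := by
    have := (hJ ⟨RingHom.ker (aeval v : PR (n + 1) →ₐ[ℝ] _), RingHom.ker_isPrime _⟩).2
      ⟨⟨RingHom.ker (down 0 v hv), RingHom.ker_isPrime _⟩, by
        ext g; simp [RingHom.mem_ker, hd], by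
        change down 0 v hv (up 0 (fS n)) = 0
        rw [hd, aeval_fS]
        simp [hv, hv1, hv2]⟩
    exact fun g hg => this hg
  rw [← beta_affine hβ n, beta_congr hβ (aeval fun j => Ideal.Quotient.mk J (X j.succ.succ))
    (Ideal.Quotient.liftₐ J (aeval v) h1) (fun x => ?_) (fun y => ?_)]
  · let x' := x.comp (Ideal.Quotient.mkₐ ℝ J)
    obtain ⟨q', hq, hf⟩ := (hJ ⟨RingHom.ker x', RingHom.ker_isPrime _⟩).1 fun g hg => by
      simp [RingHom.mem_ker, x', Ideal.Quotient.eq_zero_iff_mem.2 hg]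
    have key : ∀ g, up 0 g ∈ q'.asIdeal → x' g = 0 := fun g hg => by
      have : g ∈ q'.asIdeal.comap (up 0) := hg
      rw [hq] at this
      exact this
    have e0 : x (Ideal.Quotient.mk J (X 0)) = 1 := by
      have := key (X 0 - 1) (by simp [up_self])
      simpa [x', sub_eq_zero] using this
    have e1 : x (Ideal.Quotient.mk J (X 1)) =
        ∑ j : Fin n, x (Ideal.Quotient.mk J (X j.succ.succ)) ^ 2 := by
      have := key _ hf
      simpa [x', fS, e0, sub_eq_zero] using this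
    refine Ideal.Quotient.algHom_ext ℝ (algHom_ext fun j => ?_)
    refine Fin.cases ?_ (fun j => Fin.cases ?_ (fun j => ?_) j) j
    · simp [hv, e0]
    · simp [hv1, e1]
    · simp [hv2]
  · exact algHom_ext fun j => by simp [hv2]

theorem quadStmt : QuadStmt := by
  intro β b hβ hb n
  obtain ⟨Q, κQ, q1, q2, q3⟩ := exists_hyp (fQ (n + 1))
  obtain ⟨S, κ, s1, s2, s3⟩ := exists_hyp (fS n)
  refine ⟨Q, S, ⟨_, κQ, fQ_mem, q1, q2, q3, fun x _ h => jac_Q x h⟩,
    ⟨_, κ, fS_mem n, s1, s2, s3, fun x _ h => jac_S n x h⟩, fun hn => ?_⟩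
  obtain ⟨U, j, J, e, u1, u2, u3, u4, u5⟩ := exists_affine S κ s2 (fS_mem n) two_pos s3 0
  obtain ⟨Z, i, z1, z2, z3⟩ := exists_closed S (κ ⁻¹ᵁ Proj.basicOpen (GR (n + 1)) (X 0)).compl
  have z4 : ∀ y, y ∈ Set.range i ↔ (X 0 : PR (n + 1)) ∈ (κ y).asHomogeneousIdeal := fun y =>
    (Set.ext_iff.1 z3 y).trans not_not
  obtain ⟨a, rfl⟩ : ∃ a, n = a + 1 := ⟨n - 1, by omega⟩
  have hZ := b_inf hb Z (i ≫ κ) (by rw [Category.assoc, s2, z2]) (fun p => by
    constructor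
    · rintro ⟨y, rfl⟩
      rw [Scheme.Hom.comp_apply]
      exact ⟨(s3 _).1 ⟨_, rfl⟩, (z4 _).1 ⟨y, rfl⟩⟩
    · rintro ⟨h1, h2⟩
      obtain ⟨y, rfl⟩ := (s3 _).2 h1
      obtain ⟨z, rfl⟩ := (z4 _).2 h2
      exact ⟨z, Scheme.Hom.comp_apply _ _ _⟩) a
  rw [b_Q hb Q κQ q3, hb.cut S Z U i j z1 u1 z2 u2 (by
    rw [u3]; ext y; exact (z4 y).not.symm), Pi.add_apply, hZ, hb.aff U _ e u4,
    beta_chart hβ J u5]
  simp

end

end Pool.Agent.MP_696f7f_ag.H96
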