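import Pool.Agent.MP_696f7f_ag.H96.PDefs
import Pool.Agent.MP_696f7f_ag.H96.MZar
import Pool.Agent.MP_696f7f_ag.H96.SQuad

/-! Real loci of nonsingular forms are smooth. -/

namespace Pool.Agent.MP_696f7f_ag.H96

open MvPolynomial

namespace PProj

theorem eval_smul {n : ℕ} {Q : MvPolynomial (Fin n) ℝ} {e : ℕ} (hQ : Q.IsHomogeneous e) (s : ℝ)
    (c : Fin n → ℝ) : eval (fun j => s * c j) Q = s ^ e * eval c Q := by
  rw [eval_eq', eval_eq', Finset.mul_sum]
  refine Finset.sum_congr rfl fun d hd => ?_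
  have h1 : ∑ i, d i = e := by
    have h2 := hQ (mem_support_iff.1 hd)
    rw [← Finsupp.degree_eq_sum, Finsupp.degree_eq_weight_one]
    exact h2
  simp only [mul_pow, Finset.prod_mul_distrib, Finset.prod_pow_eq_pow_sum, h1]
  ring

theorem pt_eq {σ : Type} (b : Pt (MvPolynomial σ ℝ)) (p : MvPolynomial σ ℝ) :
    b p = eval (fun j => b (X j)) p := by
  conv_lhs => rw [aeval_unique b]
  rfl

theorem pt_row {m : ℕ} (b : Pt (MvPolynomial (Fin m × Fin m) ℝ)) (i : Fin m)
    (p : MvPolynomial (Fin m) ℝ) :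
    b (rename (Prod.mk i) p) = eval (fun j => b (X (i, j))) p := by
  rw [pt_eq, eval_rename_prod_mk]

theorem mem_RL_of_row {m d : ℕ} {F : MvPolynomial (Fin m) ℝ} (hF : F.IsHomogeneous d)
    {e : Fin m → Fin m → ℝ} {i : Fin m} (h0 : e i i ≠ 0)
    (h1 : ∀ j l, e i i * e j l = e i j * e i l) (h2 : ∑ j, e i j ^ 2 = e i i)
    (h3 : eval (e i) F = 0) : e ∈ RL F := by
  have hp : 0 < e i i := lt_of_le_of_ne (h2 ▸ Finset.sum_nonneg fun j _ => sq_nonneg _) h0.symm
  have hs : (√(e i i))⁻¹ * (√(e i i))⁻¹ = (e i i)⁻¹ := by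
    rw [← mul_inv, Real.mul_self_sqrt hp.le]
  refine ⟨fun j => (√(e i i))⁻¹ * e i j, ⟨?_, ?_⟩, ?_⟩
  · unfold IsUnitVec
    simp only [mul_pow]
    rw [← Finset.mul_sum, h2, sq, hs, inv_mul_cancel₀ h0]
  · rw [eval_smul hF, h3, mul_zero]
  · funext j l
    unfold pj
    rw [mul_mul_mul_comm, hs, ← h1, ← mul_assoc, inv_mul_cancel₀ h0, one_mul]

theorem eqs_of_mem_RL {m d : ℕ} {F : MvPolynomial (Fin m) ℝ} (hF : F.IsHomogeneous d)
    {e : Fin m → Fin m → ℝ} (h : e ∈ RL F) :
    (∀ i j l, e i i * e j l = e i j * e i l) ∧ (∀ i, ∑ j, e i j ^ 2 = e i i) ∧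
      (∀ i, eval (e i) F = 0) ∧ ∑ i, e i i = 1 := by
  obtain ⟨l, ⟨hl, hl0⟩, rfl⟩ := h
  unfold IsUnitVec at hl
  refine ⟨fun i j k => by unfold pj; ring, fun i => ?_, fun i => ?_, ?_⟩
  · simp only [pj, mul_pow]
    rw [← Finset.mul_sum, hl]
    ring
  · have := eval_smul hF (l i) l
    rw [hl0, mul_zero] at this
    exact this
  · simp only [pj, ← sq]
    exact hl

theorem pderiv_row {m : ℕ} (i j l : Fin m) (p : MvPolynomial (Fin m) ℝ) :
    pderiv (j, l) (rename (Prod.mk i) p) =
      if j = i then rename (Prod.mk i) (pderiv l p) else 0 := by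
  induction p using MvPolynomial.induction_on with
  | C a => simp
  | add p q hp hq =>
    rw [map_add, map_add, hp, hq]
    split_ifs <;> simp
  | mul_X p n hp =>
    rw [map_mul, rename_X, Derivation.leibniz, hp, Derivation.leibniz]
    by_cases h : j = i
    · subst h
      by_cases h' : n = l
      · subst h'
        simp
      · simp [h']
    · simp [h, Ne.symm h]

theorem cont_aeval {σ Y : Type} [TopologicalSpace Y] {g : Y → σ → ℝ}
    (hg : ∀ j, Continuous fun y => g y j) :
    Continuous fun y => (aeval (g y) : Pt (MvPolynomial σ ℝ)) :=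
  continuous_pt fun f => (MvPolynomial.continuous_eval f).comp (continuous_pi hg)

end PProj

open PProj

variable {m d : ℕ} {F : MvPolynomial (Fin m) ℝ}

theorem zclosed_RLP (hF : F.IsHomogeneous d) : ZClosed (RLP F) := by
  intro a ha
  have h1 : ∀ i j l, a (X (i, i)) * a (X (j, l)) = a (X (i, j)) * a (X (i, l)) := by
    intro i j l
    have := ha (X (i, i) * X (j, l) - X (i, j) * X (i, l)) fun b hb => by
      simpa [sub_eq_zero] using (eqs_of_mem_RL hF hb).1 i j l
    simpa [sub_eq_zero] using this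
  have h2 : ∀ i, ∑ j, a (X (i, j)) ^ 2 = a (X (i, i)) := by
    intro i
    have := ha (∑ j, X (i, j) ^ 2 - X (i, i)) fun b hb => by
      simpa [sub_eq_zero] using (eqs_of_mem_RL hF hb).2.1 i
    simpa [sub_eq_zero] using this
  have h3 : ∀ i, eval (fun j => a (X (i, j))) F = 0 := by
    intro i
    rw [← pt_row]
    exact ha _ fun b hb => by
      rw [pt_row]
      exact (eqs_of_mem_RL hF hb).2.2.1 i
  have h4 : ∑ i, a (X (i, i)) = 1 := by
    have := ha (∑ i, X (i, i) - 1) fun b hb => by
      simpa [sub_eq_zero] using (eqs_of_mem_RL hF hb).2.2.2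
    simpa [sub_eq_zero] using this
  obtain ⟨i, -, hi⟩ := Finset.exists_ne_zero_of_sum_ne_zero (h4 ▸ one_ne_zero)
  exact mem_RL_of_row hF (e := fun i j => a (X (i, j))) hi (h1 i) (h2 i) (h3 i)

theorem sum_sq_RLP : ∀ a ∈ RLP F, ∑ j, a (X j) ^ 2 = 1 := by
  rintro a ⟨l, ⟨hl, -⟩, h⟩
  unfold IsUnitVec at hl
  have e : ∀ i j, a (X (i, j)) = l i * l j := fun i j => (congrFun (congrFun h i) j).symm
  rw [Fintype.sum_prod_type]
  simp only [e, mul_pow, ← Finset.mul_sum, hl, mul_one]

theorem algSm_RLP (hF : F.IsHomogeneous d) (hs : RealSmooth F) : AlgSm (RLP F) := by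
  intro a ha
  obtain ⟨h1, h2, h3, h4⟩ := eqs_of_mem_RL hF ha
  obtain ⟨i, -, hi⟩ := Finset.exists_ne_zero_of_sum_ne_zero (h4 ▸ one_ne_zero)
  refine ⟨Option (Option ({j // j ≠ i} × Fin m)), inferInstance,
    fun k => k.elim (rename (Prod.mk i) F) fun k => k.elim (∑ j, X (i, j) ^ 2 - X (i, i))
      fun k => X (i, i) * X (k.1.1, k.2) - X (i, k.1.1) * X (i, k.2), ?_, ?_⟩
  · rw [Fintype.linearIndependent_iff]
    intro g hg
    have g1 : ∀ k, g (some (some k)) = 0 := by
      rintro ⟨⟨j, hj⟩, l⟩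
      have := congrFun hg (j, l)
      simp only [Fintype.sum_option, Finset.sum_apply, Pi.smul_apply, smul_eq_mul,
        Option.elim_none, Option.elim_some, pderiv_row, if_neg hj, map_zero, mul_zero, zero_add,
        Pi.zero_apply] at this
      rw [Finset.sum_eq_single (⟨j, hj⟩, l)] at this
      · simpa [hj.symm, hi] using this
      · rintro ⟨⟨j', hj'⟩, l'⟩ _ hne
        have : (j', l') ≠ (j, l) := by simpa using hne
        simp [hj.symm, this]
      · simp
    have g2 : ∀ l, g none * eval (fun j => a (X (i, j))) (pderiv l F) +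
        g (some none) * (2 * a (X (i, l)) - if i = l then 1 else 0) = 0 := by
      intro l
      have := congrFun hg (i, l)
      simp only [Fintype.sum_option, Finset.sum_apply, Pi.smul_apply, smul_eq_mul,
        Option.elim_none, Option.elim_some, pderiv_row, if_pos, g1, zero_mul, Finset.sum_const_zero,
        add_zero, Pi.zero_apply, pt_row] at this
      have e : a (pderiv (i, l) (∑ j, X (i, j) ^ 2 - X (i, i))) =
          2 * a (X (i, l)) - if i = l then 1 else 0 := by
        simp [Pi.single_apply, apply_ite a, mul_comm, map_ofNat]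
      rwa [e] at this
    have eu : ∑ l, a (X (i, l)) * eval (fun j => a (X (i, j))) (pderiv l F) = 0 := by
      have := congrArg (eval fun j => a (X (i, j))) hF.sum_X_mul_pderiv
      simpa [h3 i] using this
    have g3 : g (some none) = 0 := by
      have : ∑ l, a (X (i, l)) * (g none * eval (fun j => a (X (i, j))) (pderiv l F) +
          g (some none) * (2 * a (X (i, l)) - if i = l then 1 else 0)) = 0 := by simp [g2]
      have e : ∑ l, a (X (i, l)) * (g none * eval (fun j => a (X (i, j))) (pderiv l F) +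
          g (some none) * (2 * a (X (i, l)) - if i = l then 1 else 0)) =
          g none * ∑ l, a (X (i, l)) * eval (fun j => a (X (i, j))) (pderiv l F) +
          g (some none) * (2 * ∑ l, a (X (i, l)) ^ 2 -
            ∑ l, a (X (i, l)) * if i = l then 1 else 0) := by
        simp only [Finset.mul_sum, ← Finset.sum_sub_distrib, ← Finset.sum_add_distrib]
        exact Finset.sum_congr rfl fun l _ => by ring
      rw [e, eu, h2 i] at this
      simp only [mul_zero, zero_add, mul_ite, mul_one, Finset.sum_ite_eq, Finset.mem_univ,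
        if_true] at this
      have h5 : g (some none) * a (X (i, i)) = 0 := by linarith
      exact (mul_eq_zero.mp h5).resolve_right hi
    have g4 : g none = 0 := by
      by_contra hn
      refine hi (congrFun (hs (fun j => a (X (i, j))) (h3 i) fun l => ?_) i)
      have := g2 l
      rw [g3, zero_mul, add_zero] at this
      exact (mul_eq_zero.mp this).resolve_left hn
    rintro (_ | _ | k)
    exacts [g4, g3, g1 k]
  · filter_upwards [zn_ne hi] with b hb
    constructor
    · intro hb'
      obtain ⟨k1, k2, k3, -⟩ := eqs_of_mem_RL hF hb'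
      rintro (_ | _ | k)
      · simpa [pt_row] using k3 i
      · simpa [sub_eq_zero] using k2 i
      · simpa [sub_eq_zero] using k1 i k.1.1 k.2
    · intro h
      refine mem_RL_of_row hF (e := fun i j => b (X (i, j))) hb (fun j l => ?_) ?_ ?_
      · by_cases hj : j = i
        · rw [hj]
        · simpa [sub_eq_zero] using h (some (some (⟨j, hj⟩, l)))
      · simpa [sub_eq_zero] using h (some none)
      · simpa [pt_row] using h none

theorem homeo_RLP : Homeo (RLP F) (RL F) := by
  refine ⟨fun b i j => b (X (i, j)), fun e => aeval fun k => e k.1 k.2, ?_, ?_, fun b hb => hb,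
    fun e he => ?_, fun b _ => ?_, fun e _ => ?_⟩
  · exact (continuous_pi fun i => continuous_pi fun j => continuous_ev _).continuousOn
  · exact (cont_aeval fun k => by fun_prop).continuousOn
  · simpa [RLP] using he
  · ext k
    simp
  · funext i j
    simp

/-- the unit sphere as a set of real points -/
def sphP (m : ℕ) : Set (Pt (MvPolynomial (Fin m) ℝ)) := {b | ∑ j, b (X j) ^ 2 = 1}

theorem zclosed_sphP : ZClosed (sphP m) := by
  have : sphP m = {b | b (∑ j, X j ^ 2 - 1) = 0} := by
    ext b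
    simp [sphP, sub_eq_zero]
  rw [this]
  exact zclosed_zero _

theorem algSm_sphP : AlgSm (sphP m) := by
  intro a ha
  refine ⟨Unit, inferInstance, fun _ => ∑ j, X j ^ 2 - 1, ?_, Filter.Eventually.of_forall fun b => ?_⟩
  · rw [linearIndependent_unique_iff]
    intro h
    have h1 : ∀ j, a (X j) = 0 := by
      intro j
      have := congrFun h j
      simpa [Pi.single_apply, apply_ite a, map_ofNat] using this
    have : ∑ j, a (X j) ^ 2 = 1 := ha
    simp [h1] at this
  · simp [sphP, sub_eq_zero]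

theorem homeo_sphP : Homeo (sphP m) (sph m) := by
  refine ⟨fun b j => b (X j), fun e => aeval e, ?_, ?_, fun b hb => hb,
    fun e he => ?_, fun b _ => ?_, fun e _ => ?_⟩
  · exact (continuous_pi fun j => continuous_ev _).continuousOn
  · exact (cont_aeval fun k => by fun_prop).continuousOn
  · simpa [sphP, sph, IsUnitVec] using he
  · ext k
    simp
  · funext j
    simp

/-- stereographic projection -/
theorem beta_sphP {β : BetaFun} (hβ : IsBeta β) {n : ℕ} (hn : 1 ≤ n) :
    β _ (sphP (n + 1)) n = 1 := by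
  have cN : Constr (sphP (n + 1) ∩ {b | b (1 - X 0) = 0}) :=
    zclosed_sphP.constr.inter (Constr.zero _)
  have cR : Constr (sphP (n + 1) ∩ {b | b (1 - X 0) ≠ 0}) :=
    zclosed_sphP.constr.inter (constr_ne _)
  have hu : sphP (n + 1) = (sphP (n + 1) ∩ {b | b (1 - X 0) = 0}) ∪
      (sphP (n + 1) ∩ {b | b (1 - X 0) ≠ 0}) := by
    ext b
    simp only [Set.mem_union, Set.mem_inter_iff, Set.mem_ofPred_eq]
    tauto
  have b1 : BiregBy (sphP (n + 1) ∩ {b | b (1 - X 0) = 0}) (Set.univ : Set (Pt ℝ))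
      (fun _ => AlgHom.id ℝ ℝ) (fun _ => aeval (Fin.cons 1 0 : Fin (n + 1) → ℝ)) := by
    refine ⟨fun _ _ => trivial, fun _ _ => ⟨?_, by simp⟩, fun b hb => ?_,
      fun y _ => Subsingleton.elim _ _, fun f b _ => ⟨C f, 1, by simp, fun x _ _ => by simp⟩,
      fun f b _ => ⟨aeval (Fin.cons 1 0 : Fin (n + 1) → ℝ) f, 1, by simp, fun x _ _ => ?_⟩⟩
    · simp [sphP, Fin.sum_univ_succ]
    · have h1 : ∑ j, b (X j) ^ 2 = 1 := hb.1
      have h2 : b (X 0) = 1 := by
        have : b (1 - X 0) = 0 := hb.2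
        rw [map_sub, map_one] at this
        linarith
      rw [Fin.sum_univ_succ, h2] at h1
      have h3 : ∑ j : Fin n, b (X j.succ) ^ 2 = 0 := by linarith
      rw [Finset.sum_eq_zero_iff_of_nonneg fun j _ => sq_nonneg _] at h3
      ext j
      refine Fin.cases ?_ (fun j => ?_) j
      · simp [h2]
      · simp [pow_eq_zero_iff two_ne_zero |>.mp (h3 j (Finset.mem_univ j))]
    · rw [Subsingleton.elim x (AlgHom.id ℝ ℝ)]
      simp
  have pos : ∀ y : Pt (MvPolynomial (Fin n) ℝ), ∑ j, y (X j) ^ 2 + 1 ≠ 0 := fun y => by positivity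
  have b2 : BiregBy (sphP (n + 1) ∩ {b | b (1 - X 0) ≠ 0})
      (Set.univ : Set (Pt (MvPolynomial (Fin n) ℝ)))
      (fun b => aeval fun j => b (X j.succ) / (1 - b (X 0)))
      (fun y => aeval (Fin.cons ((∑ j, y (X j) ^ 2 - 1) / (∑ j, y (X j) ^ 2 + 1))
        (fun j => 2 * y (X j) / (∑ j, y (X j) ^ 2 + 1)) : Fin (n + 1) → ℝ)) := by
    refine ⟨fun _ _ => trivial, fun y _ => ⟨?_, ?_⟩, fun b hb => ?_, fun y _ => ?_,
      reg_of_adjoin _ adjoin_range_X ?_, reg_of_adjoin _ adjoin_range_X ?_⟩
    · have := pos y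
      simp only [sphP, Set.mem_ofPred_eq, Fin.sum_univ_succ, aeval_X, Fin.cons_zero, Fin.cons_succ,
        div_pow, mul_pow, ← Finset.sum_div, ← Finset.mul_sum]
      field_simp
      ring
    · have := pos y
      simp only [Set.mem_ofPred_eq, map_sub, map_one, aeval_X, Fin.cons_zero]
      field_simp
      norm_num
      exact this
    · have h1 : ∑ j, b (X j) ^ 2 = 1 := hb.1
      have h2 : 1 - b (X 0) ≠ 0 := by simpa using hb.2
      rw [Fin.sum_univ_succ] at h1
      have h3 : ∑ j : Fin n, (b (X j.succ) / (1 - b (X 0))) ^ 2 =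
          (1 + b (X 0)) / (1 - b (X 0)) := by
        simp only [div_pow, ← Finset.sum_div]
        rw [eq_sub_of_add_eq' h1]
        field_simp
        ring
      have h4 : (1 + b (X 0)) / (1 - b (X 0)) + 1 = 2 / (1 - b (X 0)) := by
        field_simp
        ring
      ext j
      refine Fin.cases ?_ (fun j => ?_) j
      · simp only [aeval_X, Fin.cons_zero, h3, h4]
        field_simp
        ring
      · simp only [aeval_X, Fin.cons_succ, h3, h4]
        field_simp
    · have := pos y
      ext j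
      simp only [aeval_X, Fin.cons_zero, Fin.cons_succ]
      have h : 1 - (∑ j, y (X j) ^ 2 - 1) / (∑ j, y (X j) ^ 2 + 1) =
          2 / (∑ j, y (X j) ^ 2 + 1) := by
        field_simp
        ring
      rw [h]
      field_simp
    · rintro _ ⟨j, rfl⟩ b hb
      refine ⟨X j.succ, 1 - X 0, hb.2, fun x _ hx => ?_⟩
      rw [map_sub, map_one] at hx ⊢
      rw [aeval_X, div_mul_cancel₀ _ hx]
    · rintro _ ⟨j, rfl⟩ y _
      refine Fin.cases ?_ (fun j => ?_) j
      · refine ⟨∑ j, X j ^ 2 - 1, ∑ j, X j ^ 2 + 1, by simpa using pos y, fun x _ _ => ?_⟩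
        simp [div_mul_cancel₀ _ (pos x)]
      · refine ⟨2 * X j, ∑ j, X j ^ 2 + 1, by simpa using pos y, fun x _ _ => ?_⟩
        simp only [aeval_X, Fin.cons_succ, map_add, map_sum, map_pow, map_one, map_mul,
          div_mul_cancel₀ _ (pos x), map_ofNat]
  rw [hu, hβ.add _ _ _ cN cR (Set.disjoint_left.2 fun b h h' => h'.2 h.2),
    hβ.inv _ _ _ _ _ _ cN constr_univ b1, hβ.inv _ _ _ _ _ _ cR constr_univ b2, beta_affine hβ]
  obtain ⟨k, rfl⟩ : ∃ k, n = k + 1 := ⟨n - 1, by omega⟩
  rw [hβ.pt, zero_add]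

end Pool.Agent.MP_696f7f_ag.H96
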