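import Pool.Agent.MP_696f7f_ag.H96.PSphere
import Pool.Agent.MP_696f7f_ag.H96.PProj
import Pool.Agent.MP_696f7f_ag.H96.BMain

/-! Virtual Betti numbers of real projective hypersurfaces. -/

namespace Pool.Agent.MP_696f7f_ag.H96

theorem exists_beta_val (hP : PrincStmt) {T : CohF} (hT : T.IsCoh) (hW : WStmt) :
    ∃ β : BetaFun, IsBeta β ∧ ∀ (B : Type) [CommRing B] [Algebra ℝ B] [Algebra.FiniteType ℝ B]
      (S : Set (Pt B)) (p : ℕ → ℤ), Val T S p → β B S = p := by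
  classical
  obtain ⟨QI, hQ⟩ := hW T hT
  let β : BetaFun := fun B _ _ S => if h : ∃ p, Val T S p then h.choose else 0
  have hβ : ∀ (B : Type) [CommRing B] [Algebra ℝ B] [Algebra.FiniteType ℝ B] (S : Set (Pt B))
      (p : ℕ → ℤ), Val T S p → β B S = p := by
    intro B _ _ _ S p hp
    have h : ∃ p, Val T S p := ⟨p, hp⟩
    obtain ⟨t, ht⟩ := exists_td S
    change (if h : ∃ p, Val T S p then h.choose else 0) = p
    rw [dif_pos h]
    exact uniq hP hT hQ t B S _ _ ht h.choose_spec hp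
  refine ⟨β, ⟨?_, ?_, ?_, ?_, ?_, ?_, ?_⟩, hβ⟩
  · intro B _ _ _ S S' hS hS' hd a
    obtain ⟨p, hp⟩ := exists_val T hP hS
    obtain ⟨p', hp'⟩ := exists_val T hP hS'
    rw [hβ B _ _ (hp.union hp' hd), hβ B _ _ hp, hβ B _ _ hp']
    rfl
  · intro B B' _ _ _ _ _ _ S S' φ ψ hS hS' h
    obtain ⟨p, hp⟩ := exists_val T hP hS
    rw [hβ B _ _ hp, hβ B' _ _ (hp.bireg hS' ⟨φ, ψ, h⟩)]
  · intro B _ _ _ S hS
    obtain ⟨p, hp⟩ := exists_val T hP hS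
    obtain ⟨p', hp', h0, -⟩ := hp.line hT
    rw [hβ _ _ _ hp', h0]
  · intro B _ _ _ S hS a
    obtain ⟨p, hp⟩ := exists_val T hP hS
    obtain ⟨p', hp', -, h1⟩ := hp.line hT
    rw [hβ _ _ _ hp', hβ _ _ _ hp, h1]
  · intro B _ _ _ S hS a ha
    obtain ⟨p, hp⟩ := exists_val T hP hS
    rw [hβ _ _ _ hp]
    exact hp.deg hT ha
  · obtain ⟨p, hp, h0, -⟩ := val_point hT
    rw [hβ _ _ _ hp, h0]
  · intro a
    obtain ⟨p, hp, -, h1⟩ := val_point hT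
    rw [hβ _ _ _ hp, h1]

theorem Homeo.bt_eq (T : CohF) {X X' : Type} [TopologicalSpace X] [TopologicalSpace X']
    {A : Set X} {A' : Set X'} (h : Homeo A A') (a : ℕ) : T.bt a A = T.bt a A' := by
  obtain ⟨φ, ψ, h1, h2, h3, h4, h5, h6⟩ := h
  exact T.bt_eq_of_inv h1 h2 h3 h4 h5 h6 a

theorem Homeo.finite (T : CohF) {X X' : Type} [TopologicalSpace X] [TopologicalSpace X']
    {A : Set X} {A' : Set X'} (h : Homeo A A') (a : ℕ)
    (hf : Module.Finite (ZMod 2) (T.H a X A)) : Module.Finite (ZMod 2) (T.H a X' A') := by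
  obtain ⟨φ, ψ, h1, h2, h3, h4, -, h6⟩ := h
  refine Module.Finite.of_surjective (T.res a ψ h2 h4) fun u => ⟨T.res a φ h1 h3 u, ?_⟩
  rw [T.res_comp a ψ φ id h2 h4 h1 h3 continuousOn_id (Set.mapsTo_id _) h6]
  exact T.res_id a id _ _ (fun _ _ => rfl) u

theorem betaHypStmt_of (hP : PrincStmt) (hC : CohStmt) (hW : WStmt) : BetaHypStmt := by
  obtain ⟨T, hT⟩ := hC
  obtain ⟨β, hβ, hv⟩ := exists_beta_val hP hT hW
  refine ⟨β, hβ, fun d n F G A B hn hF hG sF sG hU hd hA hB eA eB => ?_⟩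
  obtain ⟨vF, -⟩ := val_of_algSm hT (zclosed_RLP hF) sum_sq_RLP (algSm_RLP hF sF)
  obtain ⟨vG, fG⟩ := val_of_algSm hT (zclosed_RLP hG) sum_sq_RLP (algSm_RLP hG sG)
  obtain ⟨vS, -⟩ := val_of_algSm hT (zclosed_sphP (m := n + 1)) (R := 1) (fun _ h => h) algSm_sphP
  have e1 := beta_sphP hβ hn
  rw [hv _ _ _ vS] at e1
  rw [hv _ _ _ vF, hv _ _ _ vG]
  have f1 := (homeo_RLP (F := G)).finite T n (fG n)
  rw [hU] at f1
  simp only at e1 ⊢
  rw [(homeo_RLP (F := G)).bt_eq T, hU, (hT.bt_union hA hB hd n f1).1, eA.bt_eq T, eB.bt_eq T,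
    (homeo_RLP (F := F)).bt_eq T, ← homeo_sphP.bt_eq T, e1]

end Pool.Agent.MP_696f7f_ag.H96
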