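import Pool.Agent.MP_696f7f_ag.H96.PDefs
import Pool.Agent.MP_696f7f_ag.H96.BVal
import Pool.Agent.MP_696f7f_ag.H96.MCirc
import Pool.Agent.MP_696f7f_ag.H96.LExch

/-! The sphere as a model; compact smooth affine sets. -/

namespace Pool.Agent.MP_696f7f_ag.H96

open MvPolynomial

namespace PSph

set_option linter.unusedSectionVars false

variable {K : Type} [Field K] [Algebra ℝ K] {σ : Type} [Fintype σ] [DecidableEq σ]

/-- the data of the stereographic parametrisation of a sphere -/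
structure Par (B : Subalgebra ℝ K) (t : σ → K) (D : σ → Der K) (w : B) (u : σ → B) : Prop where
  dual : ∀ i j, D i (t j) = if i = j then 1 else 0
  w_eq : (w : K) * (1 + ∑ j, t j ^ 2) = 1
  u_eq : ∀ i, (u i : K) = t i * w
  adj : Algebra.adjoin ℝ (insert w (Set.range u)) = ⊤

variable {B : Subalgebra ℝ K} {t : σ → K} {D : σ → Der K} {w : B} {u : σ → B}

theorem der_sum (δ : Der K) (t : σ → K) : δ (∑ j, t j ^ 2) = ∑ j, 2 * t j * δ (t j) := by
  rw [map_sum]
  refine Finset.sum_congr rfl fun j _ => ?_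
  rw [pow_two, Derivation.leibniz, smul_eq_mul]
  ring

theorem ev_sq {L : Loc K} (ht : ∀ j, t j ∈ L.O) :
    (1 + ∑ j, t j ^ 2) ∈ L.O ∧ L.ev (1 + ∑ j, t j ^ 2) = 1 + ∑ j, L.ev (t j) ^ 2 := by
  have h1 : ∑ j, t j ^ 2 ∈ L.O := sum_mem fun j _ => pow_mem (ht j) 2
  refine ⟨add_mem (one_mem _) h1, ?_⟩
  rw [L.ev_add _ (one_mem _) _ h1, Loc.ev_one, Loc.ev_sum _ _ fun j _ => pow_mem (ht j) 2]
  simp only [Loc.ev_pow (ht _)]

theorem ev_sq_ne {L : Loc K} (ht : ∀ j, t j ∈ L.O) : L.ev (1 + ∑ j, t j ^ 2) ≠ 0 := by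
  rw [(ev_sq ht).2]
  positivity

namespace Par

theorem D_sq (h : Par B t D w u) (i : σ) : D i (∑ j, t j ^ 2) = 2 * t i := by
  rw [der_sum]
  simp [h.dual]

theorem D_aeval (h : Par B t D w u) (i : σ) (P : MvPolynomial σ ℝ) :
    D i (aeval t P) = aeval t (pderiv i P) := by
  induction P using MvPolynomial.induction_on with
  | C r => rw [aeval_C, Derivation.map_algebraMap, pderiv_C, map_zero]
  | add p q hp hq => rw [map_add, map_add, hp, hq, map_add, map_add]
  | mul_X p j hp =>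
    rw [map_mul, aeval_X, Derivation.leibniz, hp, h.dual, pderiv_mul,
      map_add, map_mul, map_mul, aeval_X, pderiv_X, Pi.single_apply]
    by_cases hij : i = j
    · subst hij
      simp only [if_true, smul_eq_mul, map_one]
      ring
    · rw [if_neg hij, if_neg (Ne.symm hij)]
      simp only [smul_eq_mul, map_zero]
      ring

theorem q_ne (h : Par B t D w u) : (1 + ∑ j, t j ^ 2) ≠ 0 :=
  right_ne_zero_of_mul_eq_one h.w_eq

theorem w_ne (h : Par B t D w u) : (w : K) ≠ 0 := left_ne_zero_of_mul_eq_one h.w_eq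

theorem w_div (h : Par B t D w u) : (w : K) = 1 / (1 + ∑ j, t j ^ 2) :=
  eq_div_of_mul_eq h.q_ne h.w_eq

theorem s_ne [Nonempty σ] (h : Par B t D w u) : ∑ j, t j ^ 2 ≠ 0 := by
  intro e
  obtain ⟨i⟩ := (inferInstance : Nonempty σ)
  have : CharZero K := charZero_of_injective_algebraMap (algebraMap ℝ K).injective
  have h1 := h.D_sq i
  rw [e, map_zero] at h1
  have h2 : t i = 0 := (mul_eq_zero.1 h1.symm).resolve_left two_ne_zero
  have h3 := h.dual i i
  rw [h2, map_zero, if_pos rfl] at h3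
  exact zero_ne_one h3

/-- the inversion in the unit sphere -/
theorem inv [Nonempty σ] (h : Par B t D w u) :
    Par B (fun i => t i / ∑ j, t j ^ 2)
      (fun i => (∑ j, t j ^ 2) • D i - (2 * t i) • ∑ j, t j • D j) (1 - w) u := by
  have h0 := h.s_ne
  have hw := h.w_eq
  set s := ∑ j, t j ^ 2 with hs
  have hs' : ∑ j, (t j / s) ^ 2 = s⁻¹ := by
    simp only [div_pow]
    rw [← Finset.sum_div, ← hs]
    field_simp
  refine ⟨fun i k => ?_, ?_, fun i => ?_, ?_⟩
  · have e : ∀ j, D j (t k / s) = (if j = k then 1 else 0) / s - 2 * t j * t k / s ^ 2 := by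
      intro j
      have e1 : D j (t k / s * s) = if j = k then 1 else 0 := by
        rw [div_mul_cancel₀ _ h0, h.dual]
      rw [Derivation.leibniz, h.D_sq, smul_eq_mul, smul_eq_mul] at e1
      rw [← e1]
      field_simp
      ring
    have e2 : ∑ j, t j * D j (t k / s) = -(t k / s) := by
      simp only [e, mul_sub, Finset.sum_sub_distrib]
      have e3 : ∑ j, t j * (2 * t j * t k / s ^ 2) = s * (2 * t k / s ^ 2) := by
        rw [hs, Finset.sum_mul]
        exact Finset.sum_congr rfl fun j _ => by ring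
      have e4 : ∑ j, t j * ((if j = k then 1 else 0) / s) = t k / s := by
        rw [Finset.sum_eq_single k]
        · rw [if_pos rfl]; ring
        · intro j _ hj
          rw [if_neg hj]; ring
        · simp
      rw [e3, e4]
      field_simp
      ring
    rw [Derivation.sub_apply, Derivation.smul_apply, Derivation.smul_apply, LChart_sum_apply]
    simp only [Derivation.smul_apply, smul_eq_mul]
    rw [e2, e]
    field_simp
    ring
  · rw [hs']
    push_cast
    field_simp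
    linear_combination (-1 : K) * hw
  · rw [h.u_eq]
    push_cast
    field_simp
    linear_combination t i * hw
  · rw [eq_top_iff, ← h.adj]
    refine Algebra.adjoin_le ?_
    rintro x (rfl | hx)
    · have : 1 - x ∈ Algebra.adjoin ℝ (insert (1 - x) (Set.range u)) :=
        Algebra.subset_adjoin (Or.inl rfl)
      simpa using sub_mem (one_mem _) this
    · exact Algebra.subset_adjoin (Or.inr hx)

theorem rel (h : Par B t D w u) : ∑ j, u j ^ 2 + w ^ 2 = w := by
  apply Subtype.ext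
  push_cast
  simp only [h.u_eq, mul_pow]
  rw [← Finset.sum_mul]
  linear_combination (w : K) * h.w_eq

theorem rel_pt (h : Par B t D w u) (y : Pt B) : ∑ j, y (u j) ^ 2 + y w ^ 2 = y w := by
  have := congrArg y h.rel
  simpa [map_sum] using this

theorem le_of (h : Par B t D w u) {A : Subalgebra ℝ K} (h1 : (w : K) ∈ A)
    (h2 : ∀ i, (u i : K) ∈ A) : B ≤ A := by
  have h4 : (⊤ : Subalgebra ℝ B) ≤ A.comap B.val := by
    rw [← h.adj]
    refine Algebra.adjoin_le ?_
    rintro x (rfl | ⟨i, rfl⟩)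
    · exact h1
    · exact h2 i
  exact fun x hx => h4 (Algebra.mem_top : (⟨x, hx⟩ : B) ∈ ⊤)

theorem ext (h : Par B t D w u) {y y' : Pt B} (h1 : y w = y' w) (h2 : ∀ i, y (u i) = y' (u i)) :
    y = y' := by
  refine AlgHom.ext_of_adjoin_eq_top h.adj ?_
  rintro x (rfl | ⟨i, rfl⟩)
  · exact h1
  · exact h2 i

theorem fg (h : Par B t D w u) : B.FG := by
  classical
  rw [← Subalgebra.fg_top]
  refine ⟨insert w (Finset.univ.image u), ?_⟩
  rw [← h.adj]
  simp

theorem cpt (h : Par B t D w u) : CompactSpace (Pt B) := by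
  refine compactSpace_of_bdd _ h.adj ?_
  have hn : ∀ y : Pt B, 0 ≤ ∑ j, y (u j) ^ 2 := fun y => by positivity
  rintro x (rfl | ⟨i, rfl⟩)
  · exact ⟨1, fun b => abs_le_one_iff_mul_self_le_one.2 (by nlinarith [h.rel_pt b, hn b])⟩
  · refine ⟨1, fun b => abs_le_one_iff_mul_self_le_one.2 ?_⟩
    have h1 : b (u i) ^ 2 ≤ ∑ j, b (u j) ^ 2 :=
      Finset.single_le_sum (f := fun j => b (u j) ^ 2) (fun j _ => sq_nonneg _) (Finset.mem_univ i)
    nlinarith [h.rel_pt b, sq_nonneg (b w - 1)]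

theorem clear (h : Par B t D w u) (p : MvPolynomial σ ℝ) : ∃ k : ℕ, aeval t p * (w : K) ^ k ∈ B := by
  induction p using MvPolynomial.induction_on with
  | C r => exact ⟨0, by rw [aeval_C, pow_zero, mul_one]; exact B.algebraMap_mem r⟩
  | add p q hp hq =>
    obtain ⟨k, hk⟩ := hp
    obtain ⟨l, hl⟩ := hq
    refine ⟨k + l, ?_⟩
    have e : aeval t (p + q) * (w : K) ^ (k + l) =
        aeval t p * (w : K) ^ k * (w : K) ^ l + aeval t q * (w : K) ^ l * (w : K) ^ k := by
      rw [map_add]; ring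
    rw [e]
    exact add_mem (mul_mem hk (pow_mem w.2 l)) (mul_mem hl (pow_mem w.2 k))
  | mul_X p j hp =>
    obtain ⟨k, hk⟩ := hp
    refine ⟨k + 1, ?_⟩
    have e : aeval t (p * X j) * (w : K) ^ (k + 1) = aeval t p * (w : K) ^ k * u j := by
      rw [map_mul, aeval_X, h.u_eq]; ring
    rw [e]
    exact mul_mem hk (u j).2

theorem frac (h : Par B t D w u)
    (hf : ∀ x : K, ∃ p q : MvPolynomial σ ℝ, aeval t q ≠ 0 ∧ x * aeval t q = aeval t p) (x : K) :
    ∃ p ∈ B, ∃ q ∈ B, q ≠ 0 ∧ x * q = p := by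
  obtain ⟨p, q, hq, e⟩ := hf x
  obtain ⟨k, hk⟩ := h.clear p
  obtain ⟨l, hl⟩ := h.clear q
  refine ⟨_, mul_mem hk (pow_mem w.2 l), _, mul_mem hl (pow_mem w.2 k),
    mul_ne_zero (mul_ne_zero hq (pow_ne_zero _ h.w_ne)) (pow_ne_zero _ h.w_ne), ?_⟩
  rw [← e]
  ring

/-- the points of affine space give points of the sphere -/
theorem exists_pt (h : Par B t D w u)
    (hinj : Function.Injective (aeval t : MvPolynomial σ ℝ →ₐ[ℝ] K)) (x : Pt (MvPolynomial σ ℝ)) :
    ∃ y : Pt B, y w * (1 + ∑ j, x (X j) ^ 2) = 1 ∧ ∀ i, y (u i) = x (X i) * y w := by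
  let g : MvPolynomial σ ℝ →ₐ[ℝ] K := aeval t
  have hfg : g.range.FG := by
    rw [← Algebra.map_top]
    exact Subalgebra.FG.map g Algebra.FiniteType.out
  let b1 : Pt g.range := x.comp (AlgEquiv.ofInjective g hinj).symm.toAlgHom
  let L := locAt g.range hfg b1
  have hm : ∀ p, g p ∈ L.O := fun p => locAt_le ⟨p, rfl⟩
  have hev : ∀ p, L.ev (g p) = x p := by
    intro p
    have e := locAt_ev (hB := hfg) (a := b1) (AlgEquiv.ofInjective g hinj p)
    simpa [b1] using e
  have hX : ∀ j, g (X j) = t j := fun j => aeval_X _ _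
  have ht : ∀ j, t j ∈ L.O := fun j => hX j ▸ hm (X j)
  have hte : ∀ j, L.ev (t j) = x (X j) := fun j => by rw [← hX, hev]
  have hw : (w : K) ∈ L.O := by
    rw [h.w_div]
    exact Loc.div_mem (one_mem _) (ev_sq ht).1 (ev_sq_ne ht)
  have hle : B ≤ L.O := h.le_of hw fun i => by
    rw [h.u_eq]
    exact mul_mem (ht i) hw
  refine ⟨MCirc.ptOf L B hle, ?_, fun i => ?_⟩
  · change L.ev w * _ = _
    simp only [← hte]
    rw [← (ev_sq ht).2, ← L.ev_mul _ hw _ (ev_sq ht).1, h.w_eq, Loc.ev_one]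
  · change L.ev (u i) = _ * L.ev w
    rw [h.u_eq, L.ev_mul _ (ht i) _ hw, hte]

variable {hB : B.FG} {y : Pt B}

theorem t_mem (h : Par B t D w u) (hy : y w ≠ 0) (i : σ) :
    t i ∈ (locAt B hB y).O ∧ (locAt B hB y).ev (t i) = y (u i) / y w :=
  ⟨⟨u i, w, hy, (h.u_eq i).symm⟩, locEv_eq B y hy (h.u_eq i).symm⟩

theorem pres (h : Par B t D w u) (hy : y w ≠ 0) (i : σ) :
    ∀ f ∈ (locAt B hB y).O, D i f ∈ (locAt B hB y).O := by
  have ht := fun j => (h.t_mem (hB := hB) hy j).1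
  have hw : (w : K) ∈ (locAt B hB y).O := locAt_le w.2
  have hDw : D i w ∈ (locAt B hB y).O := by
    have e1 := congrArg (D i) h.w_eq
    rw [Derivation.leibniz, map_add, Derivation.map_one_eq_zero, h.D_sq, smul_eq_mul,
      smul_eq_mul] at e1
    have e2 : D i w = -(2 * t i * w * w) := by
      linear_combination (w : K) * e1 - D i w * h.w_eq
    rw [e2]
    exact neg_mem (mul_mem (mul_mem (mul_mem (MCirc.Par.two_mem _) (ht i)) hw) hw)
  rw [← Loc.mem_log_empty]
  refine locAt_mem_log (locAt_log (G := insert (w : K) (Set.range fun j => (u j : K))) ?_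
    locAt_le ?_)
  · refine le_antisymm (h.le_of (Algebra.subset_adjoin (Or.inl rfl))
      fun j => Algebra.subset_adjoin (Or.inr ⟨j, rfl⟩)) (Algebra.adjoin_le ?_)
    rintro x (rfl | ⟨j, rfl⟩)
    · exact w.2
    · exact (u j).2
  · rintro x (rfl | ⟨j, rfl⟩)
    · exact hDw
    · change D i (u j : K) ∈ _
      rw [h.u_eq, Derivation.leibniz, smul_eq_mul, smul_eq_mul, h.dual]
      refine add_mem (mul_mem (ht j) hDw) (mul_mem hw ?_)
      split_ifs
      · exact one_mem _
      · exact zero_mem _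

/-- the chart at a finite point -/
theorem crd {n : ℕ} (e : Fin n ≃ σ) (h : Par B t D w u) (hy : y w ≠ 0) :
    IsCrd (locAt B hB y)
      ⟨fun j => t (e j) - algebraMap ℝ K ((locAt B hB y).ev (t (e j))), fun j => D (e j)⟩ := by
  have ht := fun j => (h.t_mem (hB := hB) hy j).1
  refine ⟨le_antisymm ?_ ?_, fun i => h.pres hy (e i), fun i l => ?_⟩
  · rw [Loc.span_le]
    rintro _ ⟨i, rfl⟩
    exact Loc.sub_ev_mem (ht _)
  · set N := (locAt B hB y).span (Set.range
      fun j => t (e j) - algebraMap ℝ K ((locAt B hB y).ev (t (e j))))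
    have ht' : ∀ j, t j ∈ MCirc.cong (locAt B hB y) N := fun j =>
      ⟨ht j, Loc.subset_span ⟨e.symm j, by simp⟩⟩
    have hw : (w : K) ∈ MCirc.cong (locAt B hB y) N := by
      rw [h.w_div]
      exact MCirc.cong_div (one_mem _)
        (add_mem (one_mem _) (sum_mem fun j _ => pow_mem (ht' j) 2)) (ev_sq_ne ht)
    have hle : B ≤ MCirc.cong (locAt B hB y) N := h.le_of hw fun i => by
      rw [h.u_eq]
      exact mul_mem (ht' i) hw
    intro f hf
    obtain ⟨p, q, hq0, e⟩ := hf.1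
    have hq1 : (locAt B hB y).ev q ≠ 0 := by rwa [locAt_ev]
    have h1 := (MCirc.cong_div (hle p.2) (hle q.2) hq1).2
    rwa [← eq_div_of_mul_eq (Loc.ne_zero_of_ev hq1) e, hf.2, map_zero, sub_zero] at h1
  · change D (e i) (t (e l) - algebraMap ℝ K _) = _
    rw [map_sub, Derivation.map_algebraMap, sub_zero, h.dual]
    simp

end Par

/-- the point of affine space under a finite point -/
noncomputable def dn (w : B) (u : σ → B) (y : Pt B) : Pt (MvPolynomial σ ℝ) :=
  aeval fun i => y (u i) / y w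

theorem dn_X (y : Pt B) (i : σ) : dn w u y (X i) = y (u i) / y w := aeval_X _ _

theorem Par.ev_aeval (h : Par B t D w u) {hB : B.FG} {y : Pt B} (hy : y w ≠ 0)
    (f : MvPolynomial σ ℝ) :
    aeval t f ∈ (locAt B hB y).O ∧ (locAt B hB y).ev (aeval t f) = dn w u y f := by
  have h1 := MIft.ev_aeval (fun j => (h.t_mem (hB := hB) hy j).1) f
  refine ⟨h1.1, h1.2.trans ?_⟩
  simp only [(h.t_mem (hB := hB) hy _).2]
  rfl

theorem Par.bireg (h : Par B t D w u)
    (hinj : Function.Injective (aeval t : MvPolynomial σ ℝ →ₐ[ℝ] K)) :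
    ∃ φ : Pt (MvPolynomial σ ℝ) → Pt B, BiregBy Set.univ {y | y w ≠ 0} φ (dn w u) ∧
      ∀ x, φ x w * (1 + ∑ j, x (X j) ^ 2) = 1 := by
  choose φ h1 h2 using h.exists_pt hinj
  have h3 : ∀ x, φ x w ≠ 0 := fun x => left_ne_zero_of_mul_eq_one (h1 x)
  have hq : ∀ x : Pt (MvPolynomial σ ℝ), x (1 + ∑ j, X j ^ 2) = 1 + ∑ j, x (X j) ^ 2 := fun x => by
    simp [map_sum]
  refine ⟨φ, ⟨fun x _ => h3 x, fun y _ => trivial, fun x _ => ?_, fun y hy => ?_, ?_, ?_⟩, h1⟩
  · refine MvPolynomial.algHom_ext fun i => ?_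
    rw [dn_X, h2, mul_div_cancel_right₀ _ (h3 x)]
  · have hy' : y w ≠ 0 := hy
    have e1 := h1 (dn w u y)
    have e2 : y w * (1 + ∑ j, dn w u y (X j) ^ 2) = 1 := by
      simp only [dn_X, div_pow]
      rw [← Finset.sum_div]
      field_simp
      linear_combination h.rel_pt y
    have e3 : φ (dn w u y) w = y w :=
      mul_right_cancel₀ (right_ne_zero_of_mul_eq_one e1) (e1.trans e2.symm)
    refine h.ext e3 fun i => ?_
    rw [h2, e3, dn_X, div_mul_cancel₀ _ hy']
  · refine reg_of_adjoin _ h.adj ?_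
    rintro f (rfl | ⟨i, rfl⟩) b _
    · refine ⟨1, 1 + ∑ j, X j ^ 2, by rw [hq]; positivity, fun x _ _ => ?_⟩
      rw [hq, h1, map_one]
    · refine ⟨X i, 1 + ∑ j, X j ^ 2, by rw [hq]; positivity, fun x _ _ => ?_⟩
      rw [hq, h2, mul_assoc, h1, mul_one]
  · refine reg_of_adjoin _ (MvPolynomial.adjoin_range_X (σ := σ) (R := ℝ)) ?_
    rintro p ⟨i, rfl⟩ b hb
    refine ⟨u i, w, hb, fun x _ hx => ?_⟩
    rw [dn_X, div_mul_cancel₀ _ hx]

theorem exists_par (σ : Type) [Fintype σ] [DecidableEq σ] :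
    ∃ (K : Type) (_ : Field K) (_ : Algebra ℝ K) (B : Subalgebra ℝ K) (t : σ → K)
      (D : σ → Der K) (w : B) (u : σ → B), Par B t D w u ∧
      Function.Injective (aeval t : MvPolynomial σ ℝ →ₐ[ℝ] K) ∧
      ∀ x : K, ∃ p q : MvPolynomial σ ℝ, aeval t q ≠ 0 ∧ x * aeval t q = aeval t p := by
  let K := FractionRing (MvPolynomial σ ℝ)
  let t : σ → K := fun j => algebraMap (MvPolynomial σ ℝ) K (X j)
  have hg : ∀ p, aeval t p = algebraMap (MvPolynomial σ ℝ) K p := by
    intro p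
    have : (aeval t : MvPolynomial σ ℝ →ₐ[ℝ] K) = IsScalarTower.toAlgHom ℝ _ K :=
      MvPolynomial.algHom_ext fun i => by simp [t]
    rw [this]
    rfl
  have hinj : Function.Injective (aeval t : MvPolynomial σ ℝ →ₐ[ℝ] K) := fun p q e => by
    rw [hg, hg] at e
    exact IsFractionRing.injective _ K e
  choose D hD using fun j : σ => exists_der_extend (K' := K)
    ((Algebra.linearMap (MvPolynomial σ ℝ) K).compDer (pderiv j))
  have h0 : 1 + ∑ j, t j ^ 2 ≠ 0 := by
    intro e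
    have h1 : (1 + ∑ j, X j ^ 2 : MvPolynomial σ ℝ) = 0 := hinj (by simpa [map_sum] using e)
    have h2 := congrArg constantCoeff h1
    simp [map_sum] at h2
  let W : K := (1 + ∑ j, t j ^ 2)⁻¹
  let S : Set K := insert W (Set.range fun i => t i * W)
  refine ⟨K, inferInstance, inferInstance, Algebra.adjoin ℝ S, t, D,
    ⟨W, Algebra.subset_adjoin (Or.inl rfl)⟩,
    fun i => ⟨t i * W, Algebra.subset_adjoin (Or.inr ⟨i, rfl⟩)⟩,
    ⟨fun i j => ?_, inv_mul_cancel₀ h0, fun _ => rfl, ?_⟩, hinj, fun x => ?_⟩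
  · rw [hD]
    change algebraMap (MvPolynomial σ ℝ) K (pderiv i (X j)) = _
    rw [pderiv_X, Pi.single_apply]
    by_cases hij : i = j
    · simp [hij]
    · rw [if_neg hij, if_neg (Ne.symm hij), map_zero]
  · rw [eq_top_iff, ← Algebra.adjoin_adjoin_coe_preimage]
    refine Algebra.adjoin_mono ?_
    rintro ⟨x, hx⟩ (rfl | ⟨i, rfl⟩)
    · exact Or.inl rfl
    · exact Or.inr ⟨i, rfl⟩
  · obtain ⟨p, q, hq, rfl⟩ := IsFractionRing.div_surjective (A := MvPolynomial σ ℝ) x
    have hq' : aeval t q ≠ 0 := by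
      rw [hg]
      exact IsFractionRing.to_map_ne_zero_of_mem_nonZeroDivisors hq
    refine ⟨p, q, hq', ?_⟩
    rw [← hg, ← hg, div_mul_cancel₀ _ hq']

end PSph

open PSph in
/-- the one point compactification of affine space -/
theorem exists_sphere (σ : Type) [Fintype σ] [DecidableEq σ] [Nonempty σ] {n : ℕ}
    (e : Fin n ≃ σ) :
    ∃ (K : Type) (_ : Field K) (_ : Algebra ℝ K) (M : Model K n) (t : σ → K) (D : σ → Der K)
      (w : M.B) (u : σ → M.B) (φ : Pt (MvPolynomial σ ℝ) → M.P), Par M.B t D w u ∧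
      BiregBy Set.univ {y | y w ≠ 0} φ (dn w u) ∧
      ∀ x, φ x w * (1 + ∑ j, x (X j) ^ 2) = 1 := by
  obtain ⟨K, _, _, B, t, D, w, u, h, hinj, hf⟩ := exists_par σ
  obtain ⟨φ, hφ, h1⟩ := h.bireg hinj
  refine ⟨K, inferInstance, inferInstance,
    ⟨B, h.fg, h.frac hf, h.cpt, ⟨φ (aeval 0)⟩, fun y => ?_⟩, t, D, w, u, φ, h, hφ, h1⟩
  by_cases hy : y w = 0
  · exact ⟨_, h.inv.crd e (by simp [hy])⟩
  · exact ⟨_, h.crd e hy⟩

open PSph in
/-- a smooth closed subset of a sphere has its Betti numbers as value -/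
theorem val_of_algSm {T : CohF} (hT : T.IsCoh) {σ : Type} [Fintype σ] [Nonempty σ]
    {A : Set (Pt (MvPolynomial σ ℝ))} (hA : ZClosed A) {R : ℝ}
    (hR : ∀ a ∈ A, ∑ j, a (X j) ^ 2 = R) (hs : AlgSm A) :
    Val T A (fun a => T.bt a A) ∧ ∀ a, Module.Finite (ZMod 2) (T.H a _ A) := by
  classical
  let e := (Fintype.equivFin σ).symm
  obtain ⟨K, _, _, M, t, D, w, u, φ, h, hφ, h1⟩ := exists_sphere σ e
  have hb := hφ.restrict (Set.subset_univ A)
  set A' : Set M.P := {y | y w ≠ 0} ∩ dn w u ⁻¹' A with hA'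
  have hcl : ZClosed A' := by
    obtain ⟨F, hF, e1⟩ := hφ.reg'.closed_preimage hA
    have e2 : A' = {y : M.P | y (1 - algebraMap ℝ M.B (1 + R) * w) = 0} ∩ F := by
      ext y
      simp only [Set.mem_inter_iff, Set.mem_ofPred_eq, map_sub, map_one, map_mul,
        AlgHom.commutes, Algebra.algebraMap_self, RingHom.id_apply]
      constructor
      · intro hy
        have h2 := h1 (dn w u y)
        rw [hφ.right y hy.1, hR _ hy.2] at h2
        have h3 : y ∈ {y : M.P | y w ≠ 0} ∩ F := by rw [← e1]; exact hy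
        exact ⟨by linarith, h3.2⟩
      · rintro ⟨h2, h3⟩
        rw [hA', e1]
        refine ⟨fun h4 => ?_, h3⟩
        rw [h4] at h2
        simp at h2
    rw [e2]
    exact (zclosed_zero _).inter hF
  have hsm : M.Sm A' := by
    refine ⟨hcl, fun b hb0 => ?_⟩
    have hbw : b w ≠ 0 := hb0.1
    obtain ⟨ι, _, f, hli, hev⟩ := hs _ hb0.2
    have hκ := h.crd (hB := M.fg) e hbw
    have hz : ∀ i, aeval t (f i) ∈ (M.loc b).m := fun i =>
      ⟨(h.ev_aeval hbw _).1, (h.ev_aeval hbw _).2.trans (((zn_self hev).1 hb0.2) i)⟩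
    obtain ⟨κ', e', hκ', -, he', -, -⟩ := lex_exch (L := M.loc b) (J := Finset.univ)
      (fun i => aeval t (f i)) Finset.univ (fun _ => e.symm (Classical.arbitrary σ)) _ ∅ hκ
      (fun i _ => hκ.I_univ.ge (hz i)) (fun a ha i _ => by
        refine Fintype.linearIndependent_iff.1 hli a ?_ i
        funext j
        have h2 := lex_ev_D_sup hκ (Finset.notMem_empty (e.symm j)) ha
        rw [lex_ev_D_sum hκ _ _ _ _ fun i _ => (hz i).1] at h2
        simp only [Equiv.apply_symm_apply, h.D_aeval, (h.ev_aeval hbw _).2] at h2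
        simpa [Finset.sum_apply] using h2)
    have hsp : (M.loc b).span (Set.range fun i => aeval t (f i)) =
        κ'.I (M.loc b) (Finset.univ.image e') := by
      unfold Chart.I
      congr 1
      ext x
      simp only [Set.mem_range, Finset.coe_image, Finset.coe_univ, Set.image_univ, Set.mem_image]
      constructor
      · rintro ⟨i, rfl⟩
        exact ⟨_, ⟨i, rfl⟩, (he' i (Finset.mem_univ i)).2.2⟩
      · rintro ⟨_, ⟨i, rfl⟩, rfl⟩
        exact ⟨i, (he' i (Finset.mem_univ i)).2.2.symm⟩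
    refine ⟨κ', _, hκ', (Model.span_vanK_eq (Set.finite_range _) ⟨κ', _, hκ', hsp⟩ ?_).trans hsp⟩
    obtain ⟨q, hq, hq'⟩ := eventually_zn.1 hev
    have h2 := Model.sp_unit (M := M) (a := b) (h.ev_aeval hbw q).1
      (by rw [Model.loc, (h.ev_aeval hbw q).2]; exact hq)
    filter_upwards [h2, zn_ne hbw] with y hy1 hy2
    have h3 := hq' (dn w u y) (by rw [← (h.ev_aeval (hB := M.fg) hy2 q).2]; exact hy1.2)
    constructor
    · rintro hy _ ⟨i, rfl⟩
      exact ⟨(h.ev_aeval hy2 _).1, (h.ev_aeval hy2 _).2.trans (h3.1 hy.2 i)⟩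
    · intro hy
      exact ⟨hy2, h3.2 fun i => (h.ev_aeval hy2 _).2.symm.trans (hy _ ⟨i, rfl⟩).2⟩
  constructor
  · have e1 : (fun a => T.bt a A) = fun a => T.bt a A' :=
      funext fun a => T.bt_eq_of_bireg ⟨_, _, hb⟩ a
    rw [e1]
    exact (hsm.val hT).bireg hA.constr ⟨_, _, hb.symm⟩
  · intro a
    have := hsm.finite hT a
    exact Module.Finite.of_surjective (T.res a φ hb.reg.continuousOn hb.maps) fun v =>
      ⟨_, MTop.res_comp_id T a hb.reg.continuousOn hb.reg'.continuousOn hb.maps hb.maps' hb.left v⟩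

end Pool.Agent.MP_696f7f_ag.H96
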