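import Pool.Agent.MP_696f7f_ag.H96.SSpec

/-! Base change to the real numbers. -/

namespace Pool.Agent.MP_696f7f_ag.H96

open AlgebraicGeometry CategoryTheory Limits

variable {k : Type} [Field k] [CharZero k]

theorem isReduced_bc [Algebra k ℝ] (X : Var k) :
    IsReduced (pullback X.s (Spec.map (CommRingCat.ofHom (algebraMap k ℝ)))) := by
  have := SRed.geomRed_field k ℝ
  have : IsLocallyNoetherian X.X := LocallyOfFiniteType.isLocallyNoetherian X.s
  infer_instance

/-- base change to the reals -/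
noncomputable def Var.bc [Algebra k ℝ] (X : Var k) : Var ℝ where
  X := pullback X.s (Spec.map (CommRingCat.ofHom (algebraMap k ℝ)))
  s := pullback.snd _ _
  sep := inferInstance
  lft := inferInstance
  qc := inferInstance
  red := isReduced_bc X

/-- an additive invariant compatible with the affine line and with dimensions -/
structure IsInv (b : Var k → ℕ → ℤ) : Prop where
  iso : ∀ (X Y : Var k) (e : X.X ≅ Y.X), e.hom ≫ Y.s = X.s → b X = b Y
  cut : ∀ (X Z U : Var k) (i : Z.X ⟶ X.X) (j : U.X ⟶ X.X), IsClosedImmersion i →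
    IsOpenImmersion j → i ≫ X.s = Z.s → j ≫ X.s = U.s → Set.range j = (Set.range i)ᶜ →
    b X = b Z + b U
  line : ∀ (X : Var k) (a : ℕ), b (X.prod (Var.line k)) (a + 1) = b X a
  deg : ∀ (X : Var k) (a : ℕ), topologicalKrullDim X.X + 1 < a → b X a = 0

namespace SBase

open TensorProduct

theorem dim_le_of_cover {X : Scheme.{0}} (𝒰 : X.OpenCover) (d : WithBot ℕ∞)
    (h : ∀ i, topologicalKrullDim (𝒰.X i) ≤ d) : topologicalKrullDim X ≤ d := by
  rw [topologicalKrullDim, Order.krullDim_eq_iSup_coheight]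
  refine iSup_le fun Z => ?_
  obtain ⟨x, hx⟩ := Z.isIrreducible.nonempty
  obtain ⟨i, y, rfl⟩ := 𝒰.exists_eq x
  have hf := (𝒰.f i).isOpenEmbedding
  let e := TopologicalSpace.IrreducibleCloseds.orderIsoOfIsOpenEmbedding (𝒰.f i) hf
  have h1 : TopologicalSpace.IrreducibleCloseds.map (𝒰.f i) hf.continuous
      (e.symm ⟨Z, y, hx⟩) = Z := congrArg Subtype.val (e.apply_symm_apply ⟨Z, y, hx⟩)
  rw [← h1, hf.coheight_map]
  exact (Order.coheight_le_krullDim _).trans (h i)

theorem dim_le_of_integral (A B : Type) [CommRing A] [CommRing B] [Algebra A B]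
    [Algebra.IsIntegral A B] : ringKrullDim B ≤ ringKrullDim A :=
  Order.krullDim_le_of_strictMono (PrimeSpectrum.comap (algebraMap A B))
    fun _ _ h => Ideal.IsIntegral.comap_lt_comap h

theorem dim_ge_of_integral (A B : Type) [CommRing A] [CommRing B] [Algebra A B]
    [Algebra.IsIntegral A B] [FaithfulSMul A B] : ringKrullDim A ≤ ringKrullDim B := by
  refine iSup_le fun l => ?_
  obtain ⟨P, hP⟩ := Algebra.IsIntegral.comap_surjective A B l.head
  have : P.asIdeal.LiesOver l.head.asIdeal := ⟨(congrArg PrimeSpectrum.asIdeal hP).symm⟩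
  obtain ⟨L, hL, -⟩ := Ideal.exists_ltSeries_of_hasGoingUp l P.asIdeal
  rw [← hL]
  exact Order.LTSeries.length_le_krullDim L

theorem dim_bc_finite (A B C : Type) [CommRing A] [CommRing B] [CommRing C] [Algebra A B]
    [Algebra A C] [Module.Finite A B] : ringKrullDim (B ⊗[A] C) ≤ ringKrullDim C :=
  (ringKrullDim_eq_of_ringEquiv (Algebra.TensorProduct.comm A B C).toRingEquiv).le.trans
    (dim_le_of_integral C (C ⊗[A] B))

theorem dim_tower (R A B L : Type) [CommRing R] [CommRing A] [CommRing B] [CommRing L]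
    [Algebra R A] [Algebra R B] [Algebra A B] [IsScalarTower R A B] [Algebra R L]
    [Module.Finite A B] : ringKrullDim (B ⊗[R] L) ≤ ringKrullDim (A ⊗[R] L) :=
  (ringKrullDim_eq_of_ringEquiv
    (Algebra.TensorProduct.cancelBaseChange R A A B L).toRingEquiv).ge.trans
    (dim_bc_finite A B (A ⊗[R] L))

omit [CharZero k] in
theorem dim_tensor_le (B L : Type) [CommRing B] [Algebra k B] [Algebra.FiniteType k B] [Field L]
    [Algebra k L] : ringKrullDim (B ⊗[k] L) ≤ ringKrullDim B := by
  rcases subsingleton_or_nontrivial B with hB | hB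
  · rw [ringKrullDim_eq_bot_of_subsingleton]
    exact bot_le
  obtain ⟨s, g, hg, hfin⟩ := exists_finite_inj_algHom_of_fg k B
  let A := MvPolynomial (Fin s) k
  let _ : Algebra A B := g.toRingHom.toAlgebra
  have : IsScalarTower k A B := IsScalarTower.of_algebraMap_eq fun a => (g.commutes a).symm
  have : Module.Finite A B := hfin
  have : FaithfulSMul A B := (faithfulSMul_iff_algebraMap_injective A B).mpr hg
  have e2 : A ⊗[k] L ≃+* MvPolynomial (Fin s) L :=
    (Algebra.TensorProduct.comm k A L).toRingEquiv.trans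
      (MvPolynomial.algebraTensorAlgEquiv k L).toRingEquiv
  calc ringKrullDim (B ⊗[k] L) ≤ ringKrullDim (A ⊗[k] L) := dim_tower k A B L
    _ = ringKrullDim A := by
        rw [ringKrullDim_eq_of_ringEquiv e2, MvPolynomial.ringKrullDim_of_isNoetherianRing,
          MvPolynomial.ringKrullDim_of_isNoetherianRing, ringKrullDim_eq_zero_of_field,
          ringKrullDim_eq_zero_of_field]
    _ ≤ ringKrullDim B := dim_ge_of_integral A B

omit [CharZero k] in
theorem dim_aff (L : Type) [Field L] [Algebra k L] (R : CommRingCat.{0})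
    (f : Spec R ⟶ Spec (.of k)) [LocallyOfFiniteType f] :
    topologicalKrullDim (pullback f (Spec.map (CommRingCat.ofHom (algebraMap k L))) : Scheme) ≤
      topologicalKrullDim (Spec R) := by
  obtain ⟨φ, rfl⟩ := Spec.map_surjective f
  have hφ : φ.hom.FiniteType :=
    (HasRingHomProperty.Spec_iff (P := @LocallyOfFiniteType)).mp inferInstance
  let _ : Algebra k R := φ.hom.toAlgebra
  have : Algebra.FiniteType k R := hφ
  have h1 := IsHomeomorph.topologicalKrullDim_eq _
    (pullbackSpecIso k R L).hom.homeomorph.isHomeomorph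
  have h2 : topologicalKrullDim (Spec (.of (R ⊗[k] L))) = ringKrullDim (R ⊗[k] L) :=
    PrimeSpectrum.topologicalKrullDim_eq_ringKrullDim _
  have h3 : topologicalKrullDim (Spec R) = ringKrullDim R :=
    PrimeSpectrum.topologicalKrullDim_eq_ringKrullDim _
  exact (h1.trans h2).le.trans ((dim_tensor_le R L).trans h3.ge)

theorem map_snd {S T A B : Scheme.{0}} (f : A ⟶ S) (f' : B ⟶ S) (g : T ⟶ S) (i : A ⟶ B)
    (e₁ : f ≫ 𝟙 S = i ≫ f') (e₂ : g ≫ 𝟙 S = 𝟙 T ≫ g) :
    pullback.map f g f' g i (𝟙 _) (𝟙 _) e₁ e₂ ≫ pullback.snd f' g = pullback.snd f g := by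
  rw [pullback.map, pullback.lift_snd, Category.comp_id]

theorem exists_iso {S T X A A' : Scheme.{0}} (f : X ⟶ S) (g : T ⟶ S) (l : A ⟶ S) (l' : A' ⟶ T)
    (m : A' ⟶ A) (h : IsPullback m l' l g) :
    ∃ e : pullback (pullback.fst f l ≫ f) g ≅ pullback (pullback.snd f g) l',
      e.hom ≫ pullback.fst (pullback.snd f g) l' ≫ pullback.snd f g = pullback.snd _ _ := by
  have h1 : IsPullback (pullback.fst (pullback.snd f g) l' ≫ pullback.fst f g)
      (pullback.snd (pullback.snd f g) l') f (l' ≫ g) :=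
    ((IsPullback.of_hasPullback (pullback.snd f g) l').flip.paste_vert
      (IsPullback.of_hasPullback f g).flip).flip
  rw [← h.w] at h1
  have w : (pullback.fst (pullback.snd f g) l' ≫ pullback.fst f g) ≫ f =
      (pullback.snd (pullback.snd f g) l' ≫ m) ≫ l := by rw [h1.w, Category.assoc]
  have h2 : IsPullback (pullback.lift _ _ w) (pullback.snd (pullback.snd f g) l')
      (pullback.snd f l) m := by
    refine IsPullback.of_right (h₁₂ := pullback.fst f l) (v₁₃ := f) (h₂₂ := l) ?_
      (pullback.lift_snd _ _ _) (IsPullback.of_hasPullback f l)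
    rwa [pullback.lift_fst]
  have h3 := h2.paste_vert h
  rw [← pullback.condition, ← pullback.condition] at h3
  exact ⟨h3.isoPullback.symm, h3.isoPullback_inv_snd⟩

end SBase

theorem dim_bc_le [Algebra k ℝ] (X : Var k) :
    topologicalKrullDim X.bc.X ≤ topologicalKrullDim X.X := by
  refine SBase.dim_le_of_cover
    (Scheme.Pullback.openCoverOfLeft X.X.affineOpenCover.openCover X.s _) _ fun i => ?_
  refine (SBase.dim_aff ℝ (X.X.affineOpenCover.X i) (X.X.affineOpenCover.f i ≫ X.s)).trans ?_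
  exact (X.X.affineOpenCover.f i).isOpenEmbedding.isInducing.topologicalKrullDim_le

theorem isInv_bc [Algebra k ℝ] {β : BetaFun} {b : Var ℝ → ℕ → ℤ} (hb : IsBetaV β b) :
    IsInv (fun X : Var k => b X.bc) := by
  let g : Spec (.of ℝ) ⟶ Spec (.of k) := Spec.map (CommRingCat.ofHom (algebraMap k ℝ))
  refine ⟨fun X Y e he => ?_, fun X Z U i j hi hj his hjs hc => ?_, fun X a => ?_,
    fun X a h => hb.deg _ _ (lt_of_le_of_lt (add_le_add (dim_bc_le X) le_rfl) h)⟩
  · have : IsIso (pullback.map X.s g Y.s g e.hom (𝟙 _) (𝟙 _) (by simp [he]) (by simp)) :=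
      pullback.map_isIso _ _ _ _ _ _ _ _ _
    exact hb.iso X.bc Y.bc (@asIso _ _ _ _ _ this) (SBase.map_snd _ _ _ _ (by simp [he]) (by simp))
  · refine hb.cut X.bc Z.bc U.bc
      (pullback.map Z.s g X.s g i (𝟙 _) (𝟙 _) (by simp [his]) (by simp))
      (pullback.map U.s g X.s g j (𝟙 _) (𝟙 _) (by simp [hjs]) (by simp)) ?_ ?_ ?_ ?_ ?_
    · exact MorphismProperty.pullbackMap (P := @IsClosedImmersion) hi inferInstance
        his.symm (by simp)
    · exact MorphismProperty.pullbackMap (P := @IsOpenImmersion) hj inferInstance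
        hjs.symm (by simp)
    · exact SBase.map_snd _ _ _ _ _ _
    · exact SBase.map_snd _ _ _ _ _ _
    · have h1 := Scheme.Pullback.range_map U.s g X.s g j (𝟙 _) (𝟙 _) (by simp [hjs]) (by simp)
      have h2 := Scheme.Pullback.range_map Z.s g X.s g i (𝟙 _) (𝟙 _) (by simp [his]) (by simp)
      refine h1.trans (Eq.trans ?_ (congrArg compl h2).symm)
      have h3 : Set.range (𝟙 (Spec (.of ℝ)) : Spec (.of ℝ) ⟶ Spec (.of ℝ)) = Set.univ := by simp
      rw [hc, h3, Set.preimage_univ, Set.inter_univ, Set.inter_univ]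
      rfl
  · let _ : Algebra (Polynomial k) (Polynomial ℝ) := Polynomial.algebra k ℝ
    have hp := isPullback_SpecMap_of_isPushout _ _ _ _
      (CommRingCat.isPushout_of_isPushout k ℝ (Polynomial k) (Polynomial ℝ))
    obtain ⟨e, he⟩ := SBase.exists_iso X.s g (Var.line k).s (Var.line ℝ).s _ hp.flip
    rw [← hb.line X.bc a]
    exact congrFun (hb.iso (X.prod (Var.line k)).bc (X.bc.prod (Var.line ℝ)) e he) (a + 1)

end Pool.Agent.MP_696f7f_ag.H96
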