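import Pool.Agent.MP_696f7f_ag.H96.SSpec
import Pool.Agent.MP_696f7f_ag.H75.Pts

/-! The bridge from real points of algebras to real varieties. -/

namespace Pool.Agent.MP_696f7f_ag.H75

open Pool.Agent.MP_696f7f_ag.H96 AlgebraicGeometry CategoryTheory Limits TopologicalSpace

noncomputable section

/-- the chart given by an immersion of an affine scheme -/
def mkChart {X : Scheme.{0}} {s : X ⟶ Spec (.of ℝ)} (B : Type) [CommRing B] [Algebra ℝ B]
    [Algebra.FiniteType ℝ B] (g : Spec (.of B) ⟶ X) [IsImmersion g] (hg : g ≫ s = str B) :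
    Chart (RP s) where
  B := B
  c := fun x => RP.map g hg (toRP x)
  inj := (RP.map_injective g hg).comp toRP_bijective.1

theorem isChart_mk {X : Scheme.{0}} {s : X ⟶ Spec (.of ℝ)} (B : Type) [CommRing B] [Algebra ℝ B]
    [Algebra.FiniteType ℝ B] (g : Spec (.of B) ⟶ X) [hi : IsImmersion g] (hg : g ≫ s = str B) :
    IsChart s (mkChart B g hg) := ⟨g, hg, hi, fun _ => rfl⟩

theorem range_mk {X : Scheme.{0}} {s : X ⟶ Spec (.of ℝ)} (B : Type) [CommRing B] [Algebra ℝ B]
    [Algebra.FiniteType ℝ B] (g : Spec (.of B) ⟶ X) [hi : IsImmersion g] (hg : g ≫ s = str B) :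
    Set.range (mkChart B g hg).c = {z | z.1 pt0 ∈ Set.range g} :=
  @range_chart _ _ (mkChart B g hg) g hg hi fun _ => rfl

theorem exists_chart {X : Scheme.{0}} (s : X ⟶ Spec (.of ℝ)) [LocallyOfFiniteType s]
    {R : CommRingCat.{0}} (g : Spec R ⟶ X) [IsOpenImmersion g] :
    ∃ G : Chart (RP s), IsChart s G ∧ Set.range G.c = {z | z.1 pt0 ∈ Set.range g} := by
  obtain ⟨φ, hφ⟩ := Spec.map_surjective (g ≫ s)
  have hl : LocallyOfFiniteType (Spec.map φ) := by rw [hφ]; infer_instance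
  rw [HasRingHomProperty.Spec_iff (P := @LocallyOfFiniteType)] at hl
  let : Algebra ℝ R := φ.hom.toAlgebra
  have : Algebra.FiniteType ℝ R := hl
  have hg : g ≫ s = str R := hφ.symm
  exact ⟨mkChart R g hg, isChart_mk R g hg, range_mk R g hg⟩

theorem exists_cover (X : Var ℝ) :
    ∃ L : List (Chart (RP X.s)), (∀ G ∈ L, IsChart X.s G) ∧ Covers L Set.univ := by
  have : CompactSpace X.X := QuasiCompact.compactSpace_of_compactSpace X.s
  let 𝒰 := X.X.affineCover.finiteSubcover
  have H : ∀ i : 𝒰.I₀, ∃ G : Chart (RP X.s), IsChart X.s G ∧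
      Set.range G.c = {z | z.1 pt0 ∈ Set.range (𝒰.f i)} := fun i =>
    @exists_chart _ X.s _ _ (X.X.affineCover.f _) (X.X.affineCover.map_prop _)
  choose G hG hr using H
  refine ⟨(Finset.univ : Finset 𝒰.I₀).toList.map G, ?_, fun z _ => ?_⟩
  · intro G' hG'
    obtain ⟨i, -, rfl⟩ := List.mem_map.mp hG'
    exact hG i
  · obtain ⟨i, y, hy⟩ := 𝒰.exists_eq (z.1 pt0)
    refine ⟨G i, List.mem_map.mpr ⟨i, by simp, rfl⟩, ?_⟩
    rw [hr]
    exact ⟨y, hy⟩

/-- a chosen finite cover by charts -/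
def cov (X : Var ℝ) : List (Chart (RP X.s)) := (exists_cover X).choose

theorem cov_chart (X : Var ℝ) : ∀ G ∈ cov X, G ∈ {G | IsChart X.s G} :=
  (exists_cover X).choose_spec.1

theorem cov_covers (X : Var ℝ) (T : Set (RP X.s)) : Covers (cov X) T :=
  (exists_cover X).choose_spec.2.mono (Set.subset_univ T)

/-- the invariant of a variety -/
def bV (β : BetaFun) (X : Var ℝ) : ℕ → ℤ := bL β (cov X) Set.univ

variable {β : BetaFun}

theorem isChart_map {X Y : Scheme.{0}} {s : X ⟶ Spec (.of ℝ)} {t : Y ⟶ Spec (.of ℝ)}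
    (h : Y ⟶ X) [IsImmersion h] (hh : h ≫ s = t) {G : Chart (RP t)} (hG : IsChart t G) :
    IsChart s (G.map (RP.map h hh) (RP.map_injective h hh)) := by
  obtain ⟨g, hg, hi, e⟩ := hG
  refine ⟨g ≫ h, by rw [Category.assoc, hh]; exact hg, inferInstanceAs (IsImmersion (g ≫ h)),
    fun x => ?_⟩
  show RP.map h hh (G.c x) = _
  rw [e]
  exact Subtype.ext (Category.assoc _ _ _)

theorem bV_imm (hβ : IsBeta β) (X Z : Var ℝ) (h : Z.X ⟶ X.X) [IsImmersion h]
    (hh : h ≫ X.s = Z.s) : bV β Z = bL β (cov X) {z | z.1 pt0 ∈ Set.range h} := by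
  rw [bV, ← bL_map (RP.map h hh) (RP.map_injective h hh), Set.image_univ, RP.range_map]
  refine bL_indep hβ (atlas X.s) _ _ ?_ (cov_chart X)
    (ct_locallyClosed X.s _ h.isLocallyClosed_range) ?_ (cov_covers X _)
  · intro G hG
    obtain ⟨G', hG', rfl⟩ := List.mem_map.mp hG
    exact isChart_map h hh (cov_chart Z G' hG')
  · intro z hz
    rw [← RP.range_map h hh] at hz
    obtain ⟨w, rfl⟩ := hz
    obtain ⟨G, hG, x, rfl⟩ := cov_covers Z Set.univ w trivial
    exact ⟨_, List.mem_map.mpr ⟨G, hG, rfl⟩, x, rfl⟩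

theorem bV_single (hβ : IsBeta β) (X : Var ℝ) (G : Chart (RP X.s)) (hG : IsChart X.s G)
    (hr : Function.Surjective G.c) : bV β X = β G.B Set.univ := by
  rw [bV, bL_sub hβ (atlas X.s) _ (cov_chart X) hG (CT.univ _) (fun z _ => hr z) (cov_covers X _),
    Set.preimage_univ]

theorem isPullback_poly (B : Type) [CommRing B] [Algebra ℝ B] :
    IsPullback (Spec.map (CommRingCat.ofHom (Polynomial.C : B →+* Polynomial B)))
      (Spec.map (CommRingCat.ofHom (Polynomial.mapRingHom (algebraMap ℝ B)))) (str B)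
      (str (Polynomial ℝ)) := by
  algebraize [Polynomial.mapRingHom (algebraMap ℝ B)]
  exact isPullback_SpecMap_of_isPushout _ _ _ _
    (CommRingCat.isPushout_of_isPushout ℝ B (Polynomial ℝ) (Polynomial B))

theorem exists_chart_line (X : Var ℝ) (G : Chart (RP X.s)) (hG : IsChart X.s G) :
    ∃ (c : Pt (Polynomial G.B) → RP (X.prod (Var.line ℝ)).s) (hc : Function.Injective c),
      IsChart _ (G.poly c hc) ∧
      (∀ x, RP.map (pullback.fst X.s (Var.line ℝ).s) rfl (c x) = G.c (basePt x)) ∧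
      ∀ z, RP.map (pullback.fst X.s (Var.line ℝ).s) rfl z ∈ Set.range G.c → z ∈ Set.range c := by
  obtain ⟨g, hg, hi, e⟩ := hG
  have hp := isPullback_poly G.B
  let g' : Spec (.of (Polynomial G.B)) ⟶ pullback X.s (Var.line ℝ).s :=
    pullback.lift (Spec.map (CommRingCat.ofHom (Polynomial.C : G.B →+* Polynomial G.B)) ≫ g)
      (Spec.map (CommRingCat.ofHom (Polynomial.mapRingHom (algebraMap ℝ G.B))))
      (by rw [Category.assoc, hg]; exact hp.w)
  have h1 : g' ≫ pullback.fst _ _ =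
      Spec.map (CommRingCat.ofHom (Polynomial.C : G.B →+* Polynomial G.B)) ≫ g :=
    pullback.lift_fst _ _ _
  have h2 : g' ≫ pullback.snd _ _ =
      Spec.map (CommRingCat.ofHom (Polynomial.mapRingHom (algebraMap ℝ G.B))) :=
    pullback.lift_snd _ _ _
  have hq : IsPullback g' (Spec.map (CommRingCat.ofHom (Polynomial.C : G.B →+* Polynomial G.B)))
      (pullback.fst X.s (Var.line ℝ).s) g := by
    refine IsPullback.of_right ?_ h1 (IsPullback.of_hasPullback X.s (Var.line ℝ).s).flip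
    rw [h2, hg]
    exact hp.flip
  have hi' : IsImmersion g' := MorphismProperty.of_isPullback hq.flip hi
  have hg' : g' ≫ (X.prod (Var.line ℝ)).s = str (Polynomial G.B) := by
    show g' ≫ pullback.fst _ _ ≫ X.s = _
    rw [← Category.assoc, h1, Category.assoc, hg, ← Spec.map_comp]
    rfl
  refine ⟨(@mkChart _ (X.prod (Var.line ℝ)).s _ _ _ _ g' hi' hg').c,
    (@mkChart _ (X.prod (Var.line ℝ)).s _ _ _ _ g' hi' hg').inj,
    @isChart_mk _ (X.prod (Var.line ℝ)).s _ _ _ _ g' hi' hg', fun x => ?_, fun z hz => ?_⟩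
  · rw [e]
    apply Subtype.ext
    show ((toRP x).1 ≫ g') ≫ pullback.fst _ _ = (toRP (basePt x)).1 ≫ g
    rw [Category.assoc, h1, ← Category.assoc]
    congr 1
    exact (Spec.map_comp _ _).symm
  · obtain ⟨b, hb⟩ := hz
    rw [e] at hb
    have hb' : (toRP b).1 ≫ g = z.1 ≫ pullback.fst _ _ := congrArg Subtype.val hb
    have hw : hq.lift z.1 (toRP b).1 hb'.symm ≫ g' = z.1 := hq.lift_fst _ _ _
    obtain ⟨x, hx⟩ := (toRP_bijective (B := Polynomial G.B)).2
      ⟨hq.lift z.1 (toRP b).1 hb'.symm, by rw [← hg', ← Category.assoc, hw]; exact z.2⟩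
    refine ⟨x, Subtype.ext ?_⟩
    show (toRP x).1 ≫ g' = z.1
    rw [hx]
    exact hw

theorem bV_line (hβ : IsBeta β) (X : Var ℝ) : bV β (X.prod (Var.line ℝ)) 0 = 0 ∧
    ∀ a, bV β (X.prod (Var.line ℝ)) (a + 1) = bV β X a := by
  choose c hc hch h1 h2 using fun G : {G // G ∈ cov X} =>
    exists_chart_line X G.1 (cov_chart X G.1 G.2)
  have H := bL_line hβ (atlas X.s) (RP.map (t := (X.prod (Var.line ℝ)).s)
    (pullback.fst X.s (Var.line ℝ).s) rfl) Subtype.val c hc h1 h2 (cov X).attach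
    (fun G _ => cov_chart X G.1 G.2) (CT.univ _)
  rw [Set.preimage_univ, List.attach_map_subtype_val] at H
  have e : bV β (X.prod (Var.line ℝ)) =
      bL β ((cov X).attach.map fun G => G.1.poly (c G) (hc G)) Set.univ := by
    refine bL_indep hβ (atlas _) _ _ (cov_chart _) ?_ (CT.univ _) (cov_covers _ _) ?_
    · intro G hG
      obtain ⟨G', -, rfl⟩ := List.mem_map.mp hG
      exact hch G'
    · intro z _
      obtain ⟨G, hG, hz⟩ := cov_covers X Set.univ
        (RP.map (pullback.fst X.s (Var.line ℝ).s) rfl z) trivial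
      exact ⟨_, List.mem_map.mpr ⟨⟨G, hG⟩, List.mem_attach _ _, rfl⟩, h2 ⟨G, hG⟩ z hz⟩
  rw [e]
  exact H

theorem isBetaV (hβ : IsBeta β) : IsBetaV β (bV β) where
  iso X Y e he := by
    rw [bV_imm hβ Y X e.hom he, bV]
    congr 1
    exact Set.eq_univ_of_forall fun z => e.hom.surjective _
  cut X Z U i j hi hj his hjs hr := by
    rw [bV_imm hβ X Z i his, bV_imm hβ X U j hjs, ← bL_union hβ (atlas X.s) _ (cov_chart X)
      (ct_locallyClosed X.s _ i.isLocallyClosed_range)
      (ct_locallyClosed X.s _ j.isLocallyClosed_range), bV]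
    · congr 1
      rw [hr]
      exact (Set.eq_univ_of_forall fun z => em _).symm
    · rw [hr]
      exact Set.disjoint_left.mpr fun z h1 h2 => h2 h1
  line0 X := (bV_line hβ X).1
  line X := (bV_line hβ X).2
  deg X a ha := by
    refine bL_deg hβ (atlas X.s) _ (cov_chart X) (CT.univ _) a fun G hG => ?_
    obtain ⟨g, -, hi, -⟩ := cov_chart X G hG
    have h := g.isEmbedding.isInducing.topologicalKrullDim_le
    have e : topologicalKrullDim (Spec (.of G.B)) = ringKrullDim G.B :=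
      PrimeSpectrum.topologicalKrullDim_eq_ringKrullDim G.B
    rw [e] at h
    exact lt_of_le_of_lt (add_le_add_left h 1) ha
  aff X B _ _ _ e he := by
    have hg : e.inv ≫ X.s = str B := by rw [← he, Iso.inv_hom_id_assoc]
    refine bV_single hβ X (mkChart B e.inv hg) (isChart_mk B e.inv hg) ?_
    rw [← Set.range_eq_univ, range_mk B e.inv hg]
    exact Set.eq_univ_of_forall fun z => e.inv.surjective _
  nopt X h := by
    have e : (Set.univ : Set (RP X.s)) = ∅ :=
      Set.eq_empty_of_forall_notMem fun z _ => h z.1 z.2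
    rw [bV, e, bL_empty hβ]
  onept X h a := by
    obtain ⟨p, hp, hu⟩ := h
    have hz : ∀ z : RP X.s, z = ⟨p, hp⟩ := fun z => Subtype.ext (hu z.1 z.2)
    obtain ⟨G, hG, b, hb⟩ := cov_covers X Set.univ ⟨p, hp⟩ trivial
    rw [bV_single hβ X G (cov_chart X G hG) fun z => ⟨b, hb.trans (hz z).symm⟩,
      beta_single hβ G.B b fun x => G.inj ((hz _).trans hb.symm)]
    exact hβ.pt a

end

end Pool.Agent.MP_696f7f_ag.H75

namespace Pool.Agent.MP_696f7f_ag.H96

theorem bridgeStmt : BridgeStmt := fun β hβ => ⟨H75.bV β, H75.isBetaV hβ⟩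

end Pool.Agent.MP_696f7f_ag.H96
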