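import Pool.Agent.MP_696f7f_ag.H96.SVar
import Pool.Agent.MP_696f7f_ag.H96.Beta

/-! Virtual Betti numbers of real varieties: the interface. -/

namespace Pool.Agent.MP_696f7f_ag.H96

open AlgebraicGeometry CategoryTheory Limits

/-- `b` is the extension of the virtual Betti numbers `β` to real varieties -/
structure IsBetaV (β : BetaFun) (b : Var ℝ → ℕ → ℤ) : Prop where
  iso : ∀ (X Y : Var ℝ) (e : X.X ≅ Y.X), e.hom ≫ Y.s = X.s → b X = b Y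
  cut : ∀ (X Z U : Var ℝ) (i : Z.X ⟶ X.X) (j : U.X ⟶ X.X), IsClosedImmersion i →
    IsOpenImmersion j → i ≫ X.s = Z.s → j ≫ X.s = U.s → Set.range j = (Set.range i)ᶜ →
    b X = b Z + b U
  line0 : ∀ X : Var ℝ, b (X.prod (Var.line ℝ)) 0 = 0
  line : ∀ (X : Var ℝ) (a : ℕ), b (X.prod (Var.line ℝ)) (a + 1) = b X a
  deg : ∀ (X : Var ℝ) (a : ℕ), topologicalKrullDim X.X + 1 < a → b X a = 0
  aff : ∀ (X : Var ℝ) (B : Type) [CommRing B] [Algebra ℝ B] [Algebra.FiniteType ℝ B]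
    (e : X.X ≅ Spec (.of B)),
    e.hom ≫ Spec.map (CommRingCat.ofHom (algebraMap ℝ B)) = X.s → b X = β B Set.univ
  nopt : ∀ X : Var ℝ, (∀ p : Spec (.of ℝ) ⟶ X.X, p ≫ X.s ≠ 𝟙 _) → b X = 0
  onept : ∀ X : Var ℝ, (∃! p : Spec (.of ℝ) ⟶ X.X, p ≫ X.s = 𝟙 _) → ∀ a, b X (a + 1) = 0

/-- the bridge from real points to schemes -/
def BridgeStmt : Prop := ∀ β : BetaFun, IsBeta β → ∃ b, IsBetaV β b

/-- the anisotropic quadric and the sphere quadric -/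
def QuadStmt : Prop := ∀ (β : BetaFun) (b : Var ℝ → ℕ → ℤ), IsBeta β → IsBetaV β b →
  ∀ n : ℕ, ∃ Q S : Var ℝ, IsSmoothHyp (n + 1) 2 Q ∧ IsSmoothHyp (n + 1) 2 S ∧
    (1 ≤ n → b S n = b Q n + 1)

end Pool.Agent.MP_696f7f_ag.H96
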