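import Pool.Agent.MP_696f7f_ag.H96.SK0
import Pool.Agent.MP_696f7f_ag.H96.SSpec

/-! From virtual Betti numbers to non-convergence. -/

namespace Pool.Agent.MP_696f7f_ag.H96

noncomputable section

variable {β : BetaFun} {b : Var ℝ → ℕ → ℤ}

/-- the virtual Betti numbers on the Grothendieck group -/
def bK (h : IsBetaV β b) : K0 ℝ →+ (ℕ → ℤ) :=
  K0.lift b fun x hx => by
    cases hx with
    | iso X Y e he =>
      rw [map_sub, FreeAbelianGroup.lift_apply_of, FreeAbelianGroup.lift_apply_of, sub_eq_zero]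
      exact h.iso X Y e he
    | cut X Z U i j hi hj his hjs hc =>
      rw [map_sub, map_sub, FreeAbelianGroup.lift_apply_of, FreeAbelianGroup.lift_apply_of,
        FreeAbelianGroup.lift_apply_of, sub_sub, sub_eq_zero]
      exact h.cut X Z U i j hi hj his hjs hc

theorem bK_cls (h : IsBetaV β b) (X : Var ℝ) : bK h (cls X) = b X := K0.lift_cls _ _ X

theorem bK_mul_Lef (h : IsBetaV β b) (x : K0 ℝ) (a : ℕ) :
    bK h (x * Lef ℝ) (a + 1) = bK h x a := by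
  induction x using K0.induction with
  | h0 => simp
  | hn x hx => simp [hx]
  | ha x y hx hy => simp [add_mul, hx, hy]
  | hc X => rw [Lef, cls_mul, bK_cls, bK_cls, h.line]

theorem bK_mul_pow (h : IsBetaV β b) (x : K0 ℝ) (a j : ℕ) :
    bK h (x * Lef ℝ ^ j) (a + j) = bK h x a := by
  induction j with
  | zero => simp
  | succ j ih => rw [pow_succ, ← mul_assoc, ← add_assoc, bK_mul_Lef, ih]

theorem inv_pow_mul (i : ℕ) :
    (IsLocalization.Away.invSelf (Lef ℝ) : Mk ℝ) ^ i * algebraMap (K0 ℝ) (Mk ℝ) (Lef ℝ ^ i) = 1 := by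
  rw [map_pow, ← mul_pow, mul_comm, IsLocalization.Away.mul_invSelf, one_pow]

theorem exists_rep (z : Mk ℝ) : ∃ p : K0 ℝ × ℕ,
    z = algebraMap (K0 ℝ) (Mk ℝ) p.1 * IsLocalization.Away.invSelf (Lef ℝ) ^ p.2 := by
  obtain ⟨n, a, ha⟩ := IsLocalization.Away.surj (Lef ℝ) z
  refine ⟨(a, n), ?_⟩
  rw [← ha, ← map_pow, mul_assoc, mul_comm (algebraMap _ _ _), inv_pow_mul, mul_one]

theorem rep_indep (h : IsBetaV β b) {x x' : K0 ℝ} {i i' : ℕ}
    (e : algebraMap (K0 ℝ) (Mk ℝ) x * IsLocalization.Away.invSelf (Lef ℝ) ^ i =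
      algebraMap (K0 ℝ) (Mk ℝ) x' * IsLocalization.Away.invSelf (Lef ℝ) ^ i') :
    bK h x i = bK h x' i' := by
  have e2 : algebraMap (K0 ℝ) (Mk ℝ) (x * Lef ℝ ^ i') =
      algebraMap (K0 ℝ) (Mk ℝ) (x' * Lef ℝ ^ i) := by
    rw [map_mul, map_mul]
    calc algebraMap (K0 ℝ) (Mk ℝ) x * algebraMap (K0 ℝ) (Mk ℝ) (Lef ℝ ^ i')
        = algebraMap (K0 ℝ) (Mk ℝ) x * (IsLocalization.Away.invSelf (Lef ℝ) ^ i *
            algebraMap (K0 ℝ) (Mk ℝ) (Lef ℝ ^ i)) * algebraMap (K0 ℝ) (Mk ℝ) (Lef ℝ ^ i') := by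
          rw [inv_pow_mul, mul_one]
      _ = algebraMap (K0 ℝ) (Mk ℝ) x' * (IsLocalization.Away.invSelf (Lef ℝ) ^ i' *
            algebraMap (K0 ℝ) (Mk ℝ) (Lef ℝ ^ i')) * algebraMap (K0 ℝ) (Mk ℝ) (Lef ℝ ^ i) := by
          rw [← mul_assoc, e]; ring
      _ = _ := by rw [inv_pow_mul, mul_one]
  obtain ⟨j, hj⟩ := IsLocalization.Away.exists_of_eq (Lef ℝ) e2
  have e3 : x * Lef ℝ ^ (i' + j) = x' * Lef ℝ ^ (i + j) := by
    rw [pow_add, pow_add, ← mul_assoc, ← mul_assoc, mul_comm _ (Lef ℝ ^ j), hj, mul_comm]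
  rw [← bK_mul_pow h x i (i' + j), e3, ← bK_mul_pow h x' i' (i + j), add_left_comm]

/-- the top virtual Betti number of a normalised class -/
def phi0 (h : IsBetaV β b) (z : Mk ℝ) : ℤ :=
  bK h (exists_rep z).choose.1 (exists_rep z).choose.2

theorem phi0_rep (h : IsBetaV β b) (x : K0 ℝ) (i : ℕ) :
    phi0 h (algebraMap (K0 ℝ) (Mk ℝ) x * IsLocalization.Away.invSelf (Lef ℝ) ^ i) = bK h x i :=
  rep_indep h (exists_rep _).choose_spec.symm

/-- the same, as an additive map -/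
def phi (h : IsBetaV β b) : Mk ℝ →+ ℤ :=
  AddMonoidHom.mk' (phi0 h) fun z w => by
    obtain ⟨⟨x, i⟩, rfl⟩ := exists_rep z
    obtain ⟨⟨y, j⟩, rfl⟩ := exists_rep w
    have e : algebraMap (K0 ℝ) (Mk ℝ) x * IsLocalization.Away.invSelf (Lef ℝ) ^ i +
        algebraMap (K0 ℝ) (Mk ℝ) y * IsLocalization.Away.invSelf (Lef ℝ) ^ j =
        algebraMap (K0 ℝ) (Mk ℝ) (x * Lef ℝ ^ j + y * Lef ℝ ^ i) *
          IsLocalization.Away.invSelf (Lef ℝ) ^ (i + j) := by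
      rw [map_add, map_mul, map_mul, pow_add]
      linear_combination
        (-(algebraMap (K0 ℝ) (Mk ℝ) x * IsLocalization.Away.invSelf (Lef ℝ) ^ i)) * inv_pow_mul j -
        (algebraMap (K0 ℝ) (Mk ℝ) y * IsLocalization.Away.invSelf (Lef ℝ) ^ j) * inv_pow_mul i
    simp only
    rw [e, phi0_rep, phi0_rep, phi0_rep, map_add, Pi.add_apply, bK_mul_pow, add_comm i j,
      bK_mul_pow]

theorem phi_clsM (h : IsBetaV β b) (X : Var ℝ) (i : ℕ) : phi h (clsM X i) = b X i := by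
  change phi0 h (clsM X i) = _
  rw [clsM, phi0_rep, bK_cls]

theorem phi_fil (h : IsBetaV β b) {z : Mk ℝ} (hz : z ∈ Fil ℝ 2) : phi h z = 0 := by
  refine (AddSubgroup.closure_le (phi h).ker).mpr ?_ hz
  rintro _ ⟨X, i, hi, rfl⟩
  change phi h (clsM X i) = 0
  rw [phi_clsM]
  refine h.deg X i ?_
  generalize topologicalKrullDim X.X = d at hi ⊢
  induction d using WithBot.recBotCoe with
  | bot => exact WithBot.bot_lt_coe _
  | coe d =>
    induction d using ENat.recTopCoe with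
    | top =>
      exfalso
      have h1 : ((⊤ : ℕ∞) : WithBot ℕ∞) + ((2 : ℕ) : WithBot ℕ∞) = ((⊤ : ℕ∞) : WithBot ℕ∞) := rfl
      rw [h1] at hi
      have h2 : (⊤ : ℕ∞) ≤ (i : ℕ∞) := WithBot.coe_le_coe.1 hi
      exact absurd h2 (by simp)
    | coe d =>
      have h0 : ((d + 2 : ℕ) : WithBot ℕ∞) ≤ (i : WithBot ℕ∞) := by
        rw [Nat.cast_add]
        exact hi
      have h1 : d + 2 ≤ i := by exact_mod_cast h0
      have h2 : ((d + 1 : ℕ) : WithBot ℕ∞) < (i : WithBot ℕ∞) := by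
        have : d + 1 < i := by omega
        exact_mod_cast this
      rw [Nat.cast_add, Nat.cast_one] at h2
      exact h2

end

theorem final_of (h1 : BetaStmt) (h2 : BridgeStmt) (h3 : QuadStmt) :
    ∃ H : ℕ → Var ℝ, (∀ n, IsSmoothHyp (n + 1) 2 (H n)) ∧
      ¬ Converges (fun n => clsM (H n) n - clsM (Var.proj ℝ n) n) := by
  obtain ⟨β, hβ⟩ := h1
  obtain ⟨b, hb⟩ := h2 β hβ
  have key : ∀ n : ℕ, ∃ H : Var ℝ, IsSmoothHyp (n + 1) 2 H ∧
      (1 ≤ n → (b H n - b (Var.proj ℝ n) n) % 2 = (n : ℤ) % 2) := by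
    intro n
    obtain ⟨Q, S, hQ, hS, hQS⟩ := h3 β b hβ hb n
    by_cases hp : (b Q n - b (Var.proj ℝ n) n) % 2 = (n : ℤ) % 2
    · exact ⟨Q, hQ, fun _ => hp⟩
    · refine ⟨S, hS, fun hn => ?_⟩
      rw [hQS hn]
      omega
  choose H hH hpar using key
  refine ⟨H, hH, ?_⟩
  rintro ⟨y, hy⟩
  obtain ⟨N, hN⟩ := hy 2
  have e := (hN (N + 1) (by omega)).trans (hN (N + 2) (by omega)).symm
  have e2 := phi_fil hb (QuotientAddGroup.eq.1 e)
  rw [map_add, map_neg, map_sub, map_sub, phi_clsM, phi_clsM, phi_clsM, phi_clsM] at e2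
  have p1 := hpar (N + 1) (by omega)
  have p2 := hpar (N + 2) (by omega)
  push_cast at p1 p2
  omega

end Pool.Agent.MP_696f7f_ag.H96
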