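import Pool.Agent.MP_696f7f_ag.H96.SSpec

/-! Charts and real points of real projective space, reduced closed subvarieties. -/

namespace Pool.Agent.MP_696f7f_ag.H96

open AlgebraicGeometry CategoryTheory Limits MvPolynomial HomogeneousLocalization

noncomputable section

attribute [local instance] MvPolynomial.gradedAlgebra

section closed

variable {k : Type} [Field k]

theorem isReduced_vanishing {X : Scheme.{0}} (Z : TopologicalSpace.Closeds X) :
    IsReduced (Scheme.IdealSheafData.vanishingIdeal Z).subscheme := by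
  let I := Scheme.IdealSheafData.vanishingIdeal Z
  have (U : X.affineOpens) : IsReduced (I.subschemeCover.openCover.X U) := by
    have : _root_.IsReduced (Γ(X, U) ⧸ I.ideal U) :=
      (Ideal.isRadical_iff_quotient_reduced _).1 (PrimeSpectrum.isRadical_vanishingIdeal _)
    change IsReduced (Spec (.of (Γ(X, U) ⧸ I.ideal U)))
    infer_instance
  exact IsReduced.of_openCover _ I.subschemeCover.openCover

/-- the reduced closed subvariety on a closed subset -/
def Var.closed (X : Var k) (Z : TopologicalSpace.Closeds X.X) : Var k where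
  X := (Scheme.IdealSheafData.vanishingIdeal Z).subscheme
  s := (Scheme.IdealSheafData.vanishingIdeal Z).subschemeι ≫ X.s
  sep := inferInstance
  lft := inferInstance
  qc := inferInstance
  red := isReduced_vanishing Z

theorem exists_closed (X : Var k) (Z : TopologicalSpace.Closeds X.X) :
    ∃ (Y : Var k) (i : Y.X ⟶ X.X), IsClosedImmersion i ∧ i ≫ X.s = Y.s ∧ Set.range i = Z :=
  ⟨X.closed Z, (Scheme.IdealSheafData.vanishingIdeal Z).subschemeι,
    inferInstanceAs (IsClosedImmersion (Scheme.IdealSheafData.vanishingIdeal Z).subschemeι), rfl,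
    (Scheme.IdealSheafData.range_subschemeι _).trans
      (Scheme.IdealSheafData.coe_support_vanishingIdeal Z)⟩

theorem exists_lift {X Y T : Scheme.{0}} (i : Y ⟶ X) [IsClosedImmersion i] [IsReduced T]
    (p : T ⟶ X) (h : Set.range p ⊆ Set.range i) : ∃ l : T ⟶ Y, l ≫ i = p := by
  have : Surjective (pullback.snd i p) := ⟨by
    rw [← Set.range_eq_univ, Scheme.Pullback.range_snd, Set.eq_univ_iff_forall]
    exact fun x => h ⟨x, rfl⟩⟩
  have := isIso_of_isClosedImmersion_of_surjective (pullback.snd i p)
  exact ⟨inv (pullback.snd i p) ≫ pullback.fst i p, by simp [pullback.condition]⟩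

end closed

variable {m : ℕ}

/-- the polynomial ring -/
abbrev PR (m : ℕ) : Type := MvPolynomial (Fin (m + 1)) ℝ

/-- its grading -/
abbrev GR (m : ℕ) : ℕ → Submodule ℝ (PR m) := homogeneousSubmodule (Fin (m + 1)) ℝ

theorem X_mem (i : Fin (m + 1)) : (X i : PR m) ∈ GR m 1 := isHomogeneous_X ℝ i

/-- the constants in the ring of a chart -/
def cst (i : Fin (m + 1)) : ℝ →+* Away (GR m) (X i) :=
  (fromZeroRingHom (GR m) _).comp (algebraMap ℝ (GR m 0))

/-- dehomogenisation -/
def up (i : Fin (m + 1)) : PR m →+* Away (GR m) (X i) :=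
  eval₂Hom (cst i) fun j => Away.mk (GR m) (X_mem i) 1 (X j) (X_mem j)

theorem eval₂_homog {σ R S : Type} [Fintype σ] [CommRing R] [CommRing S] (f : R →+* S) (x : σ → S)
    (c : S) {g : MvPolynomial σ R} {d : ℕ} (hg : g.IsHomogeneous d) :
    eval₂ f (fun j => x j * c) g = eval₂ f x g * c ^ d := by
  rw [eval₂_eq', eval₂_eq', Finset.sum_mul]
  refine Finset.sum_congr rfl fun s hs => ?_
  have : d = ∑ i, s i := by
    rw [hg.degree_eq_sum_deg_support hs]
    exact Finset.sum_subset (Finset.subset_univ _) (by simp)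
  simp only [mul_pow]
  rw [Finset.prod_mul_distrib, Finset.prod_pow_eq_pow_sum, this, mul_assoc]

theorem up_eq (i : Fin (m + 1)) {g : PR m} {d : ℕ} (hg : g ∈ GR m (d • 1)) :
    Away.mk (GR m) (X_mem i) d g hg = up i g := by
  have hg' : g.IsHomogeneous d := by simpa using hg
  let L := Localization.Away (X i : PR m)
  have h1 : (algebraMap (Away (GR m) (X i)) L).comp (up i) =
      eval₂Hom ((algebraMap (PR m) L).comp C)
        fun j => algebraMap (PR m) L (X j) * IsLocalization.Away.invSelf (X i : PR m) := by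
    refine ringHom_ext (fun r => ?_) (fun j => ?_)
    · simp [up, cst, fromZeroRingHom, L, Localization.mk_eq_mk']
      exact IsLocalization.mk'_one _ _
    · simp [up, L, Localization.mk_eq_mk', IsLocalization.Away.invSelf]
      rw [IsLocalization.mul_mk'_eq_mk'_of_mul, mul_one]
  have h2 : eval₂ ((algebraMap (PR m) L).comp C) (fun j => algebraMap (PR m) L (X j)) g =
      algebraMap (PR m) L g := by
    rw [show (fun j => algebraMap (PR m) L (X j)) = algebraMap (PR m) L ∘ X from rfl,
      ← eval₂_comp_left, eval₂_eta]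
  apply val_injective
  have h3 := congrArg (fun φ => φ g) h1
  simp only [RingHom.comp_apply, coe_eval₂Hom] at h3
  rw [eval₂_homog _ _ _ hg', h2] at h3
  rw [Away.val_mk, ← HomogeneousLocalization.algebraMap_apply, h3, Localization.mk_eq_mk',
    IsLocalization.mk'_eq_iff_eq_mul, mul_assoc]
  simp only [map_pow]
  rw [← mul_pow, mul_comm (IsLocalization.Away.invSelf _), IsLocalization.Away.mul_invSelf]
  simp [L]

theorem up_surj (i : Fin (m + 1)) : Function.Surjective (up i) := fun x => by
  obtain ⟨n, a, ha, rfl⟩ := Away.mk_surjective (GR m) (X_mem i) x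
  exact ⟨a, (up_eq i ha).symm⟩

theorem up_self (i : Fin (m + 1)) : up i (X i) = 1 := by
  apply val_injective
  simp [up]

/-- evaluation on a chart -/
def down {T : Type} [CommRing T] [Algebra ℝ T] (i : Fin (m + 1)) (v : Fin (m + 1) → T)
    (hv : v i = 1) : Away (GR m) (X i) →+* T :=
  (Localization.awayLift (aeval v : PR m →ₐ[ℝ] T).toRingHom (X i) (by simp [hv])).comp
    (algebraMap _ (Localization.Away (X i : PR m)))

theorem down_up {T : Type} [CommRing T] [Algebra ℝ T] (i : Fin (m + 1)) (v : Fin (m + 1) → T)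
    (hv : v i = 1) : (down i v hv).comp (up i) = (aeval v : PR m →ₐ[ℝ] T).toRingHom := by
  have key : ∀ (g : PR m) (d : ℕ) (hg : g ∈ GR m (d • 1)), down i v hv (up i g) = aeval v g := by
    intro g d hg
    rw [← up_eq i hg, down, RingHom.comp_apply, HomogeneousLocalization.algebraMap_apply,
      Away.val_mk]
    have := Localization.awayLift_mk (aeval v : PR m →ₐ[ℝ] T).toRingHom (X i) g 1 (by simp [hv]) d
    simpa using this
  exact ringHom_ext (fun r => key _ 0 (isHomogeneous_C _ r)) (fun j => key _ 1 (X_mem j))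

/-- the standard chart -/
def chart (i : Fin (m + 1)) : Spec (.of (Away (GR m) (X i))) ⟶ Proj (GR m) :=
  Proj.awayι (GR m) (X i) (X_mem i) one_pos

instance (i : Fin (m + 1)) : IsOpenImmersion (chart i) :=
  inferInstanceAs (IsOpenImmersion (Proj.awayι (GR m) (X i) (X_mem i) one_pos))

theorem chart_str (i : Fin (m + 1)) :
    chart i ≫ projStr ℝ m = Spec.map (CommRingCat.ofHom (cst i)) := by
  rw [chart, projStr, Proj.awayι_toSpecZero_assoc, ← Spec.map_comp]
  rfl

theorem range_chart (i : Fin (m + 1)) :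
    Set.range (chart i) = {p | (X i : PR m) ∉ p.asHomogeneousIdeal} :=
  congrArg SetLike.coe (Proj.opensRange_awayι (GR m) (X i) (X_mem i) one_pos)

theorem mem_chart (i : Fin (m + 1)) {g : PR m} {d : ℕ} (hg : g ∈ GR m d) (hd : 0 < d)
    (q : Spec (.of (Away (GR m) (X i)))) :
    g ∈ (chart i q).asHomogeneousIdeal ↔ up i g ∈ q.asIdeal := by
  have h := Proj.awayι_preimage_basicOpen (GR m) (X_mem i) one_pos hg hd
  have h' : g ∉ (chart i q).asHomogeneousIdeal ↔
      Away.isLocalizationElem (X_mem i) hg ∉ q.asIdeal :=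
    Iff.of_eq (congrArg (fun U : (Spec (.of (Away (GR m) (X i)))).Opens => q ∈ U) h)
  rw [not_iff_not, Away.isLocalizationElem, up_eq, pow_one] at h'
  exact h'

theorem exists_chart (p : Proj (GR m)) : ∃ i, (X i : PR m) ∉ p.asHomogeneousIdeal := by
  by_contra! H
  refine p.not_irrelevant_le fun g hg => ?_
  have h0 : coeff 0 g = 0 := by
    have h1 : homogeneousComponent 0 g = 0 := by
      have := (HomogeneousIdeal.mem_irrelevant_iff _ _).1 hg
      rw [GradedRing.proj_apply] at this
      exact (decomposition.decompose'_apply g 0).symm.trans this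
    rw [homogeneousComponent_zero] at h1
    exact C_eq_zero.1 h1
  have h2 : g ∈ Ideal.span ((X : _ → PR m) '' Set.univ) := by
    rw [mem_ideal_span_X_image]
    intro s hs
    by_contra! h
    obtain rfl : s = 0 := Finsupp.ext fun i => h i trivial
    exact mem_support_iff.1 hs h0
  refine (Ideal.span_le.2 ?_ : _ ≤ p.asHomogeneousIdeal.toIdeal) h2
  rintro _ ⟨i, -, rfl⟩
  exact H i

/-- the real point of projective space with homogeneous coordinates `v` -/
def rpt (i : Fin (m + 1)) (v : Fin (m + 1) → ℝ) (hv : v i = 1) : Spec (.of ℝ) ⟶ Proj (GR m) :=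
  Spec.map (CommRingCat.ofHom (down i v hv)) ≫ chart i

theorem rpt_str (i : Fin (m + 1)) (v : Fin (m + 1) → ℝ) (hv : v i = 1) :
    rpt i v hv ≫ projStr ℝ m = 𝟙 _ := by
  rw [rpt, Category.assoc, chart_str, ← Spec.map_comp, ← Spec.map_id]
  congr 1
  ext r
  simp

theorem mem_rpt (i : Fin (m + 1)) (v : Fin (m + 1) → ℝ) (hv : v i = 1) {g : PR m} {d : ℕ}
    (hg : g ∈ GR m d) (hd : 0 < d) (x : Spec (.of ℝ)) :
    g ∈ (rpt i v hv x).asHomogeneousIdeal ↔ aeval v g = 0 := by
  rw [rpt, Scheme.Hom.comp_apply, mem_chart i hg hd]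
  change down i v hv (up i g) ∈ x.asIdeal ↔ _
  have h1 : down i v hv (up i g) = aeval v g := congrArg (fun φ => φ g) (down_up i v hv)
  have h2 : x.asIdeal = ⊥ := (Ideal.eq_bot_or_top (K := ℝ) x.asIdeal).resolve_right x.2.ne_top
  rw [h1, h2]
  exact Ideal.mem_bot

theorem exists_rpt (p : Spec (.of ℝ) ⟶ Proj (GR m)) : ∃ i v hv, p = rpt i v hv := by
  obtain ⟨i, hi⟩ := exists_chart (p default)
  have hr : Set.range p ⊆ Set.range (chart i) := by
    rintro _ ⟨x, rfl⟩
    rw [range_chart, Subsingleton.elim x default]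
    exact hi
  obtain ⟨φ, hφ⟩ := Spec.map_surjective (IsOpenImmersion.lift (chart i) p hr)
  have h1 : Spec.map φ ≫ chart i = p := by rw [hφ, IsOpenImmersion.lift_fac]
  have hv : φ.hom (up i (X i)) = 1 := by rw [up_self, map_one]
  refine ⟨i, fun j => φ.hom (up i (X j)), hv, ?_⟩
  rw [← h1, rpt]
  congr 2
  ext1
  rw [CommRingCat.hom_ofHom, ← RingHom.cancel_right (up_surj i), down_up]
  exact ringHom_ext (fun r => by simp [up]) (fun j => by simp)

end

end Pool.Agent.MP_696f7f_ag.H96
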