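import Pool.Agent.MP_696f7f_ag.H96.SBase
import Pool.Agent.MP_696f7f_ag.H96.SQuadA
import Pool.Agent.MP_696f7f_ag.H96.PProj

/-! Hypersurfaces over a subfield of the reals and their real points. -/

namespace Pool.Agent.MP_696f7f_ag.H96

open AlgebraicGeometry CategoryTheory Limits

namespace SHyp

open MvPolynomial HomogeneousLocalization

noncomputable section

attribute [local instance] MvPolynomial.gradedAlgebra

variable {k : Type} [Field k] {n : ℕ}

/-- the polynomial ring -/
abbrev RK (k : Type) [Field k] (n : ℕ) : Type := MvPolynomial (Fin (n + 1)) k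

/-- its grading -/
abbrev GK (k : Type) [Field k] (n : ℕ) : ℕ → Submodule k (RK k n) :=
  homogeneousSubmodule (Fin (n + 1)) k

/-- the ring of functions on matrices -/
abbrev PK (k : Type) [Field k] (n : ℕ) : Type := MvPolynomial (Fin (n + 1) × Fin (n + 1)) k

/-- the sum of the squares -/
def qq (k : Type) [Field k] (n : ℕ) : RK k n := ∑ j, X j ^ 2

theorem qq_mem : qq k n ∈ GK k n 2 := IsHomogeneous.sum _ _ _ fun j _ => isHomogeneous_X_pow j 2

theorem XK_mem (i : Fin (n + 1)) : (X i : RK k n) ∈ GK k n 1 := isHomogeneous_X k i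

theorem XX_mem (i j : Fin (n + 1)) : (X i * X j : RK k n) ∈ GK k n (1 • 2) :=
  (isHomogeneous_X k i).mul (isHomogeneous_X k j)

theorem exists_chart (p : Proj (GK k n)) : ∃ i, (X i : RK k n) ∉ p.asHomogeneousIdeal := by
  by_contra! H
  refine p.not_irrelevant_le fun g hg => ?_
  have h0 : coeff 0 g = 0 := by
    have h1 : homogeneousComponent 0 g = 0 := by
      have := (HomogeneousIdeal.mem_irrelevant_iff _ _).1 hg
      rw [GradedRing.proj_apply] at this
      exact (decomposition.decompose'_apply g 0).symm.trans this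
    rw [homogeneousComponent_zero] at h1
    exact C_eq_zero.1 h1
  have h2 : g ∈ Ideal.span ((X : _ → RK k n) '' Set.univ) := by
    rw [mem_ideal_span_X_image]
    intro s hs
    by_contra! h
    obtain rfl : s = 0 := Finsupp.ext fun i => h i trivial
    exact mem_support_iff.1 hs h0
  refine (Ideal.span_le.2 ?_ : _ ≤ p.asHomogeneousIdeal.toIdeal) h2
  rintro _ ⟨i, -, rfl⟩
  exact H i

theorem mem_away {f g : RK k n} {e d : ℕ} (hf : f ∈ GK k n e) (he : 0 < e) (hg : g ∈ GK k n d)
    (hd : 0 < d) (q : Spec (.of (Away (GK k n) f))) :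
    g ∈ (Proj.awayι (GK k n) f hf he q).asHomogeneousIdeal ↔
      Away.isLocalizationElem hf hg ∈ q.asIdeal := by
  have h := Proj.awayι_preimage_basicOpen (GK k n) hf he hg hd
  have h' : g ∉ (Proj.awayι (GK k n) f hf he q).asHomogeneousIdeal ↔
      Away.isLocalizationElem hf hg ∉ q.asIdeal :=
    Iff.of_eq (congrArg (fun U : (Spec (.of (Away (GK k n) f))).Opens => q ∈ U) h)
  exact not_iff_not.1 h'

theorem range_away {f : RK k n} {e : ℕ} (hf : f ∈ GK k n e) (he : 0 < e) :
    Set.range (Proj.awayι (GK k n) f hf he) = {p | f ∉ p.asHomogeneousIdeal} :=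
  congrArg SetLike.coe (Proj.opensRange_awayι (GK k n) f hf he)

theorem qq_not_mem (p : Spec (.of ℝ) ⟶ Proj (GK k n)) :
    qq k n ∉ (p default).asHomogeneousIdeal := by
  obtain ⟨i, hi⟩ := exists_chart (p default)
  have hr : Set.range p ⊆ Set.range (Proj.awayι (GK k n) (X i) (XK_mem i) one_pos) := by
    rintro _ ⟨x, rfl⟩
    rw [range_away, Subsingleton.elim x default]
    exact hi
  obtain ⟨φ, hφ⟩ := Spec.map_surjective (IsOpenImmersion.lift _ p hr)
  have h1 : Spec.map φ ≫ Proj.awayι (GK k n) (X i) (XK_mem i) one_pos = p := by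
    rw [hφ, IsOpenImmersion.lift_fac]
  rw [← h1, Scheme.Hom.comp_apply, mem_away _ _ qq_mem two_pos]
  let u : Fin (n + 1) → Away (GK k n) (X i) := fun j =>
    Away.mk (GK k n) (XK_mem i) 1 (X j) (XK_mem j)
  have h2 : Away.isLocalizationElem (XK_mem i) qq_mem = ∑ j, u j ^ 2 := by
    apply val_injective
    rw [← HomogeneousLocalization.algebraMap_apply (∑ j, u j ^ 2), map_sum]
    simp only [map_pow, HomogeneousLocalization.algebraMap_apply, u, Away.val_mk,
      Localization.mk_pow, qq, pow_one]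
    rw [Localization.mk_sum]
    rfl
  have h3 : u i = 1 := by
    apply val_injective
    simp [u]
  change φ.hom (Away.isLocalizationElem (XK_mem i) qq_mem) ∉ (default : Spec (.of ℝ)).asIdeal
  have h4 : (default : Spec (.of ℝ)).asIdeal = ⊥ :=
    (Ideal.eq_bot_or_top (K := ℝ) _).resolve_right (default : Spec (.of ℝ)).2.ne_top
  rw [h4, h2, map_sum]
  intro h
  have h5 : ∑ j, φ.hom (u j) ^ 2 = 0 := by
    simpa only [map_pow] using Ideal.mem_bot.1 h
  have := (Finset.sum_eq_zero_iff_of_nonneg fun j _ => sq_nonneg (φ.hom (u j) : ℝ)).1 h5 i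
    (Finset.mem_univ i)
  simp [h3] at this

/-- the constants -/
def cq (k : Type) [Field k] (n : ℕ) : k →+* Away (GK k n) (qq k n) :=
  (fromZeroRingHom (GK k n) _).comp (algebraMap k (GK k n 0))

/-- the functions `x_i x_j / q` -/
def eq (i j : Fin (n + 1)) : Away (GK k n) (qq k n) :=
  Away.mk (GK k n) qq_mem 1 (X i * X j) (XX_mem i j)

/-- the embedding into the space of matrices -/
def EE (k : Type) [Field k] (n : ℕ) : PK k n →+* Away (GK k n) (qq k n) :=
  eval₂Hom (cq k n) fun s => eq s.1 s.2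

theorem val_cq (c : k) : (cq k n c).val = algebraMap (RK k n) _ (C c) := by
  simp [cq, fromZeroRingHom, Localization.mk_eq_mk']
  exact IsLocalization.mk'_one _ _

theorem mk_eq (a : RK k n) (N : ℕ) :
    (Localization.mk a ⟨qq k n ^ N, N, rfl⟩ : Localization.Away (qq k n)) =
      algebraMap _ _ a * IsLocalization.Away.invSelf (qq k n) ^ N := by
  rw [Localization.mk_eq_mk', IsLocalization.mk'_eq_iff_eq_mul, mul_assoc]
  simp only [map_pow]
  rw [← mul_pow, mul_comm (IsLocalization.Away.invSelf _), IsLocalization.Away.mul_invSelf]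
  simp

theorem EE_surj : Function.Surjective (EE k n) := by
  let L := Localization.Away (qq k n)
  let G : Subring L := ((algebraMap (Away (GK k n) (qq k n)) L).comp (EE k n)).range
  let v : L := IsLocalization.Away.invSelf (qq k n)
  have hC : ∀ c : k, algebraMap (RK k n) L (C c) ∈ G := fun c =>
    ⟨C c, by simp only [RingHom.comp_apply, EE, coe_eval₂Hom, eval₂_C]; exact val_cq c⟩
  have h1 : ∀ a ∈ GK k n 1 * GK k n 1, algebraMap (RK k n) L a * v ∈ G := by
    intro a ha
    rw [GK, homogeneousSubmodule_one_eq_span_X, Submodule.span_mul_span] at ha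
    induction ha using Submodule.span_induction with
    | mem x hx =>
      obtain ⟨_, ⟨i, rfl⟩, _, ⟨j, rfl⟩, rfl⟩ := hx
      refine ⟨X (i, j), ?_⟩
      simp only [RingHom.comp_apply, EE, coe_eval₂Hom, eval₂_X]
      exact (mk_eq (X i * X j) 1).trans (by rw [pow_one])
    | zero => simp
    | add x y _ _ hx hy => rw [map_add, add_mul]; exact add_mem hx hy
    | smul c x _ hx => rw [smul_eq_C_mul, map_mul, mul_assoc]; exact mul_mem (hC c) hx
  have h2 : ∀ N : ℕ, ∀ a ∈ (GK k n 1 * GK k n 1) ^ N, algebraMap (RK k n) L a * v ^ N ∈ G := by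
    intro N
    induction N with
    | zero =>
      intro a ha
      rw [pow_zero, Submodule.mem_one] at ha
      obtain ⟨c, rfl⟩ := ha
      rw [pow_zero, mul_one]
      exact hC c
    | succ N ih =>
      intro a ha
      rw [pow_succ] at ha
      refine Submodule.mul_induction_on ha (fun x hx y hy => ?_) fun x y hx hy => ?_
      · rw [map_mul, pow_succ, mul_mul_mul_comm]
        exact mul_mem (ih x hx) (h1 y hy)
      · rw [map_add, add_mul]
        exact add_mem hx hy
  intro x
  obtain ⟨N, a, ha, rfl⟩ := Away.mk_surjective (GK k n) qq_mem x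
  obtain ⟨g, hg⟩ := h2 N a (by
    rw [← sq, ← pow_mul, GK, homogeneousSubmodule_one_pow, mul_comm]
    exact ha)
  exact ⟨g, val_injective _ (hg.trans (mk_eq a N).symm)⟩

theorem sum_eq : ∑ i, eq (k := k) (n := n) i i = 1 := by
  apply val_injective
  rw [← HomogeneousLocalization.algebraMap_apply (∑ i, eq i i), map_sum]
  simp only [HomogeneousLocalization.algebraMap_apply, eq, Away.val_mk, val_one]
  rw [← Localization.mk_sum]
  simp only [← sq]
  exact (congrArg (Localization.mk · _) (pow_one (qq k n)).symm).trans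
    (Localization.mk_self (⟨qq k n ^ 1, 1, rfl⟩ : Submonoid.powers (qq k n)))

theorem eq_mul (a b c d : Fin (n + 1)) :
    eq (k := k) a b * eq c d = eq a d * eq c b := by
  apply val_injective
  simp only [val_mul, eq, Away.val_mk, Localization.mk_mul]
  congr 1
  ring

theorem eq_comm (a b : Fin (n + 1)) : eq (k := k) a b = eq b a := by
  apply val_injective
  simp only [eq, Away.val_mk, mul_comm]

variable [Algebra k ℝ]

theorem ev_qq {l : Fin (n + 1) → ℝ} (hl : IsUnitVec l) :
    eval₂Hom (algebraMap k ℝ) l (qq k n) = 1 := by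
  simpa [qq, IsUnitVec] using hl

/-- evaluation at a unit vector -/
def dq (k : Type) [Field k] [Algebra k ℝ] {l : Fin (n + 1) → ℝ} (hl : IsUnitVec l) :
    Away (GK k n) (qq k n) →+* ℝ :=
  (Localization.awayLift (eval₂Hom (algebraMap k ℝ) l) (qq k n)
    (by rw [ev_qq hl]; exact isUnit_one)).comp (algebraMap _ (Localization.Away (qq k n)))

theorem dq_mk {l : Fin (n + 1) → ℝ} (hl : IsUnitVec l) (N : ℕ) (a : RK k n)
    (ha : a ∈ GK k n (N • 2)) :
    dq k hl (Away.mk (GK k n) qq_mem N a ha) = eval₂ (algebraMap k ℝ) l a := by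
  rw [dq, RingHom.comp_apply, HomogeneousLocalization.algebraMap_apply, Away.val_mk]
  have := Localization.awayLift_mk (eval₂Hom (algebraMap k ℝ) l) (qq k n) a 1
    (by rw [ev_qq hl, one_mul]) N
  simpa using this

theorem dq_EE {l : Fin (n + 1) → ℝ} (hl : IsUnitVec l) (y : Pt (PK ℝ n))
    (hy : ∀ i j, y (X (i, j)) = l i * l j) :
    (dq k hl).comp (EE k n) = y.toRingHom.comp (map (algebraMap k ℝ)) := by
  refine ringHom_ext (fun c => ?_) fun s => ?_
  · have : cq k n c = Away.mk (GK k n) qq_mem 0 (C c) (isHomogeneous_C _ c) := by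
      apply val_injective
      rw [val_cq, Away.val_mk, mk_eq, pow_zero, mul_one]
    simp only [RingHom.comp_apply, EE, coe_eval₂Hom, eval₂_C, this, dq_mk, map_C]
    exact (y.commutes _).symm
  · simp only [RingHom.comp_apply, EE, coe_eval₂Hom, eval₂_X, eq, dq_mk, map_X, eval₂_mul]
    exact (hy s.1 s.2).symm

theorem exists_unit (e : Fin (n + 1) → Fin (n + 1) → ℝ) (h1 : ∑ i, e i i = 1)
    (h2 : ∀ a b c d, e a b * e c d = e a d * e c b) (h3 : ∀ a b, e a b = e b a) :
    ∃ l, IsUnitVec l ∧ ∀ i j, e i j = l i * l j := by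
  obtain ⟨i, hi⟩ : ∃ i, 0 < e i i := by
    by_contra! h
    have := Finset.sum_nonpos (s := Finset.univ) fun i _ => h i
    linarith
  have h4 : ∀ a b, e a b = e i a / √(e i i) * (e i b / √(e i i)) := fun a b => by
    rw [div_mul_div_comm, Real.mul_self_sqrt hi.le, eq_div_iff hi.ne', h3 i a, h2 a i i b,
      mul_comm]
  refine ⟨fun j => e i j / √(e i i), ?_, h4⟩
  rw [IsUnitVec, ← h1]
  exact Finset.sum_congr rfl fun j _ => by rw [h4 j j, sq]

theorem pt_iff {d : ℕ} {f : RK k n} (hf : f ∈ GK k n d) (y : Pt (PK ℝ n)) :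
    (∃ q : PrimeSpectrum (Away (GK k n) (qq k n)),
      q.asIdeal.comap (EE k n) = RingHom.ker (y.toRingHom.comp (map (algebraMap k ℝ))) ∧
        Away.isLocalizationElem qq_mem hf ∈ q.asIdeal) ↔ y ∈ RLP (map (algebraMap k ℝ) f) := by
  have key : ∀ {l : Fin (n + 1) → ℝ} (hl : IsUnitVec l),
      dq k hl (Away.isLocalizationElem qq_mem hf) = eval l (map (algebraMap k ℝ) f) ^ 2 := by
    intro l hl
    rw [Away.isLocalizationElem, dq_mk, eval₂_pow, MvPolynomial.eval_map]
  constructor
  · rintro ⟨q, h1, h2⟩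
    have hk : RingHom.ker (EE k n) ≤ RingHom.ker (y.toRingHom.comp (map (algebraMap k ℝ))) :=
      h1 ▸ Ideal.ker_le_comap _
    let φ := (EE k n).liftOfSurjective EE_surj ⟨_, hk⟩
    have hφ : φ.comp (EE k n) = y.toRingHom.comp (map (algebraMap k ℝ)) :=
      RingHom.liftOfSurjective_comp _ _ _
    have he : ∀ i j, y (X (i, j)) = φ (eq i j) := fun i j => by
      have := congrArg (fun ψ => ψ (X (i, j))) hφ
      simpa [EE] using this.symm
    obtain ⟨l, hl, hy⟩ := exists_unit (fun i j => y (X (i, j)))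
      (by simp only [he]; rw [← map_sum, sum_eq, map_one])
      (fun a b c d => by simp only [he]; rw [← map_mul, eq_mul, map_mul])
      (fun a b => by simp only [he]; rw [eq_comm])
    refine ⟨l, ⟨hl, ?_⟩, funext fun i => funext fun j => (hy i j).symm⟩
    obtain ⟨g, hg⟩ := EE_surj (Away.isLocalizationElem qq_mem hf)
    have h3 : g ∈ q.asIdeal.comap (EE k n) := by rw [Ideal.mem_comap, hg]; exact h2
    rw [h1, ← dq_EE hl y hy, RingHom.mem_ker, RingHom.comp_apply, hg, key] at h3
    exact pow_eq_zero_iff two_ne_zero |>.1 h3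
  · rintro ⟨l, ⟨hl, h1⟩, h2⟩
    refine ⟨⟨RingHom.ker (dq k hl), RingHom.ker_isPrime _⟩, ?_, ?_⟩
    · rw [← dq_EE hl y fun i j => (congrFun (congrFun h2 i) j).symm]
      rfl
    · change dq k hl _ = 0
      rw [key, h1, zero_pow two_ne_zero]

theorem beta_quot {β : BetaFun} (hβ : IsBeta β) (B : Type) [CommRing B] [Algebra ℝ B]
    [Algebra.FiniteType ℝ B] (J : Ideal B) :
    β (B ⧸ J) Set.univ = β B {y | J ≤ RingHom.ker y.toRingHom} := by
  classical
  have h0 : ∀ (B : Type) [CommRing B] [Algebra ℝ B] [Algebra.FiniteType ℝ B], β B ∅ = 0 := by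
    intro B _ _ _
    funext a
    have h := hβ.add B ∅ ∅ constr_empty constr_empty (by simp) a
    rw [Set.union_empty] at h
    simpa using h
  rcases isEmpty_or_nonempty (Pt (B ⧸ J)) with h | ⟨⟨x₀⟩⟩
  · have : {y : Pt B | J ≤ RingHom.ker y.toRingHom} = ∅ :=
      Set.eq_empty_of_forall_notMem fun y hy => h.false (Ideal.Quotient.liftₐ J y hy)
    rw [this, Set.univ_eq_empty_iff.2 h, h0, h0]
  · let ψ : Pt B → Pt (B ⧸ J) := fun y =>
      if h : J ≤ RingHom.ker y.toRingHom then Ideal.Quotient.liftₐ J y h else x₀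
    have hψ : ∀ y : Pt B, J ≤ RingHom.ker y.toRingHom → ∀ g, ψ y (Ideal.Quotient.mk J g) = y g :=
      fun y hy g => by simp only [ψ, dif_pos hy]; rfl
    have hφ : ∀ x : Pt (B ⧸ J), J ≤ RingHom.ker (x.comp (Ideal.Quotient.mkₐ ℝ J)).toRingHom :=
      fun x g hg => by
        change x (Ideal.Quotient.mk J g) = 0
        rw [Ideal.Quotient.eq_zero_iff_mem.2 hg, map_zero]
    refine hβ.inv _ _ _ _ (fun x => x.comp (Ideal.Quotient.mkₐ ℝ J)) ψ
      (by simpa using Constr.zero (0 : B ⧸ J))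
      (ZClosed.constr fun y hy g hg => hy g fun b hb => hb hg)
      ⟨fun x _ => hφ x, Set.mapsTo_univ _ _, fun x _ => ?_, fun y hy => ?_, fun g _ _ => ?_,
        fun g _ _ => ?_⟩
    · exact Ideal.Quotient.algHom_ext ℝ (AlgHom.ext fun g => hψ _ (hφ x) g)
    · exact AlgHom.ext fun g => hψ y hy g
    · exact ⟨Ideal.Quotient.mk J g, 1, by simp, fun x _ _ => by simp⟩
    · obtain ⟨g, rfl⟩ := Ideal.Quotient.mk_surjective g
      exact ⟨g, 1, by simp, fun y hy _ => by rw [hψ y hy, map_one, mul_one]⟩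

theorem isPullback_PK : IsPullback
    (Spec.map (CommRingCat.ofHom (algebraMap ℝ (PK ℝ n))))
    (Spec.map (CommRingCat.ofHom (map (algebraMap k ℝ) : PK k n →+* PK ℝ n)))
    (Spec.map (CommRingCat.ofHom (algebraMap k ℝ)))
    (Spec.map (CommRingCat.ofHom (algebraMap k (PK k n)))) := by
  let : Algebra (PK k n) (PK ℝ n) := algebraMvPolynomial
  exact isPullback_SpecMap_of_isPushout _ _ _ _
    (CommRingCat.isPushout_of_isPushout k ℝ (PK k n) (PK ℝ n))

theorem b_closed [CharZero k] {β : BetaFun} {b : Var ℝ → ℕ → ℤ} (hβ : IsBeta β)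
    (hb : IsBetaV β b) (U : Var k) (t : U.X ⟶ Spec (.of (PK k n))) [IsClosedImmersion t]
    (ht : t ≫ Spec.map (CommRingCat.ofHom (algebraMap k (PK k n))) = U.s) :
    b U.bc = β (PK ℝ n) {y | (⟨RingHom.ker (y.toRingHom.comp (map (algebraMap k ℝ))),
      RingHom.ker_isPrime _⟩ : PrimeSpectrum (PK k n)) ∈ Set.range t} := by
  have hP := isPullback_PK (k := k) (n := n)
  let s := Spec.map (CommRingCat.ofHom (algebraMap k ℝ))
  let t' : pullback U.s s ⟶ Spec (.of (PK ℝ n)) :=
    hP.lift (pullback.snd U.s s) (pullback.fst U.s s ≫ t)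
      (by rw [Category.assoc, ht, pullback.condition])
  have h1 : t' ≫ _ = pullback.snd U.s s := hP.lift_fst _ _ _
  have h2 : t' ≫ _ = pullback.fst U.s s ≫ t := hP.lift_snd _ _ _
  have hQ : IsPullback t' (pullback.fst U.s s) _ t :=
    IsPullback.of_right (by rw [h1, ht]; exact (IsPullback.of_hasPullback U.s s).flip) h2 hP
  have : IsClosedImmersion t' := MorphismProperty.of_isPullback hQ.flip inferInstance
  obtain ⟨J, e, he⟩ := IsClosedImmersion.Spec_iff.1 this
  rw [hb.aff U.bc (PK ℝ n ⧸ J) e (by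
    refine Eq.trans ?_ h1
    rw [he, Category.assoc, ← Spec.map_comp]
    rfl), beta_quot hβ]
  congr 1
  ext y
  let p : PrimeSpectrum (PK ℝ n) := ⟨RingHom.ker y.toRingHom, RingHom.ker_isPrime _⟩
  have h3 : p ∈ Set.range t' ↔ J ≤ p.asIdeal := by
    rw [he, Scheme.Hom.comp_base, TopCat.coe_comp, Set.range_comp,
      Set.range_eq_univ.2 e.hom.surjective, Set.image_univ]
    have := range_comap_of_surjective (PK ℝ n ⧸ J) (Ideal.Quotient.mk J)
      Ideal.Quotient.mk_surjective
    rw [Ideal.mk_ker] at this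
    exact Iff.of_eq (congrArg (fun s => p ∈ s) this)
  refine h3.symm.trans ⟨?_, ?_⟩
  · rintro ⟨z, hz⟩
    refine ⟨pullback.fst U.s s z, ?_⟩
    rw [← Scheme.Hom.comp_apply, ← h2, Scheme.Hom.comp_apply, hz]
    rfl
  · rintro ⟨u, hu⟩
    obtain ⟨z, hz, -⟩ := Scheme.exists_preimage_of_isPullback hQ p u hu.symm
    exact ⟨z, hz⟩

end

end SHyp

open SHyp MvPolynomial in
theorem exists_hyp_bc {k : Type} [Field k] [CharZero k] [Algebra k ℝ] {β : BetaFun}
    {b : Var ℝ → ℕ → ℤ} (hβ : IsBeta β) (hb : IsBetaV β b) {n d : ℕ} (hd : 0 < d)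
    (F : MvPolynomial (Fin (n + 1)) ℚ) (hF : F.IsHomogeneous d) (hs : Nonsing F) :
    ∃ H : Var k, IsSmoothHyp n d H ∧
      b H.bc = β _ (RLP (MvPolynomial.map (algebraMap ℚ ℝ) F)) := by
  let := MvPolynomial.gradedAlgebra (σ := Fin (n + 1)) (R := k)
  let f : RK k n := map (algebraMap ℚ k) F
  have hf : f ∈ GK k n d := hF.map _
  obtain ⟨H, κ, h1, h2, h4⟩ : ∃ (H : Var k) (κ : H.X ⟶ Proj (GK k n)), IsClosedImmersion κ ∧
      κ ≫ projStr k n = H.s ∧ ∀ p : Proj (GK k n), (∃ y, κ y = p) ↔ f ∈ p.asHomogeneousIdeal := by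
    obtain ⟨H, κ, h1, h2, h3⟩ := exists_closed (Var.proj k n) (Proj.basicOpen (GK k n) f).compl
    exact ⟨H, κ, h1, h2, fun p => (Set.ext_iff.1 h3 p).trans not_not⟩
  refine ⟨H, ⟨f, κ, hf, h1, h2, h4, fun x e1 e2 => hs (AlgebraicClosure k) x ?_ fun j => ?_⟩, ?_⟩
  · rwa [aeval_map_algebraMap] at e1
  · have := e2 j
    rwa [pderiv_map, aeval_map_algebraMap] at this
  let ι := Proj.awayι (GK k n) (qq k n) qq_mem two_pos
  have h0 := IsClosedImmersion.spec_of_surjective (CommRingCat.ofHom (EE k n)) EE_surj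
  let t := pullback.snd κ ι ≫ Spec.map (CommRingCat.ofHom (EE k n))
  have ht : IsClosedImmersion t := inferInstance
  have hts : t ≫ Spec.map (CommRingCat.ofHom (algebraMap k (PK k n))) =
      pullback.fst κ ι ≫ H.s := by
    have e1 : (EE k n).comp (algebraMap k (PK k n)) = cq k n := by
      ext1 r
      simp [EE]
    have e2 : ι ≫ projStr k n = Spec.map (CommRingCat.ofHom (cq k n)) := by
      rw [projStr, Proj.awayι_toSpecZero_assoc, ← Spec.map_comp]
      rfl
    rw [← h2, pullback.condition_assoc, Category.assoc, ← Spec.map_comp, ← CommRingCat.ofHom_comp,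
      e1, ← e2]
  let U : Var k :=
    { X := pullback κ ι
      s := pullback.fst κ ι ≫ H.s
      sep := inferInstance
      lft := inferInstance
      qc := by rw [← hts]; infer_instance
      red := isReduced_of_isOpenImmersion (pullback.fst κ ι) }
  obtain ⟨Z, i, z1, z2, z3⟩ := exists_closed H (κ ⁻¹ᵁ Proj.basicOpen (GK k n) (qq k n)).compl
  have z4 : ∀ y, y ∈ Set.range i ↔ qq k n ∈ (κ y).asHomogeneousIdeal := fun y =>
    (Set.ext_iff.1 z3 y).trans not_not
  have hZ : b Z.bc = 0 := hb.nopt _ fun p _ =>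
    qq_not_mem (p ≫ pullback.fst _ _ ≫ i ≫ κ) (by
      rw [← Category.assoc, ← Category.assoc, Scheme.Hom.comp_apply, Scheme.Hom.comp_apply]
      exact (z4 _).1 ⟨_, rfl⟩)
  have hc := (isInv_bc hb).cut H Z U i (pullback.fst κ ι) z1
    (inferInstanceAs (IsOpenImmersion (pullback.fst κ ι))) z2 rfl (by
      refine (Scheme.Pullback.range_fst κ ι).trans ?_
      rw [range_away]
      ext y
      exact (z4 y).not.symm)
  refine hc.trans ?_
  rw [hZ, zero_add, b_closed hβ hb U t hts]
  congr 1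
  ext y
  have e : map (algebraMap ℚ ℝ) F = map (algebraMap k ℝ) f := by
    rw [map_map, Subsingleton.elim ((algebraMap k ℝ).comp (algebraMap ℚ k)) (algebraMap ℚ ℝ)]
  rw [e, ← pt_iff hf y]
  simp only [t, Scheme.Hom.comp_base, TopCat.coe_comp, Set.range_comp]
  rw [Scheme.Pullback.range_snd]
  constructor
  · rintro ⟨q, hq, e⟩
    exact ⟨q, congrArg PrimeSpectrum.asIdeal e, (mem_away _ _ hf hd q).1 ((h4 _).1 hq)⟩
  · rintro ⟨q, e, hq⟩
    exact ⟨q, (h4 _).2 ((mem_away _ _ hf hd q).2 hq), PrimeSpectrum.ext e⟩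

end Pool.Agent.MP_696f7f_ag.H96
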