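import Pool.Agent.MP_696f7f_ag.H96.SK0
import Pool.Agent.MP_696f7f_ag.H96.SHyp
import Pool.Agent.MP_696f7f_ag.H96.SBridge
import Pool.Agent.MP_696f7f_ag.H96.PForms

/-! From additive invariants to non-convergence, over subfields of the reals. -/

namespace Pool.Agent.MP_696f7f_ag.H96

namespace SFinal2

noncomputable section

variable {k : Type} [Field k] [CharZero k] {b : Var k → ℕ → ℤ}

/-- the virtual Betti numbers on the Grothendieck group -/
def bK (h : IsInv b) : K0 k →+ (ℕ → ℤ) :=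
  K0.lift b fun x hx => by
    cases hx with
    | iso X Y e he =>
      rw [map_sub, FreeAbelianGroup.lift_apply_of, FreeAbelianGroup.lift_apply_of, sub_eq_zero]
      exact h.iso X Y e he
    | cut X Z U i j hi hj his hjs hc =>
      rw [map_sub, map_sub, FreeAbelianGroup.lift_apply_of, FreeAbelianGroup.lift_apply_of,
        FreeAbelianGroup.lift_apply_of, sub_sub, sub_eq_zero]
      exact h.cut X Z U i j hi hj his hjs hc

theorem bK_cls (h : IsInv b) (X : Var k) : bK h (cls X) = b X := K0.lift_cls _ _ X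

theorem bK_mul_Lef (h : IsInv b) (x : K0 k) (a : ℕ) :
    bK h (x * Lef k) (a + 1) = bK h x a := by
  induction x using K0.induction with
  | h0 => simp
  | hn x hx => simp [hx]
  | ha x y hx hy => simp [add_mul, hx, hy]
  | hc X => rw [Lef, cls_mul, bK_cls, bK_cls, h.line]

theorem bK_mul_pow (h : IsInv b) (x : K0 k) (a j : ℕ) :
    bK h (x * Lef k ^ j) (a + j) = bK h x a := by
  induction j with
  | zero => simp
  | succ j ih => rw [pow_succ, ← mul_assoc, ← add_assoc, bK_mul_Lef, ih]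

theorem inv_pow_mul (i : ℕ) :
    (IsLocalization.Away.invSelf (Lef k) : Mk k) ^ i * algebraMap (K0 k) (Mk k) (Lef k ^ i) = 1 := by
  rw [map_pow, ← mul_pow, mul_comm, IsLocalization.Away.mul_invSelf, one_pow]

theorem exists_rep (z : Mk k) : ∃ p : K0 k × ℕ,
    z = algebraMap (K0 k) (Mk k) p.1 * IsLocalization.Away.invSelf (Lef k) ^ p.2 := by
  obtain ⟨n, a, ha⟩ := IsLocalization.Away.surj (Lef k) z
  refine ⟨(a, n), ?_⟩
  rw [← ha, ← map_pow, mul_assoc, mul_comm (algebraMap _ _ _), inv_pow_mul, mul_one]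

theorem rep_indep (h : IsInv b) {x x' : K0 k} {i i' : ℕ}
    (e : algebraMap (K0 k) (Mk k) x * IsLocalization.Away.invSelf (Lef k) ^ i =
      algebraMap (K0 k) (Mk k) x' * IsLocalization.Away.invSelf (Lef k) ^ i') :
    bK h x i = bK h x' i' := by
  have e2 : algebraMap (K0 k) (Mk k) (x * Lef k ^ i') =
      algebraMap (K0 k) (Mk k) (x' * Lef k ^ i) := by
    rw [map_mul, map_mul]
    calc algebraMap (K0 k) (Mk k) x * algebraMap (K0 k) (Mk k) (Lef k ^ i')
        = algebraMap (K0 k) (Mk k) x * (IsLocalization.Away.invSelf (Lef k) ^ i *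
            algebraMap (K0 k) (Mk k) (Lef k ^ i)) * algebraMap (K0 k) (Mk k) (Lef k ^ i') := by
          rw [inv_pow_mul, mul_one]
      _ = algebraMap (K0 k) (Mk k) x' * (IsLocalization.Away.invSelf (Lef k) ^ i' *
            algebraMap (K0 k) (Mk k) (Lef k ^ i')) * algebraMap (K0 k) (Mk k) (Lef k ^ i) := by
          rw [← mul_assoc, e]; ring
      _ = _ := by rw [inv_pow_mul, mul_one]
  obtain ⟨j, hj⟩ := IsLocalization.Away.exists_of_eq (Lef k) e2
  have e3 : x * Lef k ^ (i' + j) = x' * Lef k ^ (i + j) := by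
    rw [pow_add, pow_add, ← mul_assoc, ← mul_assoc, mul_comm _ (Lef k ^ j), hj, mul_comm]
  rw [← bK_mul_pow h x i (i' + j), e3, ← bK_mul_pow h x' i' (i + j), add_left_comm]

/-- the top virtual Betti number of a normalised class -/
def phi0 (h : IsInv b) (z : Mk k) : ℤ :=
  bK h (exists_rep z).choose.1 (exists_rep z).choose.2

theorem phi0_rep (h : IsInv b) (x : K0 k) (i : ℕ) :
    phi0 h (algebraMap (K0 k) (Mk k) x * IsLocalization.Away.invSelf (Lef k) ^ i) = bK h x i :=
  rep_indep h (exists_rep _).choose_spec.symm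

/-- the same, as an additive map -/
def phi (h : IsInv b) : Mk k →+ ℤ :=
  AddMonoidHom.mk' (phi0 h) fun z w => by
    obtain ⟨⟨x, i⟩, rfl⟩ := exists_rep z
    obtain ⟨⟨y, j⟩, rfl⟩ := exists_rep w
    have e : algebraMap (K0 k) (Mk k) x * IsLocalization.Away.invSelf (Lef k) ^ i +
        algebraMap (K0 k) (Mk k) y * IsLocalization.Away.invSelf (Lef k) ^ j =
        algebraMap (K0 k) (Mk k) (x * Lef k ^ j + y * Lef k ^ i) *
          IsLocalization.Away.invSelf (Lef k) ^ (i + j) := by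
      rw [map_add, map_mul, map_mul, pow_add]
      linear_combination
        (-(algebraMap (K0 k) (Mk k) x * IsLocalization.Away.invSelf (Lef k) ^ i)) * inv_pow_mul (k := k) j -
        (algebraMap (K0 k) (Mk k) y * IsLocalization.Away.invSelf (Lef k) ^ j) * inv_pow_mul (k := k) i
    simp only
    rw [e, phi0_rep, phi0_rep, phi0_rep, map_add, Pi.add_apply, bK_mul_pow, add_comm i j,
      bK_mul_pow]

theorem phi_clsM (h : IsInv b) (X : Var k) (i : ℕ) : phi h (clsM X i) = b X i := by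
  change phi0 h (clsM X i) = _
  rw [clsM, phi0_rep, bK_cls]

theorem phi_fil (h : IsInv b) {z : Mk k} (hz : z ∈ Fil k 2) : phi h z = 0 := by
  refine (AddSubgroup.closure_le (phi h).ker).mpr ?_ hz
  rintro _ ⟨X, i, hi, rfl⟩
  change phi h (clsM X i) = 0
  rw [phi_clsM]
  refine h.deg X i ?_
  generalize topologicalKrullDim X.X = d at hi ⊢
  induction d using WithBot.recBotCoe with
  | bot => exact WithBot.bot_lt_coe _
  | coe d =>
    induction d using ENat.recTopCoe with
    | top =>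
      exfalso
      have h1 : ((⊤ : ℕ∞) : WithBot ℕ∞) + ((2 : ℕ) : WithBot ℕ∞) = ((⊤ : ℕ∞) : WithBot ℕ∞) := rfl
      rw [h1] at hi
      have h2 : (⊤ : ℕ∞) ≤ (i : ℕ∞) := WithBot.coe_le_coe.1 hi
      exact absurd h2 (by simp)
    | coe d =>
      have h0 : ((d + 2 : ℕ) : WithBot ℕ∞) ≤ (i : WithBot ℕ∞) := by
        rw [Nat.cast_add]
        exact hi
      have h1 : d + 2 ≤ i := by exact_mod_cast h0
      have h2 : ((d + 1 : ℕ) : WithBot ℕ∞) < (i : WithBot ℕ∞) := by
        have : d + 1 < i := by omega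
        exact_mod_cast this
      rw [Nat.cast_add, Nat.cast_one] at h2
      exact h2

end

theorem final_gen {k : Type} [Field k] [CharZero k] {b : Var k → ℕ → ℤ} (hb : IsInv b) {d : ℕ}
    (h3 : ∀ n : ℕ, ∃ Q S : Var k, IsSmoothHyp (n + 1) d Q ∧ IsSmoothHyp (n + 1) d S ∧
      (1 ≤ n → b S n = b Q n + 1)) :
    ∃ H : ℕ → Var k, (∀ n, IsSmoothHyp (n + 1) d (H n)) ∧
      ¬ Converges (fun n => clsM (H n) n - clsM (Var.proj k n) n) := by
  have key : ∀ n : ℕ, ∃ H : Var k, IsSmoothHyp (n + 1) d H ∧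
      (1 ≤ n → (b H n - b (Var.proj k n) n) % 2 = (n : ℤ) % 2) := by
    intro n
    obtain ⟨Q, S, hQ, hS, hQS⟩ := h3 n
    by_cases hp : (b Q n - b (Var.proj k n) n) % 2 = (n : ℤ) % 2
    · exact ⟨Q, hQ, fun _ => hp⟩
    · refine ⟨S, hS, fun hn => ?_⟩
      rw [hQS hn]
      omega
  choose H hH hpar using key
  refine ⟨H, hH, ?_⟩
  rintro ⟨y, hy⟩
  obtain ⟨N, hN⟩ := hy 2
  have e := (hN (N + 1) (by omega)).trans (hN (N + 2) (by omega)).symm
  have e2 := phi_fil hb (QuotientAddGroup.eq.1 e)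
  rw [map_add, map_neg, map_sub, map_sub, phi_clsM, phi_clsM, phi_clsM, phi_clsM] at e2
  have p1 := hpar (N + 1) (by omega)
  have p2 := hpar (N + 2) (by omega)
  push_cast at p1 p2
  omega

theorem realSmooth_of_nonsing {m : ℕ} {F : MvPolynomial (Fin m) ℚ} (h : Nonsing F) :
    RealSmooth (MvPolynomial.map (algebraMap ℚ ℝ) F) := by
  intro l h0 h1
  refine h ℝ l ?_ fun j => ?_
  · rwa [MvPolynomial.eval_map, ← MvPolynomial.aeval_def] at h0
  · have := h1 j
    rwa [MvPolynomial.pderiv_map, MvPolynomial.eval_map, ← MvPolynomial.aeval_def] at this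

end SFinal2

theorem final_real (h1 : BetaHypStmt) (k : Type) [Field k] [CharZero k] (hk : Nonempty (k →+* ℝ))
    (d : ℕ) (hd : 2 ≤ d) :
    ∃ H : ℕ → Var k, (∀ n, IsSmoothHyp (n + 1) d (H n)) ∧
      ¬ Converges (fun n => clsM (H n) n - clsM (Var.proj k n) n) := by
  obtain ⟨φ⟩ := hk
  let _ : Algebra k ℝ := φ.toAlgebra
  obtain ⟨β, hβ, hh⟩ := h1
  obtain ⟨b, hb⟩ := bridgeStmt β hβ
  refine SFinal2.final_gen (isInv_bc hb) fun n => ?_
  obtain ⟨F, G, hF, hG, sF, sG, A, B, hU, hAB, cA, cB, eA, eB⟩ := formsStmt d n hd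
  obtain ⟨Q, hQ, eQ⟩ := exists_hyp_bc (k := k) hβ hb (by omega) F hF sF
  obtain ⟨S, hS, eS⟩ := exists_hyp_bc (k := k) hβ hb (by omega) G hG sG
  refine ⟨Q, S, hQ, hS, fun hn => ?_⟩
  rw [eQ, eS]
  exact hh d n _ _ A B hn (hF.map _) (hG.map _) (SFinal2.realSmooth_of_nonsing sF)
    (SFinal2.realSmooth_of_nonsing sG) hU hAB cA cB eA eB

end Pool.Agent.MP_696f7f_ag.H96
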