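import Pool.Agent.MP_696f7f_ag.H96.SVar

/-! The Grothendieck ring of varieties, its localisation at the class of the affine line,
the dimension filtration, the completion and convergence. -/

namespace Pool.Agent.MP_696f7f_ag.H96

open AlgebraicGeometry CategoryTheory Limits

noncomputable section

variable {k : Type} [Field k]

/-- the relations of the Grothendieck group: isomorphic varieties are identified, and
`[X] = [Z] + [U]` for a closed subvariety `Z` with open complement `U` -/
inductive IsRel : FreeAbelianGroup (Var k) → Prop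
  | iso (X Y : Var k) (e : X.X ≅ Y.X) (he : e.hom ≫ Y.s = X.s) :
      IsRel (FreeAbelianGroup.of X - FreeAbelianGroup.of Y)
  | cut (X Z U : Var k) (i : Z.X ⟶ X.X) (j : U.X ⟶ X.X) (hi : IsClosedImmersion i)
      (hj : IsOpenImmersion j) (his : i ≫ X.s = Z.s) (hjs : j ≫ X.s = U.s)
      (hc : Set.range j = (Set.range i)ᶜ) :
      IsRel (FreeAbelianGroup.of X - FreeAbelianGroup.of Z - FreeAbelianGroup.of U)

/-- the Grothendieck group of varieties -/
def K0 (k : Type) [Field k] : Type 1 :=
  FreeAbelianGroup (Var k) ⧸ AddSubgroup.closure {x : FreeAbelianGroup (Var k) | IsRel x}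

instance : AddCommGroup (K0 k) := QuotientAddGroup.Quotient.addCommGroup _

/-- the quotient map -/
def K0.mk : FreeAbelianGroup (Var k) →+ K0 k := QuotientAddGroup.mk' _

/-- the class of a variety -/
def cls (X : Var k) : K0 k := K0.mk (FreeAbelianGroup.of X)

theorem K0.mk_rel {x : FreeAbelianGroup (Var k)} (hx : IsRel x) : K0.mk x = 0 :=
  (QuotientAddGroup.eq_zero_iff x).2 (AddSubgroup.subset_closure hx)

theorem cls_iso (X Y : Var k) (e : X.X ≅ Y.X) (he : e.hom ≫ Y.s = X.s) : cls X = cls Y := by
  have := K0.mk_rel (IsRel.iso X Y e he)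
  rwa [map_sub, sub_eq_zero] at this

theorem cls_cut (X Z U : Var k) (i : Z.X ⟶ X.X) (j : U.X ⟶ X.X) (hi : IsClosedImmersion i)
    (hj : IsOpenImmersion j) (his : i ≫ X.s = Z.s) (hjs : j ≫ X.s = U.s)
    (hc : Set.range j = (Set.range i)ᶜ) : cls X = cls Z + cls U := by
  have := K0.mk_rel (IsRel.cut X Z U i j hi hj his hjs hc)
  rwa [map_sub, map_sub, sub_sub, sub_eq_zero] at this

/-- an additive map on the Grothendieck group from a function that kills the relations -/
def K0.lift {A : Type*} [AddCommGroup A] (φ : Var k → A)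
    (h : ∀ x, IsRel x → FreeAbelianGroup.lift φ x = 0) : K0 k →+ A :=
  QuotientAddGroup.lift _ (FreeAbelianGroup.lift φ)
    ((AddSubgroup.closure_le (FreeAbelianGroup.lift φ).ker).mpr h)

theorem K0.lift_cls {A : Type*} [AddCommGroup A] (φ : Var k → A)
    (h : ∀ x, IsRel x → FreeAbelianGroup.lift φ x = 0) (X : Var k) :
    K0.lift φ h (cls X) = φ X :=
  FreeAbelianGroup.lift_apply_of φ X

theorem K0.hom_ext {A : Type*} [AddCommGroup A] {f g : K0 k →+ A}
    (h : ∀ X, f (cls X) = g (cls X)) : f = g := by
  have h2 : f.comp K0.mk = g.comp K0.mk := FreeAbelianGroup.lift_ext _ _ h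
  ext x
  obtain ⟨y, rfl⟩ := QuotientAddGroup.mk'_surjective _ x
  exact DFunLike.congr_fun h2 y

theorem map_over {S A B B' : Scheme.{0}} (f : A ⟶ S) (g : B ⟶ S) (g' : B' ⟶ S) (i : B ⟶ B')
    (e₁ : f ≫ 𝟙 S = 𝟙 A ≫ f) (e₂ : g ≫ 𝟙 S = i ≫ g') :
    pullback.map f g f g' (𝟙 _) i (𝟙 _) e₁ e₂ ≫ pullback.fst f g' ≫ f = pullback.fst f g ≫ f := by
  rw [pullback.map, pullback.lift_fst_assoc, Category.comp_id]

theorem assoc_over {S A B C : Scheme.{0}} (f : A ⟶ S) (g : B ⟶ S) (h : C ⟶ S) :
    ((pullback.congrHom pullback.condition rfl) ≪≫ pullbackAssoc f g g h).hom ≫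
      pullback.fst f (pullback.fst g h ≫ g) ≫ f =
      pullback.fst (pullback.fst f g ≫ f) h ≫ pullback.fst f g ≫ f := by
  rw [Iso.trans_hom, Category.assoc, pullbackAssoc_hom_fst_assoc, pullback.congrHom_hom,
    pullback.map, pullback.lift_fst_assoc, Category.comp_id]

variable [CharZero k]

theorem mulVar_rel (X : Var k) (x : FreeAbelianGroup (Var k)) (hx : IsRel x) :
    FreeAbelianGroup.lift (fun Y => cls (X.prod Y)) x = 0 := by
  cases hx with
  | iso Y Y' e he =>
    rw [map_sub, FreeAbelianGroup.lift_apply_of, FreeAbelianGroup.lift_apply_of, sub_eq_zero]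
    have : IsIso (pullback.map X.s Y.s X.s Y'.s (𝟙 _) e.hom (𝟙 _) (by simp) (by simp [he])) :=
      pullback.map_isIso _ _ _ _ _ _ _ _ _
    exact cls_iso (X.prod Y) (X.prod Y') (@asIso _ _ _ _ _ this)
      (map_over _ _ _ _ (by simp) (by simp [he]))
  | cut Y Z U i j hi hj his hjs hc =>
    rw [map_sub, map_sub, FreeAbelianGroup.lift_apply_of, FreeAbelianGroup.lift_apply_of,
      FreeAbelianGroup.lift_apply_of, sub_sub, sub_eq_zero]
    refine cls_cut _ _ _
      (pullback.map X.s Z.s X.s Y.s (𝟙 _) i (𝟙 _) (by simp) (by simp [his]))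
      (pullback.map X.s U.s X.s Y.s (𝟙 _) j (𝟙 _) (by simp) (by simp [hjs])) ?_ ?_ ?_ ?_ ?_
    · exact MorphismProperty.pullbackMap (P := @IsClosedImmersion) inferInstance hi
        (by simp) his.symm
    · exact MorphismProperty.pullbackMap (P := @IsOpenImmersion) inferInstance hj
        (by simp) hjs.symm
    · exact map_over _ _ _ _ _ _
    · exact map_over _ _ _ _ _ _
    · have h1 := Scheme.Pullback.range_map X.s U.s X.s Y.s (𝟙 _) j (𝟙 _) (by simp)
        (by simp [hjs])
      have h2 := Scheme.Pullback.range_map X.s Z.s X.s Y.s (𝟙 _) i (𝟙 _) (by simp)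
        (by simp [his])
      refine h1.trans (Eq.trans ?_ (congrArg compl h2).symm)
      have h3 : Set.range (𝟙 X.X : X.X ⟶ X.X) = Set.univ := by simp
      rw [hc, h3, Set.preimage_univ, Set.univ_inter, Set.univ_inter]
      rfl

theorem cls_prod_comm (X Y : Var k) : cls (X.prod Y) = cls (Y.prod X) := by
  refine cls_iso _ _ (pullbackSymmetry X.s Y.s) ?_
  simp [Var.prod, pullback.condition]

/-- multiplication by the class of a variety -/
def mulVar (X : Var k) : K0 k →+ K0 k := K0.lift (fun Y => cls (X.prod Y)) (mulVar_rel X)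

theorem mulHom_rel (x : FreeAbelianGroup (Var k)) (hx : IsRel x) :
    FreeAbelianGroup.lift mulVar x = 0 := by
  refine K0.hom_ext fun Y => ?_
  have h : (AddMonoidHom.eval (cls Y)).comp (FreeAbelianGroup.lift mulVar) =
      FreeAbelianGroup.lift fun X => cls (Y.prod X) := by
    refine FreeAbelianGroup.lift_ext _ _ fun X => ?_
    simp [mulVar, K0.lift_cls, cls_prod_comm X Y]
  have := DFunLike.congr_fun h x
  rw [mulVar_rel Y x hx] at this
  simpa using this

/-- the bilinear product with `[X] * [Y] = [X × Y]` -/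
def mulHom : K0 k →+ K0 k →+ K0 k := K0.lift mulVar mulHom_rel

instance : Mul (K0 k) := ⟨fun a b => mulHom a b⟩

instance : One (K0 k) := ⟨cls (Var.pt k)⟩

theorem cls_mul (X Y : Var k) : cls X * cls Y = cls (X.prod Y) := by
  change mulHom (cls X) (cls Y) = _
  rw [mulHom, K0.lift_cls, mulVar, K0.lift_cls]

omit [CharZero k] in
theorem K0.induction {p : K0 k → Prop} (x : K0 k) (h0 : p 0) (hc : ∀ X, p (cls X))
    (hn : ∀ a, p a → p (-a)) (ha : ∀ a b, p a → p b → p (a + b)) : p x := by
  obtain ⟨y, rfl⟩ := QuotientAddGroup.mk'_surjective _ x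
  change p (K0.mk y)
  induction y using FreeAbelianGroup.induction_on with
  | zero => simpa using h0
  | of X => exact hc X
  | neg X h => rw [map_neg]; exact hn _ h
  | add a b h1 h2 => rw [map_add]; exact ha _ _ h1 h2

theorem K0.mul_assoc (a b c : K0 k) : a * b * c = a * (b * c) := by
  change mulHom (mulHom a b) c = mulHom a (mulHom b c)
  induction a using K0.induction with
  | h0 => simp
  | hn a h => simp [h]
  | ha a a' h h' => simp [h, h']
  | hc X =>
  induction b using K0.induction with
  | h0 => simp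
  | hn a h => simp [h]
  | ha a a' h h' => simp [h, h']
  | hc Y =>
  induction c using K0.induction with
  | h0 => simp
  | hn a h => simp [h]
  | ha a a' h h' => simp [h, h']
  | hc Z =>
  change cls X * cls Y * cls Z = cls X * (cls Y * cls Z)
  rw [cls_mul, cls_mul, cls_mul, cls_mul]
  exact cls_iso _ _ ((pullback.congrHom pullback.condition rfl) ≪≫
    pullbackAssoc X.s Y.s Y.s Z.s) (assoc_over X.s Y.s Z.s)

theorem K0.mul_comm (a b : K0 k) : a * b = b * a := by
  change mulHom a b = mulHom b a
  induction a using K0.induction with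
  | h0 => simp
  | hn a h => simp [h]
  | ha a a' h h' => simp [h, h']
  | hc X =>
  induction b using K0.induction with
  | h0 => simp
  | hn a h => simp [h]
  | ha a a' h h' => simp [h, h']
  | hc Y =>
  change cls X * cls Y = cls Y * cls X
  rw [cls_mul, cls_mul, cls_prod_comm]

theorem K0.one_mul (a : K0 k) : 1 * a = a := by
  change mulHom (cls (Var.pt k)) a = a
  induction a using K0.induction with
  | h0 => simp
  | hn a h => simp [h]
  | ha a a' h h' => simp [h, h']
  | hc X =>
  change cls (Var.pt k) * cls X = cls X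
  rw [cls_mul]
  have : IsIso (pullback.snd (𝟙 (Spec (CommRingCat.of k))) X.s) :=
    pullback_snd_iso_of_left_iso _ _
  exact cls_iso ((Var.pt k).prod X) X (@asIso _ _ _ _ _ this) pullback.condition.symm

theorem K0.mul_add (a b c : K0 k) : a * (b + c) = a * b + a * c := map_add (mulHom a) b c

theorem K0.add_mul (a b c : K0 k) : (a + b) * c = a * c + b * c :=
  congrArg (fun f : K0 k →+ K0 k => f c) (map_add mulHom a b)

theorem K0.mul_zero (a : K0 k) : a * 0 = 0 := map_zero (mulHom a)

theorem K0.zero_mul (a : K0 k) : 0 * a = 0 :=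
  congrArg (fun f : K0 k →+ K0 k => f a) (map_zero mulHom)

/-- the Grothendieck ring of varieties -/
instance : CommRing (K0 k) where
  __ := (inferInstance : AddCommGroup (K0 k))
  mul := (· * ·)
  one := 1
  mul_assoc := K0.mul_assoc
  mul_comm := K0.mul_comm
  one_mul := K0.one_mul
  mul_one := fun a => (K0.mul_comm a 1).trans (K0.one_mul a)
  left_distrib := K0.mul_add
  right_distrib := K0.add_mul
  zero_mul := K0.zero_mul
  mul_zero := K0.mul_zero

/-- the class of the affine line -/
def Lef (k : Type) [Field k] : K0 k := cls (Var.line k)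

/-- the localisation of the Grothendieck ring at the class of the affine line -/
abbrev Mk (k : Type) [Field k] [CharZero k] : Type 1 := Localization.Away (Lef k)

/-- the element `[X] * L ^ (-i)` of the localisation -/
def clsM (X : Var k) (i : ℕ) : Mk k :=
  algebraMap (K0 k) (Mk k) (cls X) * IsLocalization.Away.invSelf (Lef k) ^ i

/-- the dimension filtration: `Fil k m` is generated by the `[X] * L ^ (-i)` with
`dim X - i ≤ -m` -/
def Fil (k : Type) [Field k] [CharZero k] (m : ℕ) : AddSubgroup (Mk k) :=
  AddSubgroup.closure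
    {x | ∃ (X : Var k) (i : ℕ), topologicalKrullDim X.X + m ≤ i ∧ x = clsM X i}

/-- the completion: the inverse limit of the quotients by the dimension filtration -/
def Mhat (k : Type) [Field k] [CharZero k] : Type 1 :=
  {y : (m : ℕ) → Mk k ⧸ Fil k m // ∀ (m m' : ℕ) (x : Mk k), m ≤ m' →
    y m' = QuotientAddGroup.mk x → y m = QuotientAddGroup.mk x}

/-- the sequence `x` converges in the completion: there is `y` in the completion such that for
every `m` the images of `x n` and `y` modulo `Fil k m` agree for all large `n` -/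
def Converges (x : ℕ → Mk k) : Prop :=
  ∃ y : Mhat k, ∀ m : ℕ, ∃ N : ℕ, ∀ n, N ≤ n → QuotientAddGroup.mk (x n) = y.1 m

end

end Pool.Agent.MP_696f7f_ag.H96
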