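import Pool.Agent.MP_696f7f_ag.H96.SK0
import Pool.Agent.MP_696f7f_ag.H96.SQuadA

/-! A hyperplane has the class of projective space. -/

namespace Pool.Agent.MP_696f7f_ag.H96

open AlgebraicGeometry CategoryTheory Limits MvPolynomial HomogeneousLocalization

noncomputable section

attribute [local instance] MvPolynomial.gradedAlgebra

namespace SLin

variable {k : Type} [Field k]

theorem irr_le {m : ℕ} {I : Ideal (MvPolynomial (Fin m) k)} (h : ∀ i, X i ∈ I) :
    (HomogeneousIdeal.irrelevant (homogeneousSubmodule (Fin m) k)).toIdeal ≤ I := by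
  intro g hg
  have h0 : coeff 0 g = 0 := by
    have h1 : homogeneousComponent 0 g = 0 := by
      have := (HomogeneousIdeal.mem_irrelevant_iff _ _).1 hg
      rw [GradedRing.proj_apply] at this
      exact (decomposition.decompose'_apply g 0).symm.trans this
    rw [homogeneousComponent_zero] at h1
    exact C_eq_zero.1 h1
  have h2 : g ∈ Ideal.span ((X : _ → MvPolynomial (Fin m) k) '' Set.univ) := by
    rw [mem_ideal_span_X_image]
    intro s hs
    by_contra! h
    obtain rfl : s = 0 := Finsupp.ext fun i => h i trivial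
    exact mem_support_iff.1 hs h0
  refine (Ideal.span_le.2 ?_ : _ ≤ I) h2
  rintro _ ⟨i, -, rfl⟩
  exact h i

theorem X_irr {m : ℕ} (i : Fin m) :
    (X i : MvPolynomial (Fin m) k) ∈
      HomogeneousIdeal.irrelevant (homogeneousSubmodule (Fin m) k) :=
  HomogeneousIdeal.mem_irrelevant_of_mem _ one_pos (isHomogeneous_X k i)

/-- the graded map given by linear forms -/
def lin {m m' : ℕ} (g : Fin m → MvPolynomial (Fin m') k) (hg : ∀ i, (g i).IsHomogeneous 1) :
    homogeneousSubmodule (Fin m) k →+*ᵍ homogeneousSubmodule (Fin m') k where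
  toRingHom := (aeval g : MvPolynomial (Fin m) k →ₐ[k] MvPolynomial (Fin m') k).toRingHom
  map_mem := fun {i x} hx => by
    have := IsHomogeneous.aeval (show x.IsHomogeneous i from hx) g hg
    rwa [one_mul] at this

theorem lin_apply {m m' : ℕ} (g : Fin m → MvPolynomial (Fin m') k)
    (hg : ∀ i, (g i).IsHomogeneous 1) (x : MvPolynomial (Fin m) k) : lin g hg x = aeval g x := rfl

theorem closed_aux {m m' : ℕ}
    (ψ : homogeneousSubmodule (Fin m) k →+*ᵍ homogeneousSubmodule (Fin m') k)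
    (s : homogeneousSubmodule (Fin m') k →+*ᵍ homogeneousSubmodule (Fin m) k)
    (hs : ∀ y, ψ (s y) = y) (hψ) {d : ℕ} (hd : 0 < d) (t : MvPolynomial (Fin m) k)
    (ht : t ∈ homogeneousSubmodule (Fin m) k d) :
    IsClosedImmersion (pullback.snd (Proj.map ψ hψ) (Proj.awayι _ t ht hd)) := by
  have hp := IsOpenImmersion.isPullback _ _ _ _ (Proj.awayι_comp_map ψ hψ hd t ht) (by
    rw [Proj.opensRange_awayι, Proj.opensRange_awayι]
    rfl)
  have hc : IsClosedImmersion (Spec.map (CommRingCat.ofHom (Away.map ψ t))) := by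
    refine IsClosedImmersion.spec_of_surjective _ fun x => ?_
    obtain ⟨n, y, hy, rfl⟩ := Away.mk_surjective _ (ψ.map_mem ht) x
    refine ⟨Away.mk _ ht n (s y) (s.map_mem hy), ?_⟩
    change Away.map ψ t _ = _
    rw [Away.map_mk]
    congr 1
    exact hs y
  rw [← hp.flip.isoPullback_inv_snd]
  infer_instance

theorem closed_map {m m' : ℕ}
    (ψ : homogeneousSubmodule (Fin m) k →+*ᵍ homogeneousSubmodule (Fin m') k)
    (s : homogeneousSubmodule (Fin m') k →+*ᵍ homogeneousSubmodule (Fin m) k)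
    (hs : ∀ y, ψ (s y) = y) (hψ) : IsClosedImmersion (Proj.map ψ hψ) :=
  IsZariskiLocalAtTarget.of_openCover (P := @IsClosedImmersion)
    (𝒰 := (Proj.affineOpenCover _).openCover) fun i => closed_aux ψ s hs hψ i.1.2 i.2 i.2.2

theorem str_aux {m m' : ℕ} (g : Fin (m + 1) → MvPolynomial (Fin (m' + 1)) k)
    (hg : ∀ i, (g i).IsHomogeneous 1) (hψ) {d : ℕ} (hd : 0 < d) (t : MvPolynomial (Fin (m + 1)) k)
    (ht : t ∈ homogeneousSubmodule (Fin (m + 1)) k d) :
    Proj.awayι _ (lin g hg t) ((lin g hg).2 ht) hd ≫ Proj.map (lin g hg) hψ ≫ projStr k m =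
      Proj.awayι _ (lin g hg t) ((lin g hg).2 ht) hd ≫ projStr k m' := by
  rw [Proj.awayι_comp_map_assoc _ _ hd _ ht, projStr, projStr, Proj.awayι_toSpecZero_assoc,
    Proj.awayι_toSpecZero_assoc, ← Spec.map_comp, ← Spec.map_comp, ← Spec.map_comp]
  congr 1
  ext r
  change Localization.mk (aeval g (C r)) ⟨aeval g 1, _⟩ = Localization.mk (C r) ⟨1, _⟩
  simp

theorem map_str {m m' : ℕ} (g : Fin (m + 1) → MvPolynomial (Fin (m' + 1)) k)
    (hg : ∀ i, (g i).IsHomogeneous 1) (hψ) :
    Proj.map (lin g hg) hψ ≫ projStr k m = projStr k m' :=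
  (Proj.mapAffineOpenCover _ hψ).openCover.hom_ext _ _ fun s =>
    str_aux g hg hψ s.1.2 s.2 s.2.2

theorem exists_emb {n : ℕ} (f : MvPolynomial (Fin (n + 2)) k) (hf : f.IsHomogeneous 1)
    (h0 : f ≠ 0) : ∃ i : (Var.proj k n).X ⟶ (Var.proj k (n + 1)).X, IsClosedImmersion i ∧
      i ≫ (Var.proj k (n + 1)).s = (Var.proj k n).s ∧
      ∀ p : Proj (homogeneousSubmodule (Fin (n + 2)) k),
        (∃ y, i y = p) ↔ f ∈ p.asHomogeneousIdeal := by
  have ha : ∀ j, ∃ a : k, pderiv j f = C a := fun j => by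
    have h1 : pderiv j f ∈ homogeneousSubmodule (Fin (n + 2)) k 0 := hf.pderiv
    rw [homogeneousSubmodule_zero, Submodule.mem_one] at h1
    obtain ⟨a, ha⟩ := h1
    exact ⟨a, ha.symm⟩
  choose a ha using ha
  have hf' : f = ∑ j, X j * C (a j) := by
    have := hf.sum_X_mul_pderiv
    simp only [ha, one_smul] at this
    exact this.symm
  obtain ⟨j, hj⟩ : ∃ j, a j ≠ 0 := by
    by_contra! h
    exact h0 (by simp [hf', h])
  rw [Fin.sum_univ_succAbove _ j] at hf'
  let g : Fin (n + 2) → MvPolynomial (Fin (n + 1)) k :=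
    j.insertNth (-(C (a j)⁻¹ * ∑ i, X i * C (a (j.succAbove i)))) X
  have hg : ∀ i, (g i).IsHomogeneous 1 := by
    refine j.succAboveCases ?_ fun i => ?_
    · simp only [g, Fin.insertNth_apply_same]
      exact ((IsHomogeneous.sum _ _ _ fun i _ =>
        (isHomogeneous_X k i).mul (isHomogeneous_C _ _)).C_mul _).neg
    · simp only [g, Fin.insertNth_apply_succAbove]
      exact isHomogeneous_X k i
  let ψ := lin g hg
  let s := lin (fun i : Fin (n + 1) => (X (j.succAbove i) : MvPolynomial (Fin (n + 2)) k))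
    fun i => isHomogeneous_X k _
  have hs : ∀ y, ψ (s y) = y := fun y => by
    rw [lin_apply, lin_apply, ← AlgHom.comp_apply, comp_aeval]
    simp [g]
  have hc : (C (a j) : MvPolynomial (Fin (n + 1)) k) * C (a j)⁻¹ = 1 := by
    rw [← map_mul, mul_inv_cancel₀ hj, map_one]
  have hc' : (C (a j) : MvPolynomial (Fin (n + 2)) k) * C (a j)⁻¹ = 1 := by
    rw [← map_mul, mul_inv_cancel₀ hj, map_one]
  have hψf : ψ f = 0 := by
    rw [lin_apply, hf']
    simp only [map_add, map_mul, map_sum, aeval_X, aeval_C, algebraMap_eq, g,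
      Fin.insertNth_apply_same, Fin.insertNth_apply_succAbove]
    linear_combination (-∑ i, X i * C (a (j.succAbove i))) * hc
  have hsub : ∀ y, y - s (ψ y) ∈ Ideal.span {f} := fun y => by
    rw [← Ideal.Quotient.eq]
    have : Ideal.Quotient.mkₐ k (Ideal.span {f}) = (Ideal.Quotient.mkₐ k (Ideal.span {f})).comp
        ((aeval fun i => X (j.succAbove i)).comp (aeval g)) := by
      refine algHom_ext (j.succAboveCases ?_ fun i => by simp [g])
      simp only [AlgHom.comp_apply, Ideal.Quotient.mkₐ_eq_mk, aeval_X, g,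
        Fin.insertNth_apply_same]
      rw [Ideal.Quotient.eq, Ideal.mem_span_singleton']
      refine ⟨C (a j)⁻¹, ?_⟩
      simp only [map_neg, map_mul, map_sum, aeval_X, aeval_C, algebraMap_eq]
      rw [hf']
      linear_combination (X j) * hc'
    exact DFunLike.congr_fun this y
  have hψ : HomogeneousIdeal.irrelevant (homogeneousSubmodule (Fin (n + 1)) k) ≤
      (HomogeneousIdeal.irrelevant (homogeneousSubmodule (Fin (n + 2)) k)).map ψ := by
    refine irr_le fun i => ?_
    have e : s (X i) = X (j.succAbove i) := aeval_X _ _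
    rw [← hs (X i), e]
    exact Ideal.mem_map_of_mem _ (X_irr _)
  refine ⟨Proj.map ψ hψ, closed_map ψ s hs hψ, map_str g hg hψ, fun p => ⟨?_, fun hp => ?_⟩⟩
  · rintro ⟨y, rfl⟩
    change ψ f ∈ y.asHomogeneousIdeal
    rw [hψf]
    exact zero_mem _
  · have hp' : Ideal.span {f} ≤ p.asHomogeneousIdeal.toIdeal :=
      (Ideal.span_singleton_le_iff_mem _).2 hp
    refine ⟨⟨p.asHomogeneousIdeal.comap s, p.isPrime.comap s, fun hle => ?_⟩, ?_⟩
    · have h1 : ∀ i, X (j.succAbove i) ∈ p.asHomogeneousIdeal.toIdeal := fun i => by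
        have : s (X i) ∈ p.asHomogeneousIdeal := hle (X_irr i)
        rwa [lin_apply, aeval_X] at this
      refine p.not_irrelevant_le (irr_le (j.succAboveCases ?_ h1))
      have h2 : X j = C (a j)⁻¹ * (f - ∑ i, X (j.succAbove i) * C (a (j.succAbove i))) := by
        rw [hf']
        linear_combination (-X j) * hc'
      rw [h2]
      exact Ideal.mul_mem_left _ _ (sub_mem hp
        (sum_mem fun i _ => Ideal.mul_mem_right _ _ (h1 i)))
    · refine ProjectiveSpectrum.ext (HomogeneousIdeal.ext (Ideal.ext fun y => ?_))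
      change s (ψ y) ∈ p.asHomogeneousIdeal.toIdeal ↔ _
      exact ⟨fun h => (Submodule.sub_mem_iff_left _ h).1 (hp' (hsub y)), fun h =>
        (Submodule.sub_mem_iff_right _ h).1 (hp' (hsub y))⟩

end SLin

theorem cls_of_deg_one {k : Type} [Field k] {n : ℕ} {H : Var k} (h : IsSmoothHyp (n + 1) 1 H) :
    cls H = cls (Var.proj k n) := by
  obtain ⟨f, i, hf, hi, his, hr, hs⟩ := h
  have h0 : f ≠ 0 := by
    rintro rfl
    exact one_ne_zero (congrFun (hs 1 (by simp) (by simp)) 0)
  obtain ⟨i', hi', his', hr'⟩ := SLin.exists_emb f hf h0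
  obtain ⟨l, hl⟩ := exists_lift i' i fun p hp => (hr' p).2 ((hr p).1 hp)
  obtain ⟨l', hl'⟩ := exists_lift i i' fun p hp => (hr p).2 ((hr' p).1 hp)
  refine cls_iso _ _ ⟨l, l', ?_, ?_⟩ ?_
  · rw [← cancel_mono i, Category.assoc, hl', hl, Category.id_comp]
  · rw [← cancel_mono i', Category.assoc, hl, hl', Category.id_comp]
  · rw [← his', ← Category.assoc, hl, his]

theorem converges_zero {k : Type} [Field k] [CharZero k] : Converges (fun _ => (0 : Mk k)) := by
  refine ⟨⟨fun _ => 0, fun m m' x h hx => ?_⟩, fun m => ⟨0, fun _ _ => rfl⟩⟩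
  refine ((QuotientAddGroup.eq_zero_iff x).2 ?_).symm
  refine AddSubgroup.closure_mono ?_ ((QuotientAddGroup.eq_zero_iff x).1 hx.symm)
  rintro _ ⟨X, i, hi, rfl⟩
  exact ⟨X, i, le_trans (add_le_add le_rfl (by exact_mod_cast h)) hi, rfl⟩

end

end Pool.Agent.MP_696f7f_ag.H96
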