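import Mathlib

/-! Products of reduced schemes of finite type over a field of characteristic zero are reduced;
projective space is reduced. -/

namespace Pool.Agent.MP_696f7f_ag.H96

open AlgebraicGeometry CategoryTheory Limits

namespace SRed

open TensorProduct

theorem flat_unram (R F K : Type) [CommRing R] [IsDomain R] [Field F] [CharZero F] [Field K]
    [Algebra R F] [IsFractionRing R F] [Algebra R K] [Algebra F K] [IsScalarTower R F K]
    [Algebra.IsAlgebraic R K] : Module.Flat R K ∧ Algebra.FormallyUnramified R K := by
  have : Algebra.IsAlgebraic F K := Algebra.IsAlgebraic.extendScalars (R := R) (S := F)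
    (IsFractionRing.injective R F)
  have : Algebra.IsSeparable F K := inferInstance
  have : Algebra.FormallyUnramified F K := Algebra.FormallyUnramified.of_isSeparable F K
  have : Algebra.FormallyUnramified R F :=
    Algebra.FormallyUnramified.of_isLocalization (nonZeroDivisors R)
  have : Module.Flat R F := IsLocalization.flat F (nonZeroDivisors R)
  exact ⟨Module.Flat.trans R F K, Algebra.FormallyUnramified.comp R F K⟩

theorem red_of_unram (R K D M : Type) [CommRing R] [CommRing K] [CommRing D] [Field M]
    [Algebra R K] [Algebra R D] [Algebra R M] [Module.Flat R K] [Algebra.FormallyUnramified R K]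
    [Algebra.EssFiniteType R K] (φ : D →ₐ[R] M) (hφ : Function.Injective φ) :
    _root_.IsReduced (K ⊗[R] D) := by
  have h1 : _root_.IsReduced (M ⊗[R] K) := Algebra.FormallyUnramified.isReduced_of_field M _
  have h2 : _root_.IsReduced (K ⊗[R] M) :=
    isReduced_of_injective (Algebra.TensorProduct.comm R K M)
      (Algebra.TensorProduct.comm R K M).injective
  exact isReduced_of_injective (Algebra.TensorProduct.map (AlgHom.id R K) φ)
    (Module.Flat.lTensor_preserves_injective_linearMap φ.toLinearMap hφ)

theorem red_of_domain (R K D : Type) [CommRing R] [CommRing K] [CommRing D] [IsDomain D]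
    [Algebra R K] [Algebra R D] [Module.Flat R K] [Algebra.FormallyUnramified R K]
    [Algebra.EssFiniteType R K] : _root_.IsReduced (K ⊗[R] D) :=
  red_of_unram R K D (FractionRing D) (IsScalarTower.toAlgHom R D (FractionRing D))
    (IsFractionRing.injective D (FractionRing D))

theorem red_tower (k R K L : Type) [Field k] [CharZero k] [CommRing R] [IsDomain R] [Field K]
    [Field L] [Algebra k R] [Algebra k K] [Algebra R K] [IsScalarTower k R K] [FaithfulSMul R K]
    [Algebra k L] [Algebra.EssFiniteType k K] [Algebra.IsAlgebraic R K] [IsDomain (R ⊗[k] L)] :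
    _root_.IsReduced (K ⊗[k] L) := by
  have : CharZero R := Algebra.charZero_of_charZero k R
  let := FractionRing.liftAlgebra R K
  have := FractionRing.isScalarTower_liftAlgebra R K
  obtain ⟨h1, h2⟩ := flat_unram R (FractionRing R) K
  have : Algebra.EssFiniteType R K := Algebra.EssFiniteType.of_comp k R K
  have h3 := red_of_domain R K (R ⊗[k] L)
  exact isReduced_of_injective (Algebra.TensorProduct.cancelBaseChange k R R K L).symm
    (Algebra.TensorProduct.cancelBaseChange k R R K L).symm.injective

theorem red_essFiniteType (k K L : Type) [Field k] [CharZero k] [Field K] [Field L] [Algebra k K]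
    [Algebra k L] [Algebra.EssFiniteType k K] : _root_.IsReduced (K ⊗[k] L) := by
  obtain ⟨s, hs⟩ := exists_isTranscendenceBasis k K
  have halg := hs.isAlgebraic
  have e := hs.1.aevalEquiv
  have e1 : (Algebra.adjoin k (Set.range ((↑) : s → K))) ⊗[k] L ≃+* MvPolynomial s L :=
    ((Algebra.TensorProduct.comm k _ L).trans
      (Algebra.TensorProduct.congr AlgEquiv.refl e.symm)).toRingEquiv.trans
      (MvPolynomial.algebraTensorAlgEquiv k L).toRingEquiv
  have hdom := e1.toMulEquiv.isDomain _
  exact red_tower k (Algebra.adjoin k (Set.range ((↑) : s → K))) K L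

theorem red_fields (k K L : Type) [Field k] [CharZero k] [Field K] [Field L] [Algebra k K]
    [Algebra k L] : _root_.IsReduced (L ⊗[k] K) := by
  refine IsReduced.tensorProduct_of_flat_of_forall_fg fun B hB => ?_
  have : Algebra.FiniteType k B := (Subalgebra.fg_iff_finiteType B).1 hB
  have : Algebra.EssFiniteType B (FractionRing B) :=
    Algebra.EssFiniteType.of_isLocalization _ (nonZeroDivisors B)
  have : Algebra.EssFiniteType k (FractionRing B) := Algebra.EssFiniteType.comp k B _
  have h1 := red_essFiniteType k (FractionRing B) L
  have h2 : _root_.IsReduced (L ⊗[k] FractionRing B) :=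
    isReduced_of_injective (Algebra.TensorProduct.comm k L (FractionRing B))
      (Algebra.TensorProduct.comm k L (FractionRing B)).injective
  exact isReduced_of_injective
    (Algebra.TensorProduct.map (AlgHom.id k L) (IsScalarTower.toAlgHom k B (FractionRing B)))
    (Module.Flat.lTensor_preserves_injective_linearMap
      (IsScalarTower.toAlgHom k B (FractionRing B)).toLinearMap (IsFractionRing.injective _ _))

theorem geomRed_field (k K : Type) [Field k] [CharZero k] [Field K] [Algebra k K] :
    GeometricallyReduced (Spec.map (CommRingCat.ofHom (algebraMap k K))) := by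
  rw [geometricallyReduced_iff, geometrically_iff_of_commRing_of_isClosedUnderIsomorphisms]
  intro L _ _
  have := red_fields k L K
  exact isReduced_of_isOpenImmersion (pullbackSpecIso k K L).hom

theorem geomRed {k : Type} [Field k] [CharZero k] {X : Scheme.{0}}
    (f : X ⟶ Spec (.of k)) [LocallyOfFiniteType f] [IsReduced X] : GeometricallyReduced f := by
  rw [geometricallyReduced_iff, geometrically_iff_of_commRing_of_isClosedUnderIsomorphisms]
  intro K _ _
  have := geomRed_field k K
  have : IsLocallyNoetherian X := LocallyOfFiniteType.isLocallyNoetherian f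
  exact (inferInstance : IsReduced (pullback f (Spec.map (CommRingCat.ofHom (algebraMap k K)))))

end SRed

theorem isReduced_pullback {k : Type} [Field k] [CharZero k] {X Y : Scheme.{0}}
    (f : X ⟶ Spec (.of k)) (g : Y ⟶ Spec (.of k)) [LocallyOfFiniteType f] [LocallyOfFiniteType g]
    [IsReduced X] [IsReduced Y] : IsReduced (pullback f g) := by
  have := SRed.geomRed f
  have : IsLocallyNoetherian Y := LocallyOfFiniteType.isLocallyNoetherian g
  infer_instance

attribute [local instance] MvPolynomial.gradedAlgebra in
theorem isReduced_proj (k : Type) [Field k] (n : ℕ) :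
    IsReduced (Proj (MvPolynomial.homogeneousSubmodule (Fin (n + 1)) k)) := by
  have h : ∀ x : Proj (MvPolynomial.homogeneousSubmodule (Fin (n + 1)) k),
      _root_.IsReduced
        ((Proj (MvPolynomial.homogeneousSubmodule (Fin (n + 1)) k)).presheaf.stalk x) := by
    intro x
    have hp : x.asHomogeneousIdeal.toIdeal.IsPrime := x.isPrime
    have : IsDomain (Localization.AtPrime x.asHomogeneousIdeal.toIdeal) :=
      IsLocalization.isDomain_of_atPrime _ x.asHomogeneousIdeal.toIdeal
    have : _root_.IsReduced (HomogeneousLocalization.AtPrime
        (MvPolynomial.homogeneousSubmodule (Fin (n + 1)) k) x.asHomogeneousIdeal.toIdeal) :=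
      isReduced_of_injective
        (algebraMap _ (Localization.AtPrime x.asHomogeneousIdeal.toIdeal))
        (fun _ _ h => HomogeneousLocalization.val_injective _ h)
    exact isReduced_of_injective (Proj.stalkIso _ x).commRingCatIsoToRingEquiv
      (Proj.stalkIso _ x).commRingCatIsoToRingEquiv.injective
  exact isReduced_of_isReduced_stalk _

attribute [local instance] MvPolynomial.gradedAlgebra in
theorem finiteType_proj (k : Type) [Field k] (n : ℕ) :
    Algebra.FiniteType (MvPolynomial.homogeneousSubmodule (Fin (n + 1)) k 0)
      (MvPolynomial (Fin (n + 1)) k) := by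
  have : IsScalarTower k (MvPolynomial.homogeneousSubmodule (Fin (n + 1)) k 0)
      (MvPolynomial (Fin (n + 1)) k) := 
    IsScalarTower.of_algebraMap_eq (R := k)
      (S := MvPolynomial.homogeneousSubmodule (Fin (n + 1)) k 0)
      (A := MvPolynomial (Fin (n + 1)) k) fun _ => rfl
  exact Algebra.FiniteType.of_restrictScalars_finiteType k _ _

attribute [local instance] MvPolynomial.gradedAlgebra in
theorem bijective_zero (k : Type) [Field k] (n : ℕ) :
    Function.Bijective (algebraMap k (MvPolynomial.homogeneousSubmodule (Fin (n + 1)) k 0)) := by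
  constructor
  · intro a b hab
    have h1 : (MvPolynomial.C a : MvPolynomial (Fin (n + 1)) k) = MvPolynomial.C b :=
      congrArg Subtype.val hab
    exact MvPolynomial.C_injective _ _ h1
  · rintro ⟨p, hp⟩
    have h1 := hp
    rw [MvPolynomial.homogeneousSubmodule_zero, Submodule.mem_one] at h1
    obtain ⟨a, ha⟩ := h1
    exact ⟨a, Subtype.ext ha⟩

end Pool.Agent.MP_696f7f_ag.H96
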