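import Pool.Agent.MP_696f7f_ag.H96.SRed

/-! Varieties over a field, products, the point, the affine line, projective spaces,
smooth hypersurfaces. -/

namespace Pool.Agent.MP_696f7f_ag.H96

open AlgebraicGeometry CategoryTheory Limits

noncomputable section

/-- a variety over `k`: a separated reduced scheme of finite type over `k` -/
structure Var (k : Type) [Field k] where
  X : Scheme.{0}
  s : X ⟶ Spec (.of k)
  sep : IsSeparated s
  lft : LocallyOfFiniteType s
  qc : QuasiCompact s
  red : IsReduced X

attribute [instance] Var.sep Var.lft Var.qc Var.red

variable {k : Type} [Field k]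

/-- the fibre product over `k` -/
def Var.prod [CharZero k] (X Y : Var k) : Var k where
  X := pullback X.s Y.s
  s := pullback.fst X.s Y.s ≫ X.s
  sep := inferInstance
  lft := inferInstance
  qc := inferInstance
  red := isReduced_pullback X.s Y.s

/-- the point `Spec k` -/
def Var.pt (k : Type) [Field k] : Var k where
  X := Spec (.of k)
  s := 𝟙 _
  sep := inferInstance
  lft := inferInstance
  qc := inferInstance
  red := inferInstance

theorem lft_line (k : Type) [Field k] :
    LocallyOfFiniteType (Spec.map (CommRingCat.ofHom (algebraMap k (Polynomial k)))) := by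
  rw [HasRingHomProperty.Spec_iff (P := @LocallyOfFiniteType)]
  exact RingHom.finiteType_algebraMap.mpr inferInstance

/-- the affine line `Spec k[X]` -/
def Var.line (k : Type) [Field k] : Var k where
  X := Spec (.of (Polynomial k))
  s := Spec.map (CommRingCat.ofHom (algebraMap k (Polynomial k)))
  sep := inferInstance
  lft := lft_line k
  qc := inferInstance
  red := inferInstance

attribute [local instance] MvPolynomial.gradedAlgebra

/-- the structure morphism of projective space -/
def projStr (k : Type) [Field k] (n : ℕ) :
    Proj (MvPolynomial.homogeneousSubmodule (Fin (n + 1)) k) ⟶ Spec (.of k) :=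
  Proj.toSpecZero _ ≫ Spec.map (CommRingCat.ofHom
    (algebraMap k (MvPolynomial.homogeneousSubmodule (Fin (n + 1)) k 0)))

theorem isProper_projStr (k : Type) [Field k] (n : ℕ) : IsProper (projStr k n) := by
  have := finiteType_proj k n
  have : IsIso (CommRingCat.ofHom
    (algebraMap k (MvPolynomial.homogeneousSubmodule (Fin (n + 1)) k 0))) :=
    (ConcreteCategory.isIso_iff_bijective _).mpr (bijective_zero k n)
  unfold projStr
  infer_instance

/-- projective `n`-space `Proj k[x_0, ..., x_n]` -/
def Var.proj (k : Type) [Field k] (n : ℕ) : Var k where
  X := Proj (MvPolynomial.homogeneousSubmodule (Fin (n + 1)) k)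
  s := projStr k n
  sep := (isProper_projStr k n).toIsSeparated
  lft := (isProper_projStr k n).toLocallyOfFiniteType
  qc := have := isProper_projStr k n; inferInstance
  red := isReduced_proj k n

/-- `H` is a smooth hypersurface of degree `d` in projective `n`-space: a closed subvariety whose
support is the zero locus of a form `f` of degree `d` such that `f` and its first derivatives have
no common zero other than the origin over the algebraic closure of `k`. -/
def IsSmoothHyp (n d : ℕ) (H : Var k) : Prop :=
  ∃ (f : MvPolynomial (Fin (n + 1)) k) (i : H.X ⟶ (Var.proj k n).X),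
    f.IsHomogeneous d ∧ IsClosedImmersion i ∧ i ≫ (Var.proj k n).s = H.s ∧
    (∀ p : Proj (MvPolynomial.homogeneousSubmodule (Fin (n + 1)) k),
      (∃ y, i y = p) ↔ f ∈ p.asHomogeneousIdeal) ∧
    ∀ x : Fin (n + 1) → AlgebraicClosure k, MvPolynomial.aeval x f = 0 →
      (∀ j, MvPolynomial.aeval x (MvPolynomial.pderiv j f) = 0) → x = 0

end

end Pool.Agent.MP_696f7f_ag.H96
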