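import Pool.Agent.MP_696f7f_ag.H96.TFin

/-!
Alexander-Spanier cochains as functions on lists of points.
-/

namespace Pool.Agent.MP_696f7f_ag.H96.Cohom

open Set Filter Topology

/-- cochains -/
abbrev Co (X : Type) := List X → ZMod 2

section
variable {X Y : Type}

/-- the value of the coboundary on a list -/
def dL : List X → (Co X →ₗ[ZMod 2] ZMod 2)
  | [] => 0
  | x :: l => LinearMap.proj l + dL l ∘ₗ LinearMap.funLeft _ _ (List.cons x)

/-- the coboundary -/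
def dA : Co X →ₗ[ZMod 2] Co X := LinearMap.pi dL

@[simp] theorem dA_nil (φ : Co X) : dA φ [] = 0 := rfl

theorem dA_cons (φ : Co X) (x : X) (l : List X) :
    dA φ (x :: l) = φ l + dA (fun m => φ (x :: m)) l := rfl

theorem dA_eq_zero (l : List X) : ∀ φ : Co X,
    (∀ m, m.Sublist l → m.length + 1 = l.length → φ m = 0) → dA φ l = 0 := by
  induction l with
  | nil => simp
  | cons x l ih =>
    intro φ h
    rw [dA_cons, h l (by simp) (by simp), ih _ fun m a b => h _ (by simpa using a) (by simp [b]),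
      add_zero]

theorem dA_dA (φ : Co X) : dA (dA φ) = 0 := by
  funext l
  induction l generalizing φ with
  | nil => rfl
  | cons x l ih =>
    have : (fun m => dA φ (x :: m)) = φ + dA (fun m => φ (x :: m)) := rfl
    rw [dA_cons, this, map_add, Pi.add_apply, ih]
    simp [CharTwo.add_self_eq_zero]

/-- pull-back of cochains -/
def pull (f : X → Y) : Co Y →ₗ[ZMod 2] Co X := LinearMap.funLeft _ _ (List.map f)

@[simp] theorem pull_apply (f : X → Y) (φ : Co Y) (l : List X) : pull f φ l = φ (l.map f) := rfl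

theorem dA_pull (f : X → Y) (φ : Co Y) : dA (pull f φ) = pull f (dA φ) := by
  funext l
  induction l generalizing φ with
  | nil => rfl
  | cons x l ih => exact congrArg (φ (l.map f) + ·) (ih fun m => φ (f x :: m))

theorem pull_pull {Z : Type} (f : X → Y) (g : Y → Z) (φ : Co Z) :
    pull f (pull g φ) = pull (g ∘ f) φ := by funext l; simp

theorem pull_id (φ : Co X) : pull id φ = φ := by funext l; simp

/-- cochains supported on nonempty lists of length `n` -/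
def GA (X : Type) (n : ℕ) : Submodule (ZMod 2) (Co X) where
  carrier := {φ | φ [] = 0 ∧ ∀ l, l.length ≠ n → φ l = 0}
  add_mem' a b := ⟨by simp [a.1, b.1], fun l h => by simp [a.2 l h, b.2 l h]⟩
  zero_mem' := ⟨rfl, fun _ _ => rfl⟩
  smul_mem' c _ a := ⟨by simp [a.1], fun l h => by simp [a.2 l h]⟩

/-- the complex of cochains -/
def asC (X : Type) : Cx (Co X) where
  G := GA X
  d := dA
  G0 φ h := funext fun l => by
    rcases l with _ | ⟨x, l⟩
    exacts [h.1, h.2 _ (by simp)]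
  dG n φ h := ⟨rfl, fun l hl => dA_eq_zero l φ fun m _ b => h.2 m (by omega)⟩

theorem pull_G (f : X → Y) {n : ℕ} {φ : Co Y} (h : φ ∈ GA Y n) : pull f φ ∈ GA X n :=
  ⟨h.1, fun l hl => h.2 _ (by simpa using hl)⟩

/-- product with a function of the first point -/
def m0 (η : X → ZMod 2) : Co X →ₗ[ZMod 2] Co X := LinearMap.pi fun
  | [] => 0
  | x :: l => η x • LinearMap.proj (x :: l)

/-- cup product with a function of two points -/
def m1 (ξ : X → X → ZMod 2) : Co X →ₗ[ZMod 2] Co X := LinearMap.pi fun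
  | [] => 0
  | [_] => 0
  | x :: y :: l => ξ x y • LinearMap.proj (y :: l)

@[simp] theorem m0_nil (η : X → ZMod 2) (φ : Co X) : m0 η φ [] = 0 := rfl
@[simp] theorem m0_cons (η : X → ZMod 2) (φ : Co X) (x : X) (l : List X) :
    m0 η φ (x :: l) = η x * φ (x :: l) := rfl
@[simp] theorem m1_nil (ξ : X → X → ZMod 2) (φ : Co X) : m1 ξ φ [] = 0 := rfl
@[simp] theorem m1_one (ξ : X → X → ZMod 2) (φ : Co X) (x : X) : m1 ξ φ [x] = 0 := rfl
@[simp] theorem m1_cons (ξ : X → X → ZMod 2) (φ : Co X) (x y : X) (l : List X) :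
    m1 ξ φ (x :: y :: l) = ξ x y * φ (y :: l) := rfl

theorem m0_G (η : X → ZMod 2) {n : ℕ} {φ : Co X} (h : φ ∈ GA X n) : m0 η φ ∈ GA X n :=
  ⟨rfl, fun l hl => by rcases l with _ | ⟨x, l⟩ <;> simp [h.2 _ hl]⟩

theorem m1_G (ξ : X → X → ZMod 2) {n : ℕ} {φ : Co X} (h : φ ∈ GA X n) :
    m1 ξ φ ∈ GA X (n + 1) :=
  ⟨rfl, fun l hl => by
    rcases l with _ | ⟨x, _ | ⟨y, l⟩⟩
    · rfl
    · rfl
    · simp [h.2 (y :: l) (by simpa using hl)]⟩

theorem pull_m0 (f : X → Y) (η : Y → ZMod 2) (φ : Co Y) :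
    pull f (m0 η φ) = m0 (fun x => η (f x)) (pull f φ) := by
  funext l; rcases l with _ | ⟨x, l⟩ <;> simp

theorem pull_m1 (f : X → Y) (ξ : Y → Y → ZMod 2) (φ : Co Y) :
    pull f (m1 ξ φ) = m1 (fun x y => ξ (f x) (f y)) (pull f φ) := by
  funext l; rcases l with _ | ⟨x, _ | ⟨y, l⟩⟩ <;> simp

theorem dA_mul (c : ZMod 2) (φ : Co X) (l : List X) : dA (fun m => c * φ m) l = c * dA φ l :=
  congrFun (dA.map_smul c φ) l

theorem dA_m0 (η : X → ZMod 2) {φ : Co X} (h : φ [] = 0) :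
    dA (m0 η φ) = m0 η (dA φ) + m1 (fun x y => η x + η y) φ := by
  funext l
  rcases l with _ | ⟨x, _ | ⟨y, l⟩⟩
  · rfl
  · simp [dA_cons, h]
  · simp only [dA_cons φ x, dA_cons (m0 η φ) x, m0_cons, dA_mul, Pi.add_apply, m1_cons]
    linear_combination (-(η x * φ (y :: l))) * (CharTwo.two_eq_zero (R := ZMod 2))

/-- cochains vanishing on the lists of points of `U` -/
def VU (U : Set X) : Submodule (ZMod 2) (Co X) where
  carrier := {φ | ∀ l : List X, (∀ y ∈ l, y ∈ U) → φ l = 0}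
  add_mem' a b l h := by simp [a l h, b l h]
  zero_mem' _ _ := rfl
  smul_mem' c _ a l h := by simp [a l h]

theorem VU_anti {U U' : Set X} (h : U ⊆ U') {φ : Co X} (a : φ ∈ VU U') : φ ∈ VU U :=
  fun l hl => a l fun y hy => h (hl y hy)

theorem dA_VU {U : Set X} {φ : Co X} (a : φ ∈ VU U) : dA φ ∈ VU U :=
  fun l hl => dA_eq_zero l φ fun m h _ => a m fun y hy => hl y (h.subset hy)

theorem m0_VU {U : Set X} (η : X → ZMod 2) {φ : Co X} (a : φ ∈ VU U) : m0 η φ ∈ VU U :=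
  fun l hl => by rcases l with _ | ⟨x, l⟩ <;> simp [a _ hl]

theorem m1_VU {U : Set X} (ξ : X → X → ZMod 2) {φ : Co X} (a : φ ∈ VU U) : m1 ξ φ ∈ VU U :=
  fun l hl => by
    rcases l with _ | ⟨x, _ | ⟨y, l⟩⟩
    · rfl
    · rfl
    · simp [a (y :: l) fun z hz => hl z (List.mem_cons_of_mem _ hz)]

theorem m0_VU' {U : Set X} {η η' : X → ZMod 2} (φ : Co X) (a : ∀ x ∈ U, η x = η' x) :
    m0 η φ + m0 η' φ ∈ VU U := fun l hl => by
  rcases l with _ | ⟨x, l⟩
  · rfl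
  · simp [a x (hl x (by simp)), CharTwo.add_self_eq_zero]

theorem m1_VU' {U : Set X} {ξ ξ' : X → X → ZMod 2} (φ : Co X)
    (a : ∀ x ∈ U, ∀ y ∈ U, ξ x y = ξ' x y) : m1 ξ φ + m1 ξ' φ ∈ VU U := fun l hl => by
  rcases l with _ | ⟨x, _ | ⟨y, l⟩⟩
  · rfl
  · rfl
  · simp [a x (hl x (by simp)) y (hl y (by simp)), CharTwo.add_self_eq_zero]

theorem m0_zero (φ : Co X) : m0 (fun _ => 0) φ = 0 := by
  funext l; rcases l with _ | ⟨x, l⟩ <;> simp

theorem m0_one {φ : Co X} (h : φ [] = 0) : m0 (fun _ => 1) φ = φ := by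
  funext l; rcases l with _ | ⟨x, l⟩ <;> simp [h]

theorem m1_zero (φ : Co X) : m1 (fun _ _ => 0) φ = 0 := by
  funext l; rcases l with _ | ⟨x, _ | ⟨y, l⟩⟩ <;> simp

theorem m1_add (ξ ξ' : X → X → ZMod 2) (φ : Co X) :
    m1 (fun x y => ξ x y + ξ' x y) φ = m1 ξ φ + m1 ξ' φ := by
  funext l; rcases l with _ | ⟨x, _ | ⟨y, l⟩⟩ <;> simp [add_mul]

theorem dA_m1 {U : Set X} {ξ : X → X → ZMod 2} {σ : X → ZMod 2}
    (a : ∀ x ∈ U, ∀ y ∈ U, ξ x y = σ x + σ y) {φ : Co X} (h : φ [] = 0) :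
    m1 ξ (dA φ) + dA (m1 ξ φ) ∈ VU U := by
  have h1 := dA_m0 σ (φ := dA φ) rfl
  have h2 := congrArg dA (dA_m0 σ h)
  rw [dA_dA, map_zero, zero_add] at h1
  rw [dA_dA, map_add, h1] at h2
  exact fx (add_mem (add_mem (m1_VU' (dA φ) a) (dA_VU (m1_VU' φ a))) (h2 ▸ zero_mem (VU U))) (by
    simp only [map_add]; match_scalars <;> decide)

/-- the constant cochain of degree zero -/
def one : Co X := fun l => if l.length = 1 then 1 else 0

@[simp] theorem one_sing (x : X) : one [x] = 1 := rfl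

theorem one_G : (one : Co X) ∈ GA X 1 := ⟨rfl, fun _ h => if_neg h⟩

theorem pull_one (f : X → Y) : pull f one = one := by funext l; simp [one]

theorem dA_two (φ : Co X) (x y : X) : dA φ [x, y] = φ [y] + φ [x] := by simp [dA_cons]

theorem dA_one : dA (one : Co X) = 0 := by
  funext l
  by_cases h : l.length = 2
  · obtain ⟨x, y, rfl⟩ := List.length_eq_two.1 h
    simp [dA_two, CharTwo.add_self_eq_zero]
  · exact ((asC X).dG 1 _ one_G).2 l h

/-- the basis of the cohomology of a point -/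
def u0 : ℕ → Co X
  | 0 => one
  | _ + 1 => 0

variable [TopologicalSpace X] [TopologicalSpace Y]

/-- cochains that vanish on lists of points of `A` close to a point of `K` -/
def NA (A K : Set X) : Submodule (ZMod 2) (Co X) where
  carrier := {φ | ∀ x ∈ K, ∃ U ∈ 𝓝[A] x, φ ∈ VU U}
  add_mem' a b x hx := by
    obtain ⟨U, a1, a2⟩ := a x hx
    obtain ⟨U', b1, b2⟩ := b x hx
    exact ⟨U ∩ U', inter_mem a1 b1,
      add_mem (VU_anti inter_subset_left a2) (VU_anti inter_subset_right b2)⟩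
  zero_mem' _ _ := ⟨univ, univ_mem, zero_mem _⟩
  smul_mem' c _ a x hx := let ⟨U, a1, a2⟩ := a x hx; ⟨U, a1, (VU U).smul_mem c a2⟩

variable {A K : Set X} {B L : Set Y}

theorem NA_lift {φ ψ : Co X} (h : φ ∈ NA A K) (H : ∀ U, φ ∈ VU U → ψ ∈ VU U) : ψ ∈ NA A K :=
  fun x hx => let ⟨U, a, b⟩ := h x hx; ⟨U, a, H U b⟩

theorem dA_NA {φ : Co X} (h : φ ∈ NA A K) : dA φ ∈ NA A K := NA_lift h fun _ => dA_VU
theorem m0_NA (η : X → ZMod 2) {φ : Co X} (h : φ ∈ NA A K) : m0 η φ ∈ NA A K :=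
  NA_lift h fun _ => m0_VU η
theorem m1_NA (ξ : X → X → ZMod 2) {φ : Co X} (h : φ ∈ NA A K) : m1 ξ φ ∈ NA A K :=
  NA_lift h fun _ => m1_VU ξ

theorem NA_mono {A' K' : Set X} (h : A' ⊆ A) (h' : K' ⊆ K) : NA A K ≤ NA A' K' :=
  fun _ a x hx => let ⟨U, b, c⟩ := a x (h' hx); ⟨U, nhdsWithin_mono x h b, c⟩

theorem NA_val {φ : Co X} (h : φ ∈ NA A K) {x : X} (hx : x ∈ K) (hA : x ∈ A) : φ [x] = 0 :=
  let ⟨_, a, b⟩ := h x hx; b _ (by simpa using mem_of_mem_nhdsWithin hA a)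

theorem pull_NA {f : X → Y} (hf : ContinuousOn f A) (hm : MapsTo f A B) (hK : K ⊆ A)
    (hL : MapsTo f K L) {φ : Co Y} (h : φ ∈ NA B L) : pull f φ ∈ NA A K := fun x hx =>
  let ⟨U, a, b⟩ := h _ (hL hx)
  ⟨f ⁻¹' U, (hf x (hK hx)).tendsto_nhdsWithin hm a, fun l hl => b _ (by simpa using hl)⟩

theorem pull_ex {f : X → Y} (hf : ContinuousOn f A) (hm : MapsTo f A B) (hK : K ⊆ A)
    (hL : MapsTo f K L) {n : ℕ} {φ : Co Y} (h : (asC Y).Ex (NA B L) n φ) :
    (asC X).Ex (NA A K) n (pull f φ) :=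
  let ⟨ψ, a, b⟩ := h
  ⟨pull f ψ, pull_G f a, by
    have := pull_NA hf hm hK hL b
    rwa [map_add, show (asC Y).d = dA from rfl, ← dA_pull] at this⟩

theorem pull_cyc {f : X → Y} (hf : ContinuousOn f A) (hm : MapsTo f A B) (hK : K ⊆ A)
    (hL : MapsTo f K L) {φ : Co Y} (h : dA φ ∈ NA B L) : dA (pull f φ) ∈ NA A K := by
  rw [dA_pull]; exact pull_NA hf hm hK hL h

omit [TopologicalSpace Y] in
theorem pull_congr {f g : X → Y} (h : ∀ x ∈ A, f x = g x) (φ : Co Y) :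
    pull f φ + pull g φ ∈ NA A K := fun _ _ => ⟨A, self_mem_nhdsWithin, fun l hl => by
  simp [List.map_congr_left fun y hy => h y (hl y hy), CharTwo.add_self_eq_zero]⟩

/-- the cochains with supports over the space itself -/
def AS [T2Space X] (A : Set X) : Soft X (Co X) where
  toCx := asC X
  N := NA A
  dN _ _ := dA_NA
  dd _ _ φ _ := by rw [show (asC X).d = dA from rfl, dA_dA]; exact zero_mem _
  anti h := NA_mono subset_rfl h
  glue a b x hx := hx.elim (a x) (b x)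
  emp _ _ h := h.elim
  mv {n K L φ} hK hL h h' := by
    classical
    have hO : IsOpen {x | ∃ U ∈ 𝓝[A] x, φ ∈ VU U} := isOpen_iff_eventually.2 fun x ⟨U, a, b⟩ =>
      (eventually_nhds_nhdsWithin.2 a).mono fun y hy => ⟨U, hy, b⟩
    obtain ⟨O1, O2, a1, a2, a3, a4, a5⟩ := SeparatedNhds.of_isCompact_isCompact (hK.diff hO)
      (hL.diff hO) (disjoint_left.2 fun x hx hx' => hx.2 (h' x ⟨hx.1, hx'.1⟩))
    refine ⟨m0 (O2.indicator 1) φ, m0_G _ h, fun x hx => ?_, fun x hx => ?_⟩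
    · by_cases e : ∃ U ∈ 𝓝[A] x, φ ∈ VU U
      · obtain ⟨U, b, c⟩ := e
        exact ⟨U, b, m0_VU _ c⟩
      · refine ⟨O1, mem_nhdsWithin_of_mem_nhds (a1.mem_nhds (a3 ⟨hx, e⟩)), ?_⟩
        simpa [m0_zero] using m0_VU' (η' := fun _ => 0) φ fun y hy =>
          indicator_of_notMem (disjoint_left.1 a5 hy) 1
    · by_cases e : ∃ U ∈ 𝓝[A] x, φ ∈ VU U
      · obtain ⟨U, b, c⟩ := e
        exact ⟨U, b, add_mem c (m0_VU _ c)⟩
      · refine ⟨O2, mem_nhdsWithin_of_mem_nhds (a2.mem_nhds (a4 ⟨hx, e⟩)), ?_⟩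
        simpa [m0_one h.1] using m0_VU' (η := fun _ => 1) φ fun y hy =>
          (indicator_of_mem hy 1).symm
  cont {z φ} h := let ⟨U, a, b⟩ := h z rfl
    ⟨_, eventually_nhds_nhdsWithin.2 a, fun _ hy => ⟨U, hy, b⟩⟩

theorem deg0 {φ : Co X} (h : φ ∈ GA X 1) (hd : dA φ ∈ NA A K) (hK : K ⊆ A)
    (h0 : ∀ x ∈ K, φ [x] = 0) : φ ∈ NA A K := fun x hx => by
  obtain ⟨U, a, b⟩ := hd x hx
  refine ⟨U, a, fun l hl => ?_⟩
  by_cases e : l.length = 1
  · obtain ⟨y, rfl⟩ := List.length_eq_one_iff.1 e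
    simpa [dA_two, h0 x hx] using b [x, y] (by
      simpa using ⟨mem_of_mem_nhdsWithin (hK hx) a, hl y (by simp)⟩)
  · exact h.2 l e

/-- the cohomology of a point -/
def BL1 (A K : Set X) : Prop := BL (asC X) (NA A K) u0 1

theorem bl1_mk {x : X} (hx : x ∈ K) (hK : K ⊆ A)
    (h0 : ∀ φ ∈ GA X 1, dA φ ∈ NA A K → ∀ y ∈ K, φ [y] = φ [x])
    (h1 : (asC X).Van (NA A K) 1) : BL1 A K where
  mem n := by rcases n with _ | n; exacts [one_G, zero_mem _]
  cyc n := by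
    rcases n with _ | n
    · exact (dA_one (X := X)).symm ▸ zero_mem (NA A K)
    · simp [u0]
  ne n hn h := by
    obtain rfl : n = 0 := by omega
    simpa [u0] using NA_val h.zero hx (hK hx)
  gen n φ hφ hd := by
    rcases n with _ | n
    · have : φ [x] = 0 ∨ φ [x] = 1 := by generalize φ [x] = c; revert c; decide
      refine this.imp (fun e => .of_mem (deg0 hφ hd hK fun y hy => (h0 φ hφ hd y hy).trans e))
        fun e => ⟨one_pos, .of_mem (deg0 (add_mem hφ one_G) ?_ hK fun y hy => ?_)⟩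
      · rw [map_add, u0, dA_one, add_zero]; exact hd
      · simp [u0, h0 φ hφ hd y hy, e, CharTwo.add_self_eq_zero]
    · exact .inl (h1 _ (by omega) φ hφ hd)

theorem BL1.van (h : BL1 A K) : (asC X).Van (NA A K) 1 := fun n hn φ a b =>
  (h.gen n φ a b).resolve_right fun e => by omega

theorem bl1_pt {x : X} (hx : x ∈ A) : BL1 A {x} := by
  refine bl1_mk rfl (singleton_subset_iff.2 hx) (by simp) fun n hn φ hφ hd => ?_
  refine ⟨fun m => φ (x :: m), ⟨hφ.2 _ (by simp; omega), fun l hl => hφ.2 _ (by simpa using hl)⟩,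
    fun y hy => ?_⟩
  obtain ⟨U, a, b⟩ := hd y hy
  obtain rfl : y = x := hy
  exact ⟨U, a, fun l hl => b (y :: l) (by simpa using ⟨mem_of_mem_nhdsWithin hx a, hl⟩)⟩

end

end Pool.Agent.MP_696f7f_ag.H96.Cohom
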