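import Pool.Agent.MP_696f7f_ag.H96.TSoft

/-!
Vanishing above the dimension and finiteness for complexes with supports.
-/

namespace Pool.Agent.MP_696f7f_ag.H96.Cohom

open Set Filter Topology

variable {Z V W : Type} [TopologicalSpace Z] [AddCommGroup V] [Module (ZMod 2) V]
  [AddCommGroup W] [Module (ZMod 2) W]

/-- gluing along an interval -/
theorem Soft.ex_Icc (S : Soft ℝ V) {a b : ℝ} {n : ℕ} {φ : V}
    (h1 : ∀ z ∈ Icc a b, S.Ex (S.N {z}) n φ) (h2 : ∀ z ∈ Icc a b, S.Onto n {z} (Icc a b)) :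
    S.Ex (S.N (Icc a b)) n φ := by
  rcases lt_or_ge b a with hab | hab
  · rw [Icc_eq_empty_of_lt hab]; exact .of_mem (S.emp _)
  refine isPreconnected_Icc.induction₂' (fun x y => S.Ex (S.N (Icc x y)) n φ) ?_ ?_
    (left_mem_Icc.2 hab) (right_mem_Icc.2 hab)
  · intro x hx
    obtain ⟨U, hU, hU'⟩ := S.ex_cont (h1 x hx)
    obtain ⟨l, u, a1, a2⟩ := mem_nhds_iff_exists_Ioo_subset.1 hU
    filter_upwards [mem_nhdsWithin_of_mem_nhds (Ioo_mem_nhds a1.1 a1.2)] with y hy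
    exact ⟨hU'.mono (S.anti ((Icc_subset_Ioo a1.1 hy.2).trans a2)),
      hU'.mono (S.anti ((Icc_subset_Ioo hy.1 a1.2).trans a2))⟩
  · intro x y z hx hy _ p q
    rcases le_total y x with h | h
    · exact q.mono (S.anti (Icc_subset_Icc_left h))
    rcases le_total z y with h' | h'
    · exact p.mono (S.anti (Icc_subset_Icc_right h'))
    rw [← Icc_union_Icc_eq_Icc h h']
    refine S.ex_union isCompact_Icc isCompact_Icc p q ?_
    rw [Icc_inter_Icc_eq_singleton h h']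
    intro χ c1 c2
    obtain ⟨α, e1, e2, e3⟩ := h2 y hy χ c1 c2
    exact ⟨α, e1, S.anti (Icc_subset_Icc hx.1 hy.2) e2, e3⟩

/-- vanishing from degree `k` on -/
def Cx.Van (C : Cx V) (M : Submodule (ZMod 2) V) (k : ℕ) : Prop :=
  ∀ n, k ≤ n → ∀ φ ∈ C.G (n + 1), C.d φ ∈ M → C.Ex M n φ

theorem Soft.dim_vanish [T2Space Z] (S : Soft Z V) {ι : Type} (c : ι → Z → ℝ) (s : Finset ι)
    (k : ℕ) : ∀ A, IsCompact A → (∀ i ∈ s, ContinuousOn (c i) A) →
      (∀ x ∈ A, ∀ y ∈ A, (∀ i ∈ s, c i x = c i y) → x = y) →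
      (∀ z ∈ A, S.Van (S.N {z}) k) → S.Van (S.N A) (k + s.card) := by
  classical
  induction s using Finset.induction_on with
  | empty =>
    intro A _ _ h2 h3
    rcases A.eq_empty_or_nonempty with rfl | ⟨x, hx⟩
    · exact fun n _ φ _ _ => .of_mem (S.emp _)
    · have : A = {x} := eq_singleton_iff_unique_mem.2 ⟨hx, fun y hy => h2 y hy x hx (by simp)⟩
      rw [this]; exact h3 x hx
  | insert i s hi ih =>
    intro A hA h1 h2 h3 n hn φ hφ hd
    have hc := h1 i (by simp)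
    have key : ∀ z, S.Van (S.N (A ∩ c i ⁻¹' {z})) (k + s.card) := fun z =>
      ih _ (hA.of_isClosed_subset (hc.preimage_isClosed_of_isClosed hA.isClosed
        isClosed_singleton) inter_subset_left)
        (fun j hj => (h1 j (by simp [hj])).mono inter_subset_left)
        (fun x hx y hy h => h2 x hx.1 y hy.1 (by
          simpa using ⟨hx.2.trans hy.2.symm, h⟩)) (fun z hz => h3 z hz.1)
    rw [Finset.card_insert_of_notMem hi] at hn
    obtain ⟨m, rfl⟩ : ∃ m, n = m + 1 := ⟨n - 1, by omega⟩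
    have hb := (hA.image_of_continuousOn hc).isBounded.subset_Icc_sInf_sSup
    refine ((S.push hA hc).ex_Icc (fun z _ => key z _ (by omega) φ hφ
      (S.anti inter_subset_left hd)) fun z _ => (S.push hA hc).onto_of_ex _
        (key z m (by omega))).mono (S.anti fun x hx => ⟨hx, hb ⟨x, hx, rfl⟩⟩)

/-- vanishing on a compact set that is locally embedded -/
theorem Soft.loc_vanish [T2Space Z] (S : Soft Z V) {A : Set Z} (hA : IsCompact A) (k : ℕ)
    (h : ∀ x ∈ A, ∃ U ∈ 𝓝 x, ∀ K, IsCompact K → K ⊆ A → K ⊆ U → S.Van (S.N K) k) :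
    S.Van (S.N A) (k + 1) := by
  choose! U hU hU' using h
  refine cpt_ind hA (fun L => ∀ F, IsCompact F → F ⊆ L → S.Van (S.N F) (k + 1)) U hU ?_ ?_
    A hA subset_rfl
  · intro F _ h
    rw [subset_empty_iff.1 h]
    exact fun n _ φ _ _ => .of_mem (S.emp _)
  · intro x hx K L hK hL _ a2 a3 ih F hF hF' n hn φ hφ hd
    obtain ⟨m, rfl⟩ : ∃ m, n = m + 1 := ⟨n - 1, by omega⟩
    have e : F = (F ∩ K) ∪ (F ∩ L) := by
      rw [← inter_union_distrib_left, inter_eq_left.2 hF']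
    rw [e]
    exact S.ex_union (hF.inter hK) (hF.inter hL)
      (ih _ (hF.inter hK) inter_subset_right _ hn φ hφ (S.anti inter_subset_left hd))
      (hU' x hx _ (hF.inter hL) (inter_subset_right.trans a2) (inter_subset_right.trans a3) _
        (by omega) φ hφ (S.anti inter_subset_left hd))
      (S.onto_of_ex _ (hU' x hx _ ((hF.inter hK).inter (hF.inter hL))
        (fun _ h => a2 h.2.2) (fun _ h => a3 h.2.2) m (by omega)))

/-- finite index -/
def FI (B A : Submodule (ZMod 2) V) : Prop := B.toAddSubgroup.relIndex A.toAddSubgroup ≠ 0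

theorem FI.mono {B A B' A' : Submodule (ZMod 2) V} (h : FI B A) (h1 : A' ≤ A)
    (h2 : B ⊓ A' ≤ B') : FI B' A' := by
  intro h'
  have := AddSubgroup.relIndex_eq_zero_of_le_left (H := B.toAddSubgroup ⊓ A'.toAddSubgroup)
    (fun x hx => h2 hx) h'
  rw [AddSubgroup.inf_relIndex_right] at this
  exact h (AddSubgroup.relIndex_eq_zero_of_le_right (fun x hx => h1 hx) this)

theorem FI.inf {B B' A : Submodule (ZMod 2) V} (h : FI B A) (h' : FI B' A) : FI (B ⊓ B') A :=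
  AddSubgroup.relIndex_inf_ne_zero (H := B.toAddSubgroup) (K := B'.toAddSubgroup) h h'

theorem FI.trans {B B' A : Submodule (ZMod 2) V} (h : FI B B') (h' : FI B' A) : FI B A :=
  AddSubgroup.relIndex_ne_zero_trans h h'

theorem FI.comap {B A : Submodule (ZMod 2) V} (h : FI B A) (f : W →ₗ[ZMod 2] V) :
    FI (B.comap f) (A.comap f) :=
  AddSubgroup.relIndex_comap_ne_zero f.toAddMonoidHom (J := B.toAddSubgroup)
    (K := A.toAddSubgroup) h

theorem FI.map {B : Submodule (ZMod 2) V} {A : Submodule (ZMod 2) W} {f : W →ₗ[ZMod 2] V}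
    (h : FI (B.comap f) A) : FI B (A.map f) := by
  have := AddSubgroup.relIndex_comap B.toAddSubgroup f.toAddMonoidHom A.toAddSubgroup
  exact fun h' => h (this.trans h')

theorem FI.of_le {B A : Submodule (ZMod 2) V} (h : A ≤ B) : FI B A := by
  have : B.toAddSubgroup.relIndex A.toAddSubgroup = 1 :=
    AddSubgroup.relIndex_eq_one.2 fun x hx => h hx
  rw [FI, this]; exact one_ne_zero

theorem FI.span (u : V) : FI ⊥ (Submodule.span (ZMod 2) {u}) := by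
  have : Finite (Submodule.span (ZMod 2) {u}) := Module.finite_of_finite (ZMod 2)
  have h : (⊥ : Submodule (ZMod 2) V).toAddSubgroup = ⊥ := rfl
  rw [FI, h, AddSubgroup.relIndex_bot_left]
  exact (Nat.card_pos (α := Submodule.span (ZMod 2) {u})).ne'

/-- cocycles -/
def Cx.Zs (C : Cx V) (M : Submodule (ZMod 2) V) (n : ℕ) : Submodule (ZMod 2) V :=
  C.G n ⊓ M.comap C.d

/-- coboundaries -/
def Cx.Bs (C : Cx V) (M : Submodule (ZMod 2) V) (n : ℕ) : Submodule (ZMod 2) V :=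
  M ⊔ (C.G n).map C.d

theorem Cx.mem_Bs {C : Cx V} {M : Submodule (ZMod 2) V} {n : ℕ} {φ : V} :
    φ ∈ C.Bs M n ↔ C.Ex M n φ := by
  constructor
  · intro h
    obtain ⟨a, ha, _, ⟨ψ, hψ, rfl⟩, rfl⟩ := Submodule.mem_sup.1 h
    exact ⟨ψ, hψ, fx ha (by match_scalars <;> decide)⟩
  · rintro ⟨ψ, a, b⟩
    exact fx (add_mem (Submodule.mem_sup_left b) (Submodule.mem_sup_right ⟨ψ, a, rfl⟩)) (by
      match_scalars <;> decide)

theorem BL.fi {C : Cx V} {M : Submodule (ZMod 2) V} {u : ℕ → V} {r : ℕ} (h : BL C M u r)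
    (n : ℕ) : FI (C.Bs M n) (C.Zs M (n + 1)) := by
  have h1 : FI ((C.Bs M n).comap (LinearMap.coprod (C.Bs M n).subtype LinearMap.id))
      (Submodule.prod ⊤ (Submodule.span (ZMod 2) {u n})) :=
    ((FI.span (u n)).comap (LinearMap.snd _ (C.Bs M n) V)).mono (fun x hx => hx.2) (fun x hx => by
      have : x.2 = 0 := hx.1
      simp [this])
  refine h1.map.mono (fun φ hφ => ?_) inf_le_left
  rcases h.gen n φ hφ.1 hφ.2 with h2 | ⟨_, h2⟩
  · exact ⟨(⟨φ, Cx.mem_Bs.2 h2⟩, 0), ⟨trivial, zero_mem _⟩, by simp⟩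
  · exact ⟨(⟨φ + u n, Cx.mem_Bs.2 h2⟩, u n), ⟨trivial, Submodule.mem_span_singleton_self _⟩, by
      simp [add_assoc, ZModModule.add_self]⟩

/-- elements that agree near `K` with an element that is a cocycle everywhere -/
def Soft.Tr (S : Soft Z V) (K : Set Z) (n : ℕ) : Submodule (ZMod 2) V :=
  S.N K ⊔ S.Zs (S.N univ) n

theorem Soft.fi_glue (S : Soft Z V) {K L K' L' : Set Z} (hK : IsCompact K) (hL : IsCompact L)
    (a : K ⊆ K') (b : L ⊆ L') {n : ℕ} (h : FI (S.Tr (K ∩ L) n) (S.Zs (S.N (K' ∩ L')) n)) :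
    FI (S.Bs (S.N (K ∪ L)) n) (S.Bs (S.N K') n ⊓ S.Bs (S.N L') n) := by
  let p1 : V × V × V →ₗ[ZMod 2] V := LinearMap.fst _ _ _
  let p2 : V × V × V →ₗ[ZMod 2] V := LinearMap.fst _ _ _ ∘ₗ LinearMap.snd _ _ _
  let p3 : V × V × V →ₗ[ZMod 2] V := LinearMap.snd _ _ _ ∘ₗ LinearMap.snd _ _ _
  let Γ : Submodule (ZMod 2) (V × V × V) := ((S.G n).comap p2 ⊓ (S.G n).comap p3) ⊓
    ((S.N K').comap (p1 + S.d ∘ₗ p2) ⊓ (S.N L').comap (p1 + S.d ∘ₗ p3))
  have h1 : FI ((S.Bs (S.N (K ∪ L)) n).comap p1) Γ := by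
    refine (h.comap (p2 + p3)).mono ?_ ?_
    · rintro ⟨φ, ψ, ψ'⟩ ⟨⟨c1, c2⟩, c3, c4⟩
      have c3' : φ + S.d ψ ∈ S.N K' := c3
      have c4' : φ + S.d ψ' ∈ S.N L' := c4
      refine ⟨add_mem c1 c2, ?_⟩
      change S.d (ψ + ψ') ∈ S.N _
      exact fx (add_mem (S.anti inter_subset_left c3') (S.anti inter_subset_right c4')) (by
        simp only [map_add]; match_scalars <;> decide)
    · rintro ⟨φ, ψ, ψ'⟩ ⟨c0, ⟨c1, c2⟩, c3, c4⟩
      obtain ⟨x, hx, y, hy, e⟩ := Submodule.mem_sup.1 c0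
      have e' : x + y = ψ + ψ' := e
      exact Cx.mem_Bs.2 (S.glue_prim hK hL c1 c2 (S.anti a c3) (S.anti b c4) hy.1 (zero_mem _)
        (S.anti (subset_univ _) hy.2) (by simp) (fx hx (by
          change (1 : ZMod 2) • (x + (ψ + ψ' + y + 0)) = 0
          rw [← e']; match_scalars <;> decide)))
  refine h1.map.mono (fun φ hφ => ?_) inf_le_left
  obtain ⟨ψ, c1, c2⟩ := Cx.mem_Bs.1 hφ.1
  obtain ⟨ψ', c3, c4⟩ := Cx.mem_Bs.1 hφ.2
  exact ⟨(φ, ψ, ψ'), ⟨⟨c1, c3⟩, c2, c4⟩, rfl⟩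

theorem interp [T2Space Z] {A K L : Set Z} (hA : IsCompact A) (hK : IsCompact K)
    (h : ∀ x ∈ K, L ∈ 𝓝[A] x) : ∃ K', IsCompact K' ∧ K' ⊆ A ∧ (∀ x ∈ K, K' ∈ 𝓝[A] x) ∧
      ∀ x ∈ K', L ∈ 𝓝[A] x := by
  have hO : IsOpen {x | L ∈ 𝓝[A] x} := isOpen_iff_eventually.2 fun x hx =>
    eventually_nhds_nhdsWithin.2 hx
  obtain ⟨O1, O2, a1, a2, a3, a4, a5⟩ := SeparatedNhds.of_isCompact_isCompact hK (hA.diff hO)
    (disjoint_left.2 fun x hx hx' => hx'.2 (h x hx))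
  refine ⟨A \ O2, hA.diff a2, sdiff_subset, fun x hx => ?_, fun x hx => ?_⟩
  · filter_upwards [self_mem_nhdsWithin, mem_nhdsWithin_of_mem_nhds (a1.mem_nhds (a3 hx))]
      with y h1 h2
    exact ⟨h1, disjoint_left.1 a5 h2⟩
  · by_contra h'
    exact hx.2 (a4 ⟨hx.1, h'⟩)

/-- finiteness of cohomology from local finiteness -/
theorem Soft.wilder [T2Space Z] (S : Soft Z V) {A : Set Z} (hA : IsCompact A)
    (h : ∀ x ∈ A, ∀ L ∈ 𝓝[A] x, ∃ K, IsCompact K ∧ K ⊆ A ∧ K ⊆ L ∧ K ∈ 𝓝[A] x ∧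
      ∀ n, FI (S.Bs (S.N K) n) (S.Zs (S.N K) (n + 1))) (n : ℕ) :
    FI (S.Bs (S.N A) n) (S.Zs (S.N A) (n + 1)) := by
  have step : ∀ n, (∀ K L, IsCompact K → K ⊆ A → (∀ x ∈ K, L ∈ 𝓝[A] x) →
      FI (S.Tr K n) (S.Zs (S.N L) n)) → ∀ K L, IsCompact K → K ⊆ A → (∀ x ∈ K, L ∈ 𝓝[A] x) →
      FI (S.Bs (S.N K) n) (S.Zs (S.N L) (n + 1)) := by
    intro n ih K L hK hKA hL
    choose! P p1 p2 p3 p4 p5 using fun x (hx : x ∈ K) => h x (hKA hx) L (hL x hx)
    have := cpt_ind hK (fun F => ∃ F', (∀ x ∈ F, F' ∈ 𝓝[A] x) ∧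
      FI (S.Bs (S.N F') n) (S.Zs (S.N L) (n + 1))) (fun x => {y | P x ∈ 𝓝[A] y})
      (fun x hx => eventually_nhds_nhdsWithin.2 (p4 x hx))
      ⟨∅, by simp, .of_le fun φ _ => Submodule.mem_sup_left (S.emp φ)⟩ ?_
    · obtain ⟨F', a, b⟩ := this
      exact b.mono le_rfl (inf_le_left.trans (sup_le_sup_right (S.anti fun x hx =>
        mem_of_mem_nhdsWithin (hKA hx) (a x hx)) _))
    · rintro x hx K1 K2 a1 a2 - - a5 ⟨F, b1, b2⟩
      obtain ⟨E1, c1, c2, c3, c4⟩ := interp hA a1 b1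
      obtain ⟨E2, e1, e2, e3, e4⟩ := interp hA a2 a5
      refine ⟨E1 ∪ E2, ?_, (S.fi_glue c1 e1 (fun y hy => mem_of_mem_nhdsWithin (c2 hy) (c4 y hy))
        (fun y hy => mem_of_mem_nhdsWithin (e2 hy) (e4 y hy)) (ih _ _ (c1.inter e1)
          (inter_subset_left.trans c2) fun y hy => inter_mem (c4 y hy.1) (e4 y hy.2))).trans
        (b2.inf ((p5 x hx n).mono (fun φ hφ => ⟨hφ.1, S.anti (p3 x hx) hφ.2⟩) inf_le_left))⟩
      rintro y (hy | hy)
      · exact mem_of_superset (c3 y hy) subset_union_left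
      · exact mem_of_superset (e3 y hy) subset_union_right
  have key : ∀ n K L, IsCompact K → K ⊆ A → (∀ x ∈ K, L ∈ 𝓝[A] x) →
      FI (S.Tr K n) (S.Zs (S.N L) n) := by
    intro n
    induction n with
    | zero => exact fun K L _ _ _ => .of_le fun φ hφ => by rw [S.G0 φ hφ.1]; exact zero_mem _
    | succ n ih =>
      refine fun K L a b c => (step n ih K L a b c).mono le_rfl (inf_le_left.trans
        (sup_le_sup_left ?_ _))
      rintro _ ⟨ψ, hψ, rfl⟩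
      exact ⟨S.dG n ψ hψ, S.dd n _ ψ hψ⟩
  exact step n (key n) A A hA subset_rfl fun _ _ => self_mem_nhdsWithin

end Pool.Agent.MP_696f7f_ag.H96.Cohom
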