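import Pool.Agent.MP_696f7f_ag.H96.TProj

/-!
The Leray-Hirsch theorem for families of projective spaces.
-/

namespace Pool.Agent.MP_696f7f_ag.H96.Cohom

open Set Filter Topology

section
variable {Z V : Type} [TopologicalSpace Z] [AddCommGroup V] [Module (ZMod 2) V]

theorem BL.uniq {C : Cx V} {M : Submodule (ZMod 2) V} {u : ℕ → V} {r r' : ℕ} (h : BL C M u r)
    (h' : BL C M u r') : r = r' := by
  have key : ∀ {r r' : ℕ}, BL C M u r → BL C M u r' → r ≤ r' := fun {r r'} h h' => by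
    by_contra c
    exact h.ne r' (by omega) ((h'.gen r' _ (h.mem _) (h.cyc _)).resolve_right (by omega))
  exact le_antisymm (key h h') (key h' h)

theorem bl_pi {m r : ℕ} (hr : r ≤ m) (S : Fin m → Soft Z V) (K : Set Z) {u : ℕ → V}
    (h : ∀ i : Fin m, BL (S i).toCx ((S i).N K) u (if (i : ℕ) < r then 1 else 0)) :
    BL (Soft.pi fun i : Fin m => (S i).shift i).toCx
      ((Soft.pi fun i : Fin m => (S i).shift i).N K)
      (fun n (i : Fin m) => if (i : ℕ) = n then u 0 else 0) r where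
  mem n i _ := by
    change ite _ _ _ ∈ (S i).G (n + 1 - i)
    split_ifs with c
    · simpa [c] using (h i).mem 0
    · exact zero_mem _
  cyc n i _ := by
    change (S i).d (ite _ _ _) ∈ (S i).N K
    split_ifs with c
    · exact (h i).cyc 0
    · simp
  ne n hn e := by
    obtain ⟨ψ, a, b⟩ := e
    have a' : ψ ⟨n, by omega⟩ ∈ (S ⟨n, by omega⟩).G (n - n) := a _ trivial
    have b' : ite _ _ _ + (S ⟨n, by omega⟩).d (ψ ⟨n, by omega⟩) ∈ (S ⟨n, by omega⟩).N K :=
      b _ trivial
    exact (h ⟨n, by omega⟩).ne 0 (by simp [hn]) ⟨_, by simpa using a', by simpa using b'⟩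
  gen n φ hφ hd := by
    have key : ∀ i : Fin m, (S i).Ex ((S i).N K) (n - i) (φ i) ∨
        ((i : ℕ) = n ∧ n < r ∧ (S i).Ex ((S i).N K) (n - i) (φ i + u 0)) := fun i => by
      have a : φ i ∈ (S i).G (n + 1 - i) := hφ i trivial
      rcases lt_or_ge n i with c | c
      · rw [(S i).G0 (φ i) (by rwa [show n + 1 - i = 0 by omega] at a)]
        exact .inl (.of_mem (zero_mem _))
      · rw [Nat.sub_add_comm c] at a
        refine ((h i).gen _ _ a (hd i trivial)).imp_right fun ⟨e, e'⟩ => ?_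
        have e1 : n - i = 0 ∧ (i : ℕ) < r := by split_ifs at e <;> omega
        exact ⟨by omega, by omega, by rwa [e1.1] at e' ⊢⟩
    by_cases c : ∀ i : Fin m, (S i).Ex ((S i).N K) (n - i) (φ i)
    · choose ψ a b using c
      exact .inl ⟨ψ, fun i _ => a i, fun i _ => b i⟩
    · obtain ⟨j, hj⟩ := not_forall.1 c
      obtain ⟨c1, c2, c3⟩ := (key j).resolve_left hj
      have : ∀ i : Fin m, (S i).Ex ((S i).N K) (n - i)
          (φ i + if (i : ℕ) = n then u 0 else 0) := fun i => by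
        split_ifs with e
        · rwa [show i = j from Fin.ext (e.trans c1.symm)]
        · simpa using (key i).resolve_right fun x => e x.1
      choose ψ a b using this
      exact .inr ⟨c2, ψ, fun i _ => a i, fun i _ => b i⟩

end

variable {X Y : Type} [TopologicalSpace X] [T2Space X] [TopologicalSpace Y] [T2Space Y] {m : ℕ}
  {B : Set X} {E : Set Y} {p : Y → X} {e : Y → Fin m → Fin m → ℝ} {lam : Y → Fin m → ℝ}

/-- the cut-off function for the rank -/
def cut (rk : X → ℕ) (i : ℕ) (x : X) : ZMod 2 := if i < rk x then 1 else 0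

/-- the Leray-Hirsch theorem -/
theorem lh (hB : IsCompact B) (hE : IsCompact E) (hp : ContinuousOn p E) (hm : MapsTo p E B)
    (h : Lam E e lam) (rk : X → ℕ) (h1 : ∀ x ∈ B, ∀ᶠ x' in 𝓝[B] x, rk x' = rk x)
    (h2 : ∀ x ∈ B, ∃ Λ : Submodule ℝ (Fin m → ℝ), Module.finrank ℝ Λ = rk x ∧
      BijOn e (E ∩ p ⁻¹' {x}) (pj '' {l | l ∈ Λ ∧ IsUnitVec l})) (n : ℕ) :
    (∀ ψ ∈ GA Y (n + 1), dA ψ ∈ NA E E → ∃ c : Fin m → Co X,
      (∀ i : Fin m, c i ∈ GA X (n + 1 - i) ∧ dA (c i) ∈ NA B B) ∧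
        (asC Y).Ex (NA E E) n (ψ + ∑ i : Fin m, pw lam i (pull p (c i)))) ∧
    ∀ c : Fin m → Co X, (∀ i : Fin m, c i ∈ GA X (n + 1 - i) ∧ dA (c i) ∈ NA B B) →
      (asC Y).Ex (NA E E) n (∑ i : Fin m, pw lam i (pull p (m0 (cut rk i) (c i)))) →
      ∀ i : Fin m, (asC X).Ex (NA B (B ∩ {x | i < rk x})) (n - i) (c i) := by
  have hc : ∀ i : ℕ, IsCompact (B ∩ {x | i < rk x}) := fun i => by
    refine hB.of_isClosed_subset (isClosed_of_closure_subset fun x hx => ?_) inter_subset_left
    have hx' : x ∈ B := hB.isClosed.closure_subset (closure_mono inter_subset_left hx)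
    have : (𝓝[B ∩ {x | i < rk x}] x).NeBot := mem_closure_iff_nhdsWithin_neBot.1 hx
    obtain ⟨y, a, b⟩ := (((h1 x hx').filter_mono (nhdsWithin_mono x
      (inter_subset_left (t := {x | i < rk x})))).and self_mem_nhdsWithin).exists
    exact ⟨hx', lt_of_lt_of_eq b.2 a⟩
  have c1 : ∀ (i : ℕ) (K : Set X) (φ : Co X), φ ∈ NA B (B ∩ {x | i < rk x} ∩ K) →
      m0 (cut rk i) φ ∈ NA B (B ∩ K) := fun i K φ a x hx => by
    by_cases c : i < rk x
    · exact m0_NA _ a x ⟨⟨hx.1, c⟩, hx.2⟩
    · exact ⟨_, h1 x hx.1, by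
        simpa [m0_zero] using m0_VU' (η := cut rk i) (η' := fun _ => 0) φ fun y hy =>
          if_neg (by rwa [show rk y = rk x from hy])⟩
  have c2 : ∀ (i : ℕ) (φ : Co X), φ [] = 0 →
      m0 (cut rk i) (dA φ) + dA (m0 (cut rk i) φ) ∈ NA B B := fun i φ a x hx =>
    ⟨_, h1 x hx, fx (m1_VU' (ξ := fun x y => cut rk i x + cut rk i y) (ξ' := fun _ _ => 0) φ
      fun y hy z hz => by
        rw [cut, cut, show rk y = rk x from hy, show rk z = rk x from hz,
          CharTwo.add_self_eq_zero]) (by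
      rw [dA_m0 _ a, m1_zero]; match_scalars <;> decide)⟩
  have c3 : ∀ (i n : ℕ) (φ : Co X), φ ∈ GA X (n - i) →
      pw lam i (pull p φ) ∈ GA Y n := fun i n φ a => by
    rcases le_or_gt i n with c | c
    · simpa [c] using pw_G (lam := lam) i (pull_G p a)
    · rw [(asC X).G0 φ (by rwa [show n - i = 0 by omega] at a)]; simp
  have hF : Soft.Hom (Soft.pi fun i : Fin m => ((AS B).push (hc i) continuousOn_id).shift i)
      ((AS E).push hE hp) 0
      (∑ i : Fin m, pw lam i ∘ₗ pull p ∘ₗ m0 (cut rk i) ∘ₗ LinearMap.proj i) := by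
    refine ⟨fun n φ a => ?_, fun K φ a => ?_, fun n K φ a => ?_⟩ <;>
      simp only [LinearMap.sum_apply, map_sum, ← Finset.sum_add_distrib] <;>
      refine sum_mem fun i _ => ?_
    · exact c3 i n _ (m0_G _ (a i trivial))
    · exact pw_NA i (pull_NA hp hm inter_subset_left (L := B ∩ K)
        (fun y hy => ⟨hm hy.1, hy.2⟩) (c1 i K _ (a i trivial)))
    · refine fx (add_mem (pw_NA (lam := lam) i (pull_NA hp hm (inter_subset_left (t := p ⁻¹' K))
        (fun y hy => hm hy.1) (c2 i (φ i) (a i trivial).1)))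
        (h.pw_md inter_subset_left i (pull_G p (m0_G (cut rk i) (a i trivial))))) ?_
      change (1 : ZMod 2) • (_ + (pw lam i (pull p (m0 _ (dA (φ i)))) +
        dA (pw lam i (pull p (m0 _ (φ i)))))) = 0
      simp only [map_add, dA_pull]
      match_scalars <;> decide
  have q := hF.qi hB fun z hz => by
    obtain ⟨Λ, a1, a2⟩ := h2 z hz
    have hP := fib_cpt hE hp (isClosed_singleton (x := z))
    have hr : rk z ≤ m := by simpa [a1] using Λ.finrank_le
    refine QI.of_bl (bl_pi hr _ _ (u := u0) fun i => ?_) ((proj_bl _ hP (h.mono inter_subset_left)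
      a1 a2).taut hP inter_subset_left (h.pw_one inter_subset_left)) (fun _ _ => hF.ex)
      fun k hk => .of_mem ?_
    · change BL _ (NA B (B ∩ {x | i < rk x} ∩ {z})) _ _
      split_ifs with c
      · rw [inter_singleton_of_mem (mem_inter hz c)]; exact bl1_pt hz
      · rw [inter_singleton_of_notMem fun x => c x.2]
        exact ⟨(bl1_pt hz).mem, fun _ => (AS B).emp _, fun n hn => by omega,
          fun n φ _ _ => .inl (.of_mem ((AS B).emp _))⟩
    · rw [LinearMap.sum_apply, Finset.sum_eq_single (⟨k, by omega⟩ : Fin m)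
        (fun i _ c => by simp [Fin.val_ne_of_ne c]) (by simp), ← pull_one p]
      simp only [LinearMap.comp_apply, LinearMap.proj_apply, if_true, ← map_add]
      refine pw_NA k (pull_NA hp hm inter_subset_left (fun y hy => hy.2) ?_)
      rintro x rfl
      exact ⟨_, h1 x hz, by
        simpa [m0_one one_G.1, u0] using m0_VU' (η := cut rk k) (η' := fun _ => 1) one
          fun y hy => if_pos (by rwa [show rk y = rk x from hy])⟩
  change QI _ (asC Y) _ (NA E (E ∩ p ⁻¹' B)) _ at q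
  rw [inter_eq_left.2 (show E ⊆ p ⁻¹' B from hm)] at q
  refine ⟨fun ψ a b => ?_, fun c a b i => ?_⟩
  · obtain ⟨c, e1, e2, e3⟩ := q.surj n ψ a b
    refine ⟨fun i => m0 (cut rk i) (c i), fun i => ⟨m0_G _ (e1 i trivial), ?_⟩, by
      simpa using e3⟩
    exact fx (add_mem (inter_self B ▸ c1 i B _ (e2 i trivial)) (c2 i _ (e1 i trivial).1)) (by
      change (1 : ZMod 2) • (m0 _ (dA (c i)) + _ + _) = 0
      match_scalars <;> decide)
  · obtain ⟨ψ, e1, e2⟩ := q.inj n c (fun i _ => (a i).1)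
      (fun i _ => NA_mono subset_rfl (fun x hx => hx.1.1) (a i).2) (by simpa using b)
    exact ⟨ψ i, e1 i trivial, NA_mono subset_rfl (subset_inter subset_rfl inter_subset_left)
      (e2 i trivial)⟩

end Pool.Agent.MP_696f7f_ag.H96.Cohom
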