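import Pool.Agent.MP_696f7f_ag.H96.TLH

/-!
Blow-up sequences, products with a circle, and the existence of the cohomology theory.
-/

namespace Pool.Agent.MP_696f7f_ag.H96.Cohom

open Set Filter Topology

theorem eq_pj {m : ℕ} {M : Fin m → Fin m → ℝ} {w : Fin m → ℝ} (hw : w ≠ 0)
    (h : ∀ i j, M i j * ∑ l, w l ^ 2 = w i * w j) : M = pj ((√(w ⬝ᵥ w))⁻¹ • w) := by
  have h0 : 0 < w ⬝ᵥ w := lt_of_le_of_ne (Finset.sum_nonneg fun i _ => mul_self_nonneg _)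
    (fun e => hw (dotProduct_self_eq_zero.1 e.symm))
  funext i j
  have h1 : M i j * w ⬝ᵥ w = w i * w j := by simpa [dotProduct, sq] using h i j
  have h2 := Real.mul_self_sqrt h0.le
  have h3 := Real.sqrt_pos.2 h0
  simp only [pj, Pi.smul_apply, smul_eq_mul]
  field_simp
  rw [← h1, sq, h2]

variable {X X' : Type} [TopologicalSpace X] [T2Space X] [TopologicalSpace X'] [T2Space X']
  {A : Set X} {A' : Set X'} {C : Set X} {π : X' → X} {m : ℕ} {f : X → Fin m → ℝ}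
  {e : X' → Fin m → Fin m → ℝ}

theorem bt_surj (h : BlowTop A A' C π f e) (k : ℕ) (ψ : Co X') (a : ψ ∈ GA X' (k + 1))
    (b : dA ψ ∈ NA (A' ∩ π ⁻¹' C) (A' ∩ π ⁻¹' C)) :
    ∃ u ∈ GA X' (k + 1), dA u ∈ NA A' A' ∧ ∃ c ∈ GA X (k + 1), dA c ∈ NA A (A ∩ C) ∧
      (asC X').Ex (NA (A' ∩ π ⁻¹' C) (A' ∩ π ⁻¹' C)) k (ψ + u + pull π c) := by
  classical
  have hB := h.cA.inter_right h.cC
  have hE := fib_cpt h.cA' h.cont h.cC
  have hp : ContinuousOn π (A' ∩ π ⁻¹' C) := h.cont.mono inter_subset_left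
  have hm : MapsTo π (A' ∩ π ⁻¹' C) (A ∩ C) := fun _ x => ⟨h.maps x.1, x.2⟩
  have ef : ∀ x ∈ A ∩ C, A' ∩ π ⁻¹' C ∩ π ⁻¹' {x} = A' ∩ π ⁻¹' {x} := fun x hx => by
    rw [inter_assoc, ← preimage_inter, inter_singleton_of_mem hx.2]
  choose! rk hrk using h.fib
  have h2 := fun x hx => (hrk x hx).self_of_nhdsWithin hx
  obtain ⟨lam, hl, hl'⟩ : ∃ lam : X' → Fin m → ℝ, Lam A' e lam ∧
      ∀ y ∈ A', π y ∉ C → lam y = (√(f (π y) ⬝ᵥ f (π y)))⁻¹ • f (π y) := by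
    have : ∀ y ∈ A', ∃ l, IsUnitVec l ∧ e y = pj l ∧
        (π y ∉ C → l = (√(f (π y) ⬝ᵥ f (π y)))⁻¹ • f (π y)) := fun y hy => by
      by_cases c : π y ∈ C
      · obtain ⟨Λ, -, a⟩ := h2 _ ⟨h.maps hy, c⟩
        obtain ⟨l, a1, a2⟩ := a.mapsTo ⟨hy, rfl⟩
        exact ⟨l, a1.2, a2.symm, fun x => (x c).elim⟩
      · have := mt (h.zero _ (h.maps hy)).1 c
        exact ⟨_, unit_normalize this, eq_pj this (h.off y hy c), fun _ => rfl⟩
    choose! lam a b c using this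
    exact ⟨lam, ⟨h.conte, a, b⟩, c⟩
  have h1 : ∀ x ∈ A ∩ C, ∀ᶠ x' in 𝓝[A ∩ C] x, rk x' = rk x := fun x hx => by
    filter_upwards [hrk x hx, self_mem_nhdsWithin] with y ⟨Λ, a1, a2⟩ hy
    obtain ⟨Λ', b1, b2⟩ := h2 y hy
    have c := fib_cpt h.cA' h.cont (isClosed_singleton (x := y))
    exact (proj_bl _ c (hl.mono inter_subset_left) b1 b2).uniq
      (proj_bl _ c (hl.mono inter_subset_left) a1 a2)
  have tr : ∀ y ∈ A', π y ∉ C → ContinuousWithinAt lam A' y := fun y hy c => by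
    have c1 : ContinuousWithinAt (fun y => f (π y)) A' y := (h.contf.comp h.cont h.maps) y hy
    have c2 : ContinuousWithinAt (fun y => f (π y) ⬝ᵥ f (π y)) A' y :=
      ContinuousAt.comp_continuousWithinAt (g := fun l : Fin m → ℝ => l ⬝ᵥ l)
        (f := fun y => f (π y)) (by fun_prop) c1
    refine ((c2.sqrt.inv₀ fun e => c ((h.zero _ (h.maps hy)).1 ?_)).smul c1).congr_of_eventuallyEq
      ?_ (hl' y hy c)
    · exact dotProduct_self_eq_zero.1 (le_antisymm (Real.sqrt_eq_zero'.1 e)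
        (Finset.sum_nonneg fun i _ => mul_self_nonneg _))
    · filter_upwards [h.cont y hy (h.cC.isOpen_compl.mem_nhds c), self_mem_nhdsWithin] with x a b
        using hl' x b a
  obtain ⟨c, e1, e2⟩ := (lh hB hE hp hm (hl.mono inter_subset_left) rk h1
    (fun x hx => by rw [ef x hx]; exact h2 x hx) k).1 ψ a b
  have key : ∃ u ∈ GA X' (k + 1), dA u ∈ NA A' A' ∧ ∃ c' ∈ GA X (k + 1), dA c' ∈ NA A (A ∩ C) ∧
      (asC X').Ex (NA (A' ∩ π ⁻¹' C) (A' ∩ π ⁻¹' C)) k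
        (∑ i : Fin m, pw lam i (pull π (c i)) + u + pull π c') := by
    refine Finset.sum_induction _ (fun ψ => ∃ u ∈ GA X' (k + 1), dA u ∈ NA A' A' ∧
      ∃ c' ∈ GA X (k + 1), dA c' ∈ NA A (A ∩ C) ∧
        (asC X').Ex (NA (A' ∩ π ⁻¹' C) (A' ∩ π ⁻¹' C)) k (ψ + u + pull π c')) ?_
      ⟨0, zero_mem _, by simp, 0, zero_mem _, by simp, .of_mem (by simp)⟩ ?_
    · rintro x y ⟨u, a1, a2, c, a3, a4, a5⟩ ⟨u', b1, b2, c', b3, b4, b5⟩
      exact ⟨u + u', add_mem a1 b1, by rw [map_add]; exact add_mem a2 b2, c + c', add_mem a3 b3,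
        by rw [map_add]; exact add_mem a4 b4, (a5.add b5).fx (by
          simp only [map_add]; match_scalars <;> decide)⟩
    · rintro i -
      obtain ⟨a1, a2⟩ := e1 i
      generalize c i = φ at a1 a2
      generalize (i : ℕ) = j at a1
      rcases lt_or_ge k j with hj | hj
      · rw [(asC X).G0 φ (by rwa [show k + 1 - j = 0 by omega] at a1)]
        exact ⟨0, zero_mem _, by simp, 0, zero_mem _, by simp, .of_mem (by simp)⟩
      obtain ⟨n, rfl⟩ : ∃ n, k = n + j := ⟨k - j, by omega⟩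
      rw [show n + j + 1 - j = n + 1 by omega] at a1
      obtain ⟨φ', b1, b2, b3⟩ := taut_surj hB inter_subset_left a1 a2
      have b4 := (hl.mono inter_subset_left).pw_ex subset_rfl j (pull_ex hp hm subset_rfl hm b3)
      rw [map_add, map_add] at b4
      rcases j with _ | j
      · exact ⟨0, zero_mem _, by simp, φ', b1, b2, by simpa [pw] using b4⟩
      · refine ⟨pw lam (j + 1) (pull π φ'), ?_, fun y hy => ?_, 0, zero_mem _, by simp,
          by simpa using b4⟩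
        · rw [add_right_comm]; exact pw_G _ (pull_G π b1)
        · by_cases c : π y ∈ C
          · exact hl.pw_cyc inter_subset_left _ (pull_G π b1)
              (pull_cyc h.cont h.maps inter_subset_left hm b2) y ⟨hy, c⟩
          · obtain ⟨U, c1, c2⟩ := hl.triv' hy (tr y hy c) (pw lam j (pull π φ'))
            exact ⟨U, c1, dA_VU c2⟩
  obtain ⟨u, a1, a2, c', a3, a4, a5⟩ := key
  exact ⟨u, a1, a2, c', a3, a4, (e2.add a5).fx (by match_scalars <;> decide)⟩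

theorem bt_rel (h : BlowTop A A' C π f e) (n : ℕ) (x : Co X) (y : Co X')
    (a1 : x ∈ GA X (n + 1)) (a2 : y ∈ GA X' n) (a3 : x ∈ NA A (A ∩ C))
    (a4 : y ∈ NA A' (A' ∩ π ⁻¹' C)) (a5 : dA x ∈ NA A A) (a6 : pull π x + dA y ∈ NA A' A') :
    ∃ x' ∈ GA X n, x' ∈ NA A (A ∩ C) ∧ x + dA x' ∈ NA A A ∧
      (asC X').Ex (NA A' A') (n - 1) (y + pull π x') := by
  have H := (Soft.tw (pull_hom h.cA' h.cont h.maps).sh).rel_ac h.cA (h.cA.inter_right h.cC)
    fun z hz c => ((pull_hom h.cA' h.cont h.maps).ac_iff _).2 (by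
      obtain ⟨w, b1, rfl⟩ := h.bij.surjOn ⟨hz, fun c' => c ⟨hz, c'⟩⟩
      change QI _ _ _ (NA A' (A' ∩ π ⁻¹' {π w})) _
      rw [show A' ∩ π ⁻¹' {π w} = {w} from eq_singleton_iff_unique_mem.2 ⟨⟨b1.1, rfl⟩,
        fun v hv => h.bij.injOn ⟨hv.1, fun c' => b1.2 (by
          rwa [mem_preimage, show π v = π w from hv.2] at c')⟩ b1 hv.2⟩]
      exact bl1_qi h.cont h.maps (singleton_subset_iff.2 b1.1) (mapsTo_singleton.2 rfl)
        (bl1_pt hz) (bl1_pt b1.1))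
  obtain ⟨⟨x', y'⟩, c1, c2⟩ := H n (x, y)
    ⟨⟨a1, a2⟩, a3, NA_mono subset_rfl
      (inter_subset_inter_right _ (preimage_mono inter_subset_right)) a4⟩
    ⟨a5, NA_mono subset_rfl inter_subset_left a6⟩
  exact ⟨x', c1.1.1, c1.2.1, c2.1, y', c1.1.2, by
    rw [add_assoc]; exact NA_mono subset_rfl (subset_inter subset_rfl h.maps) c2.2⟩

theorem coh_blow (h : BlowTop A A' C π f e) : coh.SES A A' C π h.cont h.maps := by
  have hB := h.cA.inter_right h.cC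
  have hE := fib_cpt h.cA' h.cont h.cC
  have hp : ContinuousOn π (A' ∩ π ⁻¹' C) := h.cont.mono inter_subset_left
  have hm : MapsTo π (A' ∩ π ⁻¹' C) (A ∩ C) := fun _ x => ⟨h.maps x.1, x.2⟩
  have pN := fun {φ} => pull_NA (φ := φ) h.cont h.maps inter_subset_left hm
  have s : ∀ {φ}, φ ∈ NA A' A' → φ ∈ NA A' (A' ∩ π ⁻¹' C) := fun a =>
    NA_mono subset_rfl inter_subset_left a
  refine ⟨fun a u e1 e2 => ?_, fun a u c e1 => ?_, fun a w => ?_⟩
  · obtain ⟨φ, a1, a2, rfl⟩ := cls_surj u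
    rw [res_cls] at e1
    rw [rs_cls] at e2
    obtain ⟨ψ, b1, b2⟩ := cls_eq_zero.1 e1
    obtain ⟨α, b3, b4⟩ := taut_inj hB inter_subset_left a1
      (NA_mono subset_rfl inter_subset_left a2) (cls_eq_zero.1 e2)
    have b5 : dA (ψ + pull π α) ∈ NA A' (A' ∩ π ⁻¹' C) := fx (add_mem (s b2) (pN b4)) (by
      simp only [asC, map_add, dA_pull]; match_scalars <;> decide)
    obtain ⟨u, c1, c2, c, c3, c4, c5⟩ : ∃ u ∈ GA X' a, dA u ∈ NA A' A' ∧ ∃ c ∈ GA X a,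
        dA c ∈ NA A (A ∩ C) ∧ ψ + pull π α + u + pull π c ∈ NA A' (A' ∩ π ⁻¹' C) := by
      have b6 : ψ + pull π α ∈ GA X' a := add_mem b1 (pull_G π b3)
      rcases a with _ | k
      · exact ⟨0, zero_mem _, by simp, 0, zero_mem _, by simp, by simp [(asC X').G0 _ b6]⟩
      · obtain ⟨u, c1, c2, c, c3, c4, c5⟩ := bt_surj h k _ b6
          (NA_mono inter_subset_left subset_rfl b5)
        obtain ⟨ω, c6, c7⟩ := taut_inj hE inter_subset_left (add_mem (add_mem b6 c1) (pull_G π c3))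
          (by rw [map_add, map_add, dA_pull π c]; exact add_mem (add_mem b5 (s c2)) (pN c4)) c5
        exact ⟨u + dA ω, add_mem c1 ((asC X').dG _ _ c6), by simpa [dA_dA] using c2, c, c3, c4,
          fx c7 (by simp only [asC]; match_scalars <;> decide)⟩
    obtain ⟨x, e1, -, e2, -⟩ := bt_rel h a (φ + dA α + dA c) _
      (add_mem (add_mem a1 ((asC X).dG _ _ b3)) ((asC X).dG _ _ c3))
      (add_mem (add_mem (add_mem b1 (pull_G π b3)) c1) (pull_G π c3)) (add_mem b4 c4) c5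
      (by simpa [dA_dA] using a2) (fx (add_mem b2 c2) (by
        simp only [asC, map_add, dA_pull]; match_scalars <;> decide))
    exact cls_eq_zero.2 ⟨α + c + x, add_mem (add_mem b3 c3) e1, fx e2 (by
      simp only [asC, map_add]; match_scalars <;> decide)⟩
  · obtain ⟨φ, a1, a2, rfl⟩ := cls_surj u
    obtain ⟨γ, b1, b2, rfl⟩ := cls_surj c
    rw [rs_cls, CohF.rc, res_cls] at e1
    obtain ⟨γ', c1, c2, c3⟩ := taut_surj hB inter_subset_left b1 b2
    obtain ⟨ω, c4, c5⟩ := taut_inj hE inter_subset_left (add_mem a1 (pull_G π c1))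
      (by rw [map_add, dA_pull]; exact add_mem (s a2) (pN c2))
      (((cls_eq.1 e1).add (pull_ex hp hm subset_rfl hm c3)).fx (by
        simp only [map_add]; match_scalars <;> decide))
    obtain ⟨x, e2, e3, e4, e5⟩ := bt_rel h (a + 1) (dA γ') _ ((asC X).dG _ _ c1)
      (add_mem (add_mem a1 (pull_G π c1)) ((asC X').dG _ _ c4)) c2 c5 (by simp [dA_dA])
      (fx a2 (by simp only [asC, map_add, dA_pull, dA_dA]; match_scalars <;> decide))
    refine ⟨cls (γ' + x) (add_mem c1 e2) (by rwa [map_add]), ?_, ?_⟩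
    · rw [res_cls]
      exact cls_eq.2 ((e5.add (Cx.ex_d c4)).fx (by
        simp only [map_add]; match_scalars <;> decide))
    · rw [rs_cls]
      exact cls_eq.2 ((c3.add (.of_mem (NA_mono inter_subset_left subset_rfl e3))).fx (by
        match_scalars <;> decide))
  · obtain ⟨ψ, a1, a2, rfl⟩ := cls_surj w
    obtain ⟨u, c1, c2, c, c3, c4, c5⟩ := bt_surj h a ψ a1 a2
    refine ⟨cls u c1 c2, cls c c3 (NA_mono inter_subset_left subset_rfl c4), ?_⟩
    rw [rs_cls, CohF.rc, res_cls]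
    exact cls_add.trans (cls_eq.2 (c5.fx (by match_scalars <;> decide)))

/-- the circle as a projective line -/
noncomputable def ec (p : ℝ × ℝ) : Fin 2 → Fin 2 → ℝ :=
  ![![(1 + p.1) / 2, p.2 / 2], ![p.2 / 2, (1 - p.1) / 2]]

theorem ec_cont : Continuous ec := by unfold ec; fun_prop

theorem ec_pj {p : ℝ × ℝ} (hp : p ∈ circ) : ∃ l, IsUnitVec l ∧ ec p = pj l := by
  have h : p.1 ^ 2 + p.2 ^ 2 = 1 := hp
  by_cases c : 1 + p.1 = 0
  · have h1 : p.1 = -1 := by linarith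
    have h2 : p.2 = 0 := by rw [h1] at h; nlinarith
    refine ⟨![0, 1], by simp [IsUnitVec], ?_⟩
    funext i j
    fin_cases i <;> fin_cases j <;> simp [ec, pj, h1, h2]
  · have : (![1 + p.1, p.2] : Fin 2 → ℝ) ≠ 0 := fun e => c (congrFun e 0)
    refine ⟨_, unit_normalize this, eq_pj this fun i j => ?_⟩
    fin_cases i <;> fin_cases j <;> simp [ec] <;> grind

theorem circ_cpt : IsCompact circ := by
  refine ((isCompact_Icc (a := (-1 : ℝ)) (b := 1)).prod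
    (isCompact_Icc (a := (-1 : ℝ)) (b := 1))).of_isClosed_subset
      (isClosed_eq (by fun_prop) continuous_const) fun p hp => ?_
  have h : p.1 ^ 2 + p.2 ^ 2 = 1 := hp
  exact ⟨abs_le.1 ((sq_le_one_iff_abs_le_one _).1 (by nlinarith [sq_nonneg p.2])),
    abs_le.1 ((sq_le_one_iff_abs_le_one _).1 (by nlinarith [sq_nonneg p.1]))⟩

theorem circ_lh (hA : IsCompact A) : ∃ lam : X × ℝ × ℝ → Fin 2 → ℝ,
    Lam (A ×ˢ circ) (fun y => ec y.2) lam ∧ ∀ n,
      (∀ ψ ∈ GA _ (n + 1), dA ψ ∈ NA (A ×ˢ circ) (A ×ˢ circ) → ∃ a ∈ GA X (n + 1), ∃ b ∈ GA X n,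
        dA a ∈ NA A A ∧ dA b ∈ NA A A ∧ (asC _).Ex (NA (A ×ˢ circ) (A ×ˢ circ)) n
          (ψ + (pull Prod.fst a + pw lam 1 (pull Prod.fst b)))) ∧
      ∀ a ∈ GA X (n + 1), ∀ b ∈ GA X n, dA a ∈ NA A A → dA b ∈ NA A A →
        (asC _).Ex (NA (A ×ˢ circ) (A ×ˢ circ)) n
          (pull Prod.fst a + pw lam 1 (pull Prod.fst b)) →
        (asC X).Ex (NA A A) n a ∧ (asC X).Ex (NA A A) (n - 1) b := by
  choose! l a b using fun p hp => ec_pj (p := p) hp
  have hl : Lam (A ×ˢ circ) (fun y => ec y.2) fun y => l y.2 :=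
    ⟨(ec_cont.comp continuous_snd).continuousOn, fun y hy => a _ hy.2, fun y hy => b _ hy.2⟩
  have hb : ∀ x ∈ A, BijOn (fun y : X × ℝ × ℝ => ec y.2) (A ×ˢ circ ∩ Prod.fst ⁻¹' {x})
      (pj '' {l | l ∈ (⊤ : Submodule ℝ (Fin 2 → ℝ)) ∧ IsUnitVec l}) := fun x hx => by
    refine ⟨fun y hy => ⟨l y.2, ⟨trivial, a _ hy.1.2⟩, (b _ hy.1.2).symm⟩,
      fun y hy z hz e => ?_, ?_⟩
    · have e1 : (1 + y.2.1) / 2 = (1 + z.2.1) / 2 := congrFun (congrFun e 0) 0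
      have e2 : y.2.2 / 2 = z.2.2 / 2 := congrFun (congrFun e 0) 1
      exact Prod.ext (hy.2.trans hz.2.symm) (Prod.ext (by linarith) (by linarith))
    · rintro _ ⟨v, ⟨-, hv⟩, rfl⟩
      have : v 0 ^ 2 + v 1 ^ 2 = 1 := by simpa [IsUnitVec] using hv
      refine ⟨(x, v 0 ^ 2 - v 1 ^ 2, 2 * v 0 * v 1), ⟨⟨hx, ?_⟩, rfl⟩, ?_⟩
      · change _ = _
        grind
      · funext i j
        fin_cases i <;> fin_cases j <;> simp [ec, pj] <;> grind
  refine ⟨_, hl, fun n => ?_⟩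
  obtain ⟨h1, h2⟩ := lh hA (hA.prod circ_cpt) continuousOn_fst (fun _ h => h.1) hl (fun _ => 2)
    (by simp) (fun x hx => ⟨⊤, by simp, hb x hx⟩) n
  refine ⟨fun ψ c c' => ?_, fun a c1 b c2 c3 c4 c5 => ?_⟩
  · obtain ⟨c, e1, e2⟩ := h1 ψ c c'
    exact ⟨c 0, (e1 0).1, c 1, (e1 1).1, (e1 0).2, (e1 1).2, by simpa [pw] using e2⟩
  · have e : ∀ i : ℕ, i < 2 → cut (fun _ : X => 2) i = fun _ => 1 := fun i hi =>
      funext fun _ => if_pos hi
    have := h2 ![a, b] (Fin.forall_fin_two.2 ⟨⟨c1, c3⟩, c2, c4⟩)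
      (by simpa [pw, e, m0_one c1.1, m0_one c2.1] using c5)
    exact ⟨by simpa using this 0, by simpa using this 1⟩

theorem main : CohStmt := by
  refine ⟨coh, fun a X _ => subsingleton_of_forall_eq 0 fun u => ?_,
    fun a _ _ _ _ _ => coh_split a, fun x => coh_pt0 x,
    fun a _ _ _ x => sub_of_van (bl1_pt (A := {x}) rfl).van (by omega),
    fun a _ _ _ _ _ hA h => coh_fin hA h a,
    fun a _ _ _ _ _ hA h c => sub_of_van (coh_vanish hA h) c,
    fun {X} _ _ A hA => ?_, fun a X _ _ A hA => ?_, coh_blow⟩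
  · obtain ⟨φ, a1, a2, rfl⟩ := cls_surj u
    exact cls_eq_zero.2 (.of_mem fun _ h => h.elim)
  · obtain ⟨lam, -, h⟩ := circ_lh hA
    refine ⟨(LinearEquiv.ofBijective (coh.res 0 (A := A ×ˢ circ) (B := A) Prod.fst
      continuousOn_fst fun _ h => h.1) ⟨(injective_iff_map_eq_zero _).2 fun u e => ?_,
        fun w => ?_⟩).symm⟩
    · obtain ⟨φ, a1, a2, rfl⟩ := cls_surj u
      rw [res_cls] at e
      exact cls_eq_zero.2 ((h 0).2 φ a1 0 (zero_mem _) a2 (by simp)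
        (by simpa using cls_eq_zero.1 e)).1
    · obtain ⟨ψ, a1, a2, rfl⟩ := cls_surj w
      obtain ⟨a, b1, b, b2, b3, -, b4⟩ := (h 0).1 ψ a1 a2
      refine ⟨cls a b1 b3, ?_⟩
      rw [res_cls]
      exact cls_eq.2 (by simpa [(asC X).G0 b b2, add_comm] using b4)
  · obtain ⟨lam, hl, h⟩ := circ_lh hA
    have hm : MapsTo Prod.fst (A ×ˢ circ) A := fun _ h => h.1
    have g1 : ∀ φ ∈ GA X (a + 1), dA φ ∈ NA A A →
        (pw lam 1 ∘ₗ pull Prod.fst) φ ∈ GA (X × ℝ × ℝ) (a + 1 + 1) ∧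
          dA ((pw lam 1 ∘ₗ pull Prod.fst) φ) ∈ NA (A ×ˢ circ) (A ×ˢ circ) :=
      fun φ c c' => ⟨pw_G 1 (pull_G _ c), hl.pw_cyc subset_rfl 1 (pull_G _ c)
        (pull_cyc continuousOn_fst hm subset_rfl hm c')⟩
    have g2 : ∀ {x y : Co X}, dA x ∈ NA A A → y ∈ GA X (a + 1) → dA y ∈ NA A A →
        dA (pull Prod.fst x + pw lam 1 (pull Prod.fst y)) ∈ NA (A ×ˢ circ) (A ×ˢ circ) :=
      fun c1 c2 c3 => by
        rw [map_add]
        exact add_mem (pull_cyc continuousOn_fst hm subset_rfl hm c1) (g1 _ c2 c3).2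
    refine ⟨(LinearEquiv.ofBijective ((coh.res (a + 1) Prod.fst continuousOn_fst hm).coprod
      (ind (a := a + 1) (b := a) (pw lam 1 ∘ₗ pull Prod.fst) g1
        fun φ c => hl.pw_ex subset_rfl 1 (pull_ex continuousOn_fst hm subset_rfl hm c)))
      ⟨(injective_iff_map_eq_zero _).2 fun ⟨u, v⟩ e => ?_, fun w => ?_⟩).symm⟩
    · obtain ⟨φ, a1, a2, rfl⟩ := cls_surj u
      obtain ⟨ψ, b1, b2, rfl⟩ := cls_surj v
      have := (h (a + 1)).2 φ a1 ψ b1 a2 b2 ((cls_eq_zero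
        (h1 := add_mem (pull_G _ a1) (g1 ψ b1 b2).1) (h2 := g2 a2 b1 b2)).1 e)
      exact Prod.ext ((cls_eq_zero (h1 := a1) (h2 := a2)).2 this.1)
        ((cls_eq_zero (h1 := b1) (h2 := b2)).2 this.2)
    · obtain ⟨ψ, a1, a2, rfl⟩ := cls_surj w
      obtain ⟨x, b1, y, b2, b3, b4, b5⟩ := (h (a + 1)).1 ψ a1 a2
      exact ⟨(cls x b1 b3, cls y b2 b4), ((cls_eq (h3 := add_mem (pull_G _ b1) (g1 y b2 b4).1)
        (h4 := g2 b3 b2 b4)).2 b5).symm⟩

end Pool.Agent.MP_696f7f_ag.H96.Cohom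

/-- the cohomology theory exists -/
theorem Pool.Agent.MP_696f7f_ag.H96.cohStmt : Pool.Agent.MP_696f7f_ag.H96.CohStmt :=
  Pool.Agent.MP_696f7f_ag.H96.Cohom.main
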