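import Pool.Agent.MP_696f7f_ag.H96.TXi

/-!
The cohomology of projective spaces.
-/

namespace Pool.Agent.MP_696f7f_ag.H96.Cohom

open Set Filter Topology

section
variable {Z V W : Type} [TopologicalSpace Z] [AddCommGroup V] [Module (ZMod 2) V]
  [AddCommGroup W] [Module (ZMod 2) W] {S : Soft Z V} {T : Soft Z W}

theorem Soft.tw_van {g : V →ₗ[ZMod 2] W} (h : Soft.Hom S T 1 g) {K : Set Z} {k : ℕ}
    (a : S.Van (S.N K) k) (b : T.Van (T.N K) k) : (Soft.tw h).Van ((Soft.tw h).N K) k := by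
  rintro n hn ⟨x, y⟩ hφ hd
  obtain ⟨α, c1, c2⟩ := a n hn x hφ.1 hd.1
  have hd2 : g x + T.d y ∈ T.N K := hd.2
  obtain ⟨β, c3, c4⟩ := b n hn (y + g α) (add_mem hφ.2 (h.mG _ _ c1))
    (fx (add_mem (add_mem hd2 (h.mN K _ c2)) (h.md _ K _ c1)) (by
      simp only [map_add]; match_scalars <;> decide))
  exact ⟨(α, β), ⟨c1, c3⟩, c2, by rw [add_assoc] at c4; exact c4⟩

theorem QI.of_van {C : Cx V} {D : Cx W} {M : Submodule (ZMod 2) V} {M' : Submodule (ZMod 2) W}
    {f : V →ₗ[ZMod 2] W} (h : C.Van M 1) (h' : D.Van M' 1)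
    (hi : ∀ φ ∈ C.G 1, C.d φ ∈ M → f φ ∈ M' → φ ∈ M)
    (hs : ∀ ψ ∈ D.G 1, D.d ψ ∈ M' → ∃ φ ∈ C.G 1, C.d φ ∈ M ∧ ψ + f φ ∈ M') : QI C D M M' f where
  inj n φ a b c := by
    rcases n with _ | n
    exacts [.of_mem (hi φ a b c.zero), h _ (by omega) φ a b]
  surj n ψ a b := by
    rcases n with _ | n
    · obtain ⟨φ, c1, c2, c3⟩ := hs ψ a b
      exact ⟨φ, c1, c2, .of_mem c3⟩
    · exact ⟨0, zero_mem _, by simp, by simpa using h' _ (by omega) ψ a b⟩

theorem BL.succ {g : V →ₗ[ZMod 2] W} (h : Soft.Hom S T 1 g) {K : Set Z} {u : ℕ → V}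
    {u' w : ℕ → W} {r : ℕ} (b : BL S.toCx (S.N K) u r)
    (bt : BL (Soft.tw h).toCx ((Soft.tw h).N K) (fun n => (0, w n)) 1) (h0 : u' 0 = w 0)
    (hu : ∀ n, u' (n + 1) = g (u n)) : BL T.toCx (T.N K) u' (r + 1) where
  mem n := by
    rcases n with _ | n
    · rw [h0]; exact (bt.mem 0).2
    · rw [hu]; exact h.mG _ _ (b.mem n)
  cyc n := by
    rcases n with _ | n
    · rw [h0]; simpa [Soft.tw_d] using (bt.cyc 0).2
    · rw [hu]; exact h.cyc (b.mem n) (b.cyc n)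
  ne n hn e := by
    rcases n with _ | n
    · exact bt.ne 0 one_pos (.of_mem ⟨zero_mem _, h0 ▸ e.zero⟩)
    · obtain ⟨β, c1, c2⟩ := e
      rw [hu] at c2
      rcases bt.gen n (u n, β) ⟨b.mem n, c1⟩ ⟨b.cyc n, c2⟩ with ⟨x, e1, e2⟩ | ⟨-, x, e1, e2⟩
      · exact b.ne n (by omega) ⟨x.1, e1.1, e2.1⟩
      · have e3 : u n + 0 + S.d x.1 ∈ S.N K := e2.1
        exact b.ne n (by omega) ⟨x.1, e1.1, by simpa using e3⟩
  gen n φ hφ hd := by
    have := bt.gen n (0, φ) ⟨zero_mem _, hφ⟩ ⟨by simp [Soft.tw_d], by simpa [Soft.tw_d] using hd⟩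
    rcases n with _ | n
    · exact this.imp (fun e => .of_mem e.zero.2) fun e => ⟨by omega, .of_mem (h0 ▸ e.2.zero.2)⟩
    · obtain ⟨⟨α, β⟩, c1, c2⟩ := this.resolve_right (by omega)
      have c3 : 0 + S.d α ∈ S.N K := c2.1
      have c4 : T.Ex (T.N K) (n + 1) (φ + g α) := ⟨β, c1.2, by rw [add_assoc]; exact c2.2⟩
      refine (b.gen n α c1.1 (by simpa using c3)).imp
        (fun e => (c4.add (h.ex e)).fx (by match_scalars <;> decide))
        fun e => ⟨by omega, (c4.add (h.ex e.2)).fx (by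
          simp only [hu, map_add]; match_scalars <;> decide)⟩

end

variable {X : Type} [TopologicalSpace X] [T2Space X] {m : ℕ}

theorem van_fin {A F : Set X} (hF : F.Finite) (h : F ⊆ A) : (asC X).Van (NA A F) 1 := by
  induction F, hF using Set.Finite.induction_on with
  | empty => exact fun n _ φ _ _ => .of_mem ((AS A).emp _)
  | @insert x F hx hF ih =>
    intro n hn φ a b
    exact (AS A).ex_union isCompact_singleton hF.isCompact
      ((bl1_pt (h (mem_insert _ _))).van n hn φ a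
        (NA_mono subset_rfl (singleton_subset_iff.2 (mem_insert _ _)) b))
      (ih ((subset_insert _ _).trans h) n hn φ a (NA_mono subset_rfl (subset_insert _ _) b))
      (by rw [singleton_inter_of_notMem hx]; exact (AS A).onto_empty _ _)

/-- a closed hemisphere -/
def hemi (Λ : Submodule ℝ (Fin m → ℝ)) (v : Fin m → ℝ) : Set (Fin m → ℝ) :=
  {l | (l ∈ Λ ∧ IsUnitVec l) ∧ 0 ≤ l ⬝ᵥ v}

theorem hemi_cpt (Λ : Submodule ℝ (Fin m → ℝ)) (v : Fin m → ℝ) : IsCompact (hemi Λ v) := by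
  refine (isCompact_univ_pi fun _ => isCompact_Icc (a := (-1 : ℝ)) (b := 1)).of_isClosed_subset
    ((Λ.closed_of_finiteDimensional.inter (isClosed_eq (f := fun l : Fin m → ℝ => ∑ i, l i ^ 2)
      (by fun_prop) continuous_const)).inter
      (isClosed_le (g := fun l => l ⬝ᵥ v) continuous_const (by fun_prop))) fun l hl i _ => ?_
  have : l i ^ 2 ≤ 1 := hl.1.2 ▸ Finset.single_le_sum (f := fun i => l i ^ 2)
    (fun _ _ => sq_nonneg _) (Finset.mem_univ i)
  exact abs_le.1 ((sq_le_one_iff_abs_le_one _).1 this)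

theorem hemi_bl {Λ : Submodule ℝ (Fin m → ℝ)} {v : Fin m → ℝ} (hv : v ∈ Λ) (hv1 : IsUnitVec v) :
    BL1 (hemi Λ v) (hemi Λ v) := by
  have hne : ∀ p ∈ hemi Λ v ×ˢ Icc (0 : ℝ) 1, (1 - p.2) • p.1 + p.2 • v ≠ 0 := fun p hp e => by
    have h1 := congrArg (· ⬝ᵥ v) e
    simp only [add_dotProduct, smul_dotProduct, smul_eq_mul, unit_iff.1 hv1, zero_dotProduct] at h1
    have h2 : p.2 = 0 := by nlinarith [mul_nonneg (sub_nonneg.2 hp.2.2) hp.1.2, hp.2.1]
    have h3 := unit_iff.1 hp.1.1.2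
    rw [show p.1 = 0 by simpa [h2] using e] at h3
    simp at h3
  refine bl1_contr (hemi_cpt Λ v) (x0 := v) ⟨⟨hv, hv1⟩, by rw [unit_iff.1 hv1]; exact zero_le_one⟩
    (h := fun p => (√(((1 - p.2) • p.1 + p.2 • v) ⬝ᵥ ((1 - p.2) • p.1 + p.2 • v)))⁻¹ •
      ((1 - p.2) • p.1 + p.2 • v)) ?_ (fun p hp => ⟨⟨?_, unit_normalize (hne p hp)⟩, ?_⟩)
    (fun l hl => by simp [unit_iff.1 hl.1.2]) fun l _ => by simp [unit_iff.1 hv1]
  · have hw : Continuous fun p : (Fin m → ℝ) × ℝ => (1 - p.2) • p.1 + p.2 • v := by fun_prop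
    refine ((hw.dotProduct hw).sqrt.continuousOn.inv₀ fun p hp e => hne p hp ?_).smul
      hw.continuousOn
    exact dotProduct_self_eq_zero.1 (le_antisymm (Real.sqrt_eq_zero'.1 e)
      (Finset.sum_nonneg fun i _ => mul_self_nonneg _))
  · exact Λ.smul_mem _ (add_mem (Λ.smul_mem _ hp.1.1.1) (Λ.smul_mem _ hv))
  · simp only [add_dotProduct, smul_dotProduct, smul_eq_mul, unit_iff.1 hv1]
    exact mul_nonneg (by positivity)
      (by nlinarith [mul_nonneg (sub_nonneg.2 hp.2.2) hp.1.2, hp.2.1])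

theorem proj_step {P : Set X} (hP : IsCompact P) {e : X → Fin m → Fin m → ℝ}
    {lam : X → Fin m → ℝ} (h : Lam P e lam) {Λ : Submodule ℝ (Fin m → ℝ)}
    (hb : BijOn e P (pj '' {l | l ∈ Λ ∧ IsUnitVec l})) {v : Fin m → ℝ} (hv : v ∈ Λ)
    (hv1 : IsUnitVec v) (hl : ∀ y ∈ P, 0 ≤ lam y ⬝ᵥ v) {r : ℕ} {P' : Set X}
    (hP' : IsCompact P') (hs : P' ⊆ P) (hz : ∀ y ∈ P, y ∈ P' ↔ lam y ⬝ᵥ v = 0)
    (b : BL (asC X) (NA P' P') (fun n => pw lam n one) r) :
    BL (asC X) (NA P P) (fun n => pw lam n one) (r + 1) := by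
  have : Nonempty X := ⟨(hb.surjOn ⟨v, ⟨hv, hv1⟩, rfl⟩).choose⟩
  obtain ⟨q, hq, hq1, hq2⟩ : ∃ q : (Fin m → ℝ) → X, ContinuousOn q (hemi Λ v) ∧
      MapsTo q (hemi Λ v) P ∧ ∀ l ∈ hemi Λ v, e (q l) = pj l := by
    have a : ∀ l ∈ hemi Λ v, pj l ∈ e '' P := fun l hl => hb.surjOn ⟨l, hl.1, rfl⟩
    exact ⟨fun l => Function.invFunOn e P (pj l), (cont_inv hP h.cont
      hb.injOn.leftInvOn_invFunOn).comp cont_pj.continuousOn a,
      fun l hl => Function.invFunOn_mem (a l hl), fun l hl => Function.invFunOn_eq (a l hl)⟩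
  have hD := hemi_cpt Λ v
  have l1 : Lam (hemi Λ v) pj id := ⟨cont_pj.continuousOn, fun l hl => hl.1.2, fun _ _ => rfl⟩
  have l2 : Lam (hemi Λ v) pj fun l => lam (q l) := ⟨cont_pj.continuousOn,
    fun l hl => h.unit _ (hq1 hl), fun l hl => (hq2 l hl).symm.trans (h.eq _ (hq1 hl))⟩
  have hΛ : ∀ y ∈ P, lam y ∈ Λ := fun y hy => by
    obtain ⟨l, a, c⟩ := hb.mapsTo hy
    rcases pj_inj a.2 ((h.eq y hy).symm.trans c.symm) with c | c <;> rw [c]
    exacts [a.1, neg_mem a.1]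
  have d1 : ∀ y ∈ P, lam y ∈ hemi Λ v ∧ q (lam y) = y := fun y hy =>
    have a : lam y ∈ hemi Λ v := ⟨⟨hΛ y hy, h.unit y hy⟩, hl y hy⟩
    ⟨a, hb.injOn (hq1 a) hy ((hq2 _ a).trans (h.eq y hy).symm)⟩
  have d2 : ∀ y ∈ P', -lam y ∈ hemi Λ v ∧ q (-lam y) = y := fun y hy =>
    have a : -lam y ∈ hemi Λ v := ⟨⟨neg_mem (hΛ y (hs hy)), by
      simpa [IsUnitVec] using h.unit y (hs hy)⟩, by simp [(hz y (hs hy)).1 hy]⟩
    ⟨a, hb.injOn (hq1 a) (hs hy) ((hq2 _ a).trans ((pj_neg _).trans (h.eq y (hs hy)).symm))⟩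
  have hm : Soft.Hom ((AS P).push hP' continuousOn_id) ((AS P).push hP continuousOn_id) 1
      (m1 (xi lam)) := by
    refine ⟨fun _ _ => m1_G _, fun K φ a y hy => ?_, fun _ _ _ a => h.md inter_subset_left a.1⟩
    by_cases c : y ∈ P'
    · exact m1_NA _ a y ⟨c, hy.2⟩
    · refine h.triv hy.1 ?_ φ
      have h1 : ∀ᶠ x in 𝓝[P] y, 0 < bil (e x) (lam y) v :=
        ((cont_bil _ v).continuousAt.comp_continuousWithinAt (h.cont y hy.1)).eventually
          (lt_mem_nhds (by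
            simpa [h.eq y hy.1, bil_pj, unit_iff.1 (h.unit y hy.1)] using
              lt_of_le_of_ne (hl y hy.1) fun e => c ((hz y hy.1).2 e.symm)))
      filter_upwards [h1, self_mem_nhdsWithin] with x a1 a2
      rw [h.eq x a2, bil_pj] at a1
      exact pos_of_mul_pos_left a1 (hl x a2)
  have hΦ : Soft.Hom (Soft.tw hm) ((AS (hemi Λ v)).push hD hq) 0
      ((m0 (eta id fun l => lam (q l)) ∘ₗ pull q).coprod (pull q)) := by
    refine ⟨fun _ φ a => add_mem (m0_G _ (pull_G _ a.1)) (pull_G _ a.2), fun K φ a => add_mem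
      (fun l hl' => ?_) (pull_NA hq hq1 inter_subset_left (L := P ∩ K)
        (fun l hl' => ⟨hq1 hl'.1, hl'.2⟩) a.2),
      fun n K φ a => ?_⟩
    · by_cases c : q l ∈ P'
      · exact m0_NA _ (pull_NA hq hq1 (singleton_subset_iff.2 hl'.1) (K := {l}) (L := P' ∩ K)
          (mapsTo_singleton.2 ⟨c, hl'.2⟩) a.1) l rfl
      · have h1 : ∀ᶠ x in 𝓝[hemi Λ v] l, 0 < x ⬝ᵥ v := mem_nhdsWithin_of_mem_nhds
          ((by fun_prop : Continuous fun x => x ⬝ᵥ v).continuousAt.eventually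
            (lt_mem_nhds (lt_of_le_of_ne hl'.1.2 fun e => c ((hz _ (hq1 hl'.1)).2 (by
              rcases l2.pm l1 hl'.1 with c | c <;> simp [c, ← e])))))
        refine ⟨_, inter_mem h1 self_mem_nhdsWithin, ?_⟩
        simpa [m0_zero] using m0_VU' (η := eta id fun l => lam (q l)) (η' := fun _ => 0)
          (pull q φ.1) fun x hx => if_pos ((l1.pm l2 hx.2).resolve_right fun c => by
            have := hl _ (hq1 hx.2)
            have c' : 0 < x ⬝ᵥ v := hx.1
            have c1 : x ⬝ᵥ v = (-lam (q x)) ⬝ᵥ v := congrArg (· ⬝ᵥ v) c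
            rw [neg_dotProduct] at c1
            linarith)
    · have h1 : m1 (xi id) (pull q φ.1) ∈ NA (hemi Λ v) (hemi Λ v ∩ q ⁻¹' K) := fun l hl' =>
        l1.triv' hl'.1 continuousWithinAt_id _
      have h2 : m1 (xi fun l => lam (q l)) (pull q φ.1) = pull q (m1 (xi lam) φ.1) :=
        (pull_m1 q (xi lam) φ.1).symm
      refine fx (add_mem (l1.chg l2 inter_subset_left (pull q φ.1)) h1) ?_
      change (1 : ZMod 2) • (_ + (m0 _ (pull q (dA φ.1)) + pull q (m1 (xi lam) φ.1 + dA φ.2) +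
        dA (m0 _ (pull q φ.1) + pull q φ.2))) = 0
      simp only [map_add, dA_m0 _ (pull_G q a.1).1, dA_pull, h2]
      match_scalars <;> decide
  have pts : ∀ z ∈ P, QI _ _ ((Soft.tw hm).N {z}) (((AS (hemi Λ v)).push hD hq).N {z})
      ((m0 (eta id fun l => lam (q l)) ∘ₗ pull q).coprod (pull q)) := fun z hz' => by
    have hF : ∀ l ∈ hemi Λ v ∩ q ⁻¹' {z}, l = lam z ∨ l = -lam z := fun l hl' => by
      have := l1.pm l2 hl'.1
      rwa [show q l = z from hl'.2] at this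
    have hne := ne_neg_of_unit (h.unit z hz')
    refine QI.of_van (Soft.tw_van hm
      (van_fin ((finite_singleton z).subset inter_subset_right) (inter_subset_left.trans hs))
      (van_fin ((finite_singleton z).subset inter_subset_right) inter_subset_left))
      (van_fin ((toFinite {lam z, -lam z}).subset hF) inter_subset_left) ?_ ?_
    · rintro ⟨a, b⟩ hφ hd hf
      have v1 : b [z] = 0 := by
        simpa [eta, (d1 z hz').2] using NA_val hf ⟨(d1 z hz').1, (d1 z hz').2⟩ (d1 z hz').1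
      have ha : a ∈ NA P (P' ∩ {z}) := deg0 hφ.1 hd.1 (inter_subset_left.trans hs) (by
        rintro x ⟨hx, rfl⟩
        simpa [eta, (d2 x hx).2, hne.symm, v1] using
          NA_val hf ⟨(d2 x hx).1, (d2 x hx).2⟩ (d2 x hx).1)
      have hd2 : m1 (xi lam) a + dA b ∈ NA P (P ∩ {z}) := hd.2
      exact ⟨ha, deg0 hφ.2 (fx (add_mem hd2 (hm.mN {z} a ha)) (by match_scalars <;> decide))
        inter_subset_left (by rintro x ⟨-, rfl⟩; exact v1)⟩
    · intro ψ a b
      have c1 : ((ψ [lam z] + ψ [-lam z]) • one, ψ [lam z] • one +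
          (ψ [lam z] + ψ [-lam z]) • m0 (sg lam (lam z)) one) ∈ (Soft.tw hm).G 1 :=
        ⟨Submodule.smul_mem _ _ one_G, add_mem (Submodule.smul_mem _ _ one_G)
          (Submodule.smul_mem _ _ (m0_G _ one_G))⟩
      have c2 : (Soft.tw hm).d ((ψ [lam z] + ψ [-lam z]) • one, ψ [lam z] • one +
          (ψ [lam z] + ψ [-lam z]) • m0 (sg lam (lam z)) one) ∈ (Soft.tw hm).N {z} := by
        refine ⟨?_, ?_⟩
        · change dA _ ∈ NA _ _
          simp [dA_one]
        · change m1 (xi lam) ((_ : ZMod 2) • (one : Co X)) +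
            dA ((_ : ZMod 2) • (one : Co X) + (_ : ZMod 2) • m0 _ one) ∈ NA P (P ∩ {z})
          simp only [map_add, map_smul, dA_one, dA_m0 _ one_G.1, map_zero, smul_zero, zero_add,
            ← smul_add]
          refine Submodule.smul_mem _ _ ?_
          rintro x ⟨-, rfl⟩
          obtain ⟨U, a1, -, a3⟩ := h.loc hz' (h.unit x hz') (h.eq x hz')
          exact ⟨U, a1, m1_VU' one a3⟩
      refine ⟨_, c1, c2, deg0 (add_mem a (hΦ.mG _ _ c1)) ?_ inter_subset_left fun l hl' => ?_⟩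
      · rw [map_add]; exact add_mem b (hΦ.cyc c1 c2)
      · have e1 : q l = z := hl'.2
        have e2 : sg lam (lam z) z = 0 := if_neg (by simp [unit_iff.1 (h.unit z hz')])
        rcases hF l hl' with rfl | rfl <;>
          simp [eta, e1, e2, hne.symm, CharTwo.add_eq_zero, add_right_comm]
  have e3 : hemi Λ v ∩ q ⁻¹' P = hemi Λ v := inter_eq_left.2 hq1
  have bt := BL.of_qi hΦ (hΦ.qi hP pts) (u := fun n => (0, u0 n)) (r := 1)
    (fun n => ⟨zero_mem _, (bl1_pt (mem_univ (Classical.arbitrary X))).mem n⟩)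
    (fun n => ⟨by simp [Soft.tw_d], by
      change m1 _ _ + dA _ ∈ NA _ _
      rcases n with _ | n <;> simp [u0, dA_one]⟩) (by
      change BL _ (NA _ (hemi Λ v ∩ q ⁻¹' P)) _ _
      rw [e3]
      have e4 : (fun n => ((m0 (eta id fun l => lam (q l)) ∘ₗ pull q).coprod (pull q))
          (0, u0 n)) = u0 := funext fun n => by rcases n with _ | n <;> simp [u0, pull_one]
      rw [e4]
      exact hemi_bl hv hv1)
  have := BL.succ hm (u := fun n => pw lam n one) (u' := fun n => pw lam n one) (by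
    change BL _ (NA P (P' ∩ P)) _ _
    rw [inter_eq_left.2 hs]
    exact b.taut hP' hs (h.pw_one hs)) bt rfl fun _ => rfl
  change BL _ (NA P (P ∩ P)) _ _ at this
  rwa [inter_self] at this

/-- the cohomology of a projective space -/
theorem proj_bl (r : ℕ) : ∀ {P : Set X} {e : X → Fin m → Fin m → ℝ} {lam : X → Fin m → ℝ}
    {Λ : Submodule ℝ (Fin m → ℝ)}, IsCompact P → Lam P e lam → Module.finrank ℝ Λ = r →
    BijOn e P (pj '' {l | l ∈ Λ ∧ IsUnitVec l}) →
    BL (asC X) (NA P P) (fun n => pw lam n one) r := by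
  induction r with
  | zero =>
    intro P e lam Λ _ h hr hb
    obtain rfl : P = ∅ := eq_empty_of_forall_notMem fun y hy => by
      obtain ⟨l, a, -⟩ := hb.mapsTo hy
      have := unit_iff.1 a.2
      rw [show l = 0 by simpa [Submodule.finrank_eq_zero.1 hr] using a.1] at this
      simp at this
    exact ⟨pw_one_G, h.pw_one subset_rfl, fun n hn => by omega,
      fun n φ _ _ => .inl (.of_mem ((AS ∅).emp _))⟩
  | succ r ih =>
    classical
    intro P e lam Λ hP h hr hb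
    obtain ⟨w, hw, hw0⟩ := Λ.exists_mem_ne_zero_of_ne_bot (by rintro rfl; simp at hr)
    have hv1 := unit_normalize hw0
    have hv : (√(w ⬝ᵥ w))⁻¹ • w ∈ Λ := Λ.smul_mem _ hw
    generalize (√(w ⬝ᵥ w))⁻¹ • w = v at hv hv1
    have h' : Lam P e fun y => if 0 ≤ lam y ⬝ᵥ v then lam y else -lam y :=
      ⟨h.cont, fun y hy => by split_ifs <;> simpa [IsUnitVec] using h.unit y hy,
        fun y hy => by split_ifs <;> simp [pj_neg, h.eq y hy]⟩
    have hl : ∀ y ∈ P, 0 ≤ (fun y => if 0 ≤ lam y ⬝ᵥ v then lam y else -lam y) y ⬝ᵥ v := by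
      intro y _
      beta_reduce
      split_ifs with c
      exacts [c, by rw [neg_dotProduct]; linarith]
    generalize (fun y => if 0 ≤ lam y ⬝ᵥ v then lam y else -lam y) = lam' at h' hl
    have hP' := fib_cpt hP ((cont_bil v v).comp_continuousOn h.cont) (isClosed_singleton (x := 0))
    have hm : ∀ l, l ∈ (LinearMap.ker ((dotProductBilin ℝ ℝ v) ∘ₗ Λ.subtype)).map Λ.subtype ↔
        l ∈ Λ ∧ l ⬝ᵥ v = 0 := fun l => by simp [dotProduct_comm v, and_comm]
    refine (proj_step hP h' hb hv hv1 hl hP' inter_subset_left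
      (fun y hy => by simp [hy, h'.eq y hy, bil_pj]) (ih hP' (h'.mono inter_subset_left)
        (Λ := (LinearMap.ker ((dotProductBilin ℝ ℝ v) ∘ₗ Λ.subtype)).map Λ.subtype) ?_
        ⟨fun y hy => ?_, hb.injOn.mono inter_subset_left, ?_⟩)).congr pw_one_G
      (h.pw_one subset_rfl) fun n _ => h'.indep h subset_rfl n
    · rw [Submodule.finrank_map_subtype_eq]
      have := Module.Dual.finrank_ker_add_one_of_ne_zero
        (f := (dotProductBilin ℝ ℝ v) ∘ₗ Λ.subtype) fun e => by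
          simpa [unit_iff.1 hv1] using LinearMap.congr_fun e ⟨v, hv⟩
      omega
    · obtain ⟨l, a, c⟩ := hb.mapsTo hy.1
      exact ⟨l, ⟨(hm l).2 ⟨a.1, by simpa [← c, bil_pj] using hy.2⟩, a.2⟩, c⟩
    · rintro _ ⟨l, a, rfl⟩
      obtain ⟨y, b, c⟩ := hb.surjOn ⟨l, ⟨((hm l).1 a.1).1, a.2⟩, rfl⟩
      exact ⟨y, ⟨b, by simp [c, bil_pj, ((hm l).1 a.1).2]⟩, c⟩

end Pool.Agent.MP_696f7f_ag.H96.Cohom
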