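import Mathlib

/-!
Complexes over the field with two elements with a family of supports over a Hausdorff base, and
the passage from acyclicity at points to acyclicity on compact sets.
-/

namespace Pool.Agent.MP_696f7f_ag.H96.Cohom

open Set Filter Topology

section
variable {V W : Type} [AddCommGroup V] [Module (ZMod 2) V] [AddCommGroup W] [Module (ZMod 2) W]

theorem fx {N : Submodule (ZMod 2) V} {x y : V} (h : x ∈ N)
    (e : (1 : ZMod 2) • (x + y) = 0) : y ∈ N := by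
  rw [one_smul] at e
  have : y = -x := eq_neg_of_add_eq_zero_right e
  rw [this]; exact N.neg_mem h

/-- a graded family of submodules with a differential -/
structure Cx (V : Type) [AddCommGroup V] [Module (ZMod 2) V] where
  G : ℕ → Submodule (ZMod 2) V
  d : V →ₗ[ZMod 2] V
  G0 : ∀ φ ∈ G 0, φ = 0
  dG : ∀ n, ∀ φ ∈ G n, d φ ∈ G (n + 1)

/-- exact modulo `M` -/
def Cx.Ex (C : Cx V) (M : Submodule (ZMod 2) V) (n : ℕ) (φ : V) : Prop :=
  ∃ ψ ∈ C.G n, φ + C.d ψ ∈ M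

/-- acyclic modulo `M` -/
def Cx.Ac (C : Cx V) (M : Submodule (ZMod 2) V) : Prop :=
  ∀ n, ∀ φ ∈ C.G (n + 1), C.d φ ∈ M → C.Ex M n φ

/-- bijective on cohomology -/
structure QI (C : Cx V) (D : Cx W) (M : Submodule (ZMod 2) V) (M' : Submodule (ZMod 2) W)
    (f : V →ₗ[ZMod 2] W) : Prop where
  inj : ∀ n, ∀ φ ∈ C.G (n + 1), C.d φ ∈ M → D.Ex M' n (f φ) → C.Ex M n φ
  surj : ∀ n, ∀ ψ ∈ D.G (n + 1), D.d ψ ∈ M' →
    ∃ φ ∈ C.G (n + 1), C.d φ ∈ M ∧ D.Ex M' n (ψ + f φ)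

/-- the cohomology has the basis `u 0, ..., u (r-1)`, one element in each degree below `r` -/
structure BL (C : Cx V) (M : Submodule (ZMod 2) V) (u : ℕ → V) (r : ℕ) : Prop where
  mem : ∀ n, u n ∈ C.G (n + 1)
  cyc : ∀ n, C.d (u n) ∈ M
  ne : ∀ n, n < r → ¬ C.Ex M n (u n)
  gen : ∀ n, ∀ φ ∈ C.G (n + 1), C.d φ ∈ M → C.Ex M n φ ∨ (n < r ∧ C.Ex M n (φ + u n))

namespace Cx
variable {C : Cx V} {M M' : Submodule (ZMod 2) V}

theorem Ex.of_mem {n : ℕ} {φ : V} (h : φ ∈ M) : C.Ex M n φ := ⟨0, zero_mem _, by simpa using h⟩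

theorem Ex.mono {n : ℕ} {φ : V} (h : C.Ex M n φ) (hM : M ≤ M') : C.Ex M' n φ :=
  let ⟨ψ, a, b⟩ := h; ⟨ψ, a, hM b⟩

theorem Ex.add {n : ℕ} {φ ψ : V} (h : C.Ex M n φ) (h' : C.Ex M n ψ) : C.Ex M n (φ + ψ) := by
  obtain ⟨a, ha, ha'⟩ := h
  obtain ⟨b, hb, hb'⟩ := h'
  exact ⟨a + b, add_mem ha hb, fx (add_mem ha' hb') (by
    simp only [map_add]; match_scalars <;> decide)⟩

theorem Ex.fx {n : ℕ} {x y : V} (h : C.Ex M n x) (e : (1 : ZMod 2) • (x + y) = 0) :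
    C.Ex M n y := by
  rw [one_smul] at e
  have : y = x := by rw [eq_neg_of_add_eq_zero_right e, ZModModule.neg_eq_self]
  rwa [this]

theorem Ex.zero {φ : V} (h : C.Ex M 0 φ) : φ ∈ M := by
  obtain ⟨a, ha, ha'⟩ := h
  simpa [C.G0 a ha] using ha'

theorem ex_d {n : ℕ} {ψ : V} (h : ψ ∈ C.G n) : C.Ex M n (C.d ψ) :=
  ⟨ψ, h, by rw [ZModModule.add_self]; exact zero_mem _⟩

end Cx

theorem BL.congr {C : Cx V} {M : Submodule (ZMod 2) V} {u u' : ℕ → V} {r : ℕ} (h : BL C M u r)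
    (hm : ∀ n, u' n ∈ C.G (n + 1)) (hc : ∀ n, C.d (u' n) ∈ M)
    (he : ∀ n, n < r → C.Ex M n (u n + u' n)) : BL C M u' r where
  mem := hm
  cyc := hc
  ne n hn h' := h.ne n hn (((he n hn).add h').fx (by match_scalars <;> decide))
  gen n φ hφ hd := (h.gen n φ hφ hd).imp_right fun ⟨hn, h'⟩ =>
    ⟨hn, ((he n hn).add h').fx (by match_scalars <;> decide)⟩

/-- a map that respects bases is bijective on cohomology -/
theorem QI.of_bl {C : Cx V} {D : Cx W} {M : Submodule (ZMod 2) V} {M' : Submodule (ZMod 2) W}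
    {f : V →ₗ[ZMod 2] W} {u : ℕ → V} {u' : ℕ → W} {r : ℕ} (h : BL C M u r) (h' : BL D M' u' r)
    (hf : ∀ n φ, C.Ex M n φ → D.Ex M' n (f φ)) (he : ∀ n, n < r → D.Ex M' n (f (u n) + u' n)) :
    QI C D M M' f where
  inj n φ hφ hd hx := by
    rcases h.gen n φ hφ hd with h1 | ⟨hn, h1⟩
    · exact h1
    · exact (h'.ne n hn ((((hf _ _ h1).add hx).add (he n hn)).fx (by
        simp only [map_add]; match_scalars <;> decide))).elim
  surj n ψ hψ hd := by
    rcases h'.gen n ψ hψ hd with h1 | ⟨hn, h1⟩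
    · exact ⟨0, zero_mem _, by simp, by simpa using h1⟩
    · exact ⟨u n, h.mem n, h.cyc n, (h1.add (he n hn)).fx (by match_scalars <;> decide)⟩

end

/-- induction over a compact set, adding one small compact piece at a time -/
theorem cpt_ind {Z : Type} [TopologicalSpace Z] [T2Space Z] {K0 : Set Z} (hK : IsCompact K0)
    (p : Set Z → Prop) (U : Z → Set Z) (hU : ∀ x ∈ K0, U x ∈ 𝓝 x) (h0 : p ∅)
    (hs : ∀ x ∈ K0, ∀ K L, IsCompact K → IsCompact L → K ⊆ K0 → L ⊆ K0 → L ⊆ U x → p K →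
      p (K ∪ L)) : p K0 := by
  classical
  obtain ⟨t, ht, hc⟩ := hK.elim_nhds_subcover (fun x => interior (U x))
    (fun x hx => interior_mem_nhds.2 (hU x hx))
  have key : ∀ s : Finset Z, (∀ x ∈ s, x ∈ K0) → ∀ K, IsCompact K → K ⊆ K0 →
      K ⊆ ⋃ x ∈ s, interior (U x) → p K := by
    intro s
    induction s using Finset.induction_on with
    | empty => intro _ K _ _ h; simp only [Finset.notMem_empty, iUnion_of_empty, iUnion_empty,
        subset_empty_iff] at h; rwa [h]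
    | insert a s _ ih =>
      intro h K hK1 hK2 h3
      rw [Finset.set_biUnion_insert, union_comm] at h3
      obtain ⟨K1, K2, a1, a2, a3, a4, rfl⟩ := hK1.binary_compact_cover
        (isOpen_biUnion fun _ _ => isOpen_interior) isOpen_interior h3
      exact hs a (h a (by simp)) K1 K2 a1 a2 (subset_union_left.trans hK2)
        (subset_union_right.trans hK2) (a4.trans interior_subset)
        (ih (fun x hx => h x (by simp [hx])) K1 a1 (subset_union_left.trans hK2) a3)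
  exact key t ht K0 hK subset_rfl hc

/-- a complex with supports: `N K` consists of the elements vanishing near `K` -/
structure Soft (Z V : Type) [TopologicalSpace Z] [AddCommGroup V] [Module (ZMod 2) V]
    extends Cx V where
  N : Set Z → Submodule (ZMod 2) V
  dN : ∀ K, ∀ φ ∈ N K, d φ ∈ N K
  dd : ∀ n K, ∀ φ ∈ G n, d (d φ) ∈ N K
  anti : ∀ {K L}, K ⊆ L → N L ≤ N K
  glue : ∀ {K L φ}, φ ∈ N K → φ ∈ N L → φ ∈ N (K ∪ L)
  emp : ∀ φ, φ ∈ N ∅
  mv : ∀ {n K L φ}, IsCompact K → IsCompact L → φ ∈ G n → φ ∈ N (K ∩ L) →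
    ∃ ψ ∈ G n, ψ ∈ N K ∧ φ + ψ ∈ N L
  cont : ∀ {z φ}, φ ∈ N {z} → ∃ U ∈ 𝓝 z, φ ∈ N U

namespace Soft
variable {Z V W : Type} [TopologicalSpace Z] [AddCommGroup V] [Module (ZMod 2) V]
  [AddCommGroup W] [Module (ZMod 2) W] (S : Soft Z V) (T : Soft Z W)

theorem ex_cont {z : Z} {n : ℕ} {φ : V} (h : S.Ex (S.N {z}) n φ) :
    ∃ U ∈ 𝓝 z, S.Ex (S.N U) n φ :=
  let ⟨ψ, a, b⟩ := h; let ⟨U, c, e⟩ := S.cont b; ⟨U, c, ψ, a, e⟩

theorem cyc_of_ex {K : Set Z} {n : ℕ} {φ : V} (h : S.Ex (S.N K) n φ) : S.d φ ∈ S.N K := by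
  obtain ⟨ψ, a, b⟩ := h
  exact fx (add_mem (S.dN K _ b) (S.dd n K ψ a)) (by
    simp only [map_add]; match_scalars <;> decide)

/-- gluing of two primitives -/
theorem glue_prim {K L : Set Z} (hK : IsCompact K) (hL : IsCompact L) {n : ℕ} {φ ψ ψ' a b : V}
    (h1 : ψ ∈ S.G n) (h2 : ψ' ∈ S.G n) (h3 : φ + S.d ψ ∈ S.N K) (h4 : φ + S.d ψ' ∈ S.N L)
    (ha : a ∈ S.G n) (hb : b ∈ S.G n) (ha' : S.d a ∈ S.N K) (hb' : S.d b ∈ S.N L)
    (h : ψ + ψ' + a + b ∈ S.N (K ∩ L)) : S.Ex (S.N (K ∪ L)) n φ := by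
  obtain ⟨ν, c1, c2, c3⟩ := S.mv hK hL (add_mem (add_mem (add_mem h1 h2) ha) hb) h
  refine ⟨ψ + a + ν, add_mem (add_mem h1 ha) c1, S.glue ?_ ?_⟩
  · exact fx (add_mem (add_mem h3 ha') (S.dN _ _ c2)) (by
      simp only [map_add]; match_scalars <;> decide)
  · exact fx (add_mem (add_mem h4 hb') (S.dN _ _ c3)) (by
      simp only [map_add]; match_scalars <;> decide)

/-- every cocycle of `G n` on `K` agrees on `K` with a cocycle on `L` -/
def Onto (n : ℕ) (K L : Set Z) : Prop :=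
  ∀ χ ∈ S.G n, S.d χ ∈ S.N K → ∃ a ∈ S.G n, S.d a ∈ S.N L ∧ χ + a ∈ S.N K

theorem onto_zero (K L : Set Z) : S.Onto 0 K L := fun χ h _ =>
  ⟨0, zero_mem _, by simp, by simp [S.G0 χ h]⟩

theorem onto_of_ex {n : ℕ} {K : Set Z} (L : Set Z)
    (h : ∀ χ ∈ S.G (n + 1), S.d χ ∈ S.N K → S.Ex (S.N K) n χ) : S.Onto (n + 1) K L :=
  fun χ h1 h2 => let ⟨ω, a, b⟩ := h χ h1 h2; ⟨S.d ω, S.dG n ω a, S.dd n L ω a, b⟩

theorem ex_union {K L : Set Z} (hK : IsCompact K) (hL : IsCompact L) {n : ℕ} {φ : V}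
    (h1 : S.Ex (S.N K) n φ) (h2 : S.Ex (S.N L) n φ) (h : S.Onto n (K ∩ L) K) :
    S.Ex (S.N (K ∪ L)) n φ := by
  obtain ⟨ψ, a1, a2⟩ := h1
  obtain ⟨ψ', b1, b2⟩ := h2
  obtain ⟨a, c1, c2, c3⟩ := h (ψ + ψ') (add_mem a1 b1)
    (fx (add_mem (S.anti inter_subset_left a2) (S.anti inter_subset_right b2)) (by
      simp only [map_add]; match_scalars <;> decide))
  exact S.glue_prim hK hL a1 b1 a2 b2 c1 (zero_mem _) c2 (by simp) (by simpa using c3)

theorem onto_empty (n : ℕ) (L : Set Z) : S.Onto n ∅ L := fun _ _ _ =>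
  ⟨0, zero_mem _, by simp, S.emp _⟩

/-- acyclic at the points implies acyclic -/
theorem ac_of_pts [T2Space Z] {K0 : Set Z} (hK : IsCompact K0)
    (h : ∀ z ∈ K0, S.Ac (S.N {z})) : S.Ac (S.N K0) := by
  have step : ∀ n, (∀ K L, IsCompact K → K ⊆ K0 → S.Onto n K L) → ∀ K, IsCompact K → K ⊆ K0 →
      ∀ φ ∈ S.G (n + 1), S.d φ ∈ S.N K → S.Ex (S.N K) n φ := by
    intro n ih K hK1 hK2 φ hφ hd
    have : ∀ x ∈ K, ∃ U ∈ 𝓝 x, S.Ex (S.N U) n φ := fun x hx =>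
      S.ex_cont (h x (hK2 hx) n φ hφ (S.anti (singleton_subset_iff.2 hx) hd))
    choose! U hU hU' using this
    refine cpt_ind hK1 (fun L => S.Ex (S.N L) n φ) U hU (.of_mem (S.emp _)) ?_
    intro x hx K1 K2 a1 a2 a3 _ a5 a6
    exact S.ex_union a1 a2 a6 ((hU' x hx).mono (S.anti a5))
      (ih _ _ (a1.inter a2) (inter_subset_left.trans (a3.trans hK2)))
  have key : ∀ n K L, IsCompact K → K ⊆ K0 → S.Onto n K L := by
    intro n
    induction n with
    | zero => exact fun K L _ _ => S.onto_zero K L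
    | succ n ih => exact fun K L a b => S.onto_of_ex L (step n ih K a b)
  exact fun n => step n (key n) K0 hK subset_rfl

theorem cont_cpt [T2Space Z] {K : Set Z} (hK : IsCompact K) {φ : V} (h : φ ∈ S.N K) :
    ∃ O, IsOpen O ∧ K ⊆ O ∧ φ ∈ S.N O := by
  have : ∀ x ∈ K, ∃ U ∈ 𝓝 x, φ ∈ S.N U := fun x hx =>
    S.cont (S.anti (singleton_subset_iff.2 hx) h)
  choose! U hU hU' using this
  refine cpt_ind hK (fun L => ∃ O, IsOpen O ∧ L ⊆ O ∧ φ ∈ S.N O) (fun x => interior (U x))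
    (fun x hx => interior_mem_nhds.2 (hU x hx)) ⟨∅, isOpen_empty, subset_rfl, S.emp _⟩ ?_
  rintro x hx K1 K2 - - - - a5 ⟨O, b1, b2, b3⟩
  exact ⟨O ∪ interior (U x), b1.union isOpen_interior, union_subset_union b2 a5,
    S.glue b3 (S.anti interior_subset (hU' x hx))⟩

/-- direct image of the part over `A` along `p` -/
def push [T2Space Z] {Y : Type} [TopologicalSpace Y] [T2Space Y] {A : Set Z} {p : Z → Y}
    (hA : IsCompact A) (hp : ContinuousOn p A) : Soft Y V where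
  toCx := S.toCx
  N K := S.N (A ∩ p ⁻¹' K)
  dN _ := S.dN _
  dd n _ := S.dd n _
  anti h := S.anti (inter_subset_inter_right _ (preimage_mono h))
  glue h h' := by rw [preimage_union, inter_union_distrib_left]; exact S.glue h h'
  emp φ := by simpa using S.emp φ
  mv hK hL h h' := by
    have c : ∀ {K : Set Y}, IsCompact K → IsCompact (A ∩ p ⁻¹' K) := fun hK =>
      hA.of_isClosed_subset (hp.preimage_isClosed_of_isClosed hA.isClosed hK.isClosed)
        inter_subset_left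
    exact S.mv (c hK) (c hL) h (S.anti (L := A ∩ p ⁻¹' (_ ∩ _))
      (fun x hx => ⟨hx.1.1, hx.1.2, hx.2.2⟩) h')
  cont {z φ} h := by
    obtain ⟨O, a, b, c⟩ := S.cont_cpt (hA.of_isClosed_subset
      (hp.preimage_isClosed_of_isClosed hA.isClosed isClosed_singleton) inter_subset_left) h
    have hc : IsClosed (p '' (A \ O)) :=
      ((hA.diff a).image_of_continuousOn (hp.mono sdiff_subset)).isClosed
    refine ⟨(p '' (A \ O))ᶜ, hc.isOpen_compl.mem_nhds ?_, S.anti ?_ c⟩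
    · rintro ⟨x, hx, rfl⟩
      exact hx.2 (b ⟨hx.1, rfl⟩)
    · intro x hx
      by_contra h'
      exact hx.2 ⟨x, ⟨hx.1, h'⟩, rfl⟩

/-- shift of the degrees -/
def shift (k : ℕ) : Soft Z V where
  G n := S.G (n - k)
  d := S.d
  G0 := by simpa using S.G0
  dG n φ h := by
    rcases le_or_gt k n with h' | h'
    · rw [Nat.sub_add_comm h']; exact S.dG _ _ h
    · rw [Nat.sub_eq_zero_of_le h'.le] at h
      simp [S.G0 φ h]
  N := S.N
  dN := S.dN
  dd _ := S.dd _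
  anti := S.anti
  glue := S.glue
  emp := S.emp
  mv := S.mv
  cont := S.cont

/-- the elements vanishing near `C` -/
def rel {C : Set Z} (hC : IsCompact C) : Soft Z V where
  G n := S.G n ⊓ S.N C
  d := S.d
  G0 φ h := S.G0 φ h.1
  dG n φ h := ⟨S.dG n φ h.1, S.dN _ _ h.2⟩
  N := S.N
  dN := S.dN
  dd n K φ h := S.dd n K φ h.1
  anti := S.anti
  glue := S.glue
  emp := S.emp
  mv {n K L φ} hK hL h h' := by
    obtain ⟨ψ, a, b, c⟩ := S.mv (hK.union hC) (hL.union hC) h.1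
      (by rw [← inter_union_distrib_right]; exact S.glue h' h.2)
    exact ⟨ψ, ⟨a, S.anti subset_union_right b⟩, S.anti subset_union_left b,
      S.anti subset_union_left c⟩
  cont := S.cont

/-- acyclic at the points off `C` implies acyclic relative to `C` -/
theorem rel_ac [T2Space Z] {A C : Set Z} (hA : IsCompact A) (hC : IsCompact C)
    (h : ∀ z ∈ A, z ∉ C → S.Ac (S.N {z})) : (S.rel hC).Ac (S.N A) := by
  refine (S.rel hC).ac_of_pts hA fun z hz n φ hφ hd => ?_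
  by_cases hzC : z ∈ C
  · exact .of_mem (S.anti (singleton_subset_iff.2 hzC) hφ.2)
  · obtain ⟨ψ, a, b⟩ := h z hz hzC n φ hφ.1 hd
    obtain ⟨ν, c1, c2, c3⟩ := S.mv (isCompact_singleton (x := z)) hC a
      (by rw [singleton_inter_of_notMem hzC]; exact S.emp _)
    exact ⟨ψ + ν, ⟨add_mem a c1, c3⟩, fx (add_mem b (S.dN _ _ c2)) (by
      simp only [rel, map_add]; match_scalars <;> decide)⟩

/-- finite products -/
def pi {ι : Type} [Fintype ι] (S : ι → Soft Z V) : Soft Z (ι → V) where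
  G n := Submodule.pi univ fun i => (S i).G n
  d := LinearMap.pi fun i => (S i).d ∘ₗ LinearMap.proj i
  G0 φ h := funext fun i => (S i).G0 _ (h i trivial)
  dG n φ h i _ := (S i).dG n _ (h i trivial)
  N K := Submodule.pi univ fun i => (S i).N K
  dN K φ h i _ := (S i).dN K _ (h i trivial)
  dd n K φ h i _ := (S i).dd n K _ (h i trivial)
  anti h φ h' i _ := (S i).anti h (h' i trivial)
  glue h h' i _ := (S i).glue (h i trivial) (h' i trivial)
  emp φ i _ := (S i).emp _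
  mv hK hL h h' := by
    choose ψ a b c using fun i => (S i).mv hK hL (h i trivial) (h' i trivial)
    exact ⟨ψ, fun i _ => a i, fun i _ => b i, fun i _ => c i⟩
  cont h := by
    choose U a b using fun i => (S i).cont (h i trivial)
    exact ⟨⋂ i, U i, iInter_mem.2 a, fun i _ => (S i).anti (iInter_subset U i) (b i)⟩

/-- maps raising the degree by `k` that commute with the differentials near every set -/
structure Hom (k : ℕ) (m : V →ₗ[ZMod 2] W) : Prop where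
  mG : ∀ n, ∀ φ ∈ S.G n, m φ ∈ T.G (n + k)
  mN : ∀ K, ∀ φ ∈ S.N K, m φ ∈ T.N K
  md : ∀ n K, ∀ φ ∈ S.G n, m (S.d φ) + T.d (m φ) ∈ T.N K

variable {S T}

theorem Hom.ex {k : ℕ} {m : V →ₗ[ZMod 2] W} (h : Hom S T k m) {K : Set Z} {n : ℕ} {φ : V}
    (e : S.Ex (S.N K) n φ) : T.Ex (T.N K) (n + k) (m φ) := by
  obtain ⟨ψ, a, b⟩ := e
  exact ⟨m ψ, h.mG n ψ a, fx (add_mem (h.mN K _ b) (h.md n K ψ a)) (by
    simp only [map_add]; match_scalars <;> decide)⟩

theorem Hom.cyc {k : ℕ} {m : V →ₗ[ZMod 2] W} (h : Hom S T k m) {K : Set Z} {n : ℕ} {φ : V}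
    (a : φ ∈ S.G n) (e : S.d φ ∈ S.N K) : T.d (m φ) ∈ T.N K :=
  fx (add_mem (h.mN K _ e) (h.md n K φ a)) (by match_scalars <;> decide)

/-- the twisted product along a map of degree one -/
def tw {m : V →ₗ[ZMod 2] W} (h : Hom S T 1 m) : Soft Z (V × W) where
  G n := (S.G n).prod (T.G n)
  d := (S.d ∘ₗ LinearMap.fst _ V W).prod
    (m ∘ₗ LinearMap.fst _ V W + T.d ∘ₗ LinearMap.snd _ V W)
  G0 φ h := Prod.ext (S.G0 _ h.1) (T.G0 _ h.2)
  dG n φ a := ⟨S.dG n _ a.1, add_mem (h.mG n _ a.1) (T.dG n _ a.2)⟩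
  N K := (S.N K).prod (T.N K)
  dN K φ a := ⟨S.dN K _ a.1, add_mem (h.mN K _ a.1) (T.dN K _ a.2)⟩
  dd n K φ a := ⟨S.dd n K _ a.1, fx (add_mem (h.md n K _ a.1) (T.dd n K _ a.2)) (by
    simp only [LinearMap.prod_apply, Function.prod, LinearMap.add_apply, LinearMap.comp_apply,
      LinearMap.fst_apply, LinearMap.snd_apply, map_add]; match_scalars <;> decide)⟩
  anti a φ b := ⟨S.anti a b.1, T.anti a b.2⟩
  glue a b := ⟨S.glue a.1 b.1, T.glue a.2 b.2⟩
  emp φ := ⟨S.emp _, T.emp _⟩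
  mv hK hL a b := by
    obtain ⟨x, x1, x2, x3⟩ := S.mv hK hL a.1 b.1
    obtain ⟨y, y1, y2, y3⟩ := T.mv hK hL a.2 b.2
    exact ⟨(x, y), ⟨x1, y1⟩, ⟨x2, y2⟩, ⟨x3, y3⟩⟩
  cont a := by
    obtain ⟨U, x1, x2⟩ := S.cont a.1
    obtain ⟨U', y1, y2⟩ := T.cont a.2
    exact ⟨U ∩ U', inter_mem x1 y1, S.anti inter_subset_left x2, T.anti inter_subset_right y2⟩

theorem tw_d {m : V →ₗ[ZMod 2] W} (h : Hom S T 1 m) (a : V) (b : W) :
    (tw h).d (a, b) = (S.d a, m a + T.d b) := rfl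

theorem Hom.sh {f : V →ₗ[ZMod 2] W} (h : Hom S T 0 f) : Hom S (T.shift 1) 1 f :=
  ⟨h.mG, h.mN, h.md⟩

theorem Hom.ac_iff {f : V →ₗ[ZMod 2] W} (h : Hom S T 0 f) (K : Set Z) :
    (tw h.sh).Ac ((tw h.sh).N K) ↔ QI S.toCx T.toCx (S.N K) (T.N K) f := by
  constructor
  · intro H
    refine ⟨fun n φ hφ hd ⟨ψ, a, b⟩ => ?_, fun n ψ hψ hd => ?_⟩
    · obtain ⟨x, c1, c2⟩ := H n (φ, ψ) ⟨hφ, a⟩ ⟨hd, b⟩
      exact ⟨x.1, c1.1, c2.1⟩
    · obtain ⟨x, c1, c2⟩ := H (n + 1) (0, ψ) ⟨zero_mem _, hψ⟩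
        ⟨by simp [tw_d], by simpa [tw_d, shift] using hd⟩
      have c3 : 0 + S.d x.1 ∈ S.N K := c2.1
      refine ⟨x.1, c1.1, by simpa using c3, x.2, c1.2, ?_⟩
      rw [add_assoc]; exact c2.2
  · rintro H n ⟨a, b⟩ hφ hd
    obtain ⟨α, c1, c2⟩ := H.inj n a hφ.1 hd.1 ⟨b, hφ.2, hd.2⟩
    have hb : b ∈ T.G n := hφ.2
    have hd2 : f a + T.d b ∈ T.N K := hd.2
    rcases n with _ | k
    · refine ⟨0, zero_mem _, ?_, ?_⟩
      · simpa [S.G0 α c1] using c2
      · simp [T.G0 b hb]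
    · obtain ⟨γ, e1, e2, β, e3, e4⟩ := H.surj k (b + f α) (add_mem hb (h.mG _ _ c1))
        (fx (add_mem (add_mem hd2 (h.mN K _ c2)) (h.md _ K _ c1)) (by
          simp only [map_add]; match_scalars <;> decide))
      refine ⟨(α + γ, β), ⟨add_mem c1 e1, e3⟩, ?_, ?_⟩
      · exact fx (add_mem c2 e2) (by
          simp only [tw_d, Prod.fst_add, map_add]; match_scalars <;> decide)
      · exact fx e4 (by
          simp only [tw_d, Prod.snd_add, map_add, shift]; match_scalars <;> decide)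

/-- bijective on cohomology at the points implies bijective on cohomology -/
theorem Hom.qi [T2Space Z] {f : V →ₗ[ZMod 2] W} (h : Hom S T 0 f) {K : Set Z} (hK : IsCompact K)
    (H : ∀ z ∈ K, QI S.toCx T.toCx (S.N {z}) (T.N {z}) f) :
    QI S.toCx T.toCx (S.N K) (T.N K) f :=
  (h.ac_iff K).1 ((tw h.sh).ac_of_pts hK fun z hz => (h.ac_iff _).2 (H z hz))

end Soft

end Pool.Agent.MP_696f7f_ag.H96.Cohom
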