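import Pool.Agent.MP_696f7f_ag.H96.TAS
import Pool.Agent.MP_696f7f_ag.H96.CohI

/-!
Tautness, the Vietoris-Begle theorem, contractible sets, and the cohomology functor.
-/

namespace Pool.Agent.MP_696f7f_ag.H96.Cohom

open Set Filter Topology

theorem BL.of_qi {Z V W : Type} [TopologicalSpace Z] [AddCommGroup V] [Module (ZMod 2) V]
    [AddCommGroup W] [Module (ZMod 2) W] {S : Soft Z V} {T : Soft Z W} {f : V →ₗ[ZMod 2] W}
    (h : Soft.Hom S T 0 f) {K : Set Z} (q : QI S.toCx T.toCx (S.N K) (T.N K) f) {u : ℕ → V}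
    {r : ℕ} (hm : ∀ n, u n ∈ S.G (n + 1)) (hc : ∀ n, S.d (u n) ∈ S.N K)
    (b : BL T.toCx (T.N K) (fun n => f (u n)) r) : BL S.toCx (S.N K) u r where
  mem := hm
  cyc := hc
  ne n hn e := b.ne n hn (h.ex e)
  gen n φ hφ hd := (b.gen n (f φ) (h.mG _ _ hφ) (h.cyc hφ hd)).imp (q.inj n φ hφ hd)
    fun ⟨hn, e⟩ => ⟨hn, q.inj n _ (add_mem hφ (hm n))
      (by rw [map_add]; exact add_mem hd (hc n)) (by rwa [map_add])⟩

variable {X Y : Type} [TopologicalSpace X] [TopologicalSpace Y] {A K P : Set X} {B L : Set Y}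

theorem bl1_qi {f : X → Y} (hf : ContinuousOn f A) (hm : MapsTo f A B) (hK : K ⊆ A)
    (hL : MapsTo f K L) (h : BL1 B L) (h' : BL1 A K) :
    QI (asC Y) (asC X) (NA B L) (NA A K) (pull f) :=
  QI.of_bl h h' (fun _ _ => pull_ex hf hm hK hL) fun n hn => by
    obtain rfl : n = 0 := by omega
    exact .of_mem (by rw [u0, u0, pull_one, ZModModule.add_self]; exact zero_mem _)

section
variable [T2Space X] [T2Space Y]

theorem taut_hom (h : P ⊆ A) : Soft.Hom (AS A) (AS P) 0 (pull id) where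
  mG _ _ a := pull_G _ a
  mN _ _ a := by rw [pull_id]; exact NA_mono h subset_rfl a
  md _ _ _ _ := by
    rw [pull_id, pull_id]; exact fx (zero_mem _) (by
      simp only [AS]; match_scalars; decide)

theorem taut' (hP : IsCompact P) (h : P ⊆ A) :
    QI (asC X) (asC X) (NA A P) (NA P P) (pull id) :=
  (taut_hom h).qi hP fun _ hz => bl1_qi continuousOn_id h (singleton_subset_iff.2 hz)
    (mapsTo_id _) (bl1_pt (h hz)) (bl1_pt hz)

theorem taut_inj (hP : IsCompact P) (h : P ⊆ A) {n : ℕ} {φ : Co X} (a : φ ∈ GA X (n + 1))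
    (b : dA φ ∈ NA A P) (c : (asC X).Ex (NA P P) n φ) : (asC X).Ex (NA A P) n φ :=
  (taut' hP h).inj n φ a b (by rwa [pull_id])

theorem taut_surj (hP : IsCompact P) (h : P ⊆ A) {n : ℕ} {φ : Co X} (a : φ ∈ GA X (n + 1))
    (b : dA φ ∈ NA P P) :
    ∃ ψ ∈ GA X (n + 1), dA ψ ∈ NA A P ∧ (asC X).Ex (NA P P) n (φ + ψ) := by
  obtain ⟨ψ, c, e, e'⟩ := (taut' hP h).surj n φ a b
  exact ⟨ψ, c, e, by rwa [pull_id] at e'⟩

theorem BL.taut (hP : IsCompact P) (h : P ⊆ A) {u : ℕ → Co X} {r : ℕ}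
    (b : BL (asC X) (NA P P) u r) (hc : ∀ n, dA (u n) ∈ NA A P) : BL (asC X) (NA A P) u r :=
  BL.of_qi (taut_hom h) (taut' hP h) b.mem hc (by simp only [pull_id]; exact b)

theorem BL1.taut (hP : IsCompact P) (h : P ⊆ A) (b : BL1 P P) : BL1 A P :=
  BL.taut hP h b fun n => by
    rcases n with _ | n
    · rw [u0, dA_one]; exact zero_mem _
    · simp [u0]

theorem pull_hom {p : X → Y} (hA : IsCompact A) (hp : ContinuousOn p A) (hm : MapsTo p A B) :
    Soft.Hom (AS B) ((AS A).push hA hp) 0 (pull p) where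
  mG _ _ a := pull_G _ a
  mN _ _ a := pull_NA hp hm inter_subset_left (fun _ h => h.2) a
  md _ _ φ _ := by
    change pull p (dA φ) + dA (pull p φ) ∈ _
    rw [dA_pull, ZModModule.add_self]; exact zero_mem _

omit [T2Space Y] in
theorem fib_cpt {p : X → Y} (hA : IsCompact A) (hp : ContinuousOn p A) (hL : IsClosed L) :
    IsCompact (A ∩ p ⁻¹' L) :=
  hA.of_isClosed_subset (hp.preimage_isClosed_of_isClosed hA.isClosed hL) inter_subset_left

/-- the Vietoris-Begle theorem -/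
theorem vb {p : X → Y} (hA : IsCompact A) (hB : IsCompact B) (hp : ContinuousOn p A)
    (hm : MapsTo p A B) (h : ∀ z ∈ B, BL1 (A ∩ p ⁻¹' {z}) (A ∩ p ⁻¹' {z})) :
    QI (asC Y) (asC X) (NA B B) (NA A A) (pull p) := by
  have := (pull_hom hA hp hm).qi hB fun z hz => bl1_qi hp hm inter_subset_left
    (fun _ h => h.2) (bl1_pt hz) ((h z hz).taut (fib_cpt hA hp isClosed_singleton)
      inter_subset_left)
  change QI _ _ _ (NA A (A ∩ p ⁻¹' B)) _ at this
  rwa [inter_eq_left.2 (show A ⊆ p ⁻¹' B from hm)] at this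

theorem bl1_arc {p : X → ℝ} (hA : IsCompact A) (hc : IsPreconnected A) {x : X} (hx : x ∈ A)
    (hp : ContinuousOn p A) (hi : InjOn p A) : BL1 A A := by
  refine bl1_mk hx subset_rfl (fun φ _ hd y hy => ?_) fun n hn φ hφ hd => ?_
  · refine hc.induction₂' (fun a b => φ [a] = φ [b]) (fun z hz => ?_)
      (fun _ _ _ _ _ _ => Eq.trans) hy hx
    obtain ⟨U, a, b⟩ := hd z hz
    filter_upwards [a] with w hw
    have := b [z, w] (by simpa using ⟨mem_of_mem_nhdsWithin hz a, hw⟩)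
    rw [dA_two, CharTwo.add_eq_zero] at this
    exact ⟨this.symm, this⟩
  · have hb := (hA.image_of_continuousOn hp).isBounded.subset_Icc_sInf_sSup
    have key : ∀ z, A ∩ p ⁻¹' {z} = ∅ ∨ BL1 A (A ∩ p ⁻¹' {z}) := fun z => by
      refine (eq_empty_or_nonempty _).imp_right fun ⟨w, hw⟩ => ?_
      rw [eq_singleton_iff_unique_mem.2 ⟨hw, fun v hv => hi hv.1 hw.1 (hv.2.trans hw.2.symm)⟩]
      exact bl1_pt hw.1
    refine (((AS A).push hA hp).ex_Icc (fun z _ => ?_) fun z _ => ?_).mono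
      (NA_mono subset_rfl fun x hx => ⟨hx, hb ⟨x, hx, rfl⟩⟩)
    · change (asC X).Ex (NA A _) n φ
      rcases key z with e | e
      · rw [e]; exact .of_mem ((AS A).emp _)
      · exact e.van n hn φ hφ (NA_mono subset_rfl inter_subset_left hd)
    · obtain ⟨m, rfl⟩ : ∃ m, n = m + 1 := ⟨n - 1, by omega⟩
      intro χ c1 c2
      change ∃ a ∈ GA X _, dA a ∈ NA A _ ∧ χ + a ∈ NA A _
      rcases key z with e | e
      · exact ⟨0, zero_mem _, by simp, by rw [e]; exact (AS A).emp _⟩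
      rcases e.gen m χ c1 c2 with ⟨ω, a, b⟩ | ⟨hm, e'⟩
      · exact ⟨dA ω, (asC X).dG _ _ a, by simp [dA_dA], b⟩
      · obtain rfl : m = 0 := by omega
        exact ⟨one, one_G, by simp [dA_one], e'.zero⟩

/-- a contractible compact set has the cohomology of a point -/
theorem bl1_contr (hA : IsCompact A) {x0 : X} (hx : x0 ∈ A) {h : X × ℝ → X}
    (hc : ContinuousOn h (A ×ˢ Icc 0 1)) (hm : MapsTo h (A ×ˢ Icc 0 1) A)
    (h0 : ∀ x ∈ A, h (x, 0) = x) (h1 : ∀ x ∈ A, h (x, 1) = x0) : BL1 A A := by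
  have q := vb (hA.prod (isCompact_Icc (a := (0 : ℝ)) (b := 1))) hA continuousOn_fst
    (fun _ h => h.1) fun z hz => by
      have e : (A ×ˢ Icc (0 : ℝ) 1) ∩ Prod.fst ⁻¹' {z} = {z} ×ˢ Icc 0 1 := by
        ext ⟨a, b⟩; simp only [mem_inter_iff, mem_prod, mem_preimage, mem_singleton_iff]
        exact ⟨fun h => ⟨h.2, h.1.2⟩, fun h => ⟨⟨h.1 ▸ hz, h.2⟩, h.1⟩⟩
      rw [e]
      exact bl1_arc (x := (z, 0)) (isCompact_singleton.prod isCompact_Icc)
        (isPreconnected_singleton.prod isPreconnected_Icc) (by simp) continuousOn_snd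
        fun a ha b hb e => Prod.ext (ha.1.trans hb.1.symm) e
  have key : ∀ n, ∀ φ ∈ GA X (n + 1), dA φ ∈ NA A A →
      (asC X).Ex (NA A A) n (φ + pull (fun _ => x0) φ) := by
    intro n φ hφ hd
    obtain ⟨γ, -, -, e⟩ := q.surj n (pull h φ) (pull_G _ hφ) (pull_cyc hc hm subset_rfl hm hd)
    have i : ∀ s ∈ Icc (0 : ℝ) 1, (asC X).Ex (NA A A) n (pull (fun x => h (x, s)) φ + γ) :=
      fun s hs => by
        have hm' : MapsTo (fun x : X => (x, s)) A (A ×ˢ Icc 0 1) := fun x hx => ⟨hx, hs⟩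
        have := pull_ex (by fun_prop) hm' subset_rfl hm' e
        rwa [map_add, pull_pull, pull_pull, show Prod.fst ∘ (fun x : X => (x, s)) = id from rfl,
          pull_id] at this
    have j0 := pull_congr (K := A) (g := id) h0 φ
    rw [pull_id] at j0
    exact ((((i 0 (by simp)).add (i 1 (by simp))).add (.of_mem j0)).add
      (.of_mem (pull_congr h1 φ))).fx (by match_scalars <;> decide)
  refine bl1_mk hx subset_rfl (fun φ hφ hd y hy => ?_) fun n hn φ hφ hd => ?_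
  · simpa [CharTwo.add_eq_zero] using NA_val (key 0 φ hφ hd).zero hy hy
  · exact ((key n φ hφ hd).add (pull_ex (f := fun _ => x0) (L := {x0}) continuousOn_const
      (fun _ _ => hx) subset_rfl (fun _ _ => rfl) ((bl1_pt hx).van n hn φ hφ
        (NA_mono subset_rfl (singleton_subset_iff.2 hx) hd)))).fx (by match_scalars <;> decide)

omit [T2Space X] in
theorem cont_inv (hA : IsCompact A) {f : X → Y} (hf : ContinuousOn f A) {g : Y → X}
    (hg : ∀ x ∈ A, g (f x) = x) : ContinuousOn g (f '' A) := by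
  refine continuousOn_iff_isClosed.2 fun T hT => ⟨f '' (A ∩ T),
    ((hA.inter_right hT).image_of_continuousOn (hf.mono inter_subset_left)).isClosed, ?_⟩
  ext y
  constructor
  · rintro ⟨a, x, hx, rfl⟩
    exact ⟨⟨x, ⟨hx, by simpa [hg x hx] using a⟩, rfl⟩, x, hx, rfl⟩
  · rintro ⟨⟨x, hx, rfl⟩, b⟩
    exact ⟨by simpa [hg x hx.1] using hx.2, b⟩

end

/-- the cohomology groups -/
abbrev HH (a : ℕ) (A : Set X) : Type :=
  (asC X).Zs (NA A A) (a + 1) ⧸
    ((asC X).Bs (NA A A) a).submoduleOf ((asC X).Zs (NA A A) (a + 1))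

/-- the class of a cocycle -/
def cls {a : ℕ} (φ : Co X) (h : φ ∈ GA X (a + 1)) (h' : dA φ ∈ NA A A) : HH a A :=
  Submodule.Quotient.mk ⟨φ, h, h'⟩

theorem cls_surj {a : ℕ} (u : HH a A) : ∃ φ h h', u = cls φ h h' := by
  obtain ⟨⟨φ, h, h'⟩, rfl⟩ := Submodule.Quotient.mk_surjective _ u
  exact ⟨φ, h, h', rfl⟩

theorem cls_eq {a : ℕ} {φ ψ : Co X} {h1 : φ ∈ GA X (a + 1)} {h2 : dA φ ∈ NA A A}
    {h3 : ψ ∈ GA X (a + 1)} {h4 : dA ψ ∈ NA A A} :
    cls φ h1 h2 = cls ψ h3 h4 ↔ (asC X).Ex (NA A A) a (φ + ψ) := by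
  rw [cls, cls, Submodule.Quotient.eq, ← ZModModule.sub_eq_add]; exact Cx.mem_Bs

theorem cls_eq_zero {a : ℕ} {φ : Co X} {h1 : φ ∈ GA X (a + 1)} {h2 : dA φ ∈ NA A A} :
    cls φ h1 h2 = 0 ↔ (asC X).Ex (NA A A) a φ :=
  (Submodule.Quotient.mk_eq_zero _).trans Cx.mem_Bs

theorem cls_add {a : ℕ} {φ ψ : Co X} {h1 : φ ∈ GA X (a + 1)} {h2 : dA φ ∈ NA A A}
    {h3 : ψ ∈ GA X (a + 1)} {h4 : dA ψ ∈ NA A A} : cls φ h1 h2 + cls ψ h3 h4 =
      cls (φ + ψ) (add_mem h1 h3) (by rw [map_add]; exact add_mem h2 h4) := rfl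

/-- the map induced on cohomology -/
def ind {a b : ℕ} (g : Co Y →ₗ[ZMod 2] Co X)
    (h1 : ∀ φ ∈ GA Y (b + 1), dA φ ∈ NA B B → g φ ∈ GA X (a + 1) ∧ dA (g φ) ∈ NA A A)
    (h2 : ∀ φ, (asC Y).Ex (NA B B) b φ → (asC X).Ex (NA A A) a (g φ)) :
    HH b B →ₗ[ZMod 2] HH a A :=
  Submodule.mapQ _ _ (g.restrict fun φ h => h1 φ h.1 h.2)
    fun φ h => Cx.mem_Bs.2 (h2 φ.1 (Cx.mem_Bs.1 h))

theorem ind_cls {a b : ℕ} (g : Co Y →ₗ[ZMod 2] Co X)
    (h1 : ∀ φ ∈ GA Y (b + 1), dA φ ∈ NA B B → g φ ∈ GA X (a + 1) ∧ dA (g φ) ∈ NA A A)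
    (h2 : ∀ φ, (asC Y).Ex (NA B B) b φ → (asC X).Ex (NA A A) a (g φ)) {φ : Co Y}
    (e : φ ∈ GA Y (b + 1)) (e' : dA φ ∈ NA B B) :
    ind g h1 h2 (cls φ e e') = cls (g φ) (h1 φ e e').1 (h1 φ e e').2 := rfl

/-- the cohomology functor -/
def coh : CohF where
  H a _ _ A := ModuleCat.of (ZMod 2) (HH a A)
  res _ _ _ _ _ _ _ f hf hm := ind (pull f)
    (fun _ a b => ⟨pull_G f a, pull_cyc hf hm subset_rfl hm b⟩)
    fun _ => pull_ex hf hm subset_rfl hm
  res_id _ _ _ _ f _ _ e u := by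
    obtain ⟨φ, a, b, rfl⟩ := cls_surj u
    rw [ind_cls]
    exact cls_eq.2 (.of_mem (by simpa only [pull_id] using pull_congr (g := id) e φ))
  res_comp _ _ _ _ _ _ _ _ _ _ f g k _ _ _ _ _ _ e u := by
    obtain ⟨φ, a, b, rfl⟩ := cls_surj u
    rw [ind_cls, ind_cls, ind_cls]
    exact cls_eq.2 (.of_mem (by rw [pull_pull]; exact pull_congr e φ))

theorem res_cls {a : ℕ} {f : X → Y} (hf : ContinuousOn f A) (hm : MapsTo f A B) {φ : Co Y}
    (h1 : φ ∈ GA Y (a + 1)) (h2 : dA φ ∈ NA B B) : coh.res a f hf hm (cls φ h1 h2) =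
      cls (pull f φ) (pull_G f h1) (pull_cyc hf hm subset_rfl hm h2) := rfl

theorem rs_cls {a : ℕ} (h : P ⊆ A) {φ : Co X} (h1 : φ ∈ GA X (a + 1)) (h2 : dA φ ∈ NA A A) :
    coh.rs a h (cls φ h1 h2) = cls φ h1 (NA_mono h h h2) :=
  (res_cls _ _ h1 h2).trans
    (cls_eq.2 (.of_mem (by rw [pull_id, ZModModule.add_self]; exact zero_mem _)))

theorem sub_of_van {k a : ℕ} (h : (asC X).Van (NA A A) k) (ha : k ≤ a) :
    Subsingleton (HH a A) := subsingleton_of_forall_eq 0 fun u => by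
  obtain ⟨φ, a, b, rfl⟩ := cls_surj u
  exact cls_eq_zero.2 (h _ ha φ a b)

theorem coh_split [T2Space X] (a : ℕ) (hA : IsCompact A) (hP : IsCompact P) (h : Disjoint A P)
    (u : coh.H a X A) (v : coh.H a X P) : ∃! w : coh.H a X (A ∪ P),
      coh.rs a subset_union_left w = u ∧ coh.rs a subset_union_right w = v := by
  have he : A ∩ P = ∅ := h.inter_eq
  refine existsUnique_of_exists_of_unique ?_ fun w w' e e' => ?_
  · obtain ⟨φ, a1, a2, rfl⟩ := cls_surj u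
    obtain ⟨ψ, b1, b2, rfl⟩ := cls_surj v
    obtain ⟨φ', a3, a4, a5⟩ := taut_surj hA (subset_union_left (t := P)) a1 a2
    obtain ⟨ψ', b3, b4, b5⟩ := taut_surj hP (subset_union_right (s := A)) b1 b2
    obtain ⟨ν, c1, c2, c3⟩ := (AS (A ∪ P)).mv hA hP (add_mem a3 b3)
      (by rw [he]; exact (AS _).emp _)
    refine ⟨cls (φ' + ν) (add_mem a3 c1) ((AS (A ∪ P)).glue ?_ ?_), ?_, ?_⟩
    · rw [map_add]; exact add_mem a4 (dA_NA c2)
    · exact fx (add_mem b4 (dA_NA c3)) (by simp only [map_add]; match_scalars <;> decide)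
    · rw [rs_cls]
      exact cls_eq.2 ((a5.add (.of_mem (NA_mono subset_union_left subset_rfl c2))).fx (by
        match_scalars <;> decide))
    · rw [rs_cls]
      exact cls_eq.2 ((b5.add (.of_mem (NA_mono subset_union_right subset_rfl c3))).fx (by
        match_scalars <;> decide))
  · obtain ⟨φ, a1, a2, rfl⟩ := cls_surj w
    obtain ⟨ψ, b1, b2, rfl⟩ := cls_surj w'
    have e1 := e.1.trans e'.1.symm
    have e2 := e.2.trans e'.2.symm
    rw [rs_cls, rs_cls] at e1 e2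
    have hd : dA (φ + ψ) ∈ NA (A ∪ P) (A ∪ P) := by rw [map_add]; exact add_mem a2 b2
    exact cls_eq.2 ((AS (A ∪ P)).ex_union hA hP
      (taut_inj hA subset_union_left (add_mem a1 b1) (NA_mono subset_rfl subset_union_left hd)
        (cls_eq.1 e1))
      (taut_inj hP subset_union_right (add_mem a1 b1) (NA_mono subset_rfl subset_union_right hd)
        (cls_eq.1 e2)) (by rw [he]; exact (AS _).onto_empty _ _))

theorem coh_pt0 (x : X) : coh.bt 0 ({x} : Set X) = 1 := by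
  have b := bl1_pt (A := {x}) (x := x) rfl
  have : Module.finrank (ZMod 2) (HH 0 ({x} : Set X)) = 1 := by
    refine finrank_eq_one (cls one one_G (b.cyc 0)) (fun e => b.ne 0 one_pos (cls_eq_zero.1 e))
      fun u => ?_
    obtain ⟨φ, a1, a2, rfl⟩ := cls_surj u
    rcases b.gen 0 φ a1 a2 with e | ⟨_, e⟩
    · exact ⟨0, by rw [zero_smul, cls_eq_zero.2 e]⟩
    · exact ⟨1, by rw [one_smul]; exact (cls_eq.2 e).symm⟩
  exact congrArg Nat.cast this

theorem exists_cpt [T2Space X] (hA : IsCompact A) {x : X} {U : Set X}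
    (hU : U ∈ 𝓝[A] x) : ∃ W, IsCompact W ∧ W ⊆ A ∩ U ∧ W ∈ 𝓝[A] x := by
  obtain ⟨W, a, b, c, e⟩ := interp hA isCompact_singleton (L := U) (K := {x}) (by simpa)
  exact ⟨W, a, fun y hy => ⟨b hy, mem_of_mem_nhdsWithin (b hy) (e y hy)⟩, c x rfl⟩

theorem coh_vanish [T2Space X] {n : ℕ} (hA : IsCompact A) (h : LocEuc A n) :
    (asC X).Van (NA A A) (n + 1 + 1) := by
  refine (AS A).loc_vanish hA _ fun x hx => ?_
  obtain ⟨ι, _, φ, U, a1, a2, a3, a4, -⟩ := h x hx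
  refine ⟨U, a2, fun K hK b c m hm => (AS A).dim_vanish (fun i y => φ y i) Finset.univ 1 K hK
    (fun i _ => continuousOn_pi.1 (a3.mono (subset_inter b c)) i)
    (fun y hy z hz e => a4 ⟨b hy, c hy⟩ ⟨b hz, c hz⟩ (funext fun i => e i (by simp)))
    (fun z hz => (bl1_pt (b hz)).van) m (by rw [Finset.card_univ]; omega)⟩

theorem coh_fin [T2Space X] {n : ℕ} (hA : IsCompact A) (h : LocEuc A n) (a : ℕ) :
    Module.Finite (ZMod 2) (HH a A) := by
  have : Finite (HH a A) := by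
    refine Nat.finite_of_card_ne_zero ((AS A).wilder hA (fun x hx L hL => ?_) a)
    obtain ⟨ι, _, φ, U, -, a2, a3, a4, a5⟩ := h x hx
    obtain ⟨W, b1, b2, b3⟩ := exists_cpt hA (inter_mem (mem_nhdsWithin_of_mem_nhds a2) hL)
    have hW : W ⊆ A ∩ U := fun y hy => ⟨(b2 hy).1, (b2 hy).2.1⟩
    obtain ⟨ε, e1, e2⟩ := Metric.nhds_basis_closedBall.mem_iff.1 (a5 (image_mem_map b3))
    have hxW := mem_of_mem_nhdsWithin hx b3
    have : Nonempty X := ⟨x⟩
    have hg := (a4.mono hW).leftInvOn_invFunOn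
    have hK := fib_cpt b1 (a3.mono hW) (Metric.isClosed_closedBall (x := φ x) (ε := ε))
    have hm : ∀ p ∈ (W ∩ φ ⁻¹' Metric.closedBall (φ x) ε) ×ˢ Icc (0 : ℝ) 1,
        (1 - p.2) • φ p.1 + p.2 • φ x ∈ Metric.closedBall (φ x) ε := fun p hp =>
      convex_closedBall (φ x) ε hp.1.2 (Metric.mem_closedBall_self e1.le) (sub_nonneg.2 hp.2.2)
        hp.2.1 (by ring)
    refine ⟨_, hK, fun y hy => (b2 hy.1).1, fun y hy => (b2 hy.1).2.2, inter_mem b3
      (((a3 x (hW hxW)).mono_of_mem_nhdsWithin (inter_mem self_mem_nhdsWithin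
        (mem_nhdsWithin_of_mem_nhds a2))) (Metric.closedBall_mem_nhds _ e1)),
      (BL1.taut hK (fun y hy => (b2 hy.1).1) (bl1_contr hK
        ⟨hxW, Metric.mem_closedBall_self e1.le⟩
        (h := fun p => Function.invFunOn φ W ((1 - p.2) • φ p.1 + p.2 • φ x))
        ((cont_inv b1 (a3.mono hW) hg).comp ?_ fun p hp => e2 (hm p hp)) (fun p hp => ?_)
        (fun y hy => by simpa using hg hy.1) fun y _ => by simpa using hg hxW)).fi⟩
    · have : ContinuousOn (fun p : X × ℝ => φ p.1)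
          ((W ∩ φ ⁻¹' Metric.closedBall (φ x) ε) ×ˢ Icc (0 : ℝ) 1) :=
        a3.comp continuousOn_fst fun p hp => hW hp.1.1
      exact ((continuousOn_const.sub continuousOn_snd).smul this).add
        (continuousOn_snd.smul continuousOn_const)
    · exact ⟨Function.invFunOn_mem (e2 (hm p hp)), by
        rw [mem_preimage, Function.invFunOn_eq (e2 (hm p hp))]; exact hm p hp⟩
  exact Module.Finite.of_finite

end Pool.Agent.MP_696f7f_ag.H96.Cohom
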