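import Pool.Agent.MP_696f7f_ag.H96.TVB

/-!
The sign cocycle of a family of lines.
-/

namespace Pool.Agent.MP_696f7f_ag.H96.Cohom

open Set Filter Topology

variable {m : ℕ}

theorem unit_iff {l : Fin m → ℝ} : IsUnitVec l ↔ l ⬝ᵥ l = 1 := by
  simp [IsUnitVec, dotProduct, sq]

theorem dot_cs (u w : Fin m → ℝ) : (u ⬝ᵥ w) ^ 2 ≤ (u ⬝ᵥ u) * (w ⬝ᵥ w) := by
  simpa [dotProduct, sq] using Finset.sum_mul_sq_le_sq_mul_sq Finset.univ u w

theorem sign_mul {a b c : Fin m → ℝ} (ha : IsUnitVec a) (hb : IsUnitVec b) (hc : IsUnitVec c)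
    (h1 : 3 / 4 < (a ⬝ᵥ c) ^ 2) (h2 : 3 / 4 < (b ⬝ᵥ c) ^ 2) :
    0 < a ⬝ᵥ b * (a ⬝ᵥ c * b ⬝ᵥ c) := by
  rw [unit_iff] at ha hb hc
  have := dot_cs (a - (a ⬝ᵥ c) • c) (b - (b ⬝ᵥ c) • c)
  have ca := dot_cs a c
  rw [ha, hc] at ca
  simp only [sub_dotProduct, dotProduct_sub, smul_dotProduct, dotProduct_smul, smul_eq_mul, ha, hb,
    hc, dotProduct_comm c a, dotProduct_comm c b] at this
  generalize a ⬝ᵥ c = x at *
  generalize b ⬝ᵥ c = y at *
  generalize a ⬝ᵥ b = z at *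
  have h3 : (z - x * y) ^ 2 ≤ (1 - x ^ 2) * (1 - y ^ 2) := by nlinarith
  have h4 : (z - x * y) ^ 2 ≤ 1 / 16 := by
    by_cases h' : 0 ≤ 1 - y ^ 2 <;> nlinarith
  have h5 : 9 / 16 < (x * y) ^ 2 := by nlinarith
  nlinarith [sq_nonneg z]

theorem sgn_add {x y z : ℝ} (h : 0 < z * (x * y)) : (if z < 0 then 1 else 0 : ZMod 2) =
    (if x < 0 then 1 else 0) + if y < 0 then 1 else 0 := by
  split_ifs with a b c c b c c <;> first | rfl | exfalso
  · nlinarith [mul_pos_of_neg_of_neg b c]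
  · nlinarith [mul_nonneg (not_lt.1 b) (not_lt.1 c)]
  · nlinarith [mul_nonneg (not_lt.1 a) (mul_nonneg (neg_nonneg.2 b.le) (not_lt.1 c))]
  · nlinarith [mul_nonneg (not_lt.1 a) (mul_nonneg (not_lt.1 b) (neg_nonneg.2 c.le))]

/-- the bilinear form of a matrix -/
def bil (M : Fin m → Fin m → ℝ) (c v : Fin m → ℝ) : ℝ := ∑ i, ∑ j, M i j * (c i * v j)

theorem bil_pj (l c v : Fin m → ℝ) : bil (pj l) c v = l ⬝ᵥ c * l ⬝ᵥ v := by
  simp only [bil, pj, dotProduct, Finset.sum_mul_sum]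
  exact Finset.sum_congr rfl fun i _ => Finset.sum_congr rfl fun j _ => by ring

theorem cont_bil (c v : Fin m → ℝ) : Continuous fun M => bil M c v := by
  unfold bil; fun_prop

theorem pj_neg (l : Fin m → ℝ) : pj (-l) = pj l := by funext i j; simp [pj]

theorem cont_pj : Continuous (pj (m := m)) := by unfold pj; fun_prop

theorem pj_inj {a b : Fin m → ℝ} (hb : IsUnitVec b) (h : pj a = pj b) : a = b ∨ a = -b := by
  rw [unit_iff] at hb
  have h1 : a ⬝ᵥ b * a ⬝ᵥ b = 1 := by rw [← bil_pj, h, bil_pj, hb, one_mul]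
  have h2 : ∀ i, a i * a ⬝ᵥ b = b i := fun i => by
    have : ∀ j, a i * a j = b i * b j := fun j => congrFun (congrFun h i) j
    calc a i * a ⬝ᵥ b = b i * b ⬝ᵥ b := by
          simp only [dotProduct, Finset.mul_sum, ← mul_assoc, this]
      _ = b i := by rw [hb, mul_one]
  refine (mul_self_eq_one_iff.1 h1).imp (fun e => funext fun i => ?_) fun e => funext fun i => ?_
  · rw [← h2, e, mul_one]
  · rw [Pi.neg_apply, ← h2, e]; ring

theorem ne_neg_of_unit {c : Fin m → ℝ} (h : IsUnitVec c) : c ≠ -c := fun e => by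
  rw [unit_iff] at h
  have : c ⬝ᵥ c = -(c ⬝ᵥ c) := by rw [← dotProduct_neg, ← e]
  linarith

theorem unit_normalize {w : Fin m → ℝ} (h : w ≠ 0) : IsUnitVec ((√(w ⬝ᵥ w))⁻¹ • w) := by
  have : 0 < w ⬝ᵥ w := lt_of_le_of_ne (Finset.sum_nonneg fun i _ => mul_self_nonneg _)
    (fun e => h (dotProduct_self_eq_zero.1 e.symm))
  rw [unit_iff, smul_dotProduct, dotProduct_smul, smul_eq_mul, smul_eq_mul, ← mul_assoc,
    ← mul_inv, Real.mul_self_sqrt this.le, inv_mul_cancel₀ this.ne']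

variable {X : Type}

open Classical in
/-- the sign cocycle -/
noncomputable def xi (lam : X → Fin m → ℝ) (x y : X) : ZMod 2 := if lam x ⬝ᵥ lam y < 0 then 1 else 0

open Classical in
/-- the local primitive of the sign cocycle -/
noncomputable def sg (lam : X → Fin m → ℝ) (c : Fin m → ℝ) (x : X) : ZMod 2 :=
  if lam x ⬝ᵥ c < 0 then 1 else 0

open Classical in
/-- the difference of two choices of unit vectors -/
noncomputable def eta (lam lam' : X → Fin m → ℝ) (x : X) : ZMod 2 := if lam x = lam' x then 0 else 1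

variable [TopologicalSpace X] {A K : Set X} {e : X → Fin m → Fin m → ℝ} {lam lam' : X → Fin m → ℝ}

/-- a choice of unit vectors in a continuous family of lines -/
structure Lam (A : Set X) (e : X → Fin m → Fin m → ℝ) (lam : X → Fin m → ℝ) : Prop where
  cont : ContinuousOn e A
  unit : ∀ y ∈ A, IsUnitVec (lam y)
  eq : ∀ y ∈ A, e y = pj (lam y)

theorem Lam.mono (h : Lam A e lam) (hK : K ⊆ A) : Lam K e lam :=
  ⟨h.cont.mono hK, fun y hy => h.unit y (hK hy), fun y hy => h.eq y (hK hy)⟩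

theorem Lam.loc (h : Lam A e lam) {y : X} (hy : y ∈ A) {c : Fin m → ℝ} (hc : IsUnitVec c)
    (he : e y = pj c) : ∃ U ∈ 𝓝[A] y, (∀ x ∈ U, x ∈ A ∧ lam x ⬝ᵥ c ≠ 0) ∧
      ∀ x ∈ U, ∀ x' ∈ U, xi lam x x' = sg lam c x + sg lam c x' := by
  have h1 : ∀ᶠ x in 𝓝[A] y, 3 / 4 < bil (e x) c c :=
    ((cont_bil c c).continuousAt.comp_continuousWithinAt (h.cont y hy)).eventually
      (lt_mem_nhds (by simp [he, bil_pj, unit_iff.1 hc]; norm_num))
  have h2 : ∀ x ∈ A, 3 / 4 < bil (e x) c c → 3 / 4 < (lam x ⬝ᵥ c) ^ 2 := fun x hx a => by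
    rwa [h.eq x hx, bil_pj, ← sq] at a
  refine ⟨_, inter_mem self_mem_nhdsWithin h1, fun x hx => ⟨hx.1, fun e => ?_⟩,
    fun x hx x' hx' => ?_⟩
  · have := h2 x hx.1 hx.2
    rw [e] at this; norm_num at this
  · exact sgn_add (sign_mul (h.unit x hx.1) (h.unit x' hx'.1) hc (h2 x hx.1 hx.2)
      (h2 x' hx'.1 hx'.2))

theorem Lam.md (h : Lam A e lam) (hK : K ⊆ A) {φ : Co X} (hφ : φ [] = 0) :
    m1 (xi lam) (dA φ) + dA (m1 (xi lam) φ) ∈ NA A K := fun y hy =>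
  let ⟨U, a, _, b⟩ := h.loc (hK hy) (h.unit y (hK hy)) (h.eq y (hK hy))
  ⟨U, a, dA_m1 b hφ⟩

theorem Lam.pm (h : Lam A e lam) (h' : Lam A e lam') {x : X} (hx : x ∈ A) :
    lam x = lam' x ∨ lam x = -lam' x :=
  pj_inj (h'.unit x hx) ((h.eq x hx).symm.trans (h'.eq x hx))

theorem Lam.chg (h : Lam A e lam) (h' : Lam A e lam') (hK : K ⊆ A) (φ : Co X) :
    m1 (xi lam) φ + m1 (xi lam') φ + m1 (fun x y => eta lam lam' x + eta lam lam' y) φ ∈
      NA A K := fun y hy => by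
  obtain ⟨U, a1, a2, a3⟩ := h.loc (hK hy) (h.unit y (hK hy)) (h.eq y (hK hy))
  obtain ⟨U', b1, -, b3⟩ := h'.loc (hK hy) (h.unit y (hK hy)) (h.eq y (hK hy))
  have key : ∀ x ∈ U, eta lam lam' x = sg lam (lam y) x + sg lam' (lam y) x := fun x hx => by
    unfold eta sg
    split_ifs with c1 c2 c3 c3 c2 c3 c3 <;> first | rfl | exfalso
    · exact c3 (c1 ▸ c2)
    · exact c2 (c1 ▸ c3)
    · rw [(h.pm h' (a2 x hx).1).resolve_left c1, neg_dotProduct] at c2; linarith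
    · have := (a2 x hx).2
      rw [(h.pm h' (a2 x hx).1).resolve_left c1, neg_dotProduct] at c2 this
      exact this (by linarith)
  refine ⟨U ∩ U', inter_mem a1 b1, ?_⟩
  rw [← m1_add]
  exact m1_VU' φ fun x hx x' hx' => by
    rw [a3 x hx.1 x' hx'.1, b3 x hx.2 x' hx'.2, key x hx.1, key x' hx'.1]; ring

theorem Lam.triv (h : Lam A e lam) {y : X} (hy : y ∈ A)
    (h0 : ∀ᶠ x in 𝓝[A] y, 0 < lam x ⬝ᵥ lam y) (φ : Co X) :
    ∃ U ∈ 𝓝[A] y, m1 (xi lam) φ ∈ VU U := by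
  obtain ⟨U, a1, -, a3⟩ := h.loc hy (h.unit y hy) (h.eq y hy)
  refine ⟨_, inter_mem a1 h0, ?_⟩
  simpa [m1_zero] using m1_VU' (ξ' := fun _ _ => 0) φ fun x hx x' hx' => by
    rw [a3 x hx.1 x' hx'.1, sg, sg, if_neg (not_lt.2 hx.2.le), if_neg (not_lt.2 hx'.2.le),
      add_zero]

theorem Lam.triv' (h : Lam A e lam) {y : X} (hy : y ∈ A) (hc : ContinuousWithinAt lam A y)
    (φ : Co X) : ∃ U ∈ 𝓝[A] y, m1 (xi lam) φ ∈ VU U :=
  h.triv hy (((by fun_prop : Continuous fun l => l ⬝ᵥ lam y).continuousAt.comp_continuousWithinAt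
    hc).eventually (lt_mem_nhds (by simp [unit_iff.1 (h.unit y hy)]))) φ

/-- powers of the sign cocycle -/
noncomputable def pw (lam : X → Fin m → ℝ) : ℕ → Co X →ₗ[ZMod 2] Co X
  | 0 => LinearMap.id
  | n + 1 => m1 (xi lam) ∘ₗ pw lam n

omit [TopologicalSpace X] in
theorem pw_G (i : ℕ) {n : ℕ} {φ : Co X} (h : φ ∈ GA X n) : pw lam i φ ∈ GA X (n + i) := by
  induction i with
  | zero => exact h
  | succ i ih => exact m1_G _ ih

theorem pw_NA (i : ℕ) {φ : Co X} (h : φ ∈ NA A K) : pw lam i φ ∈ NA A K := by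
  induction i with
  | zero => exact h
  | succ i ih => exact m1_NA _ ih

theorem Lam.pw_md (h : Lam A e lam) (hK : K ⊆ A) (i : ℕ) {n : ℕ} {φ : Co X} (hφ : φ ∈ GA X n) :
    pw lam i (dA φ) + dA (pw lam i φ) ∈ NA A K := by
  induction i with
  | zero => exact fx (zero_mem _) (by simp only [pw, LinearMap.id_apply]; match_scalars; decide)
  | succ i ih => exact fx (add_mem (m1_NA (xi lam) ih) (h.md hK (pw_G i hφ).1)) (by
      simp only [pw, LinearMap.comp_apply, map_add]; match_scalars <;> decide)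

theorem Lam.pw_cyc (h : Lam A e lam) (hK : K ⊆ A) (i : ℕ) {n : ℕ} {φ : Co X} (hφ : φ ∈ GA X n)
    (hd : dA φ ∈ NA A K) : dA (pw lam i φ) ∈ NA A K :=
  fx (add_mem (pw_NA i hd) (h.pw_md hK i hφ)) (by match_scalars <;> decide)

theorem Lam.pw_ex (h : Lam A e lam) (hK : K ⊆ A) (i : ℕ) {n : ℕ} {φ : Co X}
    (hφ : (asC X).Ex (NA A K) n φ) : (asC X).Ex (NA A K) (n + i) (pw lam i φ) :=
  let ⟨ψ, a, b⟩ := hφ
  ⟨pw lam i ψ, pw_G i a, fx (add_mem (pw_NA i b) (h.pw_md hK i a)) (by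
    simp only [asC, map_add]; match_scalars <;> decide)⟩

omit [TopologicalSpace X] in
theorem pw_one_G (n : ℕ) : pw lam n one ∈ GA X (n + 1) := add_comm 1 n ▸ pw_G n one_G

theorem Lam.pw_one (h : Lam A e lam) (hK : K ⊆ A) (n : ℕ) : dA (pw lam n one) ∈ NA A K :=
  h.pw_cyc hK n one_G (by rw [dA_one]; exact zero_mem _)

theorem Lam.indep (h : Lam A e lam) (h' : Lam A e lam') (hK : K ⊆ A) (n : ℕ) :
    (asC X).Ex (NA A K) n (pw lam n one + pw lam' n one) := by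
  induction n with
  | zero => exact .of_mem (fx (zero_mem _) (by simp only [pw]; match_scalars; decide))
  | succ n ih =>
    have e1 : (asC X).Ex (NA A K) (n + 1)
        (m1 (xi lam) (pw lam' n one) + m1 (xi lam') (pw lam' n one)) :=
      ⟨m0 (eta lam lam') (pw lam' n one), m0_G _ (pw_one_G n),
        fx (add_mem (h.chg h' hK (pw lam' n one)) (m0_NA (eta lam lam') (h'.pw_one hK n))) (by
          simp only [asC, dA_m0 _ (pw_one_G n).1]; match_scalars <;> decide)⟩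
    exact ((h.pw_ex hK 1 ih).add e1).fx (by
      simp only [pw, LinearMap.comp_apply, LinearMap.id_apply, map_add]; match_scalars <;> decide)

end Pool.Agent.MP_696f7f_ag.H96.Cohom
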