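import Mathlib

/-!
Homology of a vector space with a differential: induced maps, two criteria for
quasi-isomorphisms, and the Euler characteristic.
-/

namespace Pool.Agent.MP_696f7f_ag.H96.W

open LinearMap Module

variable {K : Type} [Field K] {V V' V'' : Type} [AddCommGroup V] [Module K V]
  [AddCommGroup V'] [Module K V'] [AddCommGroup V''] [Module K V'']

/-- cycles modulo boundaries -/
abbrev Hm (d : V →ₗ[K] V) : Type := ↥(ker d) ⧸ (range d).comap (ker d).subtype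

/-- maps that preserve cycles and boundaries -/
def Adm (d : V →ₗ[K] V) (d' : V' →ₗ[K] V') (φ : V →ₗ[K] V') : Prop :=
  (∀ z, d z = 0 → d' (φ z) = 0) ∧ ∀ w, ∃ w', φ (d w) = d' w'

theorem adm_of_comm {d : V →ₗ[K] V} {d' : V' →ₗ[K] V'} {φ : V →ₗ[K] V'}
    (h : ∀ x, φ (d x) = d' (φ x)) : Adm d d' φ :=
  ⟨fun z hz => by rw [← h, hz, map_zero], fun w => ⟨φ w, h w⟩⟩

/-- the class of a cycle -/
def cl (d : V →ₗ[K] V) (z : V) (hz : d z = 0) : Hm d := Submodule.Quotient.mk ⟨z, hz⟩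

theorem cl_surj {d : V →ₗ[K] V} (u : Hm d) : ∃ z hz, u = cl d z hz := by
  obtain ⟨⟨z, hz⟩, rfl⟩ := Submodule.Quotient.mk_surjective _ u
  exact ⟨z, hz, rfl⟩

theorem cl_eq {d : V →ₗ[K] V} {z z' : V} {hz : d z = 0} {hz' : d z' = 0} :
    cl d z hz = cl d z' hz' ↔ ∃ w, d w = z - z' := by
  unfold cl
  rw [Submodule.Quotient.eq]
  rfl

theorem cl_eq_zero {d : V →ₗ[K] V} {z : V} {hz : d z = 0} : cl d z hz = 0 ↔ ∃ w, d w = z := by
  unfold cl
  rw [Submodule.Quotient.mk_eq_zero]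
  rfl

open Classical in
/-- the map induced on homology -/
noncomputable def hmap (d : V →ₗ[K] V) (d' : V' →ₗ[K] V') (φ : V →ₗ[K] V') : Hm d →ₗ[K] Hm d' :=
  if h : Adm d d' φ then
    Submodule.mapQ _ _ (φ.restrict (p := ker d) (q := ker d') fun z hz => h.1 z hz) (by
      rintro ⟨z, hz⟩ ⟨w, hw⟩
      obtain ⟨w', hw'⟩ := h.2 w
      exact ⟨w', by rw [← hw', hw]; rfl⟩)
  else 0

theorem hmap_cl {d : V →ₗ[K] V} {d' : V' →ₗ[K] V'} {φ : V →ₗ[K] V'} (h : Adm d d' φ) (z : V)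
    (hz : d z = 0) : hmap d d' φ (cl d z hz) = cl d' (φ z) (h.1 z hz) := by
  unfold hmap
  rw [dif_pos h]
  rfl

theorem hmap_sq {V1 V2 : Type} [AddCommGroup V1] [Module K V1] [AddCommGroup V2] [Module K V2]
    {d : V →ₗ[K] V} {d1 : V1 →ₗ[K] V1} {d2 : V2 →ₗ[K] V2} {d' : V' →ₗ[K] V'}
    {φ1 : V →ₗ[K] V1} {ψ1 : V1 →ₗ[K] V'} {φ2 : V →ₗ[K] V2} {ψ2 : V2 →ₗ[K] V'}
    (h1 : Adm d d1 φ1) (g1 : Adm d1 d' ψ1) (h2 : Adm d d2 φ2) (g2 : Adm d2 d' ψ2)
    (e : ∀ x, ψ1 (φ1 x) = ψ2 (φ2 x)) (u : Hm d) :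
    hmap d1 d' ψ1 (hmap d d1 φ1 u) = hmap d2 d' ψ2 (hmap d d2 φ2 u) := by
  obtain ⟨z, hz, rfl⟩ := cl_surj u
  rw [hmap_cl h1, hmap_cl g1, hmap_cl h2, hmap_cl g2]
  simp only [e]

theorem hmap_comp {d : V →ₗ[K] V} {d' : V' →ₗ[K] V'} {d'' : V'' →ₗ[K] V''} {φ : V →ₗ[K] V'}
    {ψ : V' →ₗ[K] V''} {χ : V →ₗ[K] V''} (h1 : Adm d d' φ) (h2 : Adm d' d'' ψ) (h3 : Adm d d'' χ)
    (e : ∀ x, ψ (φ x) = χ x) (u : Hm d) : hmap d' d'' ψ (hmap d d' φ u) = hmap d d'' χ u := by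
  obtain ⟨z, hz, rfl⟩ := cl_surj u
  rw [hmap_cl h1, hmap_cl h2, hmap_cl h3]
  simp only [e]

theorem bij_of {d : V →ₗ[K] V} {d' : V' →ₗ[K] V'} {φ : V →ₗ[K] V'} (h : Adm d d' φ)
    (h1 : ∀ z w', d z = 0 → d' w' = φ z → ∃ w, d w = z)
    (h2 : ∀ z', d' z' = 0 → ∃ z w', d z = 0 ∧ d' w' = φ z - z') :
    Function.Bijective (hmap d d' φ) := by
  refine ⟨(injective_iff_map_eq_zero _).2 fun u hu => ?_, fun u' => ?_⟩
  · obtain ⟨z, hz, rfl⟩ := cl_surj u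
    rw [hmap_cl h, cl_eq_zero] at hu
    obtain ⟨w', hw'⟩ := hu
    exact cl_eq_zero.2 (h1 z w' hz hw')
  · obtain ⟨z', hz', rfl⟩ := cl_surj u'
    obtain ⟨z, w', hz, hw'⟩ := h2 z' hz'
    exact ⟨cl d z hz, by rw [hmap_cl h, cl_eq]; exact ⟨w', hw'⟩⟩

theorem bij_of_surj {d : V →ₗ[K] V} {d' : V' →ₗ[K] V'} {φ : V →ₗ[K] V'}
    (dd : ∀ x, d (d x) = 0) (h : ∀ x, φ (d x) = d' (φ x)) (hs : Function.Surjective φ)
    (hk : ∀ x, φ x = 0 → d x = 0 → ∃ y, φ y = 0 ∧ d y = x) :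
    Function.Bijective (hmap d d' φ) := by
  refine bij_of (adm_of_comm h) (fun z w' hz hw' => ?_) (fun z' hz' => ?_)
  · obtain ⟨w, rfl⟩ := hs w'
    obtain ⟨y, _, hy⟩ := hk (z - d w) (by rw [map_sub, h, hw', sub_self])
      (by rw [map_sub, hz, dd, sub_self])
    exact ⟨y + w, by rw [map_add, hy, sub_add_cancel]⟩
  · obtain ⟨x, rfl⟩ := hs z'
    obtain ⟨y, hy1, hy2⟩ := hk (d x) (by rw [h, hz']) (dd x)
    exact ⟨x - y, 0, by rw [map_sub, hy2, sub_self], by rw [map_sub, hy1]; simp⟩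

theorem bij_of_ses {d : V →ₗ[K] V} {d' : V' →ₗ[K] V'} {φ : V →ₗ[K] V'} {P : V →ₗ[K] V}
    {P' : V' →ₗ[K] V'} (dd : ∀ x, d (d x) = 0) (dd' : ∀ x, d' (d' x) = 0)
    (h : ∀ x, φ (d x) = d' (φ x)) (hP : ∀ x, P (P x) = P x) (hP' : ∀ x, P' (P' x) = P' x)
    (hφ : ∀ x, φ (P x) = P' (φ x))
    (s1 : ∀ x, P x = 0 → φ x = 0 → P (d x) = 0 → x = 0)
    (s2 : ∀ y c, P' y = 0 → P c = c → P' (d' y) = φ c → ∃ x, P x = 0 ∧ φ x = y ∧ P (d x) = c)
    (s3 : ∀ e, P' e = e → ∃ y c, P' y = 0 ∧ P c = c ∧ P' (d' y) + φ c = e) :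
    Function.Bijective (hmap d d' φ) := by
  have key : ∀ w', ∃ y c, P' (w' - d' y - φ c) = 0 := by
    intro w'
    obtain ⟨y, c, _, h2, h3⟩ := s3 (P' w') (hP' w')
    exact ⟨y, c, by rw [map_sub, map_sub, ← hφ, h2, ← h3]; abel⟩
  refine bij_of (adm_of_comm h) (fun z w' hz hw' => ?_) (fun z' hz' => ?_)
  · obtain ⟨y, c, h0⟩ := key w'
    have e : d' (w' - d' y - φ c) = φ (z - d c) := by
      rw [map_sub, map_sub, dd', hw', ← h, map_sub, sub_zero]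
    obtain ⟨x, x1, x2, x3⟩ := s2 _ (P (z - d c)) h0 (hP _) (by rw [e, hφ])
    have := s1 (z - d c - d x) (by rw [map_sub, x3, sub_self])
      (by rw [map_sub, h x, x2, e, sub_self]) (by simp [hz, dd])
    exact ⟨c + x, by rw [map_add, eq_comm, ← sub_eq_zero, ← this]; abel⟩
  · obtain ⟨y, c, h0⟩ := key z'
    have e : d' (z' - d' y - φ c) = φ (-d c) := by
      rw [map_sub, map_sub, dd', hz', ← h, map_neg]; simp
    obtain ⟨x, x1, x2, x3⟩ := s2 _ (P (-d c)) h0 (hP _) (by rw [e, hφ])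
    have := s1 (d (x + c)) (by rw [map_add, map_add, x3]; simp)
      (by rw [map_add, map_add, h x, x2, e]; simp) (by rw [dd, map_zero])
    exact ⟨x + c, -y, this, by rw [map_add, x2, map_neg]; abel⟩

theorem rank_step [Module.Finite K V] {d e e' : V →ₗ[K] V} (dd : ∀ x, d (d x) = 0)
    (he : ∀ x, e (e x) = e x) (h1 : ∀ x, d (e x) = e' (d x)) (h2 : ∀ x, d (e' x) = e (d x)) :
    finrank K (range e) + 0 = finrank K (range (hmap d d e)) +
      finrank K ((range e').map d) + finrank K ((range e).map d) := by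
  have hA : Adm d d e := ⟨fun z hz => by rw [h1, hz, map_zero], fun w => ⟨e' w, (h2 w).symm⟩⟩
  have a1 := finrank_range_add_finrank_ker (d.domRestrict (range e))
  rw [range_domRestrict, ker_domRestrict] at a1
  let ψ : ↥((ker d).comap (range e).subtype) →ₗ[K] Hm d :=
    (Submodule.mkQ _) ∘ₗ ((range e).subtype.restrict (p := (ker d).comap (range e).subtype)
      (q := ker d) fun _ hx => hx)
  have a2 := finrank_range_add_finrank_ker ψ
  have a3 : range ψ = range (hmap d d e) := by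
    ext u
    constructor
    · rintro ⟨⟨⟨_, x, rfl⟩, hx⟩, rfl⟩
      refine ⟨cl d (e x) hx, (hmap_cl hA (e x) hx).trans ?_⟩
      simp only [he]
      rfl
    · rintro ⟨u, rfl⟩
      obtain ⟨z, hz, rfl⟩ := cl_surj u
      exact ⟨⟨⟨e z, z, rfl⟩, hA.1 z hz⟩, (hmap_cl hA z hz).symm⟩
  have a4 : finrank K (ker ψ) = finrank K ((range e').map d) := by
    let j : ↥((ker d).comap (range e).subtype) →ₗ[K] V := (range e).subtype ∘ₗ Submodule.subtype _
    have hj : Function.Injective j := Subtype.val_injective.comp Subtype.val_injective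
    rw [(Submodule.equivMapOfInjective j hj (ker ψ)).finrank_eq]
    refine congrArg (fun S : Submodule K V => finrank K S) ?_
    · ext x
      constructor
      · rintro ⟨⟨⟨_, y, rfl⟩, hy⟩, h, rfl⟩
        obtain ⟨w, hw⟩ := (cl_eq_zero (hz := hy)).1 h
        exact ⟨e' w, ⟨w, rfl⟩, by rw [h2, hw]; exact he y⟩
      · rintro ⟨_, ⟨w, rfl⟩, rfl⟩
        exact ⟨⟨⟨d (e' w), d w, (h2 w).symm⟩, dd _⟩,
          (cl_eq_zero (hz := dd _)).2 ⟨_, rfl⟩, rfl⟩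
  rw [← a1, ← a2, a3, a4]
  ring

theorem euler [Module.Finite K V] {d e e' : V →ₗ[K] V} (dd : ∀ x, d (d x) = 0)
    (he : ∀ x, e (e x) = e x) (he' : ∀ x, e' (e' x) = e' x) (h1 : ∀ x, d (e x) = e' (d x))
    (h2 : ∀ x, d (e' x) = e (d x)) :
    (finrank K (range e) : ℤ) - finrank K (range e') =
      finrank K (range (hmap d d e)) - finrank K (range (hmap d d e')) := by
  have a := rank_step dd he h1 h2
  have b := rank_step dd he' h2 h1
  omega

theorem rank_conj {f : V →ₗ[K] V'} (hf : Function.Bijective f) {e : V →ₗ[K] V} {e' : V' →ₗ[K] V'}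
    (h : ∀ x, f (e x) = e' (f x)) : finrank K (range e') = finrank K (range e) := by
  rw [(Submodule.equivMapOfInjective f hf.1 (range e)).finrank_eq]
  refine congrArg (fun S : Submodule K V' => finrank K S) ?_
  ext x
  constructor
  · rintro ⟨y, rfl⟩
    obtain ⟨y, rfl⟩ := hf.2 y
    exact ⟨e y, ⟨y, rfl⟩, h y⟩
  · rintro ⟨_, ⟨y, rfl⟩, rfl⟩
    exact ⟨f y, (h y).symm⟩

open Classical in
/-- the inverse of a bijective linear map -/
noncomputable def linv (φ : V →ₗ[K] V') : V' →ₗ[K] V :=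
  if h : Function.Bijective φ then (LinearEquiv.ofBijective φ h).symm.toLinearMap else 0

theorem linv_apply {φ : V →ₗ[K] V'} (h : Function.Bijective φ) (v : V) : linv φ (φ v) = v := by
  unfold linv
  rw [dif_pos h]
  exact (LinearEquiv.ofBijective φ h).symm_apply_apply v

end Pool.Agent.MP_696f7f_ag.H96.W
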