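import Pool.Agent.MP_696f7f_ag.H96.CohI
import Pool.Agent.MP_696f7f_ag.H96.WAlg

/-!
The weight complex of a family of closed sets, pull-backs, and invariance under adding sets that
split along the family.
-/

namespace Pool.Agent.MP_696f7f_ag.H96.W

open Set

variable (T : CohF) (a : ℕ)
variable {X Y Z : Type} [TopologicalSpace X] [TopologicalSpace Y] [TopologicalSpace Z]

open Classical in
/-- pull-back as a total function -/
noncomputable def R (f : X → Y) (A : Set X) (B : Set Y) : T.H a Y B →ₗ[ZMod 2] T.H a X A :=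
  if h : ContinuousOn f A ∧ MapsTo f A B then T.res a f h.1 h.2 else 0

variable {T a}

theorem R_eq {f : X → Y} {A : Set X} {B : Set Y} (h1 : ContinuousOn f A) (h2 : MapsTo f A B) :
    R T a f A B = T.res a f h1 h2 := dif_pos ⟨h1, h2⟩

theorem R_comp {f : X → Y} {g : Y → Z} {k : X → Z} {A : Set X} {B : Set Y} {C : Set Z}
    (hf : Continuous f) (hg : Continuous g) (e : ∀ x, g (f x) = k x) (h1 : MapsTo f A B)
    (h2 : MapsTo g B C) (u : T.H a Z C) : R T a f A B (R T a g B C u) = R T a k A C u := by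
  obtain rfl : g ∘ f = k := funext e
  rw [R_eq hf.continuousOn h1, R_eq hg.continuousOn h2,
    R_eq (hg.comp hf).continuousOn (h2.comp h1)]
  exact T.res_comp a _ _ _ _ _ _ _ _ _ (fun _ _ => rfl) u

theorem R_id {A : Set X} (u : T.H a X A) : R T a id A A u = u := by
  rw [R_eq continuousOn_id (mapsTo_id A)]
  exact T.res_id a _ _ _ (fun _ _ => rfl) u

theorem R_sub {A B C : Set X} (h1 : A ⊆ B) (h2 : B ⊆ C) (u : T.H a X C) :
    R T a id A B (R T a id B C u) = R T a id A C u :=
  R_comp continuous_id continuous_id (fun _ => rfl) h1 h2 u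

theorem add_self {V : Type} [AddCommGroup V] [Module (ZMod 2) V] (x : V) : x + x = 0 := by
  rw [← two_smul (ZMod 2) x, show (2 : ZMod 2) = 0 from rfl, zero_smul]

theorem eq_of_add {V : Type} [AddCommGroup V] [Module (ZMod 2) V] {x y : V} (h : x + y = 0) :
    x = y := by
  rw [← add_zero x, ← add_self y, ← add_assoc, h, zero_add]

theorem sub_empty (hT : T.IsCoh) {A : Set X} (h : A = ∅) : Subsingleton (T.H a X A) :=
  h ▸ hT.empty a X

theorem glue (hT : T.IsCoh) [T2Space X] (s : Finset ℕ) (Q : ℕ → Set X)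
    (hc : ∀ i, IsCompact (Q i)) (hd : Pairwise fun i j => Disjoint (Q i) (Q j)) :
    ∀ A : Set X, A = ⋃ i ∈ s, Q i →
      (∀ u : T.H a X A, (∀ i ∈ s, R T a id (Q i) A u = 0) → u = 0) ∧
      ∀ v : ∀ i, T.H a X (Q i), ∃ u : T.H a X A, ∀ i ∈ s, R T a id (Q i) A u = v i := by
  induction s using Finset.induction_on with
  | empty =>
    intro A hA
    have := sub_empty (a := a) hT (A := A) (by simpa using hA)
    exact ⟨fun u _ => Subsingleton.elim _ _, fun _ => ⟨0, by simp⟩⟩
  | insert j s hj ih =>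
    intro A hA
    rw [Finset.set_biUnion_insert] at hA
    subst hA
    obtain ⟨i1, i2⟩ := ih _ rfl
    have hB : IsCompact (⋃ i ∈ s, Q i) := s.isCompact_biUnion fun i _ => hc i
    have hD : Disjoint (Q j) (⋃ i ∈ s, Q i) := by
      simp only [disjoint_iUnion_right]
      exact fun i hi => hd fun g => hj (g ▸ hi)
    have sp := hT.split a (hc j) hB hD
    have e1 : T.rs a (subset_union_left : Q j ⊆ Q j ∪ ⋃ i ∈ s, Q i) = R T a id _ _ :=
      (R_eq continuousOn_id _).symm
    have e2 : T.rs a (subset_union_right : (⋃ i ∈ s, Q i) ⊆ Q j ∪ ⋃ i ∈ s, Q i) = R T a id _ _ :=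
      (R_eq continuousOn_id _).symm
    rw [e1, e2] at sp
    have hs : ∀ i ∈ s, Q i ⊆ ⋃ i ∈ s, Q i := fun i hi => subset_biUnion_of_mem (u := Q) hi
    constructor
    · intro u hu
      refine (sp 0 0).unique ⟨hu j (by simp), i1 _ fun i hi => ?_⟩ ⟨map_zero _, map_zero _⟩
      rw [R_sub (hs i hi) subset_union_right]
      exact hu i (by simp [hi])
    · intro v
      obtain ⟨u, hu⟩ := i2 v
      obtain ⟨w, ⟨w1, w2⟩, _⟩ := sp (v j) u
      refine ⟨w, fun i hi => ?_⟩
      rcases Finset.mem_insert.1 hi with rfl | hi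
      · exact w1
      · rw [← R_sub (hs i hi) subset_union_right, w2, hu i hi]

variable {ι κ μ : Type}

/-- the stratum of a finite set of indices -/
def st (F : ι → Set X) (I : Finset ι) : Set X := {x | ∀ i ∈ I, x ∈ F i}

omit [TopologicalSpace X] in
theorem st_anti (F : ι → Set X) {I J : Finset ι} (h : I ⊆ J) : st F J ⊆ st F I :=
  fun _ hx i hi => hx i (h hi)

omit [TopologicalSpace X] in
theorem st_empty {F : ι → Set X} {I : Finset ι} {i : ι} (hi : i ∈ I) (h : F i = ∅) :
    st F I = ∅ := eq_empty_of_forall_notMem fun x hx => by simpa [h] using hx i hi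

theorem st_closed {F : ι → Set X} (h : ∀ i, IsClosed (F i)) (I : Finset ι) : IsClosed (st F I) := by
  have : st F I = ⋂ i ∈ I, F i := by ext x; simp [st]
  rw [this]
  exact isClosed_biInter fun i _ => h i

variable (T a)

/-- cochains -/
abbrev Wc (F : ι → Set X) : Type := (I : Finset ι) → T.H a X (st F I)

/-- the value of a cochain at `I`, pulled back to `B` -/
noncomputable def ev (F : ι → Set X) (f : Y → X) (B : Set Y) (I : Finset ι) :
    Wc T a F →ₗ[ZMod 2] T.H a Y B := R T a f B (st F I) ∘ₗ LinearMap.proj I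

/-- the differential -/
noncomputable def dW [DecidableEq ι] (F : ι → Set X) : Wc T a F →ₗ[ZMod 2] Wc T a F :=
  LinearMap.pi fun J => ∑ i ∈ J, ev T a F id (st F J) (J.erase i)

/-- pull-back of cochains -/
noncomputable def pb (F : ι → Set X) (G : κ → Set Y) (f : Y → X) (l : κ ↪ ι) :
    Wc T a F →ₗ[ZMod 2] Wc T a G := LinearMap.pi fun J => ev T a F f (st G J) (J.map l)

/-- keep the components whose index set satisfies `p` -/
noncomputable def cut (F : ι → Set X) (p : Finset ι → Prop) [DecidablePred p] :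
    Wc T a F →ₗ[ZMod 2] Wc T a F :=
  LinearMap.pi fun I => if p I then LinearMap.proj I else 0

variable {T a}

theorem ev_apply (F : ι → Set X) (f : Y → X) (B : Set Y) (I : Finset ι) (c : Wc T a F) :
    ev T a F f B I c = R T a f B (st F I) (c I) := rfl

theorem ev_self {F : ι → Set X} (I : Finset ι) (c : Wc T a F) : ev T a F id (st F I) I c = c I :=
  R_id _

theorem ev_zero {F : ι → Set X} {f : Y → X} {B : Set Y} {I : Finset ι} {c : Wc T a F}
    (h : c I = 0) : ev T a F f B I c = 0 := by rw [ev_apply, h, map_zero]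

theorem R_ev {F : ι → Set X} {f : Y → X} {g : Z → Y} {k : Z → X} {B : Set Y} {C : Set Z}
    {I : Finset ι} (hg : Continuous g) (hf : Continuous f) (e : ∀ x, f (g x) = k x)
    (h1 : MapsTo g C B) (h2 : MapsTo f B (st F I)) (c : Wc T a F) :
    R T a g C B (ev T a F f B I c) = ev T a F k C I c := R_comp hg hf e h1 h2 _

theorem R_ev_id {F : ι → Set X} {B C : Set X} {I : Finset ι} (h1 : C ⊆ B) (h2 : B ⊆ st F I)
    (c : Wc T a F) : R T a id C B (ev T a F id B I c) = ev T a F id C I c := R_sub h1 h2 _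

theorem dW_apply [DecidableEq ι] {F : ι → Set X} (c : Wc T a F) (J : Finset ι) :
    dW T a F c J = ∑ i ∈ J, ev T a F id (st F J) (J.erase i) c := by
  simp [dW, LinearMap.sum_apply]

theorem pb_apply {F : ι → Set X} {G : κ → Set Y} {f : Y → X} {l : κ ↪ ι} (c : Wc T a F)
    (J : Finset κ) : pb T a F G f l c J = ev T a F f (st G J) (J.map l) c := rfl

theorem cut_apply {F : ι → Set X} {p : Finset ι → Prop} [DecidablePred p] (c : Wc T a F)
    (I : Finset ι) : cut T a F p c I = if p I then c I else 0 := by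
  simp only [cut, LinearMap.pi_apply]
  split_ifs <;> rfl

theorem ev_cut {F : ι → Set X} {p : Finset ι → Prop} [DecidablePred p] (f : Y → X) (B : Set Y)
    (c : Wc T a F) (I : Finset ι) :
    ev T a F f B I (cut T a F p c) = if p I then ev T a F f B I c else 0 := by
  rw [ev_apply, cut_apply]
  split_ifs
  · rfl
  · exact map_zero _

theorem cut_cut {F : ι → Set X} {p : Finset ι → Prop} [DecidablePred p] (c : Wc T a F) :
    cut T a F p (cut T a F p c) = cut T a F p c := by
  funext I
  simp only [cut_apply]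
  split_ifs <;> rfl

theorem ev_d [DecidableEq ι] {F : ι → Set X} {f : Y → X} {B : Set Y} {J : Finset ι}
    (hf : Continuous f) (h : MapsTo f B (st F J)) (c : Wc T a F) :
    ev T a F f B J (dW T a F c) = ∑ i ∈ J, ev T a F f B (J.erase i) c := by
  rw [ev_apply, dW_apply, map_sum]
  exact Finset.sum_congr rfl fun i _ =>
    R_ev hf continuous_id (fun _ => rfl) h (st_anti F (J.erase_subset i)) c

theorem dd [DecidableEq ι] {F : ι → Set X} (c : Wc T a F) : dW T a F (dW T a F c) = 0 := by
  funext J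
  rw [dW_apply, Finset.sum_congr rfl fun i _ =>
    ev_d continuous_id (show MapsTo id _ _ from st_anti F (J.erase_subset i)) c,
    Finset.sum_sigma']
  refine Finset.sum_involution (fun x _ => ⟨x.2, x.1⟩) (fun x _ => ?_) (fun x hx _ g => ?_)
    (fun x hx => ?_) (fun x _ => rfl)
  · simp only
    rw [Finset.erase_right_comm (a := x.2)]
    exact add_self _
  · simp only [Finset.mem_sigma, Finset.mem_erase] at hx
    exact hx.2.1 (congrArg Sigma.fst g)
  · simp only [Finset.mem_sigma, Finset.mem_erase] at hx ⊢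
    exact ⟨hx.2.2, hx.2.1.symm, hx.1⟩

/-- a continuous map together with an injective map of indices -/
def SM (F : ι → Set X) (G : κ → Set Y) (f : Y → X) (l : κ ↪ ι) : Prop :=
  Continuous f ∧ ∀ j, MapsTo f (G j) (F (l j))

theorem SM.st {F : ι → Set X} {G : κ → Set Y} {f : Y → X} {l : κ ↪ ι} (h : SM F G f l)
    (J : Finset κ) : MapsTo f (st G J) (st F (J.map l)) := by
  intro x hx i hi
  obtain ⟨j, hj, rfl⟩ := Finset.mem_map.1 hi
  exact h.2 j (hx j hj)

theorem ev_pb {F : ι → Set X} {G : κ → Set Y} {f : Y → X} {l : κ ↪ ι} (h : SM F G f l)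
    {g : Z → Y} {k : Z → X} {C : Set Z} {J : Finset κ} (hg : Continuous g)
    (e : ∀ x, f (g x) = k x) (h1 : MapsTo g C (st G J)) (c : Wc T a F) :
    ev T a G g C J (pb T a F G f l c) = ev T a F k C (J.map l) c :=
  R_ev hg h.1 e h1 (h.st J) c

theorem pb_d [DecidableEq ι] [DecidableEq κ] {F : ι → Set X} {G : κ → Set Y} {f : Y → X}
    {l : κ ↪ ι} (h : SM F G f l) (c : Wc T a F) :
    pb T a F G f l (dW T a F c) = dW T a G (pb T a F G f l c) := by
  funext J
  rw [pb_apply, ev_d h.1 (h.st J), dW_apply, Finset.sum_map]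
  refine Finset.sum_congr rfl fun j _ => ?_
  rw [ev_pb (k := f) h continuous_id (fun _ => rfl) (st_anti G (J.erase_subset j)),
    Finset.map_erase]

theorem SM.adm [DecidableEq ι] [DecidableEq κ] {F : ι → Set X} {G : κ → Set Y} {f : Y → X}
    {l : κ ↪ ι} (h : SM F G f l) : Adm (dW T a F) (dW T a G) (pb T a F G f l) :=
  adm_of_comm (pb_d h)

theorem pb_comp {F : ι → Set X} {G : κ → Set Y} {E : μ → Set Z} {f : Y → X} {g : Z → Y}
    {k : Z → X} {l : κ ↪ ι} {m : μ ↪ κ} {n : μ ↪ ι} (h : SM F G f l) (h' : SM G E g m)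
    (e : ∀ x, f (g x) = k x) (e' : ∀ j, l (m j) = n j) (c : Wc T a F) :
    pb T a G E g m (pb T a F G f l c) = pb T a F E k n c := by
  funext J
  have : m.trans l = n := Function.Embedding.ext e'
  rw [pb_apply, ev_pb h h'.1 e (h'.st J), pb_apply, Finset.map_map, this]

theorem pb_cut {F : ι → Set X} {G : κ → Set Y} {f : Y → X} {l : κ ↪ ι} {p : Finset ι → Prop}
    {q : Finset κ → Prop} [DecidablePred p] [DecidablePred q] (h : ∀ J, p (J.map l) ↔ q J)
    (c : Wc T a F) : pb T a F G f l (cut T a F p c) = cut T a G q (pb T a F G f l c) := by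
  funext J
  rw [pb_apply, ev_cut, cut_apply, pb_apply]
  exact if_congr (h J) rfl rfl

theorem d_cut [DecidableEq ι] {F : ι → Set X} {p q : Finset ι → Prop} [DecidablePred p]
    [DecidablePred q] (h : ∀ J, ∀ i ∈ J, p (J.erase i) ↔ q J) (c : Wc T a F) :
    dW T a F (cut T a F p c) = cut T a F q (dW T a F c) := by
  funext J
  rw [cut_apply, dW_apply, dW_apply]
  simp only [ev_cut]
  split_ifs with g
  · exact Finset.sum_congr rfl fun i hi => if_pos ((h J i hi).2 g)
  · exact Finset.sum_eq_zero fun i hi => if_neg (mt (h J i hi).1 g)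

/-- the map induced on homology by a pull-back -/
noncomputable abbrev hp (T : CohF) (a : ℕ) [DecidableEq ι] [DecidableEq κ] (F : ι → Set X)
    (G : κ → Set Y) (f : Y → X) (l : κ ↪ ι) : Hm (dW T a F) →ₗ[ZMod 2] Hm (dW T a G) :=
  hmap (dW T a F) (dW T a G) (pb T a F G f l)

theorem hp_comp [DecidableEq ι] [DecidableEq κ] [DecidableEq μ] {F : ι → Set X} {G : κ → Set Y}
    {E : μ → Set Z} {f : Y → X} {g : Z → Y} {k : Z → X} {l : κ ↪ ι} {m : μ ↪ κ} {n : μ ↪ ι}
    (h : SM F G f l) (h' : SM G E g m) (e : ∀ x, f (g x) = k x) (e' : ∀ j, l (m j) = n j)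
    (u : Hm (dW T a F)) : hp T a G E g m (hp T a F G f l u) = hp T a F E k n u := by
  refine hmap_comp h.adm h'.adm (SM.adm ⟨?_, fun j x hx => ?_⟩) (pb_comp h h' e e') u
  · rw [← show f ∘ g = k from funext e]; exact h.1.comp h'.1
  · rw [← e, ← e']; exact h.2 _ (h'.2 j hx)

/-- `A` is a finite disjoint union of closed sets, each contained in a member of `G` -/
def Spl (A : Set X) (G : κ → Set X) : Prop :=
  ∃ (s : Finset ℕ) (Q : ℕ → Set X), (∀ i, IsClosed (Q i)) ∧
    (Pairwise fun i j => Disjoint (Q i) (Q j)) ∧ A = ⋃ i ∈ s, Q i ∧ ∀ i ∈ s, ∃ j, Q i ⊆ G j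

theorem sm_update [DecidableEq ι] (F : ι → Set X) (j0 : ι) :
    SM F (Function.update F j0 ∅) id (Function.Embedding.refl ι) := by
  refine ⟨continuous_id, fun j => ?_⟩
  by_cases g : j = j0
  · subst g; simp [mapsTo_empty]
  · simp [g, mapsTo_id]

theorem drop_one (hT : T.IsCoh) [T2Space X] [CompactSpace X] [DecidableEq ι] {F : ι → Set X}
    (hF : ∀ i, IsClosed (F i)) (j0 : ι) (h : Spl (F j0) fun i : {i // i ≠ j0} => F i) :
    Function.Bijective (hp T a F (Function.update F j0 ∅) id (Function.Embedding.refl ι)) := by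
  have hS := sm_update F j0
  have e1 : ∀ I, j0 ∉ I → st (Function.update F j0 ∅) I = st F I := by
    intro I hI
    ext x
    refine forall₂_congr fun i hi => ?_
    rw [Function.update_of_ne (fun g : i = j0 => hI (g ▸ hi))]
  have e2 : ∀ I, j0 ∈ I → Subsingleton (T.H a X (st (Function.update F j0 ∅) I)) :=
    fun I hI => sub_empty hT (st_empty hI (by simp))
  have e3 : ∀ c : Wc T a F, pb T a F (Function.update F j0 ∅) id (Function.Embedding.refl ι) c = 0 ↔
      ∀ I, j0 ∉ I → c I = 0 := by
    intro c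
    constructor
    · intro hc I hI
      have := congrFun hc I
      rw [pb_apply, Finset.map_refl] at this
      rw [← ev_self I c, ← R_ev_id (B := st (Function.update F j0 ∅) I) (e1 I hI).ge (e1 I hI).le,
        this]
      exact map_zero _
    · intro hc
      funext I
      by_cases hI : j0 ∈ I
      · exact (e2 I hI).elim _ _
      · rw [pb_apply, Finset.map_refl, ev_zero (hc I hI)]; rfl
  refine bij_of_surj dd (pb_d hS) (fun c => ?_) (fun c h1 h2 => ?_)
  · refine ⟨fun I => ev T a _ id (st F I) I c, funext fun I => ?_⟩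
    by_cases hI : j0 ∈ I
    · exact (e2 I hI).elim _ _
    · rw [pb_apply, Finset.map_refl, ev_apply, R_ev_id (e1 I hI).le (e1 I hI).ge, ev_self]
  obtain ⟨s, Q, q1, q2, q3, q4⟩ := h
  have : Nonempty ι := ⟨j0⟩
  have q5 : ∀ i ∈ s, ∃ j, j ≠ j0 ∧ Q i ⊆ F j := fun i hi => by
    obtain ⟨j, hj⟩ := q4 i hi
    exact ⟨j.1, j.2, hj⟩
  choose! m hm0 hm using q5
  rw [e3] at h1
  have G : ∀ I, j0 ∈ I → _ := fun I hI => glue (a := a) hT s (fun i => Q i ∩ st F I)
    (fun i => ((q1 i).inter (st_closed hF I)).isCompact)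
    (fun i j hij => (q2 hij).mono inter_subset_left inter_subset_left) (st F I) (by
      ext x
      simp only [mem_iUnion, mem_inter_iff, exists_and_right, iff_and_self]
      intro hx
      simpa [q3] using hx j0 hI)
  have hin : ∀ i ∈ s, ∀ I J : Finset ι, I ⊆ insert (m i) J → Q i ∩ st F J ⊆ st F I := by
    intro i hi I J hIJ x hx j hj
    rcases Finset.mem_insert.1 (hIJ hj) with rfl | hj
    · exact hm i hi hx.1
    · exact hx.2 j hj
  have ex : ∀ I, ∃ y : T.H a X (st F I), (j0 ∉ I → y = 0) ∧ (j0 ∈ I → ∀ i ∈ s,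
      R T a id (Q i ∩ st F I) (st F I) y =
        if (m i) ∈ I then 0 else ev T a F id (Q i ∩ st F I) (insert (m i) I) c) := by
    intro I
    by_cases hI : j0 ∈ I
    · obtain ⟨y, hy⟩ := (G I hI).2 fun i =>
        if (m i) ∈ I then 0 else ev T a F id (Q i ∩ st F I) (insert (m i) I) c
      exact ⟨y, fun g => (g hI).elim, fun _ => hy⟩
    · exact ⟨0, fun _ => rfl, fun g => (hI g).elim⟩
  choose y y1 y2 using ex
  refine ⟨y, (e3 y).2 y1, funext fun J => ?_⟩
  by_cases hJ : j0 ∈ J
  swap
  · rw [h1 J hJ, dW_apply]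
    exact Finset.sum_eq_zero fun i _ => ev_zero (y1 _ fun g => hJ (Finset.mem_of_mem_erase g))
  refine sub_eq_zero.1 ((G J hJ).1 _ fun i hi => ?_)
  rw [map_sub, sub_eq_zero, ← ev_apply F id _ J (dW T a F y), ← ev_apply F id _ J c,
    ev_d continuous_id (show MapsTo id _ _ from inter_subset_right)]
  have t : ∀ j ∈ J, ev T a F id (Q i ∩ st F J) (J.erase j) y =
      if (m i) ∈ J.erase j then 0 else
        ev T a F id (Q i ∩ st F J) (insert (m i) (J.erase j)) c := by
    intro j hj
    by_cases g : j = j0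
    · subst g
      rw [ev_zero (y1 _ (by simp)), ev_zero (h1 _ (by simp [(hm0 i hi).symm]))]
      simp
    · have k1 : Q i ∩ st F J ⊆ Q i ∩ st F (J.erase j) :=
        inter_subset_inter_right _ (st_anti F (J.erase_subset j))
      rw [ev_apply, ← R_sub k1 inter_subset_right,
        y2 _ (Finset.mem_erase.2 ⟨fun g' => g g'.symm, hJ⟩) i hi]
      split_ifs
      · exact map_zero _
      · exact R_ev_id k1 (hin i hi _ _ subset_rfl) c
  rw [Finset.sum_congr rfl t]
  by_cases g : (m i) ∈ J
  · rw [Finset.sum_eq_single_of_mem _ g fun j _ hj => if_pos (Finset.mem_erase.2 ⟨hj.symm, g⟩),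
      if_neg (by simp), Finset.insert_erase g]
  · have k := ev_d (T := T) (a := a) continuous_id
      (show MapsTo id _ _ from hin i hi (insert (m i) J) J subset_rfl) c
    rw [h2, map_zero, Finset.sum_insert g, Finset.erase_insert g] at k
    rw [eq_of_add k.symm]
    refine Finset.sum_congr rfl fun j hj => ?_
    rw [if_neg fun g' => g (Finset.mem_of_mem_erase g'),
      Finset.erase_insert_of_ne fun g' : m i = j => g (g' ▸ hj)]

theorem drop_none (hT : T.IsCoh) [DecidableEq ι] [DecidableEq κ] {F : ι → Set X} {G : κ → Set X}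
    {l : κ ↪ ι} (h1 : ∀ j, F (l j) = G j) (h2 : ∀ i, i ∉ range l → F i = ∅) :
    Function.Bijective (hp T a F G id l) := by
  have hS : SM F G id l := ⟨continuous_id, fun j => (h1 j).ge⟩
  have e1 : ∀ J, st F (J.map l) = st G J := by
    intro J
    ext x
    simp [st, h1]
  refine bij_of_surj dd (pb_d hS) (fun c => ?_) (fun c k1 _ => ⟨0, map_zero _, ?_⟩)
  · refine ⟨fun I => ev T a G id (st F I) (I.preimage l l.injective.injOn) c, funext fun J => ?_⟩
    rw [pb_apply, ev_apply, Finset.preimage_map, R_ev_id (e1 J).ge (e1 J).le, ev_self]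
  · rw [map_zero]
    funext I
    by_cases hI : ∀ i ∈ I, i ∈ range l
    · obtain ⟨J, rfl⟩ : ∃ J : Finset κ, J.map l = I :=
        ⟨I.preimage l l.injective.injOn, by
          ext i
          simp only [Finset.mem_map, Finset.mem_preimage]
          constructor
          · rintro ⟨j, hj, rfl⟩; exact hj
          · intro hi
            obtain ⟨j, rfl⟩ := hI i hi
            exact ⟨j, hi, rfl⟩⟩
      have := congrFun k1 J
      rw [pb_apply] at this
      rw [← ev_self _ c, ← R_ev_id (B := st G J) (e1 J).le (e1 J).ge, this]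
      exact (map_zero _).symm
    · push Not at hI
      obtain ⟨i, hi, hi'⟩ := hI
      exact (sub_empty hT (st_empty hi (h2 i hi'))).elim _ _

theorem drop (hT : T.IsCoh) [T2Space X] [CompactSpace X] [DecidableEq ι] [DecidableEq κ]
    {G : κ → Set X} {l : κ ↪ ι} (N : Finset ι) : ∀ {F : ι → Set X}, (∀ i, IsClosed (F i)) →
    (∀ j, F (l j) = G j) → (∀ i, i ∉ range l → i ∉ N → F i = ∅) →
    (∀ i, i ∉ range l → Spl (F i) G) → Function.Bijective (hp T a F G id l) := by
  induction N using Finset.induction_on with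
  | empty => exact fun _ h1 h2 _ => drop_none hT h1 fun i hi => h2 i hi (by simp)
  | insert j0 N _ ih =>
    intro F hF h1 h2 h3
    by_cases g : j0 ∈ range l
    · exact ih hF h1 (fun i hi hi' => h2 i hi (by
        simp only [Finset.mem_insert, not_or]
        exact ⟨fun e => hi (e ▸ g), hi'⟩)) h3
    have hl : ∀ j, l j ≠ j0 := fun j e => g ⟨j, e⟩
    have u1 : ∀ j, Function.update F j0 ∅ (l j) = G j := fun j => by
      rw [Function.update_of_ne (hl j), h1]
    have b1 := ih (F := Function.update F j0 ∅) (fun i => by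
        by_cases e : i = j0
        · subst e; simp
        · rw [Function.update_of_ne e]; exact hF i) u1 (fun i hi hi' => by
        by_cases e : i = j0
        · subst e; simp
        · rw [Function.update_of_ne e]; exact h2 i hi (by simp [e, hi'])) (fun i hi => by
        by_cases e : i = j0
        · subst e
          exact ⟨∅, fun _ => ∅, by simp, fun _ _ _ => by simp, by simp, by simp⟩
        · rw [Function.update_of_ne e]; exact h3 i hi)
    have b2 := drop_one (a := a) hT hF j0 (by
      obtain ⟨s, Q, q1, q2, q3, q4⟩ := h3 j0 g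
      refine ⟨s, Q, q1, q2, q3, fun i hi => ?_⟩
      obtain ⟨j, hj⟩ := q4 i hi
      exact ⟨⟨l j, hl j⟩, by rw [← h1] at hj; exact hj⟩)
    have hS := sm_update F j0
    have := b1.comp b2
    rwa [show _ ∘ _ = ⇑(hp T a F G id l) from funext fun u =>
      hp_comp hS ⟨continuous_id, fun j => (u1 j).ge⟩ (fun _ => rfl) (fun _ => rfl) u] at this

end Pool.Agent.MP_696f7f_ag.H96.W
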