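import Pool.Agent.MP_696f7f_ag.H96.WCx

/-!
The map induced on the homology of weight complexes by a map of pairs, and the proof of `WStmt`.
-/

namespace Pool.Agent.MP_696f7f_ag.H96

open Set Function

namespace W

variable {T : CohF} {a : ℕ}
variable {X Y : Type} [TopologicalSpace X] [TopologicalSpace Y] {ι κ : Type}

theorem Spl.mono {A : Set X} {G : κ → Set X} {G' : ι → Set X} (h : Spl A G)
    (h' : ∀ j, ∃ i, G j ⊆ G' i) : Spl A G' := by
  obtain ⟨s, Q, q1, q2, q3, q4⟩ := h
  refine ⟨s, Q, q1, q2, q3, fun i hi => ?_⟩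
  obtain ⟨j, hj⟩ := q4 i hi
  obtain ⟨i', hi'⟩ := h' j
  exact ⟨i', hj.trans hi'⟩

theorem Spl.of_sub {A : Set X} {G : κ → Set X} (h : IsClosed A) (j : κ) (h' : A ⊆ G j) :
    Spl A G := by
  refine ⟨{0}, fun i => if i = 0 then A else ∅, fun i => ?_, fun i j hij => ?_, by simp,
    fun i hi => ⟨j, ?_⟩⟩
  · dsimp only
    split_ifs
    exacts [h, isClosed_empty]
  · by_cases h1 : i = 0
    · have : j ≠ 0 := fun g => hij (h1.trans g.symm)
      simp [this]
    · simp [h1]
  · dsimp only
    rw [if_pos (Finset.mem_singleton.1 hi)]; exact h'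

theorem spl_of_splits {A : Set Y} (P : Pr) {f : Y → P.X} (h : Splits A f P.D) :
    Spl A fun i => f ⁻¹' P.D i := by
  obtain ⟨Q, q1, q2, q3, q4⟩ := h
  refine ⟨Finset.range P.k, Q, q1, q2, ?_, fun i _ => ⟨i, q4 i⟩⟩
  rw [q3]
  ext x
  simp only [mem_iUnion, Finset.mem_range, exists_prop]
  refine ⟨fun ⟨i, hi⟩ => ⟨i, ?_, hi⟩, fun ⟨i, _, hi⟩ => ⟨i, hi⟩⟩
  by_contra g
  simpa [P.bd i (not_lt.1 g)] using q4 i hi

omit [TopologicalSpace X] in
theorem splits_single {A : Set Y} {f : Y → X} {D : ℕ → Set X} (h : IsClosed A) (j : ℕ)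
    (h' : MapsTo f A (D j)) : Splits A f D := by
  refine ⟨fun i => if i = j then A else ∅, fun i => ?_, fun i i' hij => ?_, ?_, fun i => ?_⟩
  · dsimp only
    split_ifs
    exacts [h, isClosed_empty]
  · by_cases h1 : i = j
    · have : i' ≠ j := fun g => hij (h1.trans g.symm)
      simp [this]
    · simp [h1]
  · ext x; simp
  · dsimp only
    split_ifs with g
    exacts [g ▸ h', mapsTo_empty _ _]

theorem pm_comp {P'' P' P : Pr} {f : P'.X → P.X} {g : P''.X → P'.X} (hf : PM P' P f)
    (hg : PM P'' P' g) : PM P'' P (f ∘ g) := by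
  refine ⟨hf.1.comp hg.1, fun j => ?_⟩
  obtain ⟨Q, q1, q2, q3, q4⟩ := hg.2 j
  choose S s1 s2 s3 s4 using hf.2
  refine ⟨fun l => ⋃ i ∈ Finset.range P'.k, Q i ∩ g ⁻¹' S i l, fun l => ?_, fun l l' hl => ?_, ?_,
    fun l x hx => ?_⟩
  · exact isClosed_biUnion_finset fun i _ => (q1 i).inter ((s1 i l).preimage hg.1)
  · simp only [disjoint_iUnion_left, disjoint_iUnion_right]
    intro i _ i' _
    by_cases e : i' = i
    · subst e
      exact ((s2 i' hl).preimage g).mono inter_subset_right inter_subset_right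
    · exact (q2 e).mono inter_subset_left inter_subset_left
  · rw [q3]
    ext x
    simp only [mem_iUnion, Finset.mem_range, exists_prop, mem_inter_iff, mem_preimage]
    constructor
    · rintro ⟨i, hi⟩
      have h1 := q4 i hi
      have h2 : i < P'.k := by
        by_contra g'
        simp [P'.bd i (not_lt.1 g')] at h1
      rw [s3 i] at h1
      obtain ⟨l, hl⟩ := mem_iUnion.1 h1
      exact ⟨l, i, h2, hi, hl⟩
    · rintro ⟨_, i, _, hi, _⟩
      exact ⟨i, hi⟩
  · simp only [mem_iUnion, mem_inter_iff, mem_preimage] at hx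
    obtain ⟨i, _, _, hi⟩ := hx
    exact s4 i l hi

/-- only finitely many members are nonempty -/
def FS (F : ι → Set X) : Prop := {i | F i ≠ ∅}.Finite

theorem fs_pr (P : Pr) : FS P.D :=
  (finite_lt_nat P.k).subset fun i hi => not_le.1 fun g => hi (P.bd i g)

theorem drop_inr (hT : T.IsCoh) [T2Space X] [CompactSpace X] [DecidableEq ι] [DecidableEq κ]
    {F : ι → Set X} {G : κ → Set X} (hF : ∀ i, IsClosed (F i)) (hG : ∀ i, IsClosed (G i))
    (h1 : FS F) (h2 : ∀ i, Spl (F i) G) :
    Bijective (hp T a (Sum.elim F G) G id Embedding.inr) := by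
  refine drop hT (h1.toFinset.map Embedding.inl) (Sum.rec hF hG) (fun _ => rfl) ?_ ?_
  · rintro (i | i) g g'
    · by_contra k
      exact g' (Finset.mem_map_of_mem _ (h1.mem_toFinset.2 k))
    · exact (g ⟨i, rfl⟩).elim
  · rintro (i | i) g
    · exact h2 i
    · exact (g ⟨i, rfl⟩).elim

theorem drop_inl (hT : T.IsCoh) [T2Space X] [CompactSpace X] [DecidableEq ι] [DecidableEq κ]
    {F : ι → Set X} {G : κ → Set X} (hF : ∀ i, IsClosed (F i)) (hG : ∀ i, IsClosed (G i))
    (h1 : FS G) (h2 : ∀ i, Spl (G i) F) :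
    Bijective (hp T a (Sum.elim F G) F id Embedding.inl) := by
  refine drop hT (h1.toFinset.map Embedding.inr) (Sum.rec hF hG) (fun _ => rfl) ?_ ?_
  · rintro (i | i) g g'
    · exact (g ⟨i, rfl⟩).elim
    · by_contra k
      exact g' (Finset.mem_map_of_mem _ (h1.mem_toFinset.2 k))
  · rintro (i | i) g
    · exact (g ⟨i, rfl⟩).elim
    · exact h2 i

/-- the family of the source together with the pull-back of the family of the target -/
def U (P' P : Pr) (f : P'.X → P.X) : ℕ ⊕ ℕ → Set P'.X := Sum.elim P'.D fun i => f ⁻¹' P.D i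

variable (T a)

/-- restriction to the family of the source -/
noncomputable abbrev al (P' P : Pr) (f : P'.X → P.X) := hp T a (U P' P f) P'.D id Embedding.inl

/-- restriction to the pull-back of the family of the target -/
noncomputable abbrev be (P' P : Pr) (f : P'.X → P.X) :=
  hp T a (U P' P f) (fun i => f ⁻¹' P.D i) id Embedding.inr

/-- pull-back along the map -/
noncomputable abbrev ga (P' P : Pr) (f : P'.X → P.X) :=
  hp T a P.D (fun i => f ⁻¹' P.D i) f (Embedding.refl ℕ)

/-- the induced map -/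
noncomputable def ind (P' P : Pr) (f : P'.X → P.X) :
    Hm (dW T a P.D) →ₗ[ZMod 2] Hm (dW T a P'.D) :=
  al T a P' P f ∘ₗ linv (be T a P' P f) ∘ₗ ga T a P' P f

variable {T a}

theorem sm_al (P' P : Pr) (f : P'.X → P.X) : SM (U P' P f) P'.D id Embedding.inl :=
  ⟨continuous_id, fun _ => mapsTo_id _⟩

theorem sm_be (P' P : Pr) (f : P'.X → P.X) :
    SM (U P' P f) (fun i => f ⁻¹' P.D i) id Embedding.inr := ⟨continuous_id, fun _ => mapsTo_id _⟩

theorem sm_ga {P' P : Pr} {f : P'.X → P.X} (h : Continuous f) :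
    SM P.D (fun i => f ⁻¹' P.D i) f (Embedding.refl ℕ) := ⟨h, fun _ _ hx => hx⟩

theorem be_bij (hT : T.IsCoh) {P' P : Pr} {f : P'.X → P.X} (h : PM P' P f) :
    Bijective (be T a P' P f) :=
  drop_inr hT P'.closed (fun i => (P.closed i).preimage h.1) (fs_pr P')
    fun i => spl_of_splits P (h.2 i)

theorem ind_spec (hT : T.IsCoh) {P' P : Pr} {f : P'.X → P.X} (h : PM P' P f) {u v}
    (e : be T a P' P f v = ga T a P' P f u) : ind T a P' P f u = al T a P' P f v := by
  unfold ind
  rw [LinearMap.comp_apply, LinearMap.comp_apply, ← e, linv_apply (be_bij hT h)]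

theorem ind_comp (hT : T.IsCoh) {P'' P' P : Pr} {f : P'.X → P.X} {g : P''.X → P'.X}
    (hf : PM P' P f) (hg : PM P'' P' g) (u : Hm (dW T a P.D)) :
    ind T a P'' P' g (ind T a P' P f u) = ind T a P'' P (f ∘ g) u := by
  obtain ⟨v, hv⟩ := (be_bij (a := a) hT hf).2 (ga T a P' P f u)
  let E : ℕ ⊕ ℕ → Set P''.X := fun i => g ⁻¹' U P' P f i
  have hE : ∀ i, IsClosed (E i) :=
    Sum.rec (fun i => (P'.closed i).preimage hg.1)
      fun i => ((P.closed i).preimage hf.1).preimage hg.1
  have m0 : SM (U P' P f) E g (Embedding.refl _) := ⟨hg.1, fun _ _ hx => hx⟩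
  obtain ⟨w, hw⟩ := (drop_inr (a := a) hT P''.closed hE (fs_pr P'') fun i =>
    (spl_of_splits P' (hg.2 i)).mono fun j => ⟨Sum.inl j, subset_rfl⟩).2
      (hp T a (U P' P f) E g (Embedding.refl _) v)
  have m1 : SM (Sum.elim P''.D E) (U P'' P' g) id
      ((Embedding.refl ℕ).sumMap Embedding.inl) :=
    ⟨continuous_id, Sum.rec (fun _ => mapsTo_id _) fun _ => mapsTo_id _⟩
  have m2 : SM (Sum.elim P''.D E) (U P'' P (f ∘ g)) id
      ((Embedding.refl ℕ).sumMap Embedding.inr) :=
    ⟨continuous_id, Sum.rec (fun _ => mapsTo_id _) fun _ => mapsTo_id _⟩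
  have m3 : SM (Sum.elim P''.D E) E id Embedding.inr := ⟨continuous_id, fun _ => mapsTo_id _⟩
  have m4 : SM E (fun i => g ⁻¹' P'.D i) id Embedding.inl := ⟨continuous_id, fun _ => mapsTo_id _⟩
  have m5 : SM E (fun i => (f ∘ g) ⁻¹' P.D i) id Embedding.inr :=
    ⟨continuous_id, fun _ => mapsTo_id _⟩
  have m6 : SM (fun i => f ⁻¹' P.D i) (fun i => (f ∘ g) ⁻¹' P.D i) g (Embedding.refl ℕ) :=
    ⟨hg.1, fun _ _ hx => hx⟩
  have e1 : be T a P'' P' g (hp T a _ _ id ((Embedding.refl ℕ).sumMap Embedding.inl) w) =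
      ga T a P'' P' g (al T a P' P f v) := by
    rw [hp_comp (k := id) (n := Embedding.inl.trans Embedding.inr) m1 (sm_be _ _ _)
        (fun _ => rfl) (fun _ => rfl),
      ← hp_comp (k := id) (n := Embedding.inl.trans Embedding.inr) m3 m4 (fun _ => rfl)
        (fun _ => rfl), hw,
      hp_comp (k := g) (n := Embedding.inl) m0 m4 (fun _ => rfl) (fun _ => rfl),
      hp_comp (k := g) (n := Embedding.inl) (sm_al _ _ _) (sm_ga hg.1) (fun _ => rfl)
        (fun _ => rfl)]
  have e2 : be T a P'' P (f ∘ g) (hp T a _ _ id ((Embedding.refl ℕ).sumMap Embedding.inr) w) =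
      ga T a P'' P (f ∘ g) u := by
    rw [hp_comp (k := id) (n := Embedding.inr.trans Embedding.inr) m2 (sm_be _ _ _)
        (fun _ => rfl) (fun _ => rfl),
      ← hp_comp (k := id) (n := Embedding.inr.trans Embedding.inr) m3 m5 (fun _ => rfl)
        (fun _ => rfl), hw,
      hp_comp (k := g) (n := Embedding.inr) m0 m5 (fun _ => rfl) (fun _ => rfl),
      ← hp_comp (k := g) (n := Embedding.inr) (sm_be P' P f) m6 (fun _ => rfl) (fun _ => rfl), hv,
      hp_comp (k := f ∘ g) (n := Embedding.refl ℕ) (sm_ga hf.1) m6 (fun _ => rfl) (fun _ => rfl)]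
  rw [ind_spec hT hf hv, ind_spec hT hg e1, ind_spec hT (pm_comp hf hg) e2,
    hp_comp (k := id) (n := Embedding.inl) m1 (sm_al _ _ _) (fun _ => rfl) (fun _ => rfl),
    hp_comp (k := id) (n := Embedding.inl) m2 (sm_al _ _ _) (fun _ => rfl) (fun _ => rfl)]

theorem ind_bij (hT : T.IsCoh) {P' P : Pr} {f : P'.X → P.X} (h : PM P' P f) {E : ℕ → Set P.X}
    (hE : ∀ i, IsClosed (E i)) (h0 : FS E) (h1 : ∀ j, Spl (E j) P.D) (h2 : ∀ i, Spl (P.D i) E)
    (h3 : SM E P'.D f (Embedding.refl ℕ)) (h4 : Bijective (hp T a E P'.D f (Embedding.refl ℕ))) :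
    Bijective (ind T a P' P f) := by
  have b1 := drop_inr (a := a) hT hE P.closed h0 h1
  have b2 := drop_inl (a := a) hT hE P.closed (fs_pr P) h2
  have m1 : SM (Sum.elim E P.D) (U P' P f) f (Embedding.refl _) :=
    ⟨h.1, Sum.rec h3.2 fun _ _ hx => hx⟩
  have m2 : SM (Sum.elim E P.D) P.D id Embedding.inr := ⟨continuous_id, fun _ => mapsTo_id _⟩
  have m3 : SM (Sum.elim E P.D) E id Embedding.inl := ⟨continuous_id, fun _ => mapsTo_id _⟩
  rw [← Bijective.of_comp_iff _ b1]
  convert h4.comp b2 using 1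
  funext w
  have e : be T a P' P f (hp T a _ _ f (Embedding.refl _) w) =
      ga T a P' P f (hp T a (Sum.elim E P.D) P.D id Embedding.inr w) := by
    rw [hp_comp (k := f) (n := Embedding.inr) m1 (sm_be _ _ _) (fun _ => rfl) (fun _ => rfl),
      hp_comp (k := f) (n := Embedding.inr) m2 (sm_ga h.1) (fun _ => rfl) (fun _ => rfl)]
  rw [comp_apply, comp_apply, ind_spec hT h e,
    hp_comp (k := f) (n := Embedding.inl) m1 (sm_al _ _ _) (fun _ => rfl) (fun _ => rfl),
    hp_comp (k := f) (n := Embedding.inl) m3 h3 (fun _ => rfl) (fun _ => rfl)]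

/-- the short exact sequence in terms of total pull-backs -/
def Tri (T : CohF) (a : ℕ) (π : Y → X) (A B : Set X) (A' B' : Set Y) : Prop :=
  (∀ u : T.H a X A, R T a π A' A u = 0 → R T a id B A u = 0 → u = 0) ∧
  (∀ u' c, R T a id B' A' u' = R T a π B' B c → ∃ u, R T a π A' A u = u' ∧ R T a id B A u = c) ∧
  ∀ w, ∃ u' c, R T a id B' A' u' + R T a π B' B c = w

theorem tri_of_ses {π : Y → X} {A B A0 C : Set X} {A' B' A0' : Set Y} {hc : ContinuousOn π A0'}
    {hm : MapsTo π A0' A0} (h : T.SES A0 A0' C π hc hm) (e1 : A = A0) (e2 : A' = A0')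
    (e3 : B = A0 ∩ C) (e4 : B' = A0' ∩ π ⁻¹' C) : Tri T a π A B A' B' := by
  subst e1 e2 e3 e4
  unfold Tri
  rw [R_eq hc hm, R_eq continuousOn_id (inter_subset_left : A ∩ C ⊆ A),
    R_eq continuousOn_id (inter_subset_left : A' ∩ π ⁻¹' C ⊆ A'),
    R_eq (A := A' ∩ π ⁻¹' C) (B := A ∩ C) (hc.mono inter_subset_left) fun _ h => ⟨hm h.1, h.2⟩]
  exact ⟨h.inj a, h.exact a, h.surj a⟩

theorem d_insert [DecidableEq ι] {F : ι → Set X} {k : ι} {x : Wc T a F}
    (hx : cut T a F (k ∈ ·) x = 0) {I : Finset ι} (hI : k ∉ I) :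
    dW T a F x (insert k I) = R T a id (st F (insert k I)) (st F I) (x I) := by
  rw [dW_apply, Finset.sum_insert hI, Finset.erase_insert hI, Finset.sum_eq_zero, add_zero,
    ev_apply]
  intro i hi
  have := congrFun hx ((insert k I).erase i)
  rw [cut_apply, if_pos (Finset.mem_erase.2 ⟨fun g : k = i => hI (g ▸ hi), by simp⟩)] at this
  exact ev_zero this

theorem cone_bij [DecidableEq ι] {E : ι → Set X} {G : ι → Set Y} {π : Y → X} (k : ι)
    (hS : SM E G π (Embedding.refl ι))
    (h : ∀ I, k ∉ I → Tri T a π (st E I) (st E (insert k I)) (st G I) (st G (insert k I))) :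
    Bijective (hp T a E G π (Embedding.refl ι)) := by
  have pb' : ∀ c J, pb T a E G π (Embedding.refl ι) c J = R T a π (st G J) (st E J) (c J) :=
    fun c J => by rw [pb_apply, Finset.map_refl, ev_apply]
  have ins : ∀ J : Finset ι, k ∈ J → ∃ I, k ∉ I ∧ J = insert k I :=
    fun J hJ => ⟨J.erase k, by simp, (Finset.insert_erase hJ).symm⟩
  refine bij_of_ses (P := cut T a E (k ∈ ·)) (P' := cut T a G (k ∈ ·)) dd dd (pb_d hS) cut_cut
    cut_cut (pb_cut fun J => by rw [Finset.map_refl]) (fun x x1 x2 x3 => ?_)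
    (fun y c y1 c1 e => ?_) (fun e he => ?_)
  · funext I
    by_cases hI : k ∈ I
    · simpa [cut_apply, hI] using congrFun x1 I
    · refine (h I hI).1 _ (by rw [← pb', x2]; rfl) ?_
      rw [← d_insert x1 hI]
      simpa [cut_apply] using congrFun x3 (insert k I)
  · have ex : ∀ I, ∃ u : T.H a X (st E I), (k ∈ I → u = 0) ∧ (k ∉ I →
        R T a π (st G I) (st E I) u = y I ∧
          R T a id (st E (insert k I)) (st E I) u = c (insert k I)) := by
      intro I
      by_cases hI : k ∈ I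
      · exact ⟨0, fun _ => rfl, fun g => (g hI).elim⟩
      · obtain ⟨u, hu⟩ := (h I hI).2.1 (y I) (c (insert k I)) (by
          rw [← d_insert y1 hI, ← pb', ← e, cut_apply, if_pos (by simp)])
        exact ⟨u, fun g => (hI g).elim, fun _ => hu⟩
    choose x x1 x2 using ex
    have x0 : cut T a E (k ∈ ·) x = 0 := funext fun I => by
      rw [cut_apply]
      split_ifs with g
      exacts [x1 I g, rfl]
    refine ⟨x, x0, funext fun I => ?_, funext fun J => ?_⟩
    · rw [pb']
      by_cases hI : k ∈ I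
      · rw [x1 I hI, map_zero]
        simpa [cut_apply, hI] using (congrFun y1 I).symm
      · exact (x2 I hI).1
    · rw [cut_apply]
      split_ifs with hJ
      · obtain ⟨I, hI, rfl⟩ := ins J hJ
        rw [d_insert x0 hI, (x2 I hI).2]
      · rw [← c1, cut_apply, if_neg hJ]
  · have ex : ∀ I, ∃ (u : T.H a Y (st G I)) (c : T.H a X (st E (insert k I))), (k ∈ I → u = 0) ∧
        (k ∉ I → R T a id (st G (insert k I)) (st G I) u +
          R T a π (st G (insert k I)) (st E (insert k I)) c = e (insert k I)) := by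
      intro I
      by_cases hI : k ∈ I
      · exact ⟨0, 0, fun _ => rfl, fun g => (g hI).elim⟩
      · obtain ⟨u, c, hu⟩ := (h I hI).2.2 (e (insert k I))
        exact ⟨u, c, fun g => (hI g).elim, fun _ => hu⟩
    choose y c y1 y2 using ex
    have y0 : cut T a G (k ∈ ·) y = 0 := funext fun I => by
      rw [cut_apply]
      split_ifs with g
      exacts [y1 I g, rfl]
    refine ⟨y, cut T a E (k ∈ ·) fun J => R T a id _ _ (c (J.erase k)), y0, cut_cut _,
      funext fun J => ?_⟩
    rw [Pi.add_apply, pb', cut_apply, cut_apply]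
    split_ifs with hJ
    · obtain ⟨I, hI, rfl⟩ := ins J hJ
      have : ∀ I', I' = I → R T a id (st E (insert k I)) (st E (insert k I')) (c I') = c I := by
        rintro _ rfl
        exact R_id _
      rw [d_insert y0 hI, this _ (Finset.erase_insert hI), y2 I hI]
    · rw [← he, cut_apply, if_neg hJ, map_zero, add_zero]

theorem blow_pm {P' P : Pr} {π : P'.X → P.X} {C : Set P.X} (h : BlowPr T P' P π C) :
    PM P' P π := by
  refine ⟨h.cont, fun j => ?_⟩
  rcases lt_trichotomy j P.k with g | rfl | g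
  · exact splits_single (P'.closed j) j (h.maps j g)
  · obtain ⟨Q, q1, q2, q3, q4⟩ := h.split
    exact ⟨fun i => π ⁻¹' Q i, fun i => (q1 i).preimage h.cont, fun i j hij => (q2 hij).preimage π,
      by rw [h.exc, q3, preimage_iUnion], fun i x hx => q4 i hx⟩
  · exact splits_single (P'.closed j) j (by
      rw [P'.bd j (by rw [h.k]; omega)]; exact mapsTo_empty _ _)

theorem blow_bij (hT : T.IsCoh) {P' P : Pr} {π : P'.X → P.X} {C : Set P.X}
    (h : BlowPr T P' P π C) : Bijective (ind T a P' P π) := by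
  have e0 : ∀ j, P.k < j → P'.D j = ∅ := fun j g => P'.bd j (by rw [h.k]; omega)
  have hS : SM (update P.D P.k C) P'.D π (Embedding.refl ℕ) := by
    refine ⟨h.cont, fun j => ?_⟩
    rw [Embedding.refl_apply]
    rcases lt_trichotomy j P.k with g | rfl | g
    · rw [update_of_ne g.ne]; exact h.maps j g
    · rw [update_self, h.exc]; exact mapsTo_preimage _ _
    · rw [e0 j g]; exact mapsTo_empty _ _
  refine ind_bij hT (blow_pm h) (E := update P.D P.k C) (fun i => ?_) ?_ (fun j => ?_)
    (fun i => ?_) hS (cone_bij P.k hS fun I hI => ?_)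
  · by_cases g : i = P.k
    · rw [g, update_self]; exact h.closed
    · rw [update_of_ne g]; exact P.closed i
  · refine (finite_le_nat P.k).subset fun i hi => (not_lt.1 fun g => hi ?_ : i ≤ P.k)
    rw [update_of_ne g.ne', P.bd i g.le]
  · by_cases g : j = P.k
    · rw [g, update_self]; exact spl_of_splits P h.split
    · rw [update_of_ne g]; exact Spl.of_sub (P.closed j) j subset_rfl
  · refine Spl.of_sub (P.closed i) i ?_
    by_cases g : i = P.k
    · rw [g, P.bd _ le_rfl]; exact empty_subset _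
    · rw [update_of_ne g]
  · by_cases g : ∀ i ∈ I, i < P.k
    · have e1 : st (update P.D P.k C) I = strat P.D I := by
        ext x
        exact forall₂_congr fun i hi => by rw [update_of_ne (g i hi).ne]
      refine tri_of_ses (h.ses I g) e1 rfl ?_ ?_
      · rw [← e1]
        ext x
        simp [st, and_comm]
      · ext x
        simp [st, strat, h.exc, and_comm]
    · push Not at g
      obtain ⟨i, hi, g⟩ := g
      have g' : P.k < i := lt_of_le_of_ne g fun e => hI (e ▸ hi)
      have e1 : update P.D P.k C i = ∅ := by rw [update_of_ne g'.ne', P.bd i g]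
      have s1 := sub_empty (a := a) hT (st_empty hi e1)
      have s2 := sub_empty (a := a) hT (st_empty (Finset.mem_insert_of_mem (b := P.k) hi) e1)
      have s3 := sub_empty (a := a) hT (st_empty hi (e0 i g'))
      have s4 := sub_empty (a := a) hT (st_empty (Finset.mem_insert_of_mem (b := P.k) hi) (e0 i g'))
      exact ⟨fun u _ _ => s1.elim _ _, fun _ _ _ => ⟨0, s3.elim _ _, s2.elim _ _⟩,
        fun _ => ⟨0, 0, s4.elim _ _⟩⟩

theorem rank_cut (hT : T.IsCoh) (P : Pr) (hP : P.Fin T) (p : Finset ℕ → Prop) [DecidablePred p] :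
    Module.Finite (ZMod 2) (LinearMap.range (cut T a P.D p)) ∧
    (Module.finrank (ZMod 2) (LinearMap.range (cut T a P.D p)) : ℤ) =
      ∑ I ∈ (Finset.range P.k).powerset.filter p, T.bt a (strat P.D I) := by
  let s := (Finset.range P.k).powerset.filter p
  let ρ : LinearMap.range (cut T a P.D p) →ₗ[ZMod 2] ((I : s) → T.H a P.X (strat P.D I)) :=
    LinearMap.pi fun I => LinearMap.proj (φ := fun I => T.H a P.X (st P.D I)) I.1 ∘ₗ
      Submodule.subtype _
  have out : ∀ I : Finset ℕ, I ∉ (Finset.range P.k).powerset →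
      Subsingleton (T.H a P.X (st P.D I)) := by
    intro I hI
    rw [Finset.mem_powerset, Finset.not_subset] at hI
    obtain ⟨i, hi, g⟩ := hI
    exact sub_empty hT (st_empty hi (P.bd i (by simpa using g)))
  have hρ : Bijective ρ := by
    refine ⟨(injective_iff_map_eq_zero _).2 ?_, fun v => ?_⟩
    · rintro ⟨_, c, rfl⟩ hc
      refine Subtype.ext (funext fun I => ?_)
      by_cases h1 : I ∈ (Finset.range P.k).powerset
      · by_cases h2 : p I
        · exact congrFun hc ⟨I, Finset.mem_filter.2 ⟨h1, h2⟩⟩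
        · exact (cut_apply c I).trans (if_neg h2)
      · exact (out I h1).elim _ _
    · refine ⟨⟨_, fun I => if h : I ∈ s then v ⟨I, h⟩ else 0, rfl⟩, funext fun I => ?_⟩
      refine (cut_apply _ I.1).trans ?_
      rw [if_pos (Finset.mem_filter.1 I.2).2]
      exact dif_pos I.2
  have := hP a
  refine ⟨Module.Finite.of_injective ρ hρ.1, ?_⟩
  rw [(LinearEquiv.ofBijective ρ hρ).finrank_eq, Module.finrank_pi_fintype, Nat.cast_sum]
  exact Finset.sum_coe_sort s fun I => T.bt a (strat P.D I)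

theorem par1 [DecidableEq ι] (J : Finset ι) (i : ι) (hi : i ∈ J) :
    Even (J.erase i).card ↔ ¬ Even J.card := by
  rw [← Finset.card_erase_add_one hi, Nat.even_add_one, not_not]

theorem par2 [DecidableEq ι] (J : Finset ι) (i : ι) (hi : i ∈ J) :
    ¬ Even (J.erase i).card ↔ Even J.card := by
  rw [par1 J i hi, not_not]

/-- the projection to a parity class on homology -/
noncomputable abbrev hc (T : CohF) (a : ℕ) [DecidableEq ι] (F : ι → Set X) (p : ℕ → Prop)
    [DecidablePred p] := hmap (dW T a F) (dW T a F) (cut T a F fun I => p I.card)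

theorem eul_eq (hT : T.IsCoh) (P : Pr) (hP : P.Fin T) :
    P.eul T a = (Module.finrank (ZMod 2) (LinearMap.range (hc T a P.D Even)) : ℤ) -
      Module.finrank (ZMod 2) (LinearMap.range (hc T a P.D fun n => ¬ Even n)) := by
  have h0 := (rank_cut (a := a) hT P hP fun _ => True).1
  have h1 : LinearMap.range (cut T a P.D fun _ => True) = ⊤ :=
    LinearMap.range_eq_top.2 fun c => ⟨c, funext fun I => (cut_apply c I).trans (if_pos trivial)⟩
  rw [h1] at h0
  have : Module.Finite (ZMod 2) (Wc T a P.D) := Module.Finite.equiv Submodule.topEquiv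
  rw [← euler dd cut_cut cut_cut (d_cut par1) (d_cut par2), (rank_cut hT P hP _).2,
    (rank_cut hT P hP _).2, Finset.sum_filter, Finset.sum_filter, ← Finset.sum_sub_distrib]
  refine Finset.sum_congr rfl fun I _ => ?_
  by_cases g : Even I.card
  · simp [g, g.neg_one_pow]
  · simp [g, (Nat.not_even_iff_odd.1 g).neg_one_pow]

theorem adm_cut [DecidableEq ι] (F : ι → Set X) {p q : ℕ → Prop} [DecidablePred p]
    [DecidablePred q] (h1 : ∀ n, p n ↔ q (n + 1)) (h2 : ∀ n, q n ↔ p (n + 1)) :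
    Adm (dW T a F) (dW T a F) (cut T a F fun I => p I.card) := by
  refine ⟨fun z hz => ?_, fun w => ⟨cut T a F (fun I => q I.card) w, (d_cut ?_ w).symm⟩⟩
  · rw [d_cut (q := fun I => q I.card), hz, map_zero]
    intro J i hi
    rw [← Finset.card_erase_add_one hi, h1]
  · intro J i hi
    rw [← Finset.card_erase_add_one hi, h2]

theorem ind_hc (hT : T.IsCoh) {P' P : Pr} {f : P'.X → P.X} (h : PM P' P f) {p q : ℕ → Prop}
    [DecidablePred p] [DecidablePred q] (h1 : ∀ n, p n ↔ q (n + 1)) (h2 : ∀ n, q n ↔ p (n + 1))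
    (u : Hm (dW T a P.D)) : ind T a P' P f (hc T a P.D p u) = hc T a P'.D p (ind T a P' P f u) := by
  obtain ⟨v, hv⟩ := (be_bij (a := a) hT h).2 (ga T a P' P f u)
  have e : be T a P' P f (hc T a _ p v) = ga T a P' P f (hc T a _ p u) := by
    rw [hmap_sq (adm_cut _ h1 h2) (sm_be P' P f).adm (sm_be P' P f).adm (adm_cut _ h1 h2)
        (pb_cut fun J => by rw [Finset.card_map]),
      hmap_sq (adm_cut _ h1 h2) (sm_ga h.1).adm (sm_ga h.1).adm (adm_cut _ h1 h2)
        (pb_cut fun J => by rw [Finset.card_map])]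
    exact congrArg _ hv
  rw [ind_spec hT h e, ind_spec hT h hv]
  exact hmap_sq (adm_cut _ h1 h2) (sm_al P' P f).adm (sm_al P' P f).adm (adm_cut _ h1 h2)
    (pb_cut fun J => by rw [Finset.card_map]) v

end W

open W

theorem wStmt : WStmt := by
  intro T hT
  refine ⟨fun P' P f => PM P' P f ∧ ∀ a, Bijective (ind T a P' P f), fun _ _ _ h => h.1,
    fun P => ?_, fun P'' P' P f g hf hg => ⟨pm_comp hf.1 hg.1, fun a => ?_⟩,
    fun P' P π C h => ⟨blow_pm h, fun a => blow_bij hT h⟩,
    fun P3 P2 P1 P0 f g h hf hg hh h1 h2 => ⟨hg, fun a => ⟨?_, ?_⟩⟩,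
    fun P' P f h h1 h2 => funext fun a => ?_⟩
  · have h : PM P P id := ⟨continuous_id, fun j => splits_single (P.closed j) j (mapsTo_id _)⟩
    have s : ∀ j, Spl (P.D j) P.D := fun j => Spl.of_sub (P.closed j) j subset_rfl
    exact ⟨h, fun a => ind_bij hT h P.closed (fs_pr P) s s ⟨continuous_id, fun _ => mapsTo_id _⟩
      (drop_none hT (fun _ => rfl) fun i hi => (hi ⟨i, rfl⟩).elim)⟩
  · rw [← show _ ∘ _ = ⇑(ind T a P'' P (f ∘ g)) from funext (ind_comp hT hf.1 hg.1)]
    exact (hg.2 a).comp (hf.2 a)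
  · have := (h2.2 a).1
    rw [← show _ ∘ _ = ⇑(ind T a P3 P1 (g ∘ h)) from funext (ind_comp hT hg hh)] at this
    exact this.of_comp
  · have := (h1.2 a).2
    rw [← show _ ∘ _ = ⇑(ind T a P2 P0 (f ∘ g)) from funext (ind_comp hT hf hg)] at this
    exact this.of_comp
  · have e1 : ∀ n, Even n ↔ ¬ Even (n + 1) := fun n => by rw [Nat.even_add_one, not_not]
    have e2 : ∀ n, ¬ Even n ↔ Even (n + 1) := fun n => Nat.even_add_one.symm
    rw [eul_eq hT P' h1, eul_eq hT P h2, rank_conj (h.2 a) (ind_hc hT h.1 e1 e2),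
      rank_conj (h.2 a) (ind_hc hT h.1 e2 e1)]

end Pool.Agent.MP_696f7f_ag.H96
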